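import Pool.Agent.H935R2.PS.Defs

set_option autoImplicit false

/-!
# Task A1 (helper269): basic facts about `nn`, `dl`, `La`, `uu`
-/

namespace Pool.Agent.H935R2.PS

open Finset

variable {q : ℕ}

theorem nn_le [NeZero q] (x : ZMod q) : nn x ≤ q / 2 := ZMod.natAbs_valMinAbs_le x

theorem nn_neg [NeZero q] (x : ZMod q) : nn (-x) = nn x := ZMod.natAbs_valMinAbs_neg x

theorem dl_neg [NeZero q] (x : ZMod q) : dl (-x) = dl x := by
  unfold dl
  rw [nn_neg]

theorem nn_eq_zero [NeZero q] (x : ZMod q) : nn x = 0 ↔ x = 0 := by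
  unfold nn
  rw [Int.natAbs_eq_zero, ZMod.valMinAbs_eq_zero]

theorem nn_add_le [NeZero q] (x y : ZMod q) : nn (x + y) ≤ nn x + nn y :=
  (ZMod.natAbs_valMinAbs_add_le x y).trans (Int.natAbs_add_le _ _)

theorem nn_intCast_le [NeZero q] (z : ℤ) : nn (z : ZMod q) ≤ z.natAbs := by
  unfold nn
  refine ZMod.natAbs_min_of_le_div_two q _ _ ?_ (ZMod.natAbs_valMinAbs_le _)
  rw [ZMod.coe_valMinAbs]

theorem valMinAbs_intCast [NeZero q] (z : ℤ) (h : 2 * z.natAbs < q) :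
    ((z : ZMod q)).valMinAbs = z := by
  rw [ZMod.valMinAbs_spec]
  refine ⟨rfl, ?_⟩
  rw [Set.mem_Ioc]
  omega

theorem La_le [NeZero q] : 2 ^ La q ≤ q := Nat.pow_log_le_self 2 (NeZero.ne q)

theorem lt_La (q : ℕ) : q < 2 ^ (La q + 1) := Nat.lt_pow_succ_log_self one_lt_two q

theorem La_lt_uu (q : ℕ) : La q < 2 ^ uu q := Nat.lt_pow_succ_log_self one_lt_two (La q)

theorem uu_le (q : ℕ) (hq : 2 ≤ q) : 2 ^ uu q ≤ 2 * La q := by
  have h1 : La q ≠ 0 := by
    unfold La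
    exact (Nat.log_pos one_lt_two hq).ne'
  unfold uu
  rw [pow_succ, mul_comm]
  exact Nat.mul_le_mul_left 2 (Nat.pow_log_le_self 2 h1)

theorem dl_lt [NeZero q] (hq : 2 ≤ q) (x : ZMod q) (_hx : x ≠ 0) : dl x < La q := by
  have h1 : dl x ≤ Nat.log 2 (q / 2) := Nat.log_mono_right (nn_le x)
  rw [Nat.log_div_base] at h1
  have h2 : 0 < Nat.log 2 q := Nat.log_pos one_lt_two hq
  unfold La
  omega

theorem dl_le [NeZero q] (x : ZMod q) : dl x ≤ La q :=
  Nat.log_mono_right ((nn_le x).trans (Nat.div_le_self _ _))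

theorem two_pow_dl_le [NeZero q] (x : ZMod q) (hx : x ≠ 0) : 2 ^ dl x ≤ nn x :=
  Nat.pow_log_le_self 2 (fun h => hx ((nn_eq_zero x).mp h))

theorem nn_lt_two_pow [NeZero q] (x : ZMod q) : nn x < 2 ^ (dl x + 1) :=
  Nat.lt_pow_succ_log_self one_lt_two (nn x)

theorem dl_lt_iff [NeZero q] (x : ZMod q) (hx : x ≠ 0) (b : ℕ) : dl x < b ↔ nn x < 2 ^ b :=
  Nat.log_lt_iff_lt_pow one_lt_two (fun h => hx ((nn_eq_zero x).mp h))

open Classical in
theorem card_nn_lt [NeZero q] (B : ℕ) :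
    ((univ : Finset (ZMod q)).filter (fun x => nn x < B)).card ≤ 2 * B := by
  have h1 : (((univ : Finset (ZMod q)).filter (fun x => nn x < B)).image ZMod.valMinAbs) ⊆
      Ioo (-(B:ℤ)) B := by
    intro z hz
    obtain ⟨x, hx, rfl⟩ := mem_image.mp hz
    have h2 : nn x < B := (mem_filter.mp hx).2
    unfold nn at h2
    rw [mem_Ioo]
    omega
  have h2 := card_le_card h1
  rw [card_image_of_injective _ ZMod.injective_valMinAbs, Int.card_Ioo] at h2
  omega

open Classical in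
theorem card_dl [NeZero q] (b : ℕ) :
    ((univ : Finset (ZMod q)).filter (fun x => x ≠ 0 ∧ dl x = b)).card ≤ 2 ^ (b + 1) := by
  have h1 : (((univ : Finset (ZMod q)).filter (fun x => x ≠ 0 ∧ dl x = b)).image ZMod.valMinAbs) ⊆
      Ico (2 ^ b : ℤ) (2 ^ b + 2 ^ b) ∪ Ioc (-(2 ^ b + 2 ^ b : ℤ)) (-(2 ^ b)) := by
    intro z hz
    obtain ⟨x, hx, rfl⟩ := mem_image.mp hz
    obtain ⟨-, hx0, hxb⟩ := mem_filter.mp hx
    have h2 := two_pow_dl_le x hx0
    have h3 := nn_lt_two_pow x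
    rw [hxb] at h2 h3
    unfold nn at h2 h3
    have h4 : ((2 ^ b : ℕ) : ℤ) = 2 ^ b := by push_cast; rfl
    rw [pow_succ] at h3
    rw [mem_union, mem_Ico, mem_Ioc, ← h4]
    omega
  have h2 := (card_le_card h1).trans (card_union_le _ _)
  rw [card_image_of_injective _ ZMod.injective_valMinAbs, Int.card_Ico, Int.card_Ioc] at h2
  have h4 : ((2 ^ b : ℕ) : ℤ) = 2 ^ b := by push_cast; rfl
  rw [← h4] at h2
  rw [pow_succ]
  omega

open Classical in
theorem sum_inv_nn [NeZero q] (_hq : 2 ≤ q) :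
    ∑ x ∈ (univ : Finset (ZMod q)).filter (fun x => x ≠ 0),
    (1:ℝ) / nn x ≤ 2 * (La q + 1) := by
  have hmap : ∀ x ∈ (univ : Finset (ZMod q)).filter (fun x => x ≠ 0),
      dl x ∈ range (La q + 1) := by
    intro x _
    rw [mem_range]
    exact Nat.lt_succ_of_le (dl_le x)
  rw [← Finset.sum_fiberwise_of_maps_to hmap]
  have h1 : ∀ b ∈ range (La q + 1),
      ∑ x ∈ ((univ : Finset (ZMod q)).filter (fun x => x ≠ 0)).filter (fun x => dl x = b),
        (1:ℝ) / nn x ≤ 2 := by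
    intro b _
    rw [Finset.filter_filter]
    have h2 : ∀ x ∈ (univ : Finset (ZMod q)).filter (fun x => x ≠ 0 ∧ dl x = b),
        (1:ℝ) / nn x ≤ 1 / 2 ^ b := by
      intro x hx
      obtain ⟨-, hx0, hxb⟩ := mem_filter.mp hx
      have h3 := two_pow_dl_le x hx0
      rw [hxb] at h3
      have h4 : (2:ℝ) ^ b ≤ nn x := by exact_mod_cast h3
      exact one_div_le_one_div_of_le (by positivity) h4
    refine (Finset.sum_le_sum h2).trans ?_
    rw [Finset.sum_const, nsmul_eq_mul]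
    have h5 : ((((univ : Finset (ZMod q)).filter (fun x => x ≠ 0 ∧ dl x = b)).card : ℕ) : ℝ) ≤
        2 ^ (b + 1) := by exact_mod_cast card_dl b
    calc ((((univ : Finset (ZMod q)).filter (fun x => x ≠ 0 ∧ dl x = b)).card : ℕ) : ℝ) * (1 / 2 ^ b)
        ≤ 2 ^ (b + 1) * (1 / 2 ^ b) := mul_le_mul_of_nonneg_right h5 (by positivity)
      _ = 2 := by
          rw [pow_succ]
          field_simp
  refine (Finset.sum_le_sum h1).trans (le_of_eq ?_)
  rw [Finset.sum_const, card_range, nsmul_eq_mul]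
  push_cast
  ring

theorem mx_eq [NeZero q] (x : ZMod q) (hx : x ≠ 0) : mx x = nn x := by
  unfold mx
  apply max_eq_right
  have h1 : nn x ≠ 0 := fun h => hx ((nn_eq_zero x).mp h)
  exact_mod_cast Nat.one_le_iff_ne_zero.mpr h1

theorem mx_zero [NeZero q] : mx (0 : ZMod q) = 1 := by
  unfold mx
  rw [(nn_eq_zero (0 : ZMod q)).mpr rfl]
  simp

theorem one_le_mx (x : ZMod q) : 1 ≤ mx x := le_max_left _ _

open Classical in
theorem sum_inv_mx [NeZero q] (hq : 2 ≤ q) : ∑ x : ZMod q, (1:ℝ) / mx x ≤ 3 * (La q + 1) := by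
  rw [← Finset.sum_filter_add_sum_filter_not univ (fun x : ZMod q => x ≠ 0)]
  have h1 : ∑ x ∈ (univ : Finset (ZMod q)).filter (fun x => x ≠ 0), (1:ℝ) / mx x =
      ∑ x ∈ (univ : Finset (ZMod q)).filter (fun x => x ≠ 0), (1:ℝ) / nn x :=
    Finset.sum_congr rfl fun x hx => by rw [mx_eq x (mem_filter.mp hx).2]
  have h2 : (univ : Finset (ZMod q)).filter (fun x => ¬ x ≠ 0) = {0} := by
    ext x
    simp
  rw [h1, h2, Finset.sum_singleton, mx_zero]
  have h3 := sum_inv_nn hq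
  have h4 : (0:ℝ) ≤ La q := Nat.cast_nonneg _
  linarith

end Pool.Agent.H935R2.PS
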