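import Pool.Agent.H935R2.PS.Defs

set_option autoImplicit false

/-!
# Task A2: characters
-/

namespace Pool.Agent.H935R2.PS

open Finset

variable {q : ℕ}

namespace TA2

theorem sum_char' [Fact q.Prime] (x : ZMod q) :
    ∑ l : ZMod q, ZMod.stdAddChar (l * x) = if x = 0 then (q : ℂ) else 0 := by
  have h := AddChar.sum_mulShift x (ZMod.isPrimitive_stdAddChar q)
  rw [h]
  split_ifs
  · rw [ZMod.card]
  · simp

theorem nn_neg' (x : ZMod q) : nn (-x) = nn x := by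
  unfold nn
  exact ZMod.natAbs_valMinAbs_neg x

theorem mx_neg (x : ZMod q) : mx (-x) = mx x := by
  unfold mx
  rw [nn_neg']

theorem nn_pos [NeZero q] (x : ZMod q) (hx : x ≠ 0) : 1 ≤ nn x := by
  unfold nn
  rw [Nat.one_le_iff_ne_zero, Int.natAbs_ne_zero]
  intro h
  exact hx ((ZMod.valMinAbs_eq_zero x).1 h)

theorem mx_eq [NeZero q] (x : ZMod q) (hx : x ≠ 0) : mx x = nn x := by
  unfold mx
  rw [max_eq_right]
  exact_mod_cast nn_pos x hx

theorem one_le_mx (x : ZMod q) : 1 ≤ mx x := le_max_left _ _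

theorem norm_char [NeZero q] (x : ZMod q) : ‖ZMod.stdAddChar x‖ = 1 := by
  exact AddChar.norm_apply _ _

theorem char_pow [NeZero q] (v : ZMod q) (j : ℕ) :
    ZMod.stdAddChar (v * (j : ZMod q)) = (ZMod.stdAddChar v) ^ j := by
  rw [← AddChar.map_nsmul_eq_pow]
  congr 1
  rw [nsmul_eq_mul, mul_comm]

theorem G_eq [NeZero q] (c : ZMod q) (t : ℕ) (v : ZMod q) :
    G c t v = ZMod.stdAddChar (-(v * c)) * ∑ j ∈ Icc 1 t, (ZMod.stdAddChar v) ^ j := by
  unfold G
  rw [Finset.mul_sum]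
  refine Finset.sum_congr rfl fun j _ => ?_
  rw [← char_pow, ← AddChar.map_add_eq_mul]
  congr 1
  ring

theorem geom (z : ℂ) (hz : ‖z‖ = 1) (t : ℕ) :
    ‖∑ j ∈ Icc 1 t, z ^ j‖ * ‖z - 1‖ ≤ 2 := by
  rw [← norm_mul]
  have h : (∑ j ∈ Icc 1 t, z ^ j) * (z - 1) = z ^ (t + 1) - z := by
    induction t with
    | zero => simp
    | succ t ih =>
      rw [Finset.sum_Icc_succ_top (by omega), add_mul, ih]
      ring
  rw [h]
  refine (norm_sub_le _ _).trans ?_
  rw [norm_pow, hz, one_pow]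
  norm_num

theorem norm_char_sub [NeZero q] (v : ZMod q) :
    2 * (nn v : ℝ) / q ≤ ‖ZMod.stdAddChar v - 1‖ := by
  have hq : (0 : ℝ) < q := by exact_mod_cast Nat.pos_of_ne_zero (NeZero.ne q)
  have h1 : ZMod.stdAddChar v = Complex.exp (Complex.I * ((2 * Real.pi * v.valMinAbs / q : ℝ) : ℂ)) := by
    conv_lhs => rw [← ZMod.coe_valMinAbs v]
    rw [ZMod.stdAddChar_coe]
    congr 1
    push_cast
    ring
  rw [h1, Complex.norm_exp_I_mul_ofReal_sub_one]
  have h2 : (2 * Real.pi * v.valMinAbs / q : ℝ) / 2 = Real.pi * v.valMinAbs / q := by ring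
  rw [h2, norm_mul, Real.norm_eq_abs, Real.norm_eq_abs, abs_of_pos (by norm_num : (0:ℝ) < 2)]
  have h3 : |Real.pi * v.valMinAbs / q| = Real.pi * (nn v) / q := by
    rw [abs_div, abs_mul, abs_of_pos Real.pi_pos, abs_of_pos hq]
    congr 2
    unfold nn
    rw [Nat.cast_natAbs]
    push_cast
    rfl
  have h4 : (nn v : ℝ) ≤ q / 2 := by
    have h5 : nn v ≤ q / 2 := ZMod.natAbs_valMinAbs_le v
    have h6 : ((q / 2 : ℕ) : ℝ) ≤ (q : ℝ) / 2 := Nat.cast_div_le
    exact le_trans (by exact_mod_cast h5) h6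
  have h5 : |Real.pi * v.valMinAbs / q| ≤ Real.pi / 2 := by
    rw [h3, div_le_iff₀ hq]
    have := Real.pi_pos
    nlinarith
  have h6 := Real.mul_abs_le_abs_sin h5
  rw [h3] at h6
  have h7 : 2 / Real.pi * (Real.pi * (nn v) / q) = 2 * (nn v : ℝ) / q := by
    have := Real.pi_ne_zero
    field_simp
  rw [h7] at h6
  have h8 : 0 ≤ 2 * (nn v : ℝ) / q := by positivity
  linarith

theorem G_zero [NeZero q] (c : ZMod q) (t : ℕ) : G c t 0 = t := by
  unfold G
  simp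

theorem G_le' [NeZero q] (c : ZMod q) (t : ℕ) (ht : t < q) (v : ZMod q) :
    ‖G c t v‖ ≤ q / mx v := by
  have hq : (0 : ℝ) < q := by exact_mod_cast Nat.pos_of_ne_zero (NeZero.ne q)
  by_cases hv : v = 0
  · subst hv
    rw [G_zero]
    have : mx (0 : ZMod q) = 1 := by
      unfold mx nn
      simp
    rw [this, div_one, Complex.norm_natCast]
    exact_mod_cast ht.le
  · have hn : (1 : ℝ) ≤ nn v := by exact_mod_cast nn_pos v hv
    rw [mx_eq v hv, G_eq, norm_mul, norm_char, one_mul, le_div_iff₀ (by linarith)]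
    have h1 := norm_char_sub v
    have h2 : 0 < 2 * (nn v : ℝ) / q := by positivity
    have h3 : ZMod.stdAddChar v ≠ (1 : ℂ) := by
      intro h
      rw [h, sub_self, norm_zero] at h1
      linarith
    have h4 := geom _ (norm_char v) t
    have h5 : ‖∑ j ∈ Icc 1 t, (ZMod.stdAddChar v : ℂ) ^ j‖ * (2 * (nn v : ℝ) / q) ≤ 2 :=
      (mul_le_mul_of_nonneg_left h1 (norm_nonneg _)).trans h4
    have h6 : ‖∑ j ∈ Icc 1 t, (ZMod.stdAddChar v : ℂ) ^ j‖ * (2 * (nn v : ℝ) / q) =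
        2 * (‖∑ j ∈ Icc 1 t, (ZMod.stdAddChar v : ℂ) ^ j‖ * nn v) / q := by ring
    rw [h6, div_le_iff₀ hq] at h5
    linarith

end TA2

open TA2

theorem sum_char [Fact q.Prime] (x : ZMod q) :
    ∑ l : ZMod q, ZMod.stdAddChar (l * x) = if x = 0 then (q : ℂ) else 0 := sum_char' x

theorem G_le [Fact q.Prime] (c : ZMod q) (t : ℕ) (ht : t < q) (v : ZMod q) :
    ‖G c t v‖ ≤ q / mx v := G_le' c t ht v

open Classical in
theorem G_sum [Fact q.Prime] (c : ZMod q) (t : ℕ) (ht : t < q) :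
    ‖∑ v ∈ (univ : Finset (ZMod q)).filter (fun v => v ≠ 0), G c t v‖ ≤ q := by
  have h1 : ∑ v ∈ (univ : Finset (ZMod q)).filter (fun v => v ≠ 0), G c t v =
      (∑ v : ZMod q, G c t v) - G c t 0 := by
    rw [Finset.filter_ne', eq_sub_iff_add_eq, Finset.sum_erase_add _ _ (Finset.mem_univ _)]
  have h2 : ∑ v : ZMod q, G c t v =
      (q : ℂ) * (((Icc 1 t).filter (fun j : ℕ => (j : ZMod q) - c = 0)).card : ℂ) := by
    unfold G
    rw [Finset.sum_comm]
    simp_rw [sum_char']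
    rw [← Finset.sum_filter, Finset.sum_const, nsmul_eq_mul, mul_comm]
  have h3 : ((Icc 1 t).filter (fun j : ℕ => (j : ZMod q) - c = 0)).card ≤ 1 := by
    rw [Finset.card_le_one]
    intro a ha b hb
    rw [Finset.mem_filter, Finset.mem_Icc] at ha hb
    have h4 : (a : ZMod q) = (b : ZMod q) := by
      rw [sub_eq_zero.1 ha.2, sub_eq_zero.1 hb.2]
    rw [ZMod.natCast_eq_natCast_iff'] at h4
    rwa [Nat.mod_eq_of_lt (by omega), Nat.mod_eq_of_lt (by omega)] at h4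
  rw [h1, h2, G_zero]
  generalize ((Icc 1 t).filter (fun j : ℕ => (j : ZMod q) - c = 0)).card = m at h3
  have h5 : (q : ℂ) * (m : ℂ) - (t : ℂ) = (((q : ℝ) * m - t : ℝ) : ℂ) := by push_cast; ring
  rw [h5, Complex.norm_real, Real.norm_eq_abs, abs_le]
  have ht' : (t : ℝ) ≤ q := by exact_mod_cast ht.le
  have ht0 : (0 : ℝ) ≤ t := by positivity
  rcases Nat.le_one_iff_eq_zero_or_eq_one.1 h3 with rfl | rfl
  · constructor <;> simp <;> linarith
  · constructor <;> simp <;> linarith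

open Classical in
theorem Xp_fourier [Fact q.Prime] (c c' a w : ZMod q) (t1 t2 t3 : ℕ) :
    ((Xp c c' a w t1 t2 t3 : ℝ) : ℂ) = (1 / (q:ℂ)) *
      ∑ l ∈ (univ : Finset (ZMod q)).filter (fun l => l ≠ 0),
        G 0 t1 (l * a) * G c t2 (-l) * G c' t3 (-(l * w)) := by
  have hq : (q : ℂ) ≠ 0 := by
    exact_mod_cast (Fact.out : q.Prime).ne_zero
  have h1 : ∑ l : ZMod q, G 0 t1 (l * a) * G c t2 (-l) * G c' t3 (-(l * w)) =
      (q : ℂ) * (((Icc 1 t1 ×ˢ Icc 1 t2 ×ˢ Icc 1 t3).filter (fun e : ℕ × ℕ × ℕ =>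
    (e.2.1 : ZMod q) - c = a * (e.1 : ZMod q) - w * ((e.2.2 : ZMod q) - c'))).card : ℂ) := by
    have h2 : ∀ l : ZMod q, G 0 t1 (l * a) * G c t2 (-l) * G c' t3 (-(l * w)) =
        ∑ e ∈ Icc 1 t1 ×ˢ Icc 1 t2 ×ˢ Icc 1 t3, ZMod.stdAddChar
          (l * (a * (e.1 : ZMod q) - w * ((e.2.2 : ZMod q) - c') - ((e.2.1 : ZMod q) - c))) := by
      intro l
      unfold G
      rw [mul_assoc, Finset.sum_mul_sum, Finset.sum_mul, Finset.sum_product]
      refine Finset.sum_congr rfl fun e1 _ => ?_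
      rw [Finset.mul_sum, Finset.sum_product]
      refine Finset.sum_congr rfl fun e2 _ => ?_
      rw [Finset.mul_sum]
      refine Finset.sum_congr rfl fun e3 _ => ?_
      rw [← AddChar.map_add_eq_mul, ← AddChar.map_add_eq_mul]
      congr 1
      simp only
      ring
    simp_rw [h2]
    rw [Finset.sum_comm]
    simp_rw [sum_char']
    rw [← Finset.sum_filter, Finset.sum_const, nsmul_eq_mul, mul_comm]
    congr 3
    ext e
    simp only [Finset.mem_filter, and_congr_right_iff]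
    intro _
    rw [sub_eq_zero]
    exact eq_comm
  have h3 : ∑ l ∈ (univ : Finset (ZMod q)).filter (fun l => l ≠ 0),
        G 0 t1 (l * a) * G c t2 (-l) * G c' t3 (-(l * w)) =
      (∑ l : ZMod q, G 0 t1 (l * a) * G c t2 (-l) * G c' t3 (-(l * w))) -
        (t1 : ℂ) * t2 * t3 := by
    rw [Finset.filter_ne', eq_sub_iff_add_eq]
    rw [← Finset.sum_erase_add (a := (0 : ZMod q)) Finset.univ _ (Finset.mem_univ _)]
    congr 1
    simp [G_zero]
  rw [h3, h1]
  unfold Xp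
  push_cast
  field_simp

open Classical in
theorem Xl_fourier [Fact q.Prime] (c2 c3 α b : ZMod q) (t1 t2 t3 : ℕ) :
    ((Xl c2 c3 α b t1 t2 t3 : ℝ) : ℂ) = (1 / (q:ℂ) ^ 2) *
      ∑ v ∈ (univ : Finset (ZMod q × ZMod q)).filter (fun v => v ≠ 0),
        G 0 t1 (α * v.1 + b * v.2) * G c2 t2 (-v.1) * G c3 t3 (-v.2) := by
  have hq : (q : ℂ) ≠ 0 := by
    exact_mod_cast (Fact.out : q.Prime).ne_zero
  have h1 : ∑ v : ZMod q × ZMod q, G 0 t1 (α * v.1 + b * v.2) * G c2 t2 (-v.1) * G c3 t3 (-v.2) =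
      (q : ℂ) ^ 2 * (((Icc 1 t1 ×ˢ Icc 1 t2 ×ˢ Icc 1 t3).filter (fun e : ℕ × ℕ × ℕ =>
    (e.2.1 : ZMod q) = c2 + α * (e.1 : ZMod q) ∧
      (e.2.2 : ZMod q) = c3 + b * (e.1 : ZMod q))).card : ℂ) := by
    have h2 : ∀ v : ZMod q × ZMod q,
        G 0 t1 (α * v.1 + b * v.2) * G c2 t2 (-v.1) * G c3 t3 (-v.2) =
        ∑ e ∈ Icc 1 t1 ×ˢ Icc 1 t2 ×ˢ Icc 1 t3,
          ZMod.stdAddChar (v.1 * (c2 + α * (e.1 : ZMod q) - (e.2.1 : ZMod q))) *
          ZMod.stdAddChar (v.2 * (c3 + b * (e.1 : ZMod q) - (e.2.2 : ZMod q))) := by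
      intro v
      unfold G
      rw [mul_assoc, Finset.sum_mul_sum, Finset.sum_mul, Finset.sum_product]
      refine Finset.sum_congr rfl fun e1 _ => ?_
      rw [Finset.mul_sum, Finset.sum_product]
      refine Finset.sum_congr rfl fun e2 _ => ?_
      rw [Finset.mul_sum]
      refine Finset.sum_congr rfl fun e3 _ => ?_
      rw [← AddChar.map_add_eq_mul, ← AddChar.map_add_eq_mul, ← AddChar.map_add_eq_mul]
      congr 1
      simp only
      ring
    simp_rw [h2]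
    rw [Finset.sum_comm]
    have h4 : ∀ e : ℕ × ℕ × ℕ, ∑ v : ZMod q × ZMod q,
          ZMod.stdAddChar (v.1 * (c2 + α * (e.1 : ZMod q) - (e.2.1 : ZMod q))) *
          ZMod.stdAddChar (v.2 * (c3 + b * (e.1 : ZMod q) - (e.2.2 : ZMod q))) =
        if ((e.2.1 : ZMod q) = c2 + α * (e.1 : ZMod q) ∧
          (e.2.2 : ZMod q) = c3 + b * (e.1 : ZMod q)) then (q : ℂ) ^ 2 else 0 := by
      intro e
      rw [Fintype.sum_prod_type]
      simp only
      rw [← Finset.sum_mul_sum, sum_char', sum_char']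
      by_cases ha : (e.2.1 : ZMod q) = c2 + α * (e.1 : ZMod q)
      · by_cases hb : (e.2.2 : ZMod q) = c3 + b * (e.1 : ZMod q)
        · rw [if_pos (sub_eq_zero.2 ha.symm), if_pos (sub_eq_zero.2 hb.symm), if_pos ⟨ha, hb⟩]
          ring
        · have hb' : ¬ (c3 + b * (e.1 : ZMod q) - (e.2.2 : ZMod q) = 0) :=
            fun h => hb (sub_eq_zero.1 h).symm
          have hab : ¬ ((e.2.1 : ZMod q) = c2 + α * (e.1 : ZMod q) ∧
            (e.2.2 : ZMod q) = c3 + b * (e.1 : ZMod q)) := fun h => hb h.2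
          rw [if_neg hb', if_neg hab, mul_zero]
      · have ha' : ¬ (c2 + α * (e.1 : ZMod q) - (e.2.1 : ZMod q) = 0) :=
          fun h => ha (sub_eq_zero.1 h).symm
        have hab : ¬ ((e.2.1 : ZMod q) = c2 + α * (e.1 : ZMod q) ∧
            (e.2.2 : ZMod q) = c3 + b * (e.1 : ZMod q)) := fun h => ha h.1
        rw [if_neg ha', if_neg hab, zero_mul]
    simp_rw [h4]
    rw [← Finset.sum_filter, Finset.sum_const, nsmul_eq_mul, mul_comm]
  have h3 : ∑ v ∈ (univ : Finset (ZMod q × ZMod q)).filter (fun v => v ≠ 0),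
        G 0 t1 (α * v.1 + b * v.2) * G c2 t2 (-v.1) * G c3 t3 (-v.2) =
      (∑ v : ZMod q × ZMod q, G 0 t1 (α * v.1 + b * v.2) * G c2 t2 (-v.1) * G c3 t3 (-v.2)) -
        (t1 : ℂ) * t2 * t3 := by
    rw [Finset.filter_ne', eq_sub_iff_add_eq]
    rw [← Finset.sum_erase_add (a := (0 : ZMod q × ZMod q)) Finset.univ _ (Finset.mem_univ _)]
    congr 1
    simp [G_zero]
  rw [h3, h1]
  unfold Xl
  generalize (((Icc 1 t1 ×ˢ Icc 1 t2 ×ˢ Icc 1 t3).filter (fun e : ℕ × ℕ × ℕ =>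
    (e.2.1 : ZMod q) = c2 + α * (e.1 : ZMod q) ∧
      (e.2.2 : ZMod q) = c3 + b * (e.1 : ZMod q))).card) = m
  push_cast
  field_simp

theorem Xp_le [Fact q.Prime] (c c' a w : ZMod q) (ha : a ≠ 0) (hw : w ≠ 0) (t1 t2 t3 : ℕ)
    (h1 : t1 < q) (h2 : t2 < q) (h3 : t3 < q) : |Xp c c' a w t1 t2 t3| ≤ Rp a w := by
  classical
  have hq : (0 : ℝ) < q := by exact_mod_cast (Fact.out : q.Prime).pos
  have h4 : |Xp c c' a w t1 t2 t3| = ‖((Xp c c' a w t1 t2 t3 : ℝ) : ℂ)‖ := by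
    rw [Complex.norm_real, Real.norm_eq_abs]
  rw [h4, Xp_fourier, norm_mul]
  have h5 : ‖(1 / (q:ℂ))‖ = 1 / (q : ℝ) := by
    rw [norm_div, norm_one, Complex.norm_natCast]
  rw [h5]
  unfold Rp
  calc 1 / (q : ℝ) * ‖∑ l ∈ (univ : Finset (ZMod q)).filter (fun l => l ≠ 0),
        G 0 t1 (l * a) * G c t2 (-l) * G c' t3 (-(l * w))‖
      ≤ 1 / (q : ℝ) * ∑ l ∈ (univ : Finset (ZMod q)).filter (fun l => l ≠ 0),
        ((q : ℝ) / nn (l * a)) * ((q : ℝ) / nn l) * ((q : ℝ) / nn (l * w)) := by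
        apply mul_le_mul_of_nonneg_left _ (by positivity)
        refine (norm_sum_le _ _).trans (Finset.sum_le_sum fun l hl => ?_)
        have hl0 : l ≠ 0 := (Finset.mem_filter.1 hl).2
        have g1 := G_le' (0 : ZMod q) t1 h1 (l * a)
        have g2 := G_le' c t2 h2 (-l)
        have g3 := G_le' c' t3 h3 (-(l * w))
        rw [mx_eq _ (mul_ne_zero hl0 ha)] at g1
        rw [mx_neg, mx_eq _ hl0] at g2
        rw [mx_neg, mx_eq _ (mul_ne_zero hl0 hw)] at g3
        rw [norm_mul, norm_mul]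
        gcongr
    _ = ∑ l ∈ (univ : Finset (ZMod q)).filter (fun l => l ≠ 0),
        (q : ℝ) ^ 2 / ((nn (l * a) : ℝ) * nn l * nn (l * w)) := by
        rw [Finset.mul_sum]
        refine Finset.sum_congr rfl fun l hl => ?_
        have hl0 : l ≠ 0 := (Finset.mem_filter.1 hl).2
        have n1 : (nn (l * a) : ℝ) ≠ 0 := by
          have := nn_pos _ (mul_ne_zero hl0 ha)
          positivity
        have n2 : (nn l : ℝ) ≠ 0 := by
          have := nn_pos _ hl0
          positivity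
        have n3 : (nn (l * w) : ℝ) ≠ 0 := by
          have := nn_pos _ (mul_ne_zero hl0 hw)
          positivity
        field_simp

theorem Xl_le [Fact q.Prime] (c2 c3 α b : ZMod q) (t1 t2 t3 : ℕ)
    (h1 : t1 < q) (h2 : t2 < q) (h3 : t3 < q) : |Xl c2 c3 α b t1 t2 t3| ≤ Rl α b := by
  classical
  have hq : (0 : ℝ) < q := by exact_mod_cast (Fact.out : q.Prime).pos
  have h4 : |Xl c2 c3 α b t1 t2 t3| = ‖((Xl c2 c3 α b t1 t2 t3 : ℝ) : ℂ)‖ := by
    rw [Complex.norm_real, Real.norm_eq_abs]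
  rw [h4, Xl_fourier, norm_mul]
  have h5 : ‖(1 / (q:ℂ) ^ 2)‖ = 1 / (q : ℝ) ^ 2 := by
    rw [norm_div, norm_one, norm_pow, Complex.norm_natCast]
  rw [h5]
  unfold Rl
  calc 1 / (q : ℝ) ^ 2 * ‖∑ v ∈ (univ : Finset (ZMod q × ZMod q)).filter (fun v => v ≠ 0),
        G 0 t1 (α * v.1 + b * v.2) * G c2 t2 (-v.1) * G c3 t3 (-v.2)‖
      ≤ 1 / (q : ℝ) ^ 2 * ∑ v ∈ (univ : Finset (ZMod q × ZMod q)).filter (fun v => v ≠ 0),
        ((q : ℝ) / mx (α * v.1 + b * v.2)) * ((q : ℝ) / mx v.1) * ((q : ℝ) / mx v.2) := by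
        apply mul_le_mul_of_nonneg_left _ (by positivity)
        refine (norm_sum_le _ _).trans (Finset.sum_le_sum fun v hv => ?_)
        have g1 := G_le' (0 : ZMod q) t1 h1 (α * v.1 + b * v.2)
        have g2 := G_le' c2 t2 h2 (-v.1)
        have g3 := G_le' c3 t3 h3 (-v.2)
        rw [mx_neg] at g2 g3
        have m1 := one_le_mx (α * v.1 + b * v.2)
        have m2 := one_le_mx v.1
        have m3 := one_le_mx v.2
        rw [norm_mul, norm_mul]
        gcongr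
    _ = ∑ v ∈ (univ : Finset (ZMod q × ZMod q)).filter (fun v => v ≠ 0),
        (q : ℝ) / (mx (α * v.1 + b * v.2) * mx v.1 * mx v.2) := by
        rw [Finset.mul_sum]
        refine Finset.sum_congr rfl fun v hv => ?_
        have m1 : mx (α * v.1 + b * v.2) ≠ 0 := by
          have := one_le_mx (α * v.1 + b * v.2)
          positivity
        have m2 : mx v.1 ≠ 0 := by
          have := one_le_mx v.1
          positivity
        have m3 : mx v.2 ≠ 0 := by
          have := one_le_mx v.2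
          positivity
        field_simp

end Pool.Agent.H935R2.PS
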