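import Pool.Agent.H935R2.PS.Defs

set_option autoImplicit false

/-!
# The sets of allowed values (definitions shared by tasks H6, I1, I2, J2)
-/

namespace Pool.Agent.H935R2.PS

open Finset

open Classical in
/-- allowed values: interior cells -/
noncomputable def Aset {q : ℕ} [NeZero q] (b w : ZMod q) : Finset (ZMod q) :=
  univ.filter (fun α => lgood α b ∧ pgood α w)

open Classical in
/-- allowed values: boundary cells -/
noncomputable def Aset0 {q : ℕ} [NeZero q] (b : ZMod q) : Finset (ZMod q) :=
  univ.filter (fun α => lgood α b)

end Pool.Agent.H935R2.PS
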