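import Pool.Agent.H935R2.PS.ASdef

/-! The definitions of `Aset`, `Aset0` are in `ASdef`. -/
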