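import Pool.Agent.H935R2.PS.Defs

set_option autoImplicit false
set_option linter.unusedVariables false

/-!
# Main sum, two coordinates
-/

namespace Pool.Agent.H935R2.PS

open Finset

namespace C2

lemma moeb_sum (n : ℕ) (hn : n ≠ 0) :
    ∑ d ∈ n.divisors, ((ArithmeticFunction.moebius d : ℤ) : ℂ) = if n = 1 then 1 else 0 := by
  have h := ArithmeticFunction.coe_mul_zeta_apply (R := ℤ) (f := ArithmeticFunction.moebius) (x := n)
  rw [ArithmeticFunction.moebius_mul_coe_zeta] at h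
  rw [← Int.cast_sum, ← h, ArithmeticFunction.one_apply]
  split_ifs <;> simp

lemma ind (N m : ℕ) (hm : 1 ≤ m) (hmN : m ≤ N) (f : ℕ → ℂ) :
    ∑ g ∈ Icc 1 N, ∑ d ∈ Icc 1 N,
      (if g * d ∣ m then ((ArithmeticFunction.moebius d : ℤ) : ℂ) * f g else 0) = f m := by
  have key : ∀ g ∈ Icc 1 N, ∑ d ∈ Icc 1 N,
      (if g * d ∣ m then ((ArithmeticFunction.moebius d : ℤ) : ℂ) * f g else 0) =
        if g = m then f g else 0 := by
    intro g hg
    rw [mem_Icc] at hg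
    by_cases hgm : g ∣ m
    · obtain ⟨k, hk⟩ := hgm
      have hk0 : k ≠ 0 := by rintro rfl; omega
      have hkN : k ≤ N := le_trans (by rw [hk]; exact Nat.le_mul_of_pos_left k hg.1) hmN
      rw [← sum_filter]
      have hset : (Icc 1 N).filter (fun d => g * d ∣ m) = k.divisors := by
        ext d
        simp only [mem_filter, mem_Icc, Nat.mem_divisors]
        rw [hk, Nat.mul_dvd_mul_iff_left hg.1]
        constructor
        · rintro ⟨_, h⟩; exact ⟨h, hk0⟩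
        · rintro ⟨h, _⟩
          exact ⟨⟨Nat.pos_of_dvd_of_pos h (Nat.pos_of_ne_zero hk0),
            le_trans (Nat.le_of_dvd (Nat.pos_of_ne_zero hk0) h) hkN⟩, h⟩
      rw [hset, ← sum_mul, moeb_sum k hk0]
      by_cases hk1 : k = 1
      · have : g = m := by rw [hk, hk1, mul_one]
        simp [hk1, this]
      · have : g ≠ m := by
          intro hgm
          apply hk1
          have h2 : g * k = g * 1 := by rw [mul_one, ← hk, hgm]
          exact Nat.eq_of_mul_eq_mul_left hg.1 h2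
        simp [hk1, this]
    · have h1 : g ≠ m := by rintro rfl; exact hgm dvd_rfl
      rw [if_neg h1]
      apply sum_eq_zero
      intro d hd
      rw [if_neg]
      intro h
      exact hgm (dvd_trans (dvd_mul_right g d) h)
  rw [sum_congr rfl key, sum_ite_eq' (Icc 1 N) m f]
  rw [if_pos (mem_Icc.2 ⟨hm, hmN⟩)]

lemma sum_inv_sq (N : ℕ) : ∑ g ∈ Icc 1 N, (1:ℝ) / (g:ℝ) ^ 2 ≤ 2 := by
  have h : ∀ n : ℕ, ∑ g ∈ Icc 1 (n + 1), (1:ℝ) / (g:ℝ) ^ 2 ≤ 2 - 1 / ((n:ℝ) + 1) := by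
    intro n
    induction n with
    | zero => norm_num
    | succ n ih =>
      rw [sum_Icc_succ_top (by omega)]
      have h1 : (1:ℝ) / (((n + 1 + 1 : ℕ) : ℝ)) ^ 2 ≤ 1 / ((n:ℝ) + 1) - 1 / ((n:ℝ) + 1 + 1) := by
        push_cast
        rw [div_sub_div _ _ (by positivity) (by positivity), div_le_div_iff₀ (by positivity) (by positivity)]
        nlinarith [Nat.cast_nonneg (α := ℝ) n]
      push_cast at h1 ⊢
      linarith
  rcases Nat.eq_zero_or_pos N with rfl | hN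
  · simp
  · obtain ⟨n, rfl⟩ := Nat.exists_eq_add_of_le' hN
    refine (h n).trans ?_
    have : (0:ℝ) ≤ 1 / ((n:ℝ) + 1) := by positivity
    linarith

/-- the interval of least residues -/
noncomputable def II (q : ℕ) : Finset ℤ := Icc (-(((q - 1) / 2 : ℕ) : ℤ)) (((q - 1) / 2 : ℕ) : ℤ)

lemma val_cast (q : ℕ) (hq : Fact q.Prime) (hq3 : 3 ≤ q) (z : ℤ) (hz : z ∈ II q) :
    ((z : ZMod q)).valMinAbs = z := by
  rw [II, mem_Icc] at hz
  rw [ZMod.valMinAbs_spec]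
  refine ⟨rfl, ?_⟩
  rw [Set.mem_Ioc]
  have : 2 * ((q - 1) / 2) < q := by omega
  omega

lemma val_mem (q : ℕ) (hq : Fact q.Prime) (hq3 : 3 ≤ q) (x : ZMod q) : x.valMinAbs ∈ II q := by
  have h := ZMod.valMinAbs_mem_Ioc x
  have hodd : q % 2 = 1 := by
    rcases hq.out.eq_two_or_odd with h | h
    · omega
    · exact h
  rw [II, mem_Icc]
  rw [Set.mem_Ioc] at h
  omega

lemma sum_I (q : ℕ) (hq : Fact q.Prime) (hq3 : 3 ≤ q) (ψ : ZMod q → ℂ) :
    ∑ x : ZMod q, ψ x = ∑ z ∈ II q, ψ (z : ZMod q) := by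
  refine Finset.sum_bij' (fun x _ => x.valMinAbs) (fun z _ => (z : ZMod q)) ?_ ?_ ?_ ?_ ?_
  · intro x _; exact val_mem q hq hq3 x
  · intro z _; exact mem_univ _
  · intro x _; exact ZMod.coe_valMinAbs x
  · intro z hz; exact val_cast q hq hq3 z hz
  · intro x _; simp [ZMod.coe_valMinAbs]

open Classical in
/-- the block -/
noncomputable def blk (q g d b : ℕ) : Finset ℤ :=
  (II q).filter (fun z => z ≠ 0 ∧ ((g * d : ℕ) : ℤ) ∣ z ∧ Nat.log 2 (z.natAbs / g) = b)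

open Classical in
lemma fib (q g d : ℕ) (h : ℤ → ℂ) :
    ∑ z ∈ (II q).filter (fun z => z ≠ 0 ∧ ((g * d : ℕ) : ℤ) ∣ z), h z =
      ∑ b ∈ range (La q + 1), ∑ z ∈ blk q g d b, h z := by
  rw [← Finset.sum_fiberwise_of_maps_to (g := fun z : ℤ => Nat.log 2 (z.natAbs / g))
    (t := range (La q + 1))]
  · refine sum_congr rfl fun b _ => sum_congr ?_ fun _ _ => rfl
    ext z
    simp only [blk, mem_filter]
    tauto
  · intro z hz
    rw [mem_filter, II, mem_Icc] at hz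
    rw [mem_range, La]
    refine Nat.lt_succ_of_le (Nat.log_mono_right ?_)
    refine (Nat.div_le_self _ _).trans ?_
    omega

open Classical in
lemma block_bound (q g d : ℕ) (B : ℕ → ℕ → Prop) (F F' : ℤ → ℂ) :
    ‖∑ z ∈ (II q).filter (fun z => z ≠ 0 ∧ ((g * d : ℕ) : ℤ) ∣ z),
      ∑ z' ∈ (II q).filter (fun z => z ≠ 0 ∧ ((g * d : ℕ) : ℤ) ∣ z),
        (if B (Nat.log 2 (z.natAbs / g)) (Nat.log 2 (z'.natAbs / g)) then F z * F' z' else 0)‖ ≤
    (∑ b ∈ range (La q + 1), ‖∑ z ∈ blk q g d b, F z‖) *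
      (∑ b ∈ range (La q + 1), ‖∑ z ∈ blk q g d b, F' z‖) := by
  rw [fib]
  have h1 : ∀ b ∈ range (La q + 1), ∑ z ∈ blk q g d b,
      ∑ z' ∈ (II q).filter (fun z => z ≠ 0 ∧ ((g * d : ℕ) : ℤ) ∣ z),
        (if B (Nat.log 2 (z.natAbs / g)) (Nat.log 2 (z'.natAbs / g)) then F z * F' z' else 0) =
      ∑ b' ∈ range (La q + 1), (if B b b' then
        (∑ z ∈ blk q g d b, F z) * (∑ z' ∈ blk q g d b', F' z') else 0) := by
    intro b _
    have h2 : ∀ z ∈ blk q g d b,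
      ∑ z' ∈ (II q).filter (fun z => z ≠ 0 ∧ ((g * d : ℕ) : ℤ) ∣ z),
        (if B (Nat.log 2 (z.natAbs / g)) (Nat.log 2 (z'.natAbs / g)) then F z * F' z' else 0) =
      ∑ b' ∈ range (La q + 1), (if B b b' then F z * (∑ z' ∈ blk q g d b', F' z') else 0) := by
      intro z hz
      rw [fib]
      refine sum_congr rfl fun b' _ => ?_
      have hzb : Nat.log 2 (z.natAbs / g) = b := by
        rw [blk, mem_filter] at hz
        exact hz.2.2.2
      have h3 : ∀ z' ∈ blk q g d b',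
          (if B (Nat.log 2 (z.natAbs / g)) (Nat.log 2 (z'.natAbs / g)) then F z * F' z' else 0) =
          (if B b b' then F z * F' z' else 0) := by
        intro z' hz'
        have hzb' : Nat.log 2 (z'.natAbs / g) = b' := by
          rw [blk, mem_filter] at hz'
          exact hz'.2.2.2
        rw [hzb, hzb']
      rw [sum_congr rfl h3]
      by_cases hB : B b b'
      · simp only [if_pos hB]
        rw [mul_sum]
      · simp only [if_neg hB, sum_const_zero]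
    rw [sum_congr rfl h2, sum_comm]
    refine sum_congr rfl fun b' _ => ?_
    by_cases hB : B b b'
    · simp only [if_pos hB]
      rw [sum_mul]
    · simp only [if_neg hB, sum_const_zero]
  rw [sum_congr rfl h1, sum_mul_sum]
  refine (norm_sum_le _ _).trans (sum_le_sum fun b _ => (norm_sum_le _ _).trans (sum_le_sum fun b' _ => ?_))
  split_ifs
  · rw [norm_mul]
  · rw [norm_zero]; positivity

open Classical in
lemma expand (q : ℕ) (hq : Fact q.Prime) (hq3 : 3 ≤ q) (B : ℕ → ℕ → Prop) (F F' : ZMod q → ℂ) :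
    ∑ v ∈ (univ : Finset (ZMod q × ZMod q)).filter (fun v => v.1 ≠ 0 ∧ v.2 ≠ 0 ∧
      B (Nat.log 2 (nn v.1 / Nat.gcd (nn v.1) (nn v.2))) (Nat.log 2 (nn v.2 / Nat.gcd (nn v.1) (nn v.2)))),
      F v.1 * F' v.2 =
    ∑ g ∈ Icc 1 ((q - 1) / 2), ∑ d ∈ Icc 1 ((q - 1) / 2), ((ArithmeticFunction.moebius d : ℤ) : ℂ) *
      ∑ z ∈ (II q).filter (fun z => z ≠ 0 ∧ ((g * d : ℕ) : ℤ) ∣ z),
      ∑ z' ∈ (II q).filter (fun z => z ≠ 0 ∧ ((g * d : ℕ) : ℤ) ∣ z),
        (if B (Nat.log 2 (z.natAbs / g)) (Nat.log 2 (z'.natAbs / g)) then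
          F (z : ZMod q) * F' (z' : ZMod q) else 0) := by
  rw [sum_filter, Fintype.sum_prod_type, sum_I q hq hq3]
  have h0 : ∀ z ∈ II q, z ≠ 0 → (z : ZMod q) ≠ 0 := by
    intro z hz h0 h
    have := val_cast q hq hq3 z hz
    rw [h, ZMod.valMinAbs_zero] at this
    exact h0 this.symm
  have hn : ∀ z ∈ II q, nn (z : ZMod q) = z.natAbs := by
    intro z hz
    rw [nn, val_cast q hq hq3 z hz]
  have hle : ∀ z ∈ II q, z.natAbs ≤ (q - 1) / 2 := by
    intro z hz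
    rw [II, mem_Icc] at hz
    omega
  have h1 : ∀ z ∈ II q, ∑ y : ZMod q, (if ((z : ZMod q), y).1 ≠ 0 ∧ ((z : ZMod q), y).2 ≠ 0 ∧
      B (Nat.log 2 (nn ((z : ZMod q), y).1 / Nat.gcd (nn ((z : ZMod q), y).1) (nn ((z : ZMod q), y).2)))
        (Nat.log 2 (nn ((z : ZMod q), y).2 / Nat.gcd (nn ((z : ZMod q), y).1) (nn ((z : ZMod q), y).2)))
      then F ((z : ZMod q), y).1 * F' ((z : ZMod q), y).2 else 0) =
      ∑ z' ∈ II q, ∑ g ∈ Icc 1 ((q - 1) / 2), ∑ d ∈ Icc 1 ((q - 1) / 2),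
        (if (z ≠ 0 ∧ ((g * d : ℕ) : ℤ) ∣ z) ∧ (z' ≠ 0 ∧ ((g * d : ℕ) : ℤ) ∣ z') then
          ((ArithmeticFunction.moebius d : ℤ) : ℂ) *
            (if B (Nat.log 2 (z.natAbs / g)) (Nat.log 2 (z'.natAbs / g)) then
            F (z : ZMod q) * F' (z' : ZMod q) else 0) else 0) := by
    intro z hz
    rw [sum_I q hq hq3]
    refine sum_congr rfl fun z' hz' => ?_
    simp only
    rw [hn z hz, hn z' hz']
    by_cases hzz : z ≠ 0 ∧ z' ≠ 0
    · have hg1 : 1 ≤ Nat.gcd z.natAbs z'.natAbs := Nat.gcd_pos_of_pos_left _ (Int.natAbs_pos.2 hzz.1)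
      have hg2 : Nat.gcd z.natAbs z'.natAbs ≤ (q - 1) / 2 :=
        (Nat.le_of_dvd (Int.natAbs_pos.2 hzz.1) (Nat.gcd_dvd_left _ _)).trans (hle z hz)
      have := ind ((q - 1) / 2) _ hg1 hg2 (fun g => if B (Nat.log 2 (z.natAbs / g)) (Nat.log 2 (z'.natAbs / g))
        then F (z : ZMod q) * F' (z' : ZMod q) else 0)
      simp only [h0 z hz hzz.1, h0 z' hz' hzz.2, ne_eq, not_false_eq_true, true_and]
      rw [← this]
      refine sum_congr rfl fun g _ => sum_congr rfl fun d _ => ?_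
      have hiff : (g * d ∣ Nat.gcd z.natAbs z'.natAbs) ↔
          ((¬ z = 0 ∧ ((g * d : ℕ) : ℤ) ∣ z) ∧ (¬ z' = 0 ∧ ((g * d : ℕ) : ℤ) ∣ z')) := by
        rw [Nat.dvd_gcd_iff, Int.natCast_dvd, Int.natCast_dvd]
        have a := hzz.1
        have b := hzz.2
        tauto
      simp only [hiff]
    · have hL : ¬ ((z : ZMod q) ≠ 0 ∧ (z' : ZMod q) ≠ 0 ∧
          B (Nat.log 2 (z.natAbs / Nat.gcd z.natAbs z'.natAbs))
            (Nat.log 2 (z'.natAbs / Nat.gcd z.natAbs z'.natAbs))) := by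
        rintro ⟨h1, h2, _⟩
        apply hzz
        constructor
        · rintro rfl; simp at h1
        · rintro rfl; simp at h2
      rw [if_neg hL]
      symm
      refine sum_eq_zero fun g _ => sum_eq_zero fun d _ => ?_
      rw [if_neg]
      tauto
  rw [sum_congr rfl h1]
  -- swap the sums
  have h2 : ∀ z ∈ II q, ∑ z' ∈ II q, ∑ g ∈ Icc 1 ((q - 1) / 2), ∑ d ∈ Icc 1 ((q - 1) / 2),
        (if (z ≠ 0 ∧ ((g * d : ℕ) : ℤ) ∣ z) ∧ (z' ≠ 0 ∧ ((g * d : ℕ) : ℤ) ∣ z') then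
          ((ArithmeticFunction.moebius d : ℤ) : ℂ) *
            (if B (Nat.log 2 (z.natAbs / g)) (Nat.log 2 (z'.natAbs / g)) then
            F (z : ZMod q) * F' (z' : ZMod q) else 0) else 0) =
      ∑ g ∈ Icc 1 ((q - 1) / 2), ∑ d ∈ Icc 1 ((q - 1) / 2), ∑ z' ∈ II q,
        (if (z ≠ 0 ∧ ((g * d : ℕ) : ℤ) ∣ z) ∧ (z' ≠ 0 ∧ ((g * d : ℕ) : ℤ) ∣ z') then
          ((ArithmeticFunction.moebius d : ℤ) : ℂ) *
            (if B (Nat.log 2 (z.natAbs / g)) (Nat.log 2 (z'.natAbs / g)) then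
            F (z : ZMod q) * F' (z' : ZMod q) else 0) else 0) := by
    intro z hz
    rw [sum_comm]
    refine sum_congr rfl fun g _ => ?_
    rw [sum_comm]
  rw [sum_congr rfl h2, sum_comm]
  refine sum_congr rfl fun g _ => ?_
  rw [sum_comm]
  refine sum_congr rfl fun d _ => ?_
  rw [mul_sum, sum_filter]
  refine sum_congr rfl fun z hz => ?_
  by_cases h : (z ≠ 0 ∧ ((g * d : ℕ) : ℤ) ∣ z)
  · rw [if_pos h, mul_sum, sum_filter]
    refine sum_congr rfl fun z' hz' => ?_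
    by_cases h' : (z' ≠ 0 ∧ ((g * d : ℕ) : ℤ) ∣ z')
    · rw [if_pos h', if_pos ⟨h, h'⟩]
    · rw [if_neg h', if_neg (fun hh => h' hh.2)]
  · rw [if_neg h]
    refine sum_eq_zero fun z' hz' => ?_
    rw [if_neg (fun hh => h hh.1)]

end C2

open Classical in
/-- two coordinates, arbitrary set `B` of dyadic boxes; `main2` from the statement of `kernel` -/
theorem main2_of_kernel (kernel : ∃ C : ℝ, 0 < C ∧ ∀ q : ℕ, ∀ hq : Fact q.Prime, 3 ≤ q → ∀ (c : ZMod q) (t : ℕ), t < q →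
    ∀ g d : ℕ, 1 ≤ g → 1 ≤ d →
    ∑ b ∈ range (La q + 1), ‖∑ z ∈ (Icc (-(((q - 1) / 2 : ℕ) : ℤ)) (((q - 1) / 2 : ℕ) : ℤ)).filter
      (fun z => z ≠ 0 ∧ ((g * d : ℕ) : ℤ) ∣ z ∧ Nat.log 2 (z.natAbs / g) = b), G c t (z : ZMod q)‖
      ≤ C * q / (g * d)) : ∃ C : ℝ, 0 < C ∧ ∀ q : ℕ, ∀ hq : Fact q.Prime, 3 ≤ q →
    ∀ (c c' : ZMod q) (t t' : ℕ), t < q → t' < q → ∀ B : ℕ → ℕ → Prop,
    ‖∑ v ∈ (univ : Finset (ZMod q × ZMod q)).filter (fun v => v.1 ≠ 0 ∧ v.2 ≠ 0 ∧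
      B (Nat.log 2 (nn v.1 / Nat.gcd (nn v.1) (nn v.2))) (Nat.log 2 (nn v.2 / Nat.gcd (nn v.1) (nn v.2)))),
      G c t v.1 * G c' t' v.2‖ ≤ C * (q:ℝ) ^ 2 := by
  obtain ⟨C, hC, hk⟩ := kernel
  refine ⟨4 * C ^ 2, by positivity, ?_⟩
  intro q hq hq3 c c' t t' ht ht' B
  rw [C2.expand q hq hq3 B (G c t) (G c' t')]
  have hqpos : (0:ℝ) < q := by exact_mod_cast (by omega : 0 < q)
  have hbd : ∀ g ∈ Icc 1 ((q - 1) / 2), ∀ d ∈ Icc 1 ((q - 1) / 2),
      ‖((ArithmeticFunction.moebius d : ℤ) : ℂ) *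
      ∑ z ∈ (C2.II q).filter (fun z => z ≠ 0 ∧ ((g * d : ℕ) : ℤ) ∣ z),
      ∑ z' ∈ (C2.II q).filter (fun z => z ≠ 0 ∧ ((g * d : ℕ) : ℤ) ∣ z),
        (if B (Nat.log 2 (z.natAbs / g)) (Nat.log 2 (z'.natAbs / g)) then
          G c t (z : ZMod q) * G c' t' (z' : ZMod q) else 0)‖ ≤
      C ^ 2 * (q:ℝ) ^ 2 * ((1 / (g:ℝ) ^ 2) * (1 / (d:ℝ) ^ 2)) := by
    intro g hg d hd
    rw [mem_Icc] at hg hd
    have hg0 : (0:ℝ) < g := by exact_mod_cast hg.1
    have hd0 : (0:ℝ) < d := by exact_mod_cast hd.1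
    rw [norm_mul]
    have hm : ‖((ArithmeticFunction.moebius d : ℤ) : ℂ)‖ ≤ 1 := by
      rw [Complex.norm_intCast]
      exact_mod_cast ArithmeticFunction.abs_moebius_le_one
    have hb := C2.block_bound q g d B (fun z => G c t (z : ZMod q)) (fun z => G c' t' (z : ZMod q))
    have k1 := hk q hq hq3 c t ht g d hg.1 hd.1
    have k2 := hk q hq hq3 c' t' ht' g d hg.1 hd.1
    have e1 : ∑ b ∈ range (La q + 1), ‖∑ z ∈ C2.blk q g d b, G c t (z : ZMod q)‖ ≤ C * q / (g * d) := by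
      simpa only [C2.blk, C2.II] using k1
    have e2 : ∑ b ∈ range (La q + 1), ‖∑ z ∈ C2.blk q g d b, G c' t' (z : ZMod q)‖ ≤ C * q / (g * d) := by
      simpa only [C2.blk, C2.II] using k2
    calc _ ≤ 1 * ((C * q / (g * d)) * (C * q / (g * d))) := by
          refine mul_le_mul hm (hb.trans (mul_le_mul e1 e2 ?_ ?_)) (norm_nonneg _) zero_le_one
          · exact sum_nonneg fun _ _ => norm_nonneg _
          · positivity
      _ = _ := by field_simp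
  calc _ ≤ ∑ g ∈ Icc 1 ((q - 1) / 2), ∑ d ∈ Icc 1 ((q - 1) / 2),
        C ^ 2 * (q:ℝ) ^ 2 * ((1 / (g:ℝ) ^ 2) * (1 / (d:ℝ) ^ 2)) :=
        (norm_sum_le _ _).trans (sum_le_sum fun g hg => (norm_sum_le _ _).trans
          (sum_le_sum fun d hd => hbd g hg d hd))
    _ = C ^ 2 * (q:ℝ) ^ 2 * ((∑ g ∈ Icc 1 ((q - 1) / 2), 1 / (g:ℝ) ^ 2) *
          (∑ d ∈ Icc 1 ((q - 1) / 2), 1 / (d:ℝ) ^ 2)) := by
        rw [sum_mul_sum, mul_sum]
        refine sum_congr rfl fun g _ => ?_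
        rw [mul_sum]
    _ ≤ C ^ 2 * (q:ℝ) ^ 2 * (2 * 2) := by
        refine mul_le_mul_of_nonneg_left ?_ (by positivity)
        refine mul_le_mul (C2.sum_inv_sq _) (C2.sum_inv_sq _) ?_ (by norm_num)
        exact sum_nonneg fun _ _ => by positivity
    _ = 4 * C ^ 2 * (q:ℝ) ^ 2 := by ring

end Pool.Agent.H935R2.PS
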