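import Pool.Agent.H935R2.PS.Defs

set_option autoImplicit false

/-!
# Suitable primes exist (task D)
-/

namespace Pool.Agent.H935R2.PS

open Finset

namespace D

/-- the primes of the averaging -/
def PR (a l : ℕ) : Finset ℕ := (Ioc (2 ^ a) (2 ^ l)).filter Nat.Prime

theorem card_PR (a l : ℕ) : (2 ^ l).primeCounting ≤ (PR a l).card + 2 ^ a := by
  rw [← Nat.primesLE_card_eq_primeCounting]
  have h : Nat.primesLE (2 ^ l) ⊆ PR a l ∪ Ioc 0 (2 ^ a) := by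
    intro p hp
    rw [Nat.mem_primesLE] at hp
    rw [mem_union, PR, mem_filter, mem_Ioc, mem_Ioc]
    have := hp.2.pos
    by_cases h : 2 ^ a < p
    · exact Or.inl ⟨⟨h, hp.1⟩, hp.2⟩
    · exact Or.inr ⟨this, by omega⟩
  refine (card_le_card h).trans ((card_union_le _ _).trans ?_)
  simp

theorem pi_lower (l : ℕ) (hl : 1 ≤ l) : 2 ^ l ≤ l * (2 ^ l).primeCounting + l + 1 := by
  have h := Chebyshev.pi_ge (2 ^ l)
  have hl0 : (0 : ℝ) < l := by exact_mod_cast hl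
  have hlog2 : 0 < Real.log 2 := Real.log_pos (by norm_num)
  have h1 : Real.log ((2 ^ l : ℕ) : ℝ) = l * Real.log 2 := by
    push_cast; rw [Real.log_pow]
  have h2 : Real.log (((2 ^ l : ℕ) : ℝ) + 1) ≤ (l + 1) * Real.log 2 := by
    have : (((2 ^ l : ℕ) : ℝ) + 1) ≤ 2 ^ (l + 1) := by
      push_cast
      have : (1 : ℝ) ≤ 2 ^ l := one_le_pow₀ (by norm_num)
      rw [pow_succ]; linarith
    calc Real.log (((2 ^ l : ℕ) : ℝ) + 1) ≤ Real.log (2 ^ (l + 1)) :=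
          Real.log_le_log (by positivity) this
      _ = _ := by rw [Real.log_pow]; push_cast; ring
  rw [h1, div_le_iff₀ (by positivity)] at h
  have h3 : ((2 ^ l : ℕ) : ℝ) * Real.log 2 ≤
      (l * ((2 ^ l).primeCounting : ℝ) + l + 1) * Real.log 2 := by nlinarith
  have h4 := le_of_mul_le_mul_right h3 hlog2
  exact_mod_cast h4

/-- at most two primes of `PR a l` divide a small nonzero number -/
theorem two_div (a l : ℕ) (hal : 2 * l + 3 ≤ 3 * a) (m : ℤ) (hm : m ≠ 0)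
    (hm2 : m.natAbs < 2 ^ (2 * l + 3)) : ((PR a l).filter (fun q : ℕ => (q : ℤ) ∣ m)).card ≤ 2 := by
  by_contra hcon
  push Not at hcon
  set F := (PR a l).filter (fun q : ℕ => (q : ℤ) ∣ m) with hF
  have hprime : ∀ p ∈ F, p.Prime := fun p hp => (mem_filter.1 (mem_filter.1 hp).1).2
  have hdvd : ∏ p ∈ F, p ∣ m.natAbs :=
    Finset.prod_primes_dvd _ (fun p hp => (hprime p hp).prime)
      (fun p hp => Int.natCast_dvd.1 (mem_filter.1 hp).2)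
  have hle : ∏ p ∈ F, p ≤ m.natAbs := Nat.le_of_dvd (Int.natAbs_pos.2 hm) hdvd
  have h1 : (2 ^ a) ^ F.card ≤ ∏ p ∈ F, p := by
    rw [← Finset.prod_const]
    refine Finset.prod_le_prod' (fun p hp => ?_)
    exact (mem_Ioc.1 (mem_filter.1 (mem_filter.1 hp).1).1).1.le
  have h2 : (2 ^ a) ^ 3 ≤ (2 ^ a) ^ F.card := Nat.pow_le_pow_right (by positivity) hcon
  have h3 : 2 ^ (2 * l + 3) ≤ (2 ^ a) ^ 3 := by
    rw [← pow_mul]
    exact Nat.pow_le_pow_right (by norm_num) (by omega)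
  omega

/-- the box -/
noncomputable def box (b1 b2 b3 b4 : ℕ) : Finset (ℤ × ℤ × ℤ × ℤ) :=
  ((Ioo (-(2 ^ (b1 + 1) : ℤ)) (2 ^ (b1 + 1))) ×ˢ (Ioo (-(2 ^ (b2 + 1) : ℤ)) (2 ^ (b2 + 1))) ×ˢ
    (Ioo (-(2 ^ (b3 + 1) : ℤ)) (2 ^ (b3 + 1))) ×ˢ (Ioo (-(2 ^ (b4 + 1) : ℤ)) (2 ^ (b4 + 1))))

theorem card_Ioo_le (b : ℕ) : (Ioo (-(2 ^ (b + 1) : ℤ)) (2 ^ (b + 1))).card ≤ 2 ^ (b + 2) := by
  rw [Int.card_Ioo]
  rw [Int.toNat_le]
  push_cast
  have : (2 : ℤ) ^ (b + 2) = 2 ^ (b + 1) + 2 ^ (b + 1) := by ring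
  linarith

theorem card_box (b1 b2 b3 b4 : ℕ) : (box b1 b2 b3 b4).card ≤ 2 ^ (b1 + b2 + b3 + b4 + 8) := by
  unfold box
  rw [card_product, card_product, card_product]
  calc _ ≤ 2 ^ (b1 + 2) * (2 ^ (b2 + 2) * (2 ^ (b3 + 2) * 2 ^ (b4 + 2))) :=
        Nat.mul_le_mul (card_Ioo_le _) (Nat.mul_le_mul (card_Ioo_le _)
          (Nat.mul_le_mul (card_Ioo_le _) (card_Ioo_le _)))
    _ = _ := by rw [← pow_add, ← pow_add, ← pow_add]; congr 1; ring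

theorem small (l b1 b2 b3 b4 : ℕ) (h1 : b1 ≤ l) (h2 : b2 ≤ l) (h3 : b3 ≤ l) (h4 : b4 ≤ l)
    (z : ℤ × ℤ × ℤ × ℤ) (hz : z ∈ box b1 b2 b3 b4) :
    (z.1 * z.2.2.2 - z.2.1 * z.2.2.1).natAbs < 2 ^ (2 * l + 3) := by
  obtain ⟨x, x', y, y'⟩ := z
  simp only [box, mem_product, mem_Ioo] at hz
  obtain ⟨⟨a1, a2⟩, ⟨a3, a4⟩, ⟨a5, a6⟩, a7, a8⟩ := hz
  have key : ∀ b : ℕ, b ≤ l → ∀ t : ℤ, -(2 ^ (b + 1) : ℤ) < t → t < 2 ^ (b + 1) →
      |t| < 2 ^ (l + 1) := by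
    intro b hb t ht1 ht2
    have : (2 : ℤ) ^ (b + 1) ≤ 2 ^ (l + 1) := pow_le_pow_right₀ (by norm_num) (by omega)
    rw [abs_lt]
    constructor <;> linarith
  have c1 := key b1 h1 x a1 a2
  have c2 := key b2 h2 x' a3 a4
  have c3 := key b3 h3 y a5 a6
  have c4 := key b4 h4 y' a7 a8
  have e : |x * y' - x' * y| < 2 ^ (2 * l + 3) := by
    have e1 : |x * y' - x' * y| ≤ |x| * |y'| + |x'| * |y| := by
      rw [← abs_mul, ← abs_mul]
      exact abs_sub _ _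
    have e2 : |x| * |y'| < 2 ^ (l + 1) * 2 ^ (l + 1) :=
      mul_lt_mul'' c1 c4 (abs_nonneg _) (abs_nonneg _)
    have e3 : |x'| * |y| < 2 ^ (l + 1) * 2 ^ (l + 1) :=
      mul_lt_mul'' c2 c3 (abs_nonneg _) (abs_nonneg _)
    have e4 : (2 : ℤ) ^ (2 * l + 3) = 2 ^ (l + 1) * 2 ^ (l + 1) + 2 ^ (l + 1) * 2 ^ (l + 1) := by
      ring
    linarith
  have e5 : ((x * y' - x' * y).natAbs : ℤ) < 2 ^ (2 * l + 3) := by
    rw [Int.natCast_natAbs]; exact e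
  simp only
  exact_mod_cast e5

/-- the sum of the number of coincidences over the primes -/
theorem sum_coinc (a l : ℕ) (hal : 2 * l + 3 ≤ 3 * a) (b1 b2 b3 b4 : ℕ) (h1 : b1 ≤ l)
    (h2 : b2 ≤ l) (h3 : b3 ≤ l) (h4 : b4 ≤ l) :
    ∑ q ∈ PR a l, (coinc q b1 b2 b3 b4).card ≤ 2 ^ (b1 + b2 + b3 + b4 + 9) := by
  classical
  have e1 : ∀ q : ℕ, (coinc q b1 b2 b3 b4).card = ∑ z ∈ box b1 b2 b3 b4,
      if ((q : ℤ) ∣ z.1 * z.2.2.2 - z.2.1 * z.2.2.1 ∧ z.1 * z.2.2.2 ≠ z.2.1 * z.2.2.1)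
        then 1 else 0 := by
    intro q
    rw [← card_filter]
    unfold coinc box
    congr
  rw [sum_congr rfl (fun q _ => e1 q), sum_comm]
  calc ∑ z ∈ box b1 b2 b3 b4, ∑ q ∈ PR a l,
        (if ((q : ℤ) ∣ z.1 * z.2.2.2 - z.2.1 * z.2.2.1 ∧ z.1 * z.2.2.2 ≠ z.2.1 * z.2.2.1)
          then 1 else 0)
      ≤ ∑ _z ∈ box b1 b2 b3 b4, 2 := by
        refine sum_le_sum (fun z hz => ?_)
        by_cases hne : z.1 * z.2.2.2 = z.2.1 * z.2.2.1
        · simp [hne]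
        · have := two_div a l hal (z.1 * z.2.2.2 - z.2.1 * z.2.2.1) (sub_ne_zero.2 hne)
            (small l b1 b2 b3 b4 h1 h2 h3 h4 z hz)
          rw [card_filter] at this
          refine le_trans (sum_le_sum (fun q _ => ?_)) this
          simp [hne]
    _ = 2 * (box b1 b2 b3 b4).card := by rw [sum_const, smul_eq_mul, mul_comm]
    _ ≤ 2 * 2 ^ (b1 + b2 + b3 + b4 + 8) := Nat.mul_le_mul_left _ (card_box _ _ _ _)
    _ = _ := by ring

theorem La_lt_uu' (q : ℕ) : La q < 2 ^ uu q := by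
  unfold uu
  exact Nat.lt_pow_succ_log_self (by norm_num) _

open Classical in
/-- the primes for which the estimate fails for `b` -/
noncomputable def bad (a l b1 b2 b3 b4 : ℕ) : Finset ℕ := (PR a l).filter (fun q =>
  (2 : ℝ) ^ (7 * uu q) * 2 ^ (b1 + b2 + b3 + b4) < ((coinc q b1 b2 b3 b4).card : ℝ) * q)

theorem La_bounds (a l q : ℕ) (hq : q ∈ PR a l) : a ≤ La q ∧ La q ≤ l := by
  rw [PR, mem_filter, mem_Ioc] at hq
  obtain ⟨⟨h1, h2⟩, h3⟩ := hq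
  unfold La
  constructor
  · exact Nat.le_log_of_pow_le (by norm_num) h1.le
  · calc Nat.log 2 q ≤ Nat.log 2 (2 ^ l) := Nat.log_mono_right h2
      _ = l := Nat.log_pow (by norm_num) l

theorem card_bad (a l : ℕ) (hal : 2 * l + 3 ≤ 3 * a) (b1 b2 b3 b4 : ℕ) (h1 : b1 ≤ l)
    (h2 : b2 ≤ l) (h3 : b3 ≤ l) (h4 : b4 ≤ l) :
    (bad a l b1 b2 b3 b4).card * l ^ 7 ≤ 2 ^ (l + 16) := by
  classical
  have hs := sum_coinc a l hal b1 b2 b3 b4 h1 h2 h3 h4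
  have key : ∀ q ∈ bad a l b1 b2 b3 b4,
      l ^ 7 * 2 ^ (b1 + b2 + b3 + b4) ≤ 2 ^ 7 * ((coinc q b1 b2 b3 b4).card * 2 ^ l) := by
    intro q hq
    rw [bad, mem_filter] at hq
    obtain ⟨hq1, hq2⟩ := hq
    have hq3 : 2 ^ (7 * uu q) * 2 ^ (b1 + b2 + b3 + b4) < (coinc q b1 b2 b3 b4).card * q := by
      exact_mod_cast hq2
    have hql : q ≤ 2 ^ l := by
      rw [PR, mem_filter, mem_Ioc] at hq1
      exact hq1.1.2
    have hu : l ≤ 2 * 2 ^ uu q := by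
      have := La_lt_uu' q
      have := (La_bounds a l q hq1).1
      omega
    calc l ^ 7 * 2 ^ (b1 + b2 + b3 + b4) ≤ (2 * 2 ^ uu q) ^ 7 * 2 ^ (b1 + b2 + b3 + b4) :=
          Nat.mul_le_mul_right _ (Nat.pow_le_pow_left hu 7)
      _ = 2 ^ 7 * (2 ^ (7 * uu q) * 2 ^ (b1 + b2 + b3 + b4)) := by
          rw [mul_pow, ← pow_mul, mul_comm (uu q) 7]; ring
      _ ≤ 2 ^ 7 * ((coinc q b1 b2 b3 b4).card * 2 ^ l) := by
          refine Nat.mul_le_mul_left _ (hq3.le.trans (Nat.mul_le_mul_left _ hql))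
  have h5 : (bad a l b1 b2 b3 b4).card * (l ^ 7 * 2 ^ (b1 + b2 + b3 + b4)) ≤
      2 ^ 7 * (2 ^ (b1 + b2 + b3 + b4 + 9) * 2 ^ l) := by
    calc (bad a l b1 b2 b3 b4).card * (l ^ 7 * 2 ^ (b1 + b2 + b3 + b4))
        = ∑ _q ∈ bad a l b1 b2 b3 b4, l ^ 7 * 2 ^ (b1 + b2 + b3 + b4) := by
          rw [sum_const, smul_eq_mul]
      _ ≤ ∑ q ∈ bad a l b1 b2 b3 b4, 2 ^ 7 * ((coinc q b1 b2 b3 b4).card * 2 ^ l) :=
          sum_le_sum key
      _ = 2 ^ 7 * ((∑ q ∈ bad a l b1 b2 b3 b4, (coinc q b1 b2 b3 b4).card) * 2 ^ l) := by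
          rw [← mul_sum, ← sum_mul]
      _ ≤ 2 ^ 7 * ((∑ q ∈ PR a l, (coinc q b1 b2 b3 b4).card) * 2 ^ l) := by
          refine Nat.mul_le_mul_left _ (Nat.mul_le_mul_right _ ?_)
          exact sum_le_sum_of_subset (filter_subset _ _)
      _ ≤ _ := Nat.mul_le_mul_left _ (Nat.mul_le_mul_right _ hs)
  have h6 : 0 < 2 ^ (b1 + b2 + b3 + b4) := by positivity
  refine le_of_mul_le_mul_right (a := 2 ^ (b1 + b2 + b3 + b4)) ?_ h6
  calc (bad a l b1 b2 b3 b4).card * l ^ 7 * 2 ^ (b1 + b2 + b3 + b4)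
      = (bad a l b1 b2 b3 b4).card * (l ^ 7 * 2 ^ (b1 + b2 + b3 + b4)) := by ring
    _ ≤ _ := h5
    _ = _ := by ring

end D

open D in
theorem suitable : ∃ l₀ : ℕ, ∀ l : ℕ, l₀ ≤ l → ∃ q : ℕ, q.Prime ∧ Suit q ∧ l ≤ 2 * La q ∧ La q ≤ l := by
  classical
  refine ⟨2 ^ 12, fun l hl => ?_⟩
  have hl' : 4096 ≤ l := by norm_num at hl; exact hl
  set a := l - l / 4 with ha
  have hal : 2 * l + 3 ≤ 3 * a := by omega
  set I := range (l + 1) ×ˢ range (l + 1) ×ˢ range (l + 1) ×ˢ range (l + 1) with hI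
  set BB := I.biUnion (fun b => bad a l b.1 b.2.1 b.2.2.1 b.2.2.2) with hBB
  have hcard : BB.card * l ^ 7 ≤ (l + 1) ^ 4 * 2 ^ (l + 16) := by
    calc BB.card * l ^ 7 ≤ (∑ b ∈ I, (bad a l b.1 b.2.1 b.2.2.1 b.2.2.2).card) * l ^ 7 :=
          Nat.mul_le_mul_right _ card_biUnion_le
      _ = ∑ b ∈ I, (bad a l b.1 b.2.1 b.2.2.1 b.2.2.2).card * l ^ 7 := by rw [sum_mul]
      _ ≤ ∑ _b ∈ I, 2 ^ (l + 16) := by
          refine sum_le_sum (fun b hb => ?_)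
          simp only [hI, mem_product, mem_range] at hb
          exact card_bad a l hal _ _ _ _ (by omega) (by omega) (by omega) (by omega)
      _ = (l + 1) ^ 4 * 2 ^ (l + 16) := by
          rw [sum_const, smul_eq_mul, hI]
          simp only [card_product, card_range]
          ring
  have hl1 : (l + 1) ^ 4 ≤ 16 * l ^ 4 := by
    calc (l + 1) ^ 4 ≤ (2 * l) ^ 4 := Nat.pow_le_pow_left (by omega) 4
      _ = _ := by ring
  have hcard2 : BB.card * l ^ 3 ≤ 2 ^ (l + 20) := by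
    have hp : 0 < l ^ 4 := by positivity
    refine le_of_mul_le_mul_right (a := l ^ 4) ?_ hp
    calc BB.card * l ^ 3 * l ^ 4 = BB.card * l ^ 7 := by ring
      _ ≤ (l + 1) ^ 4 * 2 ^ (l + 16) := hcard
      _ ≤ 16 * l ^ 4 * 2 ^ (l + 16) := Nat.mul_le_mul_right _ hl1
      _ = _ := by ring
  have hpi := pi_lower l (by omega)
  have hPR := card_PR a l
  -- the excluded primes are few
  have hsmall : l * 2 ^ a + l + 1 ≤ 2 ^ (l - 1) := by
    have h1 : l + 1 ≤ l * 2 ^ a := by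
      have : 2 ≤ 2 ^ a := by
        calc 2 = 2 ^ 1 := rfl
          _ ≤ 2 ^ a := Nat.pow_le_pow_right (by norm_num) (by omega)
      nlinarith
    have h2 : 2 * l ≤ 2 ^ (l / 4 - 1) := by
      have key : ∀ k : ℕ, 1023 ≤ k → 2 * (4 * (k + 1) + 3) ≤ 2 ^ k := by
        intro k hk
        induction k, hk using Nat.le_induction with
        | base =>
          calc 2 * (4 * (1023 + 1) + 3) ≤ 2 ^ 14 := by norm_num
            _ ≤ 2 ^ 1023 := Nat.pow_le_pow_right (by norm_num) (by norm_num)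
        | succ k hk ih => rw [pow_succ]; omega
      have := key (l / 4 - 1) (by omega)
      omega
    calc l * 2 ^ a + l + 1 ≤ l * 2 ^ a + l * 2 ^ a := by omega
      _ = 2 * l * 2 ^ a := by ring
      _ ≤ 2 ^ (l / 4 - 1) * 2 ^ a := Nat.mul_le_mul_right _ h2
      _ = 2 ^ (l - 1) := by rw [← pow_add]; congr 1; omega
  have hPl : 2 ^ (l - 1) ≤ l * (PR a l).card := by
    have h1 : 2 ^ l = 2 ^ (l - 1) + 2 ^ (l - 1) := by
      have : l = (l - 1) + 1 := by omega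
      rw [this, pow_succ]; simp; ring
    have h2 : l * (2 ^ l).primeCounting ≤ l * (PR a l).card + l * 2 ^ a := by
      rw [← mul_add]; exact Nat.mul_le_mul_left _ hPR
    omega
  have hlt : BB.card < (PR a l).card := by
    by_contra hcon
    push Not at hcon
    have h1 : 2 ^ (l - 1) * l ^ 2 ≤ 2 ^ (l + 20) := by
      calc 2 ^ (l - 1) * l ^ 2 ≤ l * (PR a l).card * l ^ 2 := Nat.mul_le_mul_right _ hPl
        _ = (PR a l).card * l ^ 3 := by ring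
        _ ≤ BB.card * l ^ 3 := Nat.mul_le_mul_right _ hcon
        _ ≤ _ := hcard2
    have h2 : 2 ^ (l - 1) * 2 ^ 24 ≤ 2 ^ (l - 1) * l ^ 2 := by
      refine Nat.mul_le_mul_left _ ?_
      calc 2 ^ 24 = (2 ^ 12) ^ 2 := by norm_num
        _ ≤ l ^ 2 := Nat.pow_le_pow_left hl 2
    have h3 : 2 ^ (l + 20) < 2 ^ (l - 1) * 2 ^ 24 := by
      rw [← pow_add]
      exact Nat.pow_lt_pow_right (by norm_num) (by omega)
    omega
  obtain ⟨q, hq1, hq2⟩ := exists_mem_notMem_of_card_lt_card hlt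
  have hLa := La_bounds a l q hq1
  refine ⟨q, (mem_filter.1 hq1).2, ?_, by omega, hLa.2⟩
  intro b1 b2 b3 b4 h1 h2 h3 h4
  by_contra hcon
  push Not at hcon
  apply hq2
  rw [hBB, mem_biUnion]
  refine ⟨(b1, b2, b3, b4), ?_, ?_⟩
  · simp only [hI, mem_product, mem_range]
    omega
  · simp only [bad, mem_filter]
    exact ⟨hq1, hcon⟩

end Pool.Agent.H935R2.PS
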