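import Mathlib

set_option autoImplicit false

/-!
# Star discrepancy in dimension three, power saving: definitions

`q` is a huge prime, `nn x` the absolute value of the absolutely least residue of `x`, `dl x` its
dyadic size, `La q` the number of dyadic scales, `uu q ≈ log₂ log₂ q`.
-/

namespace Pool.Agent.H935R2.PS

open Finset

/-- The absolute value of the absolutely least residue. -/
def nn {q : ℕ} (x : ZMod q) : ℕ := x.valMinAbs.natAbs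

/-- The dyadic size of the absolutely least residue (`0 ↦ 0`). -/
def dl {q : ℕ} (x : ZMod q) : ℕ := Nat.log 2 (nn x)

/-- The number of dyadic scales. -/
def La (q : ℕ) : ℕ := Nat.log 2 q

/-- `log log q`. Note that `La q < 2 ^ uu q ≤ 2 * La q`. -/
def uu (q : ℕ) : ℕ := Nat.log 2 (La q) + 1

/-- The 2-dimensional threshold. -/
def k1 (q : ℕ) : ℕ := 44 * uu q

/-- The 3-dimensional threshold. -/
def k2 (q : ℕ) : ℕ := 88 * uu q

/-- The multiplier `x` is good in dimension 2. -/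
def good2 {q : ℕ} (x : ZMod q) : Prop := x ≠ 0 ∧ ∀ l : ZMod q, l ≠ 0 → La q ≤ dl (l * x) + dl l + k1 q

/-- The bad dyadic boxes for plane cells. -/
def PB (q b1 b2 b3 : ℕ) : Prop :=
  b1 + b2 + b3 + k2 q < 2 * La q ∨ b1 + b2 + k1 q < La q ∨ b1 + b3 + k1 q < La q ∨
    b2 + b3 + k1 q < La q

/-- The plane `e₂ = a e₁ - w e₃` is good. -/
def pgood {q : ℕ} (a w : ZMod q) : Prop :=
  a ≠ 0 ∧ w ≠ 0 ∧ ∀ l : ZMod q, l ≠ 0 → ¬ PB q (dl (l * a)) (dl l) (dl (l * w))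

/-- The line `(e, α e, b e)` is good. -/
def lgood {q : ℕ} (α b : ZMod q) : Prop :=
  α ≠ 0 ∧ b ≠ 0 ∧ ∀ v2 v3 : ZMod q, (v2 ≠ 0 ∨ v3 ≠ 0) →
    La q ≤ dl (α * v2 + b * v3) + dl v2 + dl v3 + k1 q

open Classical in
/-- The discrepancy of a plane cell. -/
noncomputable def Xp {q : ℕ} (c c' a w : ZMod q) (t1 t2 t3 : ℕ) : ℝ :=
  (((Icc 1 t1 ×ˢ Icc 1 t2 ×ˢ Icc 1 t3).filter (fun e : ℕ × ℕ × ℕ =>
    (e.2.1 : ZMod q) - c = a * (e.1 : ZMod q) - w * ((e.2.2 : ZMod q) - c'))).card : ℝ)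
    - (t1 : ℝ) * t2 * t3 / q

open Classical in
/-- The discrepancy of a line cell. -/
noncomputable def Xl {q : ℕ} (c2 c3 α b : ZMod q) (t1 t2 t3 : ℕ) : ℝ :=
  (((Icc 1 t1 ×ˢ Icc 1 t2 ×ˢ Icc 1 t3).filter (fun e : ℕ × ℕ × ℕ =>
    (e.2.1 : ZMod q) = c2 + α * (e.1 : ZMod q) ∧ (e.2.2 : ZMod q) = c3 + b * (e.1 : ZMod q))).card : ℝ)
    - (t1 : ℝ) * t2 * t3 / (q : ℝ) ^ 2

open Classical in
/-- The absolute Fourier bound for plane cells. -/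
noncomputable def Rp {q : ℕ} [NeZero q] (a w : ZMod q) : ℝ :=
  ∑ l ∈ (univ : Finset (ZMod q)).filter (fun l => l ≠ 0),
    (q : ℝ) ^ 2 / ((nn (l * a) : ℝ) * nn l * nn (l * w))

/-- `max 1 |x|` -/
noncomputable def mx {q : ℕ} (x : ZMod q) : ℝ := max 1 (nn x : ℝ)

open Classical in
/-- The absolute Fourier bound for line cells. -/
noncomputable def Rl {q : ℕ} [NeZero q] (α b : ZMod q) : ℝ :=
  ∑ v ∈ (univ : Finset (ZMod q × ZMod q)).filter (fun v => v ≠ 0),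
    (q : ℝ) / (mx (α * v.1 + b * v.2) * mx v.1 * mx v.2)

/-- The geometric sum `∑_{j=1}^t e(v (j - c) / q)`. -/
noncomputable def G {q : ℕ} [NeZero q] (c : ZMod q) (t : ℕ) (v : ZMod q) : ℂ :=
  ∑ j ∈ Icc 1 t, ZMod.stdAddChar (v * ((j : ZMod q) - c))

/-- The gcd of the least residues of a vector. -/
def gv {q : ℕ} (v : Fin 3 → ZMod q) : ℕ := Nat.gcd (nn (v 0)) (Nat.gcd (nn (v 1)) (nn (v 2)))

/-- `v` divided by its gcd lies in a bad plane box (the vector `v` is directly bad). -/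
def PBdir {q : ℕ} (v : Fin 3 → ZMod q) : Prop :=
  PB q (Nat.log 2 (nn (v 0) / gv v)) (Nat.log 2 (nn (v 1) / gv v)) (Nat.log 2 (nn (v 2) / gv v))

/-- Some multiple of `v` lies in a bad plane box. -/
def PBmul {q : ℕ} (v : Fin 3 → ZMod q) : Prop :=
  ∃ c : ZMod q, c ≠ 0 ∧ PB q (dl (c * v 0)) (dl (c * v 1)) (dl (c * v 2))

/-- The bad dyadic boxes for line cells. -/
def LB (q b1 b2 b3 : ℕ) : Prop := b1 + b2 + b3 + k1 q < La q

/-- `v` divided by its gcd lies in a bad line box. -/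
def LBdir {q : ℕ} (v : Fin 3 → ZMod q) : Prop :=
  LB q (Nat.log 2 (nn (v 0) / gv v)) (Nat.log 2 (nn (v 1) / gv v)) (Nat.log 2 (nn (v 2) / gv v))

/-- The least residues of `v` and `v'` are parallel over `ℚ`. -/
def Par {q : ℕ} (v v' : Fin 3 → ZMod q) : Prop :=
  ∀ i j, (v i).valMinAbs * (v' j).valMinAbs = (v j).valMinAbs * (v' i).valMinAbs

open Classical in
/-- Non trivial coincidences `x y' ≡ x' y (mod q)`, `x y' ≠ x' y`, in a box. -/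
noncomputable def coinc (q b1 b2 b3 b4 : ℕ) : Finset (ℤ × ℤ × ℤ × ℤ) :=
  ((Ioo (-(2 ^ (b1 + 1) : ℤ)) (2 ^ (b1 + 1))) ×ˢ (Ioo (-(2 ^ (b2 + 1) : ℤ)) (2 ^ (b2 + 1))) ×ˢ
    (Ioo (-(2 ^ (b3 + 1) : ℤ)) (2 ^ (b3 + 1))) ×ˢ (Ioo (-(2 ^ (b4 + 1) : ℤ)) (2 ^ (b4 + 1)))).filter
    (fun z => (q : ℤ) ∣ z.1 * z.2.2.2 - z.2.1 * z.2.2.1 ∧ z.1 * z.2.2.2 ≠ z.2.1 * z.2.2.1)

/-- `q` is suitable: there are not too many coincidences. -/
def Suit (q : ℕ) : Prop := ∀ b1 b2 b3 b4 : ℕ, b1 ≤ La q → b2 ≤ La q → b3 ≤ La q → b4 ≤ La q →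
  ((coinc q b1 b2 b3 b4).card : ℝ) * q ≤ 2 ^ (7 * uu q) * 2 ^ (b1 + b2 + b3 + b4)

section arrays
variable {q : ℕ} [Fact q.Prime]

/-- `b_r(j) = a_r / w_r`, from the free units `a`. -/
noncomputable def bb (a : ℕ → ℕ → ZMod q) : ℕ → ℕ → ZMod q
  | 0, j => a 0 j
  | r+1, j => - a (r+1) j * bb a r j / a (r+1) (j - 1)

/-- `w_r(j)`, for `r ≥ 1`, `j ≥ 1`. -/
noncomputable def ww (a : ℕ → ℕ → ZMod q) (r j : ℕ) : ZMod q := - a r (j - 1) / bb a (r - 1) j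

/-- `D_r(j) = Δ_r(j) / w_r(j)`, from the data `D0`, `z`. -/
noncomputable def DD (a : ℕ → ℕ → ZMod q) (D0 z : ℕ → ZMod q) : ℕ → ℕ → ZMod q
  | 0, j => D0 j
  | r+1, j => (z (r+1) + ∑ j' ∈ Icc 1 j, ww a (r+1) j' * DD a D0 z r j') / ww a (r+1) j

/-- `Δ_r(j)`, for `r ≥ 1`. -/
noncomputable def Del (a : ℕ → ℕ → ZMod q) (D0 z : ℕ → ZMod q) (r j : ℕ) : ZMod q :=
  z r + ∑ j' ∈ Icc 1 j, ww a r j' * DD a D0 z (r - 1) j'

/-- The sum of all plane and line cells. -/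
noncomputable def Tot (n : ℕ) (a : ℕ → ℕ → ZMod q) (D0 z : ℕ → ZMod q) (t1 t2 t3 : ℕ → ℕ) : ℝ :=
  ∑ r ∈ Icc 1 n,
    ((∑ j ∈ Icc 1 (n - r), Xp (Del a D0 z r (j - 1)) (DD a D0 z (r - 1) j) (a r j) (ww a r j)
        (t1 (n + 1 - r - j)) (t2 r) (t3 j)) +
     ∑ j ∈ range (n - r + 1), Xl (Del a D0 z r j) (DD a D0 z (r - 1) (j + 1)) (a r j)
        (bb a (r - 1) (j + 1)) (t1 (n + 1 - r - j)) (t2 r) (t3 (j + 1)))

end arrays

end Pool.Agent.H935R2.PS
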