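import Pool.Agent.H935R2.PS.Defs

set_option autoImplicit false

/-!
# Pairs of parallel least residues (definitions shared by tasks E3, E4, E5, F1, G4)
-/

namespace Pool.Agent.H935R2.PS

open Finset

/-- the pairs `(x, c x)`, `(y, c y)` of least residues are parallel over `ℚ` -/
def par2 {q : ℕ} (c x y : ZMod q) : Prop :=
  x.valMinAbs * (c * y).valMinAbs = y.valMinAbs * (c * x).valMinAbs

open Classical in
/-- the pairs `(v, c v)` in given dyadic boxes with the property `P` -/
noncomputable def NPs {q : ℕ} [NeZero q] (b b' : Fin 3 → ℕ)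
    (P : ZMod q → (Fin 3 → ZMod q) → Prop) : Finset (ZMod q × (Fin 3 → ZMod q)) :=
  univ.filter (fun p => p.1 ≠ 0 ∧ (∀ j, p.2 j ≠ 0 ∧ dl (p.2 j) = b j ∧ dl (p.1 * p.2 j) = b' j) ∧
    P p.1 p.2)

end Pool.Agent.H935R2.PS
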