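import Pool.Agent.H935R2.PS.S2def
import Pool.Agent.H935R2.PS.Asetdef
import Pool.Agent.H935R2.PS.NPdef

/-! All shared definitions: `S2` (S2def), `Aset`, `Aset0` (ASdef), `par2`, `NPs` (NPdef). -/
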