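import Pool.Agent.H935R2.PS.Defs

set_option autoImplicit false

/-!
# Star discrepancy in dimension three, power saving: the net
-/

namespace Pool.Agent.H935R2.PS

open Finset

section net
variable {q : ℕ} [Fact q.Prime]

/-- `κ_r(i) = a_r(i) / a_{r-1}(i)` where `a_r(i) = a r (n + 1 - r - i)` (for `r ≥ 1`). -/
noncomputable def kp (n : ℕ) (a : ℕ → ℕ → ZMod q) (r i : ℕ) : ZMod q :=
  a r (n + 1 - r - i) / a (r - 1) (n + 2 - r - i)

/-- `s_0(i) = a_0(i) u_i`, `s_r(i) = ∑_{i' ≤ i} κ_r(i') s_{r-1}(i')`. -/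
noncomputable def ss (n : ℕ) (a : ℕ → ℕ → ZMod q) (u : ℕ → ZMod q) : ℕ → ℕ → ZMod q
  | 0, i => a 0 (n + 1 - i) * u i
  | r+1, i => ∑ i' ∈ Icc 1 i, kp n a (r+1) i' * ss n a u r i'

/-- The `k`-th digit (`1 ≤ k ≤ n`) of the three coordinates of the point `u`. -/
noncomputable def dg (n : ℕ) (a : ℕ → ℕ → ZMod q) (u : ℕ → ZMod q) (l : Fin 3) (k : ℕ) : ZMod q :=
  if l = 0 then u k else if l = 1 then ss n a u k (n + 1 - k) else a 0 k * u (n + 1 - k)

/-- Extension by zero, shifted: the coordinates are numbered `1, …, n`. -/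
def ex {n : ℕ} (u : Fin n → ZMod q) (k : ℕ) : ZMod q :=
  if h : 1 ≤ k ∧ k ≤ n then u ⟨k - 1, by omega⟩ else 0

/-- The point `u` has the levels `k 0, k 1, k 2` with respect to the digits `T`. -/
def lev {n : ℕ} (a : ℕ → ℕ → ZMod q) (T : Fin 3 → ℕ → ℕ) (k : Fin 3 → ℕ) (u : Fin n → ZMod q) : Prop :=
  ∀ l, (∀ k' ∈ Icc 1 (k l - 1), dg n a (ex u) l k' = (T l k' : ZMod q)) ∧
    (dg n a (ex u) l (k l)).val < T l (k l)

open Classical in
/-- The number of points with the levels `k`. -/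
noncomputable def cnt (n : ℕ) (a : ℕ → ℕ → ZMod q) (T : Fin 3 → ℕ → ℕ) (k : Fin 3 → ℕ) : ℕ :=
  ((univ : Finset (Fin n → ZMod q)).filter (fun u => lev a T k u)).card

/-- The data belonging to the digits `T`. -/
noncomputable def D0T (n : ℕ) (a : ℕ → ℕ → ZMod q) (T : Fin 3 → ℕ → ℕ) (j : ℕ) : ZMod q :=
  (T 2 j : ZMod q) - a 0 j * (T 0 (n + 1 - j) : ZMod q)

/-- The data belonging to the digits `T`. -/
noncomputable def zT (n : ℕ) (a : ℕ → ℕ → ZMod q) (T : Fin 3 → ℕ → ℕ) (r : ℕ) : ZMod q :=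
  (T 1 r : ZMod q) - ss n a (fun k => (T 0 k : ZMod q)) r (n + 1 - r)

end net

end Pool.Agent.H935R2.PS
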