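import Pool.Agent.H935R2.PS.Defs

set_option autoImplicit false

/-!
# Task E1 (helper130): the lattice `y ≡ c x (mod q)` in a box
-/

namespace Pool.Agent.H935R2.PS

open Finset

variable {q : ℕ}

namespace E1

/-- a set whose elements differ by nonzero multiples of `d` in the coordinate `φ` -/
lemma fib (T : Finset (ℤ × ℤ)) (φ : ℤ × ℤ → ℤ) (d : ℤ) (V : ℕ) (hd : d ≠ 0)
    (hdV : d.natAbs ≤ V) (h : ∀ p ∈ T, (φ p).natAbs < V)
    (hm : ∀ p ∈ T, ∀ p' ∈ T, p ≠ p' → ∃ m : ℤ, m ≠ 0 ∧ φ p - φ p' = m * d) :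
    T.card * d.natAbs ≤ 3 * V := by
  set D : ℤ := (d.natAbs : ℤ) with hD
  have hDpos : 0 < D := by rw [hD]; exact_mod_cast Int.natAbs_pos.2 hd
  have hinj : Set.InjOn (fun p => (φ p + V) / D) (T : Set (ℤ × ℤ)) := by
    intro p hp p' hp' heq
    by_contra hne
    obtain ⟨m, hm0, hmd⟩ := hm p hp p' hp' hne
    simp only at heq
    have e1 := Int.emod_add_mul_ediv (φ p + V) D
    have e2 := Int.emod_add_mul_ediv (φ p' + V) D
    have l1 := Int.emod_nonneg (φ p + V) hDpos.ne'
    have l2 := Int.emod_lt_of_pos (φ p + V) hDpos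
    have l3 := Int.emod_nonneg (φ p' + V) hDpos.ne'
    have l4 := Int.emod_lt_of_pos (φ p' + V) hDpos
    rw [heq] at e1
    have l5 : |φ p - φ p'| < D := by
      rw [abs_lt]; constructor <;> linarith
    rw [hmd, abs_mul] at l5
    have l6 : 1 ≤ |m| := Int.one_le_abs hm0
    have l7 : |d| = D := by rw [hD, Int.abs_eq_natAbs]
    rw [l7] at l5
    nlinarith
  have hmaps : ∀ p ∈ T, (fun p => (φ p + V) / D) p ∈ Icc (0 : ℤ) ((2 * V - 1) / D) := by
    intro p hp
    have h1 := h p hp
    have h2 : 0 ≤ φ p + V := by omega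
    have h3 : φ p + V ≤ 2 * V - 1 := by omega
    simp only [mem_Icc]
    exact ⟨Int.ediv_nonneg h2 hDpos.le, Int.ediv_le_ediv hDpos h3⟩
  have hcard := card_le_card_of_injOn _ hmaps hinj
  rw [Int.card_Icc] at hcard
  rcases T.eq_empty_or_nonempty with rfl | ⟨p, hp⟩
  · simp
  · have hV : 0 < V := by have := h p hp; omega
    have h4 : 0 ≤ ((2 * V - 1 : ℤ)) / D := Int.ediv_nonneg (by omega) hDpos.le
    have h5 : (T.card : ℤ) ≤ (2 * V - 1 : ℤ) / D + 1 := by
      have : (T.card : ℤ) ≤ (((2 * V - 1 : ℤ) / D + 1 - 0).toNat : ℤ) := by exact_mod_cast hcard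
      rw [Int.toNat_of_nonneg (by omega)] at this
      linarith
    have h6 : ((2 * V - 1 : ℤ) / D) * D ≤ 2 * V - 1 := Int.ediv_mul_le _ hDpos.ne'
    have h7 : D ≤ V := by rw [hD]; exact_mod_cast hdV
    have h8 : (T.card : ℤ) * D ≤ 3 * V := by nlinarith
    have h9 : ((T.card * d.natAbs : ℕ) : ℤ) ≤ ((3 * V : ℕ) : ℤ) := by
      rw [Nat.cast_mul, Nat.cast_mul]
      exact h8
    exact Int.ofNat_le.1 h9

/-- the number of points of a lattice with large covolume -/
lemma count [Fact q.Prime] (c : ZMod q) (V V' : ℕ) (hV : V ≤ q) (hV' : V' ≤ q) (S : Finset (ℤ × ℤ))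
    (hS : ∀ p : ℤ × ℤ, p ∈ S ↔ p.1.natAbs < V ∧ p.2.natAbs < V' ∧ (p.2 : ZMod q) = c * (p.1 : ZMod q)) :
    (∃ g : ℤ × ℤ, g ∈ S ∧ ∀ p ∈ S, ∃ m : ℤ, p.1 = m * g.1 ∧ p.2 = m * g.2) ∨ S = ∅ ∨
      S.card * q ≤ 18 * (V * V') := by
  have hq : 0 < q := (Fact.out : q.Prime).pos
  -- a lattice point in the box with first coordinate zero is zero
  have hx0 : ∀ p : ℤ × ℤ, p ∈ S → p.1 = 0 → p.2 = 0 := by
    intro p hp h1
    obtain ⟨-, h2, h3⟩ := (hS p).1 hp
    rw [h1] at h3
    simp only [Int.cast_zero, mul_zero] at h3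
    rw [ZMod.intCast_zmod_eq_zero_iff_dvd] at h3
    by_contra h4
    have := Int.natAbs_dvd_natAbs.2 h3
    have h5 := Nat.le_of_dvd (Int.natAbs_pos.2 h4) this
    simp only [Int.natAbs_natCast] at h5
    omega
  by_cases hne : ∃ p ∈ S, 0 < p.1
  swap
  · -- only the zero vector
    rcases S.eq_empty_or_nonempty with h | ⟨p, hp⟩
    · exact Or.inr (Or.inl h)
    · left
      have hall : ∀ p ∈ S, p = 0 := by
        intro p hp
        have h1 : ¬ 0 < p.1 := fun h => hne ⟨p, hp, h⟩
        have h2 : ¬ p.1 < 0 := fun h => by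
          have hneg : (-p : ℤ × ℤ) ∈ S := by
            rw [hS]
            obtain ⟨a1, a2, a3⟩ := (hS p).1 hp
            refine ⟨by simpa using a1, by simpa using a2, ?_⟩
            simp only [Prod.fst_neg, Prod.snd_neg, Int.cast_neg]
            rw [a3]; ring
          exact hne ⟨-p, hneg, by simpa using h⟩
        have h3 : p.1 = 0 := by omega
        exact Prod.ext h3 (hx0 p hp h3)
      refine ⟨p, hp, fun p' hp' => ⟨1, ?_, ?_⟩⟩
      · rw [hall p hp, hall p' hp']; simp
      · rw [hall p hp, hall p' hp']; simp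
  · -- minimal positive first coordinate
    obtain ⟨g, hgm, hgmin⟩ := exists_min_image (S.filter (fun p => 0 < p.1)) (fun p => p.1) (by
      obtain ⟨p, hp, h⟩ := hne
      exact ⟨p, mem_filter.2 ⟨hp, h⟩⟩)
    obtain ⟨hgS, hgpos⟩ := mem_filter.1 hgm
    obtain ⟨gV, gV', glat⟩ := (hS g).1 hgS
    -- parallel differences are multiples of g
    have claimA : ∀ p ∈ S, ∀ p' ∈ S, g.1 * (p.2 - p'.2) = g.2 * (p.1 - p'.1) →
        ∃ m : ℤ, p.1 - p'.1 = m * g.1 ∧ p.2 - p'.2 = m * g.2 := by
      intro p hp p' hp' hpar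
      obtain ⟨-, -, plat⟩ := (hS p).1 hp
      obtain ⟨-, -, plat'⟩ := (hS p').1 hp'
      set m := (p.1 - p'.1) / g.1 with hm
      have e1 := Int.emod_add_mul_ediv (p.1 - p'.1) g.1
      have l1 := Int.emod_nonneg (p.1 - p'.1) hgpos.ne'
      have l2 := Int.emod_lt_of_pos (p.1 - p'.1) hgpos
      rw [← hm] at e1
      set r1 := (p.1 - p'.1) % g.1 with hr1
      have hr1' : r1 = p.1 - p'.1 - m * g.1 := by linarith
      set r2 := p.2 - p'.2 - m * g.2 with hr2
      have hpr : g.1 * r2 = g.2 * r1 := by rw [hr2, hr1']; linarith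
      have hr2abs : r2.natAbs < V' := by
        have h1 : g.1.natAbs * r2.natAbs = g.2.natAbs * r1.natAbs := by
          rw [← Int.natAbs_mul, ← Int.natAbs_mul, hpr]
        have h2 : r1.natAbs < g.1.natAbs := by omega
        have h3 : g.1.natAbs * r2.natAbs ≤ g.1.natAbs * g.2.natAbs := by
          rw [h1, mul_comm]; exact Nat.mul_le_mul_right _ h2.le
        have h4 : 0 < g.1.natAbs := by omega
        have h5 : r2.natAbs ≤ g.2.natAbs := Nat.le_of_mul_le_mul_left h3 h4
        omega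
      have hrS : ((r1, r2) : ℤ × ℤ) ∈ S := by
        rw [hS]
        refine ⟨by simp only; omega, hr2abs, ?_⟩
        simp only [hr1', hr2]
        push_cast
        rw [plat, plat', glat]; ring
      have hr10 : r1 = 0 := by
        by_contra h
        have h1 : 0 < r1 := by omega
        have := hgmin (r1, r2) (mem_filter.2 ⟨hrS, h1⟩)
        simp only at this
        omega
      have hr20 : r2 = 0 := hx0 (r1, r2) hrS hr10
      exact ⟨m, by linarith, by linarith⟩
    have h0S : ((0, 0) : ℤ × ℤ) ∈ S := by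
      rw [hS]
      refine ⟨by simp only [Int.natAbs_zero]; omega, by simp only [Int.natAbs_zero]; omega, by simp⟩
    -- the invariant
    have hdvd : ∀ p ∈ S, (q : ℤ) ∣ g.1 * p.2 - g.2 * p.1 := by
      intro p hp
      obtain ⟨-, -, plat⟩ := (hS p).1 hp
      rw [← ZMod.intCast_zmod_eq_zero_iff_dvd]
      push_cast
      rw [plat, glat]; ring
    set κ : ℤ × ℤ → ℤ := fun p => (g.1 * p.2 - g.2 * p.1) / q with hκ
    have hκeq : ∀ p ∈ S, g.1 * p.2 - g.2 * p.1 = κ p * q := fun p hp =>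
      (Int.ediv_mul_cancel (hdvd p hp)).symm
    by_cases hall : ∀ p ∈ S, κ p = 0
    · left
      refine ⟨g, hgS, fun p hp => ?_⟩
      have h1 := hκeq p hp
      rw [hall p hp, zero_mul] at h1
      obtain ⟨m, h2, h3⟩ := claimA p hp (0, 0) h0S (by simp only; linarith)
      exact ⟨m, by simpa using h2, by simpa using h3⟩
    · right; right
      simp only [not_forall] at hall
      obtain ⟨p1, hp1, hk1⟩ := hall
      set T := g.1.natAbs * V' + g.2.natAbs * V with hT
      have habs : ∀ p ∈ S, (κ p).natAbs * q ≤ T := by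
        intro p hp
        obtain ⟨a1, a2, -⟩ := (hS p).1 hp
        have h1 : (κ p).natAbs * q = (g.1 * p.2 - g.2 * p.1).natAbs := by
          rw [hκeq p hp, Int.natAbs_mul]; simp
        rw [h1]
        refine (Int.natAbs_sub_le _ _).trans ?_
        rw [Int.natAbs_mul, Int.natAbs_mul, hT]
        exact Nat.add_le_add (Nat.mul_le_mul_left _ a2.le) (Nat.mul_le_mul_left _ a1.le)
      set K := T / q with hK
      have hKpos : 1 ≤ K := by
        rw [hK, Nat.one_le_div_iff hq]
        have h1 := habs p1 hp1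
        have h2 : 1 ≤ (κ p1).natAbs := Int.natAbs_pos.2 hk1
        nlinarith
      have hTpos : 0 < T := by
        have : q ≤ T := by
          have := Nat.div_mul_le_self T q
          nlinarith
        omega
      -- fibers
      have hfib : ∀ k ∈ S.image κ, (S.filter (fun p => κ p = k)).card ≤ 6 * (V * V') / T := by
        intro k _
        rw [Nat.le_div_iff_mul_le hTpos, hT]
        have hdiff : ∀ p ∈ S.filter (fun p => κ p = k), ∀ p' ∈ S.filter (fun p => κ p = k), p ≠ p' →
            ∃ m : ℤ, m ≠ 0 ∧ p.1 - p'.1 = m * g.1 ∧ p.2 - p'.2 = m * g.2 := by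
          intro p hp p' hp' hnepp
          obtain ⟨hpS, hpk⟩ := mem_filter.1 hp
          obtain ⟨hpS', hpk'⟩ := mem_filter.1 hp'
          have h1 := hκeq p hpS
          have h2 := hκeq p' hpS'
          rw [hpk] at h1
          rw [hpk'] at h2
          obtain ⟨m, h3, h4⟩ := claimA p hpS p' hpS' (by linarith)
          refine ⟨m, ?_, h3, h4⟩
          rintro rfl
          apply hnepp
          exact Prod.ext (by linarith) (by linarith)
        have f1 : (S.filter (fun p => κ p = k)).card * g.1.natAbs ≤ 3 * V :=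
          fib _ Prod.fst g.1 V hgpos.ne' gV.le (fun p hp => ((hS p).1 (mem_filter.1 hp).1).1)
            (fun p hp p' hp' hn => by
              obtain ⟨m, h1, h2, -⟩ := hdiff p hp p' hp' hn
              exact ⟨m, h1, h2⟩)
        have f2 : (S.filter (fun p => κ p = k)).card * g.2.natAbs ≤ 3 * V' := by
          by_cases hg2 : g.2 = 0
          · rw [hg2]; simp
          · exact fib _ Prod.snd g.2 V' hg2 gV'.le (fun p hp => ((hS p).1 (mem_filter.1 hp).1).2.1)
              (fun p hp p' hp' hn => by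
                obtain ⟨m, h1, -, h2⟩ := hdiff p hp p' hp' hn
                exact ⟨m, h1, h2⟩)
        calc (S.filter (fun p => κ p = k)).card * (g.1.natAbs * V' + g.2.natAbs * V)
            = ((S.filter (fun p => κ p = k)).card * g.1.natAbs) * V' +
              ((S.filter (fun p => κ p = k)).card * g.2.natAbs) * V := by ring
          _ ≤ 3 * V * V' + 3 * V' * V :=
            Nat.add_le_add (Nat.mul_le_mul_right _ f1) (Nat.mul_le_mul_right _ f2)
          _ = 6 * (V * V') := by ring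
      have hcard := card_le_mul_card_image (f := κ) S _ hfib
      have himg : (S.image κ).card ≤ 3 * K := by
        have hsub : S.image κ ⊆ Icc (-(K : ℤ)) K := by
          intro k hk
          obtain ⟨p, hp, rfl⟩ := mem_image.1 hk
          have h1 : (κ p).natAbs ≤ K := (Nat.le_div_iff_mul_le hq).2 (habs p hp)
          rw [mem_Icc]; omega
        have := card_le_card hsub
        rw [Int.card_Icc] at this
        omega
      calc S.card * q ≤ (6 * (V * V') / T * (S.image κ).card) * q := Nat.mul_le_mul_right _ hcard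
        _ ≤ (6 * (V * V') / T * (3 * K)) * q :=
          Nat.mul_le_mul_right _ (Nat.mul_le_mul_left _ himg)
        _ = 3 * ((6 * (V * V') / T) * (K * q)) := by ring
        _ ≤ 3 * ((6 * (V * V') / T) * T) :=
          Nat.mul_le_mul_left _ (Nat.mul_le_mul_left _ (Nat.div_mul_le_self T q))
        _ ≤ 3 * (6 * (V * V')) := Nat.mul_le_mul_left _ (Nat.div_mul_le_self _ _)
        _ = 18 * (V * V') := by ring

end E1

/-- dichotomy for the lattice `{(x, y) : y ≡ c x}` in a box -/
theorem dichot [Fact q.Prime] (c : ZMod q) (V V' : ℕ) (hV : V ≤ q) (hV' : V' ≤ q) (S : Finset (ℤ × ℤ))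
    (hS : ∀ p : ℤ × ℤ, p ∈ S ↔ p.1.natAbs < V ∧ p.2.natAbs < V' ∧ (p.2 : ZMod q) = c * (p.1 : ZMod q)) :
    (∃ g : ℤ × ℤ, g ∈ S ∧ ∀ p ∈ S, ∃ m : ℤ, p.1 = m * g.1 ∧ p.2 = m * g.2) ∨ S = ∅ ∨
      (S.card : ℝ) * q ≤ 40 * V * V' := by
  rcases E1.count c V V' hV hV' S hS with h | h | h
  · exact Or.inl h
  · exact Or.inr (Or.inl h)
  · right; right
    have h1 : ((S.card * q : ℕ) : ℝ) ≤ ((18 * (V * V') : ℕ) : ℝ) := by exact_mod_cast h
    push_cast at h1
    have h2 : (0 : ℝ) ≤ (V : ℝ) * V' := by positivity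
    linarith

/-- size of the generator -/
theorem gen_size [Fact q.Prime] (c : ZMod q) (hc : c ≠ 0) (V V' : ℕ) (hV : V ≤ q) (hV' : V' ≤ q)
    (g : ℤ × ℤ) (hg0 : g ≠ 0) (hg : g.1.natAbs < V ∧ g.2.natAbs < V' ∧ (g.2 : ZMod q) = c * (g.1 : ZMod q))
    (hgen : ∀ p : ℤ × ℤ, p.1.natAbs < V → p.2.natAbs < V' → (p.2 : ZMod q) = c * (p.1 : ZMod q) →
      ∃ m : ℤ, p.1 = m * g.1 ∧ p.2 = m * g.2) : g.1.natAbs * g.2.natAbs ≤ q := by
  have hq : 0 < q := (Fact.out : q.Prime).pos
  obtain ⟨g1, g2, g3⟩ := hg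
  by_contra hlt
  rw [not_le] at hlt
  set X := g.1.natAbs with hX
  set Y := g.2.natAbs with hY
  have hX2 : 2 ≤ X := by
    by_contra h
    have : X = 0 ∨ X = 1 := by omega
    rcases this with h | h <;> rw [h] at hlt <;> omega
  obtain ⟨j, k, hk0, hkn, hjk⟩ := Real.exists_int_int_abs_mul_sub_le ((c.val : ℝ) / q) (n := X - 1)
    (by omega)
  have hXr : ((X - 1 : ℕ) : ℝ) + 1 = X := by
    rw [Nat.cast_sub (by omega)]; push_cast; ring
  rw [hXr] at hjk
  have hqr : (0 : ℝ) < q := by exact_mod_cast hq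
  have hXpos : (0 : ℝ) < X := by exact_mod_cast (by omega : 0 < X)
  set y : ℤ := k * (c.val : ℤ) - j * q with hy
  have h1 : |(y : ℝ)| * X ≤ q := by
    have e1 : (y : ℝ) = (k * ((c.val : ℝ) / q) - j) * q := by
      rw [hy]; push_cast; field_simp
    rw [e1, abs_mul, abs_of_pos hqr]
    calc |(k : ℝ) * ((c.val : ℝ) / q) - j| * q * X ≤ 1 / X * q * X := by gcongr
      _ = q := by field_simp
  have h2 : y.natAbs * X ≤ q := by
    have : ((y.natAbs * X : ℕ) : ℝ) ≤ q := by
      push_cast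
      rw [Nat.cast_natAbs, Int.cast_abs]
      exact h1
    exact_mod_cast this
  have h3 : y.natAbs < Y := by
    by_contra h
    rw [not_lt] at h
    have := Nat.mul_le_mul_right X h
    have h4 : Y * X = X * Y := mul_comm _ _
    omega
  have hkX : k.natAbs < X := by
    have : k ≤ ((X - 1 : ℕ) : ℤ) := hkn
    omega
  obtain ⟨m, hm1, -⟩ := hgen (k, y) (by simp only; omega) (by simp only; omega) (by
    simp only [hy]
    push_cast
    rw [ZMod.natCast_zmod_val]
    simp [mul_comm])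
  simp only at hm1
  have h5 : k.natAbs = m.natAbs * X := by rw [hm1, Int.natAbs_mul, hX]
  have h6 : 0 < k.natAbs := by omega
  rcases Nat.eq_zero_or_pos m.natAbs with h7 | h7
  · rw [h7] at h5; omega
  · have : X ≤ m.natAbs * X := Nat.le_mul_of_pos_left _ h7
    omega

end Pool.Agent.H935R2.PS
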