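import Pool.Agent.H935R2.PS.Defs2

set_option autoImplicit false
set_option linter.unusedVariables false

/-!
# Task E3: `caseA` (two coordinates parallel, the third not)
-/

namespace Pool.Agent.H935R2.PS

open Finset

namespace E3

variable {q : ℕ}

theorem vma_ne {x : ZMod q} (hx : x ≠ 0) : x.valMinAbs ≠ 0 := by
  intro h
  exact hx (ZMod.valMinAbs_eq_zero x |>.1 h)

theorem natAbs_lt_of_dl {x : ZMod q} {b : ℕ} (hd : dl x = b) :
    x.valMinAbs.natAbs < 2 ^ (b + 1) := by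
  have h := Nat.lt_pow_succ_log_self (b := 2) (by norm_num) (nn x)
  have h2 : Nat.log 2 (nn x) = b := hd
  rw [h2] at h
  exact h

/-- membership in a symmetric interval -/
theorem mem_Ioo_of_natAbs {z : ℤ} {B : ℕ} (h : z.natAbs < 2 ^ B) :
    z ∈ Ioo (-(2 ^ B : ℤ)) (2 ^ B) := by
  have h1 : ((z.natAbs : ℤ)) < 2 ^ B := by exact_mod_cast h
  rw [mem_Ioo]
  rw [Int.natCast_natAbs] at h1
  exact abs_lt.1 h1

/-- the structure of the first pair and of the parallel second pair -/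
theorem decomp (x y x' y' : ℤ) (hx : x ≠ 0) (hx' : x' ≠ 0) (hpar : x * y' = x' * y) :
    0 < (Int.gcd x y : ℤ) ∧ x / Int.gcd x y ≠ 0 ∧ x' / (x / Int.gcd x y) ≠ 0 ∧
      x = Int.gcd x y * (x / Int.gcd x y) ∧ y = Int.gcd x y * (y / Int.gcd x y) ∧
      x' = x' / (x / Int.gcd x y) * (x / Int.gcd x y) ∧
      y' = x' / (x / Int.gcd x y) * (y / Int.gcd x y) := by
  have hg : 0 < Int.gcd x y := Int.gcd_pos_of_ne_zero_left _ hx
  have hg' : (0:ℤ) < (Int.gcd x y : ℤ) := by exact_mod_cast hg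
  have hs : x = Int.gcd x y * (x / Int.gcd x y) :=
    (Int.mul_ediv_cancel' (Int.gcd_dvd_left x y)).symm
  have hp : y = Int.gcd x y * (y / Int.gcd x y) :=
    (Int.mul_ediv_cancel' (Int.gcd_dvd_right x y)).symm
  have hco : Int.gcd (x / Int.gcd x y) (y / Int.gcd x y) = 1 :=
    Int.gcd_div_gcd_div_gcd hg
  set g : ℤ := (Int.gcd x y : ℤ) with hgdef
  set s : ℤ := x / g with hsdef
  set p : ℤ := y / g with hpdef
  have hs0 : s ≠ 0 := by
    intro h0
    apply hx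
    rw [hs, h0]; ring
  -- s * y' = x' * p
  have h1 : s * y' = x' * p := by
    have : g * (s * y') = g * (x' * p) := by
      calc g * (s * y') = (g * s) * y' := by ring
        _ = x * y' := by rw [← hs]
        _ = x' * y := hpar
        _ = x' * (g * p) := by rw [← hp]
        _ = g * (x' * p) := by ring
    exact mul_left_cancel₀ hg'.ne' this
  have h2 : s ∣ x' * p := ⟨y', h1.symm⟩
  have h3 : s ∣ x' := by
    have hc : IsCoprime s p := Int.isCoprime_iff_gcd_eq_one.2 hco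
    exact hc.dvd_of_dvd_mul_right h2
  have h4 : x' = x' / s * s := (Int.ediv_mul_cancel h3).symm
  refine ⟨hg', hs0, ?_, hs, hp, h4, ?_⟩
  · intro h0
    apply hx'
    rw [h4, h0]; ring
  · have : s * y' = s * (x' / s * p) := by
      calc s * y' = x' * p := h1
        _ = (x' / s * s) * p := by rw [← h4]
        _ = s * (x' / s * p) := by ring
    exact mul_left_cancel₀ hs0 this

/-- bound for the multiplier -/
theorem mult_bound (m s p : ℤ) (hm : m ≠ 0) (hs : s ≠ 0) (hp : p ≠ 0) (B B' sig pi : ℕ)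
    (h1 : (m * s).natAbs < 2 ^ (B + 1)) (h2 : (m * p).natAbs < 2 ^ (B' + 1))
    (hsig : Nat.log 2 s.natAbs = sig) (hpi : Nat.log 2 p.natAbs = pi) :
    sig ≤ B ∧ pi ≤ B' ∧ 1 ≤ m.natAbs ∧ m.natAbs ≤ Nat.sqrt (2 ^ (B + B' + 2 - (sig + pi))) := by
  have hm1 : 1 ≤ m.natAbs := Int.natAbs_pos.2 hm
  have hs1 : 2 ^ sig ≤ s.natAbs := by
    rw [← hsig]; exact Nat.pow_log_le_self 2 (Int.natAbs_ne_zero.2 hs)
  have hp1 : 2 ^ pi ≤ p.natAbs := by
    rw [← hpi]; exact Nat.pow_log_le_self 2 (Int.natAbs_ne_zero.2 hp)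
  rw [Int.natAbs_mul] at h1 h2
  have h3 : m.natAbs * 2 ^ sig < 2 ^ (B + 1) := lt_of_le_of_lt (Nat.mul_le_mul_left _ hs1) h1
  have h4 : m.natAbs * 2 ^ pi < 2 ^ (B' + 1) := lt_of_le_of_lt (Nat.mul_le_mul_left _ hp1) h2
  have h5 : 2 ^ sig < 2 ^ (B + 1) := by
    calc 2 ^ sig = 1 * 2 ^ sig := (one_mul _).symm
      _ ≤ m.natAbs * 2 ^ sig := Nat.mul_le_mul_right _ hm1
      _ < _ := h3
  have h6 : 2 ^ pi < 2 ^ (B' + 1) := by
    calc 2 ^ pi = 1 * 2 ^ pi := (one_mul _).symm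
      _ ≤ m.natAbs * 2 ^ pi := Nat.mul_le_mul_right _ hm1
      _ < _ := h4
  have h7 : sig < B + 1 := (Nat.pow_lt_pow_iff_right (by norm_num)).1 h5
  have h8 : pi < B' + 1 := (Nat.pow_lt_pow_iff_right (by norm_num)).1 h6
  refine ⟨by omega, by omega, hm1, ?_⟩
  rw [Nat.le_sqrt]
  have h9 : (m.natAbs * m.natAbs) * 2 ^ (sig + pi) ≤ 2 ^ (B + B' + 2) := by
    calc (m.natAbs * m.natAbs) * 2 ^ (sig + pi) = (m.natAbs * 2 ^ sig) * (m.natAbs * 2 ^ pi) := by
          rw [pow_add]; ring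
      _ ≤ 2 ^ (B + 1) * 2 ^ (B' + 1) := Nat.mul_le_mul h3.le h4.le
      _ = 2 ^ (B + B' + 2) := by rw [← pow_add]; congr 1; ring
  have h10 : 2 ^ (B + B' + 2) = 2 ^ (B + B' + 2 - (sig + pi)) * 2 ^ (sig + pi) := by
    rw [← pow_add]; congr 1; omega
  rw [h10] at h9
  exact Nat.le_of_mul_le_mul_right h9 (by positivity)

/-- the primitive vector of the first pair and the multipliers -/
noncomputable def gg (x y : ZMod q) : ℤ := (Int.gcd x.valMinAbs y.valMinAbs : ℤ)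
noncomputable def ss (x y : ZMod q) : ℤ := x.valMinAbs / gg x y
noncomputable def pp (x y : ZMod q) : ℤ := y.valMinAbs / gg x y

theorem mem_NPs [NeZero q] (b b' : Fin 3 → ℕ) (P : ZMod q → (Fin 3 → ZMod q) → Prop)
    (cv : ZMod q × (Fin 3 → ZMod q)) : cv ∈ NPs b b' P ↔
      (cv.1 ≠ 0 ∧ (∀ j, cv.2 j ≠ 0 ∧ dl (cv.2 j) = b j ∧ dl (cv.1 * cv.2 j) = b' j) ∧
    P cv.1 cv.2) := by
  classical
  unfold NPs
  rw [mem_filter]
  exact ⟨fun h => h.2, fun h => ⟨mem_univ _, h⟩⟩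

open Classical in
/-- one fibre: `s` and `p` of given dyadic size -/
theorem fibre [hq : Fact q.Prime] (hsu : Suit q) (b b' : Fin 3 → ℕ)
    (hb : ∀ j, b j ≤ La q) (hb' : ∀ j, b' j ≤ La q) (i j k : Fin 3) (hij : i ≠ j) (hjk : j ≠ k)
    (hik : i ≠ k) (sig pi : ℕ) :
    (((NPs b b' (fun (c : ZMod q) v => par2 c (v i) (v j) ∧ ¬ par2 c (v i) (v k))).filter
      (fun cv => Nat.log 2 (ss (cv.2 i) (cv.1 * cv.2 i)).natAbs = sig ∧
        Nat.log 2 (pp (cv.2 i) (cv.1 * cv.2 i)).natAbs = pi)).card : ℝ) ≤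
      12 * 2 ^ (7 * uu q) * (√(2 ^ (b i + b' i + b j + b' j)) * 2 ^ (b k + b' k) / q) := by
  set F := ((NPs b b' (fun (c : ZMod q) v => par2 c (v i) (v j) ∧ ¬ par2 c (v i) (v k))).filter
      (fun cv => Nat.log 2 (ss (cv.2 i) (cv.1 * cv.2 i)).natAbs = sig ∧
        Nat.log 2 (pp (cv.2 i) (cv.1 * cv.2 i)).natAbs = pi)) with hF
  have hq0 : (0:ℝ) < q := by exact_mod_cast hq.out.pos
  by_cases hne : F = ∅
  · rw [hne]
    simp only [card_empty, Nat.cast_zero]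
    positivity
  obtain ⟨cv0, hcv0⟩ := nonempty_iff_ne_empty.2 hne
  -- facts about members
  have key : ∀ cv ∈ F, cv.1 ≠ 0 ∧ (∀ l, cv.2 l ≠ 0) ∧ (∀ l, dl (cv.2 l) = b l) ∧
      (∀ l, dl (cv.1 * cv.2 l) = b' l) ∧ par2 cv.1 (cv.2 i) (cv.2 j) ∧
      ¬ par2 cv.1 (cv.2 i) (cv.2 k) ∧ Nat.log 2 (ss (cv.2 i) (cv.1 * cv.2 i)).natAbs = sig ∧
        Nat.log 2 (pp (cv.2 i) (cv.1 * cv.2 i)).natAbs = pi := by
    intro cv hcv
    rw [hF, mem_filter, mem_NPs] at hcv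
    exact ⟨hcv.1.1, fun l => (hcv.1.2.1 l).1, fun l => (hcv.1.2.1 l).2.1,
      fun l => (hcv.1.2.1 l).2.2, hcv.1.2.2.1, hcv.1.2.2.2, hcv.2.1, hcv.2.2⟩
  -- consequences
  have key2 : ∀ cv ∈ F, 0 < gg (cv.2 i) (cv.1 * cv.2 i) ∧
      ss (cv.2 i) (cv.1 * cv.2 i) ≠ 0 ∧ pp (cv.2 i) (cv.1 * cv.2 i) ≠ 0 ∧
      (cv.2 j).valMinAbs / ss (cv.2 i) (cv.1 * cv.2 i) ≠ 0 ∧
      (cv.2 i).valMinAbs = gg (cv.2 i) (cv.1 * cv.2 i) * ss (cv.2 i) (cv.1 * cv.2 i) ∧
      (cv.1 * cv.2 i).valMinAbs = gg (cv.2 i) (cv.1 * cv.2 i) * pp (cv.2 i) (cv.1 * cv.2 i) ∧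
      (cv.2 j).valMinAbs = (cv.2 j).valMinAbs / ss (cv.2 i) (cv.1 * cv.2 i) *
        ss (cv.2 i) (cv.1 * cv.2 i) ∧
      (cv.1 * cv.2 j).valMinAbs = (cv.2 j).valMinAbs / ss (cv.2 i) (cv.1 * cv.2 i) *
        pp (cv.2 i) (cv.1 * cv.2 i) := by
    intro cv hcv
    obtain ⟨hc, hv, -, -, hpar, -, -, -⟩ := key cv hcv
    have hx : (cv.2 i).valMinAbs ≠ 0 := vma_ne (hv i)
    have hy : (cv.1 * cv.2 i).valMinAbs ≠ 0 := vma_ne (mul_ne_zero hc (hv i))
    have hx' : (cv.2 j).valMinAbs ≠ 0 := vma_ne (hv j)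
    obtain ⟨h1, h2, h3, h4, h5, h6, h7⟩ := decomp (cv.2 i).valMinAbs (cv.1 * cv.2 i).valMinAbs
      (cv.2 j).valMinAbs (cv.1 * cv.2 j).valMinAbs hx hx' hpar
    refine ⟨h1, h2, ?_, h3, h4, h5, h6, h7⟩
    intro h0
    apply hy
    rw [h5]
    have : (cv.1 * cv.2 i).valMinAbs / ((cv.2 i).valMinAbs.gcd (cv.1 * cv.2 i).valMinAbs : ℤ) = 0 := h0
    rw [this, mul_zero]
  have key3 : ∀ cv ∈ F, sig ≤ b i ∧ pi ≤ b' i ∧ 1 ≤ (gg (cv.2 i) (cv.1 * cv.2 i)).natAbs ∧
      (gg (cv.2 i) (cv.1 * cv.2 i)).natAbs ≤ Nat.sqrt (2 ^ (b i + b' i + 2 - (sig + pi))) := by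
    intro cv hcv
    obtain ⟨hc, hv, hdb, hdb', -, -, hsig, hpi⟩ := key cv hcv
    obtain ⟨g1, g2, g3, g4, g5, g6, g7, g8⟩ := key2 cv hcv
    refine mult_bound _ _ _ g1.ne' g2 g3 _ _ _ _ ?_ ?_ hsig hpi
    · rw [← g5]; exact natAbs_lt_of_dl (hdb i)
    · rw [← g6]; exact natAbs_lt_of_dl (hdb' i)
  have key4 : ∀ cv ∈ F, sig ≤ b j ∧ pi ≤ b' j ∧
      1 ≤ ((cv.2 j).valMinAbs / ss (cv.2 i) (cv.1 * cv.2 i)).natAbs ∧
      ((cv.2 j).valMinAbs / ss (cv.2 i) (cv.1 * cv.2 i)).natAbs ≤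
        Nat.sqrt (2 ^ (b j + b' j + 2 - (sig + pi))) := by
    intro cv hcv
    obtain ⟨hc, hv, hdb, hdb', -, -, hsig, hpi⟩ := key cv hcv
    obtain ⟨g1, g2, g3, g4, g5, g6, g7, g8⟩ := key2 cv hcv
    refine mult_bound _ _ _ g4 g2 g3 _ _ _ _ ?_ ?_ hsig hpi
    · rw [← g7]; exact natAbs_lt_of_dl (hdb j)
    · rw [← g8]; exact natAbs_lt_of_dl (hdb' j)
  set M := Nat.sqrt (2 ^ (b i + b' i + 2 - (sig + pi))) with hM
  set M' := Nat.sqrt (2 ^ (b j + b' j + 2 - (sig + pi))) with hM'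
  -- the injection
  let f : ZMod q × (Fin 3 → ZMod q) → (ℤ × ℤ × ℤ × ℤ) × ℤ × ℤ := fun cv =>
    ((ss (cv.2 i) (cv.1 * cv.2 i), pp (cv.2 i) (cv.1 * cv.2 i), (cv.2 k).valMinAbs,
      (cv.1 * cv.2 k).valMinAbs), gg (cv.2 i) (cv.1 * cv.2 i),
      (cv.2 j).valMinAbs / ss (cv.2 i) (cv.1 * cv.2 i))
  have hmap : ∀ cv ∈ F, f cv ∈ (coinc q sig pi (b k) (b' k)) ×ˢ ((Icc (1:ℤ) M) ×ˢ (Icc (-(M':ℤ)) M')) := by
    intro cv hcv
    obtain ⟨hc, hv, hdb, hdb', hpar, hnpar, hsig, hpi⟩ := key cv hcv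
    obtain ⟨g1, g2, g3, g4, g5, g6, g7, g8⟩ := key2 cv hcv
    obtain ⟨-, -, l1, l2⟩ := key3 cv hcv
    obtain ⟨-, -, m1, m2⟩ := key4 cv hcv
    rw [mem_product, mem_product]
    refine ⟨?_, ?_, ?_⟩
    · show _ ∈ coinc q sig pi (b k) (b' k)
      rw [coinc, mem_filter, mem_product, mem_product, mem_product]
      refine ⟨⟨?_, ?_, ?_, ?_⟩, ?_, ?_⟩
      · apply mem_Ioo_of_natAbs
        have := Nat.lt_pow_succ_log_self (b := 2) (by norm_num) (ss (cv.2 i) (cv.1 * cv.2 i)).natAbs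
        rw [hsig] at this
        exact this
      · apply mem_Ioo_of_natAbs
        have := Nat.lt_pow_succ_log_self (b := 2) (by norm_num) (pp (cv.2 i) (cv.1 * cv.2 i)).natAbs
        rw [hpi] at this
        exact this
      · exact mem_Ioo_of_natAbs (natAbs_lt_of_dl (hdb k))
      · exact mem_Ioo_of_natAbs (natAbs_lt_of_dl (hdb' k))
      · rw [← ZMod.intCast_zmod_eq_zero_iff_dvd]
        show ((ss (cv.2 i) (cv.1 * cv.2 i) * (cv.1 * cv.2 k).valMinAbs -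
          pp (cv.2 i) (cv.1 * cv.2 i) * (cv.2 k).valMinAbs : ℤ) : ZMod q) = 0
        push_cast
        have e1 : cv.2 i = ((gg (cv.2 i) (cv.1 * cv.2 i) : ℤ) : ZMod q) *
            ((ss (cv.2 i) (cv.1 * cv.2 i) : ℤ) : ZMod q) := by
          have := congrArg (fun z : ℤ => (z : ZMod q)) g5
          simp only [Int.cast_mul, ZMod.coe_valMinAbs] at this
          exact this
        have e2 : cv.1 * cv.2 i = ((gg (cv.2 i) (cv.1 * cv.2 i) : ℤ) : ZMod q) *
            ((pp (cv.2 i) (cv.1 * cv.2 i) : ℤ) : ZMod q) := by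
          have := congrArg (fun z : ℤ => (z : ZMod q)) g6
          simp only [Int.cast_mul, ZMod.coe_valMinAbs] at this
          exact this
        have e3 : ((gg (cv.2 i) (cv.1 * cv.2 i) : ℤ) : ZMod q) ≠ 0 := by
          intro h0
          rw [h0, zero_mul] at e1
          exact hv i e1
        set g := ((gg (cv.2 i) (cv.1 * cv.2 i) : ℤ) : ZMod q)
        set s := ((ss (cv.2 i) (cv.1 * cv.2 i) : ℤ) : ZMod q)
        set p := ((pp (cv.2 i) (cv.1 * cv.2 i) : ℤ) : ZMod q)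
        have e4 : p = cv.1 * s := by
          have : g * p = g * (cv.1 * s) := by
            rw [← e2]
            calc cv.1 * cv.2 i = cv.1 * (g * s) := by rw [← e1]
              _ = g * (cv.1 * s) := by ring
          exact mul_left_cancel₀ e3 this
        rw [e4]; ring
      · show ss (cv.2 i) (cv.1 * cv.2 i) * (cv.1 * cv.2 k).valMinAbs ≠
          pp (cv.2 i) (cv.1 * cv.2 i) * (cv.2 k).valMinAbs
        intro h0
        apply hnpar
        unfold par2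
        rw [g5, g6, mul_assoc, h0]; ring
    · rw [mem_Icc]
      show 1 ≤ gg (cv.2 i) (cv.1 * cv.2 i) ∧ gg (cv.2 i) (cv.1 * cv.2 i) ≤ M
      have : ((gg (cv.2 i) (cv.1 * cv.2 i)).natAbs : ℤ) = gg (cv.2 i) (cv.1 * cv.2 i) :=
        Int.natAbs_of_nonneg g1.le
      rw [← this]
      exact ⟨by exact_mod_cast l1, by exact_mod_cast l2⟩
    · rw [mem_Icc]
      show -(M':ℤ) ≤ (cv.2 j).valMinAbs / ss (cv.2 i) (cv.1 * cv.2 i) ∧
        (cv.2 j).valMinAbs / ss (cv.2 i) (cv.1 * cv.2 i) ≤ M'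
      have h1 : (((cv.2 j).valMinAbs / ss (cv.2 i) (cv.1 * cv.2 i)).natAbs : ℤ) ≤ M' := by
        exact_mod_cast m2
      rw [Int.natCast_natAbs] at h1
      exact abs_le.1 h1
  have hinj : Set.InjOn f (F : Set (ZMod q × (Fin 3 → ZMod q))) := by
    intro cv hcv cw hcw hfe
    obtain ⟨hc, hv, -⟩ := key cv hcv
    obtain ⟨hc', hv', -⟩ := key cw hcw
    obtain ⟨g1, g2, g3, g4, g5, g6, g7, g8⟩ := key2 cv hcv
    obtain ⟨g1', g2', g3', g4', g5', g6', g7', g8'⟩ := key2 cw hcw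
    simp only [f, Prod.mk.injEq] at hfe
    obtain ⟨⟨f1, f2, f3, f4⟩, f5, f6⟩ := hfe
    have i1 : cv.2 i = cw.2 i := by
      have : (cv.2 i).valMinAbs = (cw.2 i).valMinAbs := by
        rw [g5, g5', f1, f5]
      have h2 := congrArg (fun z : ℤ => (z : ZMod q)) this
      simpa only [ZMod.coe_valMinAbs] using h2
    have i2 : cv.1 * cv.2 i = cw.1 * cw.2 i := by
      have : (cv.1 * cv.2 i).valMinAbs = (cw.1 * cw.2 i).valMinAbs := by
        rw [g6, g6', f2, f5]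
      have h2 := congrArg (fun z : ℤ => (z : ZMod q)) this
      simpa only [ZMod.coe_valMinAbs] using h2
    have i3 : cv.1 = cw.1 := by
      rw [i1] at i2
      exact mul_right_cancel₀ (hv' i) i2
    have i4 : cv.2 j = cw.2 j := by
      have : (cv.2 j).valMinAbs = (cw.2 j).valMinAbs := by
        rw [g7, g7', f6, f1]
      have h2 := congrArg (fun z : ℤ => (z : ZMod q)) this
      simpa only [ZMod.coe_valMinAbs] using h2
    have i5 : cv.2 k = cw.2 k := by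
      have h2 := congrArg (fun z : ℤ => (z : ZMod q)) f3
      simpa only [ZMod.coe_valMinAbs] using h2
    refine Prod.ext i3 ?_
    funext l
    have hl : l = i ∨ l = j ∨ l = k := by
      revert hij hjk hik
      clear * -
      revert i j k l
      decide
    rcases hl with rfl | rfl | rfl
    · exact i1
    · exact i4
    · exact i5
  have hcard : (F.card : ℝ) ≤ ((coinc q sig pi (b k) (b' k)).card : ℝ) * (M * (2 * M' + 1)) := by
    have h := card_le_card_of_injOn f hmap hinj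
    rw [card_product, card_product, Int.card_Icc, Int.card_Icc] at h
    have e1 : ((M:ℤ) + 1 - 1).toNat = M := by
      rw [add_sub_cancel_right]; exact Int.toNat_natCast M
    have e2 : ((M':ℤ) + 1 - -(M':ℤ)).toNat = 2 * M' + 1 := by
      have : ((M':ℤ) + 1 - -(M':ℤ)) = ((2 * M' + 1 : ℕ) : ℤ) := by push_cast; ring
      rw [this]; exact Int.toNat_natCast _
    rw [e1, e2] at h
    have h' : (F.card : ℝ) ≤ (((coinc q sig pi (b k) (b' k)).card * (M * (2 * M' + 1)) : ℕ) : ℝ) := by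
      exact_mod_cast h
    refine h'.trans_eq ?_
    push_cast
    ring
  obtain ⟨a1, a2, a3, a4⟩ := key3 cv0 hcv0
  obtain ⟨c1, c2, c3, c4⟩ := key4 cv0 hcv0
  have hM1 : (1:ℝ) ≤ M' := by exact_mod_cast c3.trans c4
  have hco := hsu sig pi (b k) (b' k) (a1.trans (hb i)) (a2.trans (hb' i)) (hb k) (hb' k)
  have hco' : ((coinc q sig pi (b k) (b' k)).card : ℝ) ≤
      2 ^ (7 * uu q) * 2 ^ (sig + pi + b k + b' k) / q := by
    rw [le_div_iff₀ hq0]; exact hco
  have hMr : (M:ℝ) ≤ √(2 ^ (b i + b' i + 2) / 2 ^ (sig + pi)) := by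
    have h1 := @Real.nat_sqrt_le_real_sqrt (2 ^ (b i + b' i + 2 - (sig + pi)))
    rw [← hM] at h1
    refine h1.trans (le_of_eq ?_)
    congr 1
    push_cast
    rw [eq_div_iff (by positivity), ← pow_add]
    congr 1
    omega
  have hMr' : (M':ℝ) ≤ √(2 ^ (b j + b' j + 2) / 2 ^ (sig + pi)) := by
    have h1 := @Real.nat_sqrt_le_real_sqrt (2 ^ (b j + b' j + 2 - (sig + pi)))
    rw [← hM'] at h1
    refine h1.trans (le_of_eq ?_)
    congr 1
    push_cast
    rw [eq_div_iff (by positivity), ← pow_add]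
    congr 1
    omega
  have hMM : (M:ℝ) * (2 * M' + 1) ≤ 12 * √(2 ^ (b i + b' i + b j + b' j)) / 2 ^ (sig + pi) := by
    have h1 : (M:ℝ) * (2 * M' + 1) ≤ 3 * (M * M') := by nlinarith [Nat.cast_nonneg (α := ℝ) M]
    have h2 : (M:ℝ) * M' ≤ √(2 ^ (b i + b' i + 2) / 2 ^ (sig + pi)) *
        √(2 ^ (b j + b' j + 2) / 2 ^ (sig + pi)) :=
      mul_le_mul hMr hMr' (by positivity) (by positivity)
    have h3 : √((2:ℝ) ^ (b i + b' i + 2) / 2 ^ (sig + pi)) * √(2 ^ (b j + b' j + 2) / 2 ^ (sig + pi))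
        = 4 * √(2 ^ (b i + b' i + b j + b' j)) / 2 ^ (sig + pi) := by
      rw [← Real.sqrt_mul (by positivity)]
      have : ((2:ℝ) ^ (b i + b' i + 2) / 2 ^ (sig + pi)) * (2 ^ (b j + b' j + 2) / 2 ^ (sig + pi)) =
          (4 / 2 ^ (sig + pi)) ^ 2 * 2 ^ (b i + b' i + b j + b' j) := by
        rw [div_mul_div_comm, div_pow, div_mul_eq_mul_div]
        congr 1
        · rw [show ((4:ℝ)) ^ 2 = 2 ^ 4 by norm_num, ← pow_add, ← pow_add]
          congr 1; ring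
        · ring
      rw [this, Real.sqrt_mul (by positivity), Real.sqrt_sq (by positivity)]
      ring
    rw [h3] at h2
    calc (M:ℝ) * (2 * M' + 1) ≤ 3 * (M * M') := h1
      _ ≤ 3 * (4 * √(2 ^ (b i + b' i + b j + b' j)) / 2 ^ (sig + pi)) := by linarith
      _ = _ := by ring
  calc (F.card : ℝ) ≤ ((coinc q sig pi (b k) (b' k)).card : ℝ) * (M * (2 * M' + 1)) := hcard
    _ ≤ (2 ^ (7 * uu q) * 2 ^ (sig + pi + b k + b' k) / q) *
        (12 * √(2 ^ (b i + b' i + b j + b' j)) / 2 ^ (sig + pi)) :=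
      mul_le_mul hco' hMM (by positivity) (by positivity)
    _ = _ := by
      have : (2:ℝ) ^ (sig + pi + b k + b' k) = 2 ^ (sig + pi) * 2 ^ (b k + b' k) := by
        rw [← pow_add]; congr 1; ring
      rw [this]
      field_simp

end E3

open E3 in
open Classical in
theorem caseA : ∃ q₀ : ℕ, ∀ q : ℕ, q₀ ≤ q → ∀ hq : Fact q.Prime, Suit q → ∀ b b' : Fin 3 → ℕ,
    (∀ j, b j ≤ La q) → (∀ j, b' j ≤ La q) → ∀ i j k : Fin 3, i ≠ j → j ≠ k → i ≠ k →
    ((NPs b b' (fun (c : ZMod q) v => par2 c (v i) (v j) ∧ ¬ par2 c (v i) (v k))).card : ℝ) ≤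
      2 ^ (10 * uu q) * (√(2 ^ (∑ l, b l) * 2 ^ (∑ l, b' l)) * √(2 ^ (b k + b' k)) / q) := by
  refine ⟨256, ?_⟩
  intro q hq256 hq hsu b b' hb hb' i j k hij hjk hik
  have hq0 : (0:ℝ) < q := by exact_mod_cast hq.out.pos
  set F := (NPs b b' (fun (c : ZMod q) v => par2 c (v i) (v j) ∧ ¬ par2 c (v i) (v k))) with hF
  have hLa : 8 ≤ La q := by
    have h1 : Nat.log 2 256 = 8 := by decide +kernel
    unfold La
    rw [← h1]
    exact Nat.log_mono_right hq256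
  have huu : 4 ≤ uu q := by
    unfold uu
    have h1 : Nat.log 2 8 = 3 := by decide +kernel
    have h2 : Nat.log 2 8 ≤ Nat.log 2 (La q) := Nat.log_mono_right hLa
    omega
  have hLu : La q < 2 ^ uu q := Nat.lt_pow_succ_log_self (b := 2) (by norm_num) (La q)
  set X : ℝ := √(2 ^ (b i + b' i + b j + b' j)) * 2 ^ (b k + b' k) / q with hX
  have hX0 : 0 ≤ X := by positivity
  have hsum : (F.card : ℝ) ≤ (La q + 1) * (La q + 1) * (12 * 2 ^ (7 * uu q) * X) := by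
    have h1 : F.card = ∑ t ∈ range (La q + 1) ×ˢ range (La q + 1), (F.filter (fun cv =>
        (Nat.log 2 (ss (cv.2 i) (cv.1 * cv.2 i)).natAbs,
          Nat.log 2 (pp (cv.2 i) (cv.1 * cv.2 i)).natAbs) = t)).card := by
      apply card_eq_sum_card_fiberwise
      intro cv hcv
      have hcv' : cv ∈ F := hcv
      rw [hF, mem_NPs] at hcv'
      obtain ⟨hc, hvv, -, -⟩ := hcv'
      have hx : (cv.2 i).valMinAbs ≠ 0 := vma_ne (hvv i).1
      have hy : (cv.1 * cv.2 i).valMinAbs ≠ 0 := vma_ne (mul_ne_zero hc (hvv i).1)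
      obtain ⟨h1, h2, h3, h4, h5, -, -⟩ := decomp (cv.2 i).valMinAbs (cv.1 * cv.2 i).valMinAbs
        (cv.2 i).valMinAbs (cv.1 * cv.2 i).valMinAbs hx hx rfl
      have h4' : (cv.2 i).valMinAbs = gg (cv.2 i) (cv.1 * cv.2 i) * ss (cv.2 i) (cv.1 * cv.2 i) := h4
      have h5' : (cv.1 * cv.2 i).valMinAbs = gg (cv.2 i) (cv.1 * cv.2 i) *
        pp (cv.2 i) (cv.1 * cv.2 i) := h5
      have hg : gg (cv.2 i) (cv.1 * cv.2 i) ≠ 0 := ne_of_gt h1
      have hs : ss (cv.2 i) (cv.1 * cv.2 i) ≠ 0 := h2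
      have hp : pp (cv.2 i) (cv.1 * cv.2 i) ≠ 0 := by
        intro h0; apply hy; rw [h5', h0, mul_zero]
      obtain ⟨m1, m2, -, -⟩ := mult_bound (gg (cv.2 i) (cv.1 * cv.2 i)) (ss (cv.2 i) (cv.1 * cv.2 i))
        (pp (cv.2 i) (cv.1 * cv.2 i)) hg hs hp (b i) (b' i) _ _
        (by rw [← h4']; exact natAbs_lt_of_dl (hvv i).2.1)
        (by rw [← h5']; exact natAbs_lt_of_dl (hvv i).2.2) rfl rfl
      rw [mem_coe, mem_product, mem_range, mem_range]
      have := hb i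
      have := hb' i
      constructor
      · show Nat.log 2 (ss (cv.2 i) (cv.1 * cv.2 i)).natAbs < La q + 1
        omega
      · show Nat.log 2 (pp (cv.2 i) (cv.1 * cv.2 i)).natAbs < La q + 1
        omega
    rw [h1]
    push_cast
    calc ∑ t ∈ range (La q + 1) ×ˢ range (La q + 1), (((F.filter (fun cv =>
        (Nat.log 2 (ss (cv.2 i) (cv.1 * cv.2 i)).natAbs,
          Nat.log 2 (pp (cv.2 i) (cv.1 * cv.2 i)).natAbs) = t)).card : ℝ))
        ≤ ∑ t ∈ range (La q + 1) ×ˢ range (La q + 1), (12 * 2 ^ (7 * uu q) * X) := by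
          apply sum_le_sum
          intro t _
          have h2 := fibre hsu b b' hb hb' i j k hij hjk hik t.1 t.2
          refine le_trans (le_of_eq ?_) h2
          congr 2
          ext cv
          simp only [mem_filter, Prod.ext_iff]
          rfl
      _ = _ := by
          rw [sum_const, card_product, card_range, nsmul_eq_mul]
          push_cast
          ring
  have hL : ((La q : ℝ) + 1) ≤ 2 ^ uu q := by exact_mod_cast hLu
  have h12 : (12:ℝ) ≤ 2 ^ uu q := by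
    calc (12:ℝ) ≤ 2 ^ 4 := by norm_num
      _ ≤ 2 ^ uu q := pow_le_pow_right₀ (by norm_num) huu
  have hXeq : X = √(2 ^ (∑ l, b l) * 2 ^ (∑ l, b' l)) * √(2 ^ (b k + b' k)) / q := by
    rw [hX]
    congr 1
    have hs1 : ∑ l, b l = b i + b j + b k := by
      have : (univ : Finset (Fin 3)) = {i, j, k} := by
        revert hij hjk hik
        clear * -
        revert i j k
        decide
      rw [this, sum_insert (by simp [hij, hik]), sum_insert (by simp [hjk]), sum_singleton]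
      ring
    have hs2 : ∑ l, b' l = b' i + b' j + b' k := by
      have : (univ : Finset (Fin 3)) = {i, j, k} := by
        revert hij hjk hik
        clear * -
        revert i j k
        decide
      rw [this, sum_insert (by simp [hij, hik]), sum_insert (by simp [hjk]), sum_singleton]
      ring
    rw [hs1, hs2]
    have e1 : (2:ℝ) ^ (b i + b j + b k) * 2 ^ (b' i + b' j + b' k) =
        2 ^ (b i + b' i + b j + b' j) * 2 ^ (b k + b' k) := by
      rw [← pow_add, ← pow_add]; congr 1; ring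
    rw [e1, Real.sqrt_mul (by positivity), mul_assoc, Real.mul_self_sqrt (by positivity)]
  rw [← hXeq]
  have e10 : (2:ℝ) ^ (10 * uu q) = 2 ^ uu q * 2 ^ uu q * (2 ^ uu q * 2 ^ (7 * uu q)) := by
    rw [← pow_add, ← pow_add, ← pow_add]; congr 1; ring
  calc (F.card : ℝ) ≤ (La q + 1) * (La q + 1) * (12 * 2 ^ (7 * uu q) * X) := hsum
    _ ≤ 2 ^ uu q * 2 ^ uu q * (2 ^ uu q * 2 ^ (7 * uu q) * X) := by
        apply mul_le_mul
        · exact mul_le_mul hL hL (by positivity) (by positivity)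
        · exact mul_le_mul_of_nonneg_right (mul_le_mul_of_nonneg_right h12 (by positivity)) hX0
        · positivity
        · positivity
    _ = 2 ^ (10 * uu q) * X := by rw [e10]; ring

end Pool.Agent.H935R2.PS
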