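import Pool.Agent.H935R2.PS.Defs2
import Pool.Agent.H935R2.PS.A1
import Pool.Agent.H935R2.PS.E1

set_option autoImplicit false

/-!
# Task E4 (helper992): three pairwise non parallel coordinates
-/

namespace Pool.Agent.H935R2.PS

open Finset

namespace E4

variable {q : ℕ}

theorem mem_box (n : ℕ) (z : ℤ) : z ∈ Ioo (-(2 ^ n : ℤ)) (2 ^ n) ↔ z.natAbs < 2 ^ n := by
  rw [mem_Ioo, ← abs_lt, Int.abs_eq_natAbs]
  constructor
  · intro h
    exact_mod_cast h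
  · intro h
    exact_mod_cast h

open Classical in
/-- The points of the lattice `y = c x` in a box. -/
noncomputable def SS (c : ZMod q) (b b' : ℕ) : Finset (ℤ × ℤ) :=
  ((Ioo (-(2 ^ (b + 1) : ℤ)) (2 ^ (b + 1))) ×ˢ (Ioo (-(2 ^ (b' + 1) : ℤ)) (2 ^ (b' + 1)))).filter
    (fun p => (p.2 : ZMod q) = c * (p.1 : ZMod q))

theorem mem_SS (c : ZMod q) (b b' : ℕ) (p : ℤ × ℤ) : p ∈ SS c b b' ↔
    p.1.natAbs < 2 ^ (b + 1) ∧ p.2.natAbs < 2 ^ (b' + 1) ∧ (p.2 : ZMod q) = c * (p.1 : ZMod q) := by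
  unfold SS
  rw [mem_filter, mem_product, mem_box, mem_box, and_assoc]

theorem mem_coinc (c : ZMod q) (b1 b2 b3 b4 : ℕ) (x y x' y' : ℤ) (h1 : x.natAbs < 2 ^ (b1 + 1))
    (h2 : y.natAbs < 2 ^ (b2 + 1)) (h3 : x'.natAbs < 2 ^ (b3 + 1)) (h4 : y'.natAbs < 2 ^ (b4 + 1))
    (h5 : (y : ZMod q) = c * x) (h6 : (y' : ZMod q) = c * x') (h7 : x * y' ≠ y * x') :
    (x, y, x', y') ∈ coinc q b1 b2 b3 b4 := by
  unfold coinc
  rw [mem_filter, mem_product, mem_product, mem_product]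
  refine ⟨⟨(mem_box _ _).mpr h1, (mem_box _ _).mpr h2, (mem_box _ _).mpr h3, (mem_box _ _).mpr h4⟩,
    ?_, h7⟩
  rw [← ZMod.intCast_zmod_eq_zero_iff_dvd]
  push_cast
  rw [h5, h6]
  ring

theorem vma_lt [NeZero q] {x : ZMod q} {b : ℕ} (h : dl x = b) :
    x.valMinAbs.natAbs < 2 ^ (b + 1) := by
  have := nn_lt_two_pow x
  rw [h] at this
  exact this

theorem vma_inj [NeZero q] {x y : ZMod q} (h : x.valMinAbs = y.valMinAbs) : x = y := by
  rw [← ZMod.coe_valMinAbs x, ← ZMod.coe_valMinAbs y, h]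

theorem pt_mem [NeZero q] {c x : ZMod q} {b b' : ℕ} (h : dl x = b) (h' : dl (c * x) = b') :
    (x.valMinAbs, (c * x).valMinAbs) ∈ SS c b b' := by
  rw [mem_SS]
  refine ⟨vma_lt h, vma_lt h', ?_⟩
  simp only [ZMod.coe_valMinAbs]

theorem fin3 : ∀ i j k : Fin 3, i ≠ j → j ≠ k → i ≠ k → ∀ l, l = i ∨ l = j ∨ l = k := by decide

theorem exij : ∀ k : Fin 3, ∃ i j : Fin 3, i ≠ j ∧ j ≠ k ∧ i ≠ k := by decide

theorem sum3 (i j k : Fin 3) (h1 : i ≠ j) (h2 : j ≠ k) (h3 : i ≠ k) (f : Fin 3 → ℕ) :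
    ∑ l, f l = f i + f j + f k := by
  have h : (univ : Finset (Fin 3)) = {i, j, k} := by
    revert i j k
    decide
  rw [h, sum_insert (by simp [h1, h3]), sum_insert (by simp [h2]), sum_singleton, add_assoc]

open Classical in
theorem mem_NPs [NeZero q] (b b' : Fin 3 → ℕ) (P : ZMod q → (Fin 3 → ZMod q) → Prop)
    (p : ZMod q × (Fin 3 → ZMod q)) : p ∈ NPs b b' P ↔ p.1 ≠ 0 ∧
      (∀ l, p.2 l ≠ 0 ∧ dl (p.2 l) = b l ∧ dl (p.1 * p.2 l) = b' l) ∧ P p.1 p.2 := by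
  unfold NPs
  rw [Finset.mem_filter]
  simp only [mem_univ, true_and]

theorem part1 [Fact q.Prime] (hs : Suit q) (b b' : Fin 3 → ℕ) (hb : ∀ j, b j ≤ La q)
    (hb' : ∀ j, b' j ≤ La q) (i j k : Fin 3) (hij : i ≠ j) (hjk : j ≠ k) (hik : i ≠ k)
    (T : Finset (ZMod q × (Fin 3 → ZMod q)))
    (hT : ∀ p ∈ T, p.1 ≠ 0 ∧ (∀ l, p.2 l ≠ 0 ∧ dl (p.2 l) = b l ∧ dl (p.1 * p.2 l) = b' l) ∧
      ¬ par2 p.1 (p.2 i) (p.2 j) ∧
      ((SS p.1 (b k) (b' k)).card : ℝ) * q ≤ 160 * 2 ^ (b k + b' k)) :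
    (T.card : ℝ) ≤ 160 * 2 ^ (7 * uu q) * (2 ^ (∑ l, b l) * 2 ^ (∑ l, b' l) / (q : ℝ) ^ 2) := by
  classical
  have hq0 : (0 : ℝ) < q := by exact_mod_cast (Fact.out : q.Prime).pos
  set f : ZMod q × (Fin 3 → ZMod q) → ℤ × ℤ × ℤ × ℤ := fun p =>
    ((p.2 i).valMinAbs, (p.1 * p.2 i).valMinAbs, (p.2 j).valMinAbs, (p.1 * p.2 j).valMinAbs) with hf
  set n : ℕ := ⌊(160 * 2 ^ (b k + b' k) / q : ℝ)⌋₊ with hn
  have hfib : ∀ z ∈ T.image f, (T.filter fun p => f p = z).card ≤ n := by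
    intro z hz
    obtain ⟨p0, hp0, rfl⟩ := mem_image.mp hz
    obtain ⟨hc0, hv0, -, hR⟩ := hT p0 hp0
    have h1 : (T.filter fun p => f p = f p0).card ≤ (SS p0.1 (b k) (b' k)).card := by
      have key : ∀ p ∈ T.filter (fun p => f p = f p0), p.1 = p0.1 ∧ p.2 i = p0.2 i ∧
          p.2 j = p0.2 j := by
        intro p hp
        rw [mem_filter] at hp
        obtain ⟨hpT, hpf⟩ := hp
        simp only [hf, Prod.mk.injEq] at hpf
        obtain ⟨e1, e2, e3, -⟩ := hpf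
        have e1' := vma_inj e1
        have e2' := vma_inj e2
        have e3' := vma_inj e3
        rw [e1'] at e2'
        exact ⟨mul_right_cancel₀ (hv0 i).1 e2', e1', e3'⟩
      refine card_le_card_of_injOn (fun p => ((p.2 k).valMinAbs, (p.1 * p.2 k).valMinAbs)) ?_ ?_
      · intro p hp
        have hp' : p ∈ T.filter fun p => f p = f p0 := hp
        obtain ⟨e1, -, -⟩ := key p hp'
        obtain ⟨-, hv, -, -⟩ := hT p (mem_filter.mp hp').1
        rw [← e1]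
        exact pt_mem (hv k).2.1 (hv k).2.2
      · intro p hp p' hp' he
        have hp1 : p ∈ T.filter fun p => f p = f p0 := hp
        have hp1' : p' ∈ T.filter fun p => f p = f p0 := hp'
        obtain ⟨e1, e2, e3⟩ := key p hp1
        obtain ⟨e1', e2', e3'⟩ := key p' hp1'
        simp only [Prod.mk.injEq] at he
        have e4 : p.2 k = p'.2 k := vma_inj he.1
        refine Prod.ext (e1.trans e1'.symm) ?_
        funext l
        rcases fin3 i j k hij hjk hik l with h | h | h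
        · rw [h, e2, e2']
        · rw [h, e3, e3']
        · rw [h, e4]
    refine h1.trans (Nat.le_floor ?_)
    rw [le_div_iff₀ hq0]
    exact hR
  have h2 : T.card ≤ n * (T.image f).card := card_le_mul_card_image T n hfib
  have h3 : (T.image f).card ≤ (coinc q (b i) (b' i) (b j) (b' j)).card := by
    apply card_le_card
    intro z hz
    obtain ⟨p, hp, rfl⟩ := mem_image.mp hz
    obtain ⟨hc, hv, hpar, -⟩ := hT p hp
    refine mem_coinc p.1 _ _ _ _ _ _ _ _ (vma_lt (hv i).2.1) (vma_lt (hv i).2.2)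
      (vma_lt (hv j).2.1) (vma_lt (hv j).2.2) ?_ ?_ ?_
    · simp only [ZMod.coe_valMinAbs]
    · simp only [ZMod.coe_valMinAbs]
    · intro h
      apply hpar
      unfold par2
      rw [h]
      ring
  have h4 := hs (b i) (b' i) (b j) (b' j) (hb i) (hb' i) (hb j) (hb' j)
  have h5 : (T.card : ℝ) ≤ (160 * 2 ^ (b k + b' k) / q) *
      ((coinc q (b i) (b' i) (b j) (b' j)).card : ℝ) := by
    have h6 : (T.card : ℝ) ≤ (n : ℝ) * ((T.image f).card : ℝ) := by exact_mod_cast h2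
    refine h6.trans ?_
    apply mul_le_mul
    · exact Nat.floor_le (by positivity)
    · exact_mod_cast h3
    · positivity
    · positivity
  refine h5.trans ?_
  have h6 : ((coinc q (b i) (b' i) (b j) (b' j)).card : ℝ) ≤
      2 ^ (7 * uu q) * 2 ^ (b i + b' i + b j + b' j) / q := by
    rw [le_div_iff₀ hq0]
    exact h4
  refine (mul_le_mul_of_nonneg_left h6 (by positivity)).trans (le_of_eq ?_)
  rw [sum3 i j k hij hjk hik b, sum3 i j k hij hjk hik b']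
  field_simp
  ring

theorem cntl [Fact q.Prime] (c : ZMod q) (b b' s t : ℕ) (g : ℤ × ℤ) (hg1 : 2 ^ s ≤ g.1.natAbs)
    (hg2 : 2 ^ t ≤ g.2.natAbs)
    (hgen : ∀ p ∈ SS c b b', ∃ m : ℤ, p.1 = m * g.1 ∧ p.2 = m * g.2) (T : Finset (ZMod q))
    (hT : ∀ x ∈ T, x ≠ 0 ∧ dl x = b ∧ dl (c * x) = b') :
    (T.card : ℝ) ≤ 4 * √(2 ^ (b + b')) / √(2 ^ (s + t)) := by
  classical
  have hm : ∀ x ∈ T, ∃ m : ℤ, x.valMinAbs = m * g.1 ∧ (c * x).valMinAbs = m * g.2 := by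
    intro x hx
    obtain ⟨-, h1, h2⟩ := hT x hx
    exact hgen _ (pt_mem h1 h2)
  choose! m hm1 hm2 using hm
  set ρ : ℝ := 2 * √(2 ^ (b + b')) / √(2 ^ (s + t)) with hρ
  have hρ0 : 0 ≤ ρ := by positivity
  set N : ℕ := ⌊ρ⌋₊ with hN
  have hmN : ∀ x ∈ T, (m x).natAbs ≤ N := by
    intro x hx
    obtain ⟨-, h1, h2⟩ := hT x hx
    apply Nat.le_floor
    have e1 : (m x).natAbs * 2 ^ s < 2 ^ (b + 1) := by
      have := vma_lt h1
      rw [hm1 x hx, Int.natAbs_mul] at this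
      exact lt_of_le_of_lt (Nat.mul_le_mul_left _ hg1) this
    have e2 : (m x).natAbs * 2 ^ t < 2 ^ (b' + 1) := by
      have := vma_lt h2
      rw [hm2 x hx, Int.natAbs_mul] at this
      exact lt_of_le_of_lt (Nat.mul_le_mul_left _ hg2) this
    have e3 : ((m x).natAbs * 2 ^ s) * ((m x).natAbs * 2 ^ t) ≤ 2 ^ (b + 1) * 2 ^ (b' + 1) :=
      Nat.mul_le_mul e1.le e2.le
    have e4 : (((m x).natAbs : ℝ)) ^ 2 * 2 ^ (s + t) ≤ 4 * 2 ^ (b + b') := by
      have : ((((m x).natAbs * 2 ^ s) * ((m x).natAbs * 2 ^ t) : ℕ) : ℝ) ≤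
          ((2 ^ (b + 1) * 2 ^ (b' + 1) : ℕ) : ℝ) := by exact_mod_cast e3
      push_cast at this
      rw [pow_add, pow_add]
      calc ((m x).natAbs : ℝ) ^ 2 * (2 ^ s * 2 ^ t)
          = (((m x).natAbs : ℝ) * 2 ^ s) * (((m x).natAbs : ℝ) * 2 ^ t) := by ring
        _ ≤ 2 ^ (b + 1) * 2 ^ (b' + 1) := this
        _ = 4 * (2 ^ b * 2 ^ b') := by ring
    rw [hρ, le_div_iff₀ (by positivity)]
    have e5 : √(4 * 2 ^ (b + b')) = 2 * √(2 ^ (b + b')) := by
      rw [show (4 : ℝ) * 2 ^ (b + b') = 2 ^ 2 * 2 ^ (b + b') by norm_num,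
        Real.sqrt_mul (by positivity), Real.sqrt_sq (by norm_num)]
    have e6 : √(((m x).natAbs : ℝ) ^ 2 * 2 ^ (s + t)) = ((m x).natAbs : ℝ) * √(2 ^ (s + t)) := by
      rw [Real.sqrt_mul (by positivity), Real.sqrt_sq (by positivity)]
    rw [← e5, ← e6]
    exact Real.sqrt_le_sqrt e4
  have hcard : T.card ≤ ((Icc (-(N : ℤ)) N).erase 0).card := by
    refine card_le_card_of_injOn m ?_ ?_
    · intro x hx
      have h1 := hmN x hx
      have h2 : m x ≠ 0 := by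
        intro h
        have h3 := hm1 x hx
        rw [h, zero_mul, ZMod.valMinAbs_eq_zero] at h3
        exact (hT x hx).1 h3
      rw [mem_coe, mem_erase, mem_Icc]
      refine ⟨h2, ?_, ?_⟩ <;> omega
    · intro x hx y hy hxy
      apply vma_inj
      rw [hm1 x hx, hm1 y hy, hxy]
  have hcard2 : ((Icc (-(N : ℤ)) N).erase 0).card = 2 * N := by
    rw [card_erase_of_mem (by rw [mem_Icc]; omega), Int.card_Icc]
    omega
  rw [hcard2] at hcard
  have h1 : (T.card : ℝ) ≤ 2 * N := by exact_mod_cast hcard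
  have h2 : (N : ℝ) ≤ ρ := Nat.floor_le hρ0
  calc (T.card : ℝ) ≤ 2 * N := h1
    _ ≤ 2 * ρ := by linarith
    _ = _ := by rw [hρ]; ring

/-- number of slopes with generators of given sizes -/
theorem cntC [Fact q.Prime] (hs : Suit q) (s t : Fin 3 → ℕ) (hs1 : ∀ l, s l ≤ La q)
    (ht1 : ∀ l, t l ≤ La q) (C : Finset (ZMod q)) (g : ZMod q → Fin 3 → ℤ × ℤ)
    (h1 : ∀ c ∈ C, ∀ l, 2 ^ s l ≤ (g c l).1.natAbs ∧ (g c l).1.natAbs < 2 ^ (s l + 1) ∧
      2 ^ t l ≤ (g c l).2.natAbs ∧ (g c l).2.natAbs < 2 ^ (t l + 1) ∧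
      ((g c l).2 : ZMod q) = c * ((g c l).1 : ZMod q) ∧ (g c l).1.natAbs < q ∧
      (g c l).1.natAbs * (g c l).2.natAbs ≤ q)
    (h2 : ∀ c ∈ C, ∀ i j, i ≠ j → (g c i).1 * (g c j).2 ≠ (g c i).2 * (g c j).1) :
    (C.card : ℝ) / √(2 ^ (∑ l, (s l + t l))) ≤ 2 ^ (7 * uu q) / √q := by
  classical
  have hq0 : (0 : ℝ) < q := by exact_mod_cast (Fact.out : q.Prime).pos
  rcases C.eq_empty_or_nonempty with hC | ⟨c0, hc0⟩
  · rw [hC]
    simp
    positivity
  have hpair : ∀ i j, i ≠ j → (C.card : ℝ) * q ≤ 2 ^ (7 * uu q) * 2 ^ (s i + t i + s j + t j) := by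
    intro i j hij
    refine le_trans ?_ (hs (s i) (t i) (s j) (t j) (hs1 i) (ht1 i) (hs1 j) (ht1 j))
    apply mul_le_mul_of_nonneg_right _ hq0.le
    have : C.card ≤ (coinc q (s i) (t i) (s j) (t j)).card := by
      refine card_le_card_of_injOn
        (fun c => ((g c i).1, (g c i).2, (g c j).1, (g c j).2)) ?_ ?_
      · intro c hc
        obtain ⟨-, a1, -, a2, a3, -, -⟩ := h1 c hc i
        obtain ⟨-, b1, -, b2, b3, -, -⟩ := h1 c hc j
        exact mem_coinc c _ _ _ _ _ _ _ _ a1 a2 b1 b2 a3 b3 (h2 c hc i j hij)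
      · intro c hc c' hc' he
        simp only [Prod.mk.injEq] at he
        obtain ⟨e1, e2, -, -⟩ := he
        obtain ⟨a0, -, -, -, a3, a4, -⟩ := h1 c hc i
        obtain ⟨-, -, -, -, b3, -, -⟩ := h1 c' hc' i
        rw [← e1, ← e2, a3] at b3
        have hne : ((g c i).1 : ZMod q) ≠ 0 := by
          rw [Ne, ZMod.intCast_zmod_eq_zero_iff_dvd]
          intro hd
          have h0 : (g c i).1 = 0 := Int.eq_zero_of_abs_lt_dvd hd (by
            rw [Int.abs_eq_natAbs]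
            exact_mod_cast a4)
          rw [h0] at a0
          have : 0 < 2 ^ s i := by positivity
          simp at a0
        exact mul_right_cancel₀ hne b3
    exact_mod_cast this
  have hz : ∀ l, (2 : ℝ) ^ (s l + t l) ≤ q := by
    intro l
    obtain ⟨a0, -, a1, -, -, -, a2⟩ := h1 c0 hc0 l
    have : 2 ^ (s l + t l) ≤ q := by
      rw [pow_add]
      exact (Nat.mul_le_mul a0 a1).trans a2
    exact_mod_cast this
  obtain ⟨k, -, hk⟩ := exists_max_image (univ : Finset (Fin 3)) (fun l => s l + t l) ⟨0, mem_univ _⟩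
  obtain ⟨i, j, hij, hjk, hik⟩ := exij k
  have hsum : ∑ l, (s l + t l) = (s i + t i) + (s j + t j) + (s k + t k) :=
    sum3 i j k hij hjk hik fun l => s l + t l
  have hjk' : s j + t j ≤ s k + t k := hk j (mem_univ _)
  have key : (2 : ℝ) ^ (s i + t i + s j + t j) ≤ √(2 ^ (∑ l, (s l + t l))) * √q := by
    rw [← Real.sqrt_mul (by positivity)]
    apply Real.le_sqrt_of_sq_le
    rw [hsum]
    have e1 : ((2 : ℝ) ^ (s i + t i + s j + t j)) ^ 2 =
        2 ^ ((s i + t i) + (s j + t j)) * 2 ^ (s j + t j) * 2 ^ (s i + t i) := by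
      rw [← pow_mul, ← pow_add, ← pow_add]
      congr 1
      ring
    rw [e1]
    have e2 : (2 : ℝ) ^ ((s i + t i) + (s j + t j) + (s k + t k)) =
      2 ^ ((s i + t i) + (s j + t j)) * 2 ^ (s k + t k) := pow_add _ _ _
    rw [e2]
    have e3 : (2 : ℝ) ^ (s j + t j) ≤ 2 ^ (s k + t k) := pow_le_pow_right₀ (by norm_num) hjk'
    have := hz i
    gcongr
  rw [div_le_div_iff₀ (by positivity) (by positivity)]
  have h3 := (hpair i j hij).trans (mul_le_mul_of_nonneg_left key (by positivity))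
  -- C q ≤ 2^7u √Z √q
  have h4 : (C.card : ℝ) * √q * √q ≤ 2 ^ (7 * uu q) * √(2 ^ (∑ l, (s l + t l))) * √q := by
    rw [mul_assoc, Real.mul_self_sqrt hq0.le]
    linarith
  exact le_of_mul_le_mul_right h4 (Real.sqrt_pos.mpr hq0)

theorem sqrt_prod (f : Fin 3 → ℕ) :
    ∏ l, √((2 : ℝ) ^ f l) = √(2 ^ (∑ l, f l)) := by
  rw [← Finset.prod_pow_eq_pow_sum, ← Real.sqrt_prod _ fun l _ => by positivity]

theorem part2 [Fact q.Prime] (hs : Suit q) (b b' : Fin 3 → ℕ) (hb : ∀ j, b j < La q)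
    (hb' : ∀ j, b' j < La q)
    (T : Finset (ZMod q × (Fin 3 → ZMod q)))
    (hT : ∀ p ∈ T, p.1 ≠ 0 ∧ (∀ l, p.2 l ≠ 0 ∧ dl (p.2 l) = b l ∧ dl (p.1 * p.2 l) = b' l) ∧
      (∀ i j, i ≠ j → ¬ par2 p.1 (p.2 i) (p.2 j)) ∧
      ∀ l, ∃ g : ℤ × ℤ, g ∈ SS p.1 (b l) (b' l) ∧
        ∀ p' ∈ SS p.1 (b l) (b' l), ∃ m : ℤ, p'.1 = m * g.1 ∧ p'.2 = m * g.2) :
    (T.card : ℝ) ≤ 64 * ((La q : ℝ) + 1) ^ 6 * 2 ^ (7 * uu q) *
      (√(2 ^ (∑ l, b l) * 2 ^ (∑ l, b' l)) / √q) := by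
  classical
  have hq0 : (0 : ℝ) < q := by exact_mod_cast (Fact.out : q.Prime).pos
  have hVq : ∀ n : ℕ, n < La q → 2 ^ (n + 1) ≤ q := fun n hn =>
    (Nat.pow_le_pow_right (by norm_num) hn).trans La_le
  set C : Finset (ZMod q) := T.image Prod.fst with hC
  have hCg : ∀ c ∈ C, ∀ l, ∃ g : ℤ × ℤ, g ∈ SS c (b l) (b' l) ∧
      ∀ p' ∈ SS c (b l) (b' l), ∃ m : ℤ, p'.1 = m * g.1 ∧ p'.2 = m * g.2 := by
    intro c hc l
    obtain ⟨p, hp, rfl⟩ := mem_image.mp hc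
    exact (hT p hp).2.2.2 l
  choose! g hg hgen using hCg
  -- facts about the generators
  have hfact : ∀ c ∈ C, c ≠ 0 ∧ (∀ l, (g c l).1 ≠ 0 ∧ (g c l).2 ≠ 0) ∧
      ∀ i j, i ≠ j → (g c i).1 * (g c j).2 ≠ (g c i).2 * (g c j).1 := by
    intro c hc
    obtain ⟨p, hp, hpc⟩ := mem_image.mp hc
    obtain ⟨h0, hv, hpar, -⟩ := hT p hp
    rw [hpc] at h0 hv hpar
    have hm : ∀ l, ∃ m : ℤ, (p.2 l).valMinAbs = m * (g c l).1 ∧
        (c * p.2 l).valMinAbs = m * (g c l).2 := fun l =>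
      hgen c hc l _ (pt_mem (hv l).2.1 (hv l).2.2)
    choose m hm1 hm2 using hm
    refine ⟨h0, fun l => ⟨?_, ?_⟩, fun i j hij h => hpar i j hij ?_⟩
    · intro h
      have := hm1 l
      rw [h, mul_zero, ZMod.valMinAbs_eq_zero] at this
      exact (hv l).1 this
    · intro h
      have := hm2 l
      rw [h, mul_zero, ZMod.valMinAbs_eq_zero] at this
      exact mul_ne_zero h0 (hv l).1 this
    · unfold par2
      rw [hm1 i, hm2 j, hm1 j, hm2 i]
      linear_combination (m i * m j) * h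
  have hgS : ∀ c ∈ C, ∀ l, (g c l).1.natAbs < 2 ^ (b l + 1) ∧ (g c l).2.natAbs < 2 ^ (b' l + 1) ∧
      ((g c l).2 : ZMod q) = c * ((g c l).1 : ZMod q) := fun c hc l =>
    (mem_SS c (b l) (b' l) _).mp (hg c hc l)
  have hsize : ∀ c ∈ C, ∀ l, (g c l).1.natAbs * (g c l).2.natAbs ≤ q := by
    intro c hc l
    refine gen_size c (hfact c hc).1 (2 ^ (b l + 1)) (2 ^ (b' l + 1)) (hVq _ (hb l)) (hVq _ (hb' l))
      (g c l) ?_ (hgS c hc l) ?_
    · intro h
      exact ((hfact c hc).2.1 l).1 (by rw [h]; rfl)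
    · intro p h1 h2 h3
      exact hgen c hc l p ((mem_SS _ _ _ _).mpr ⟨h1, h2, h3⟩)
  set σ : ZMod q → Fin 3 → ℕ × ℕ := fun c l =>
    (Nat.log 2 (g c l).1.natAbs, Nat.log 2 (g c l).2.natAbs) with hσ
  have hlog : ∀ c ∈ C, ∀ l, 2 ^ (σ c l).1 ≤ (g c l).1.natAbs ∧
      (g c l).1.natAbs < 2 ^ ((σ c l).1 + 1) ∧ 2 ^ (σ c l).2 ≤ (g c l).2.natAbs ∧
      (g c l).2.natAbs < 2 ^ ((σ c l).2 + 1) := by
    intro c hc l
    obtain ⟨h1, h2⟩ := (hfact c hc).2.1 l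
    refine ⟨Nat.pow_log_le_self 2 (by simpa using h1), Nat.lt_pow_succ_log_self one_lt_two _,
      Nat.pow_log_le_self 2 (by simpa using h2), Nat.lt_pow_succ_log_self one_lt_two _⟩
  set Ty : Finset (Fin 3 → ℕ × ℕ) :=
    Fintype.piFinset fun _ : Fin 3 => range (La q + 1) ×ˢ range (La q + 1) with hTy
  have hσT : ∀ c ∈ C, σ c ∈ Ty := by
    intro c hc
    rw [hTy, Fintype.mem_piFinset]
    intro l
    obtain ⟨h1, h2, -⟩ := hgS c hc l
    obtain ⟨h3, -, h4, -⟩ := hlog c hc l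
    rw [mem_product, mem_range, mem_range]
    constructor
    · have : (σ c l).1 < b l + 1 := (Nat.pow_lt_pow_iff_right one_lt_two).mp (lt_of_le_of_lt h3 h1)
      have := hb l
      omega
    · have : (σ c l).2 < b' l + 1 := (Nat.pow_lt_pow_iff_right one_lt_two).mp (lt_of_le_of_lt h4 h2)
      have := hb' l
      omega
  have hTyc : Ty.card = (La q + 1) ^ 6 := by
    rw [hTy, Fintype.card_piFinset]
    simp only [card_product, card_range, prod_const, card_univ, Fintype.card_fin]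
    ring
  -- weight
  set BB : ℝ := √(2 ^ (∑ l, b l) * 2 ^ (∑ l, b' l)) with hBB
  set wt : (Fin 3 → ℕ × ℕ) → ℝ := fun τ => 64 * BB / √(2 ^ (∑ l, ((τ l).1 + (τ l).2))) with hwt
  have hfib : ∀ c ∈ C, ((T.filter fun p => p.1 = c).card : ℝ) ≤ wt (σ c) := by
    intro c hc
    set Tl : Fin 3 → Finset (ZMod q) := fun l =>
      univ.filter fun x => x ≠ 0 ∧ dl x = b l ∧ dl (c * x) = b' l with hTl
    have h1 : (T.filter fun p => p.1 = c).card ≤ (Fintype.piFinset Tl).card := by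
      refine card_le_card_of_injOn Prod.snd ?_ ?_
      · intro p hp
        have hp' : p ∈ T.filter fun p => p.1 = c := hp
        rw [mem_filter] at hp'
        obtain ⟨-, hv, -⟩ := hT p hp'.1
        rw [mem_coe, Fintype.mem_piFinset]
        intro l
        rw [hTl, mem_filter]
        refine ⟨mem_univ _, ?_⟩
        rw [← hp'.2]
        exact hv l
      · intro p hp p' hp' he
        have hp1 : p ∈ T.filter fun p => p.1 = c := hp
        have hp1' : p' ∈ T.filter fun p => p.1 = c := hp'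
        exact Prod.ext ((mem_filter.mp hp1).2.trans (mem_filter.mp hp1').2.symm) he
    rw [Fintype.card_piFinset] at h1
    have h2 : ∀ l, ((Tl l).card : ℝ) ≤ 4 * √(2 ^ (b l + b' l)) / √(2 ^ ((σ c l).1 + (σ c l).2)) := by
      intro l
      obtain ⟨a1, -, a2, -⟩ := hlog c hc l
      refine cntl c (b l) (b' l) _ _ (g c l) a1 a2 (hgen c hc l) (Tl l) ?_
      intro x hx
      rw [hTl, mem_filter] at hx
      exact hx.2
    have h3 : ((T.filter fun p => p.1 = c).card : ℝ) ≤ ∏ l, ((Tl l).card : ℝ) := by exact_mod_cast h1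
    refine h3.trans ((prod_le_prod (fun l _ => Nat.cast_nonneg _) fun l _ => h2 l).trans (le_of_eq ?_))
    rw [prod_div_distrib, prod_mul_distrib, sqrt_prod, sqrt_prod, hwt, hBB, ← pow_add,
      ← sum_add_distrib]
    simp only [prod_const, card_univ, Fintype.card_fin]
    norm_num
  have hT1 : (T.card : ℝ) = ∑ c ∈ C, ((T.filter fun p => p.1 = c).card : ℝ) := by
    have := card_eq_sum_card_image Prod.fst T
    rw [← hC] at this
    exact_mod_cast this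
  have h4 : (T.card : ℝ) ≤ ∑ c ∈ C, wt (σ c) := by
    rw [hT1]
    exact sum_le_sum hfib
  have h5 : ∑ c ∈ C, wt (σ c) = ∑ τ ∈ Ty, ((C.filter fun c => σ c = τ).card : ℝ) * wt τ := by
    rw [← sum_fiberwise_of_maps_to hσT]
    refine sum_congr rfl fun τ _ => ?_
    rw [← nsmul_eq_mul, ← sum_const]
    refine sum_congr rfl fun c hc => ?_
    rw [(mem_filter.mp hc).2]
  have h6 : ∀ τ ∈ Ty, ((C.filter fun c => σ c = τ).card : ℝ) * wt τ ≤
      64 * BB * (2 ^ (7 * uu q) / √q) := by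
    intro τ hτ
    have hτ' : ∀ l, (τ l).1 ≤ La q ∧ (τ l).2 ≤ La q := by
      intro l
      rw [hTy, Fintype.mem_piFinset] at hτ
      have := hτ l
      rw [mem_product, mem_range, mem_range] at this
      omega
    have := cntC hs (fun l => (τ l).1) (fun l => (τ l).2) (fun l => (hτ' l).1) (fun l => (hτ' l).2)
      (C.filter fun c => σ c = τ) g (by
        intro c hc l
        rw [mem_filter] at hc
        obtain ⟨hc1, hc2⟩ := hc
        obtain ⟨a1, a2, a3, a4⟩ := hlog c hc1 l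
        obtain ⟨d1, -, d3⟩ := hgS c hc1 l
        rw [hc2] at a1 a2 a3 a4
        exact ⟨a1, a2, a3, a4, d3, lt_of_lt_of_le d1 (hVq _ (hb l)), hsize c hc1 l⟩) (by
        intro c hc
        exact (hfact c (mem_filter.mp hc).1).2.2)
    calc ((C.filter fun c => σ c = τ).card : ℝ) * wt τ
        = 64 * BB * (((C.filter fun c => σ c = τ).card : ℝ) / √(2 ^ (∑ l, ((τ l).1 + (τ l).2)))) := by
          rw [hwt]
          ring
      _ ≤ _ := mul_le_mul_of_nonneg_left this (by positivity)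
  calc (T.card : ℝ) ≤ ∑ τ ∈ Ty, ((C.filter fun c => σ c = τ).card : ℝ) * wt τ := by
        rw [← h5]
        exact h4
    _ ≤ ∑ τ ∈ Ty, 64 * BB * (2 ^ (7 * uu q) / √q) := sum_le_sum h6
    _ = _ := by
        rw [sum_const, hTyc, nsmul_eq_mul]
        push_cast
        ring

end E4

open E4 in
theorem caseB : ∃ q₀ : ℕ, ∀ q : ℕ, q₀ ≤ q → ∀ hq : Fact q.Prime, Suit q → ∀ b b' : Fin 3 → ℕ,
    (∀ j, b j ≤ La q) → (∀ j, b' j ≤ La q) →
    ((NPs b b' (fun (c : ZMod q) v => ∀ i j, i ≠ j → ¬ par2 c (v i) (v j))).card : ℝ) ≤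
      2 ^ (14 * uu q) * (2 ^ (∑ l, b l) * 2 ^ (∑ l, b' l) / (q:ℝ) ^ 2 +
        √(2 ^ (∑ l, b l) * 2 ^ (∑ l, b' l)) / √q) := by
  classical
  refine ⟨2 ^ 256, fun q hq0 hq hs b b' hb hb' => ?_⟩
  have hq2 : 2 ≤ q := hq.out.two_le
  have hqpos : (0 : ℝ) < q := by exact_mod_cast hq.out.pos
  have hLa : 256 ≤ La q := by
    unfold La
    exact Nat.le_log_of_pow_le (by norm_num) hq0
  have hu : 9 ≤ uu q := by
    unfold uu
    have : 8 ≤ Nat.log 2 (La q) := Nat.le_log_of_pow_le (by norm_num) (by norm_num; exact hLa)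
    omega
  set NP := NPs b b' (fun (c : ZMod q) v => ∀ i j, i ≠ j → ¬ par2 c (v i) (v j)) with hNP
  have hmem : ∀ p ∈ NP, p.1 ≠ 0 ∧
      (∀ l, p.2 l ≠ 0 ∧ dl (p.2 l) = b l ∧ dl (p.1 * p.2 l) = b' l) ∧
      ∀ i j, i ≠ j → ¬ par2 p.1 (p.2 i) (p.2 j) := by
    intro p hp
    exact (mem_NPs b b' _ p).mp hp
  have hrhs : (0 : ℝ) ≤ 2 ^ (14 * uu q) * (2 ^ (∑ l, b l) * 2 ^ (∑ l, b' l) / (q:ℝ) ^ 2 +
        √(2 ^ (∑ l, b l) * 2 ^ (∑ l, b' l)) / √q) := by positivity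
  rcases NP.eq_empty_or_nonempty with hE | ⟨p0, hp0⟩
  · rw [hE]
    simpa using hrhs
  have hbl : ∀ l, b l < La q ∧ b' l < La q := by
    intro l
    obtain ⟨h0, hv, -⟩ := hmem p0 hp0
    obtain ⟨h1, h2, h3⟩ := hv l
    rw [← h2, ← h3]
    exact ⟨dl_lt hq2 _ h1, dl_lt hq2 _ (mul_ne_zero h0 h1)⟩
  have hVq : ∀ n : ℕ, n < La q → 2 ^ (n + 1) ≤ q := fun n hn =>
    (Nat.pow_le_pow_right (by norm_num) hn).trans La_le
  set R : Fin 3 → Finset (ZMod q × (Fin 3 → ZMod q)) := fun k => NP.filter fun p =>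
    ((SS p.1 (b k) (b' k)).card : ℝ) * q ≤ 160 * 2 ^ (b k + b' k) with hR
  set K : Finset (ZMod q × (Fin 3 → ZMod q)) := NP.filter fun p =>
    ∀ l, ∃ g : ℤ × ℤ, g ∈ SS p.1 (b l) (b' l) ∧
        ∀ p' ∈ SS p.1 (b l) (b' l), ∃ m : ℤ, p'.1 = m * g.1 ∧ p'.2 = m * g.2 with hK
  have hcover : NP ⊆ (univ.biUnion R) ∪ K := by
    intro p hp
    by_cases h : ∃ k, p ∈ R k
    · obtain ⟨k, hk⟩ := h
      exact mem_union_left _ (mem_biUnion.mpr ⟨k, mem_univ _, hk⟩)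
    · apply mem_union_right
      rw [hK, mem_filter]
      refine ⟨hp, fun l => ?_⟩
      have hnR : ¬ ((SS p.1 (b l) (b' l)).card : ℝ) * q ≤ 160 * 2 ^ (b l + b' l) := by
        intro h'
        exact h ⟨l, by rw [hR, mem_filter]; exact ⟨hp, h'⟩⟩
      rcases dichot p.1 (2 ^ (b l + 1)) (2 ^ (b' l + 1)) (hVq _ (hbl l).1) (hVq _ (hbl l).2)
        (SS p.1 (b l) (b' l)) (fun p' => mem_SS _ _ _ _) with h1 | h1 | h1
      · exact h1
      · exfalso
        have : (0 : ℤ × ℤ) ∈ SS p.1 (b l) (b' l) := by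
          rw [mem_SS]
          simp
        rw [h1] at this
        simp at this
      · exfalso
        apply hnR
        refine h1.trans (le_of_eq ?_)
        push_cast
        ring
  have hcard : (NP.card : ℝ) ≤ ∑ k, ((R k).card : ℝ) + (K.card : ℝ) := by
    have h1 : NP.card ≤ ∑ k, (R k).card + K.card :=
      (card_le_card hcover).trans ((card_union_le _ _).trans
        (Nat.add_le_add_right card_biUnion_le _))
    exact_mod_cast h1
  have hRk : ∀ k, ((R k).card : ℝ) ≤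
      160 * 2 ^ (7 * uu q) * (2 ^ (∑ l, b l) * 2 ^ (∑ l, b' l) / (q : ℝ) ^ 2) := by
    intro k
    obtain ⟨i, j, hij, hjk, hik⟩ := exij k
    refine part1 hs b b' hb hb' i j k hij hjk hik (R k) ?_
    intro p hp
    rw [hR, mem_filter] at hp
    obtain ⟨h1, h2, h3⟩ := hmem p hp.1
    exact ⟨h1, h2, h3 i j hij, hp.2⟩
  have hKc := part2 hs b b' (fun l => (hbl l).1) (fun l => (hbl l).2) K (by
    intro p hp
    rw [hK, mem_filter] at hp
    obtain ⟨h1, h2, h3⟩ := hmem p hp.1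
    exact ⟨h1, h2, h3, hp.2⟩)
  set X : ℝ := 2 ^ (∑ l, b l) * 2 ^ (∑ l, b' l) / (q : ℝ) ^ 2 with hX
  set Y : ℝ := √(2 ^ (∑ l, b l) * 2 ^ (∑ l, b' l)) / √q with hY
  have hX0 : 0 ≤ X := by positivity
  have hY0 : 0 ≤ Y := by positivity
  have hsumR : ∑ k, ((R k).card : ℝ) ≤ 480 * 2 ^ (7 * uu q) * X := by
    refine (sum_le_sum fun k _ => hRk k).trans (le_of_eq ?_)
    rw [sum_const, card_univ, Fintype.card_fin, nsmul_eq_mul]
    push_cast
    ring
  have hpow : (512 : ℝ) ≤ 2 ^ uu q := by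
    calc (512 : ℝ) = 2 ^ 9 := by norm_num
      _ ≤ 2 ^ uu q := pow_le_pow_right₀ (by norm_num) hu
  have h2u : (1 : ℝ) ≤ 2 ^ uu q := by linarith
  have hLa1 : (La q : ℝ) + 1 ≤ 2 ^ uu q := by
    have := La_lt_uu q
    exact_mod_cast this
  have c1 : (480 : ℝ) * 2 ^ (7 * uu q) ≤ 2 ^ (14 * uu q) := by
    have e : (2 : ℝ) ^ (14 * uu q) = (2 ^ uu q) ^ 7 * 2 ^ (7 * uu q) := by
      rw [← pow_mul, ← pow_add]
      congr 1
      ring
    rw [e]
    apply mul_le_mul_of_nonneg_right _ (by positivity)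
    calc (480 : ℝ) ≤ 2 ^ uu q := by linarith
      _ = (2 ^ uu q) ^ 1 := (pow_one _).symm
      _ ≤ (2 ^ uu q) ^ 7 := pow_le_pow_right₀ h2u (by norm_num)
  have c2 : 64 * ((La q : ℝ) + 1) ^ 6 * 2 ^ (7 * uu q) ≤ 2 ^ (14 * uu q) := by
    have e : (2 : ℝ) ^ (14 * uu q) = 2 ^ uu q * (2 ^ uu q) ^ 6 * 2 ^ (7 * uu q) := by
      rw [← pow_mul, ← pow_add, ← pow_add]
      congr 1
      ring
    rw [e]
    apply mul_le_mul_of_nonneg_right _ (by positivity)
    have : ((La q : ℝ) + 1) ^ 6 ≤ (2 ^ uu q) ^ 6 := pow_le_pow_left₀ (by positivity) hLa1 6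
    have h64 : (64 : ℝ) ≤ 2 ^ uu q := by linarith
    exact mul_le_mul h64 this (by positivity) (by positivity)
  calc (NP.card : ℝ) ≤ ∑ k, ((R k).card : ℝ) + (K.card : ℝ) := hcard
    _ ≤ 480 * 2 ^ (7 * uu q) * X + 64 * ((La q : ℝ) + 1) ^ 6 * 2 ^ (7 * uu q) * Y :=
        add_le_add hsumR hKc
    _ ≤ 2 ^ (14 * uu q) * X + 2 ^ (14 * uu q) * Y := by gcongr
    _ = 2 ^ (14 * uu q) * (X + Y) := by ring

end Pool.Agent.H935R2.PS
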