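import Pool.Agent.H935R2.PS.E3
import Pool.Agent.H935R2.PS.E4

set_option autoImplicit false

/-!
# E5: non parallel pairs
-/

namespace Pool.Agent.H935R2.PS

open Finset

namespace E5

theorem par2_symm {q : ℕ} {c x y : ZMod q} (h : par2 c x y) : par2 c y x := h.symm

theorem par2_trans {q : ℕ} {c x y z : ZMod q} (hy : y ≠ 0) (h : par2 c x y)
    (h' : par2 c y z) : par2 c x z := by
  unfold par2 at *
  have hy0 : y.valMinAbs ≠ 0 := by
    rwa [Ne, ZMod.valMinAbs_eq_zero]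
  apply mul_left_cancel₀ hy0
  linear_combination x.valMinAbs * h' + z.valMinAbs * h

theorem not_par {q : ℕ} {c : ZMod q} {v : Fin 3 → ZMod q} (hv : ∀ j, v j ≠ 0)
    (h : ¬ Par v (fun j => c * v j)) :
    (∀ i j, i ≠ j → ¬ par2 c (v i) (v j)) ∨ (par2 c (v 0) (v 1) ∧ ¬ par2 c (v 0) (v 2)) ∨
      (par2 c (v 0) (v 2) ∧ ¬ par2 c (v 0) (v 1)) ∨
      (par2 c (v 1) (v 2) ∧ ¬ par2 c (v 1) (v 0)) := by
  have hrefl : ∀ i, par2 c (v i) (v i) := fun i => rfl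
  by_cases h01 : par2 c (v 0) (v 1)
  · right; left
    refine ⟨h01, fun h02 => h ?_⟩
    have h12 := par2_trans (hv 0) (par2_symm h01) h02
    intro i j
    have : par2 c (v i) (v j) := by
      fin_cases i <;> fin_cases j
      · exact hrefl 0
      · exact h01
      · exact h02
      · exact par2_symm h01
      · exact hrefl 1
      · exact h12
      · exact par2_symm h02
      · exact par2_symm h12
      · exact hrefl 2
    exact this
  · by_cases h02 : par2 c (v 0) (v 2)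
    · exact Or.inr (Or.inr (Or.inl ⟨h02, h01⟩))
    · by_cases h12 : par2 c (v 1) (v 2)
      · exact Or.inr (Or.inr (Or.inr ⟨h12, fun h => h01 (par2_symm h)⟩))
      · left
        intro i j hij
        fin_cases i <;> fin_cases j
        · exact absurd rfl hij
        · exact h01
        · exact h02
        · exact fun h => h01 (par2_symm h)
        · exact absurd rfl hij
        · exact h12
        · exact fun h => h02 (par2_symm h)
        · exact fun h => h12 (par2_symm h)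
        · exact absurd rfl hij

end E5

namespace E5

/-- the statement of `caseA` -/
def HA : Prop := ∃ q₀ : ℕ, ∀ q : ℕ, q₀ ≤ q → ∀ hq : Fact q.Prime, Suit q → ∀ b b' : Fin 3 → ℕ,
    (∀ j, b j ≤ La q) → (∀ j, b' j ≤ La q) → ∀ i j k : Fin 3, i ≠ j → j ≠ k → i ≠ k →
    ((NPs b b' (fun (c : ZMod q) v => par2 c (v i) (v j) ∧ ¬ par2 c (v i) (v k))).card : ℝ) ≤
      2 ^ (10 * uu q) * (√(2 ^ (∑ l, b l) * 2 ^ (∑ l, b' l)) * √(2 ^ (b k + b' k)) / q)

/-- the statement of `caseB` -/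
def HB : Prop := ∃ q₀ : ℕ, ∀ q : ℕ, q₀ ≤ q → ∀ hq : Fact q.Prime, Suit q → ∀ b b' : Fin 3 → ℕ,
    (∀ j, b j ≤ La q) → (∀ j, b' j ≤ La q) →
    ((NPs b b' (fun (c : ZMod q) v => ∀ i j, i ≠ j → ¬ par2 c (v i) (v j))).card : ℝ) ≤
      2 ^ (14 * uu q) * (2 ^ (∑ l, b l) * 2 ^ (∑ l, b' l) / (q:ℝ) ^ 2 +
        √(2 ^ (∑ l, b l) * 2 ^ (∑ l, b' l)) / √q)

/-- from caseA and caseB -/
theorem npb_of (caseA : HA) (caseB : HB) : ∃ q₀ : ℕ, ∀ q : ℕ, q₀ ≤ q → ∀ hq : Fact q.Prime, Suit q → ∀ b b' : Fin 3 → ℕ,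
    (∀ j, b j ≤ La q) → (∀ j, b' j ≤ La q) →
    ((NPs b b' (fun (c : ZMod q) v => ¬ Par v (fun j => c * v j))).card : ℝ) ≤
      2 ^ (15 * uu q) * (2 ^ (∑ l, b l) * 2 ^ (∑ l, b' l) / (q:ℝ) ^ 2 +
        ∑ k, √(2 ^ (∑ l, b l) * 2 ^ (∑ l, b' l)) * √(2 ^ (b k + b' k)) / q +
        √(2 ^ (∑ l, b l) * 2 ^ (∑ l, b' l)) / √q) := by
  classical
  obtain ⟨qA, hA⟩ := caseA
  obtain ⟨qB, hB⟩ := caseB
  refine ⟨max qA qB, ?_⟩
  intro q hq0 hq hs b b' hb hb'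
  have hA' := hA q (le_trans (le_max_left _ _) hq0) hq hs b b' hb hb'
  have hB' := hB q (le_trans (le_max_right _ _) hq0) hq hs b b' hb hb'
  have a012 := hA' 0 1 2 (by decide) (by decide) (by decide)
  have a021 := hA' 0 2 1 (by decide) (by decide) (by decide)
  have a120 := hA' 1 2 0 (by decide) (by decide) (by decide)
  have hsub : NPs b b' (fun (c : ZMod q) v => ¬ Par v (fun j => c * v j)) ⊆
      NPs b b' (fun (c : ZMod q) v => ∀ i j, i ≠ j → ¬ par2 c (v i) (v j)) ∪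
      (NPs b b' (fun (c : ZMod q) v => par2 c (v 0) (v 1) ∧ ¬ par2 c (v 0) (v 2)) ∪
      (NPs b b' (fun (c : ZMod q) v => par2 c (v 0) (v 2) ∧ ¬ par2 c (v 0) (v 1)) ∪
      NPs b b' (fun (c : ZMod q) v => par2 c (v 1) (v 2) ∧ ¬ par2 c (v 1) (v 0)))) := by
    intro p hp
    unfold NPs at hp ⊢
    simp only [mem_union, mem_filter, mem_univ, true_and] at hp ⊢
    obtain ⟨h1, h2, h3⟩ := hp
    rcases not_par (fun j => (h2 j).1) h3 with h | h | h | h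
    · exact Or.inl ⟨h1, h2, h⟩
    · exact Or.inr (Or.inl ⟨h1, h2, h⟩)
    · exact Or.inr (Or.inr (Or.inl ⟨h1, h2, h⟩))
    · exact Or.inr (Or.inr (Or.inr ⟨h1, h2, h⟩))
  have hcard := (card_le_card hsub).trans ((card_union_le _ _).trans
    (Nat.add_le_add_left ((card_union_le _ _).trans
      (Nat.add_le_add_left (card_union_le _ _) _)) _))
  have hcard' : ((NPs b b' (fun (c : ZMod q) v => ¬ Par v (fun j => c * v j))).card : ℝ) ≤
      ((NPs b b' (fun (c : ZMod q) v => ∀ i j, i ≠ j → ¬ par2 c (v i) (v j))).card : ℝ) +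
      (((NPs b b' (fun (c : ZMod q) v => par2 c (v 0) (v 1) ∧ ¬ par2 c (v 0) (v 2))).card : ℝ) +
      (((NPs b b' (fun (c : ZMod q) v => par2 c (v 0) (v 2) ∧ ¬ par2 c (v 0) (v 1))).card : ℝ) +
      ((NPs b b' (fun (c : ZMod q) v => par2 c (v 1) (v 2) ∧ ¬ par2 c (v 1) (v 0))).card : ℝ))) := by
    exact_mod_cast hcard
  set T : ℝ := √(2 ^ (∑ l, b l) * 2 ^ (∑ l, b' l)) with hT
  have hT0 : 0 ≤ T := Real.sqrt_nonneg _
  have hpA : (2:ℝ) ^ (10 * uu q) ≤ 2 ^ (15 * uu q) :=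
    pow_le_pow_right₀ (by norm_num) (by omega)
  have hpB : (2:ℝ) ^ (14 * uu q) ≤ 2 ^ (15 * uu q) :=
    pow_le_pow_right₀ (by norm_num) (by omega)
  have hk : ∀ k : Fin 3, (0:ℝ) ≤ T * √(2 ^ (b k + b' k)) / q := fun k => by positivity
  have hx : (0:ℝ) ≤ 2 ^ (∑ l, b l) * 2 ^ (∑ l, b' l) / (q:ℝ) ^ 2 + T / √q := by positivity
  have hsum : ∑ k, T * √(2 ^ (b k + b' k)) / q = T * √(2 ^ (b 0 + b' 0)) / q +
      T * √(2 ^ (b 1 + b' 1)) / q + T * √(2 ^ (b 2 + b' 2)) / q := Fin.sum_univ_three _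
  rw [hsum]
  have e0 := mul_le_mul_of_nonneg_right hpA (hk 0)
  have e1 := mul_le_mul_of_nonneg_right hpA (hk 1)
  have e2 := mul_le_mul_of_nonneg_right hpA (hk 2)
  have e3 := mul_le_mul_of_nonneg_right hpB hx
  linarith

end E5

/-- from caseA and caseB -/
theorem npb : ∃ q₀ : ℕ, ∀ q : ℕ, q₀ ≤ q → ∀ hq : Fact q.Prime, Suit q → ∀ b b' : Fin 3 → ℕ,
    (∀ j, b j ≤ La q) → (∀ j, b' j ≤ La q) →
    ((NPs b b' (fun (c : ZMod q) v => ¬ Par v (fun j => c * v j))).card : ℝ) ≤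
      2 ^ (15 * uu q) * (2 ^ (∑ l, b l) * 2 ^ (∑ l, b' l) / (q:ℝ) ^ 2 +
        ∑ k, √(2 ^ (∑ l, b l) * 2 ^ (∑ l, b' l)) * √(2 ^ (b k + b' k)) / q +
        √(2 ^ (∑ l, b l) * 2 ^ (∑ l, b' l)) / √q) :=
  E5.npb_of caseA caseB

open Classical in
/-- two coordinates: directly from `Suit` -/
theorem npb2 {q : ℕ} [Fact q.Prime] (hs : Suit q) (b b' : Fin 2 → ℕ)
    (hb : ∀ j, b j ≤ La q) (hb' : ∀ j, b' j ≤ La q) :
    (((univ : Finset (ZMod q × ZMod q × ZMod q)).filter (fun p => p.1 ≠ 0 ∧ p.2.1 ≠ 0 ∧ p.2.2 ≠ 0 ∧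
      dl p.2.1 = b 0 ∧ dl p.2.2 = b 1 ∧ dl (p.1 * p.2.1) = b' 0 ∧ dl (p.1 * p.2.2) = b' 1 ∧
      ¬ par2 p.1 p.2.1 p.2.2)).card : ℝ) * q ≤ 2 ^ (7 * uu q) * 2 ^ (b 0 + b 1 + b' 0 + b' 1) := by
  have h1 := hs (b 0) (b' 0) (b 1) (b' 1) (hb 0) (hb' 0) (hb 1) (hb' 1)
  have e : b 0 + b' 0 + b 1 + b' 1 = b 0 + b 1 + b' 0 + b' 1 := by ring
  rw [e] at h1
  refine le_trans (mul_le_mul_of_nonneg_right ?_ (Nat.cast_nonneg q)) h1
  have hlt : ∀ (x : ZMod q) (k : ℕ), dl x = k →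
      x.valMinAbs ∈ Ioo (-(2 ^ (k + 1) : ℤ)) (2 ^ (k + 1)) := by
    intro x k hk
    have h2 : nn x < 2 ^ (dl x + 1) := Nat.lt_pow_succ_log_self (by norm_num) _
    rw [hk] at h2
    have h3 : |x.valMinAbs| < 2 ^ (k + 1) := by
      have : ((nn x : ℕ) : ℤ) = |x.valMinAbs| := by
        unfold nn
        exact Int.natCast_natAbs _
      rw [← this]
      exact_mod_cast h2
    rw [mem_Ioo]
    exact abs_lt.1 h3
  norm_cast
  refine card_le_card_of_injOn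
    (fun p : ZMod q × ZMod q × ZMod q => (p.2.1.valMinAbs, (p.1 * p.2.1).valMinAbs,
      p.2.2.valMinAbs, (p.1 * p.2.2).valMinAbs)) ?_ ?_
  · rintro ⟨c, x, y⟩ hp
    simp only [coe_filter, mem_univ, true_and, Set.mem_ofPred_eq] at hp
    obtain ⟨hc, hx, hy, h2, h3, h4, h5, h6⟩ := hp
    unfold coinc
    rw [mem_coe, mem_filter, mem_product, mem_product, mem_product]
    refine ⟨⟨hlt _ _ h2, hlt _ _ h4, hlt _ _ h3, hlt _ _ h5⟩, ?_, ?_⟩
    · rw [← ZMod.intCast_zmod_eq_zero_iff_dvd]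
      push_cast
      ring
    · intro h7
      apply h6
      unfold par2
      simp only at h7
      linear_combination h7
  · rintro ⟨c, x, y⟩ hp ⟨c', x', y'⟩ hp' heq
    simp only [coe_filter, mem_univ, true_and, Set.mem_ofPred_eq] at hp hp'
    simp only [Prod.mk.injEq] at heq
    obtain ⟨h1, h2, h3, -⟩ := heq
    have e1 : x = x' := ZMod.injective_valMinAbs h1
    have e2 : c * x = c' * x' := ZMod.injective_valMinAbs h2
    have e3 : y = y' := ZMod.injective_valMinAbs h3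
    subst e1 e3
    have e4 : c = c' := mul_right_cancel₀ hp.2.1 e2
    rw [e4]

end Pool.Agent.H935R2.PS
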