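import Pool.Agent.H935R2.PS.Defs2
import Pool.Agent.H935R2.PS.A1

set_option autoImplicit false

/-!
# Task F1 (helper568): non parallel bad vectors of plane cells, from `npb`
-/

namespace Pool.Agent.H935R2.PS

open Finset

namespace F1

lemma PB_mono {q b0 b1 b2 c0 c1 c2 : ℕ} (h : PB q c0 c1 c2) (h0 : b0 ≤ c0) (h1 : b1 ≤ c1)
    (h2 : b2 ≤ c2) : PB q b0 b1 b2 := by
  unfold PB at *
  omega

lemma pow4_le (u : ℕ) : u ^ 4 ≤ 21 * 2 ^ u := by
  induction u using Nat.strong_induction_on with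
  | _ u ih =>
    by_cases hu : u ≤ 8
    · interval_cases u <;> norm_num
    · obtain ⟨k, rfl⟩ : ∃ k, u = k + 1 := ⟨u - 1, by omega⟩
      have h := ih k (by omega)
      have hk : 8 ≤ k := by omega
      have h2 : (k + 1) ^ 4 ≤ 2 * k ^ 4 := by
        obtain ⟨j, rfl⟩ : ∃ j, k = j + 8 := ⟨k - 8, by omega⟩
        ring_nf
        nlinarith [Nat.zero_le (j^4), Nat.zero_le (j^3), Nat.zero_le (j^2)]
      calc (k + 1) ^ 4 ≤ 2 * k ^ 4 := h2
        _ ≤ 2 * (21 * 2 ^ k) := by omega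
        _ = 21 * 2 ^ (k + 1) := by ring

/-- the direction of `v` -/
lemma par_dir {q : ℕ} {v v' : Fin 3 → ZMod q} (h : Par v v') (i : Fin 3) :
    nn (v i) * gv v' = gv v * nn (v' i) := by
  have e : ∀ i j, nn (v i) * nn (v' j) = nn (v j) * nn (v' i) := by
    intro i j
    unfold nn
    rw [← Int.natAbs_mul, ← Int.natAbs_mul, h i j]
  unfold gv
  rw [← Nat.gcd_mul_left, ← Nat.gcd_mul_left, ← Nat.gcd_mul_right, ← Nat.gcd_mul_right,
    e i 0, e i 1, e i 2]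

lemma gv_pos {q : ℕ} [NeZero q] {v : Fin 3 → ZMod q} (h : ∀ j, v j ≠ 0) : 0 < gv v := by
  unfold gv
  refine Nat.gcd_pos_of_pos_left _ (Nat.pos_of_ne_zero ?_)
  intro h0
  exact h 0 ((nn_eq_zero _).1 h0)

lemma gv_dvd {q : ℕ} (v : Fin 3 → ZMod q) (i : Fin 3) : gv v ∣ nn (v i) := by
  unfold gv
  fin_cases i
  · exact Nat.gcd_dvd_left _ _
  · exact (Nat.gcd_dvd_right _ _).trans (Nat.gcd_dvd_left _ _)
  · exact (Nat.gcd_dvd_right _ _).trans (Nat.gcd_dvd_right _ _)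

lemma div_eq {q : ℕ} [NeZero q] {v v' : Fin 3 → ZMod q} (hv : ∀ j, v j ≠ 0) (hv' : ∀ j, v' j ≠ 0)
    (h : Par v v') (i : Fin 3) : nn (v i) / gv v = nn (v' i) / gv v' := by
  obtain ⟨a, ha⟩ := gv_dvd v i
  obtain ⟨a', ha'⟩ := gv_dvd v' i
  have h1 := par_dir h i
  have g1 := gv_pos hv
  have g2 := gv_pos hv'
  rw [ha, ha'] at h1 ⊢
  rw [Nat.mul_div_cancel_left _ g1, Nat.mul_div_cancel_left _ g2]
  have h2 : (gv v * gv v') * a = (gv v * gv v') * a' := by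
    calc (gv v * gv v') * a = gv v * a * gv v' := by ring
      _ = gv v * (gv v' * a') := h1
      _ = (gv v * gv v') * a' := by ring
  exact Nat.eq_of_mul_eq_mul_left (Nat.mul_pos g1 g2) h2

/-- `v` and `c v` are not parallel -/
lemma not_par {q : ℕ} [Fact q.Prime] {v : Fin 3 → ZMod q} (hv : ∀ j, v j ≠ 0) (hd : ¬ PBdir v)
    (c : ZMod q) (hc : c ≠ 0) (hP : PB q (dl (c * v 0)) (dl (c * v 1)) (dl (c * v 2))) :
    ¬ Par v (fun j => c * v j) := by
  intro h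
  have hv' : ∀ j, c * v j ≠ 0 := fun j => mul_ne_zero hc (hv j)
  apply hd
  unfold PBdir
  rw [div_eq hv hv' h 0, div_eq hv hv' h 1, div_eq hv hv' h 2]
  exact PB_mono hP (Nat.log_mono_right (Nat.div_le_self _ _))
    (Nat.log_mono_right (Nat.div_le_self _ _)) (Nat.log_mono_right (Nat.div_le_self _ _))

lemma not_PB {q : ℕ} {v : Fin 3 → ZMod q} (hd : ¬ PBdir v) :
    ¬ PB q (dl (v 0)) (dl (v 1)) (dl (v 2)) := by
  intro h
  apply hd
  exact PB_mono h (Nat.log_mono_right (Nat.div_le_self _ _))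
    (Nat.log_mono_right (Nat.div_le_self _ _)) (Nat.log_mono_right (Nat.div_le_self _ _))

lemma k_eq (q : ℕ) : k1 q = 44 * uu q ∧ k2 q = 88 * uu q := ⟨rfl, rfl⟩

/-- the analytic estimate -/
lemma est {q : ℕ} [Fact q.Prime] (hL : 88 * uu q ≤ La q) (b b' : Fin 3 → ℕ)
    (hb : ∀ j, b j < La q) (hb' : ∀ j, b' j < La q)
    (h1 : 2 * La q ≤ (∑ l, b l) + k2 q) (h2 : PB q (b' 0) (b' 1) (b' 2))
    (h3 : (∑ l, b l) + k1 q ≤ 2 * La q + 44 * uu q → ∀ j, b j + 88 * uu q < La q) :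
    (2 : ℝ) ^ (15 * uu q) * (2 ^ (∑ l, b l) * 2 ^ (∑ l, b' l) / (q:ℝ) ^ 2 +
        ∑ k, √(2 ^ (∑ l, b l) * 2 ^ (∑ l, b' l)) * √(2 ^ (b k + b' k)) / q +
        √(2 ^ (∑ l, b l) * 2 ^ (∑ l, b' l)) / √q) ≤ 5 * 2 ^ (∑ l, b l) / 2 ^ (7 * uu q) := by
  have hq : (2:ℝ) ^ La q ≤ q := by exact_mod_cast La_le
  have hq0 : (0:ℝ) < q := lt_of_lt_of_le (by positivity) hq
  obtain ⟨e1, e2⟩ := k_eq q
  have e3 := Fin.sum_univ_three b
  have e4 := Fin.sum_univ_three b'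
  have l0 := hb 0
  have l1 := hb 1
  have l2 := hb 2
  have l0' := hb' 0
  have l1' := hb' 1
  have l2' := hb' 2
  unfold PB at h2
  rw [e1, e2] at h2
  rw [e1] at h3
  rw [e2] at h1
  set A := ∑ l, b l with hA
  set A' := ∑ l, b' l with hA'
  set L := La q with hLd
  set u := uu q with hu
  have hA'1 : A' + 44 * u ≤ 2 * L := by omega
  -- first term
  have t1 : (2:ℝ) ^ A * 2 ^ A' / (q:ℝ) ^ 2 ≤ 2 ^ A / 2 ^ (22 * u) := by
    rw [div_le_div_iff₀ (by positivity) (by positivity)]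
    have h : (2:ℝ) ^ A' * 2 ^ (22 * u) ≤ (2:ℝ) ^ L * 2 ^ L := by
      rw [← pow_add, ← pow_add]
      exact pow_le_pow_right₀ (by norm_num) (by omega)
    have h' : (2:ℝ) ^ L * 2 ^ L ≤ (q:ℝ) ^ 2 := by
      rw [pow_two]
      exact mul_le_mul hq hq (by positivity) hq0.le
    calc (2:ℝ) ^ A * 2 ^ A' * 2 ^ (22 * u) = 2 ^ A * (2 ^ A' * 2 ^ (22 * u)) := by ring
      _ ≤ 2 ^ A * (q:ℝ) ^ 2 := mul_le_mul_of_nonneg_left (h.trans h') (by positivity)
  -- second term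
  have t2 : ∀ k, √((2:ℝ) ^ A * 2 ^ A') * √(2 ^ (b k + b' k)) / q ≤ 2 ^ A / 2 ^ (22 * u) := by
    intro k
    rw [div_le_div_iff₀ hq0 (by positivity), ← Real.sqrt_mul (by positivity)]
    have h4 : A' + (b k + b' k) + 44 * u ≤ A + 2 * L := by
      have lk : b k < L := hb k
      have lk' : b' k < L := hb' k
      by_cases hc : A + 44 * u ≤ 2 * L + 44 * u
      · have := h3 hc k
        omega
      · omega
    have h5 : (2:ℝ) ^ A * 2 ^ A' * 2 ^ (b k + b' k) ≤ (2 ^ A * 2 ^ L / 2 ^ (22 * u)) ^ 2 := by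
      rw [div_pow, le_div_iff₀ (by positivity), mul_pow, ← pow_mul, ← pow_mul, ← pow_mul,
        ← pow_add, ← pow_add, ← pow_add, ← pow_add]
      exact pow_le_pow_right₀ (by norm_num) (by omega)
    have h6 : √((2:ℝ) ^ A * 2 ^ A' * 2 ^ (b k + b' k)) ≤ 2 ^ A * 2 ^ L / 2 ^ (22 * u) :=
      Real.sqrt_le_iff.2 ⟨by positivity, h5⟩
    calc √((2:ℝ) ^ A * 2 ^ A' * 2 ^ (b k + b' k)) * 2 ^ (22 * u)
        ≤ 2 ^ A * 2 ^ L / 2 ^ (22 * u) * 2 ^ (22 * u) :=
          mul_le_mul_of_nonneg_right h6 (by positivity)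
      _ = 2 ^ A * 2 ^ L := by field_simp
      _ ≤ 2 ^ A * q := mul_le_mul_of_nonneg_left hq (by positivity)
  -- third term
  have t3 : √((2:ℝ) ^ A * 2 ^ A') / √q ≤ 2 ^ A / 2 ^ (22 * u) := by
    rw [← Real.sqrt_div (by positivity)]
    refine Real.sqrt_le_iff.2 ⟨by positivity, ?_⟩
    rw [div_pow, div_le_div_iff₀ hq0 (by positivity)]
    have h7 : (2:ℝ) ^ A * 2 ^ A' * (2 ^ (22 * u)) ^ 2 ≤ (2 ^ A) ^ 2 * 2 ^ L := by
      rw [← pow_mul, ← pow_mul, ← pow_add, ← pow_add, ← pow_add]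
      exact pow_le_pow_right₀ (by norm_num) (by omega)
    exact h7.trans (mul_le_mul_of_nonneg_left hq (by positivity))
  have t2' : ∑ k, √((2:ℝ) ^ A * 2 ^ A') * √(2 ^ (b k + b' k)) / q ≤
      3 * (2 ^ A / 2 ^ (22 * u)) := by
    rw [Fin.sum_univ_three]
    have a0 := t2 0
    have a1 := t2 1
    have a2 := t2 2
    linarith
  have hfin : (2:ℝ) ^ (15 * u) * (5 * (2 ^ A / 2 ^ (22 * u))) = 5 * 2 ^ A / 2 ^ (7 * u) := by
    have : (2:ℝ) ^ (22 * u) = 2 ^ (15 * u) * 2 ^ (7 * u) := by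
      rw [← pow_add]; congr 1; ring
    rw [this]
    field_simp
  rw [← hfin]
  refine mul_le_mul_of_nonneg_left ?_ (by positivity)
  linarith

open Classical in
/-- the terms -/
noncomputable def SS (q : ℕ) [NeZero q] : Finset (Fin 3 → ZMod q) :=
  univ.filter (fun v => (∀ j, v j ≠ 0) ∧ PBmul v ∧ ¬ PBdir v)

/-- the boxes -/
def BX (q : ℕ) : Finset (Fin 3 → ℕ) := Fintype.piFinset (fun _ => range (La q))

lemma mem_BX {q : ℕ} {b : Fin 3 → ℕ} : b ∈ BX q ↔ ∀ j, b j < La q := by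
  unfold BX
  rw [Fintype.mem_piFinset]
  simp

lemma card_BX (q : ℕ) : (BX q).card = La q ^ 3 := by
  unfold BX
  rw [Fintype.card_piFinset]
  simp

open Classical in
lemma card_box {q : ℕ} [NeZero q] (b : Fin 3 → ℕ) :
    ((SS q).filter (fun v => (fun j => dl (v j)) = b)).card ≤ 2 ^ ((∑ l, b l) + 3) := by
  have h1 : (SS q).filter (fun v => (fun j => dl (v j)) = b) ⊆
      Fintype.piFinset (fun j => (univ : Finset (ZMod q)).filter (fun x => x ≠ 0 ∧ dl x = b j)) := by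
    intro v hv
    rw [mem_filter] at hv
    unfold SS at hv
    rw [mem_filter] at hv
    rw [Fintype.mem_piFinset]
    intro j
    rw [mem_filter]
    exact ⟨mem_univ _, hv.1.2.1 j, congrFun hv.2 j⟩
  refine (card_le_card h1).trans ?_
  rw [Fintype.card_piFinset]
  calc ∏ j, ((univ : Finset (ZMod q)).filter (fun x => x ≠ 0 ∧ dl x = b j)).card
      ≤ ∏ j, 2 ^ (b j + 1) := Finset.prod_le_prod' fun j _ => card_dl (b j)
    _ = 2 ^ ((∑ l, b l) + 3) := by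
      rw [Finset.prod_pow_eq_pow_sum, Finset.sum_add_distrib]
      simp

open Classical in
lemma mem_NPs {q : ℕ} [NeZero q] (b b' : Fin 3 → ℕ) (P : ZMod q → (Fin 3 → ZMod q) → Prop)
    (p : ZMod q × (Fin 3 → ZMod q)) : p ∈ NPs b b' P ↔
      (p.1 ≠ 0 ∧ (∀ j, p.2 j ≠ 0 ∧ dl (p.2 j) = b j ∧ dl (p.1 * p.2 j) = b' j) ∧ P p.1 p.2) := by
  unfold NPs
  rw [mem_filter]
  exact ⟨fun h => h.2, fun h => ⟨mem_univ _, h⟩⟩

open Classical in
lemma card_np {q : ℕ} [Fact q.Prime] (b : Fin 3 → ℕ) :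
    ((SS q).filter (fun v => (fun j => dl (v j)) = b)).card ≤
      ∑ b' ∈ (BX q).filter (fun b' => PB q (b' 0) (b' 1) (b' 2)),
        (NPs b b' (fun (c : ZMod q) v => ¬ Par v (fun j => c * v j))).card := by
  have h1 : (SS q).filter (fun v => (fun j => dl (v j)) = b) ⊆
      ((BX q).filter (fun b' => PB q (b' 0) (b' 1) (b' 2))).biUnion
        (fun b' => (NPs b b' (fun (c : ZMod q) v => ¬ Par v (fun j => c * v j))).image Prod.snd) := by
    intro v hv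
    rw [mem_filter] at hv
    obtain ⟨hv1, hvb⟩ := hv
    unfold SS at hv1
    rw [mem_filter] at hv1
    obtain ⟨-, hv0, ⟨c, hc, hP⟩, hd⟩ := hv1
    have hq2 : 2 ≤ q := (Fact.out : q.Prime).two_le
    rw [mem_biUnion]
    refine ⟨fun j => dl (c * v j), ?_, ?_⟩
    · rw [mem_filter, mem_BX]
      exact ⟨fun j => dl_lt hq2 _ (mul_ne_zero hc (hv0 j)), hP⟩
    · rw [mem_image]
      refine ⟨(c, v), ?_, rfl⟩
      rw [mem_NPs]
      exact ⟨hc, fun j => ⟨hv0 j, congrFun hvb j, rfl⟩, not_par hv0 hd c hc hP⟩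
  refine (card_le_card h1).trans ?_
  refine card_biUnion_le.trans ?_
  exact Finset.sum_le_sum fun b' _ => card_image_le

/-- exceptional boxes -/
def Exc (q : ℕ) (b : Fin 3 → ℕ) (j : Fin 3) : Prop :=
  2 * La q ≤ (∑ l, b l) + k2 q ∧ (∑ l, b l) + k1 q ≤ 2 * La q + 44 * uu q ∧
    La q ≤ b j + 88 * uu q

open Classical in
lemma card_Exc (q : ℕ) (j : Fin 3) :
    ((BX q).filter (fun b => Exc q b j)).card ≤ (88 * uu q) * (La q * (88 * uu q + 1)) := by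
  have h1 : ((BX q).filter (fun b => Exc q b j)).card ≤
      (range (88 * uu q) ×ˢ range (La q) ×ˢ range (88 * uu q + 1)).card := by
    refine card_le_card_of_injOn
      (fun b => (b j + 88 * uu q - La q, b (j + 1), (∑ l, b l) + 88 * uu q - 2 * La q)) ?_ ?_
    · intro b hb
      rw [mem_coe, mem_filter, mem_BX] at hb
      obtain ⟨hb1, hb2, hb3, hb4⟩ := hb
      have e1 := (k_eq q).1
      have e2 := (k_eq q).2
      have hj := hb1 j
      have hj1 := hb1 (j + 1)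
      simp only [mem_coe, mem_product, mem_range]
      rw [e2] at hb2
      rw [e1] at hb3
      refine ⟨?_, hj1, ?_⟩ <;> omega
    · intro b hb b' hb' he
      rw [mem_coe, mem_filter, mem_BX] at hb hb'
      obtain ⟨hb1, hb2, hb3, hb4⟩ := hb
      obtain ⟨hb1', hb2', hb3', hb4'⟩ := hb'
      simp only [Prod.mk.injEq] at he
      obtain ⟨h1, h2, h3⟩ := he
      have e2 := (k_eq q).2
      rw [e2] at hb2 hb2'
      have e3 := Fin.sum_univ_three b
      have e4 := Fin.sum_univ_three b'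
      have g1 : b j = b' j := by omega
      have g3 : (∑ l, b l) = ∑ l, b' l := by omega
      rw [e3, e4] at g3
      funext i
      fin_cases j <;> fin_cases i <;> simp_all
  refine h1.trans (le_of_eq ?_)
  rw [card_product, card_product, card_range, card_range, card_range]

open Classical in
lemma term_le {q : ℕ} [NeZero q] (v : Fin 3 → ZMod q) (hv : v ∈ SS q) :
    (1:ℝ) / ((nn (v 0) : ℝ) * nn (v 1) * nn (v 2)) ≤ 1 / 2 ^ (∑ l, dl (v l)) := by
  unfold SS at hv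
  rw [mem_filter] at hv
  have h : ∀ j, (2:ℝ) ^ dl (v j) ≤ nn (v j) := by
    intro j
    exact_mod_cast two_pow_dl_le (v j) (hv.2.1 j)
  refine one_div_le_one_div_of_le (by positivity) ?_
  rw [Fin.sum_univ_three, pow_add, pow_add]
  exact mul_le_mul (mul_le_mul (h 0) (h 1) (by positivity) (by positivity)) (h 2)
    (by positivity) (by positivity)

open Classical in
lemma box_bound {q : ℕ} [Fact q.Prime] (hL : 88 * uu q ≤ La q)
    (hnp : ∀ b b' : Fin 3 → ℕ, (∀ j, b j ≤ La q) → (∀ j, b' j ≤ La q) →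
      ((NPs b b' (fun (c : ZMod q) v => ¬ Par v (fun j => c * v j))).card : ℝ) ≤
      2 ^ (15 * uu q) * (2 ^ (∑ l, b l) * 2 ^ (∑ l, b' l) / (q:ℝ) ^ 2 +
        ∑ k, √(2 ^ (∑ l, b l) * 2 ^ (∑ l, b' l)) * √(2 ^ (b k + b' k)) / q +
        √(2 ^ (∑ l, b l) * 2 ^ (∑ l, b' l)) / √q))
    (b : Fin 3 → ℕ) (hb : b ∈ BX q) :
    (((SS q).filter (fun v => (fun j => dl (v j)) = b)).card : ℝ) * (1 / 2 ^ (∑ l, b l)) ≤
      8 * (∑ j, if Exc q b j then (1:ℝ) else 0) + 5 * (La q : ℝ) ^ 3 / 2 ^ (7 * uu q) := by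
  have hnn : ∀ j, (0:ℝ) ≤ if Exc q b j then (1:ℝ) else 0 := by
    intro j; split_ifs <;> norm_num
  have hsn : (0:ℝ) ≤ ∑ j, if Exc q b j then (1:ℝ) else 0 := Finset.sum_nonneg fun j _ => hnn j
  have hpos : (0:ℝ) ≤ 5 * (La q : ℝ) ^ 3 / 2 ^ (7 * uu q) := by positivity
  rcases Finset.eq_empty_or_nonempty ((SS q).filter (fun v => (fun j => dl (v j)) = b)) with he | he
  · rw [he, card_empty]
    simp only [Nat.cast_zero, zero_mul]
    positivity
  · obtain ⟨v, hv⟩ := he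
    rw [mem_filter] at hv
    obtain ⟨hv1, hvb⟩ := hv
    unfold SS at hv1
    rw [mem_filter] at hv1
    have hnPB := not_PB hv1.2.2.2
    have e0 := congrFun hvb 0
    have e1 := congrFun hvb 1
    have e2 := congrFun hvb 2
    rw [e0, e1, e2] at hnPB
    have hbL := mem_BX.1 hb
    have h1 : 2 * La q ≤ (∑ l, b l) + k2 q := by
      unfold PB at hnPB
      have := Fin.sum_univ_three b
      omega
    by_cases hex : ∃ j, Exc q b j
    · obtain ⟨j, hj⟩ := hex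
      have g1 : (((SS q).filter (fun v => (fun j => dl (v j)) = b)).card : ℝ) ≤
          2 ^ ((∑ l, b l) + 3) := by exact_mod_cast card_box b
      have g2 : (((SS q).filter (fun v => (fun j => dl (v j)) = b)).card : ℝ) *
          (1 / 2 ^ (∑ l, b l)) ≤ 8 := by
        calc _ ≤ (2:ℝ) ^ ((∑ l, b l) + 3) * (1 / 2 ^ (∑ l, b l)) :=
              mul_le_mul_of_nonneg_right g1 (by positivity)
          _ = 8 := by
            rw [pow_add]
            field_simp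
            norm_num
      have g3 : (1:ℝ) ≤ ∑ j, if Exc q b j then (1:ℝ) else 0 := by
        calc (1:ℝ) = if Exc q b j then (1:ℝ) else 0 := by rw [if_pos hj]
          _ ≤ _ := Finset.single_le_sum (f := fun j => if Exc q b j then (1:ℝ) else 0)
            (fun i _ => hnn i) (mem_univ j)
      linarith
    · have h3 : (∑ l, b l) + k1 q ≤ 2 * La q + 44 * uu q → ∀ j, b j + 88 * uu q < La q := by
        intro h j
        by_contra hc
        exact hex ⟨j, h1, h, by omega⟩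
      have g1 : (((SS q).filter (fun v => (fun j => dl (v j)) = b)).card : ℝ) ≤
          ∑ b' ∈ (BX q).filter (fun b' => PB q (b' 0) (b' 1) (b' 2)),
            ((NPs b b' (fun (c : ZMod q) v => ¬ Par v (fun j => c * v j))).card : ℝ) := by
        exact_mod_cast card_np b
      have g2 : ∑ b' ∈ (BX q).filter (fun b' => PB q (b' 0) (b' 1) (b' 2)),
            ((NPs b b' (fun (c : ZMod q) v => ¬ Par v (fun j => c * v j))).card : ℝ) ≤
          ∑ b' ∈ (BX q).filter (fun b' => PB q (b' 0) (b' 1) (b' 2)),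
            (5 * 2 ^ (∑ l, b l) / 2 ^ (7 * uu q) : ℝ) := by
        refine Finset.sum_le_sum fun b' hb' => ?_
        rw [mem_filter, mem_BX] at hb'
        exact (hnp b b' (fun j => (hbL j).le) (fun j => (hb'.1 j).le)).trans
          (est hL b b' hbL hb'.1 h1 hb'.2 h3)
      have g3 : ∑ b' ∈ (BX q).filter (fun b' => PB q (b' 0) (b' 1) (b' 2)),
            (5 * 2 ^ (∑ l, b l) / 2 ^ (7 * uu q) : ℝ) ≤
          (La q : ℝ) ^ 3 * (5 * 2 ^ (∑ l, b l) / 2 ^ (7 * uu q)) := by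
        rw [Finset.sum_const, nsmul_eq_mul]
        refine mul_le_mul_of_nonneg_right ?_ (by positivity)
        have := card_filter_le (BX q) (fun b' => PB q (b' 0) (b' 1) (b' 2))
        rw [card_BX] at this
        exact_mod_cast this
      have g4 := g1.trans (g2.trans g3)
      calc (((SS q).filter (fun v => (fun j => dl (v j)) = b)).card : ℝ) * (1 / 2 ^ (∑ l, b l))
          ≤ (La q : ℝ) ^ 3 * (5 * 2 ^ (∑ l, b l) / 2 ^ (7 * uu q)) * (1 / 2 ^ (∑ l, b l)) :=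
            mul_le_mul_of_nonneg_right g4 (by positivity)
        _ = 5 * (La q : ℝ) ^ 3 / 2 ^ (7 * uu q) := by field_simp
        _ ≤ _ := by linarith

open Classical in
lemma main_bound {q : ℕ} [Fact q.Prime] (hL : 88 * uu q ≤ La q)
    (hnp : ∀ b b' : Fin 3 → ℕ, (∀ j, b j ≤ La q) → (∀ j, b' j ≤ La q) →
      ((NPs b b' (fun (c : ZMod q) v => ¬ Par v (fun j => c * v j))).card : ℝ) ≤
      2 ^ (15 * uu q) * (2 ^ (∑ l, b l) * 2 ^ (∑ l, b' l) / (q:ℝ) ^ 2 +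
        ∑ k, √(2 ^ (∑ l, b l) * 2 ^ (∑ l, b' l)) * √(2 ^ (b k + b' k)) / q +
        √(2 ^ (∑ l, b l) * 2 ^ (∑ l, b' l)) / √q)) :
    ∑ v ∈ (univ : Finset (Fin 3 → ZMod q)).filter (fun v => (∀ j, v j ≠ 0) ∧ PBmul v ∧ ¬ PBdir v),
      (1:ℝ) / ((nn (v 0) : ℝ) * nn (v 1) * nn (v 2)) ≤
      24 * ((88 * uu q) * (La q * (88 * uu q + 1))) + 5 := by
  have hq2 : 2 ≤ q := (Fact.out : q.Prime).two_le
  have hmaps : ∀ v ∈ SS q, (fun j => dl (v j)) ∈ BX q := by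
    intro v hv
    unfold SS at hv
    rw [mem_filter] at hv
    rw [mem_BX]
    intro j
    exact dl_lt hq2 _ (hv.2.1 j)
  have h1 : ∑ v ∈ SS q, (1:ℝ) / ((nn (v 0) : ℝ) * nn (v 1) * nn (v 2)) ≤
      ∑ v ∈ SS q, (1:ℝ) / 2 ^ (∑ l, dl (v l)) := Finset.sum_le_sum term_le
  have h2 : ∑ v ∈ SS q, (1:ℝ) / 2 ^ (∑ l, dl (v l)) =
      ∑ b ∈ BX q, ∑ v ∈ (SS q).filter (fun v => (fun j => dl (v j)) = b),
        (1:ℝ) / 2 ^ (∑ l, dl (v l)) := (Finset.sum_fiberwise_of_maps_to hmaps _).symm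
  have h3 : ∀ b ∈ BX q, ∑ v ∈ (SS q).filter (fun v => (fun j => dl (v j)) = b),
        (1:ℝ) / 2 ^ (∑ l, dl (v l)) ≤
      8 * (∑ j, if Exc q b j then (1:ℝ) else 0) + 5 * (La q : ℝ) ^ 3 / 2 ^ (7 * uu q) := by
    intro b hb
    have h4 : ∑ v ∈ (SS q).filter (fun v => (fun j => dl (v j)) = b),
        (1:ℝ) / 2 ^ (∑ l, dl (v l)) =
        ∑ v ∈ (SS q).filter (fun v => (fun j => dl (v j)) = b), (1:ℝ) / 2 ^ (∑ l, b l) := by
      refine Finset.sum_congr rfl fun v hv => ?_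
      rw [mem_filter] at hv
      have : ∑ l, dl (v l) = ∑ l, b l := Finset.sum_congr rfl fun l _ => congrFun hv.2 l
      rw [this]
    rw [h4, Finset.sum_const, nsmul_eq_mul]
    exact box_bound hL hnp b hb
  have h5 : (∑ b ∈ BX q, ((8:ℝ) * (∑ j, if Exc q b j then (1:ℝ) else 0) +
      5 * (La q : ℝ) ^ 3 / 2 ^ (7 * uu q))) ≤
      (24:ℝ) * ((88 * (uu q : ℝ)) * ((La q : ℝ) * (88 * (uu q : ℝ) + 1))) + 5 := by
    rw [Finset.sum_add_distrib, ← Finset.mul_sum, Finset.sum_comm, Finset.sum_const, card_BX,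
      nsmul_eq_mul]
    have a1 : ∀ j, ∑ b ∈ BX q, (if Exc q b j then (1:ℝ) else 0) ≤
        (88 * uu q) * (La q * (88 * uu q + 1)) := by
      intro j
      rw [Finset.sum_boole]
      exact_mod_cast card_Exc q j
    have a2 : ∑ j, ∑ b ∈ BX q, (if Exc q b j then (1:ℝ) else 0) ≤
        3 * ((88 * uu q) * (La q * (88 * uu q + 1))) := by
      rw [Fin.sum_univ_three]
      have b0 := a1 0
      have b1 := a1 1
      have b2 := a1 2
      linarith
    have a3 : ((La q ^ 3 : ℕ) : ℝ) * (5 * (La q : ℝ) ^ 3 / 2 ^ (7 * uu q)) ≤ 5 := by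
      have c1 : (La q : ℝ) ≤ 2 ^ uu q := by exact_mod_cast (La_lt_uu q).le
      have c2 : (La q : ℝ) ^ 6 ≤ 2 ^ (7 * uu q) := by
        calc (La q : ℝ) ^ 6 ≤ (2 ^ uu q) ^ 6 := pow_le_pow_left₀ (by positivity) c1 6
          _ = 2 ^ (uu q * 6) := by rw [← pow_mul]
          _ ≤ 2 ^ (7 * uu q) := pow_le_pow_right₀ (by norm_num) (by omega)
      push_cast
      rw [mul_div_assoc']
      rw [div_le_iff₀ (by positivity)]
      calc (La q : ℝ) ^ 3 * (5 * (La q : ℝ) ^ 3) = 5 * (La q : ℝ) ^ 6 := by ring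
        _ ≤ 5 * 2 ^ (7 * uu q) := by linarith
    linarith
  calc ∑ v ∈ (univ : Finset (Fin 3 → ZMod q)).filter (fun v => (∀ j, v j ≠ 0) ∧ PBmul v ∧ ¬ PBdir v),
      (1:ℝ) / ((nn (v 0) : ℝ) * nn (v 1) * nn (v 2))
      = ∑ v ∈ SS q, (1:ℝ) / ((nn (v 0) : ℝ) * nn (v 1) * nn (v 2)) := rfl
    _ ≤ _ := h1
    _ = _ := h2
    _ ≤ _ := Finset.sum_le_sum h3
    _ ≤ _ := h5

end F1

open F1 in
open Classical in
theorem np_plane_of (npb : ∃ q₀ : ℕ, ∀ q : ℕ, q₀ ≤ q → ∀ _ : Fact q.Prime, Suit q →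
    ∀ b b' : Fin 3 → ℕ, (∀ j, b j ≤ La q) → (∀ j, b' j ≤ La q) →
    ((NPs b b' (fun (c : ZMod q) v => ¬ Par v (fun j => c * v j))).card : ℝ) ≤
      2 ^ (15 * uu q) * (2 ^ (∑ l, b l) * 2 ^ (∑ l, b' l) / (q:ℝ) ^ 2 +
        ∑ k, √(2 ^ (∑ l, b l) * 2 ^ (∑ l, b' l)) * √(2 ^ (b k + b' k)) / q +
        √(2 ^ (∑ l, b l) * 2 ^ (∑ l, b' l)) / √q)) :
    ∃ C : ℝ, 0 < C ∧ ∃ q₀ : ℕ, ∀ q : ℕ, q₀ ≤ q → ∀ _ : Fact q.Prime, Suit q →
    ∑ v ∈ (univ : Finset (Fin 3 → ZMod q)).filter (fun v => (∀ j, v j ≠ 0) ∧ PBmul v ∧ ¬ PBdir v),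
      (1:ℝ) / ((nn (v 0) : ℝ) * nn (v 1) * nn (v 2)) ≤ C * (La q * √(La q)) := by
  obtain ⟨q₁, hq₁⟩ := npb
  refine ⟨24 * 7832 * 7 + 5, by norm_num, max q₁ (2 ^ 1408), ?_⟩
  intro q hq0 hq hS
  have hqq1 : q₁ ≤ q := (le_max_left _ _).trans hq0
  have hqq2 : 2 ^ 1408 ≤ q := (le_max_right _ _).trans hq0
  have hnp := hq₁ q hqq1 hq hS
  have hq2 : 2 ≤ q := hq.out.two_le
  have hL0 : 1408 ≤ La q := by
    unfold La
    exact Nat.le_log_of_pow_le (by norm_num) hqq2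
  have hu4 := pow4_le (uu q)
  have huL := uu_le q hq2
  have hu1 : 1 ≤ uu q := by unfold uu; omega
  have hu5 : uu q ^ 4 ≤ 42 * La q := by omega
  have hL : 88 * uu q ≤ La q := by
    by_cases h16 : uu q < 16
    · omega
    · have h16' : 16 ≤ uu q := by omega
      have : 16 ^ 3 * uu q ≤ uu q ^ 4 := by
        calc 16 ^ 3 * uu q ≤ uu q ^ 3 * uu q := Nat.mul_le_mul_right _ (Nat.pow_le_pow_left h16' 3)
          _ = uu q ^ 4 := by ring
      omega
  have hLu : La q < 2 ^ uu q := La_lt_uu q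
  have hmain := main_bound hL hnp
  refine hmain.trans ?_
  have hL1 : (1:ℝ) ≤ La q := by exact_mod_cast (by omega : 1 ≤ La q)
  have hu2 : ((uu q : ℕ) : ℝ) ^ 2 ≤ 7 * √(La q) := by
    have h : ((uu q : ℕ) : ℝ) ^ 2 ≤ √(49 * La q) := by
      refine Real.le_sqrt_of_sq_le ?_
      have h5 : ((uu q : ℕ) : ℝ) ^ 4 ≤ 42 * La q := by exact_mod_cast hu5
      have h6 : (((uu q : ℕ) : ℝ) ^ 2) ^ 2 = ((uu q : ℕ) : ℝ) ^ 4 := by ring
      rw [h6]
      linarith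
    have h49 : √((49:ℝ) * La q) = 7 * √(La q) := by
      rw [Real.sqrt_mul (by norm_num)]
      congr 1
      rw [show (49:ℝ) = 7 ^ 2 by norm_num]
      exact Real.sqrt_sq (by norm_num)
    rw [h49] at h
    exact h
  have hs1 : (1:ℝ) ≤ √(La q) := by
    rw [show (1:ℝ) = √1 by simp]
    exact Real.sqrt_le_sqrt hL1
  have hu1' : (1:ℝ) ≤ uu q := by exact_mod_cast hu1
  have g1 : (24:ℝ) * ((88 * uu q) * (La q * (88 * uu q + 1))) ≤
      24 * 7832 * (uu q : ℝ) ^ 2 * La q := by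
    have g0 : (88 * (uu q : ℝ)) * (88 * uu q + 1) ≤ 7832 * (uu q : ℝ) ^ 2 := by nlinarith
    have g0' := mul_le_mul_of_nonneg_right g0 (by linarith : (0:ℝ) ≤ 24 * La q)
    calc (24:ℝ) * ((88 * uu q) * (La q * (88 * uu q + 1)))
        = (88 * (uu q : ℝ)) * (88 * uu q + 1) * (24 * La q) := by ring
      _ ≤ 7832 * (uu q : ℝ) ^ 2 * (24 * La q) := g0'
      _ = 24 * 7832 * (uu q : ℝ) ^ 2 * La q := by ring
  have g2 : 24 * 7832 * (uu q : ℝ) ^ 2 * La q ≤ 24 * 7832 * (7 * √(La q)) * La q := by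
    refine mul_le_mul_of_nonneg_right ?_ (by linarith)
    exact mul_le_mul_of_nonneg_left hu2 (by norm_num)
  have g3 : (5:ℝ) ≤ 5 * (La q * √(La q)) := by nlinarith
  calc (24:ℝ) * ((88 * uu q) * (La q * (88 * uu q + 1))) + 5
      ≤ 24 * 7832 * (7 * √(La q)) * La q + 5 * (La q * √(La q)) := by linarith
    _ = (24 * 7832 * 7 + 5) * (La q * √(La q)) := by ring

end Pool.Agent.H935R2.PS
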