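import Pool.Agent.H935R2.PS.Defs2
import Pool.Agent.H935R2.PS.A1
import Pool.Agent.H935R2.PS.A2
import Pool.Agent.H36R2.PS.C3
import Pool.Agent.H935R2.PS.F1pre
import Pool.Agent.H935R2.PS.E5

set_option autoImplicit false
set_option linter.unusedVariables false

/-!
# F2: the mean of a plane cell over all good pairs
-/

namespace Pool.Agent.H935R2.PS

open Finset

namespace F2

variable {q : ℕ}

/-- the summand on the Fourier side -/
noncomputable def Fv [NeZero q] (c c' : ZMod q) (t1 t2 t3 : ℕ) (v : Fin 3 → ZMod q) : ℂ :=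
  G 0 t1 (v 0) * G c t2 (-(v 1)) * G c' t3 (-(v 2))

theorem nn_pos [NeZero q] {x : ZMod q} (hx : x ≠ 0) : 0 < nn x := by
  rcases Nat.eq_zero_or_pos (nn x) with h | h
  · exact absurd ((nn_eq_zero x).1 h) hx
  · exact h

theorem mx_eq [NeZero q] {x : ZMod q} (hx : x ≠ 0) : mx x = nn x := by
  have h := nn_pos hx
  have : (1:ℝ) ≤ nn x := by exact_mod_cast h
  simp [mx, max_eq_right this]

/-- the vector attached to `(l, a, w)` -/
def vec (l a w : ZMod q) : Fin 3 → ZMod q := ![l * a, l, l * w]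

theorem PBmul_vec [Fact q.Prime] {l a w : ZMod q} (hl : l ≠ 0) (ha : a ≠ 0) (hw : w ≠ 0) :
    PBmul (vec l a w) ↔ ¬ pgood a w := by
  unfold PBmul pgood vec
  simp only [Matrix.cons_val_zero, Matrix.cons_val_one, Matrix.cons_val]
  constructor
  · rintro ⟨c, hc, h⟩ ⟨_, _, h'⟩
    apply h' (c * l) (mul_ne_zero hc hl)
    rw [mul_assoc, mul_assoc]
    exact h
  · intro h
    by_contra hcon
    apply h
    refine ⟨ha, hw, fun l' hl' hP => hcon ⟨l' * l⁻¹, mul_ne_zero hl' (inv_ne_zero hl), ?_⟩⟩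
    have h1 : l' * l⁻¹ * (l * a) = l' * a := by field_simp
    have h2 : l' * l⁻¹ * l = l' := by field_simp
    have h3 : l' * l⁻¹ * (l * w) = l' * w := by field_simp
    rw [h1, h2, h3]
    exact hP

open Classical in
/-- the sum over the good pairs on the Fourier side -/
theorem sum_good [Fact q.Prime] (c c' : ZMod q) (t1 t2 t3 : ℕ) :
    ((∑ p ∈ (univ : Finset (ZMod q × ZMod q)).filter (fun p => pgood p.1 p.2),
      Xp c c' p.1 p.2 t1 t2 t3 : ℝ) : ℂ) = (1 / (q:ℂ)) *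
      ∑ v ∈ (univ : Finset (Fin 3 → ZMod q)).filter (fun v => (∀ j, v j ≠ 0) ∧ ¬ PBmul v),
        Fv c c' t1 t2 t3 v := by
  rw [Complex.ofReal_sum]
  simp_rw [Xp_fourier]
  rw [← Finset.mul_sum]
  congr 1
  rw [← Finset.sum_product']
  refine Finset.sum_bij' (fun (p : (ZMod q × ZMod q) × ZMod q) _ => vec p.2 p.1.1 p.1.2)
    (fun v _ => ((v 0 / v 1, v 2 / v 1), v 1)) ?_ ?_ ?_ ?_ ?_
  · rintro ⟨⟨a, w⟩, l⟩ h
    simp only [mem_product, mem_filter, mem_univ, true_and] at h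
    simp only [mem_filter, mem_univ, true_and]
    obtain ⟨hg, hl⟩ := h
    refine ⟨?_, ?_⟩
    · intro j
      fin_cases j
      · exact mul_ne_zero hl hg.1
      · exact hl
      · exact mul_ne_zero hl hg.2.1
    · rw [PBmul_vec hl hg.1 hg.2.1]
      exact not_not.2 hg
  · intro v h
    simp only [mem_filter, mem_univ, true_and] at h
    obtain ⟨h0, hP⟩ := h
    simp only [mem_product, mem_filter, mem_univ, true_and]
    refine ⟨?_, h0 1⟩
    have e : vec (v 1) (v 0 / v 1) (v 2 / v 1) = v := by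
      funext j
      fin_cases j
      · change v 1 * (v 0 / v 1) = v 0
        have := h0 1
        field_simp
      · rfl
      · change v 1 * (v 2 / v 1) = v 2
        have := h0 1
        field_simp
    by_contra hcon
    apply hP
    rw [← e]
    exact (PBmul_vec (h0 1) (div_ne_zero (h0 0) (h0 1)) (div_ne_zero (h0 2) (h0 1))).2 hcon
  · rintro ⟨⟨a, w⟩, l⟩ h
    simp only [mem_product, mem_filter, mem_univ, true_and] at h
    have hl := h.2
    have e1 : vec l a w 0 / vec l a w 1 = a := by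
      change l * a / l = a
      field_simp
    have e2 : vec l a w 2 / vec l a w 1 = w := by
      change l * w / l = w
      field_simp
    have e3 : vec l a w 1 = l := rfl
    change ((vec l a w 0 / vec l a w 1, vec l a w 2 / vec l a w 1), vec l a w 1) = ((a, w), l)
    rw [e1, e2, e3]
  · intro v h
    simp only [mem_filter, mem_univ, true_and] at h
    obtain ⟨h0, hP⟩ := h
    funext j
    fin_cases j
    · change v 1 * (v 0 / v 1) = v 0
      have := h0 1
      field_simp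
    · rfl
    · change v 1 * (v 2 / v 1) = v 2
      have := h0 1
      field_simp
  · rintro ⟨⟨a, w⟩, l⟩ h
    rfl

open Classical in
/-- the sum over all vectors factorises -/
theorem sum_all [Fact q.Prime] (c c' : ZMod q) (t1 t2 t3 : ℕ) (h1 : t1 < q) (h2 : t2 < q)
    (h3 : t3 < q) :
    ‖∑ v ∈ (univ : Finset (Fin 3 → ZMod q)).filter (fun v => ∀ j, v j ≠ 0),
        Fv c c' t1 t2 t3 v‖ ≤ (q:ℝ) ^ 3 := by
  have hneg : ∀ (d : ZMod q) (t : ℕ), (∑ x ∈ (univ : Finset (ZMod q)).filter (fun x => x ≠ 0),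
      G d t (-x)) = ∑ x ∈ (univ : Finset (ZMod q)).filter (fun x => x ≠ 0), G d t x := by
    intro d t
    refine Finset.sum_bij' (fun x _ => -x) (fun x _ => -x) ?_ ?_ ?_ ?_ ?_ <;> simp
  have e : (∑ v ∈ (univ : Finset (Fin 3 → ZMod q)).filter (fun v => ∀ j, v j ≠ 0),
        Fv c c' t1 t2 t3 v) =
      (∑ x ∈ (univ : Finset (ZMod q)).filter (fun x => x ≠ 0), G 0 t1 x) *
      (∑ x ∈ (univ : Finset (ZMod q)).filter (fun x => x ≠ 0), G c t2 (-x)) *
      (∑ x ∈ (univ : Finset (ZMod q)).filter (fun x => x ≠ 0), G c' t3 (-x)) := by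
    set f : Fin 3 → ZMod q → ℂ := ![fun x => G 0 t1 x, fun x => G c t2 (-x), fun x => G c' t3 (-x)]
      with hf
    have h := Finset.prod_univ_sum
      (fun _ : Fin 3 => (univ : Finset (ZMod q)).filter (fun x => x ≠ 0)) f
    rw [Fin.prod_univ_three] at h
    simp only [hf, Matrix.cons_val_zero, Matrix.cons_val_one, Matrix.cons_val] at h
    rw [h]
    have hs : Fintype.piFinset (fun _ : Fin 3 => (univ : Finset (ZMod q)).filter (fun x => x ≠ 0)) =
        (univ : Finset (Fin 3 → ZMod q)).filter (fun v => ∀ j, v j ≠ 0) := by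
      ext v
      simp [Fintype.mem_piFinset]
    rw [hs]
    apply Finset.sum_congr rfl
    intro v _
    rw [Fin.prod_univ_three]
    rfl
  rw [e, hneg, hneg, norm_mul, norm_mul]
  have g1 := G_sum (q := q) 0 t1 h1
  have g2 := G_sum (q := q) c t2 h2
  have g3 := G_sum (q := q) c' t3 h3
  have hq : (0:ℝ) ≤ q := Nat.cast_nonneg q
  calc _ ≤ (q:ℝ) * q * q := by gcongr
    _ = (q:ℝ) ^ 3 := by ring

/-- directly bad vectors have a bad multiple -/
theorem PBmul_of_dir [Fact q.Prime] (hq3 : 3 ≤ q) {v : Fin 3 → ZMod q} (hv : ∀ j, v j ≠ 0)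
    (h : PBdir v) : PBmul v := by
  have hodd : 2 * (q / 2) < q := by
    rcases (Fact.out : q.Prime).eq_two_or_odd with h2 | h2
    · omega
    · omega
  set g := gv v with hg
  have hdvd : ∀ j, g ∣ nn (v j) := by
    intro j
    fin_cases j
    · exact Nat.gcd_dvd_left _ _
    · exact (Nat.gcd_dvd_right _ _).trans (Nat.gcd_dvd_left _ _)
    · exact (Nat.gcd_dvd_right _ _).trans (Nat.gcd_dvd_right _ _)
  have hgpos : 0 < g := Nat.pos_of_dvd_of_pos (hdvd 0) (nn_pos (hv 0))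
  have hglt : g < q := by
    have h1 := Nat.le_of_dvd (nn_pos (hv 0)) (hdvd 0)
    have h2 := nn_le (v 0)
    omega
  have hg0 : (g : ZMod q) ≠ 0 := by
    intro hz
    rw [ZMod.natCast_eq_zero_iff] at hz
    exact absurd (Nat.le_of_dvd hgpos hz) (by omega)
  have key : ∀ j, nn ((g : ZMod q)⁻¹ * v j) = nn (v j) / g := by
    intro j
    have hd : (g : ℤ) ∣ (v j).valMinAbs := Int.natCast_dvd.2 (hdvd j)
    obtain ⟨k, hk⟩ := hd
    have e1 : (g : ZMod q)⁻¹ * v j = (k : ZMod q) := by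
      have h1 : v j = ((v j).valMinAbs : ZMod q) := (ZMod.coe_valMinAbs (v j)).symm
      rw [h1, hk]
      push_cast
      field_simp
    have hnn : nn (v j) = g * k.natAbs := by
      unfold nn
      rw [hk, Int.natAbs_mul]
      simp
    have hk2 : 2 * k.natAbs < q := by
      have h1 : k.natAbs ≤ nn (v j) := by
        rw [hnn]
        exact Nat.le_mul_of_pos_left _ hgpos
      have h2 := nn_le (v j)
      omega
    rw [e1, hnn, Nat.mul_div_cancel_left _ hgpos]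
    unfold nn
    rw [valMinAbs_intCast k hk2]
  refine ⟨(g : ZMod q)⁻¹, inv_ne_zero hg0, ?_⟩
  unfold PBdir at h
  unfold dl
  rw [key, key, key]
  exact h

open Classical in
/-- the directly bad part -/
theorem sum_dir : ∃ C : ℝ, 0 < C ∧ ∀ q : ℕ, ∀ hq : Fact q.Prime, 3 ≤ q →
    ∀ (c c' : ZMod q) (t1 t2 t3 : ℕ), t1 < q → t2 < q → t3 < q →
    ‖∑ v ∈ (univ : Finset (Fin 3 → ZMod q)).filter (fun v => (∀ j, v j ≠ 0) ∧ PBdir v),
        Fv c c' t1 t2 t3 v‖ ≤ C * (q:ℝ) ^ 3 := by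
  obtain ⟨C, hC, hmain⟩ := main3
  refine ⟨C, hC, ?_⟩
  intro q hq hq3 c c' t1 t2 t3 h1 h2 h3
  have h := hmain q hq hq3 ![0, c, c'] ![t1, t2, t3] (by
    intro j
    fin_cases j
    · exact h1
    · exact h2
    · exact h3) (PB q)
  refine le_of_eq_of_le ?_ h
  congr 1
  refine Finset.sum_bij' (fun (v : Fin 3 → ZMod q) _ => ![v 0, -v 1, -v 2])
    (fun (v : Fin 3 → ZMod q) _ => ![v 0, -v 1, -v 2]) ?_ ?_ ?_ ?_ ?_
  · intro v hv
    simp only [mem_filter, mem_univ, true_and] at hv ⊢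
    obtain ⟨h0, hP⟩ := hv
    refine ⟨?_, ?_⟩
    · intro j
      fin_cases j
      · exact h0 0
      · exact neg_ne_zero.2 (h0 1)
      · exact neg_ne_zero.2 (h0 2)
    · unfold PBdir gv at hP
      unfold gv
      simp only [Matrix.cons_val_zero, Matrix.cons_val_one, Matrix.cons_val, nn_neg]
      exact hP
  · intro v hv
    simp only [mem_filter, mem_univ, true_and] at hv ⊢
    obtain ⟨h0, hP⟩ := hv
    refine ⟨?_, ?_⟩
    · intro j
      fin_cases j
      · exact h0 0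
      · exact neg_ne_zero.2 (h0 1)
      · exact neg_ne_zero.2 (h0 2)
    · unfold gv at hP
      unfold PBdir gv
      simp only [Matrix.cons_val_zero, Matrix.cons_val_one, Matrix.cons_val, nn_neg]
      exact hP
  · intro v _
    funext j
    fin_cases j
    · rfl
    · change - - v 1 = v 1
      exact neg_neg _
    · change - - v 2 = v 2
      exact neg_neg _
  · intro v _
    funext j
    fin_cases j
    · rfl
    · change - - v 1 = v 1
      exact neg_neg _
    · change - - v 2 = v 2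
      exact neg_neg _
  · intro v _
    rfl

open Classical in
/-- the non parallel part -/
theorem sum_np [Fact q.Prime] (c c' : ZMod q) (t1 t2 t3 : ℕ) (h1 : t1 < q) (h2 : t2 < q)
    (h3 : t3 < q) (M : ℝ)
    (hM : ∑ v ∈ (univ : Finset (Fin 3 → ZMod q)).filter
      (fun v => (∀ j, v j ≠ 0) ∧ PBmul v ∧ ¬ PBdir v),
      (1:ℝ) / ((nn (v 0) : ℝ) * nn (v 1) * nn (v 2)) ≤ M) :
    ‖∑ v ∈ (univ : Finset (Fin 3 → ZMod q)).filter
      (fun v => (∀ j, v j ≠ 0) ∧ PBmul v ∧ ¬ PBdir v), Fv c c' t1 t2 t3 v‖ ≤ M * (q:ℝ) ^ 3 := by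
  refine (norm_sum_le _ _).trans ?_
  have hq : (0:ℝ) ≤ q := Nat.cast_nonneg q
  calc _ ≤ ∑ v ∈ (univ : Finset (Fin 3 → ZMod q)).filter
            (fun v => (∀ j, v j ≠ 0) ∧ PBmul v ∧ ¬ PBdir v),
            (1:ℝ) / ((nn (v 0) : ℝ) * nn (v 1) * nn (v 2)) * (q:ℝ) ^ 3 := by
        apply Finset.sum_le_sum
        intro v hv
        simp only [mem_filter, mem_univ, true_and] at hv
        obtain ⟨h0, _⟩ := hv
        unfold Fv
        rw [norm_mul, norm_mul]
        have g1 := G_le 0 t1 h1 (v 0)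
        have g2 := G_le c t2 h2 (-(v 1))
        have g3 := G_le c' t3 h3 (-(v 2))
        rw [mx_eq (h0 0)] at g1
        rw [mx_eq (neg_ne_zero.2 (h0 1)), nn_neg] at g2
        rw [mx_eq (neg_ne_zero.2 (h0 2)), nn_neg] at g3
        calc _ ≤ ((q:ℝ) / nn (v 0)) * (q / nn (v 1)) * (q / nn (v 2)) := by gcongr
          _ = _ := by
            rw [div_mul_div_comm, div_mul_div_comm, one_div, inv_mul_eq_div]
            ring
    _ = (∑ v ∈ (univ : Finset (Fin 3 → ZMod q)).filter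
            (fun v => (∀ j, v j ≠ 0) ∧ PBmul v ∧ ¬ PBdir v),
            (1:ℝ) / ((nn (v 0) : ℝ) * nn (v 1) * nn (v 2))) * (q:ℝ) ^ 3 := by rw [Finset.sum_mul]
    _ ≤ M * (q:ℝ) ^ 3 := by gcongr

open Classical in
/-- splitting of the sum over the vectors without bad multiples -/
theorem split [Fact q.Prime] (hq3 : 3 ≤ q) (f : (Fin 3 → ZMod q) → ℂ) :
    ∑ v ∈ (univ : Finset (Fin 3 → ZMod q)).filter (fun v => (∀ j, v j ≠ 0) ∧ ¬ PBmul v), f v =
      ∑ v ∈ (univ : Finset (Fin 3 → ZMod q)).filter (fun v => ∀ j, v j ≠ 0), f v -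
      ∑ v ∈ (univ : Finset (Fin 3 → ZMod q)).filter (fun v => (∀ j, v j ≠ 0) ∧ PBdir v), f v -
      ∑ v ∈ (univ : Finset (Fin 3 → ZMod q)).filter
        (fun v => (∀ j, v j ≠ 0) ∧ PBmul v ∧ ¬ PBdir v), f v := by
  rw [Finset.sum_filter, Finset.sum_filter, Finset.sum_filter, Finset.sum_filter,
    ← Finset.sum_sub_distrib, ← Finset.sum_sub_distrib]
  apply Finset.sum_congr rfl
  intro v _
  by_cases h0 : ∀ j, v j ≠ 0
  · by_cases hd : PBdir v
    · have hm := PBmul_of_dir hq3 h0 hd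
      simp [h0, hd, hm]
    · by_cases hm : PBmul v
      · simp [h0, hd, hm]
      · simp [h0, hd, hm]
  · simp [h0]

end F2

open Classical in
theorem mean_plane : ∃ C : ℝ, 0 < C ∧ ∃ q₀ : ℕ, ∀ q : ℕ, q₀ ≤ q → ∀ hq : Fact q.Prime, Suit q →
    ∀ (c c' : ZMod q) (t1 t2 t3 : ℕ), t1 < q → t2 < q → t3 < q →
    |∑ p ∈ (univ : Finset (ZMod q × ZMod q)).filter (fun p => pgood p.1 p.2), Xp c c' p.1 p.2 t1 t2 t3|
      ≤ C * (La q * √(La q)) * (q:ℝ) ^ 2 := by
  obtain ⟨C1, hC1, H1⟩ := F2.sum_dir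
  obtain ⟨C2, hC2, q₀, H2⟩ := np_plane_of npb
  refine ⟨1 + C1 + C2, by positivity, max q₀ 3, ?_⟩
  intro q hq0 hq hS c c' t1 t2 t3 h1 h2 h3
  have hq3 : 3 ≤ q := (le_max_right _ _).trans hq0
  have hn := H2 q ((le_max_left _ _).trans hq0) hq hS
  have b1 := F2.sum_all c c' t1 t2 t3 h1 h2 h3
  have b2 := H1 q hq hq3 c c' t1 t2 t3 h1 h2 h3
  have b3 := F2.sum_np c c' t1 t2 t3 h1 h2 h3 _ hn
  have hL1 : 1 ≤ La q := by
    unfold La
    apply Nat.log_pos (by norm_num) (by omega)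
  have hL : (1:ℝ) ≤ La q * √(La q) := by
    have e1 : (1:ℝ) ≤ La q := by exact_mod_cast hL1
    have e2 : (1:ℝ) ≤ √(La q) := by
      rw [Real.one_le_sqrt]
      exact e1
    nlinarith
  have hqpos : (0:ℝ) < q := by
    have : 0 < q := by omega
    exact_mod_cast this
  have hsum := F2.sum_good c c' t1 t2 t3
  rw [F2.split hq3] at hsum
  set S : ℝ := ∑ p ∈ (univ : Finset (ZMod q × ZMod q)).filter (fun p => pgood p.1 p.2),
    Xp c c' p.1 p.2 t1 t2 t3 with hSdef
  have hnorm : |S| = ‖(S : ℂ)‖ := by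
    rw [Complex.norm_real, Real.norm_eq_abs]
  rw [hnorm, hsum, norm_mul]
  have e1 : ‖(1 / (q:ℂ))‖ = 1 / (q:ℝ) := by
    simp
  rw [e1]
  set A := ∑ v ∈ (univ : Finset (Fin 3 → ZMod q)).filter (fun v => ∀ j, v j ≠ 0),
    F2.Fv c c' t1 t2 t3 v with hA
  set B := ∑ v ∈ (univ : Finset (Fin 3 → ZMod q)).filter (fun v => (∀ j, v j ≠ 0) ∧ PBdir v),
    F2.Fv c c' t1 t2 t3 v with hB
  set D := ∑ v ∈ (univ : Finset (Fin 3 → ZMod q)).filter
        (fun v => (∀ j, v j ≠ 0) ∧ PBmul v ∧ ¬ PBdir v), F2.Fv c c' t1 t2 t3 v with hD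
  have e3 : ‖A - B - D‖ ≤ ‖A‖ + ‖B‖ + ‖D‖ := by
    refine (norm_sub_le _ _).trans ?_
    gcongr
    exact norm_sub_le _ _
  have e4 : ‖A - B - D‖ ≤ (1 + C1 + C2) * (La q * √(La q)) * (q:ℝ) ^ 3 := by
    refine e3.trans ((add_le_add (add_le_add b1 b2) b3).trans ?_)
    have hq3' : (0:ℝ) ≤ (q:ℝ) ^ 3 := by positivity
    have i1 : (q:ℝ) ^ 3 ≤ (La q * √(La q)) * (q:ℝ) ^ 3 := le_mul_of_one_le_left hq3' hL
    have i2 : C1 * (q:ℝ) ^ 3 ≤ C1 * (La q * √(La q)) * (q:ℝ) ^ 3 := by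
      rw [mul_assoc]
      exact mul_le_mul_of_nonneg_left i1 hC1.le
    nlinarith
  calc 1 / (q:ℝ) * ‖A - B - D‖ ≤ 1 / (q:ℝ) * ((1 + C1 + C2) * (La q * √(La q)) * (q:ℝ) ^ 3) := by
        gcongr
    _ = (1 + C1 + C2) * (La q * √(La q)) * (q:ℝ) ^ 2 := by
        field_simp

end Pool.Agent.H935R2.PS
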