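import Pool.Agent.H935R2.PS.S2def
import Pool.Agent.H935R2.PS.A1

set_option autoImplicit false
set_option linter.unusedVariables false

/-!
# Task G2: the average of the sum of the partial quotients
-/

namespace Pool.Agent.H935R2.PS

open Finset


namespace G2

/-- `uu q ≤ 2 √(La q)` -/
lemma sq_le (m : ℕ) : (m + 1) ^ 2 ≤ 4 * 2 ^ m := by
  induction m with
  | zero => norm_num
  | succ k ih =>
    rw [pow_succ 2 k]
    rcases Nat.lt_or_ge k 2 with h | h
    · interval_cases k <;> norm_num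
    · nlinarith [ih, h]

lemma uu_sqrt (q : ℕ) (hq : 2 ≤ q) : (uu q : ℝ) ≤ 2 * √(La q) := by
  have hLa : La q ≠ 0 := by
    unfold La
    have := Nat.log_pos (b := 2) (by norm_num) hq
    omega
  have h1 : 2 ^ (Nat.log 2 (La q)) ≤ La q := Nat.pow_log_le_self 2 hLa
  have h2 := sq_le (Nat.log 2 (La q))
  have h3 : (uu q) ^ 2 ≤ 4 * La q := by
    unfold uu
    calc _ ≤ 4 * 2 ^ (Nat.log 2 (La q)) := h2
      _ ≤ _ := by omega
  have h4 : ((uu q : ℝ)) ^ 2 ≤ 4 * (La q : ℝ) := by exact_mod_cast h3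
  have h5 : (2 * √(La q : ℝ)) ^ 2 = 4 * (La q : ℝ) := by
    rw [mul_pow, Real.sq_sqrt (Nat.cast_nonneg _)]; norm_num
  have h6 : (0:ℝ) ≤ 2 * √(La q : ℝ) := by positivity
  exact abs_le_of_sq_le_sq' (by rw [h5]; exact h4) h6 |>.2

open Classical in
/-- one dyadic block of `1/nn x` -/
lemma block {q : ℕ} [NeZero q] (b : ℕ) :
    ∑ x ∈ (univ : Finset (ZMod q)).filter (fun x => x ≠ 0 ∧ dl x = b), (1:ℝ) / nn x ≤ 2 := by
  have h1 : ∀ x ∈ (univ : Finset (ZMod q)).filter (fun x => x ≠ 0 ∧ dl x = b), (1:ℝ) / nn x ≤ 1 / 2 ^ b := by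
    intro x hx
    rw [mem_filter] at hx
    have h := two_pow_dl_le x hx.2.1
    rw [hx.2.2] at h
    have h' : (2:ℝ) ^ b ≤ nn x := by exact_mod_cast h
    exact one_div_le_one_div_of_le (by positivity) h'
  have h2 := sum_le_card_nsmul _ _ _ h1
  have h3 : (((univ : Finset (ZMod q)).filter (fun x => x ≠ 0 ∧ dl x = b)).card : ℝ) ≤ 2 ^ (b + 1) := by
    exact_mod_cast card_dl b
  rw [nsmul_eq_mul] at h2
  calc _ ≤ _ := h2
    _ ≤ 2 ^ (b + 1) * (1 / 2 ^ b) := by gcongr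
    _ = 2 := by rw [pow_succ]; field_simp

open Classical in
/-- inner sum for fixed `l` -/
lemma inner {q : ℕ} [Fact q.Prime] (l : ZMod q) (hl : l ≠ 0) :
    ∑ b ∈ (univ : Finset (ZMod q)).filter (fun b => good2 b ∧ nn l * nn (l * b) ≤ q),
      (q:ℝ) / ((nn l : ℝ) * nn (l * b)) ≤ (q:ℝ) / nn l * (2 * (k1 q + 1)) := by
  have hnl : nn l ≠ 0 := fun h => hl ((nn_eq_zero l).1 h)
  have hnlr : (0:ℝ) < nn l := by exact_mod_cast Nat.pos_of_ne_zero hnl
  -- the target set
  set T : Finset (ZMod q) := (univ : Finset (ZMod q)).filter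
    (fun x => x ≠ 0 ∧ La q ≤ dl x + dl l + k1 q ∧ dl x + dl l ≤ La q) with hT
  have hqpos : (0:ℝ) < q := by exact_mod_cast (Fact.out : q.Prime).pos
  have step1 : ∑ b ∈ (univ : Finset (ZMod q)).filter (fun b => good2 b ∧ nn l * nn (l * b) ≤ q),
      (q:ℝ) / ((nn l : ℝ) * nn (l * b)) ≤ ∑ x ∈ T, (q:ℝ) / ((nn l : ℝ) * nn x) := by
    rw [← Finset.sum_image (s := (univ : Finset (ZMod q)).filter (fun b => good2 b ∧ nn l * nn (l * b) ≤ q))
      (g := fun b => l * b) (f := fun x => (q:ℝ) / ((nn l : ℝ) * nn x))]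
    · apply Finset.sum_le_sum_of_subset_of_nonneg
      · intro x hx
        rw [mem_image] at hx
        obtain ⟨b, hb, rfl⟩ := hx
        rw [mem_filter] at hb
        obtain ⟨-, hg, hle⟩ := hb
        have hlb : l * b ≠ 0 := mul_ne_zero hl hg.1
        rw [hT, mem_filter]
        refine ⟨mem_univ _, hlb, hg.2 l hl, ?_⟩
        have e1 := two_pow_dl_le l hl
        have e2 := two_pow_dl_le (l * b) hlb
        have e3 : 2 ^ (dl (l * b) + dl l) ≤ nn l * nn (l * b) := by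
          rw [pow_add, mul_comm]; exact Nat.mul_le_mul e1 e2
        have e4 := lt_La q
        have e5 : 2 ^ (dl (l * b) + dl l) < 2 ^ (La q + 1) := by omega
        have e6 := (Nat.pow_lt_pow_iff_right (by norm_num : 1 < 2)).1 e5
        omega
      · intro x _ _
        positivity
    · intro x _ y _ h
      exact mul_left_cancel₀ hl h
  have step2 : ∑ x ∈ T, (q:ℝ) / ((nn l : ℝ) * nn x) = (q:ℝ) / nn l * ∑ x ∈ T, (1:ℝ) / nn x := by
    rw [mul_sum]
    refine sum_congr rfl fun x _ => ?_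
    rw [div_mul_div_comm, mul_one]
  have step3 : ∑ x ∈ T, (1:ℝ) / nn x ≤ 2 * (k1 q + 1) := by
    set I : Finset ℕ := Icc (La q - dl l - k1 q) (La q - dl l) with hI
    have hmap : ∀ x ∈ T, dl x ∈ I := by
      intro x hx
      rw [hT, mem_filter] at hx
      rw [hI, mem_Icc]
      omega
    rw [← sum_fiberwise_of_maps_to hmap]
    have hb : ∀ b ∈ I, ∑ x ∈ T.filter (fun x => dl x = b), (1:ℝ) / nn x ≤ 2 := by
      intro b _
      refine le_trans (sum_le_sum_of_subset_of_nonneg ?_ fun x _ _ => by positivity) (block b)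
      intro x hx
      rw [mem_filter, hT, mem_filter] at hx
      rw [mem_filter]
      exact ⟨mem_univ _, hx.1.2.1, hx.2⟩
    have h2 := sum_le_card_nsmul _ _ _ hb
    have h3 : (I.card : ℝ) ≤ k1 q + 1 := by
      rw [hI, Nat.card_Icc]
      have : La q - dl l + 1 - (La q - dl l - k1 q) ≤ k1 q + 1 := by omega
      exact_mod_cast this
    rw [nsmul_eq_mul] at h2
    calc _ ≤ _ := h2
      _ ≤ (k1 q + 1) * 2 := by gcongr
      _ = _ := by ring
  calc _ ≤ _ := step1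
    _ = _ := step2
    _ ≤ _ := by gcongr

end G2

open Classical in
theorem S2_avg : ∃ C : ℝ, 0 < C ∧ ∃ q₀ : ℕ, ∀ q : ℕ, q₀ ≤ q → ∀ hq : Fact q.Prime,
    ∑ b ∈ (univ : Finset (ZMod q)).filter (fun b => good2 b), S2 b ≤ C * (La q * √(La q)) * q := by
  refine ⟨1000, by norm_num, 2, ?_⟩
  intro q hq2 hq
  have hLa1 : 1 ≤ La q := by
    unfold La
    exact Nat.log_pos (by norm_num) hq2
  have hLa : (1:ℝ) ≤ La q := by exact_mod_cast hLa1
  have hs1 : (1:ℝ) ≤ √(La q) := by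
    rw [Real.one_le_sqrt]; exact hLa
  have huu := G2.uu_sqrt q hq2
  have hqpos : (0:ℝ) < q := by exact_mod_cast hq.out.pos
  unfold S2
  rw [sum_add_distrib]
  have h1 : ∑ b ∈ (univ : Finset (ZMod q)).filter (fun b => good2 b), (1:ℝ) ≤ q := by
    rw [sum_const, nsmul_eq_mul, mul_one]
    have := card_filter_le (univ : Finset (ZMod q)) (fun b => good2 b)
    rw [card_univ, ZMod.card] at this
    exact_mod_cast this
  have h2 : ∑ b ∈ (univ : Finset (ZMod q)).filter (fun b => good2 b),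
      ∑ l ∈ (univ : Finset (ZMod q)).filter (fun l => l ≠ 0 ∧ nn l * nn (l * b) ≤ q),
      (q:ℝ) / ((nn l : ℝ) * nn (l * b)) ≤
      ∑ l ∈ (univ : Finset (ZMod q)).filter (fun l => l ≠ 0), (q:ℝ) / nn l * (2 * (k1 q + 1)) := by
    have e : ∑ b ∈ (univ : Finset (ZMod q)).filter (fun b => good2 b),
      ∑ l ∈ (univ : Finset (ZMod q)).filter (fun l => l ≠ 0 ∧ nn l * nn (l * b) ≤ q),
      (q:ℝ) / ((nn l : ℝ) * nn (l * b)) = ∑ l ∈ (univ : Finset (ZMod q)).filter (fun l => l ≠ 0),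
      ∑ b ∈ (univ : Finset (ZMod q)).filter (fun b => good2 b ∧ nn l * nn (l * b) ≤ q),
        (q:ℝ) / ((nn l : ℝ) * nn (l * b)) := by
      apply sum_comm'
      intro x y
      simp only [mem_filter, mem_univ, true_and]
      tauto
    rw [e]
    apply sum_le_sum
    intro l hl
    rw [mem_filter] at hl
    exact G2.inner l hl.2
  have h3 : ∑ l ∈ (univ : Finset (ZMod q)).filter (fun l => l ≠ 0), (q:ℝ) / nn l * (2 * (k1 q + 1))
      ≤ q * (2 * (La q + 1)) * (2 * (k1 q + 1)) := by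
    rw [← sum_mul]
    have : ∑ l ∈ (univ : Finset (ZMod q)).filter (fun l => l ≠ 0), (q:ℝ) / nn l
        = q * ∑ l ∈ (univ : Finset (ZMod q)).filter (fun l => l ≠ 0), (1:ℝ) / nn l := by
      rw [mul_sum]
      exact sum_congr rfl fun l _ => by rw [mul_one_div]
    rw [this]
    have h := sum_inv_nn (q := q) hq2
    gcongr
  have hk : (k1 q : ℝ) ≤ 88 * √(La q) := by
    unfold k1
    push_cast
    linarith
  have h4 : q * (2 * ((La q : ℝ) + 1)) * (2 * ((k1 q : ℝ) + 1)) ≤ q * (4 * La q) * (178 * √(La q)) := by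
    have a1 : 2 * ((La q : ℝ) + 1) ≤ 4 * La q := by linarith
    have a2 : 2 * ((k1 q : ℝ) + 1) ≤ 178 * √(La q) := by linarith
    gcongr
  have h5 : (q : ℝ) ≤ q * (La q * √(La q)) := by
    have : (1:ℝ) ≤ La q * √(La q) := by nlinarith
    nlinarith
  calc _ ≤ (q:ℝ) + q * (4 * La q) * (178 * √(La q)) := by linarith
    _ ≤ _ := by nlinarith

end Pool.Agent.H935R2.PS
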