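import Pool.Agent.H935R2.PS.Defs

set_option autoImplicit false

/-!
# Task G3: the main sum for line cells, zero patterns
-/

namespace Pool.Agent.H935R2.PS

open Finset

namespace G3

lemma G_zero {q : ℕ} [NeZero q] (c : ZMod q) (t : ℕ) : G c t 0 = t := by
  unfold G
  simp

lemma nn_zero {q : ℕ} : nn (0 : ZMod q) = 0 := by
  unfold nn
  simp

lemma norm_t {q t : ℕ} (h : t < q) : ‖(t : ℂ)‖ ≤ (q : ℝ) := by
  rw [Complex.norm_natCast]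
  exact_mod_cast h.le

open Classical in
lemma case_v2 {q : ℕ} [NeZero q] (c : Fin 3 → ZMod q) (t : Fin 3 → ℕ) (B : ℕ → ℕ → ℕ → Prop) :
    ∑ v ∈ (univ : Finset (Fin 3 → ZMod q)).filter (fun v => v 0 ≠ 0 ∧ v 1 ≠ 0 ∧ v 2 = 0 ∧
      B (Nat.log 2 (nn (v 0) / gv v)) (Nat.log 2 (nn (v 1) / gv v)) (Nat.log 2 (nn (v 2) / gv v))),
      G (c 0) (t 0) (v 0) * G (c 1) (t 1) (v 1) * G (c 2) (t 2) (v 2) =
    (∑ v ∈ (univ : Finset (ZMod q × ZMod q)).filter (fun v => v.1 ≠ 0 ∧ v.2 ≠ 0 ∧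
      B (Nat.log 2 (nn v.1 / Nat.gcd (nn v.1) (nn v.2))) (Nat.log 2 (nn v.2 / Nat.gcd (nn v.1) (nn v.2))) 0),
      G (c 0) (t 0) v.1 * G (c 1) (t 1) v.2) * (t 2 : ℂ) := by
  rw [Finset.sum_mul]
  have key : ∀ v : Fin 3 → ZMod q, v 2 = 0 → gv v = Nat.gcd (nn (v 0)) (nn (v 1)) := by
    intro v hv
    unfold gv
    rw [hv, nn_zero, Nat.gcd_zero_right]
  refine Finset.sum_bij' (fun v _ => (v 0, v 1)) (fun w _ => ![w.1, w.2, 0]) ?_ ?_ ?_ ?_ ?_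
  · intro v hv
    simp only [mem_filter, mem_univ, true_and] at hv ⊢
    obtain ⟨h0, h1, h2, h3⟩ := hv
    rw [key v h2, h2, nn_zero, Nat.zero_div, Nat.log_zero_right] at h3
    exact ⟨h0, h1, h3⟩
  · intro w hw
    simp only [mem_filter, mem_univ, true_and] at hw ⊢
    obtain ⟨h0, h1, h3⟩ := hw
    have h2 : (![w.1, w.2, 0] : Fin 3 → ZMod q) 2 = 0 := rfl
    refine ⟨h0, h1, h2, ?_⟩
    rw [key _ h2, h2, nn_zero, Nat.zero_div, Nat.log_zero_right]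
    exact h3
  · intro v hv
    simp only [mem_filter, mem_univ, true_and] at hv
    ext i
    fin_cases i
    · rfl
    · rfl
    · exact hv.2.2.1.symm
  · intro w hw
    rfl
  · intro v hv
    simp only [mem_filter, mem_univ, true_and] at hv
    rw [hv.2.2.1, G_zero]

open Classical in
lemma case_v0 {q : ℕ} [NeZero q] (c : Fin 3 → ZMod q) (t : Fin 3 → ℕ) (B : ℕ → ℕ → ℕ → Prop) :
    ∑ v ∈ (univ : Finset (Fin 3 → ZMod q)).filter (fun v => v 0 = 0 ∧ v 1 ≠ 0 ∧ v 2 ≠ 0 ∧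
      B (Nat.log 2 (nn (v 0) / gv v)) (Nat.log 2 (nn (v 1) / gv v)) (Nat.log 2 (nn (v 2) / gv v))),
      G (c 0) (t 0) (v 0) * G (c 1) (t 1) (v 1) * G (c 2) (t 2) (v 2) =
    (∑ v ∈ (univ : Finset (ZMod q × ZMod q)).filter (fun v => v.1 ≠ 0 ∧ v.2 ≠ 0 ∧
      B 0 (Nat.log 2 (nn v.1 / Nat.gcd (nn v.1) (nn v.2))) (Nat.log 2 (nn v.2 / Nat.gcd (nn v.1) (nn v.2)))),
      G (c 1) (t 1) v.1 * G (c 2) (t 2) v.2) * (t 0 : ℂ) := by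
  rw [Finset.sum_mul]
  have key : ∀ v : Fin 3 → ZMod q, v 0 = 0 → gv v = Nat.gcd (nn (v 1)) (nn (v 2)) := by
    intro v hv
    unfold gv
    rw [hv, nn_zero, Nat.gcd_zero_left]
  refine Finset.sum_bij' (fun v _ => (v 1, v 2)) (fun w _ => ![0, w.1, w.2]) ?_ ?_ ?_ ?_ ?_
  · intro v hv
    simp only [mem_filter, mem_univ, true_and] at hv ⊢
    obtain ⟨h0, h1, h2, h3⟩ := hv
    rw [key v h0, h0, nn_zero, Nat.zero_div, Nat.log_zero_right] at h3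
    exact ⟨h1, h2, h3⟩
  · intro w hw
    simp only [mem_filter, mem_univ, true_and] at hw ⊢
    obtain ⟨h0, h1, h3⟩ := hw
    have h2 : (![0, w.1, w.2] : Fin 3 → ZMod q) 0 = 0 := rfl
    refine ⟨h2, h0, h1, ?_⟩
    rw [key _ h2, h2, nn_zero, Nat.zero_div, Nat.log_zero_right]
    exact h3
  · intro v hv
    simp only [mem_filter, mem_univ, true_and] at hv
    ext i
    fin_cases i
    · exact hv.1.symm
    · rfl
    · rfl
  · intro w hw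
    rfl
  · intro v hv
    simp only [mem_filter, mem_univ, true_and] at hv
    rw [hv.1, G_zero]
    ring

open Classical in
/-- `main_line` from the statements of `main3` and `main2`. -/
theorem main_line_of
    (h3 : ∃ C : ℝ, 0 < C ∧ ∀ q : ℕ, ∀ hq : Fact q.Prime, 3 ≤ q →
      ∀ (c : Fin 3 → ZMod q) (t : Fin 3 → ℕ), (∀ j, t j < q) → ∀ B : ℕ → ℕ → ℕ → Prop,
      ‖∑ v ∈ (univ : Finset (Fin 3 → ZMod q)).filter (fun v => (∀ j, v j ≠ 0) ∧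
        B (Nat.log 2 (nn (v 0) / gv v)) (Nat.log 2 (nn (v 1) / gv v)) (Nat.log 2 (nn (v 2) / gv v))),
        G (c 0) (t 0) (v 0) * G (c 1) (t 1) (v 1) * G (c 2) (t 2) (v 2)‖ ≤ C * (q:ℝ) ^ 3)
    (h2 : ∃ C : ℝ, 0 < C ∧ ∀ q : ℕ, ∀ hq : Fact q.Prime, 3 ≤ q →
      ∀ (c c' : ZMod q) (t t' : ℕ), t < q → t' < q → ∀ B : ℕ → ℕ → Prop,
      ‖∑ v ∈ (univ : Finset (ZMod q × ZMod q)).filter (fun v => v.1 ≠ 0 ∧ v.2 ≠ 0 ∧
        B (Nat.log 2 (nn v.1 / Nat.gcd (nn v.1) (nn v.2))) (Nat.log 2 (nn v.2 / Nat.gcd (nn v.1) (nn v.2)))),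
        G c t v.1 * G c' t' v.2‖ ≤ C * (q:ℝ) ^ 2) :
    ∃ C : ℝ, 0 < C ∧ ∀ q : ℕ, ∀ hq : Fact q.Prime, 3 ≤ q →
    ∀ (c : Fin 3 → ZMod q) (t : Fin 3 → ℕ), (∀ j, t j < q) →
    ‖∑ v ∈ (univ : Finset (Fin 3 → ZMod q)).filter (fun v => v 1 ≠ 0 ∧ (v 0 ≠ 0 ∨ v 2 ≠ 0) ∧ LBdir v),
      G (c 0) (t 0) (v 0) * G (c 1) (t 1) (v 1) * G (c 2) (t 2) (v 2)‖ ≤ C * (q:ℝ) ^ 3 := by
  obtain ⟨C3, hC3, h3⟩ := h3
  obtain ⟨C2, hC2, h2⟩ := h2
  refine ⟨C3 + 2 * C2, by positivity, ?_⟩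
  intro q hq hq3 c t ht
  have e0 : (univ : Finset (Fin 3 → ZMod q)).filter (fun v => v 1 ≠ 0 ∧ (v 0 ≠ 0 ∨ v 2 ≠ 0) ∧ LBdir v) =
      (((univ : Finset (Fin 3 → ZMod q)).filter (fun v => (∀ j, v j ≠ 0) ∧
        LB q (Nat.log 2 (nn (v 0) / gv v)) (Nat.log 2 (nn (v 1) / gv v)) (Nat.log 2 (nn (v 2) / gv v)))) ∪
      ((univ : Finset (Fin 3 → ZMod q)).filter (fun v => v 0 ≠ 0 ∧ v 1 ≠ 0 ∧ v 2 = 0 ∧
        LB q (Nat.log 2 (nn (v 0) / gv v)) (Nat.log 2 (nn (v 1) / gv v)) (Nat.log 2 (nn (v 2) / gv v))))) ∪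
      ((univ : Finset (Fin 3 → ZMod q)).filter (fun v => v 0 = 0 ∧ v 1 ≠ 0 ∧ v 2 ≠ 0 ∧
        LB q (Nat.log 2 (nn (v 0) / gv v)) (Nat.log 2 (nn (v 1) / gv v)) (Nat.log 2 (nn (v 2) / gv v)))) := by
    ext v
    simp only [mem_filter, mem_univ, true_and, mem_union, LBdir, Fin.forall_fin_succ, Fin.isValue,
      Fin.succ_zero_eq_one, Fin.succ_one_eq_two, IsEmpty.forall_iff, and_true]
    by_cases a0 : v 0 = 0 <;> by_cases a1 : v 1 = 0 <;> by_cases a2 : v 2 = 0 <;> simp [a0, a1, a2]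
  have hd1 : Disjoint ((univ : Finset (Fin 3 → ZMod q)).filter (fun v => (∀ j, v j ≠ 0) ∧
        LB q (Nat.log 2 (nn (v 0) / gv v)) (Nat.log 2 (nn (v 1) / gv v)) (Nat.log 2 (nn (v 2) / gv v))))
      ((univ : Finset (Fin 3 → ZMod q)).filter (fun v => v 0 ≠ 0 ∧ v 1 ≠ 0 ∧ v 2 = 0 ∧
        LB q (Nat.log 2 (nn (v 0) / gv v)) (Nat.log 2 (nn (v 1) / gv v)) (Nat.log 2 (nn (v 2) / gv v)))) := by
    rw [Finset.disjoint_left]
    intro v hv hv'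
    simp only [mem_filter, mem_univ, true_and] at hv hv'
    exact hv.1 2 hv'.2.2.1
  have hd2 : Disjoint (((univ : Finset (Fin 3 → ZMod q)).filter (fun v => (∀ j, v j ≠ 0) ∧
        LB q (Nat.log 2 (nn (v 0) / gv v)) (Nat.log 2 (nn (v 1) / gv v)) (Nat.log 2 (nn (v 2) / gv v)))) ∪
      ((univ : Finset (Fin 3 → ZMod q)).filter (fun v => v 0 ≠ 0 ∧ v 1 ≠ 0 ∧ v 2 = 0 ∧
        LB q (Nat.log 2 (nn (v 0) / gv v)) (Nat.log 2 (nn (v 1) / gv v)) (Nat.log 2 (nn (v 2) / gv v)))))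
      ((univ : Finset (Fin 3 → ZMod q)).filter (fun v => v 0 = 0 ∧ v 1 ≠ 0 ∧ v 2 ≠ 0 ∧
        LB q (Nat.log 2 (nn (v 0) / gv v)) (Nat.log 2 (nn (v 1) / gv v)) (Nat.log 2 (nn (v 2) / gv v)))) := by
    rw [Finset.disjoint_left]
    intro v hv hv'
    simp only [mem_filter, mem_univ, true_and, mem_union] at hv hv'
    rcases hv with hv | hv
    · exact hv.1 0 hv'.1
    · exact hv.1 hv'.1
  rw [e0, Finset.sum_union hd2, Finset.sum_union hd1, case_v2 c t (LB q), case_v0 c t (LB q)]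
  have b3 := h3 q hq hq3 c t ht (LB q)
  have b2 := h2 q hq hq3 (c 0) (c 1) (t 0) (t 1) (ht 0) (ht 1) (fun x y => LB q x y 0)
  have b0 := h2 q hq hq3 (c 1) (c 2) (t 1) (t 2) (ht 1) (ht 2) (fun x y => LB q 0 x y)
  have n2 := norm_t (ht 2)
  have n0 := norm_t (ht 0)
  refine (norm_add_le _ _).trans ?_
  refine (add_le_add_left (norm_add_le _ _) _).trans ?_
  rw [norm_mul, norm_mul]
  have m2 := mul_le_mul b2 n2 (norm_nonneg _) (by positivity)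
  have m0 := mul_le_mul b0 n0 (norm_nonneg _) (by positivity)
  calc _ ≤ C3 * (q:ℝ) ^ 3 + C2 * (q:ℝ) ^ 2 * q + C2 * (q:ℝ) ^ 2 * q := by
        gcongr
    _ = (C3 + 2 * C2) * (q:ℝ) ^ 3 := by ring

end G3

end Pool.Agent.H935R2.PS
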