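import Pool.Agent.H935R2.PS.A1
import Pool.Agent.H935R2.PS.E5

set_option autoImplicit false

/-!
# Task G4: non parallel bad vectors for lines (helper268)
-/

namespace Pool.Agent.H935R2.PS

open Finset

namespace G4

open Classical in
lemma card_dl_eq {q : ℕ} [NeZero q] (b : ℕ) :
    ((univ : Finset (ZMod q)).filter (fun x => dl x = b)).card ≤ 2 ^ (b + 2) := by
  have h1 := card_dl (q := q) b
  have h2 : (univ : Finset (ZMod q)).filter (fun x => dl x = b) ⊆
      insert 0 ((univ : Finset (ZMod q)).filter (fun x => x ≠ 0 ∧ dl x = b)) := by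
    intro x hx
    simp only [mem_filter, mem_univ, true_and, mem_insert] at hx ⊢
    by_cases h : x = 0
    · left; exact h
    · right; exact ⟨h, hx⟩
  have h3 := Finset.card_le_card h2
  have h4 := Finset.card_insert_le (0 : ZMod q)
    ((univ : Finset (ZMod q)).filter (fun x => x ≠ 0 ∧ dl x = b))
  have h5 : 1 ≤ 2 ^ (b + 1) := Nat.one_le_two_pow
  have h6 : 2 ^ (b + 2) = 2 ^ (b + 1) + 2 ^ (b + 1) := by ring
  omega

/-- `{v' : LB(dl v'_0, dl v'_1, dl v'_2)}` -/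
noncomputable def Lset (q : ℕ) [NeZero q] : Finset (Fin 3 → ZMod q) := by
  classical exact univ.filter (fun v => LB q (dl (v 0)) (dl (v 1)) (dl (v 2)))

lemma mem_Lset {q : ℕ} [NeZero q] (v : Fin 3 → ZMod q) :
    v ∈ Lset q ↔ LB q (dl (v 0)) (dl (v 1)) (dl (v 2)) := by
  classical
  unfold Lset
  rw [mem_filter]
  exact ⟨fun h => h.2, fun h => ⟨mem_univ _, h⟩⟩

lemma card_Lset {q : ℕ} [NeZero q] :
    (Lset q).card * 2 ^ k1 q ≤ (La q + 1) ^ 3 * 2 ^ (La q + 6) := by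
  classical
  have hmap : ∀ v ∈ Lset q, (fun j => dl (v j)) ∈ Fintype.piFinset (fun _ : Fin 3 => range (La q + 1)) := by
    intro v _
    rw [Fintype.mem_piFinset]
    intro j
    rw [mem_range]
    have := dl_le (v j)
    omega
  rw [Finset.card_eq_sum_card_fiberwise (f := fun v : Fin 3 → ZMod q => fun j => dl (v j))
    (t := Fintype.piFinset (fun _ : Fin 3 => range (La q + 1))) hmap, Finset.sum_mul]
  have hfib : ∀ b ∈ Fintype.piFinset (fun _ : Fin 3 => range (La q + 1)),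
      ((Lset q).filter (fun v => (fun j => dl (v j)) = b)).card * 2 ^ k1 q ≤ 2 ^ (La q + 6) := by
    intro b _
    rcases ((Lset q).filter (fun v => (fun j => dl (v j)) = b)).eq_empty_or_nonempty with h0 | h0
    · rw [h0]; simp
    obtain ⟨v0, hv0⟩ := h0
    rw [mem_filter, mem_Lset] at hv0
    obtain ⟨hv, hb⟩ := hv0
    have hb' : ∀ j, dl (v0 j) = b j := fun j => congrFun hb j
    rw [hb', hb', hb'] at hv
    unfold LB at hv
    have hsub : (Lset q).filter (fun v => (fun j => dl (v j)) = b) ⊆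
        Fintype.piFinset (fun j => (univ : Finset (ZMod q)).filter (fun x => dl x = b j)) := by
      intro v hv
      rw [mem_filter] at hv
      rw [Fintype.mem_piFinset]
      intro j
      rw [mem_filter]
      exact ⟨mem_univ _, congrFun hv.2 j⟩
    have h1 := Finset.card_le_card hsub
    rw [Fintype.card_piFinset] at h1
    have h2 : ∏ j, ((univ : Finset (ZMod q)).filter (fun x => dl x = b j)).card ≤
        ∏ j, 2 ^ (b j + 2) := Finset.prod_le_prod' (fun j _ => card_dl_eq (b j))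
    have h3 : ∏ j : Fin 3, 2 ^ (b j + 2) = 2 ^ (b 0 + 2 + (b 1 + 2) + (b 2 + 2)) := by
      rw [Fin.prod_univ_three, ← pow_add, ← pow_add]
    rw [h3] at h2
    calc ((Lset q).filter (fun v => (fun j => dl (v j)) = b)).card * 2 ^ k1 q
        ≤ 2 ^ (b 0 + 2 + (b 1 + 2) + (b 2 + 2)) * 2 ^ k1 q := by
          apply Nat.mul_le_mul_right
          exact h1.trans h2
      _ = 2 ^ (b 0 + 2 + (b 1 + 2) + (b 2 + 2) + k1 q) := by rw [← pow_add]
      _ ≤ 2 ^ (La q + 6) := Nat.pow_le_pow_right (by norm_num) (by omega)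
  refine (Finset.sum_le_sum hfib).trans ?_
  rw [Finset.sum_const, smul_eq_mul, Fintype.card_piFinset]
  simp

/-- the weight -/
noncomputable def wt {q : ℕ} (v : Fin 3 → ZMod q) : ℝ := 1 / (mx (v 0) * mx (v 1) * mx (v 2))

lemma one_le_mx {q : ℕ} (x : ZMod q) : 1 ≤ mx x := le_max_left _ _

lemma wt_nonneg {q : ℕ} (v : Fin 3 → ZMod q) : 0 ≤ wt v := by
  have h0 := one_le_mx (v 0)
  have h1 := one_le_mx (v 1)
  have h2 := one_le_mx (v 2)
  unfold wt
  positivity

lemma two_pow_le_mx {q : ℕ} [NeZero q] (x : ZMod q) : (2:ℝ) ^ dl x ≤ mx x := by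
  by_cases hx : x = 0
  · subst hx
    have : dl (0 : ZMod q) = 0 := by simp [dl, nn]
    rw [this, pow_zero]
    exact one_le_mx _
  · refine le_trans ?_ (le_max_right _ _)
    exact_mod_cast two_pow_dl_le x hx

lemma wt_le {q : ℕ} [NeZero q] (v : Fin 3 → ZMod q) :
    wt v ≤ 1 / (2 ^ dl (v 0) * 2 ^ dl (v 1) * 2 ^ dl (v 2)) := by
  unfold wt
  apply one_div_le_one_div_of_le (by positivity)
  have h0 := two_pow_le_mx (v 0)
  have h1 := two_pow_le_mx (v 1)
  have h2 := two_pow_le_mx (v 2)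
  have p0 : (0:ℝ) ≤ mx (v 0) := le_trans (by positivity) h0
  have p1 : (0:ℝ) ≤ mx (v 1) := le_trans (by positivity) h1
  exact mul_le_mul (mul_le_mul h0 h1 (by positivity) p0) h2 (by positivity) (mul_nonneg p0 p1)

lemma sum_wt {q : ℕ} [NeZero q] (hq : 2 ≤ q) :
    ∑ v : Fin 3 → ZMod q, wt v ≤ (3 * ((La q : ℝ) + 1)) ^ 3 := by
  classical
  have h1 : ∑ v : Fin 3 → ZMod q, wt v = ∏ _j : Fin 3, ∑ x : ZMod q, (1:ℝ) / mx x := by
    rw [Finset.prod_univ_sum, Fintype.piFinset_univ]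
    apply Finset.sum_congr rfl
    intro v _
    rw [Fin.prod_univ_three]
    unfold wt
    rw [div_mul_div_comm, div_mul_div_comm, one_mul, one_mul]
  rw [h1, Finset.prod_const, Finset.card_univ, Fintype.card_fin]
  apply pow_le_pow_left₀
  · apply Finset.sum_nonneg
    intro x _
    have := one_le_mx x
    positivity
  · exact sum_inv_mx hq

/-- parallel vectors: `v` is directly bad -/
lemma par_LBdir {q : ℕ} [NeZero q] {v v' : Fin 3 → ZMod q} (hpar : Par v v') (h1 : v 1 ≠ 0)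
    (h1' : v' 1 ≠ 0) (hLB : LB q (dl (v' 0)) (dl (v' 1)) (dl (v' 2))) : LBdir v := by
  -- the primitive vector
  have key : ∀ j, nn (v j) / gv v ≤ nn (v' j) := by
    have hz1 : (v 1).valMinAbs ≠ 0 := by
      intro h
      apply h1
      rw [← nn_eq_zero]
      simp [nn, h]
    have hz1' : (v' 1).valMinAbs ≠ 0 := by
      intro h
      apply h1'
      rw [← nn_eq_zero]
      simp [nn, h]
    -- Bezout
    obtain ⟨a, b, hab⟩ : ∃ a b : ℤ, (Nat.gcd (nn (v 1)) (nn (v 2)) : ℤ) =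
        a * (v 1).valMinAbs + b * (v 2).valMinAbs := by
      refine ⟨Int.gcdA (v 1).valMinAbs (v 2).valMinAbs, Int.gcdB (v 1).valMinAbs (v 2).valMinAbs, ?_⟩
      have := Int.gcd_eq_gcd_ab (v 1).valMinAbs (v 2).valMinAbs
      unfold nn
      rw [Int.gcd] at this
      rw [this]
      ring
    obtain ⟨c, d, hcd⟩ : ∃ c d : ℤ, (gv v : ℤ) =
        c * (v 0).valMinAbs + d * (Nat.gcd (nn (v 1)) (nn (v 2)) : ℤ) := by
      refine ⟨Int.gcdA (v 0).valMinAbs (Nat.gcd (nn (v 1)) (nn (v 2)) : ℤ),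
        Int.gcdB (v 0).valMinAbs (Nat.gcd (nn (v 1)) (nn (v 2)) : ℤ), ?_⟩
      have := Int.gcd_eq_gcd_ab (v 0).valMinAbs (Nat.gcd (nn (v 1)) (nn (v 2)) : ℤ)
      unfold gv nn
      rw [Int.gcd] at this
      unfold nn at this
      rw [Int.natAbs_natCast] at this
      rw [this]
      ring
    set m : ℤ := c * (v' 0).valMinAbs + d * (a * (v' 1).valMinAbs + b * (v' 2).valMinAbs) with hm
    -- gv v * z'_j = m * z_j
    have hrel : ∀ j, (gv v : ℤ) * (v' j).valMinAbs = m * (v j).valMinAbs := by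
      intro j
      rw [hcd, hab, hm]
      have e0 := hpar 0 j
      have e1 := hpar 1 j
      have e2 := hpar 2 j
      linear_combination c * e0 + d * a * e1 + d * b * e2
    have hg0 : 0 < gv v := by
      unfold gv
      apply Nat.gcd_pos_of_pos_right
      apply Nat.gcd_pos_of_pos_left
      unfold nn
      exact Int.natAbs_pos.2 hz1
    have hm0 : m ≠ 0 := by
      intro h
      have := hrel 1
      rw [h, zero_mul] at this
      rcases mul_eq_zero.1 this with h | h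
      · have : (gv v : ℤ) ≠ 0 := by exact_mod_cast hg0.ne'
        exact this h
      · exact hz1' h
    intro j
    have h2 : gv v * nn (v' j) = m.natAbs * nn (v j) := by
      have := congrArg Int.natAbs (hrel j)
      rw [Int.natAbs_mul, Int.natAbs_mul, Int.natAbs_natCast] at this
      exact this
    have h3 : 1 ≤ m.natAbs := Int.natAbs_pos.2 hm0
    apply Nat.div_le_of_le_mul
    rw [h2]
    exact Nat.le_mul_of_pos_left _ h3
  unfold LBdir LB
  unfold LB at hLB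
  have l0 : Nat.log 2 (nn (v 0) / gv v) ≤ dl (v' 0) := Nat.log_mono_right (key 0)
  have l1 : Nat.log 2 (nn (v 1) / gv v) ≤ dl (v' 1) := Nat.log_mono_right (key 1)
  have l2 : Nat.log 2 (nn (v 2) / gv v) ≤ dl (v' 2) := Nat.log_mono_right (key 2)
  omega

/-- not directly bad vectors are large -/
lemma not_LBdir {q : ℕ} {v : Fin 3 → ZMod q} (h : ¬ LBdir v) :
    La q ≤ dl (v 0) + dl (v 1) + dl (v 2) + k1 q := by
  unfold LBdir LB at h
  have l0 : Nat.log 2 (nn (v 0) / gv v) ≤ dl (v 0) := Nat.log_mono_right (Nat.div_le_self _ _)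
  have l1 : Nat.log 2 (nn (v 1) / gv v) ≤ dl (v 1) := Nat.log_mono_right (Nat.div_le_self _ _)
  have l2 : Nat.log 2 (nn (v 2) / gv v) ≤ dl (v 2) := Nat.log_mono_right (Nat.div_le_self _ _)
  omega

/-- two nonzero coordinates -/
lemma classB {q : ℕ} [Fact q.Prime] (hs : Suit q) (Q : Finset (ZMod q × (Fin 3 → ZMod q)))
    (i j : Fin 3) (hinj : ∀ p ∈ Q, ∀ p' ∈ Q, p.1 = p'.1 → p.2 i = p'.2 i → p.2 j = p'.2 j → p = p')
    (h : ∀ p ∈ Q, p.1 ≠ 0 ∧ p.2 i ≠ 0 ∧ p.2 j ≠ 0 ∧ ¬ par2 p.1 (p.2 i) (p.2 j) ∧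
      dl (p.1 * p.2 i) + dl (p.1 * p.2 j) + k1 q < La q) :
    ∑ p ∈ Q, (1:ℝ) / (2 ^ dl (p.2 i) * 2 ^ dl (p.2 j)) ≤ 1 := by
  classical
  have hq0 : (0:ℝ) < q := by exact_mod_cast (Fact.out : q.Prime).pos
  set R := (range (La q + 1)) ×ˢ (range (La q + 1)) ×ˢ (range (La q + 1)) ×ˢ (range (La q + 1)) with hR
  set φ : ZMod q × (Fin 3 → ZMod q) → ℕ × ℕ × ℕ × ℕ := fun p =>
    (dl (p.2 i), dl (p.2 j), dl (p.1 * p.2 i), dl (p.1 * p.2 j)) with hφ
  have hmap : ∀ p ∈ Q, φ p ∈ R := by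
    intro p _
    simp only [hφ, hR, mem_product, mem_range]
    have a1 := dl_le (p.2 i)
    have a2 := dl_le (p.2 j)
    have a3 := dl_le (p.1 * p.2 i)
    have a4 := dl_le (p.1 * p.2 j)
    omega
  rw [← Finset.sum_fiberwise_of_maps_to hmap]
  have hfib : ∀ β ∈ R, ∑ p ∈ Q.filter (fun p => φ p = β), (1:ℝ) / (2 ^ dl (p.2 i) * 2 ^ dl (p.2 j)) ≤
      2 ^ (7 * uu q) / 2 ^ (44 * uu q) := by
    rintro ⟨b0, b1, b0', b1'⟩ _
    rcases (Q.filter (fun p => φ p = (b0, b1, b0', b1'))).eq_empty_or_nonempty with h0 | h0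
    · rw [h0, Finset.sum_empty]; positivity
    obtain ⟨p0, hp0⟩ := h0
    rw [mem_filter] at hp0
    obtain ⟨hp0, e0⟩ := hp0
    simp only [hφ, Prod.mk.injEq] at e0
    obtain ⟨f1, f2, f3, f4⟩ := e0
    have hp0' := (h p0 hp0).2.2.2.2
    rw [f3, f4] at hp0'
    have hl0 := dl_le (p0.2 i)
    have hl1 := dl_le (p0.2 j)
    rw [f1] at hl0
    rw [f2] at hl1
    have hconst : ∀ p ∈ Q.filter (fun p => φ p = (b0, b1, b0', b1')),
        (1:ℝ) / (2 ^ dl (p.2 i) * 2 ^ dl (p.2 j)) = 1 / (2 ^ b0 * 2 ^ b1) := by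
      intro p hp
      rw [mem_filter] at hp
      have := hp.2
      simp only [hφ, Prod.mk.injEq] at this
      rw [this.1, this.2.1]
    rw [Finset.sum_congr rfl hconst, Finset.sum_const, nsmul_eq_mul]
    -- the cardinality
    have hb2 := npb2 hs ![b0, b1] ![b0', b1']
      (by intro l; fin_cases l <;> simp <;> omega) (by intro l; fin_cases l <;> simp <;> omega)
    simp only [Matrix.cons_val_zero, Matrix.cons_val_one] at hb2
    have hcard : (Q.filter (fun p => φ p = (b0, b1, b0', b1'))).card ≤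
        ((univ : Finset (ZMod q × ZMod q × ZMod q)).filter (fun p => p.1 ≠ 0 ∧ p.2.1 ≠ 0 ∧ p.2.2 ≠ 0 ∧
      dl p.2.1 = b0 ∧ dl p.2.2 = b1 ∧ dl (p.1 * p.2.1) = b0' ∧ dl (p.1 * p.2.2) = b1' ∧
      ¬ par2 p.1 p.2.1 p.2.2)).card := by
      apply Finset.card_le_card_of_injOn (fun p => (p.1, p.2 i, p.2 j))
      · intro p hp
        rw [Finset.mem_coe, mem_filter] at hp
        obtain ⟨hp, e⟩ := hp
        simp only [hφ, Prod.mk.injEq] at e
        obtain ⟨k1', k2', k3', k4', -⟩ := h p hp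
        rw [Finset.mem_coe, mem_filter]
        exact ⟨mem_univ _, k1', k2', k3', e.1, e.2.1, e.2.2.1, e.2.2.2, k4'⟩
      · intro p hp p' hp' e
        rw [Finset.mem_coe, mem_filter] at hp hp'
        simp only [Prod.mk.injEq] at e
        exact hinj p hp.1 p' hp'.1 e.1 e.2.1 e.2.2
    have hcard' : ((Q.filter (fun p => φ p = (b0, b1, b0', b1'))).card : ℝ) * q ≤
        2 ^ (7 * uu q) * 2 ^ (b0 + b1 + b0' + b1') := by
      refine le_trans ?_ hb2
      apply mul_le_mul_of_nonneg_right _ hq0.le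
      exact_mod_cast hcard
    have hqLa : (2:ℝ) ^ La q ≤ q := by exact_mod_cast La_le (q := q)
    have hpow : (2:ℝ) ^ (b0' + b1') * 2 ^ (44 * uu q) ≤ q := by
      refine le_trans ?_ hqLa
      rw [← pow_add]
      apply pow_le_pow_right₀ (by norm_num)
      have : k1 q = 44 * uu q := rfl
      omega
    rw [mul_one_div, div_le_div_iff₀ (by positivity) (by positivity)]
    have h3 : ((Q.filter (fun p => φ p = (b0, b1, b0', b1'))).card : ℝ) * 2 ^ (44 * uu q) * q ≤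
        2 ^ (7 * uu q) * (2 ^ b0 * 2 ^ b1) * q := by
      calc ((Q.filter (fun p => φ p = (b0, b1, b0', b1'))).card : ℝ) * 2 ^ (44 * uu q) * q
          = (((Q.filter (fun p => φ p = (b0, b1, b0', b1'))).card : ℝ) * q) * 2 ^ (44 * uu q) := by ring
        _ ≤ (2 ^ (7 * uu q) * 2 ^ (b0 + b1 + b0' + b1')) * 2 ^ (44 * uu q) :=
            mul_le_mul_of_nonneg_right hcard' (by positivity)
        _ = 2 ^ (7 * uu q) * (2 ^ b0 * 2 ^ b1) * (2 ^ (b0' + b1') * 2 ^ (44 * uu q)) := by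
            rw [pow_add, pow_add, pow_add, pow_add]; ring
        _ ≤ 2 ^ (7 * uu q) * (2 ^ b0 * 2 ^ b1) * q := mul_le_mul_of_nonneg_left hpow (by positivity)
    exact le_of_mul_le_mul_right h3 hq0
  refine (Finset.sum_le_sum hfib).trans ?_
  rw [Finset.sum_const, nsmul_eq_mul, hR, Finset.card_product, Finset.card_product,
    Finset.card_product, Finset.card_range]
  have hLu : ((La q : ℝ) + 1) ≤ 2 ^ uu q := by exact_mod_cast La_lt_uu q
  push_cast
  rw [mul_div_assoc', div_le_one (by positivity)]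
  calc ((La q : ℝ) + 1) * (((La q : ℝ) + 1) * (((La q : ℝ) + 1) * ((La q : ℝ) + 1))) * 2 ^ (7 * uu q)
      ≤ 2 ^ uu q * (2 ^ uu q * (2 ^ uu q * 2 ^ uu q)) * 2 ^ (7 * uu q) := by gcongr
    _ = 2 ^ (11 * uu q) := by rw [← pow_add, ← pow_add, ← pow_add, ← pow_add]; congr 1; ring
    _ ≤ 2 ^ (44 * uu q) := pow_le_pow_right₀ (by norm_num) (by omega)


lemma mem_NPs {q : ℕ} [NeZero q] {b b' : Fin 3 → ℕ} {P : ZMod q → (Fin 3 → ZMod q) → Prop}
    {p : ZMod q × (Fin 3 → ZMod q)} (h1 : p.1 ≠ 0)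
    (h2 : ∀ j, p.2 j ≠ 0 ∧ dl (p.2 j) = b j ∧ dl (p.1 * p.2 j) = b' j) (h3 : P p.1 p.2) :
    p ∈ NPs b b' P := by
  simp only [NPs, mem_filter, mem_univ, true_and]
  exact ⟨h1, h2, h3⟩

/-- three nonzero coordinates -/
lemma classA {q : ℕ} [Fact q.Prime]
    (hnpb : ∀ b b' : Fin 3 → ℕ, (∀ j, b j ≤ La q) → (∀ j, b' j ≤ La q) →
      ((NPs b b' (fun (c : ZMod q) v => ¬ Par v (fun j => c * v j))).card : ℝ) ≤
      2 ^ (15 * uu q) * (2 ^ (∑ l, b l) * 2 ^ (∑ l, b' l) / (q:ℝ) ^ 2 +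
        ∑ k, √(2 ^ (∑ l, b l) * 2 ^ (∑ l, b' l)) * √(2 ^ (b k + b' k)) / q +
        √(2 ^ (∑ l, b l) * 2 ^ (∑ l, b' l)) / √q))
    (hbig : (2:ℝ) ^ (44 * uu q) ≤ q) (Q : Finset (ZMod q × (Fin 3 → ZMod q)))
    (h : ∀ p ∈ Q, p.1 ≠ 0 ∧ (∀ j, p.2 j ≠ 0) ∧ ¬ Par p.2 (fun j => p.1 * p.2 j) ∧
      dl (p.1 * p.2 0) + dl (p.1 * p.2 1) + dl (p.1 * p.2 2) + k1 q < La q ∧
      La q ≤ dl (p.2 0) + dl (p.2 1) + dl (p.2 2) + k1 q) :
    ∑ p ∈ Q, (1:ℝ) / (2 ^ dl (p.2 0) * 2 ^ dl (p.2 1) * 2 ^ dl (p.2 2)) ≤ 5 := by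
  classical
  have hq0 : (0:ℝ) < q := by exact_mod_cast (Fact.out : q.Prime).pos
  set E : ℝ := 2 ^ (22 * uu q) with hE
  have hE0 : 0 < E := by positivity
  have hE1 : 1 ≤ E := one_le_pow₀ (by norm_num)
  have hEE : E * E = 2 ^ (44 * uu q) := by rw [hE, ← pow_add]; congr 1; ring
  have hEq : E ≤ q := by nlinarith
  have hqLa : (2:ℝ) ^ La q ≤ q := by exact_mod_cast La_le (q := q)
  have hk1 : k1 q = 44 * uu q := rfl
  set R := (Fintype.piFinset (fun _ : Fin 3 => range (La q + 1))) ×ˢ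
    (Fintype.piFinset (fun _ : Fin 3 => range (La q + 1))) with hR
  set φ : ZMod q × (Fin 3 → ZMod q) → (Fin 3 → ℕ) × (Fin 3 → ℕ) := fun p =>
    (fun j => dl (p.2 j), fun j => dl (p.1 * p.2 j)) with hφ
  have hmap : ∀ p ∈ Q, φ p ∈ R := by
    intro p _
    simp only [hφ, hR, mem_product, Fintype.mem_piFinset, mem_range]
    refine ⟨fun j => ?_, fun j => ?_⟩
    · have := dl_le (p.2 j)
      omega
    · have := dl_le (p.1 * p.2 j)
      omega
  rw [← Finset.sum_fiberwise_of_maps_to hmap]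
  have hfib : ∀ β ∈ R, ∑ p ∈ Q.filter (fun p => φ p = β),
      (1:ℝ) / (2 ^ dl (p.2 0) * 2 ^ dl (p.2 1) * 2 ^ dl (p.2 2)) ≤ 2 ^ (15 * uu q) * 5 / E := by
    rintro ⟨b, b'⟩ _
    rcases (Q.filter (fun p => φ p = (b, b'))).eq_empty_or_nonempty with h0 | h0
    · rw [h0, Finset.sum_empty]; positivity
    obtain ⟨p0, hp0⟩ := h0
    rw [mem_filter] at hp0
    obtain ⟨hp0, e0⟩ := hp0
    simp only [hφ, Prod.mk.injEq] at e0
    obtain ⟨f1, f2⟩ := e0
    have f1' : ∀ j, dl (p0.2 j) = b j := fun j => congrFun f1 j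
    have f2' : ∀ j, dl (p0.1 * p0.2 j) = b' j := fun j => congrFun f2 j
    obtain ⟨-, -, -, hs1, hs2⟩ := h p0 hp0
    rw [f2', f2', f2'] at hs1
    rw [f1', f1', f1'] at hs2
    have hb : ∀ j, b j ≤ La q := fun j => by rw [← f1' j]; exact dl_le _
    have hb' : ∀ j, b' j ≤ La q := fun j => by rw [← f2' j]; exact dl_le _
    have hconst : ∀ p ∈ Q.filter (fun p => φ p = (b, b')),
        (1:ℝ) / (2 ^ dl (p.2 0) * 2 ^ dl (p.2 1) * 2 ^ dl (p.2 2)) = 1 / 2 ^ (∑ l, b l) := by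
      intro p hp
      rw [mem_filter] at hp
      have := hp.2
      simp only [hφ, Prod.mk.injEq] at this
      have g1 : ∀ j, dl (p.2 j) = b j := fun j => congrFun this.1 j
      rw [g1, g1, g1, Fin.sum_univ_three, pow_add, pow_add]
    rw [Finset.sum_congr rfl hconst, Finset.sum_const, nsmul_eq_mul]
    have hcard : (Q.filter (fun p => φ p = (b, b'))).card ≤
        (NPs b b' (fun (c : ZMod q) v => ¬ Par v (fun j => c * v j))).card := by
      apply Finset.card_le_card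
      intro p hp
      rw [mem_filter] at hp
      obtain ⟨hp, e⟩ := hp
      simp only [hφ, Prod.mk.injEq] at e
      obtain ⟨t1, t2, t3, -⟩ := h p hp
      exact mem_NPs t1 (fun j => ⟨t2 j, congrFun e.1 j, congrFun e.2 j⟩) t3
    have hN := hnpb b b' hb hb'
    set N : ℝ := ((NPs b b' (fun (c : ZMod q) v => ¬ Par v (fun j => c * v j))).card : ℝ) with hNdef
    set B : ℝ := 2 ^ (∑ l, b l) with hB
    set B' : ℝ := 2 ^ (∑ l, b' l) with hB'
    have hB0 : 0 < B := by positivity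
    have hB0' : 0 < B' := by positivity
    have hBB : B' ≤ B := by
      apply pow_le_pow_right₀ (by norm_num)
      rw [Fin.sum_univ_three, Fin.sum_univ_three]
      omega
    have hB'q : B' ≤ q := by
      refine le_trans ?_ hqLa
      apply pow_le_pow_right₀ (by norm_num)
      rw [Fin.sum_univ_three]
      omega
    have hsq : √(B * B') ≤ B := by
      rw [Real.sqrt_le_left hB0.le]
      nlinarith
    have t1 : B * B' / (q:ℝ) ^ 2 ≤ B / E := by
      rw [div_le_div_iff₀ (by positivity) hE0]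
      have : B' * E ≤ q * q := mul_le_mul hB'q hEq hE0.le hq0.le
      nlinarith
    have t2 : ∀ k, √(B * B') * √(2 ^ (b k + b' k)) / q ≤ B / E := by
      intro k
      have a1 : √((2:ℝ) ^ (b k + b' k)) ≤ q / E := by
        rw [Real.sqrt_le_left (by positivity), div_pow, le_div_iff₀ (by positivity)]
        have a2 : (2:ℝ) ^ b k ≤ q := le_trans (pow_le_pow_right₀ (by norm_num) (hb k)) hqLa
        have a3 : (2:ℝ) ^ b' k * E ^ 2 ≤ q := by
          rw [sq, hEE, ← pow_add]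
          refine le_trans ?_ hqLa
          apply pow_le_pow_right₀ (by norm_num)
          have : b' k ≤ b' 0 + b' 1 + b' 2 := by
            fin_cases k <;> simp <;> omega
          omega
        calc (2:ℝ) ^ (b k + b' k) * E ^ 2 = 2 ^ b k * (2 ^ b' k * E ^ 2) := by rw [pow_add]; ring
          _ ≤ (q:ℝ) * q := mul_le_mul a2 a3 (by positivity) hq0.le
          _ = (q:ℝ) ^ 2 := by ring
      rw [div_le_div_iff₀ hq0 hE0]
      have a4 : √(B * B') * √((2:ℝ) ^ (b k + b' k)) ≤ B * (q / E) :=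
        mul_le_mul hsq a1 (Real.sqrt_nonneg _) hB0.le
      calc √(B * B') * √((2:ℝ) ^ (b k + b' k)) * E ≤ B * (q / E) * E :=
            mul_le_mul_of_nonneg_right a4 hE0.le
        _ = B * q := by field_simp
    have t3 : √(B * B') / √q ≤ B / E := by
      have a1 : E ≤ √q := by
        rw [Real.le_sqrt hE0.le hq0.le, sq, hEE]
        exact hbig
      have a2 : 0 < √(q:ℝ) := Real.sqrt_pos.2 hq0
      rw [div_le_div_iff₀ a2 hE0]
      exact mul_le_mul hsq a1 hE0.le hB0.le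
    have hsum : N ≤ 2 ^ (15 * uu q) * (5 * (B / E)) := by
      refine hN.trans ?_
      apply mul_le_mul_of_nonneg_left _ (by positivity)
      rw [Fin.sum_univ_three]
      have := t2 0
      have := t2 1
      have := t2 2
      linarith
    have hc' : ((Q.filter (fun p => φ p = (b, b'))).card : ℝ) ≤ N := by
      rw [hNdef]; exact_mod_cast hcard
    rw [mul_one_div, div_le_iff₀ hB0]
    calc ((Q.filter (fun p => φ p = (b, b'))).card : ℝ) ≤ N := hc'
      _ ≤ 2 ^ (15 * uu q) * (5 * (B / E)) := hsum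
      _ = 2 ^ (15 * uu q) * 5 / E * B := by ring
  refine (Finset.sum_le_sum hfib).trans ?_
  rw [Finset.sum_const, nsmul_eq_mul, hR, Finset.card_product, Fintype.card_piFinset,
    Finset.prod_const, Finset.card_range, Finset.card_univ, Fintype.card_fin]
  have hLu : ((La q : ℝ) + 1) ≤ 2 ^ uu q := by exact_mod_cast La_lt_uu q
  push_cast
  rw [mul_div_assoc', div_le_iff₀ hE0]
  calc ((La q : ℝ) + 1) ^ 3 * ((La q : ℝ) + 1) ^ 3 * (2 ^ (15 * uu q) * 5)
      ≤ (2 ^ uu q) ^ 3 * (2 ^ uu q) ^ 3 * (2 ^ (15 * uu q) * 5) := by gcongr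
    _ = 5 * 2 ^ (21 * uu q) := by
        rw [← pow_mul]
        have : (2:ℝ) ^ (21 * uu q) = 2 ^ (uu q * 3) * 2 ^ (uu q * 3) * 2 ^ (15 * uu q) := by
          rw [← pow_add, ← pow_add]; congr 1; ring
        rw [this]; ring
    _ ≤ 5 * E := by
        apply mul_le_mul_of_nonneg_left _ (by norm_num)
        exact pow_le_pow_right₀ (by norm_num) (by omega)

/-- `q` is large -/
lemma exists_big : ∃ q₀ : ℕ, ∀ q : ℕ, q₀ ≤ q → (2:ℝ) ^ (44 * uu q) ≤ q := by
  have h := tendsto_pow_const_div_const_pow_of_one_lt 44 (r := (2:ℝ)) (by norm_num)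
  have h1 : ∀ᶠ n : ℕ in Filter.atTop, (n:ℝ) ^ 44 / 2 ^ n < 1 / 2 ^ 44 :=
    h.eventually (gt_mem_nhds (by positivity))
  obtain ⟨L, hL⟩ := Filter.eventually_atTop.1 h1
  refine ⟨2 ^ (L + 1), ?_⟩
  intro q hq
  have hq2 : 2 ≤ q := by
    calc 2 = 2 ^ 1 := rfl
      _ ≤ 2 ^ (L + 1) := Nat.pow_le_pow_right (by norm_num) (by omega)
      _ ≤ q := hq
  have : NeZero q := ⟨by omega⟩
  have hLq : L ≤ La q := by
    unfold La
    have := Nat.log_mono_right (b := 2) hq
    rw [Nat.log_pow (by norm_num)] at this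
    omega
  have h2 := hL (La q) hLq
  rw [div_lt_div_iff₀ (by positivity) (by positivity), one_mul, ← mul_pow] at h2
  have h3 : (2:ℝ) ^ uu q ≤ 2 * La q := by exact_mod_cast uu_le q hq2
  have h4 : (2:ℝ) ^ La q ≤ q := by exact_mod_cast La_le (q := q)
  calc (2:ℝ) ^ (44 * uu q) = (2 ^ uu q) ^ 44 := by rw [← pow_mul]; congr 1; ring
    _ ≤ (2 * La q) ^ 44 := pow_le_pow_left₀ (by positivity) h3 44
    _ = (La q * 2) ^ 44 := by ring
    _ ≤ 2 ^ La q := h2.le
    _ ≤ q := h4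

lemma vz {q : ℕ} : (0 : ZMod q).valMinAbs = 0 := ZMod.valMinAbs_zero q

lemma dl_zero' {q : ℕ} : dl (0 : ZMod q) = 0 := by simp [dl, nn]

/-- the parallel pairs -/
noncomputable def PPs (q : ℕ) [NeZero q] : Finset (ZMod q × (Fin 3 → ZMod q)) := by
  classical exact univ.filter (fun p => p.1 ≠ 0 ∧ p.2 1 ≠ 0 ∧ (p.2 0 ≠ 0 ∨ p.2 2 ≠ 0) ∧
    ¬ LBdir p.2 ∧ LB q (dl (p.1 * p.2 0)) (dl (p.1 * p.2 1)) (dl (p.1 * p.2 2)) ∧
    ¬ Par p.2 (fun j => p.1 * p.2 j))

lemma mem_PPs {q : ℕ} [NeZero q] (p : ZMod q × (Fin 3 → ZMod q)) :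
    p ∈ PPs q ↔ (p.1 ≠ 0 ∧ p.2 1 ≠ 0 ∧ (p.2 0 ≠ 0 ∨ p.2 2 ≠ 0) ∧
    ¬ LBdir p.2 ∧ LB q (dl (p.1 * p.2 0)) (dl (p.1 * p.2 1)) (dl (p.1 * p.2 2)) ∧
    ¬ Par p.2 (fun j => p.1 * p.2 j)) := by
  classical
  unfold PPs
  rw [mem_filter]
  exact ⟨fun h => h.2, fun h => ⟨mem_univ _, h⟩⟩

lemma sum_PPs {q : ℕ} [Fact q.Prime] (hs : Suit q)
    (hnpb : ∀ b b' : Fin 3 → ℕ, (∀ j, b j ≤ La q) → (∀ j, b' j ≤ La q) →
      ((NPs b b' (fun (c : ZMod q) v => ¬ Par v (fun j => c * v j))).card : ℝ) ≤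
      2 ^ (15 * uu q) * (2 ^ (∑ l, b l) * 2 ^ (∑ l, b' l) / (q:ℝ) ^ 2 +
        ∑ k, √(2 ^ (∑ l, b l) * 2 ^ (∑ l, b' l)) * √(2 ^ (b k + b' k)) / q +
        √(2 ^ (∑ l, b l) * 2 ^ (∑ l, b' l)) / √q))
    (hbig : (2:ℝ) ^ (44 * uu q) ≤ q) : ∑ p ∈ PPs q, wt p.2 ≤ 7 := by
  classical
  set QA := (PPs q).filter (fun p => ∀ j, p.2 j ≠ 0) with hQA
  set Q0 := (PPs q).filter (fun p => p.2 0 = 0) with hQ0
  set Q2 := (PPs q).filter (fun p => p.2 2 = 0) with hQ2
  have hsub : PPs q ⊆ (QA ∪ Q0) ∪ Q2 := by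
    intro p hp
    have hp' := (mem_PPs p).1 hp
    simp only [hQA, hQ0, hQ2, mem_union, mem_filter]
    by_cases h0 : p.2 0 = 0
    · left; right; exact ⟨hp, h0⟩
    by_cases h2 : p.2 2 = 0
    · right; exact ⟨hp, h2⟩
    · left; left
      refine ⟨hp, ?_⟩
      intro j
      fin_cases j
      · exact h0
      · exact hp'.2.1
      · exact h2
  have hA : ∑ p ∈ QA, wt p.2 ≤ 5 := by
    refine le_trans (Finset.sum_le_sum fun p _ => wt_le p.2) ?_
    apply classA hnpb hbig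
    intro p hp
    rw [hQA, mem_filter, mem_PPs] at hp
    obtain ⟨⟨c1, c2, c3, c4, c5, c6⟩, c7⟩ := hp
    exact ⟨c1, c7, c6, c5, not_LBdir c4⟩
  have h0 : ∑ p ∈ Q0, wt p.2 ≤ 1 := by
    have e : ∀ p ∈ Q0, wt p.2 ≤ (1:ℝ) / (2 ^ dl (p.2 1) * 2 ^ dl (p.2 2)) := by
      intro p hp
      rw [hQ0, mem_filter] at hp
      refine (wt_le p.2).trans (le_of_eq ?_)
      rw [hp.2, dl_zero', pow_zero, one_mul]
    refine (Finset.sum_le_sum e).trans ?_
    apply classB hs Q0 1 2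
    · intro p hp p' hp' e1 e2 e3
      rw [hQ0, mem_filter] at hp hp'
      refine Prod.ext e1 ?_
      funext j
      fin_cases j
      · show p.2 0 = p'.2 0
        rw [hp.2, hp'.2]
      · exact e2
      · exact e3
    · intro p hp
      rw [hQ0, mem_filter, mem_PPs] at hp
      obtain ⟨⟨c1, c2, c3, c4, c5, c6⟩, c7⟩ := hp
      have c3' : p.2 2 ≠ 0 := by
        rcases c3 with h | h
        · exact absurd c7 h
        · exact h
      refine ⟨c1, c2, c3', ?_, ?_⟩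
      · intro hpar
        apply c6
        unfold par2 at hpar
        intro i j
        fin_cases i <;> fin_cases j <;> simp [c7] <;> linarith
      · unfold LB at c5
        rw [c7, mul_zero, dl_zero'] at c5
        omega
  have h2 : ∑ p ∈ Q2, wt p.2 ≤ 1 := by
    have e : ∀ p ∈ Q2, wt p.2 ≤ (1:ℝ) / (2 ^ dl (p.2 0) * 2 ^ dl (p.2 1)) := by
      intro p hp
      rw [hQ2, mem_filter] at hp
      refine (wt_le p.2).trans (le_of_eq ?_)
      rw [hp.2, dl_zero', pow_zero, mul_one]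
    refine (Finset.sum_le_sum e).trans ?_
    apply classB hs Q2 0 1
    · intro p hp p' hp' e1 e2 e3
      rw [hQ2, mem_filter] at hp hp'
      refine Prod.ext e1 ?_
      funext j
      fin_cases j
      · exact e2
      · exact e3
      · show p.2 2 = p'.2 2
        rw [hp.2, hp'.2]
    · intro p hp
      rw [hQ2, mem_filter, mem_PPs] at hp
      obtain ⟨⟨c1, c2, c3, c4, c5, c6⟩, c7⟩ := hp
      have c3' : p.2 0 ≠ 0 := by
        rcases c3 with h | h
        · exact h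
        · exact absurd c7 h
      refine ⟨c1, c3', c2, ?_, ?_⟩
      · intro hpar
        apply c6
        unfold par2 at hpar
        intro i j
        fin_cases i <;> fin_cases j <;> simp [c7] <;> linarith
      · unfold LB at c5
        rw [c7, mul_zero, dl_zero'] at c5
        omega
  calc ∑ p ∈ PPs q, wt p.2 ≤ ∑ p ∈ (QA ∪ Q0) ∪ Q2, wt p.2 :=
        Finset.sum_le_sum_of_subset_of_nonneg hsub (fun p _ _ => wt_nonneg _)
    _ ≤ ∑ p ∈ QA ∪ Q0, wt p.2 + ∑ p ∈ Q2, wt p.2 := by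
        rw [← Finset.sum_union_inter]
        have : 0 ≤ ∑ p ∈ (QA ∪ Q0) ∩ Q2, wt p.2 := Finset.sum_nonneg fun p _ => wt_nonneg _
        linarith
    _ ≤ (∑ p ∈ QA, wt p.2 + ∑ p ∈ Q0, wt p.2) + ∑ p ∈ Q2, wt p.2 := by
        have h1 := Finset.sum_union_inter (s₁ := QA) (s₂ := Q0) (f := fun p => wt p.2)
        have : 0 ≤ ∑ p ∈ QA ∩ Q0, wt p.2 := Finset.sum_nonneg fun p _ => wt_nonneg _
        linarith
    _ ≤ 7 := by linarith

/-- the key alternative -/
lemma alt {q : ℕ} [Fact q.Prime] {b : ZMod q} (hb : good2 b) {v : Fin 3 → ZMod q} (h1 : v 1 ≠ 0)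
    (h0 : v 0 ≠ b * v 2) (hd : ¬ LBdir v) (hl : ¬ lgood ((v 0 - b * v 2) / v 1) b) :
    (∃ v' ∈ Lset q, b = (v 0 * v' 1 - v' 0 * v 1) / (v 2 * v' 1 - v' 2 * v 1)) ∨
      ∃ c, (c, v) ∈ PPs q := by
  set α := (v 0 - b * v 2) / v 1 with hα
  have hα0 : α ≠ 0 := by
    rw [hα]
    exact div_ne_zero (sub_ne_zero.2 h0) h1
  have hv0 : v 0 = α * v 1 + b * v 2 := by
    rw [hα, div_mul_cancel₀ _ h1]
    ring
  have hb0 := hb.1
  unfold lgood at hl
  push Not at hl
  obtain ⟨x, y, hxy, hlt⟩ := hl hα0 hb0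
  have hx : x ≠ 0 := by
    rintro rfl
    have hy : y ≠ 0 := by
      rcases hxy with h | h
      · exact absurd rfl h
      · exact h
    have := hb.2 y hy
    rw [mul_zero, zero_add, dl_zero', mul_comm b y] at hlt
    omega
  by_cases hD : v 2 * x - y * v 1 = 0
  · right
    have hc0 : x / v 1 ≠ 0 := div_ne_zero hx h1
    have e1 : x / v 1 * v 1 = x := div_mul_cancel₀ _ h1
    have e2 : x / v 1 * v 2 = y := by
      rw [div_mul_eq_mul_div, div_eq_iff h1]
      linear_combination hD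
    have e0 : x / v 1 * v 0 = α * x + b * y := by
      rw [hv0, mul_add]
      rw [show x / v 1 * (α * v 1) = α * (x / v 1 * v 1) by ring, e1,
        show x / v 1 * (b * v 2) = b * (x / v 1 * v 2) by ring, e2]
    refine ⟨x / v 1, (mem_PPs _).2 ⟨hc0, h1, ?_, hd, ?_, ?_⟩⟩
    · show v 0 ≠ 0 ∨ v 2 ≠ 0
      by_contra hcon
      push Not at hcon
      apply h0
      rw [hcon.1, hcon.2, mul_zero]
    · show LB q (dl (x / v 1 * v 0)) (dl (x / v 1 * v 1)) (dl (x / v 1 * v 2))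
      rw [e0, e1, e2]
      unfold LB
      omega
    · intro hpar
      apply hd
      apply par_LBdir hpar h1
      · show x / v 1 * v 1 ≠ 0
        rw [e1]; exact hx
      · show LB q (dl (x / v 1 * v 0)) (dl (x / v 1 * v 1)) (dl (x / v 1 * v 2))
        rw [e0, e1, e2]
        unfold LB
        omega
  · left
    refine ⟨![α * x + b * y, x, y], ?_, ?_⟩
    · rw [mem_Lset]
      show LB q (dl (α * x + b * y)) (dl x) (dl y)
      unfold LB
      omega
    · show b = (v 0 * x - (α * x + b * y) * v 1) / (v 2 * x - y * v 1)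
      rw [eq_div_iff hD, hv0]
      ring

end G4

open G4

open Classical in
/-- TASK G4. -/
theorem np_line : ∃ C : ℝ, 0 < C ∧ ∃ q₀ : ℕ, ∀ q : ℕ, q₀ ≤ q → ∀ hq : Fact q.Prime, Suit q →
    ∑ b ∈ (univ : Finset (ZMod q)).filter (fun b => good2 b),
      ∑ v ∈ (univ : Finset (Fin 3 → ZMod q)).filter (fun v => v 1 ≠ 0 ∧ v 0 ≠ b * v 2 ∧ ¬ LBdir v ∧
        ¬ lgood ((v 0 - b * v 2) / v 1) b), (1:ℝ) / (mx (v 0) * mx (v 1) * mx (v 2)) ≤ C * q := by
  obtain ⟨q1, hq1⟩ := npb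
  obtain ⟨q2, hq2⟩ := exists_big
  refine ⟨8, by norm_num, max q1 q2, ?_⟩
  intro q hqq hq hs
  have hnpb := hq1 q ((le_max_left _ _).trans hqq) hq hs
  have hbig := hq2 q ((le_max_right _ _).trans hqq)
  have hq2' : 2 ≤ q := hq.out.two_le
  have hq0 : (0:ℝ) < q := by exact_mod_cast hq.out.pos
  -- pointwise bound
  have hpt : ∀ b ∈ (univ : Finset (ZMod q)).filter (fun b => good2 b),
      ∑ v ∈ (univ : Finset (Fin 3 → ZMod q)).filter (fun v => v 1 ≠ 0 ∧ v 0 ≠ b * v 2 ∧ ¬ LBdir v ∧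
        ¬ lgood ((v 0 - b * v 2) / v 1) b), (1:ℝ) / (mx (v 0) * mx (v 1) * mx (v 2)) ≤
      ∑ v : Fin 3 → ZMod q, ((∑ v' ∈ Lset q,
        if b = (v 0 * v' 1 - v' 0 * v 1) / (v 2 * v' 1 - v' 2 * v 1) then wt v else 0) +
        ∑ c : ZMod q, if (c, v) ∈ PPs q then wt v else 0) := by
    intro b hb
    rw [mem_filter] at hb
    have hnn : ∀ v : Fin 3 → ZMod q, 0 ≤ (∑ v' ∈ Lset q,
        if b = (v 0 * v' 1 - v' 0 * v 1) / (v 2 * v' 1 - v' 2 * v 1) then wt v else 0) := by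
      intro v
      apply Finset.sum_nonneg
      intro v' _
      split_ifs
      · exact wt_nonneg v
      · exact le_rfl
    have hnn' : ∀ v : Fin 3 → ZMod q, 0 ≤ ∑ c : ZMod q, if (c, v) ∈ PPs q then wt v else 0 := by
      intro v
      apply Finset.sum_nonneg
      intro v' _
      split_ifs
      · exact wt_nonneg v
      · exact le_rfl
    refine le_trans (Finset.sum_le_sum (g := fun v : Fin 3 → ZMod q => ((∑ v' ∈ Lset q,
        if b = (v 0 * v' 1 - v' 0 * v 1) / (v 2 * v' 1 - v' 2 * v 1) then wt v else 0) +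
        ∑ c : ZMod q, if (c, v) ∈ PPs q then wt v else 0)) ?_)
      (Finset.sum_le_sum_of_subset_of_nonneg (Finset.subset_univ _)
        (fun v _ _ => add_nonneg (hnn v) (hnn' v)))
    intro v hv
    rw [mem_filter] at hv
    obtain ⟨-, h1, h0, hd, hl⟩ := hv
    show wt v ≤ _
    rcases alt hb.2 h1 h0 hd hl with ⟨v', hv', e⟩ | ⟨c, hc⟩
    · have h3 : wt v ≤ (∑ v' ∈ Lset q,
          if b = (v 0 * v' 1 - v' 0 * v 1) / (v 2 * v' 1 - v' 2 * v 1) then wt v else 0) := by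
        have := Finset.single_le_sum (f := fun v' : Fin 3 → ZMod q =>
          if b = (v 0 * v' 1 - v' 0 * v 1) / (v 2 * v' 1 - v' 2 * v 1) then wt v else (0:ℝ))
          (s := Lset q) (fun v' _ => by
            show 0 ≤ _
            split_ifs
            · exact wt_nonneg v
            · exact le_rfl) hv'
        simp only [if_pos e] at this
        exact this
      have := hnn' v
      linarith
    · have h3 : wt v ≤ ∑ c : ZMod q, if (c, v) ∈ PPs q then wt v else 0 := by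
        have := Finset.single_le_sum (f := fun c : ZMod q =>
          if (c, v) ∈ PPs q then wt v else (0:ℝ)) (s := univ) (fun v' _ => by
            show 0 ≤ _
            split_ifs
            · exact wt_nonneg v
            · exact le_rfl) (mem_univ c)
        simp only [if_pos hc] at this
        exact this
      have := hnn v
      linarith
  refine (Finset.sum_le_sum hpt).trans ?_
  -- sum over all b
  have hall : ∑ b ∈ (univ : Finset (ZMod q)).filter (fun b => good2 b),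
      ∑ v : Fin 3 → ZMod q, ((∑ v' ∈ Lset q,
        if b = (v 0 * v' 1 - v' 0 * v 1) / (v 2 * v' 1 - v' 2 * v 1) then wt v else 0) +
        ∑ c : ZMod q, if (c, v) ∈ PPs q then wt v else 0) ≤
      ∑ b : ZMod q, ∑ v : Fin 3 → ZMod q, ((∑ v' ∈ Lset q,
        if b = (v 0 * v' 1 - v' 0 * v 1) / (v 2 * v' 1 - v' 2 * v 1) then wt v else 0) +
        ∑ c : ZMod q, if (c, v) ∈ PPs q then wt v else 0) := by
    apply Finset.sum_le_sum_of_subset_of_nonneg (Finset.subset_univ _)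
    intro b _ _
    apply Finset.sum_nonneg
    intro v _
    apply add_nonneg
    · apply Finset.sum_nonneg
      intro v' _
      split_ifs
      · exact wt_nonneg v
      · exact le_rfl
    · apply Finset.sum_nonneg
      intro v' _
      split_ifs
      · exact wt_nonneg v
      · exact le_rfl
  refine hall.trans ?_
  have hsplit : ∑ b : ZMod q, ∑ v : Fin 3 → ZMod q, ((∑ v' ∈ Lset q,
        if b = (v 0 * v' 1 - v' 0 * v 1) / (v 2 * v' 1 - v' 2 * v 1) then wt v else 0) +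
        ∑ c : ZMod q, if (c, v) ∈ PPs q then wt v else 0) =
      (∑ v : Fin 3 → ZMod q, ∑ v' ∈ Lset q, wt v) + q * ∑ p ∈ PPs q, wt p.2 := by
    simp_rw [Finset.sum_add_distrib]
    congr 1
    · rw [Finset.sum_comm]
      apply Finset.sum_congr rfl
      intro v _
      rw [Finset.sum_comm]
      apply Finset.sum_congr rfl
      intro v' _
      rw [Finset.sum_ite_eq']
      simp
    · rw [Finset.sum_const, Finset.card_univ, ZMod.card, nsmul_eq_mul]
      congr 1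
      rw [Finset.sum_comm, ← Finset.sum_product', ← Finset.sum_filter]
      apply Finset.sum_congr
      · ext p
        simp
      · intro p _
        rfl
  rw [hsplit]
  have hP := sum_PPs hs hnpb hbig
  have hW := sum_wt (q := q) hq2'
  have hL := card_Lset (q := q)
  have hfirst : (∑ v : Fin 3 → ZMod q, ∑ v' ∈ Lset q, wt v) ≤ q := by
    simp_rw [Finset.sum_const, nsmul_eq_mul]
    rw [← Finset.mul_sum]
    have hL' : ((Lset q).card : ℝ) * 2 ^ (44 * uu q) ≤ ((La q : ℝ) + 1) ^ 3 * 2 ^ (La q + 6) := by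
      have : k1 q = 44 * uu q := rfl
      rw [this] at hL
      exact_mod_cast hL
    have hLu : ((La q : ℝ) + 1) ≤ 2 ^ uu q := by exact_mod_cast La_lt_uu q
    have hqLa : (2:ℝ) ^ La q ≤ q := by exact_mod_cast La_le (q := q)
    have hu1 : 1 ≤ uu q := by unfold uu; omega
    have h44 : (0:ℝ) < 2 ^ (44 * uu q) := by positivity
    have hLa0 : (0:ℝ) ≤ (La q : ℝ) + 1 := by positivity
    have hkey : ((Lset q).card : ℝ) * (∑ v : Fin 3 → ZMod q, wt v) * 2 ^ (44 * uu q) ≤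
        q * 2 ^ (44 * uu q) := by
      calc ((Lset q).card : ℝ) * (∑ v : Fin 3 → ZMod q, wt v) * 2 ^ (44 * uu q)
          = (((Lset q).card : ℝ) * 2 ^ (44 * uu q)) * (∑ v : Fin 3 → ZMod q, wt v) := by ring
        _ ≤ (((La q : ℝ) + 1) ^ 3 * 2 ^ (La q + 6)) * (3 * ((La q : ℝ) + 1)) ^ 3 := by
            apply mul_le_mul hL' hW _ (by positivity)
            exact Finset.sum_nonneg fun v _ => wt_nonneg v
        _ = 1728 * ((La q : ℝ) + 1) ^ 6 * 2 ^ La q := by rw [pow_add]; ring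
        _ ≤ 1728 * (2 ^ uu q) ^ 6 * q := by gcongr
        _ ≤ 2 ^ (44 * uu q) * q := by
            apply mul_le_mul_of_nonneg_right _ hq0.le
            have h5 : (2:ℝ) ^ (44 * uu q) = 2 ^ (38 * uu q) * (2 ^ uu q) ^ 6 := by
              rw [← pow_mul, ← pow_add]; congr 1; ring
            rw [h5]
            apply mul_le_mul_of_nonneg_right _ (by positivity)
            calc (1728:ℝ) ≤ 2 ^ 38 := by norm_num
              _ ≤ 2 ^ (38 * uu q) := pow_le_pow_right₀ (by norm_num) (by omega)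
        _ = q * 2 ^ (44 * uu q) := by ring
    exact le_of_mul_le_mul_right hkey h44
  nlinarith

end Pool.Agent.H935R2.PS
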