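import Pool.Agent.H935R2.PS.S2def

set_option autoImplicit false
set_option linter.unusedVariables false

/-!
# Task G1: two-dimensional discrepancy by blocks
-/

namespace Pool.Agent.H935R2.PS

open Finset

namespace G1

theorem nn_cast_le {q : ℕ} [NeZero q] (z : ℤ) : nn (z : ZMod q) ≤ z.natAbs := by
  unfold nn
  exact ZMod.natAbs_min_of_le_div_two q _ _ (by rw [ZMod.coe_valMinAbs])
    (ZMod.natAbs_valMinAbs_le _)

theorem nn_eq_zero' {q : ℕ} [NeZero q] (x : ZMod q) : nn x = 0 ↔ x = 0 := by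
  unfold nn
  rw [Int.natAbs_eq_zero, ZMod.valMinAbs_eq_zero]

/-- number of `e ∈ [1, t3]` with residue `y` -/
def cnt (q t3 : ℕ) (y : ZMod q) : ℕ := ((Icc 1 t3).filter (fun e : ℕ => (e : ZMod q) = y)).card

theorem cnt_eq {q t3 : ℕ} (hq : 0 < q) (h3 : t3 < q) (y : ℤ) :
    (cnt q t3 (y : ZMod q) : ℤ) = (y - 1) / q - (y - 1 - t3) / q := by
  have hq' : (0 : ℤ) < q := by exact_mod_cast hq
  have h3' : (t3 : ℤ) < q := by exact_mod_cast h3
  set r := y % q with hr
  set n := y / q with hn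
  have hy : y = r + q * n := by rw [hr, hn]; exact (Int.emod_add_mul_ediv y q).symm
  have hr0 : 0 ≤ r := Int.emod_nonneg _ hq'.ne'
  have hrq : r < q := Int.emod_lt_of_pos _ hq'
  have key : ∀ e : ℕ, e ∈ Icc 1 t3 → ((e : ZMod q) = (y : ZMod q) ↔ (e : ℤ) = r) := by
    intro e he
    rw [mem_Icc] at he
    have h1 : ((e : ℤ) : ZMod q) = (y : ZMod q) ↔ (e : ℤ) % q = y % q := by
      rw [ZMod.intCast_eq_intCast_iff]; rfl
    rw [← Int.cast_natCast (R := ZMod q) e, h1,
      Int.emod_eq_of_lt (by positivity) (by have : (e : ℤ) ≤ t3 := by exact_mod_cast he.2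
                                            omega)]
  have e1 : (y - 1) / q = n + (r - 1) / q := by
    rw [hy, show r + q * n - 1 = (r - 1) + q * n by ring, Int.add_mul_ediv_left _ _ hq'.ne']
    ring
  have e2 : (y - 1 - t3) / q = n + (r - 1 - t3) / q := by
    rw [hy, show r + q * n - 1 - t3 = (r - 1 - t3) + q * n by ring,
      Int.add_mul_ediv_left _ _ hq'.ne']
    ring
  have fneg : ∀ x : ℤ, x < 0 → -(q : ℤ) ≤ x → x / q = -1 := by
    intro x h1 h2
    have h3 : x = (x + q) + q * (-1) := by ring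
    rw [h3, Int.add_mul_ediv_left _ _ hq'.ne', Int.ediv_eq_zero_of_lt (by omega) (by omega)]
    ring
  have fpos : ∀ x : ℤ, 0 ≤ x → x < q → x / q = 0 := fun x h1 h2 => Int.ediv_eq_zero_of_lt h1 h2
  unfold cnt
  rw [e1, e2, Finset.filter_congr key]
  by_cases h : 1 ≤ r ∧ r ≤ t3
  · have h4 : (Icc 1 t3).filter (fun e : ℕ => (e : ℤ) = r) = {r.toNat} := by
      ext e
      rw [mem_filter, mem_Icc, mem_singleton]
      omega
    rw [h4, card_singleton, fpos (r - 1) (by omega) (by omega),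
      fneg (r - 1 - t3) (by omega) (by omega)]
    push_cast
    ring
  · have h4 : (Icc 1 t3).filter (fun e : ℕ => (e : ℤ) = r) = ∅ := by
      rw [Finset.filter_eq_empty_iff]
      intro e he
      rw [mem_Icc] at he
      omega
    rw [h4, card_empty]
    rcases lt_or_ge r 1 with h5 | h5
    · rw [fneg (r - 1) (by omega) (by omega), fneg (r - 1 - t3) (by omega) (by omega)]
      push_cast
      ring
    · rw [fpos (r - 1) (by omega) (by omega), fpos (r - 1 - t3) (by omega) (by omega)]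
      push_cast
      ring

theorem perm_mod (l : ℕ) (p : ℤ) (hl : 0 < l) (h : IsCoprime (l : ℤ) p) (Z : ℤ) :
    ∑ j ∈ range l, ((Z + j * p) % l) = ∑ j ∈ range l, (j : ℤ) := by
  have hl' : (0 : ℤ) < l := by exact_mod_cast hl
  set f : ℕ → ℕ := fun j => ((Z + j * p) % l).toNat with hf
  have hfc : ∀ j, (f j : ℤ) = (Z + j * p) % l := fun j =>
    Int.toNat_of_nonneg (Int.emod_nonneg _ hl'.ne')
  have hinj : Set.InjOn f (range l : Finset ℕ) := by
    intro i hi j hj hij
    simp only [coe_range, Set.mem_Iio] at hi hj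
    have h1 : (Z + i * p) % l = (Z + j * p) % l := by rw [← hfc, ← hfc, hij]
    have h2 : (l : ℤ) ∣ (Z + i * p) - (Z + j * p) := Int.emod_emod_of_dvd_sub' h1
    have h3 : (l : ℤ) ∣ ((i : ℤ) - j) * p := by
      have : (Z + i * p) - (Z + j * p) = ((i : ℤ) - j) * p := by ring
      rwa [this] at h2
    have h4 : (l : ℤ) ∣ (i : ℤ) - j := h.dvd_of_dvd_mul_right h3
    have h5 : (i : ℤ) - j = 0 := Int.eq_zero_of_abs_lt_dvd h4 (by rw [abs_lt]; omega)
    omega
  have himg : (range l).image f = range l := by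
    apply Finset.eq_of_subset_of_card_le
    · intro x hx
      obtain ⟨j, _, rfl⟩ := mem_image.1 hx
      rw [mem_range]
      have := Int.emod_lt_of_pos (Z + j * p) hl'
      have := hfc j
      omega
    · rw [card_image_of_injOn hinj]
  calc ∑ j ∈ range l, ((Z + j * p) % l) = ∑ j ∈ range l, ((f j : ℕ) : ℤ) :=
        sum_congr rfl fun j _ => (hfc j).symm
    _ = ∑ k ∈ (range l).image f, (k : ℤ) := (sum_image hinj).symm
    _ = _ := by rw [himg]
where
  Int.emod_emod_of_dvd_sub' {a b n : ℤ} (h : a % n = b % n) : n ∣ a - b :=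
    (Int.emod_emod_of_dvd_sub'' h)
  Int.emod_emod_of_dvd_sub'' {a b n : ℤ} (h : a % n = b % n) : n ∣ a - b :=
    Int.dvd_of_emod_eq_zero (by rw [Int.sub_emod, h, sub_self, Int.zero_emod])

theorem perm_sum (l : ℕ) (p : ℤ) (hl : 0 < l) (h : IsCoprime (l : ℤ) p) :
    ∃ c0 : ℤ, ∀ Z : ℤ, ∑ j ∈ range l, ((Z + j * p) / l) = Z + c0 := by
  have hl' : (0 : ℤ) < l := by exact_mod_cast hl
  have key : ∀ Z : ℤ, l * ∑ j ∈ range l, ((Z + j * p) / l) =
      l * Z + p * ∑ j ∈ range l, (j : ℤ) - ∑ j ∈ range l, (j : ℤ) := by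
    intro Z
    have h1 := perm_mod l p hl h Z
    have h2 : ∑ j ∈ range l, (Z + j * p) = l * Z + p * ∑ j ∈ range l, (j : ℤ) := by
      rw [sum_add_distrib, sum_const, card_range, nsmul_eq_mul, mul_sum]
      congr 1
      exact sum_congr rfl fun j _ => mul_comm _ _
    rw [← h2, ← h1, mul_sum, ← sum_sub_distrib]
    apply sum_congr rfl
    intro j _
    have := Int.emod_add_mul_ediv (Z + j * p) l
    linarith
  refine ⟨∑ j ∈ range l, ((0 + j * p) / l), fun Z => ?_⟩
  have h1 := key Z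
  have h2 := key 0
  have h3 : (l : ℤ) * ∑ j ∈ range l, ((Z + j * p) / l) =
      l * (Z + ∑ j ∈ range l, ((0 + j * p) / l)) := by
    rw [mul_add, h1, h2]; ring
  exact mul_left_cancel₀ hl'.ne' h3

/-- the floor sums over one block -/
theorem floor_block {q l : ℕ} (hq : 0 < q) (hl : 0 < l) {β p z : ℤ} (h : (l : ℤ) * β = p * q + z)
    (hz : (l : ℤ) * |z| < q) (hcop : IsCoprime (l : ℤ) p) :
    ∃ c0 : ℤ, (∀ Y : ℤ, (l * Y) / q + c0 ≤ ∑ j ∈ range l, ((Y + j * β) / q) ∧
      ∑ j ∈ range l, ((Y + j * β) / q) ≤ (l * Y) / q + c0 + 1) := by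
  have hl' : (0 : ℤ) < l := by exact_mod_cast hl
  have hq' : (0 : ℤ) < q := by exact_mod_cast hq
  obtain ⟨c0, hc0⟩ := perm_sum l p hl hcop
  have hT : ∀ W : ℤ, ∑ j ∈ range l, ((W + j * p * q) / (l * q)) = W / q + c0 := by
    intro W
    rw [← hc0]
    apply sum_congr rfl
    intro j _
    rw [mul_comm (l : ℤ) q, ← Int.ediv_ediv_of_nonneg hq'.le, Int.add_mul_ediv_right _ _ hq'.ne']
  have hterm : ∀ (Y : ℤ) (j : ℕ), (Y + j * β) / q = (l * Y + j * z + j * p * q) / (l * q) := by
    intro Y j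
    rw [← Int.mul_ediv_mul_of_pos (Y + j * β) q hl']
    congr 1
    linear_combination (j : ℤ) * h
  have hlq : (0 : ℤ) < l * q := mul_pos hl' hq'
  rcases le_or_gt 0 z with hz0 | hz0
  · refine ⟨c0, fun Y => ⟨?_, ?_⟩⟩
    · rw [← hT]
      apply sum_le_sum
      intro j _
      rw [hterm]
      apply Int.ediv_le_ediv hlq
      have : 0 ≤ (j : ℤ) * z := by positivity
      linarith
    · have h1 : ∑ j ∈ range l, ((Y + j * β) / q) ≤ (l * Y + l * z) / q + c0 := by
        rw [← hT]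
        apply sum_le_sum
        intro j hj
        rw [hterm]
        apply Int.ediv_le_ediv hlq
        have h2 : (j : ℤ) ≤ l := by exact_mod_cast (mem_range.1 hj).le
        have := mul_le_mul_of_nonneg_right h2 hz0
        linarith
      have h2 : (l * Y + l * z) / q ≤ (l * Y) / q + 1 := by
        rw [abs_of_nonneg hz0] at hz
        calc (l * Y + l * z) / q ≤ (l * Y + 1 * q) / q := Int.ediv_le_ediv hq' (by linarith)
          _ = _ := by rw [Int.add_mul_ediv_right _ _ hq'.ne']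
      linarith
  · refine ⟨c0 - 1, fun Y => ⟨?_, ?_⟩⟩
    · have h1 : (l * Y + l * z) / q + c0 ≤ ∑ j ∈ range l, ((Y + j * β) / q) := by
        rw [← hT]
        apply sum_le_sum
        intro j hj
        rw [hterm]
        apply Int.ediv_le_ediv hlq
        have h2 : (j : ℤ) ≤ l := by exact_mod_cast (mem_range.1 hj).le
        have := mul_le_mul_of_nonpos_right h2 hz0.le
        linarith
      have h2 : (l * Y) / q - 1 ≤ (l * Y + l * z) / q := by
        rw [abs_of_neg hz0] at hz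
        calc (l * Y) / q - 1 = (l * Y + (-1) * q) / q := by
              rw [Int.add_mul_ediv_right _ _ hq'.ne']; ring
          _ ≤ _ := Int.ediv_le_ediv hq' (by linarith)
      linarith
    · have h1 : ∑ j ∈ range l, ((Y + j * β) / q) ≤ (l * Y) / q + c0 := by
        rw [← hT]
        apply sum_le_sum
        intro j _
        rw [hterm]
        apply Int.ediv_le_ediv hlq
        have : (j : ℤ) * z ≤ 0 := mul_nonpos_of_nonneg_of_nonpos (by positivity) hz0.le
        linarith
      linarith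

/-- number of hits among `x, x + b, …, x + (t - 1) b` -/
def NN {q : ℕ} (t3 : ℕ) (b x : ZMod q) (t : ℕ) : ℕ := ∑ j ∈ range t, cnt q t3 (x + j * b)

theorem block {q t3 l : ℕ} (hq : 0 < q) (h3 : t3 < q) (hl : 0 < l) {β p z : ℤ}
    (h : (l : ℤ) * β = p * q + z) (hz : (l : ℤ) * |z| < q) (hcop : IsCoprime (l : ℤ) p)
    (X : ℤ) : |(NN t3 (β : ZMod q) (X : ZMod q) l : ℝ) - l * t3 / q| ≤ 2 := by
  have hq' : (0 : ℤ) < q := by exact_mod_cast hq
  have hqr : (0 : ℝ) < q := by exact_mod_cast hq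
  obtain ⟨c0, hc0⟩ := floor_block hq hl h hz hcop
  have e1 : (NN t3 (β : ZMod q) (X : ZMod q) l : ℤ) =
      ∑ j ∈ range l, ((X - 1 + j * β) / q) - ∑ j ∈ range l, ((X - 1 - t3 + j * β) / q) := by
    unfold NN
    rw [← sum_sub_distrib]
    push_cast
    apply sum_congr rfl
    intro j _
    have := cnt_eq hq h3 (X + j * β)
    push_cast at this
    rw [this]
    congr 2 <;> ring
  have h1 := hc0 (X - 1)
  have h2 := hc0 (X - 1 - t3)
  have f1 : ∀ a : ℤ, ((a / q : ℤ) : ℝ) ≤ (a : ℝ) / q ∧ (a : ℝ) / q < ((a / q : ℤ) : ℝ) + 1 := by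
    intro a
    constructor
    · rw [le_div_iff₀ hqr]
      have := Int.ediv_mul_le a hq'.ne'
      exact_mod_cast this
    · rw [div_lt_iff₀ hqr]
      have := Int.lt_ediv_add_one_mul_self a hq'
      exact_mod_cast this
  have g1 := f1 (l * (X - 1))
  have g2 := f1 (l * (X - 1 - t3))
  have e2 : ((l * (X - 1) : ℤ) : ℝ) / q = ((l * (X - 1 - t3) : ℤ) : ℝ) / q + l * t3 / q := by
    push_cast
    field_simp
    ring
  have e3 : (NN t3 (β : ZMod q) (X : ZMod q) l : ℝ) =
      ((∑ j ∈ range l, ((X - 1 + j * β) / q) : ℤ) : ℝ) -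
        ((∑ j ∈ range l, ((X - 1 - t3 + j * β) / q) : ℤ) : ℝ) := by
    rw [← Int.cast_sub, ← e1]; push_cast; rfl
  have k1 : (((l * (X - 1) / q : ℤ)) : ℝ) + c0 ≤ ((∑ j ∈ range l, ((X - 1 + j * β) / q) : ℤ) : ℝ) := by
    exact_mod_cast h1.1
  have k2 : ((∑ j ∈ range l, ((X - 1 + j * β) / q) : ℤ) : ℝ) ≤
      (((l * (X - 1) / q : ℤ)) : ℝ) + c0 + 1 := by exact_mod_cast h1.2
  have k3 : (((l * (X - 1 - t3) / q : ℤ)) : ℝ) + c0 ≤
      ((∑ j ∈ range l, ((X - 1 - t3 + j * β) / q) : ℤ) : ℝ) := by exact_mod_cast h2.1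
  have k4 : ((∑ j ∈ range l, ((X - 1 - t3 + j * β) / q) : ℤ) : ℝ) ≤
      (((l * (X - 1 - t3) / q : ℤ)) : ℝ) + c0 + 1 := by exact_mod_cast h2.2
  rw [e3, abs_le]
  constructor <;> linarith [g1.1, g1.2, g2.1, g2.2]

theorem NN_add {q : ℕ} (t3 : ℕ) (b x : ZMod q) (s t : ℕ) :
    NN t3 b x (s + t) = NN t3 b x s + NN t3 b (x + s * b) t := by
  unfold NN
  rw [sum_range_add]
  congr 1
  apply sum_congr rfl
  intro j _
  congr 1
  push_cast
  ring

theorem blocks {q t3 l : ℕ} (hq : 0 < q) (h3 : t3 < q) (hl : 0 < l) {β p z : ℤ}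
    (h : (l : ℤ) * β = p * q + z) (hz : (l : ℤ) * |z| < q) (hcop : IsCoprime (l : ℤ) p)
    (m : ℕ) : ∀ x : ZMod q, |(NN t3 (β : ZMod q) x (m * l) : ℝ) - (m * l : ℕ) * t3 / q| ≤ 2 * m := by
  induction m with
  | zero => intro x; simp [NN]
  | succ m ih =>
    intro x
    rw [Nat.succ_mul, NN_add]
    obtain ⟨X, hX⟩ := ZMod.intCast_surjective (x + ((m * l : ℕ) : ZMod q) * (β : ZMod q))
    have h1 := block hq h3 hl h hz hcop X
    have h2 := ih x
    rw [← hX]
    rw [abs_le] at h1 h2 ⊢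
    push_cast at h1 h2 ⊢
    have e : ((m : ℝ) * l + l) * t3 / q = (m : ℝ) * l * t3 / q + l * t3 / q := by ring
    rw [e]
    constructor <;> linarith [h1.1, h1.2, h2.1, h2.2]

theorem dirichlet {q : ℕ} [NeZero q] (b : ZMod q) {t : ℕ} (ht : 0 < t) :
    ∃ l : ℕ, 1 ≤ l ∧ l ≤ t ∧ nn ((l : ZMod q) * b) * (t + 1) ≤ q := by
  have hqr : (0 : ℝ) < q := by exact_mod_cast Nat.pos_of_ne_zero (NeZero.ne q)
  obtain ⟨k, hk0, hkt, hk⟩ := Real.exists_nat_abs_mul_sub_round_le ((b.val : ℝ) / q) ht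
  refine ⟨k, hk0, hkt, ?_⟩
  set m := round ((k : ℝ) * ((b.val : ℝ) / q)) with hm
  have h1 : ((k * b.val - m * q : ℤ) : ZMod q) = (k : ZMod q) * b := by
    push_cast
    rw [ZMod.natCast_self, mul_zero, sub_zero, ZMod.natCast_zmod_val]
  have h2 : nn ((k : ZMod q) * b) ≤ (k * b.val - m * q : ℤ).natAbs := by
    rw [← h1]; exact nn_cast_le _
  have h3 : (((k * b.val - m * q : ℤ).natAbs : ℕ) : ℝ) * (t + 1) ≤ q := by
    rw [Nat.cast_natAbs]
    push_cast
    have e : (k : ℝ) * b.val - m * q = q * ((k : ℝ) * ((b.val : ℝ) / q) - m) := by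
      field_simp
    rw [e, abs_mul, abs_of_pos hqr]
    have ht1 : (0 : ℝ) < t + 1 := by positivity
    rw [le_div_iff₀ ht1] at hk
    nlinarith
  have h4 : ((k * b.val - m * q : ℤ).natAbs) * (t + 1) ≤ q := by exact_mod_cast h3
  exact (Nat.mul_le_mul_right _ h2).trans h4

/-- the set of records -/
noncomputable def LL {q : ℕ} (b : ZMod q) (t : ℕ) : Finset ℕ :=
  (Icc 1 t).filter (fun l => l * nn ((l : ZMod q) * b) ≤ q)

theorem main {q : ℕ} [Fact q.Prime] (b : ZMod q) (hb : b ≠ 0) (t3 : ℕ) (h3 : t3 < q) :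
    ∀ t : ℕ, t < q → ∀ x : ZMod q, |(NN t3 b x t : ℝ) - t * t3 / q| ≤
      2 * ∑ l ∈ LL b t, (q : ℝ) / (l * nn ((l : ZMod q) * b)) := by
  have hq : 0 < q := (Fact.out : q.Prime).pos
  have hqr : (0 : ℝ) < q := by exact_mod_cast hq
  intro t
  induction t using Nat.strong_induction_on with
  | _ t ih =>
    intro htq x
    rcases Nat.eq_zero_or_pos t with ht0 | ht0
    · subst ht0
      simp [NN, LL]
    classical
    -- minimal good multiplier
    have hex := dirichlet b ht0
    have hfind := Nat.find_spec hex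
    have hmin : ∀ m, m < Nat.find hex → ¬ (1 ≤ m ∧ m ≤ t ∧ nn ((m : ZMod q) * b) * (t + 1) ≤ q) :=
      fun m hm => Nat.find_min hex hm
    set l := Nat.find hex with hl
    obtain ⟨hl1, hlt, hlb⟩ := hfind
    set z := ((l : ZMod q) * b).valMinAbs with hz
    have hzn : nn ((l : ZMod q) * b) = z.natAbs := rfl
    have hlq0 : (l : ZMod q) ≠ 0 := by
      intro h0
      rw [ZMod.natCast_eq_zero_iff] at h0
      exact absurd (Nat.le_of_dvd (by omega) h0) (by omega)
    have hzpos : 0 < z.natAbs := by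
      rw [← hzn]
      refine Nat.pos_of_ne_zero fun h0 => ?_
      rw [nn_eq_zero'] at h0
      exact (mul_ne_zero hlq0 hb) h0
    -- l * val b = p q + z
    have hdvd : (q : ℤ) ∣ (l : ℤ) * b.val - z := by
      rw [← ZMod.intCast_zmod_eq_zero_iff_dvd]
      push_cast
      rw [ZMod.natCast_zmod_val, hz, ZMod.coe_valMinAbs, sub_self]
    obtain ⟨p, hp⟩ := hdvd
    have hp' : (l : ℤ) * b.val = p * q + z := by linarith
    have hlz : l * z.natAbs < q := by
      have h1 : z.natAbs * (t + 1) ≤ q := by rw [← hzn]; exact hlb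
      nlinarith
    have hlz' : (l : ℤ) * |z| < q := by
      rw [Int.abs_eq_natAbs]; exact_mod_cast hlz
    have hcop : IsCoprime (l : ℤ) p := by
      rw [Int.isCoprime_iff_gcd_eq_one]
      by_contra hg
      set g := Int.gcd (l : ℤ) p with hgdef
      have hg0 : 0 < g := Int.gcd_pos_of_ne_zero_left _ (by exact_mod_cast (by omega : l ≠ 0))
      have hg2 : 2 ≤ g := by omega
      obtain ⟨l', hl'⟩ : (g : ℤ) ∣ l := Int.gcd_dvd_left ..
      obtain ⟨p', hp''⟩ : (g : ℤ) ∣ p := Int.gcd_dvd_right ..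
      have hz' : z = g * (l' * b.val - p' * q) := by
        rw [hl', hp''] at hp'
        linarith
      set z' := l' * (b.val : ℤ) - p' * q with hz'def
      have hg0' : (0 : ℤ) < g := by exact_mod_cast hg0
      have hl'pos : 0 < l' := by
        have : (0 : ℤ) < g * l' := by rw [← hl']; exact_mod_cast hl1
        exact (pos_iff_pos_of_mul_pos this).1 hg0'
      obtain ⟨L, hL⟩ : ∃ L : ℕ, l' = L := ⟨l'.toNat, by omega⟩
      have hLl : l = g * L := by rw [hL] at hl'; exact_mod_cast hl'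
      have hLpos : 0 < L := by omega
      have hzz : z.natAbs = g * z'.natAbs := by rw [hz', Int.natAbs_mul]; simp
      have hLb : nn ((L : ZMod q) * b) ≤ z'.natAbs := by
        have : ((z' : ℤ) : ZMod q) = (L : ZMod q) * b := by
          rw [hz'def, hL]
          push_cast
          rw [ZMod.natCast_self, mul_zero, sub_zero, ZMod.natCast_zmod_val]
        rw [← this]; exact nn_cast_le _
      refine hmin L ?_ ⟨hLpos, ?_, ?_⟩
      · rw [hLl]; nlinarith
      · have : L ≤ l := by rw [hLl]; nlinarith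
        omega
      · refine le_trans (Nat.mul_le_mul_right _ (hLb.trans ?_)) hlb
        rw [hzn, hzz]; nlinarith
    -- blocks
    set m := t / l with hm
    set t' := t % l with ht'
    have htt : t = m * l + t' := by rw [hm, ht']; exact (Nat.div_add_mod' t l).symm
    have ht'l : t' < l := Nat.mod_lt _ hl1
    have hb' : ((b.val : ℤ) : ZMod q) = b := by
      rw [Int.cast_natCast, ZMod.natCast_zmod_val]
    have h1 := blocks hq h3 hl1 hp' hlz' hcop m x
    rw [hb'] at h1
    have h2 := ih t' (by omega) (by omega) (x + (m * l : ℕ) * b)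
    have h4 : (m : ℝ) ≤ q / (l * nn ((l : ZMod q) * b)) := by
      have hpos : (0 : ℝ) < l * nn ((l : ZMod q) * b) := by
        rw [hzn]; exact_mod_cast Nat.mul_pos hl1 hzpos
      rw [le_div_iff₀ hpos]
      have h5 : m * (l * nn ((l : ZMod q) * b)) ≤ q := by
        calc m * (l * nn ((l : ZMod q) * b)) = (m * l) * nn ((l : ZMod q) * b) := by ring
          _ ≤ (t + 1) * nn ((l : ZMod q) * b) := Nat.mul_le_mul_right _ (by omega)
          _ ≤ q := by rw [mul_comm]; exact hlb
      exact_mod_cast h5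
    have h5 : (q : ℝ) / (l * nn ((l : ZMod q) * b)) +
        ∑ l ∈ LL b t', (q : ℝ) / (l * nn ((l : ZMod q) * b)) ≤
        ∑ l ∈ LL b t, (q : ℝ) / (l * nn ((l : ZMod q) * b)) := by
      have hnot : l ∉ LL b t' := by
        intro h
        have := (mem_filter.1 h).1
        rw [mem_Icc] at this
        omega
      rw [← sum_insert (f := fun l : ℕ => (q : ℝ) / (l * nn ((l : ZMod q) * b))) hnot]
      apply sum_le_sum_of_subset_of_nonneg
      · intro y hy
        rw [mem_insert] at hy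
        rcases hy with rfl | hy
        · rw [LL, mem_filter, mem_Icc]
          refine ⟨⟨hl1, hlt⟩, ?_⟩
          rw [hzn]; exact hlz.le
        · rw [LL, mem_filter, mem_Icc] at hy ⊢
          exact ⟨⟨hy.1.1, by omega⟩, hy.2⟩
      · intro y _ _
        positivity
    rw [htt, NN_add]
    rw [← htt]
    have e : ((t : ℕ) : ℝ) * t3 / q = ((m * l : ℕ) : ℝ) * t3 / q + (t' : ℝ) * t3 / q := by
      conv_lhs => rw [htt]
      push_cast
      ring
    rw [e]
    push_cast at h1 h2 ⊢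
    rw [abs_le] at h1 h2 ⊢
    constructor <;> linarith [h1.1, h1.2, h2.1, h2.2]

end G1

open Classical in
theorem disc2 {q : ℕ} [Fact q.Prime] (b c : ZMod q) (hb : b ≠ 0) (t1 t3 : ℕ) (h1 : t1 < q) (h3 : t3 < q) :
    |(((Icc 1 t1 ×ˢ Icc 1 t3).filter (fun e : ℕ × ℕ => (e.2 : ZMod q) = c + b * (e.1 : ZMod q))).card : ℝ)
      - (t1:ℝ) * t3 / q| ≤ 10 * S2 b := by
  have hq : 0 < q := (Fact.out : q.Prime).pos
  have hqr : (0 : ℝ) < q := by exact_mod_cast hq
  have e1 : ((Icc 1 t1 ×ˢ Icc 1 t3).filter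
      (fun e : ℕ × ℕ => (e.2 : ZMod q) = c + b * (e.1 : ZMod q))).card =
      G1.NN t3 b (c + b) t1 := by
    rw [card_filter, sum_product]
    unfold G1.NN G1.cnt
    rw [Finset.range_eq_Ico, Finset.sum_Ico_eq_sum_range, ← Finset.Ico_succ_right_eq_Icc,
      Finset.sum_Ico_eq_sum_range]
    simp only [card_filter, Nat.sub_zero, zero_add]
    apply sum_congr rfl
    intro j _
    apply sum_congr rfl
    intro e _
    congr 1
    apply propext
    push_cast
    constructor <;> intro h <;> rw [h] <;> ring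
  rw [e1]
  have h2 := G1.main b hb t3 h3 t1 h1 (c + b)
  have h4 : ∑ l ∈ G1.LL b t1, (q : ℝ) / (l * nn ((l : ZMod q) * b)) ≤
      ∑ l ∈ (univ : Finset (ZMod q)).filter (fun l => l ≠ 0 ∧ nn l * nn (l * b) ≤ q),
        (q:ℝ) / ((nn l : ℝ) * nn (l * b)) := by
    have hlt : ∀ l ∈ G1.LL b t1, 1 ≤ l ∧ l < q ∧ l * nn ((l : ZMod q) * b) ≤ q := by
      intro l hl
      rw [G1.LL, mem_filter, mem_Icc] at hl
      exact ⟨hl.1.1, by omega, hl.2⟩
    have hinj : Set.InjOn (fun l : ℕ => (l : ZMod q)) (G1.LL b t1) := by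
      intro i hi j hj hij
      have hi' := hlt i hi
      have hj' := hlt j hj
      simp only at hij
      rw [ZMod.natCast_eq_natCast_iff'] at hij
      rwa [Nat.mod_eq_of_lt hi'.2.1, Nat.mod_eq_of_lt hj'.2.1] at hij
    have hnn : ∀ l : ℕ, nn (l : ZMod q) ≤ l := by
      intro l
      have := G1.nn_cast_le (q := q) (l : ℤ)
      simpa using this
    calc ∑ l ∈ G1.LL b t1, (q : ℝ) / (l * nn ((l : ZMod q) * b))
        ≤ ∑ l ∈ G1.LL b t1, (q : ℝ) / ((nn (l : ZMod q) : ℝ) * nn ((l : ZMod q) * b)) := by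
          apply sum_le_sum
          intro l hl
          have hl' := hlt l hl
          have hl0 : (l : ZMod q) ≠ 0 := by
            intro h0
            rw [ZMod.natCast_eq_zero_iff] at h0
            exact absurd (Nat.le_of_dvd (by omega) h0) (by omega)
          have hp1 : 0 < nn (l : ZMod q) := Nat.pos_of_ne_zero fun h => hl0 ((G1.nn_eq_zero' _).1 h)
          have hp2 : 0 < nn ((l : ZMod q) * b) :=
            Nat.pos_of_ne_zero fun h => (mul_ne_zero hl0 hb) ((G1.nn_eq_zero' _).1 h)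
          have hp1' : (0 : ℝ) < nn (l : ZMod q) := by exact_mod_cast hp1
          have hp2' : (0 : ℝ) < nn ((l : ZMod q) * b) := by exact_mod_cast hp2
          apply div_le_div_of_nonneg_left hqr.le (mul_pos hp1' hp2')
          apply mul_le_mul_of_nonneg_right _ hp2'.le
          exact_mod_cast hnn l
      _ = ∑ x ∈ (G1.LL b t1).image (fun l : ℕ => (l : ZMod q)),
            (q:ℝ) / ((nn x : ℝ) * nn (x * b)) :=
          (sum_image (f := fun x : ZMod q => (q:ℝ) / ((nn x : ℝ) * nn (x * b))) hinj).symm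
      _ ≤ _ := by
          apply sum_le_sum_of_subset_of_nonneg
          · intro x hx
            obtain ⟨l, hl, rfl⟩ := mem_image.1 hx
            have hl' := hlt l hl
            rw [mem_filter]
            refine ⟨mem_univ _, ?_, ?_⟩
            · intro h0
              rw [ZMod.natCast_eq_zero_iff] at h0
              exact absurd (Nat.le_of_dvd (by omega) h0) (by omega)
            · exact (Nat.mul_le_mul_right _ (hnn l)).trans hl'.2.2
          · intro x _ _
            positivity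
  have h5 : S2 b = 1 + ∑ l ∈ (univ : Finset (ZMod q)).filter (fun l => l ≠ 0 ∧ nn l * nn (l * b) ≤ q),
        (q:ℝ) / ((nn l : ℝ) * nn (l * b)) := rfl
  have h6 : 0 ≤ ∑ l ∈ (univ : Finset (ZMod q)).filter (fun l => l ≠ 0 ∧ nn l * nn (l * b) ≤ q),
        (q:ℝ) / ((nn l : ℝ) * nn (l * b)) := sum_nonneg fun _ _ => by positivity
  rw [h5]
  linarith

end Pool.Agent.H935R2.PS
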