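import Pool.Agent.H935R2.PS.A1
import Pool.Agent.H935R2.PS.A2
import Pool.Agent.H935R2.PS.G1
import Pool.Agent.H935R2.PS.Defs2

set_option autoImplicit false

/-!
# Task G5 (helper739): the mean of the line cells over the first multiplier
-/

namespace Pool.Agent.H935R2.PS

open Finset

namespace G5

variable {q : ℕ}

theorem stdAdd_zero [NeZero q] : ZMod.stdAddChar (N := q) 0 = 1 := AddChar.map_zero_eq_one _

theorem G_zero [NeZero q] (c : ZMod q) (t : ℕ) : G c t 0 = (t : ℂ) := by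
  unfold G
  simp

/-- orthogonality with two geometric sums -/
theorem sumGG [Fact q.Prime] (b c3 : ZMod q) (t1 t3 : ℕ) :
    ∑ y : ZMod q, G 0 t1 (b * y) * G c3 t3 (-y) = (q : ℂ) *
      (((Icc 1 t1 ×ˢ Icc 1 t3).filter (fun e : ℕ × ℕ =>
        (e.2 : ZMod q) = c3 + b * (e.1 : ZMod q))).card : ℂ) := by
  have h1 : ∀ y : ZMod q, G 0 t1 (b * y) * G c3 t3 (-y) =
      ∑ e ∈ Icc 1 t1 ×ˢ Icc 1 t3, ZMod.stdAddChar (y * (b * (e.1 : ZMod q) - ((e.2 : ZMod q) - c3))) := by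
    intro y
    unfold G
    rw [Finset.sum_mul_sum, ← Finset.sum_product']
    refine Finset.sum_congr rfl fun e _ => ?_
    rw [← AddChar.map_add_eq_mul]
    congr 1
    ring
  rw [Finset.sum_congr rfl fun y _ => h1 y, Finset.sum_comm, Finset.card_filter, Nat.cast_sum,
    Finset.mul_sum]
  refine Finset.sum_congr rfl fun e _ => ?_
  rw [sum_char]
  by_cases h : (e.2 : ZMod q) = c3 + b * (e.1 : ZMod q)
  · rw [if_pos (by rw [h]; ring), if_pos h]; simp
  · rw [if_neg (fun h' => h (by linear_combination -h')), if_neg h]; simp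

theorem natCast_inj_of_lt [NeZero q] {a b : ℕ} (ha : a < q) (hb : b < q)
    (h : (a : ZMod q) = (b : ZMod q)) : a = b := by
  have h1 := congrArg ZMod.val h
  rwa [ZMod.val_natCast_of_lt ha, ZMod.val_natCast_of_lt hb] at h1

theorem card_line [Fact q.Prime] (b c3 : ZMod q) (t1 t3 : ℕ) (h3 : t3 < q) :
    ((Icc 1 t1 ×ˢ Icc 1 t3).filter (fun e : ℕ × ℕ =>
        (e.2 : ZMod q) = c3 + b * (e.1 : ZMod q))).card ≤ t1 := by
  have : ((Icc 1 t1 ×ˢ Icc 1 t3).filter (fun e : ℕ × ℕ =>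
        (e.2 : ZMod q) = c3 + b * (e.1 : ZMod q))).card ≤ (Icc 1 t1).card := by
    refine Finset.card_le_card_of_injOn Prod.fst ?_ ?_
    · intro e he
      rw [Finset.mem_coe, Finset.mem_filter, Finset.mem_product] at he
      exact he.1.1
    · intro e he f hf hef
      rw [Finset.mem_coe, Finset.mem_filter, Finset.mem_product, Finset.mem_Icc, Finset.mem_Icc] at he hf
      have h := he.2
      rw [hef, ← hf.2] at h
      have := natCast_inj_of_lt (q := q) (by omega) (by omega) h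
      exact Prod.ext hef this
  simpa using this

theorem sum_G_univ [Fact q.Prime] (t : ℕ) (ht : t < q) : ∑ z : ZMod q, G 0 t z = 0 := by
  unfold G
  rw [Finset.sum_comm]
  refine Finset.sum_eq_zero fun j hj => ?_
  rw [Finset.mem_Icc] at hj
  rw [sum_char, if_neg]
  rw [sub_zero]
  intro h
  have := natCast_inj_of_lt (q := q) (a := j) (b := 0) (by omega) (by omega) (by simpa using h)
  omega

open Classical in
theorem sum_G_neg [Fact q.Prime] (c : ZMod q) (t : ℕ) (ht : t < q) :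
    ‖∑ x ∈ (univ : Finset (ZMod q)).filter (fun x => x ≠ 0), G c t (-x)‖ ≤ q := by
  have : ∑ x ∈ (univ : Finset (ZMod q)).filter (fun x => x ≠ 0), G c t (-x) =
      ∑ v ∈ (univ : Finset (ZMod q)).filter (fun v => v ≠ 0), G c t v := by
    refine Finset.sum_nbij' (fun x => -x) (fun x => -x) ?_ ?_ ?_ ?_ ?_
    all_goals intro x; simp
  rw [this]
  exact G_sum c t ht

/-- exact division of a least residue -/
theorem nn_div [Fact q.Prime] (hq : 3 ≤ q) (x : ZMod q) (g : ℕ) (hg : 1 ≤ g) (hgq : g < q)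
    (hd : g ∣ nn x) : nn (x / (g : ZMod q)) = nn x / g := by
  have hodd : q % 2 = 1 := by
    rcases (Fact.out : q.Prime).eq_two_or_odd with h | h
    · omega
    · exact h
  have hg0 : (g : ZMod q) ≠ 0 := by
    intro h
    have := natCast_inj_of_lt (q := q) (a := g) (b := 0) hgq (by omega) (by simpa using h)
    omega
  obtain ⟨m, hm⟩ : (g : ℤ) ∣ x.valMinAbs := Int.natCast_dvd.mpr hd
  have hx : x = ((g : ZMod q)) * (m : ZMod q) := by
    have := ZMod.coe_valMinAbs x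
    rw [hm] at this
    rw [← this]
    push_cast
    ring
  have hxm : x / (g : ZMod q) = (m : ZMod q) := by
    rw [hx]
    field_simp
  have hn : nn x = g * m.natAbs := by
    unfold nn
    rw [hm, Int.natAbs_mul, Int.natAbs_natCast]
  have hle := nn_le x
  have hm2 : 2 * m.natAbs < q := by
    have h1 : m.natAbs ≤ g * m.natAbs := Nat.le_mul_of_pos_left _ (by omega)
    omega
  rw [hxm]
  have h2 : nn (m : ZMod q) = m.natAbs := by
    unfold nn
    rw [valMinAbs_intCast m hm2]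
  rw [h2, hn, Nat.mul_div_cancel_left _ (by omega)]


theorem gv_pos [Fact q.Prime] (v : Fin 3 → ZMod q) (h1 : v 1 ≠ 0) : 1 ≤ gv v := by
  have h : nn (v 1) ≠ 0 := fun h => h1 ((nn_eq_zero _).1 h)
  unfold gv
  rcases Nat.eq_zero_or_pos (Nat.gcd (nn (v 0)) (Nat.gcd (nn (v 1)) (nn (v 2)))) with h0 | h0
  · exfalso
    rw [Nat.gcd_eq_zero_iff, Nat.gcd_eq_zero_iff] at h0
    exact h h0.2.1
  · exact h0

theorem gv_dvd [NeZero q] (v : Fin 3 → ZMod q) (j : Fin 3) : gv v ∣ nn (v j) := by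
  unfold gv
  fin_cases j
  · exact Nat.gcd_dvd_left _ _
  · exact (Nat.gcd_dvd_right _ _).trans (Nat.gcd_dvd_left _ _)
  · exact (Nat.gcd_dvd_right _ _).trans (Nat.gcd_dvd_right _ _)

theorem gv_lt [Fact q.Prime] (v : Fin 3 → ZMod q) (h1 : v 1 ≠ 0) : gv v < q := by
  have h := Nat.le_of_dvd (Nat.pos_of_ne_zero fun h => h1 ((nn_eq_zero _).1 h)) (gv_dvd v 1)
  have h2 := nn_le (v 1)
  have h3 : 2 ≤ q := (Fact.out : q.Prime).two_le
  omega

theorem dl_div [Fact q.Prime] (hq : 3 ≤ q) (v : Fin 3 → ZMod q) (h1 : v 1 ≠ 0) (j : Fin 3) :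
    dl (v j / (gv v : ZMod q)) = Nat.log 2 (nn (v j) / gv v) := by
  unfold dl
  rw [nn_div hq (v j) (gv v) (gv_pos v h1) (gv_lt v h1) (gv_dvd v j)]

/-- the directly bad vectors of the substitution -/
theorem dir_iff [Fact q.Prime] (hq : 3 ≤ q) (b : ZMod q) (hb : good2 b) (v : Fin 3 → ZMod q) :
    ((v 1 ≠ 0 ∧ v 0 ≠ b * v 2 ∧ ¬ lgood ((v 0 - b * v 2) / v 1) b) ∧ LBdir v) ↔
      (v 1 ≠ 0 ∧ (v 0 ≠ 0 ∨ v 2 ≠ 0) ∧ LBdir v) := by
  constructor
  · rintro ⟨⟨h1, h2, _⟩, h4⟩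
    refine ⟨h1, ?_, h4⟩
    by_contra hcon
    push Not at hcon
    apply h2
    rw [hcon.1, hcon.2, mul_zero]
  · rintro ⟨h1, h2, h4⟩
    have hg0 : (gv v : ZMod q) ≠ 0 := by
      intro h
      have := natCast_inj_of_lt (q := q) (a := gv v) (b := 0) (gv_lt v h1) (by omega) (by simpa using h)
      have := gv_pos v h1
      omega
    have h4' := h4
    unfold LBdir LB at h4'
    rw [← dl_div hq v h1 0, ← dl_div hq v h1 1, ← dl_div hq v h1 2] at h4'
    have hne : v 0 ≠ b * v 2 := by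
      intro h
      have hv2 : v 2 ≠ 0 := by
        rcases h2 with h2 | h2
        · intro h5
          apply h2
          rw [h, h5, mul_zero]
        · exact h2
      have h6 := hb.2 (v 2 / (gv v : ZMod q)) (div_ne_zero hv2 hg0)
      have h7 : v 2 / (gv v : ZMod q) * b = v 0 / (gv v : ZMod q) := by
        rw [h]
        ring
      rw [h7] at h6
      omega
    refine ⟨⟨h1, hne, ?_⟩, h4⟩
    intro hl
    have h8 := hl.2.2 (v 1 / (gv v : ZMod q)) (v 2 / (gv v : ZMod q)) (Or.inl (div_ne_zero h1 hg0))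
    have h9 : (v 0 - b * v 2) / v 1 * (v 1 / (gv v : ZMod q)) + b * (v 2 / (gv v : ZMod q)) =
        v 0 / (gv v : ZMod q) := by
      field_simp
      ring
    rw [h9] at h8
    omega

open Classical in
/-- the substitution `v = (α x + b y, x, y)` -/
theorem subst [Fact q.Prime] (b : ZMod q) (P : ZMod q → Prop) (f : ZMod q → ZMod q → ZMod q → ℂ) :
    ∑ α ∈ (univ : Finset (ZMod q)).filter (fun α => α ≠ 0 ∧ ¬ P α),
      ∑ v ∈ (univ : Finset (ZMod q × ZMod q)).filter (fun v => v.1 ≠ 0),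
        f (α * v.1 + b * v.2) v.1 v.2 =
    ∑ v ∈ (univ : Finset (Fin 3 → ZMod q)).filter (fun v => v 1 ≠ 0 ∧ v 0 ≠ b * v 2 ∧
      ¬ P ((v 0 - b * v 2) / v 1)), f (v 0) (v 1) (v 2) := by
  rw [← Finset.sum_product']
  refine Finset.sum_bij' (fun p _ => ![p.1 * p.2.1 + b * p.2.2, p.2.1, p.2.2])
    (fun v _ => ((v 0 - b * v 2) / v 1, (v 1, v 2))) ?_ ?_ ?_ ?_ ?_
  · rintro ⟨α, x, y⟩ hp
    simp only [Finset.mem_product, Finset.mem_filter, Finset.mem_univ, true_and] at hp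
    simp only [Finset.mem_filter, Finset.mem_univ, true_and, Matrix.cons_val_zero,
      Matrix.cons_val_one, Matrix.cons_val]
    refine ⟨hp.2, ?_, ?_⟩
    · intro h
      have : α * x = 0 := by linear_combination h
      rcases mul_eq_zero.1 this with h | h
      · exact hp.1.1 h
      · exact hp.2 h
    · have : (α * x + b * y - b * y) / x = α := by
        have := hp.2
        field_simp
        ring
      rw [this]
      exact hp.1.2
  · intro v hv
    simp only [Finset.mem_filter, Finset.mem_univ, true_and] at hv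
    simp only [Finset.mem_product, Finset.mem_filter, Finset.mem_univ, true_and]
    exact ⟨⟨div_ne_zero (sub_ne_zero.2 hv.2.1) hv.1, hv.2.2⟩, hv.1⟩
  · rintro ⟨α, x, y⟩ hp
    simp only [Finset.mem_product, Finset.mem_filter, Finset.mem_univ, true_and] at hp
    have hx := hp.2
    simp only [Matrix.cons_val_zero, Matrix.cons_val_one, Matrix.cons_val, Prod.mk.injEq, and_true]
    field_simp
    ring
  · intro v hv
    simp only [Finset.mem_filter, Finset.mem_univ, true_and] at hv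
    have hx := hv.1
    funext j
    fin_cases j
    · simp
      field_simp
      ring
    · simp
    · simp
  · rintro ⟨α, x, y⟩ hp
    simp


open Classical in
theorem Xl_split [Fact q.Prime] (c2 c3 α b : ZMod q) (t1 t2 t3 : ℕ) :
    ((Xl c2 c3 α b t1 t2 t3 : ℝ) : ℂ) = (1 / (q:ℂ) ^ 2) *
      ((t2 : ℂ) * ((q : ℂ) * (((Icc 1 t1 ×ˢ Icc 1 t3).filter (fun e : ℕ × ℕ =>
        (e.2 : ZMod q) = c3 + b * (e.1 : ZMod q))).card : ℂ) - t1 * t3) +
      ∑ v ∈ (univ : Finset (ZMod q × ZMod q)).filter (fun v => v.1 ≠ 0),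
        G 0 t1 (α * v.1 + b * v.2) * G c2 t2 (-v.1) * G c3 t3 (-v.2)) := by
  rw [Xl_fourier]
  congr 1
  have h1 : ∑ v ∈ (univ : Finset (ZMod q × ZMod q)).filter (fun v => v ≠ 0),
        G 0 t1 (α * v.1 + b * v.2) * G c2 t2 (-v.1) * G c3 t3 (-v.2) =
      ∑ v ∈ (univ : Finset (ZMod q × ZMod q)).filter (fun v => v.1 = 0 ∧ v.2 ≠ 0),
        G 0 t1 (α * v.1 + b * v.2) * G c2 t2 (-v.1) * G c3 t3 (-v.2) +
      ∑ v ∈ (univ : Finset (ZMod q × ZMod q)).filter (fun v => v.1 ≠ 0),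
        G 0 t1 (α * v.1 + b * v.2) * G c2 t2 (-v.1) * G c3 t3 (-v.2) := by
    rw [← Finset.sum_union]
    · refine Finset.sum_congr ?_ fun _ _ => rfl
      ext ⟨x, y⟩
      simp only [Finset.mem_filter, Finset.mem_univ, true_and, Finset.mem_union, ne_eq,
        Prod.mk_eq_zero]
      tauto
    · rw [Finset.disjoint_filter]
      intro v _ h1 h2
      exact h2 h1.1
  rw [h1]
  congr 1
  have h2 : ∑ v ∈ (univ : Finset (ZMod q × ZMod q)).filter (fun v => v.1 = 0 ∧ v.2 ≠ 0),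
        G 0 t1 (α * v.1 + b * v.2) * G c2 t2 (-v.1) * G c3 t3 (-v.2) =
      ∑ y ∈ (univ : Finset (ZMod q)).filter (fun y => y ≠ 0),
        (t2 : ℂ) * (G 0 t1 (b * y) * G c3 t3 (-y)) := by
    refine Finset.sum_nbij' (fun v => v.2) (fun y => (0, y)) ?_ ?_ ?_ ?_ ?_
    · intro v
      simp
    · intro y
      simp
    · rintro ⟨x, y⟩ hv
      simp only [Finset.mem_filter, Finset.mem_univ, true_and] at hv
      simp [hv.1]
    · intro y _
      rfl
    · rintro ⟨x, y⟩ hv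
      simp only [Finset.mem_filter, Finset.mem_univ, true_and] at hv
      simp only [hv.1, mul_zero, zero_add, neg_zero, G_zero]
      ring
  rw [h2, ← Finset.mul_sum]
  congr 1
  rw [← sumGG, ← Finset.add_sum_erase _ _ (Finset.mem_univ (0 : ZMod q))]
  rw [mul_zero, neg_zero, G_zero, G_zero]
  have h3 : (univ : Finset (ZMod q)).filter (fun y => y ≠ 0) = Finset.univ.erase 0 := by
    ext y
    simp
  rw [h3]
  ring

open Classical in
theorem sum_Y_all [Fact q.Prime] (c2 c3 b : ZMod q) (t1 t2 t3 : ℕ) (h1 : t1 < q) (h2 : t2 < q)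
    (h3 : t3 < q) :
    ‖∑ α ∈ (univ : Finset (ZMod q)).filter (fun α => α ≠ 0),
      ∑ v ∈ (univ : Finset (ZMod q × ZMod q)).filter (fun v => v.1 ≠ 0),
        G 0 t1 (α * v.1 + b * v.2) * G c2 t2 (-v.1) * G c3 t3 (-v.2)‖ ≤ (q : ℝ) ^ 3 := by
  have e1 : ∑ α ∈ (univ : Finset (ZMod q)).filter (fun α => α ≠ 0),
      ∑ v ∈ (univ : Finset (ZMod q × ZMod q)).filter (fun v => v.1 ≠ 0),
        G 0 t1 (α * v.1 + b * v.2) * G c2 t2 (-v.1) * G c3 t3 (-v.2) =
      ∑ v ∈ (univ : Finset (ZMod q × ZMod q)).filter (fun v => v.1 ≠ 0),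
        G c2 t2 (-v.1) * (-(G 0 t1 (b * v.2) * G c3 t3 (-v.2))) := by
    rw [Finset.sum_comm]
    refine Finset.sum_congr rfl fun v hv => ?_
    simp only [Finset.mem_filter, Finset.mem_univ, true_and] at hv
    have e2 : ∑ α ∈ (univ : Finset (ZMod q)).filter (fun α => α ≠ 0), G 0 t1 (α * v.1 + b * v.2) =
        - G 0 t1 (b * v.2) := by
      have e3 : ∑ α : ZMod q, G 0 t1 (α * v.1 + b * v.2) = 0 := by
        rw [← sum_G_univ t1 h1]
        refine Fintype.sum_bijective (fun α : ZMod q => α * v.1 + b * v.2) ?_ _ _ fun _ => rfl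
        rw [Fintype.bijective_iff_injective_and_card]
        refine ⟨?_, rfl⟩
        intro x y hxy
        have : (x - y) * v.1 = 0 := by linear_combination hxy
        rcases mul_eq_zero.1 this with h | h
        · exact sub_eq_zero.1 h
        · exact absurd h hv
      rw [← Finset.add_sum_erase _ _ (Finset.mem_univ (0 : ZMod q)), zero_mul, zero_add] at e3
      have e4 : (univ : Finset (ZMod q)).filter (fun y => y ≠ 0) = Finset.univ.erase 0 := by
        ext y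
        simp
      rw [e4]
      linear_combination e3
    rw [← Finset.sum_mul, ← Finset.sum_mul, e2]
    ring
  have e5 : ∑ v ∈ (univ : Finset (ZMod q × ZMod q)).filter (fun v => v.1 ≠ 0),
        G c2 t2 (-v.1) * (-(G 0 t1 (b * v.2) * G c3 t3 (-v.2))) =
      (∑ x ∈ (univ : Finset (ZMod q)).filter (fun x => x ≠ 0), G c2 t2 (-x)) *
        (∑ y : ZMod q, (-(G 0 t1 (b * y) * G c3 t3 (-y)))) := by
    rw [Finset.sum_mul_sum, ← Finset.sum_product']
    refine Finset.sum_congr ?_ fun _ _ => rfl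
    ext ⟨x, y⟩
    simp
  rw [e1, e5, norm_mul, Finset.sum_neg_distrib, norm_neg, sumGG, norm_mul, Complex.norm_natCast,
    Complex.norm_natCast]
  have hA := sum_G_neg c2 t2 h2
  have hB : ((((Icc 1 t1 ×ˢ Icc 1 t3).filter (fun e : ℕ × ℕ =>
        (e.2 : ZMod q) = c3 + b * (e.1 : ZMod q))).card : ℕ) : ℝ) ≤ q := by
    have := card_line b c3 t1 t3 h3
    exact_mod_cast this.trans h1.le
  calc _ ≤ (q:ℝ) * ((q:ℝ) * q) := by
        gcongr
    _ = (q:ℝ) ^ 3 := by ring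

open Classical in
/-- the sum over the bad vectors -/
theorem bad_sum [Fact q.Prime] (hq : 3 ≤ q) (C : ℝ)
    (hC : ∀ (c : Fin 3 → ZMod q) (t : Fin 3 → ℕ), (∀ j, t j < q) →
      ‖∑ v ∈ (univ : Finset (Fin 3 → ZMod q)).filter (fun v => v 1 ≠ 0 ∧ (v 0 ≠ 0 ∨ v 2 ≠ 0) ∧ LBdir v),
      G (c 0) (t 0) (v 0) * G (c 1) (t 1) (v 1) * G (c 2) (t 2) (v 2)‖ ≤ C * (q:ℝ) ^ 3)
    (c2 c3 b : ZMod q) (hb : good2 b) (t1 t2 t3 : ℕ) (h1 : t1 < q) (h2 : t2 < q) (h3 : t3 < q) :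
    ‖∑ α ∈ (univ : Finset (ZMod q)).filter (fun α => α ≠ 0 ∧ ¬ lgood α b),
      ∑ v ∈ (univ : Finset (ZMod q × ZMod q)).filter (fun v => v.1 ≠ 0),
        G 0 t1 (α * v.1 + b * v.2) * G c2 t2 (-v.1) * G c3 t3 (-v.2)‖ ≤
      C * (q:ℝ) ^ 3 + (q : ℝ) ^ 3 *
        ∑ v ∈ (univ : Finset (Fin 3 → ZMod q)).filter (fun v => v 1 ≠ 0 ∧ v 0 ≠ b * v 2 ∧ ¬ LBdir v ∧
          ¬ lgood ((v 0 - b * v 2) / v 1) b), (1:ℝ) / (mx (v 0) * mx (v 1) * mx (v 2)) := by
  rw [subst b (fun α => lgood α b) (fun z x y => G 0 t1 z * G c2 t2 (-x) * G c3 t3 (-y))]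
  rw [← Finset.sum_filter_add_sum_filter_not _ (fun v => LBdir v)]
  refine (norm_add_le _ _).trans (add_le_add ?_ ?_)
  · have e1 : ((univ : Finset (Fin 3 → ZMod q)).filter (fun v => v 1 ≠ 0 ∧ v 0 ≠ b * v 2 ∧
        ¬ lgood ((v 0 - b * v 2) / v 1) b)).filter (fun v => LBdir v) =
        (univ : Finset (Fin 3 → ZMod q)).filter (fun v => v 1 ≠ 0 ∧ (v 0 ≠ 0 ∨ v 2 ≠ 0) ∧ LBdir v) := by
      ext v
      simp only [Finset.mem_filter, Finset.mem_univ, true_and]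
      exact dir_iff hq b hb v
    rw [e1]
    have e2 : ∑ v ∈ (univ : Finset (Fin 3 → ZMod q)).filter (fun v => v 1 ≠ 0 ∧ (v 0 ≠ 0 ∨ v 2 ≠ 0) ∧
        LBdir v), G 0 t1 (v 0) * G c2 t2 (-(v 1)) * G c3 t3 (-(v 2)) =
        ∑ v ∈ (univ : Finset (Fin 3 → ZMod q)).filter (fun v => v 1 ≠ 0 ∧ (v 0 ≠ 0 ∨ v 2 ≠ 0) ∧ LBdir v),
        G 0 t1 (v 0) * G c2 t2 (v 1) * G c3 t3 (v 2) := by
      have hmem : ∀ v : Fin 3 → ZMod q, (v 1 ≠ 0 ∧ (v 0 ≠ 0 ∨ v 2 ≠ 0) ∧ LBdir v) →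
          ((![v 0, -(v 1), -(v 2)] : Fin 3 → ZMod q) 1 ≠ 0 ∧
            ((![v 0, -(v 1), -(v 2)] : Fin 3 → ZMod q) 0 ≠ 0 ∨
              (![v 0, -(v 1), -(v 2)] : Fin 3 → ZMod q) 2 ≠ 0) ∧
            LBdir (![v 0, -(v 1), -(v 2)] : Fin 3 → ZMod q)) := by
        intro v hv
        unfold LBdir gv at hv ⊢
        simpa [nn_neg] using hv
      refine Finset.sum_nbij' (fun v => ![v 0, -(v 1), -(v 2)]) (fun v => ![v 0, -(v 1), -(v 2)])
        ?_ ?_ ?_ ?_ ?_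
      · intro v hv
        rw [Finset.mem_filter] at hv ⊢
        exact ⟨Finset.mem_univ _, hmem v hv.2⟩
      · intro v hv
        rw [Finset.mem_filter] at hv ⊢
        exact ⟨Finset.mem_univ _, hmem v hv.2⟩
      · intro v _
        funext j
        fin_cases j <;> simp
      · intro v _
        funext j
        fin_cases j <;> simp
      · intro v _
        simp
    rw [e2]
    have := hC ![0, c2, c3] ![t1, t2, t3] (by intro j; fin_cases j <;> simp [h1, h2, h3])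
    simpa using this
  · rw [Finset.mul_sum]
    refine (norm_sum_le _ _).trans ?_
    have e3 : ((univ : Finset (Fin 3 → ZMod q)).filter (fun v => v 1 ≠ 0 ∧ v 0 ≠ b * v 2 ∧
        ¬ lgood ((v 0 - b * v 2) / v 1) b)).filter (fun v => ¬ LBdir v) =
        (univ : Finset (Fin 3 → ZMod q)).filter (fun v => v 1 ≠ 0 ∧ v 0 ≠ b * v 2 ∧ ¬ LBdir v ∧
          ¬ lgood ((v 0 - b * v 2) / v 1) b) := by
      ext v
      simp only [Finset.mem_filter, Finset.mem_univ, true_and]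
      tauto
    rw [e3]
    refine Finset.sum_le_sum fun v _ => ?_
    rw [norm_mul, norm_mul]
    have g0 := G_le 0 t1 h1 (v 0)
    have g1 := G_le c2 t2 h2 (-(v 1))
    have g2 := G_le c3 t3 h3 (-(v 2))
    have m1 : mx (-(v 1)) = mx (v 1) := by unfold mx; rw [nn_neg]
    have m2 : mx (-(v 2)) = mx (v 2) := by unfold mx; rw [nn_neg]
    rw [m1] at g1
    rw [m2] at g2
    have p : ∀ x : ZMod q, 0 < mx x := fun x => lt_of_lt_of_le one_pos (le_max_left _ _)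
    have p0 := p (v 0)
    have p1 := p (v 1)
    have p2 := p (v 2)
    calc _ ≤ ((q:ℝ) / mx (v 0)) * ((q:ℝ) / mx (v 1)) * ((q:ℝ) / mx (v 2)) := by
          gcongr
      _ = _ := by
          field_simp

open Classical in
theorem total [Fact q.Prime] (hq : 3 ≤ q) (C : ℝ)
    (hC : ∀ (c : Fin 3 → ZMod q) (t : Fin 3 → ℕ), (∀ j, t j < q) →
      ‖∑ v ∈ (univ : Finset (Fin 3 → ZMod q)).filter (fun v => v 1 ≠ 0 ∧ (v 0 ≠ 0 ∨ v 2 ≠ 0) ∧ LBdir v),
      G (c 0) (t 0) (v 0) * G (c 1) (t 1) (v 1) * G (c 2) (t 2) (v 2)‖ ≤ C * (q:ℝ) ^ 3)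
    (c2 c3 b : ZMod q) (hb : good2 b) (t1 t2 t3 : ℕ) (h1 : t1 < q) (h2 : t2 < q) (h3 : t3 < q) :
    |∑ α ∈ (univ : Finset (ZMod q)).filter (fun α => lgood α b), Xl c2 c3 α b t1 t2 t3| ≤
      q * (10 * S2 b + (C + 1) +
        ∑ v ∈ (univ : Finset (Fin 3 → ZMod q)).filter (fun v => v 1 ≠ 0 ∧ v 0 ≠ b * v 2 ∧ ¬ LBdir v ∧
          ¬ lgood ((v 0 - b * v 2) / v 1) b), (1:ℝ) / (mx (v 0) * mx (v 1) * mx (v 2))) := by
  set N : ℕ := ((Icc 1 t1 ×ˢ Icc 1 t3).filter (fun e : ℕ × ℕ =>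
        (e.2 : ZMod q) = c3 + b * (e.1 : ZMod q))).card with hN
  set NP : ℝ := ∑ v ∈ (univ : Finset (Fin 3 → ZMod q)).filter (fun v => v 1 ≠ 0 ∧ v 0 ≠ b * v 2 ∧
    ¬ LBdir v ∧ ¬ lgood ((v 0 - b * v 2) / v 1) b), (1:ℝ) / (mx (v 0) * mx (v 1) * mx (v 2)) with hNP
  set Y : ZMod q → ℂ := fun α => ∑ v ∈ (univ : Finset (ZMod q × ZMod q)).filter (fun v => v.1 ≠ 0),
        G 0 t1 (α * v.1 + b * v.2) * G c2 t2 (-v.1) * G c3 t3 (-v.2) with hY
  have hq0 : (0:ℝ) < q := by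
    have : 0 < q := by omega
    exact_mod_cast this
  have hqC : (q:ℂ) ≠ 0 := by
    have : q ≠ 0 := by omega
    exact_mod_cast this
  have e1 : ((∑ α ∈ (univ : Finset (ZMod q)).filter (fun α => lgood α b),
      Xl c2 c3 α b t1 t2 t3 : ℝ) : ℂ) =
      (((univ : Finset (ZMod q)).filter (fun α => lgood α b)).card : ℂ) * ((t2 : ℂ) / q *
        ((N : ℂ) - t1 * t3 / q)) + (1 / (q:ℂ) ^ 2) *
        (∑ α ∈ (univ : Finset (ZMod q)).filter (fun α => α ≠ 0), Y α -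
          ∑ α ∈ (univ : Finset (ZMod q)).filter (fun α => α ≠ 0 ∧ ¬ lgood α b), Y α) := by
    have e2 : ∑ α ∈ (univ : Finset (ZMod q)).filter (fun α => α ≠ 0), Y α =
        ∑ α ∈ (univ : Finset (ZMod q)).filter (fun α => lgood α b), Y α +
          ∑ α ∈ (univ : Finset (ZMod q)).filter (fun α => α ≠ 0 ∧ ¬ lgood α b), Y α := by
      rw [← Finset.sum_filter_add_sum_filter_not _ (fun α => lgood α b)]
      congr 1
      · refine Finset.sum_congr ?_ fun _ _ => rfl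
        ext α
        simp only [Finset.mem_filter, Finset.mem_univ, true_and]
        exact ⟨fun h => h.2, fun h => ⟨h.1, h⟩⟩
      · refine Finset.sum_congr ?_ fun _ _ => rfl
        ext α
        simp only [Finset.mem_filter, Finset.mem_univ, true_and]
    rw [e2, add_sub_cancel_right, Complex.ofReal_sum, Finset.mul_sum, Finset.card_eq_sum_ones,
      Nat.cast_sum, Finset.sum_mul, ← Finset.sum_add_distrib]
    refine Finset.sum_congr rfl fun α _ => ?_
    rw [Xl_split, ← hN]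
    simp only [hY]
    field_simp
    ring
  have e3 : |∑ α ∈ (univ : Finset (ZMod q)).filter (fun α => lgood α b), Xl c2 c3 α b t1 t2 t3| =
      ‖((∑ α ∈ (univ : Finset (ZMod q)).filter (fun α => lgood α b),
      Xl c2 c3 α b t1 t2 t3 : ℝ) : ℂ)‖ := by
    rw [Complex.norm_real, Real.norm_eq_abs]
  rw [e3, e1]
  have hcard : ((((univ : Finset (ZMod q)).filter (fun α => lgood α b)).card : ℕ) : ℝ) ≤ q := by
    have : ((univ : Finset (ZMod q)).filter (fun α => lgood α b)).card ≤ q := by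
      refine (Finset.card_le_univ _).trans ?_
      rw [ZMod.card]
    exact_mod_cast this
  have hD := disc2 b c3 hb.1 t1 t3 h1 h3
  rw [← hN] at hD
  have hDC : ‖(N : ℂ) - t1 * t3 / q‖ ≤ 10 * S2 b := by
    have : ((N : ℂ) - t1 * t3 / q) = (((N : ℝ) - (t1:ℝ) * t3 / q : ℝ) : ℂ) := by push_cast; ring
    rw [this, Complex.norm_real, Real.norm_eq_abs]
    exact hD
  have hS2 : 0 ≤ S2 b := by
    have := (norm_nonneg _).trans hDC
    linarith
  have hA := sum_Y_all c2 c3 b t1 t2 t3 h1 h2 h3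
  have hB := bad_sum hq C hC c2 c3 b hb t1 t2 t3 h1 h2 h3
  rw [← hNP] at hB
  refine (norm_add_le _ _).trans ?_
  rw [norm_mul, norm_mul, norm_mul, norm_div, Complex.norm_natCast, Complex.norm_natCast,
    Complex.norm_natCast, norm_div, norm_one, norm_pow, Complex.norm_natCast]
  have ht2 : (t2:ℝ) / q ≤ 1 := by
    rw [div_le_one hq0]
    exact_mod_cast h2.le
  have h5 : ‖∑ α ∈ (univ : Finset (ZMod q)).filter (fun α => α ≠ 0), Y α -
          ∑ α ∈ (univ : Finset (ZMod q)).filter (fun α => α ≠ 0 ∧ ¬ lgood α b), Y α‖ ≤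
      (q:ℝ) ^ 3 + (C * (q:ℝ) ^ 3 + (q:ℝ) ^ 3 * NP) := (norm_sub_le _ _).trans (add_le_add hA hB)
  calc _ ≤ (q:ℝ) * (1 * (10 * S2 b)) + 1 / (q:ℝ) ^ 2 *
        ((q:ℝ) ^ 3 + (C * (q:ℝ) ^ 3 + (q:ℝ) ^ 3 * NP)) := by
        gcongr
    _ = _ := by
        field_simp
        ring

end G5

open Classical in
theorem mean_line_of
    (hS2 : ∃ C : ℝ, 0 < C ∧ ∃ q₀ : ℕ, ∀ q : ℕ, q₀ ≤ q → ∀ _hq : Fact q.Prime,
      ∑ b ∈ (univ : Finset (ZMod q)).filter (fun b => good2 b), S2 b ≤ C * (La q * √(La q)) * q)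
    (hmain : ∃ C : ℝ, 0 < C ∧ ∀ q : ℕ, ∀ _hq : Fact q.Prime, 3 ≤ q →
      ∀ (c : Fin 3 → ZMod q) (t : Fin 3 → ℕ), (∀ j, t j < q) →
      ‖∑ v ∈ (univ : Finset (Fin 3 → ZMod q)).filter (fun v => v 1 ≠ 0 ∧ (v 0 ≠ 0 ∨ v 2 ≠ 0) ∧ LBdir v),
        G (c 0) (t 0) (v 0) * G (c 1) (t 1) (v 1) * G (c 2) (t 2) (v 2)‖ ≤ C * (q:ℝ) ^ 3)
    (hnp : ∃ C : ℝ, 0 < C ∧ ∃ q₀ : ℕ, ∀ q : ℕ, q₀ ≤ q → ∀ _hq : Fact q.Prime, Suit q →
      ∑ b ∈ (univ : Finset (ZMod q)).filter (fun b => good2 b),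
        ∑ v ∈ (univ : Finset (Fin 3 → ZMod q)).filter (fun v => v 1 ≠ 0 ∧ v 0 ≠ b * v 2 ∧ ¬ LBdir v ∧
          ¬ lgood ((v 0 - b * v 2) / v 1) b), (1:ℝ) / (mx (v 0) * mx (v 1) * mx (v 2)) ≤ C * q) :
    ∃ C : ℝ, 0 < C ∧ ∃ q₀ : ℕ, ∀ q : ℕ, q₀ ≤ q → ∀ _hq : Fact q.Prime, Suit q →
    ∃ Ψ : ZMod q → ℝ, (∀ b, 0 ≤ Ψ b) ∧
      (∑ b ∈ (univ : Finset (ZMod q)).filter (fun b => good2 b), Ψ b ≤ C * (La q * √(La q)) * q) ∧
      ∀ b, good2 b → ∀ (c2 c3 : ZMod q) (t1 t2 t3 : ℕ), t1 < q → t2 < q → t3 < q →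
      |∑ α ∈ (univ : Finset (ZMod q)).filter (fun α => lgood α b), Xl c2 c3 α b t1 t2 t3| ≤ q * Ψ b := by
  obtain ⟨C1, hC1, q1, H1⟩ := hS2
  obtain ⟨C2, hC2, H2⟩ := hmain
  obtain ⟨C3, hC3, q3, H3⟩ := hnp
  refine ⟨10 * C1 + (C2 + 1) + C3, by positivity, max (max q1 q3) 3, ?_⟩
  intro q hq0 hq' hsuit
  have hqq1 : q1 ≤ q := by omega
  have hqq3 : q3 ≤ q := by omega
  have hq3 : 3 ≤ q := by omega
  refine ⟨fun b => 10 * S2 b + (C2 + 1) +
    ∑ v ∈ (univ : Finset (Fin 3 → ZMod q)).filter (fun v => v 1 ≠ 0 ∧ v 0 ≠ b * v 2 ∧ ¬ LBdir v ∧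
          ¬ lgood ((v 0 - b * v 2) / v 1) b), (1:ℝ) / (mx (v 0) * mx (v 1) * mx (v 2)), ?_, ?_, ?_⟩
  · intro b
    have h1 : 0 ≤ S2 b := by
      unfold S2
      positivity
    have h2 : 0 ≤ ∑ v ∈ (univ : Finset (Fin 3 → ZMod q)).filter (fun v => v 1 ≠ 0 ∧ v 0 ≠ b * v 2 ∧
        ¬ LBdir v ∧ ¬ lgood ((v 0 - b * v 2) / v 1) b), (1:ℝ) / (mx (v 0) * mx (v 1) * mx (v 2)) := by
      refine Finset.sum_nonneg fun v _ => ?_
      have p : ∀ x : ZMod q, 0 < mx x := fun x => lt_of_lt_of_le one_pos (le_max_left _ _)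
      have p0 := p (v 0)
      have p1 := p (v 1)
      have p2 := p (v 2)
      positivity
    positivity
  · have hLa : (1:ℝ) ≤ La q := by
      have : 1 ≤ La q := by
        unfold La
        exact Nat.log_pos one_lt_two (by omega)
      exact_mod_cast this
    have hL1 : (1:ℝ) ≤ La q * √(La q) := by
      have : (1:ℝ) ≤ √(La q) := by
        rw [Real.one_le_sqrt]
        exact hLa
      nlinarith
    have hq0' : (0:ℝ) < q := by
      have : 0 < q := by omega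
      exact_mod_cast this
    rw [Finset.sum_add_distrib, Finset.sum_add_distrib, ← Finset.mul_sum]
    have g1 := H1 q hqq1 hq'
    have g3 := H3 q hqq3 hq' hsuit
    have g2 : ∑ _b ∈ (univ : Finset (ZMod q)).filter (fun b => good2 b), (C2 + 1) ≤ (C2 + 1) * q := by
      rw [Finset.sum_const, nsmul_eq_mul, mul_comm]
      have : ((((univ : Finset (ZMod q)).filter (fun b => good2 b)).card : ℕ) : ℝ) ≤ q := by
        have : ((univ : Finset (ZMod q)).filter (fun b => good2 b)).card ≤ q := by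
          refine (Finset.card_le_univ _).trans ?_
          rw [ZMod.card]
        exact_mod_cast this
      gcongr
    have g4 : (C2 + 1) * q ≤ (C2 + 1) * (La q * √(La q)) * q := by
      have : (C2 + 1) * 1 * q ≤ (C2 + 1) * (La q * √(La q)) * q := by gcongr
      linarith
    have g5 : C3 * q ≤ C3 * (La q * √(La q)) * q := by
      have : C3 * 1 * q ≤ C3 * (La q * √(La q)) * q := by gcongr
      linarith
    nlinarith [g1, g2, g3, g4, g5]
  · intro b hb c2 c3 t1 t2 t3 h1 h2 h3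
    exact G5.total hq3 C2 (H2 q hq' hq3) c2 c3 b hb t1 t2 t3 h1 h2 h3

end Pool.Agent.H935R2.PS
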