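import Pool.Agent.H935R2.PS.A1

set_option autoImplicit false

/-!
# Task H1 (helper269): first moments of `Rp` and `Rl`
-/

namespace Pool.Agent.H935R2.PS

open Finset

namespace H1

variable {q : ℕ}

/-- the sum of `1 / |x|` over all `x` (the term `x = 0` vanishes) -/
theorem sum_all [NeZero q] (hq : 2 ≤ q) : ∑ x : ZMod q, (1:ℝ) / nn x ≤ 2 * (La q + 1) := by
  classical
  rw [← Finset.sum_filter_add_sum_filter_not univ (fun x : ZMod q => x ≠ 0)]
  have h2 : ∑ x ∈ (univ : Finset (ZMod q)).filter (fun x => ¬ x ≠ 0), (1:ℝ) / nn x = 0 := by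
    refine Finset.sum_eq_zero fun x hx => ?_
    have h3 := (mem_filter.mp hx).2
    rw [not_not] at h3
    rw [h3, (nn_eq_zero (0 : ZMod q)).mpr rfl]
    simp
  rw [h2, add_zero]
  exact sum_inv_nn hq

theorem sum_mul [Fact q.Prime] (l : ZMod q) (hl : l ≠ 0) (f : ZMod q → ℝ) :
    ∑ a : ZMod q, f (l * a) = ∑ x : ZMod q, f x :=
  Equiv.sum_comp (Equiv.mulLeft₀ l hl) f

theorem one_le_La (hq : 3 ≤ q) : (1:ℝ) ≤ La q := by
  have h1 : 0 < La q := Nat.log_pos one_lt_two (by omega)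
  exact_mod_cast h1

end H1

open H1

open Classical in
theorem sum_Rp : ∃ C : ℝ, 0 < C ∧ ∀ q : ℕ, ∀ hq : Fact q.Prime, 3 ≤ q →
    ∑ p ∈ (univ : Finset (ZMod q × ZMod q)).filter (fun p => p.1 ≠ 0 ∧ p.2 ≠ 0), Rp p.1 p.2 ≤
      C * (La q : ℝ) ^ 3 * (q:ℝ) ^ 2 := by
  refine ⟨64, by norm_num, ?_⟩
  intro q hq hq3
  obtain ⟨S, hS⟩ : ∃ S : ℝ, S = ∑ x : ZMod q, (1:ℝ) / nn x := ⟨_, rfl⟩
  have hS0 : 0 ≤ S := by
    rw [hS]
    exact Finset.sum_nonneg fun x _ => by positivity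
  have hS1 : S ≤ 4 * La q := by
    have h1 := sum_all (q := q) (by omega)
    rw [← hS] at h1
    have h2 := one_le_La hq3
    linarith
  have hterm : ∀ a w l : ZMod q, (q : ℝ) ^ 2 / ((nn (l * a) : ℝ) * nn l * nn (l * w)) =
      (q : ℝ) ^ 2 * (1 / nn l) * ((1 / nn (l * a)) * (1 / nn (l * w))) := by
    intro a w l
    rw [div_eq_mul_one_div, one_div, mul_inv, mul_inv, one_div, one_div, one_div]
    ring
  have hnn : ∀ a w l : ZMod q, 0 ≤ (q : ℝ) ^ 2 / ((nn (l * a) : ℝ) * nn l * nn (l * w)) := by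
    intro a w l
    positivity
  have hRp0 : ∀ a w : ZMod q, 0 ≤ Rp a w := fun a w => Finset.sum_nonneg fun l _ => hnn a w l
  calc ∑ p ∈ (univ : Finset (ZMod q × ZMod q)).filter (fun p => p.1 ≠ 0 ∧ p.2 ≠ 0), Rp p.1 p.2
      ≤ ∑ p : ZMod q × ZMod q, Rp p.1 p.2 :=
        Finset.sum_le_sum_of_subset_of_nonneg (Finset.filter_subset _ _)
          fun p _ _ => hRp0 p.1 p.2
    _ = ∑ a : ZMod q, ∑ w : ZMod q, Rp a w := by
        rw [Fintype.sum_prod_type]
    _ ≤ ∑ a : ZMod q, ∑ w : ZMod q, ∑ l : ZMod q,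
        (q : ℝ) ^ 2 / ((nn (l * a) : ℝ) * nn l * nn (l * w)) := by
        refine Finset.sum_le_sum fun a _ => Finset.sum_le_sum fun w _ => ?_
        unfold Rp
        exact Finset.sum_le_sum_of_subset_of_nonneg (Finset.filter_subset _ _)
          fun l _ _ => hnn a w l
    _ = ∑ l : ZMod q, ∑ a : ZMod q, ∑ w : ZMod q,
        (q : ℝ) ^ 2 * (1 / nn l) * ((1 / nn (l * a)) * (1 / nn (l * w))) := by
        rw [Finset.sum_comm]
        simp_rw [hterm]
        have h1 : ∀ w : ZMod q, ∑ a : ZMod q, ∑ l : ZMod q,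
            (q : ℝ) ^ 2 * (1 / nn l) * ((1 / nn (l * a)) * (1 / nn (l * w))) =
            ∑ l : ZMod q, ∑ a : ZMod q,
            (q : ℝ) ^ 2 * (1 / nn l) * ((1 / nn (l * a)) * (1 / nn (l * w))) :=
          fun w => Finset.sum_comm
        rw [Finset.sum_congr rfl fun w _ => h1 w, Finset.sum_comm]
        exact Finset.sum_congr rfl fun l _ => Finset.sum_comm
    _ = ∑ l : ZMod q, (q : ℝ) ^ 2 * (1 / nn l) *
        ((∑ a : ZMod q, (1:ℝ) / nn (l * a)) * ∑ w : ZMod q, (1:ℝ) / nn (l * w)) := by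
        refine Finset.sum_congr rfl fun l _ => ?_
        rw [Finset.sum_mul_sum, Finset.mul_sum]
        refine Finset.sum_congr rfl fun a _ => ?_
        rw [Finset.mul_sum]
    _ ≤ ∑ l : ZMod q, (q : ℝ) ^ 2 * (1 / nn l) * (S * S) := by
        refine Finset.sum_le_sum fun l _ => ?_
        by_cases hl : l = 0
        · rw [hl, (nn_eq_zero (0 : ZMod q)).mpr rfl]
          simp
        · rw [sum_mul l hl (fun x => (1:ℝ) / nn x), ← hS]
    _ = (q : ℝ) ^ 2 * S ^ 3 := by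
        rw [← Finset.sum_mul, ← Finset.mul_sum, ← hS]
        ring
    _ ≤ (q : ℝ) ^ 2 * (4 * La q) ^ 3 :=
        mul_le_mul_of_nonneg_left (pow_le_pow_left₀ hS0 hS1 3) (by positivity)
    _ = 64 * (La q : ℝ) ^ 3 * (q:ℝ) ^ 2 := by ring

open Classical in
theorem sum_Rl : ∃ C : ℝ, 0 < C ∧ ∀ q : ℕ, ∀ hq : Fact q.Prime, 3 ≤ q →
    ∑ p ∈ (univ : Finset (ZMod q × ZMod q)).filter (fun p => p.1 ≠ 0 ∧ p.2 ≠ 0), Rl p.1 p.2 ≤
      C * (La q : ℝ) ^ 3 * (q:ℝ) ^ 2 := by
  refine ⟨216, by norm_num, ?_⟩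
  intro q hq hq3
  obtain ⟨S, hS⟩ : ∃ S : ℝ, S = ∑ x : ZMod q, (1:ℝ) / mx x := ⟨_, rfl⟩
  have hmx : ∀ x : ZMod q, 0 < mx x := fun x => lt_of_lt_of_le one_pos (one_le_mx x)
  have hS0 : 0 ≤ S := by
    rw [hS]
    exact Finset.sum_nonneg fun x _ => one_div_nonneg.mpr (hmx x).le
  have hS1 : S ≤ 6 * La q := by
    have h1 := sum_inv_mx (q := q) (by omega)
    rw [← hS] at h1
    have h2 := one_le_La hq3
    linarith
  have hterm : ∀ a b x y : ZMod q, (q : ℝ) / (mx (a * x + b * y) * mx x * mx y) =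
      (q : ℝ) * ((1 / mx x) * (1 / mx y)) * (1 / mx (a * x + b * y)) := by
    intro a b x y
    rw [div_eq_mul_one_div, one_div, mul_inv, mul_inv, one_div, one_div, one_div]
    ring
  have hnn : ∀ a b x y : ZMod q, 0 ≤ (q : ℝ) / (mx (a * x + b * y) * mx x * mx y) := by
    intro a b x y
    have := hmx (a * x + b * y)
    have := hmx x
    have := hmx y
    positivity
  have hRl0 : ∀ a b : ZMod q, 0 ≤ Rl a b :=
    fun a b => Finset.sum_nonneg fun v _ => hnn a b v.1 v.2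
  -- the inner sum
  have hin : ∀ x y : ZMod q, (x, y) ≠ (0, 0) →
      ∑ a : ZMod q, ∑ b : ZMod q, (1:ℝ) / mx (a * x + b * y) = q * S := by
    intro x y hxy
    have hcard : ((univ : Finset (ZMod q)).card : ℝ) = q := by
      rw [card_univ, ZMod.card]
    by_cases hy : y = 0
    · have hx : x ≠ 0 := by
        rintro rfl
        exact hxy (by rw [hy])
      rw [Finset.sum_comm]
      have h1 : ∀ b : ZMod q, ∑ a : ZMod q, (1:ℝ) / mx (a * x + b * y) = S := by
        intro b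
        rw [hS]
        have h2 := sum_mul x hx (fun z => (1:ℝ) / mx (z + b * y))
        have h3 := Equiv.sum_comp (Equiv.addRight (b * y)) (fun z => (1:ℝ) / mx z)
        simp only [Equiv.coe_addRight] at h3
        rw [← h3, ← h2]
        exact Finset.sum_congr rfl fun a _ => by rw [mul_comm a x]
      rw [Finset.sum_congr rfl fun b _ => h1 b, Finset.sum_const, nsmul_eq_mul, hcard]
    · have h1 : ∀ a : ZMod q, ∑ b : ZMod q, (1:ℝ) / mx (a * x + b * y) = S := by
        intro a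
        rw [hS]
        have h2 := sum_mul y hy (fun z => (1:ℝ) / mx (a * x + z))
        have h3 := Equiv.sum_comp (Equiv.addLeft (a * x)) (fun z => (1:ℝ) / mx z)
        simp only [Equiv.coe_addLeft] at h3
        rw [← h3, ← h2]
        exact Finset.sum_congr rfl fun b _ => by rw [mul_comm b y]
      rw [Finset.sum_congr rfl fun a _ => h1 a, Finset.sum_const, nsmul_eq_mul, hcard]
  calc ∑ p ∈ (univ : Finset (ZMod q × ZMod q)).filter (fun p => p.1 ≠ 0 ∧ p.2 ≠ 0), Rl p.1 p.2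
      ≤ ∑ p : ZMod q × ZMod q, Rl p.1 p.2 :=
        Finset.sum_le_sum_of_subset_of_nonneg (Finset.filter_subset _ _)
          fun p _ _ => hRl0 p.1 p.2
    _ = ∑ v ∈ (univ : Finset (ZMod q × ZMod q)).filter (fun v => v ≠ 0),
        ∑ p : ZMod q × ZMod q,
        (q : ℝ) / (mx (p.1 * v.1 + p.2 * v.2) * mx v.1 * mx v.2) := by
        unfold Rl
        rw [Finset.sum_comm]
    _ = ∑ v ∈ (univ : Finset (ZMod q × ZMod q)).filter (fun v => v ≠ 0),
        (q : ℝ) * ((1 / mx v.1) * (1 / mx v.2)) * (q * S) := by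
        refine Finset.sum_congr rfl fun v hv => ?_
        rw [Fintype.sum_prod_type]
        simp only [hterm]
        simp_rw [← Finset.mul_sum]
        rw [hin v.1 v.2 (mem_filter.mp hv).2]
    _ ≤ ∑ v : ZMod q × ZMod q, (q : ℝ) * ((1 / mx v.1) * (1 / mx v.2)) * (q * S) := by
        refine Finset.sum_le_sum_of_subset_of_nonneg (Finset.filter_subset _ _) fun v _ _ => ?_
        have := hmx v.1
        have := hmx v.2
        positivity
    _ = (q : ℝ) ^ 2 * S ^ 3 := by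
        rw [Fintype.sum_prod_type]
        simp only
        simp_rw [← Finset.sum_mul, ← Finset.mul_sum]
        rw [← Finset.sum_mul, ← hS]
        ring
    _ ≤ (q : ℝ) ^ 2 * (6 * La q) ^ 3 :=
        mul_le_mul_of_nonneg_left (pow_le_pow_left₀ hS0 hS1 3) (by positivity)
    _ = 216 * (La q : ℝ) ^ 3 * (q:ℝ) ^ 2 := by ring

end Pool.Agent.H935R2.PS
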