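import Pool.Agent.H935R2.PS.A1

set_option autoImplicit false

/-!
# Task H4 (helper269): the bad planes
-/

namespace Pool.Agent.H935R2.PS

open Finset

namespace H4

variable {q : ℕ}

open Classical in
/-- the number of residues of a given dyadic size, zero included -/
theorem card_dl' [NeZero q] (b : ℕ) :
    ((univ : Finset (ZMod q)).filter (fun x => dl x = b)).card ≤ 3 * 2 ^ b := by
  have h1 : (univ : Finset (ZMod q)).filter (fun x => dl x = b) ⊆
      insert 0 ((univ : Finset (ZMod q)).filter (fun x => x ≠ 0 ∧ dl x = b)) := by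
    intro x hx
    rw [mem_insert]
    by_cases h : x = 0
    · exact Or.inl h
    · exact Or.inr (mem_filter.mpr ⟨mem_univ _, h, (mem_filter.mp hx).2⟩)
  have h2 := (card_le_card h1).trans (card_insert_le _ _)
  have h3 := card_dl (q := q) b
  have h4 : 1 ≤ 2 ^ b := Nat.one_le_two_pow
  rw [pow_succ] at h3
  omega

/-- the index of a cell -/
theorem cell_mem [NeZero q] (x : ZMod q) (b c : ℕ) (hx : dl x = b) (hc : c ≤ b) :
    x.valMinAbs / 2 ^ c ∈ Ico (-(2 ^ (b + 1 - c)) : ℤ) (2 ^ (b + 1 - c)) := by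
  have h1 := nn_lt_two_pow x
  rw [hx] at h1
  unfold nn at h1
  have h2 : (2:ℤ) ^ (b + 1) = 2 ^ (b + 1 - c) * 2 ^ c := by
    rw [← pow_add]
    congr 1
    omega
  have h3 : |x.valMinAbs| < 2 ^ (b + 1) := by
    rw [Int.abs_eq_natAbs]
    exact_mod_cast h1
  rw [h2, abs_lt] at h3
  rw [mem_Ico]
  have hpos : (0:ℤ) < 2 ^ c := by positivity
  constructor
  · rw [Int.le_ediv_iff_mul_le hpos, neg_mul]
    exact h3.1.le
  · rw [Int.ediv_lt_iff_lt_mul hpos]
    exact h3.2

/-- two residues in the same cell are close -/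
theorem cell_close [NeZero q] (x y : ZMod q) (c : ℕ) (hne : x - y ≠ 0)
    (h : x.valMinAbs / 2 ^ c = y.valMinAbs / 2 ^ c) : dl (x - y) < c := by
  rw [dl_lt_iff _ hne]
  have h1 : x - y = ((x.valMinAbs - y.valMinAbs : ℤ) : ZMod q) := by
    rw [Int.cast_sub, ZMod.coe_valMinAbs, ZMod.coe_valMinAbs]
  rw [h1]
  refine (nn_intCast_le _).trans_lt ?_
  have hpos : (0:ℤ) < 2 ^ c := by positivity
  have h2 := Int.emod_add_mul_ediv x.valMinAbs (2 ^ c)
  have h3 := Int.emod_add_mul_ediv y.valMinAbs (2 ^ c)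
  rw [h] at h2
  have h4 := Int.emod_nonneg x.valMinAbs hpos.ne'
  have h5 := Int.emod_nonneg y.valMinAbs hpos.ne'
  have h6 := Int.emod_lt_of_pos x.valMinAbs hpos
  have h7 := Int.emod_lt_of_pos y.valMinAbs hpos
  have h8 : |x.valMinAbs - y.valMinAbs| < 2 ^ c := by
    rw [abs_lt]
    constructor <;> linarith
  rw [Int.abs_eq_natAbs] at h8
  exact_mod_cast h8

open Classical in
/-- the two-dimensional box count -/
theorem box2 [Fact q.Prime] (w : ZMod q) (hw : good2 w) (b2 b3 : ℕ) :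
    ((univ : Finset (ZMod q)).filter (fun l => l ≠ 0 ∧ dl l = b2 ∧ dl (l * w) = b3)).card *
      2 ^ La q ≤ 16 * 2 ^ (b2 + b3 + k1 q) := by
  by_cases hlt : b2 + b3 + k1 q < La q
  · have hempty : (univ : Finset (ZMod q)).filter
        (fun l => l ≠ 0 ∧ dl l = b2 ∧ dl (l * w) = b3) = ∅ := by
      rw [Finset.filter_eq_empty_iff]
      rintro l - ⟨h0, h2, h3⟩
      have := hw.2 l h0
      omega
    rw [hempty, card_empty, zero_mul]
    exact Nat.zero_le _
  · obtain ⟨c2, c3, h2, h3, hsum⟩ : ∃ c2 c3, c2 ≤ b2 ∧ c3 ≤ b3 ∧ c2 + c3 = La q - k1 q := by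
      by_cases hc : b2 ≤ La q - k1 q
      · exact ⟨b2, La q - k1 q - b2, le_rfl, by omega, by omega⟩
      · exact ⟨La q - k1 q, 0, by omega, by omega, by omega⟩
    have hcard : ((univ : Finset (ZMod q)).filter
        (fun l => l ≠ 0 ∧ dl l = b2 ∧ dl (l * w) = b3)).card ≤
        ((Ico (-(2 ^ (b2 + 1 - c2)) : ℤ) (2 ^ (b2 + 1 - c2))) ×ˢ
          (Ico (-(2 ^ (b3 + 1 - c3)) : ℤ) (2 ^ (b3 + 1 - c3)))).card := by
      apply Finset.card_le_card_of_injOn
        (fun l : ZMod q => (l.valMinAbs / 2 ^ c2, (l * w).valMinAbs / 2 ^ c3))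
      · intro l hl
        obtain ⟨-, h0, hl2, hl3⟩ := mem_filter.mp hl
        exact mem_product.mpr ⟨cell_mem l b2 c2 hl2 h2, cell_mem (l * w) b3 c3 hl3 h3⟩
      · intro l _ l' _ he
        simp only [Prod.mk.injEq] at he
        by_contra hne
        have hne1 : l - l' ≠ 0 := sub_ne_zero.mpr hne
        have hne2 : l * w - l' * w ≠ 0 := by
          rw [← sub_mul]
          exact mul_ne_zero hne1 hw.1
        have h4 := cell_close l l' c2 hne1 he.1
        have h5 := cell_close (l * w) (l' * w) c3 hne2 he.2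
        rw [← sub_mul] at h5
        have h6 := hw.2 (l - l') hne1
        omega
    have hIco : ∀ e : ℕ, (Ico (-(2 ^ e) : ℤ) (2 ^ e)).card = 2 * 2 ^ e := by
      intro e
      rw [Int.card_Ico]
      have : (2:ℤ) ^ e - -2 ^ e = ((2 * 2 ^ e : ℕ) : ℤ) := by
        push_cast
        ring
      rw [this, Int.toNat_natCast]
    rw [card_product, hIco, hIco] at hcard
    refine (Nat.mul_le_mul_right _ hcard).trans ?_
    have e1 : 2 * 2 ^ (b2 + 1 - c2) * (2 * 2 ^ (b3 + 1 - c3)) * 2 ^ La q =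
        2 ^ (1 + (b2 + 1 - c2) + (1 + (b3 + 1 - c3)) + La q) := by
      simp only [pow_add, pow_one]
    have e2 : 16 * 2 ^ (b2 + b3 + k1 q) = 2 ^ (4 + (b2 + b3 + k1 q)) := by
      rw [pow_add 2 4]
      norm_num
    rw [e1, e2]
    apply Nat.pow_le_pow_right (by norm_num)
    omega

open Classical in
/-- the number of pairs of small residues -/
theorem cardT2 [NeZero q] (k : ℕ) :
    (((univ : Finset (ZMod q × ZMod q)).filter
      (fun v => dl v.1 + dl v.2 + k < La q)).card : ℝ) ≤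
      9 * (La q : ℝ) ^ 2 * (q / 2 ^ k) := by
  have hmap : ∀ v ∈ (univ : Finset (ZMod q × ZMod q)).filter
      (fun v => dl v.1 + dl v.2 + k < La q),
      ((dl v.1, dl v.2) : ℕ × ℕ) ∈ (range (La q) ×ˢ range (La q)) := by
    intro v hv
    have := (mem_filter.mp hv).2
    simp only [mem_product, mem_range]
    omega
  rw [Finset.card_eq_sum_card_fiberwise hmap]
  push_cast
  have hfib : ∀ β ∈ (range (La q) ×ˢ range (La q)),
      ((((univ : Finset (ZMod q × ZMod q)).filter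
        (fun v => dl v.1 + dl v.2 + k < La q)).filter
        (fun v => ((dl v.1, dl v.2) : ℕ × ℕ) = β)).card : ℝ) ≤
      9 * (q / 2 ^ k) := by
    rintro ⟨b1, b2⟩ -
    by_cases hb : b1 + b2 + k < La q
    · have hsub : (((univ : Finset (ZMod q × ZMod q)).filter
          (fun v => dl v.1 + dl v.2 + k < La q)).filter
          (fun v => ((dl v.1, dl v.2) : ℕ × ℕ) = (b1, b2))) ⊆
          ((univ : Finset (ZMod q)).filter (fun x => dl x = b1)) ×ˢ
          ((univ : Finset (ZMod q)).filter (fun x => dl x = b2)) := by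
        rintro ⟨x, y⟩ hv
        have h1 := (mem_filter.mp hv).2
        simp only [Prod.mk.injEq] at h1
        simp only [mem_product, mem_filter, mem_univ, true_and]
        exact h1
      have h2 := card_le_card hsub
      rw [card_product] at h2
      have h3 : ((univ : Finset (ZMod q)).filter (fun x => dl x = b1)).card *
          ((univ : Finset (ZMod q)).filter (fun x => dl x = b2)).card ≤
          (3 * 2 ^ b1) * (3 * 2 ^ b2) :=
        Nat.mul_le_mul (card_dl' b1) (card_dl' b2)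
      have h4 := h2.trans h3
      have h5 : (3 * 2 ^ b1) * (3 * 2 ^ b2) * 2 ^ k ≤ 9 * q := by
        calc (3 * 2 ^ b1) * (3 * 2 ^ b2) * 2 ^ k
            = 9 * 2 ^ (b1 + b2 + k) := by ring
          _ ≤ 9 * 2 ^ La q := Nat.mul_le_mul_left _ (Nat.pow_le_pow_right (by norm_num) hb.le)
          _ ≤ 9 * q := Nat.mul_le_mul_left _ La_le
      rw [← mul_div_assoc, le_div_iff₀ (by positivity)]
      have h6 := (Nat.mul_le_mul_right (2 ^ k) h4).trans h5
      exact_mod_cast h6
    · have hempty : (((univ : Finset (ZMod q × ZMod q)).filter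
          (fun v => dl v.1 + dl v.2 + k < La q)).filter
          (fun v => ((dl v.1, dl v.2) : ℕ × ℕ) = (b1, b2))) = ∅ := by
        rw [Finset.filter_eq_empty_iff]
        rintro ⟨x, y⟩ hv h1
        have h2 := (mem_filter.mp hv).2
        simp only [Prod.mk.injEq] at h1
        simp only at h2
        omega
      rw [hempty, card_empty]
      push_cast
      positivity
  refine (Finset.sum_le_sum hfib).trans (le_of_eq ?_)
  rw [Finset.sum_const, card_product, card_range, nsmul_eq_mul]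
  push_cast
  ring

open Classical in
/-- the number of pairs `(l, x)` in case (i) -/
theorem cardT1 [Fact q.Prime] (w : ZMod q) (hw : good2 w) (k : ℕ) :
    (((univ : Finset (ZMod q × ZMod q)).filter
      (fun v => v.1 ≠ 0 ∧ dl v.2 + dl v.1 + dl (v.1 * w) + k < 2 * La q)).card : ℝ) ≤
      48 * ((La q : ℝ) + 1) ^ 3 * (q * 2 ^ k1 q / 2 ^ k) := by
  have hmap : ∀ v ∈ (univ : Finset (ZMod q × ZMod q)).filter
      (fun v => v.1 ≠ 0 ∧ dl v.2 + dl v.1 + dl (v.1 * w) + k < 2 * La q),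
      ((dl v.2, dl v.1, dl (v.1 * w)) : ℕ × ℕ × ℕ) ∈
        (range (La q + 1) ×ˢ range (La q + 1) ×ˢ range (La q + 1)) := by
    intro v hv
    simp only [mem_product, mem_range]
    exact ⟨Nat.lt_succ_of_le (dl_le _), Nat.lt_succ_of_le (dl_le _), Nat.lt_succ_of_le (dl_le _)⟩
  rw [Finset.card_eq_sum_card_fiberwise hmap]
  push_cast
  have hfib : ∀ β ∈ (range (La q + 1) ×ˢ range (La q + 1) ×ˢ range (La q + 1)),
      ((((univ : Finset (ZMod q × ZMod q)).filter
        (fun v => v.1 ≠ 0 ∧ dl v.2 + dl v.1 + dl (v.1 * w) + k < 2 * La q)).filter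
        (fun v => ((dl v.2, dl v.1, dl (v.1 * w)) : ℕ × ℕ × ℕ) = β)).card : ℝ) ≤
      48 * (q * 2 ^ k1 q / 2 ^ k) := by
    rintro ⟨b1, b2, b3⟩ -
    by_cases hb : b1 + b2 + b3 + k < 2 * La q
    · have hsub : (((univ : Finset (ZMod q × ZMod q)).filter
          (fun v => v.1 ≠ 0 ∧ dl v.2 + dl v.1 + dl (v.1 * w) + k < 2 * La q)).filter
          (fun v => ((dl v.2, dl v.1, dl (v.1 * w)) : ℕ × ℕ × ℕ) = (b1, b2, b3))) ⊆
          ((univ : Finset (ZMod q)).filter (fun l => l ≠ 0 ∧ dl l = b2 ∧ dl (l * w) = b3)) ×ˢ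
          ((univ : Finset (ZMod q)).filter (fun x => dl x = b1)) := by
        rintro ⟨l, x⟩ hv
        have h1 := (mem_filter.mp hv).2
        have h0 := (mem_filter.mp (mem_filter.mp hv).1).2
        simp only [Prod.mk.injEq] at h1
        simp only [mem_product, mem_filter, mem_univ, true_and]
        exact ⟨⟨h0.1, h1.2.1, h1.2.2⟩, h1.1⟩
      have h2 := card_le_card hsub
      rw [card_product] at h2
      set S := ((univ : Finset (ZMod q)).filter (fun l => l ≠ 0 ∧ dl l = b2 ∧ dl (l * w) = b3)).card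
        with hS
      have h3 : S * ((univ : Finset (ZMod q)).filter (fun x => dl x = b1)).card ≤
          S * (3 * 2 ^ b1) := Nat.mul_le_mul_left _ (card_dl' b1)
      have h4 := h2.trans h3
      have hbox : S * 2 ^ La q ≤ 16 * 2 ^ (b2 + b3 + k1 q) := box2 w hw b2 b3
      have h5 : S * (3 * 2 ^ b1) * 2 ^ k * 2 ^ La q ≤ 48 * (q * 2 ^ k1 q) * 2 ^ La q := by
        calc S * (3 * 2 ^ b1) * 2 ^ k * 2 ^ La q
            = (S * 2 ^ La q) * (3 * 2 ^ b1 * 2 ^ k) := by ring
          _ ≤ (16 * 2 ^ (b2 + b3 + k1 q)) * (3 * 2 ^ b1 * 2 ^ k) := Nat.mul_le_mul_right _ hbox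
          _ = 48 * 2 ^ k1 q * 2 ^ (b1 + b2 + b3 + k) := by ring
          _ ≤ 48 * 2 ^ k1 q * 2 ^ (2 * La q) :=
              Nat.mul_le_mul_left _ (Nat.pow_le_pow_right (by norm_num) hb.le)
          _ = 48 * (2 ^ La q * 2 ^ k1 q) * 2 ^ La q := by ring
          _ ≤ 48 * (q * 2 ^ k1 q) * 2 ^ La q := by
              apply Nat.mul_le_mul_right
              apply Nat.mul_le_mul_left
              exact Nat.mul_le_mul_right _ La_le
      have h5' : S * (3 * 2 ^ b1) * 2 ^ k ≤ 48 * (q * 2 ^ k1 q) :=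
        Nat.le_of_mul_le_mul_right h5 (by positivity)
      rw [← mul_div_assoc, le_div_iff₀ (by positivity)]
      have h6 := (Nat.mul_le_mul_right (2 ^ k) h4).trans h5'
      exact_mod_cast h6
    · have hempty : (((univ : Finset (ZMod q × ZMod q)).filter
          (fun v => v.1 ≠ 0 ∧ dl v.2 + dl v.1 + dl (v.1 * w) + k < 2 * La q)).filter
          (fun v => ((dl v.2, dl v.1, dl (v.1 * w)) : ℕ × ℕ × ℕ) = (b1, b2, b3))) = ∅ := by
        rw [Finset.filter_eq_empty_iff]
        rintro ⟨l, x⟩ hv h1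
        have h2 := (mem_filter.mp hv).2
        simp only [Prod.mk.injEq] at h1
        simp only at h2
        omega
      rw [hempty, card_empty]
      push_cast
      positivity
  refine (Finset.sum_le_sum hfib).trans (le_of_eq ?_)
  rw [Finset.sum_const, card_product, card_product, card_range, nsmul_eq_mul]
  push_cast
  ring

/-- the final estimate -/
theorem final (hq : 16 ≤ q) (X : ℝ)
    (hX : X ≤ 48 * ((La q : ℝ) + 1) ^ 3 * (q * 2 ^ k1 q / 2 ^ k2 q) +
      (9 * (La q : ℝ) ^ 2 * (q / 2 ^ k1 q) + 9 * (La q : ℝ) ^ 2 * (q / 2 ^ k1 q))) :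
    X ≤ q / 2 ^ (38 * uu q) := by
  refine hX.trans ?_
  have h1 : 4 ≤ La q := by
    unfold La
    exact (Nat.le_log_iff_pow_le one_lt_two (by omega)).mpr (by norm_num; exact hq)
  have hu : 3 ≤ uu q := by
    unfold uu
    have : 2 ≤ Nat.log 2 (La q) :=
      (Nat.le_log_iff_pow_le one_lt_two (by omega)).mpr (by norm_num; exact h1)
    omega
  set t : ℝ := 2 ^ uu q with ht
  have ht8 : (8:ℝ) ≤ t := by
    rw [ht]
    calc (8:ℝ) = 2 ^ 3 := by norm_num
      _ ≤ 2 ^ uu q := pow_le_pow_right₀ (by norm_num) hu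
  have h2 : (La q : ℝ) + 1 ≤ t := by
    rw [ht]
    exact_mod_cast La_lt_uu q
  have h2' : (La q : ℝ) ≤ t := by linarith
  have h3 : ((La q : ℝ) + 1) ^ 3 ≤ t ^ 3 := pow_le_pow_left₀ (by positivity) h2 3
  have h4 : (La q : ℝ) ^ 2 ≤ t ^ 2 := pow_le_pow_left₀ (Nat.cast_nonneg _) h2' 2
  have e1 : (2:ℝ) ^ k1 q = t ^ 44 := by
    rw [ht, ← pow_mul]
    unfold k1
    congr 1
    ring
  have e2 : (2:ℝ) ^ k2 q = t ^ 88 := by
    rw [ht, ← pow_mul]
    unfold k2
    congr 1
    ring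
  have e3 : (2:ℝ) ^ (38 * uu q) = t ^ 38 := by
    rw [ht, ← pow_mul]
    congr 1
    ring
  rw [e1, e2, e3]
  have htpos : 0 < t := by linarith
  have hq0 : (0:ℝ) ≤ q := Nat.cast_nonneg _
  have s1 : 48 * ((La q : ℝ) + 1) ^ 3 * (q * t ^ 44 / t ^ 88) ≤ 48 * t ^ 3 * (q / t ^ 44) := by
    have : (q:ℝ) * t ^ 44 / t ^ 88 = q / t ^ 44 := by
      field_simp
    rw [this]
    gcongr
  have s2 : 9 * (La q : ℝ) ^ 2 * (q / t ^ 44) ≤ 9 * t ^ 2 * (q / t ^ 44) := by
    gcongr
  have s3 : 48 * t ^ 3 * (q / t ^ 44) + (9 * t ^ 2 * (q / t ^ 44) + 9 * t ^ 2 * (q / t ^ 44)) ≤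
      q / t ^ 38 := by
    have : 48 * t ^ 3 * (q / t ^ 44) + (9 * t ^ 2 * (q / t ^ 44) + 9 * t ^ 2 * (q / t ^ 44)) =
        (q / t ^ 38) * ((48 * t ^ 3 + 18 * t ^ 2) / t ^ 6) := by
      field_simp
      ring
    rw [this]
    have hle : (48 * t ^ 3 + 18 * t ^ 2) / t ^ 6 ≤ 1 := by
      rw [div_le_one (by positivity)]
      have a1 : t ^ 6 = t ^ 3 * t ^ 3 := by ring
      have a2 : (512:ℝ) ≤ t ^ 3 := by
        calc (512:ℝ) = 8 ^ 3 := by norm_num
          _ ≤ t ^ 3 := pow_le_pow_left₀ (by norm_num) ht8 3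
      have a3 : t ^ 2 ≤ t ^ 3 := pow_le_pow_right₀ (by linarith) (by norm_num)
      rw [a1]
      nlinarith [mul_le_mul_of_nonneg_right a2 (by positivity : (0:ℝ) ≤ t ^ 3)]
    calc (q / t ^ 38) * ((48 * t ^ 3 + 18 * t ^ 2) / t ^ 6) ≤ (q / t ^ 38) * 1 :=
          mul_le_mul_of_nonneg_left hle (by positivity)
      _ = q / t ^ 38 := mul_one _
  linarith

theorem PB_symm (b1 b2 b3 : ℕ) : PB q b1 b2 b3 ↔ PB q b3 b2 b1 := by
  unfold PB
  constructor <;> · intro h; omega

theorem pgood_symm (a w : ZMod q) : pgood a w ↔ pgood w a := by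
  unfold pgood
  constructor
  · rintro ⟨h1, h2, h3⟩
    exact ⟨h2, h1, fun l hl h => h3 l hl ((PB_symm _ _ _).mp h)⟩
  · rintro ⟨h1, h2, h3⟩
    exact ⟨h2, h1, fun l hl h => h3 l hl ((PB_symm _ _ _).mp h)⟩

end H4

open H4

open Classical in
theorem bad_plane_w : ∃ q₀ : ℕ, ∀ q : ℕ, q₀ ≤ q → ∀ hq : Fact q.Prime, ∀ w : ZMod q, good2 w →
    (((univ : Finset (ZMod q)).filter (fun a => a ≠ 0 ∧ ¬ pgood a w)).card : ℝ) ≤ q / 2 ^ (38 * uu q) := by
  refine ⟨16, fun q hq0 hq w hw => final hq0 _ ?_⟩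
  have hsub : (univ : Finset (ZMod q)).filter (fun a => a ≠ 0 ∧ ¬ pgood a w) ⊆
      (((univ : Finset (ZMod q × ZMod q)).filter
        (fun v => v.1 ≠ 0 ∧ dl v.2 + dl v.1 + dl (v.1 * w) + k2 q < 2 * La q)).image
          (fun v => v.2 / v.1)) ∪
      ((((univ : Finset (ZMod q × ZMod q)).filter
        (fun v => dl v.1 + dl v.2 + k1 q < La q)).image (fun v => v.2 / v.1)) ∪
      (((univ : Finset (ZMod q × ZMod q)).filter
        (fun v => dl v.1 + dl v.2 + k1 q < La q)).image (fun v => v.2 * w / v.1))) := by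
    intro a ha
    obtain ⟨-, ha0, hbad⟩ := mem_filter.mp ha
    unfold pgood at hbad
    push Not at hbad
    obtain ⟨l, hl, hPB⟩ := hbad ha0 hw.1
    have hal : l * a / l = a := mul_div_cancel_left₀ a hl
    rw [mem_union, mem_union]
    rcases hPB with h | h | h | h
    · left
      exact mem_image.mpr ⟨(l, l * a), mem_filter.mpr ⟨mem_univ _, hl, h⟩, hal⟩
    · right; left
      refine mem_image.mpr ⟨(l, l * a), mem_filter.mpr ⟨mem_univ _, ?_⟩, hal⟩
      simp only
      omega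
    · right; right
      refine mem_image.mpr ⟨(l * w, l * a), mem_filter.mpr ⟨mem_univ _, ?_⟩, ?_⟩
      · simp only
        omega
      · simp only
        have hlw : l * w ≠ 0 := mul_ne_zero hl hw.1
        rw [div_eq_iff hlw]
        ring
    · exfalso
      have := hw.2 l hl
      omega
  have h1 := (card_le_card hsub).trans ((card_union_le _ _).trans
    (Nat.add_le_add card_image_le ((card_union_le _ _).trans
      (Nat.add_le_add card_image_le card_image_le))))
  have h2 := cardT1 w hw (k2 q)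
  have h3 := cardT2 (q := q) (k1 q)
  calc _ ≤ (((((univ : Finset (ZMod q × ZMod q)).filter
        (fun v => v.1 ≠ 0 ∧ dl v.2 + dl v.1 + dl (v.1 * w) + k2 q < 2 * La q)).card +
      ((((univ : Finset (ZMod q × ZMod q)).filter
        (fun v => dl v.1 + dl v.2 + k1 q < La q)).card) +
      (((univ : Finset (ZMod q × ZMod q)).filter
        (fun v => dl v.1 + dl v.2 + k1 q < La q)).card)) : ℕ)) : ℝ) := by exact_mod_cast h1
    _ ≤ _ := by
      push_cast
      exact add_le_add h2 (add_le_add h3 h3)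

open Classical in
theorem bad_plane_a : ∃ q₀ : ℕ, ∀ q : ℕ, q₀ ≤ q → ∀ hq : Fact q.Prime, ∀ a : ZMod q, good2 a →
    (((univ : Finset (ZMod q)).filter (fun w => w ≠ 0 ∧ ¬ pgood a w)).card : ℝ) ≤ q / 2 ^ (38 * uu q) := by
  obtain ⟨q₀, h⟩ := bad_plane_w
  refine ⟨q₀, fun q hq0 hq a ha => ?_⟩
  have h1 := h q hq0 hq a ha
  have h2 : (univ : Finset (ZMod q)).filter (fun w => w ≠ 0 ∧ ¬ pgood a w) =
      (univ : Finset (ZMod q)).filter (fun w => w ≠ 0 ∧ ¬ pgood w a) := by
    apply Finset.filter_congr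
    intro w _
    rw [pgood_symm]
  rw [h2]
  exact h1

end Pool.Agent.H935R2.PS
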