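import Pool.Agent.H935R2.PS.A1

set_option autoImplicit false

/-!
# Task H5 (helper269): the bad lines
-/

namespace Pool.Agent.H935R2.PS

open Finset

namespace H5

variable {q : ℕ}

open Classical in
/-- the number of residues of a given dyadic size, zero included -/
theorem card_dl' [NeZero q] (b : ℕ) :
    ((univ : Finset (ZMod q)).filter (fun x => dl x = b)).card ≤ 3 * 2 ^ b := by
  have h1 : (univ : Finset (ZMod q)).filter (fun x => dl x = b) ⊆
      insert 0 ((univ : Finset (ZMod q)).filter (fun x => x ≠ 0 ∧ dl x = b)) := by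
    intro x hx
    rw [mem_insert]
    by_cases h : x = 0
    · exact Or.inl h
    · exact Or.inr (mem_filter.mpr ⟨mem_univ _, h, (mem_filter.mp hx).2⟩)
  have h2 := (card_le_card h1).trans (card_insert_le _ _)
  have h3 := card_dl (q := q) b
  have h4 : 1 ≤ 2 ^ b := Nat.one_le_two_pow
  rw [pow_succ] at h3
  omega

open Classical in
/-- the number of triples of small residues -/
theorem card3 [NeZero q] (k : ℕ) :
    (((univ : Finset (ZMod q × ZMod q × ZMod q)).filter
      (fun v => dl v.1 + dl v.2.1 + dl v.2.2 + k < La q)).card : ℝ) ≤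
      27 * (La q : ℝ) ^ 3 * (q / 2 ^ k) := by
  have hmap : ∀ v ∈ (univ : Finset (ZMod q × ZMod q × ZMod q)).filter
      (fun v => dl v.1 + dl v.2.1 + dl v.2.2 + k < La q),
      ((dl v.1, dl v.2.1, dl v.2.2) : ℕ × ℕ × ℕ) ∈
        (range (La q) ×ˢ range (La q) ×ˢ range (La q)) := by
    intro v hv
    have := (mem_filter.mp hv).2
    simp only [mem_product, mem_range]
    omega
  rw [Finset.card_eq_sum_card_fiberwise hmap]
  push_cast
  have hfib : ∀ β ∈ (range (La q) ×ˢ range (La q) ×ˢ range (La q)),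
      ((((univ : Finset (ZMod q × ZMod q × ZMod q)).filter
        (fun v => dl v.1 + dl v.2.1 + dl v.2.2 + k < La q)).filter
        (fun v => ((dl v.1, dl v.2.1, dl v.2.2) : ℕ × ℕ × ℕ) = β)).card : ℝ) ≤
      27 * (q / 2 ^ k) := by
    rintro ⟨b1, b2, b3⟩ -
    by_cases hb : b1 + b2 + b3 + k < La q
    · have hsub : (((univ : Finset (ZMod q × ZMod q × ZMod q)).filter
          (fun v => dl v.1 + dl v.2.1 + dl v.2.2 + k < La q)).filter
          (fun v => ((dl v.1, dl v.2.1, dl v.2.2) : ℕ × ℕ × ℕ) = (b1, b2, b3))) ⊆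
          ((univ : Finset (ZMod q)).filter (fun x => dl x = b1)) ×ˢ
          (((univ : Finset (ZMod q)).filter (fun x => dl x = b2)) ×ˢ
          ((univ : Finset (ZMod q)).filter (fun x => dl x = b3))) := by
        rintro ⟨x, y, z⟩ hv
        have h1 := (mem_filter.mp hv).2
        simp only [Prod.mk.injEq] at h1
        simp only [mem_product, mem_filter, mem_univ, true_and]
        exact h1
      have h2 := card_le_card hsub
      rw [card_product, card_product] at h2
      have h3 : ((univ : Finset (ZMod q)).filter (fun x => dl x = b1)).card *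
          (((univ : Finset (ZMod q)).filter (fun x => dl x = b2)).card *
          ((univ : Finset (ZMod q)).filter (fun x => dl x = b3)).card) ≤
          (3 * 2 ^ b1) * ((3 * 2 ^ b2) * (3 * 2 ^ b3)) :=
        Nat.mul_le_mul (card_dl' b1) (Nat.mul_le_mul (card_dl' b2) (card_dl' b3))
      have h4 := h2.trans h3
      have h5 : (3 * 2 ^ b1) * ((3 * 2 ^ b2) * (3 * 2 ^ b3)) * 2 ^ k ≤ 27 * q := by
        calc (3 * 2 ^ b1) * ((3 * 2 ^ b2) * (3 * 2 ^ b3)) * 2 ^ k
            = 27 * 2 ^ (b1 + b2 + b3 + k) := by ring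
          _ ≤ 27 * 2 ^ La q := Nat.mul_le_mul_left _ (Nat.pow_le_pow_right (by norm_num) hb.le)
          _ ≤ 27 * q := Nat.mul_le_mul_left _ La_le
      rw [← mul_div_assoc, le_div_iff₀ (by positivity)]
      have h6 := (Nat.mul_le_mul_right (2 ^ k) h4).trans h5
      exact_mod_cast h6
    · have hempty : (((univ : Finset (ZMod q × ZMod q × ZMod q)).filter
          (fun v => dl v.1 + dl v.2.1 + dl v.2.2 + k < La q)).filter
          (fun v => ((dl v.1, dl v.2.1, dl v.2.2) : ℕ × ℕ × ℕ) = (b1, b2, b3))) = ∅ := by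
        rw [Finset.filter_eq_empty_iff]
        rintro ⟨x, y, z⟩ hv h1
        have h2 := (mem_filter.mp hv).2
        simp only [Prod.mk.injEq] at h1
        simp only at h2
        omega
      rw [hempty, card_empty]
      push_cast
      positivity
  refine (Finset.sum_le_sum hfib).trans (le_of_eq ?_)
  rw [Finset.sum_const, card_product, card_product, card_range, nsmul_eq_mul]
  push_cast
  ring

/-- the final estimate -/
theorem final (hq : 16 ≤ q) (X : ℝ) (hX : X ≤ 27 * (La q : ℝ) ^ 3 * (q / 2 ^ k1 q)) :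
    X ≤ q / 2 ^ (38 * uu q) := by
  refine hX.trans ?_
  have h1 : 4 ≤ La q := by
    unfold La
    exact (Nat.le_log_iff_pow_le one_lt_two (by omega)).mpr (by norm_num; exact hq)
  have hu : 3 ≤ uu q := by
    unfold uu
    have : 2 ≤ Nat.log 2 (La q) :=
      (Nat.le_log_iff_pow_le one_lt_two (by omega)).mpr (by norm_num; exact h1)
    omega
  have h2 : (La q : ℝ) ≤ 2 ^ uu q := by exact_mod_cast (La_lt_uu q).le
  have h3 : (27:ℝ) ≤ 2 ^ (3 * uu q) := by
    have : (2:ℝ) ^ 9 ≤ 2 ^ (3 * uu q) := pow_le_pow_right₀ (by norm_num) (by omega)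
    norm_num at this
    linarith
  have h4 : (La q : ℝ) ^ 3 ≤ 2 ^ (3 * uu q) := by
    rw [mul_comm 3, pow_mul]
    exact pow_le_pow_left₀ (Nat.cast_nonneg _) h2 3
  have h5 : (2:ℝ) ^ k1 q = 2 ^ (3 * uu q) * 2 ^ (3 * uu q) * 2 ^ (38 * uu q) := by
    unfold k1
    rw [← pow_add, ← pow_add]
    congr 1
    ring
  rw [h5, ← mul_div_assoc, div_le_div_iff₀ (by positivity) (by positivity)]
  have h6 : 27 * (La q : ℝ) ^ 3 ≤ 2 ^ (3 * uu q) * 2 ^ (3 * uu q) :=
    mul_le_mul h3 h4 (by positivity) (by positivity)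
  calc 27 * (La q : ℝ) ^ 3 * q * 2 ^ (38 * uu q)
      ≤ (2 ^ (3 * uu q) * 2 ^ (3 * uu q)) * q * 2 ^ (38 * uu q) := by
        gcongr
    _ = _ := by ring

open Classical in
/-- if every element of a set of residues is determined by a triple of small residues, the set is
small -/
theorem main [NeZero q] (hq : 16 ≤ q) (B : Finset (ZMod q)) (f : ZMod q × ZMod q × ZMod q → ZMod q)
    (h : ∀ x ∈ B, ∃ v : ZMod q × ZMod q × ZMod q,
      dl v.1 + dl v.2.1 + dl v.2.2 + k1 q < La q ∧ f v = x) :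
    (B.card : ℝ) ≤ q / 2 ^ (38 * uu q) := by
  refine final hq _ (le_trans ?_ (card3 (k1 q)))
  have hsub : B ⊆ ((univ : Finset (ZMod q × ZMod q × ZMod q)).filter
      (fun v => dl v.1 + dl v.2.1 + dl v.2.2 + k1 q < La q)).image f := by
    intro x hx
    obtain ⟨v, hv, hf⟩ := h x hx
    exact mem_image.mpr ⟨v, mem_filter.mpr ⟨mem_univ _, hv⟩, hf⟩
  exact_mod_cast (card_le_card hsub).trans card_image_le

theorem dl_zero : dl (0 : ZMod q) = 0 := by
  unfold dl nn
  simp

end H5

open H5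

open Classical in
theorem bad_line_b : ∃ q₀ : ℕ, ∀ q : ℕ, q₀ ≤ q → ∀ hq : Fact q.Prime, ∀ b : ZMod q, good2 b →
    (((univ : Finset (ZMod q)).filter (fun α => α ≠ 0 ∧ ¬ lgood α b)).card : ℝ) ≤
      q / 2 ^ (38 * uu q) := by
  refine ⟨16, fun q hq0 hq b hb => main hq0 _ (fun v => (v.1 - b * v.2.2) / v.2.1) ?_⟩
  intro α hα
  obtain ⟨-, hα0, hbad⟩ := mem_filter.mp hα
  unfold lgood at hbad
  push Not at hbad
  obtain ⟨v2, v3, hv, hlt⟩ := hbad hα0 hb.1
  have hv2 : v2 ≠ 0 := by
    rintro rfl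
    have hv3 : v3 ≠ 0 := by
      rcases hv with h | h
      · exact absurd rfl h
      · exact h
    have := hb.2 v3 hv3
    rw [mul_zero, zero_add, dl_zero, mul_comm b v3] at hlt
    omega
  refine ⟨(α * v2 + b * v3, v2, v3), hlt, ?_⟩
  simp only
  rw [add_sub_cancel_right, mul_div_assoc, div_self hv2, mul_one]

open Classical in
theorem bad_line_a : ∃ q₀ : ℕ, ∀ q : ℕ, q₀ ≤ q → ∀ hq : Fact q.Prime, ∀ a : ZMod q, good2 a →
    (((univ : Finset (ZMod q)).filter (fun b => b ≠ 0 ∧ ¬ lgood a b)).card : ℝ) ≤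
      q / 2 ^ (38 * uu q) := by
  refine ⟨16, fun q hq0 hq a ha => main hq0 _ (fun v => (v.1 - a * v.2.1) / v.2.2) ?_⟩
  intro b hb
  obtain ⟨-, hb0, hbad⟩ := mem_filter.mp hb
  unfold lgood at hbad
  push Not at hbad
  obtain ⟨v2, v3, hv, hlt⟩ := hbad ha.1 hb0
  have hv3 : v3 ≠ 0 := by
    rintro rfl
    have hv2 : v2 ≠ 0 := by
      rcases hv with h | h
      · exact h
      · exact absurd rfl h
    have := ha.2 v2 hv2
    rw [mul_zero, add_zero, dl_zero, mul_comm a v2] at hlt
    omega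
  refine ⟨(a * v2 + b * v3, v2, v3), hlt, ?_⟩
  simp only
  rw [add_sub_cancel_left, mul_div_assoc, div_self hv3, mul_one]

open Classical in
theorem bad_line_w : ∃ q₀ : ℕ, ∀ q : ℕ, q₀ ≤ q → ∀ hq : Fact q.Prime, ∀ w : ZMod q, good2 w →
    (((univ : Finset (ZMod q)).filter (fun b => b ≠ 0 ∧ ¬ lgood (-w * b) b)).card : ℝ) ≤
      q / 2 ^ (38 * uu q) := by
  refine ⟨16, fun q hq0 hq w hw => main hq0 _ (fun v => v.1 / (v.2.2 - w * v.2.1)) ?_⟩
  intro b hb
  obtain ⟨-, hb0, hbad⟩ := mem_filter.mp hb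
  unfold lgood at hbad
  push Not at hbad
  obtain ⟨v2, v3, hv, hlt⟩ := hbad (mul_ne_zero (neg_ne_zero.mpr hw.1) hb0) hb0
  have he : -w * b * v2 + b * v3 = b * (v3 - w * v2) := by ring
  rw [he] at hlt
  have hd : v3 - w * v2 ≠ 0 := by
    intro h0
    have h3 : v3 = w * v2 := sub_eq_zero.mp h0
    rw [h0, mul_zero, dl_zero, h3, mul_comm w v2] at hlt
    have hv2 : v2 ≠ 0 := by
      rintro rfl
      rw [mul_zero] at h3
      rcases hv with h | h
      · exact h rfl
      · exact h h3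
    have := hw.2 v2 hv2
    omega
  refine ⟨(b * (v3 - w * v2), v2, v3), hlt, ?_⟩
  simp only
  rw [mul_div_assoc, div_self hd, mul_one]

end Pool.Agent.H935R2.PS
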