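import Pool.Agent.H935R2.PS.A1

set_option autoImplicit false

/-!
Task H6, first part: `bad_two`, `lgood_good2`, `pgood_good2`.
-/

namespace Pool.Agent.H935R2.PS.Task6

open Finset Pool.Agent.H935R2.PS

theorem dl_zero {q : ℕ} : dl (0 : ZMod q) = 0 := by
  simp [dl, nn]

theorem uu_pos (q : ℕ) : 1 ≤ uu q := by unfold uu; omega

end Pool.Agent.H935R2.PS.Task6

namespace Pool.Agent.H935R2.PS

open Finset Task6

open Classical in
theorem bad_two : ∃ q₀ : ℕ, ∀ q : ℕ, q₀ ≤ q → ∀ hq : Fact q.Prime,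
    (((univ : Finset (ZMod q)).filter (fun x => x ≠ 0 ∧ ¬ good2 x)).card : ℝ) ≤ q / 2 ^ (38 * uu q) := by
  refine ⟨2, fun q hq2 hq => ?_⟩
  set S : ℕ → Finset (ZMod q) := fun b => univ.filter (fun x => x ≠ 0 ∧ dl x = b) with hS
  set P : Finset (ℕ × ℕ) := (range (La q) ×ˢ range (La q)).filter
    (fun b => b.1 + b.2 + k1 q < La q) with hP
  have hsub : (univ : Finset (ZMod q)).filter (fun x => x ≠ 0 ∧ ¬ good2 x) ⊆
      P.biUnion (fun b => (S b.1 ×ˢ S b.2).image (fun p => p.1 / p.2)) := by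
    intro x hx
    rw [mem_filter] at hx
    obtain ⟨_, hx0, hx1⟩ := hx
    unfold good2 at hx1
    push Not at hx1
    obtain ⟨l, hl0, hl1⟩ := hx1 hx0
    have hy0 : l * x ≠ 0 := mul_ne_zero hl0 hx0
    rw [mem_biUnion]
    refine ⟨(dl (l * x), dl l), ?_, ?_⟩
    · rw [hP, mem_filter, mem_product, mem_range, mem_range]
      exact ⟨⟨dl_lt hq2 _ hy0, dl_lt hq2 _ hl0⟩, hl1⟩
    · rw [mem_image]
      refine ⟨(l * x, l), ?_, ?_⟩
      · rw [mem_product]
        simp only [hS, mem_filter, mem_univ, true_and, and_true]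
        exact ⟨hy0, hl0⟩
      · simp only
        field_simp
  have h1 : (((univ : Finset (ZMod q)).filter (fun x => x ≠ 0 ∧ ¬ good2 x)).card : ℝ) ≤
      ∑ b ∈ P, (4 * 2 ^ La q / 2 ^ k1 q : ℝ) := by
    have h2 : ((univ : Finset (ZMod q)).filter (fun x => x ≠ 0 ∧ ¬ good2 x)).card ≤
        ∑ b ∈ P, 2 ^ (b.1 + 1) * 2 ^ (b.2 + 1) := by
      refine (card_le_card hsub).trans (card_biUnion_le.trans (sum_le_sum fun b _ => ?_))
      refine card_image_le.trans ?_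
      rw [card_product]
      exact Nat.mul_le_mul (card_dl b.1) (card_dl b.2)
    calc (((univ : Finset (ZMod q)).filter (fun x => x ≠ 0 ∧ ¬ good2 x)).card : ℝ)
        ≤ ((∑ b ∈ P, 2 ^ (b.1 + 1) * 2 ^ (b.2 + 1) : ℕ) : ℝ) := by exact_mod_cast h2
      _ = ∑ b ∈ P, (2 ^ (b.1 + 1) * 2 ^ (b.2 + 1) : ℝ) := by push_cast; rfl
      _ ≤ _ := by
        refine sum_le_sum fun b hb => ?_
        rw [hP, mem_filter] at hb
        rw [le_div_iff₀ (by positivity)]
        have h3 : (2:ℝ) ^ (b.1 + b.2 + k1 q) ≤ 2 ^ La q :=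
          pow_le_pow_right₀ (by norm_num) hb.2.le
        calc (2:ℝ) ^ (b.1 + 1) * 2 ^ (b.2 + 1) * 2 ^ k1 q = 4 * 2 ^ (b.1 + b.2 + k1 q) := by ring
          _ ≤ 4 * 2 ^ La q := by linarith
  have h4 : (P.card : ℝ) ≤ (La q : ℝ) * La q := by
    have : P.card ≤ La q * La q := by
      refine (card_filter_le _ _).trans ?_
      rw [card_product, card_range]
    exact_mod_cast this
  rw [sum_const, nsmul_eq_mul] at h1
  have h5 : (La q : ℝ) ≤ 2 ^ uu q := by exact_mod_cast (La_lt_uu q).le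
  have h6 : (2:ℝ) ^ La q ≤ q := by exact_mod_cast (La_le (q := q))
  have h7 : (P.card : ℝ) ≤ 2 ^ uu q * 2 ^ uu q :=
    h4.trans (mul_le_mul h5 h5 (Nat.cast_nonneg _) (by positivity))
  have h8 : (2:ℝ) ^ k1 q = 2 ^ (38 * uu q) * (2 ^ uu q * 2 ^ uu q * 2 ^ (4 * uu q)) := by
    unfold k1
    rw [← pow_add, ← pow_add, ← pow_add]
    congr 1
    ring
  have h9 : (4:ℝ) ≤ 2 ^ (4 * uu q) := by
    calc (4:ℝ) = 2 ^ 2 := by norm_num
      _ ≤ 2 ^ (4 * uu q) := pow_le_pow_right₀ (by norm_num) (by have := uu_pos q; omega)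
  refine h1.trans ?_
  rw [h8, ← mul_div_assoc, div_le_div_iff₀ (by positivity) (by positivity)]
  have hA : 0 < (2:ℝ) ^ (38 * uu q) := by positivity
  have hq0 : (0:ℝ) ≤ q := Nat.cast_nonneg q
  have hU : (0:ℝ) < 2 ^ uu q * 2 ^ uu q := by positivity
  calc (P.card : ℝ) * (4 * 2 ^ La q) * 2 ^ (38 * uu q)
      ≤ (2 ^ uu q * 2 ^ uu q) * (2 ^ (4 * uu q) * q) * 2 ^ (38 * uu q) := by
        gcongr
    _ = _ := by ring

theorem lgood_good2 {q : ℕ} [Fact q.Prime] {α b : ZMod q} (h : lgood α b) :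
    good2 α ∧ good2 b ∧ good2 (-α / b) := by
  obtain ⟨h1, h2, h3⟩ := h
  refine ⟨⟨h1, fun l hl => ?_⟩, ⟨h2, fun l hl => ?_⟩, ⟨?_, fun l hl => ?_⟩⟩
  · have := h3 l 0 (Or.inl hl)
    rw [mul_zero, add_zero, dl_zero, mul_comm] at this
    omega
  · have := h3 0 l (Or.inr hl)
    rw [mul_zero, zero_add, dl_zero, mul_comm] at this
    omega
  · exact div_ne_zero (neg_ne_zero.2 h1) h2
  · have := h3 l (l * (-α / b)) (Or.inl hl)
    have h4 : α * l + b * (l * (-α / b)) = 0 := by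
      field_simp
      ring
    rw [h4, dl_zero] at this
    omega

theorem pgood_good2 {q : ℕ} [Fact q.Prime] {a w : ZMod q} (h : pgood a w) :
    good2 a ∧ good2 w ∧ good2 (a / w) := by
  obtain ⟨h1, h2, h3⟩ := h
  refine ⟨⟨h1, fun l hl => ?_⟩, ⟨h2, fun l hl => ?_⟩, ⟨div_ne_zero h1 h2, fun l hl => ?_⟩⟩
  · have := h3 l hl
    unfold PB at this
    omega
  · have := h3 l hl
    unfold PB at this
    omega
  · have := h3 (l / w) (div_ne_zero hl h2)
    have h4 : l / w * a = l * (a / w) := by ring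
    have h5 : l / w * w = l := by field_simp
    rw [h4, h5] at this
    unfold PB at this
    omega

end Pool.Agent.H935R2.PS
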