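import Pool.Agent.H935R2.PS.I1b
import Pool.Agent.H935R2.PS.F2

set_option autoImplicit false
set_option linter.unusedVariables false

/-!
# Task I1: two-step conditional mean of a plane cell
-/

namespace Pool.Agent.H935R2.PS

open Finset

/-- two-step conditional mean of a plane cell -/
theorem two_step : ∃ C : ℝ, 0 < C ∧ ∃ q₀ : ℕ, ∀ q : ℕ, q₀ ≤ q → ∀ hq : Fact q.Prime, Suit q →
    ∃ Φ : ZMod q → ZMod q → ZMod q → ℝ, (∀ x y z, 0 ≤ Φ x y z) ∧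
      (∑ x : ZMod q, ∑ y : ZMod q, ∑ z : ZMod q, Φ x y z ≤ C * (La q * √(La q)) * (q:ℝ) ^ 3) ∧
      ∀ b'' w' b : ZMod q, good2 b'' → good2 w' → good2 b →
      ∀ (c c' : ZMod q) (t1 t2 t3 : ℕ), t1 < q → t2 < q → t3 < q →
      |(∑ x ∈ Aset b'' w', (∑ a ∈ Aset b (-x / b''), Xp c c' a (-x / b'') t1 t2 t3) /
        (Aset b (-x / b'')).card) / (Aset b'' w').card| ≤ Φ b'' w' b :=
  I1.two_step_of (I1.facts mean_plane)

/-- two-step conditional mean of a plane cell, first cell of a row -/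
theorem two_step0 : ∃ C : ℝ, 0 < C ∧ ∃ q₀ : ℕ, ∀ q : ℕ, q₀ ≤ q → ∀ hq : Fact q.Prime, Suit q →
    ∃ Φ : ZMod q → ZMod q → ℝ, (∀ x z, 0 ≤ Φ x z) ∧
      (∑ x : ZMod q, ∑ z : ZMod q, Φ x z ≤ C * (La q * √(La q)) * (q:ℝ) ^ 2) ∧
      ∀ b'' b : ZMod q, good2 b'' → good2 b →
      ∀ (c c' : ZMod q) (t1 t2 t3 : ℕ), t1 < q → t2 < q → t3 < q →
      |(∑ x ∈ Aset0 b'', (∑ a ∈ Aset b (-x / b''), Xp c c' a (-x / b'') t1 t2 t3) /
        (Aset b (-x / b'')).card) / (Aset0 b'').card| ≤ Φ b'' b :=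
  I1.two_step0_of (I1.facts mean_plane)

end Pool.Agent.H935R2.PS
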