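import Pool.Agent.H935R2.PS.A1
import Pool.Agent.H935R2.PS.Asetdef

set_option autoImplicit false

/-!
# I2: conditional mean of a line cell, from the results used as hypotheses
-/

namespace Pool.Agent.H935R2.PS

open Finset

namespace I2

open Classical in
/-- the statement of `mean_line` -/
def HMean : Prop := ∃ C : ℝ, 0 < C ∧ ∃ q₀ : ℕ, ∀ q : ℕ, q₀ ≤ q → ∀ hq : Fact q.Prime, Suit q →
    ∃ Ψ : ZMod q → ℝ, (∀ b, 0 ≤ Ψ b) ∧
      (∑ b ∈ (univ : Finset (ZMod q)).filter (fun b => good2 b), Ψ b ≤ C * (La q * √(La q)) * q) ∧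
      ∀ b, good2 b → ∀ (c2 c3 : ZMod q) (t1 t2 t3 : ℕ), t1 < q → t2 < q → t3 < q →
      |∑ α ∈ (univ : Finset (ZMod q)).filter (fun α => lgood α b), Xl c2 c3 α b t1 t2 t3| ≤ q * Ψ b

/-- the statement of `Xl_le` -/
def HXl : Prop := ∀ {q : ℕ} [Fact q.Prime] (c2 c3 α b : ZMod q) (t1 t2 t3 : ℕ)
    (h1 : t1 < q) (h2 : t2 < q) (h3 : t3 < q), |Xl c2 c3 α b t1 t2 t3| ≤ Rl α b

/-- the statement of `Aset_card` -/
def HAset : Prop := ∃ q₀ : ℕ, ∀ q : ℕ, q₀ ≤ q → ∀ hq : Fact q.Prime, ∀ b w : ZMod q, good2 b →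
    good2 w → (q:ℝ) / 2 ≤ (Aset b w).card ∧ (q:ℝ) / 2 ≤ (Aset0 b).card

open Classical in
/-- the statement of `bad_plane_a` -/
def HBad : Prop := ∃ q₀ : ℕ, ∀ q : ℕ, q₀ ≤ q → ∀ hq : Fact q.Prime, ∀ a : ZMod q, good2 a →
    (((univ : Finset (ZMod q)).filter (fun w => w ≠ 0 ∧ ¬ pgood a w)).card : ℝ) ≤ q / 2 ^ (38 * uu q)

open Classical in
/-- the statement of `sum_Rl` -/
def HRl : Prop := ∃ C : ℝ, 0 < C ∧ ∀ q : ℕ, ∀ hq : Fact q.Prime, 3 ≤ q →
    ∑ p ∈ (univ : Finset (ZMod q × ZMod q)).filter (fun p => p.1 ≠ 0 ∧ p.2 ≠ 0), Rl p.1 p.2 ≤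
      C * (La q : ℝ) ^ 3 * (q:ℝ) ^ 2

/-- the statement of `lgood_good2` -/
def HLg : Prop := ∀ {q : ℕ} [Fact q.Prime] {α b : ZMod q} (h : lgood α b),
    good2 α ∧ good2 b ∧ good2 (-α / b)

theorem Rl_nonneg {q : ℕ} [NeZero q] (α b : ZMod q) : 0 ≤ Rl α b := by
  unfold Rl
  refine sum_nonneg fun v _ => ?_
  have h1 : (0:ℝ) ≤ mx (α * v.1 + b * v.2) := le_trans zero_le_one (le_max_left _ _)
  have h2 : (0:ℝ) ≤ mx v.1 := le_trans zero_le_one (le_max_left _ _)
  have h3 : (0:ℝ) ≤ mx v.2 := le_trans zero_le_one (le_max_left _ _)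
  positivity

theorem one_le_LaLa {q : ℕ} (hq : 2 ≤ q) : (1:ℝ) ≤ La q * √(La q) := by
  have h1 : 1 ≤ La q := Nat.log_pos (by norm_num) hq
  have h2 : (1:ℝ) ≤ La q := by exact_mod_cast h1
  have h3 : (1:ℝ) ≤ √(La q) := Real.one_le_sqrt.2 h2
  nlinarith

open Classical in
theorem one_step_of (hm : HMean) (hx : HXl) (ha : HAset) (hb : HBad) (hr : HRl) (hl : HLg) :
    ∃ C : ℝ, 0 < C ∧ ∃ q₀ : ℕ, ∀ q : ℕ, q₀ ≤ q → ∀ hq : Fact q.Prime, Suit q →
    ∃ Φ : ZMod q → ZMod q → ℝ, (∀ x z, 0 ≤ Φ x z) ∧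
      (∑ x : ZMod q, ∑ z : ZMod q, Φ x z ≤ C * (La q * √(La q)) * (q:ℝ) ^ 2) ∧
      ∀ b w : ZMod q, good2 b → good2 w →
      ∀ (c2 c3 : ZMod q) (t1 t2 t3 : ℕ), t1 < q → t2 < q → t3 < q →
      |(∑ α ∈ Aset b w, Xl c2 c3 α b t1 t2 t3) / (Aset b w).card| ≤ Φ b w := by
  obtain ⟨C1, hC1, qm, hm⟩ := hm
  obtain ⟨qa, ha⟩ := ha
  obtain ⟨qb, hb⟩ := hb
  obtain ⟨C2, hC2, hr⟩ := hr
  refine ⟨2 * C1 + 2 * C2, by positivity, max (max qm qa) (max qb 3), ?_⟩
  intro q hq0 hq hs
  have hqm : qm ≤ q := le_trans (le_trans (le_max_left _ _) (le_max_left _ _)) hq0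
  have hqa : qa ≤ q := le_trans (le_trans (le_max_right _ _) (le_max_left _ _)) hq0
  have hqb : qb ≤ q := le_trans (le_trans (le_max_left _ _) (le_max_right _ _)) hq0
  have hq3 : 3 ≤ q := le_trans (le_trans (le_max_right _ _) (le_max_right _ _)) hq0
  have hqpos : (0:ℝ) < q := by
    have : 0 < q := by omega
    exact_mod_cast this
  obtain ⟨Ψ, hΨ0, hΨs, hΨ⟩ := hm q hqm hq hs
  set E : ZMod q → ZMod q → ℝ := fun b w =>
    ∑ α ∈ (univ : Finset (ZMod q)).filter (fun α => lgood α b ∧ ¬ pgood α w), Rl α b with hE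
  have hE0 : ∀ b w, 0 ≤ E b w := fun b w => sum_nonneg fun α _ => Rl_nonneg α b
  refine ⟨fun b w => if good2 b ∧ good2 w then 2 * Ψ b + 2 / q * E b w else 0, ?_, ?_, ?_⟩
  · intro x z
    simp only
    split_ifs
    · have := hΨ0 x
      have := hE0 x z
      positivity
    · exact le_rfl
  · -- the sum
    have h1 : ∑ x : ZMod q, ∑ z : ZMod q,
        (if good2 x ∧ good2 z then 2 * Ψ x + 2 / q * E x z else 0) ≤
        ∑ x : ZMod q, ∑ z : ZMod q, (if good2 x then 2 * Ψ x else 0) +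
        ∑ x : ZMod q, ∑ z : ZMod q, (if good2 x ∧ good2 z then 2 / q * E x z else 0) := by
      rw [← sum_add_distrib]
      refine sum_le_sum fun x _ => ?_
      rw [← sum_add_distrib]
      refine sum_le_sum fun z _ => ?_
      by_cases hx : good2 x
      · by_cases hz : good2 z
        · rw [if_pos ⟨hx, hz⟩, if_pos hx, if_pos ⟨hx, hz⟩]
        · rw [if_neg (fun h => hz h.2), if_pos hx, if_neg (fun h => hz h.2)]
          have := hΨ0 x
          linarith
      · rw [if_neg (fun h => hx h.1), if_neg hx, if_neg (fun h => hx h.1)]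
        linarith
    have h2 : ∑ x : ZMod q, ∑ z : ZMod q, (if good2 x then 2 * Ψ x else 0) ≤
        2 * C1 * (La q * √(La q)) * (q:ℝ) ^ 2 := by
      have e1 : ∀ x : ZMod q, ∑ z : ZMod q, (if good2 x then 2 * Ψ x else 0) =
          q * (if good2 x then 2 * Ψ x else 0) := by
        intro x
        rw [sum_const, card_univ, ZMod.card, nsmul_eq_mul]
      rw [sum_congr rfl (fun x _ => e1 x), ← mul_sum, ← sum_filter, ← mul_sum]
      have := mul_le_mul_of_nonneg_left hΨs (by positivity : (0:ℝ) ≤ 2 * q)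
      calc (q:ℝ) * (2 * ∑ x ∈ (univ : Finset (ZMod q)).filter (fun b => good2 b), Ψ x)
          = 2 * q * ∑ x ∈ (univ : Finset (ZMod q)).filter (fun b => good2 b), Ψ x := by ring
        _ ≤ 2 * q * (C1 * (La q * √(La q)) * q) := this
        _ = _ := by ring
    have h3 : ∑ x : ZMod q, ∑ z : ZMod q, (if good2 x ∧ good2 z then 2 / q * E x z else 0) ≤
        2 * C2 * (q:ℝ) ^ 2 := by
      -- the number of bad `z`
      have hcount : ∀ α x : ZMod q, lgood α x →
          (((univ : Finset (ZMod q)).filter (fun z => good2 z ∧ ¬ pgood α z)).card : ℝ) ≤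
            q / 2 ^ (38 * uu q) := by
        intro α x hax
        refine le_trans ?_ (hb q hqb hq α (hl hax).1)
        have : (univ : Finset (ZMod q)).filter (fun z => good2 z ∧ ¬ pgood α z) ⊆
            (univ : Finset (ZMod q)).filter (fun w => w ≠ 0 ∧ ¬ pgood α w) := by
          intro z hz
          rw [mem_filter] at hz ⊢
          exact ⟨hz.1, hz.2.1.1, hz.2.2⟩
        exact_mod_cast card_le_card this
      have e1 : ∀ x : ZMod q, ∑ z : ZMod q, (if good2 x ∧ good2 z then 2 / q * E x z else 0) ≤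
          ∑ α : ZMod q, (if α ≠ 0 ∧ x ≠ 0 then 2 / 2 ^ (38 * uu q) * Rl α x else 0) := by
        intro x
        by_cases hx : good2 x
        · have e2 : ∀ z : ZMod q, (if good2 x ∧ good2 z then 2 / q * E x z else 0) =
              ∑ α : ZMod q, (if lgood α x then (if good2 z ∧ ¬ pgood α z then
                2 / q * Rl α x else 0) else 0) := by
            intro z
            by_cases hz : good2 z
            · rw [if_pos ⟨hx, hz⟩, hE]
              simp only
              rw [mul_sum, sum_filter]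
              refine sum_congr rfl fun α _ => ?_
              by_cases h1 : lgood α x
              · by_cases h2 : pgood α z
                · rw [if_neg (fun h => h.2 h2), if_pos h1, if_neg (fun h => h.2 h2)]
                · rw [if_pos ⟨h1, h2⟩, if_pos h1, if_pos ⟨hz, h2⟩]
              · rw [if_neg (fun h => h1 h.1), if_neg h1]
            · rw [if_neg (fun h => hz h.2)]
              symm
              refine sum_eq_zero fun α _ => ?_
              by_cases h1 : lgood α x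
              · rw [if_pos h1, if_neg (fun h => hz h.1)]
              · rw [if_neg h1]
          rw [sum_congr rfl (fun z _ => e2 z), sum_comm]
          refine sum_le_sum fun α _ => ?_
          by_cases h1 : lgood α x
          · have e3 : ∑ z : ZMod q, (if lgood α x then (if good2 z ∧ ¬ pgood α z then
                2 / q * Rl α x else 0) else 0) =
                (((univ : Finset (ZMod q)).filter (fun z => good2 z ∧ ¬ pgood α z)).card : ℝ) *
                  (2 / q * Rl α x) := by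
              simp only [if_pos h1]
              rw [← sum_filter, sum_const, nsmul_eq_mul]
            rw [e3, if_pos ⟨h1.1, h1.2.1⟩]
            have hR := Rl_nonneg α x
            calc (((univ : Finset (ZMod q)).filter (fun z => good2 z ∧ ¬ pgood α z)).card : ℝ) *
                  (2 / q * Rl α x)
                ≤ q / 2 ^ (38 * uu q) * (2 / q * Rl α x) := by
                  refine mul_le_mul_of_nonneg_right (hcount α x h1) (by positivity)
              _ = 2 / 2 ^ (38 * uu q) * Rl α x := by field_simp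
          · simp only [if_neg h1, sum_const_zero]
            split_ifs
            · have hR := Rl_nonneg α x
              positivity
            · exact le_rfl
        · simp only [hx, false_and, if_false, sum_const_zero]
          refine sum_nonneg fun α _ => ?_
          split_ifs
          · have hR := Rl_nonneg α x
            positivity
          · exact le_rfl
      refine (sum_le_sum fun x _ => e1 x).trans ?_
      have e4 : ∑ x : ZMod q, ∑ α : ZMod q,
          (if α ≠ 0 ∧ x ≠ 0 then 2 / 2 ^ (38 * uu q) * Rl α x else 0) =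
          2 / 2 ^ (38 * uu q) * ∑ p ∈ (univ : Finset (ZMod q × ZMod q)).filter
            (fun p => p.1 ≠ 0 ∧ p.2 ≠ 0), Rl p.1 p.2 := by
        rw [mul_sum, sum_filter, Fintype.sum_prod_type, sum_comm]
      rw [e4]
      have h4 := hr q hq hq3
      have h5 : ((La q : ℕ) : ℝ) ^ 3 ≤ 2 ^ (38 * uu q) := by
        have h6 : La q ^ 3 ≤ 2 ^ (38 * uu q) := by
          calc La q ^ 3 ≤ (2 ^ uu q) ^ 3 := Nat.pow_le_pow_left (La_lt_uu q).le 3
            _ = 2 ^ (3 * uu q) := by rw [← pow_mul, mul_comm]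
            _ ≤ 2 ^ (38 * uu q) := Nat.pow_le_pow_right (by norm_num) (by omega)
        exact_mod_cast h6
      have hp : (0:ℝ) < 2 ^ (38 * uu q) := by positivity
      calc 2 / 2 ^ (38 * uu q) * ∑ p ∈ (univ : Finset (ZMod q × ZMod q)).filter
            (fun p => p.1 ≠ 0 ∧ p.2 ≠ 0), Rl p.1 p.2
          ≤ 2 / 2 ^ (38 * uu q) * (C2 * (La q : ℝ) ^ 3 * (q:ℝ) ^ 2) := by gcongr
        _ ≤ 2 / 2 ^ (38 * uu q) * (C2 * 2 ^ (38 * uu q) * (q:ℝ) ^ 2) := by gcongr
        _ = 2 * C2 * (q:ℝ) ^ 2 := by field_simp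
    have h7 := one_le_LaLa (q := q) (by omega)
    have h8 : 2 * C2 * (q:ℝ) ^ 2 ≤ 2 * C2 * (La q * √(La q)) * (q:ℝ) ^ 2 := by
      have : (0:ℝ) ≤ 2 * C2 * (q:ℝ) ^ 2 := by positivity
      nlinarith
    linarith
  · intro b w hgb hgw c2 c3 t1 t2 t3 h1 h2 h3
    simp only
    rw [if_pos ⟨hgb, hgw⟩]
    have hcard := (ha q hqa hq b w hgb hgw).1
    have hcpos : (0:ℝ) < (Aset b w).card := lt_of_lt_of_le (by positivity) hcard
    have hsplit : ∑ α ∈ Aset b w, Xl c2 c3 α b t1 t2 t3 =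
        ∑ α ∈ (univ : Finset (ZMod q)).filter (fun α => lgood α b), Xl c2 c3 α b t1 t2 t3 -
        ∑ α ∈ (univ : Finset (ZMod q)).filter (fun α => lgood α b ∧ ¬ pgood α w),
          Xl c2 c3 α b t1 t2 t3 := by
      unfold Aset
      rw [eq_sub_iff_add_eq, ← sum_filter_add_sum_filter_not
        ((univ : Finset (ZMod q)).filter (fun α => lgood α b)) (fun α => pgood α w),
        filter_filter, filter_filter]
    have hnum : |∑ α ∈ Aset b w, Xl c2 c3 α b t1 t2 t3| ≤ q * Ψ b + E b w := by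
      rw [hsplit]
      refine (abs_sub _ _).trans (add_le_add (hΨ b hgb c2 c3 t1 t2 t3 h1 h2 h3) ?_)
      refine (abs_sum_le_sum_abs _ _).trans ?_
      exact sum_le_sum fun α _ => hx c2 c3 α b t1 t2 t3 h1 h2 h3
    rw [abs_div, abs_of_pos hcpos, div_le_iff₀ hcpos]
    refine hnum.trans ?_
    have h0 : 0 ≤ 2 * Ψ b + 2 / q * E b w := by
      have := hΨ0 b
      have := hE0 b w
      positivity
    calc (q:ℝ) * Ψ b + E b w = (2 * Ψ b + 2 / q * E b w) * (q / 2) := by field_simp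
      _ ≤ (2 * Ψ b + 2 / q * E b w) * (Aset b w).card := by gcongr

open Classical in
theorem one_step0_of (hm : HMean) (ha : HAset) :
    ∃ C : ℝ, 0 < C ∧ ∃ q₀ : ℕ, ∀ q : ℕ, q₀ ≤ q → ∀ hq : Fact q.Prime, Suit q →
    ∃ Φ : ZMod q → ℝ, (∀ x, 0 ≤ Φ x) ∧
      (∑ x : ZMod q, Φ x ≤ C * (La q * √(La q)) * q) ∧
      ∀ b : ZMod q, good2 b →
      ∀ (c2 c3 : ZMod q) (t1 t2 t3 : ℕ), t1 < q → t2 < q → t3 < q →
      |(∑ α ∈ Aset0 b, Xl c2 c3 α b t1 t2 t3) / (Aset0 b).card| ≤ Φ b := by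
  obtain ⟨C1, hC1, qm, hm⟩ := hm
  obtain ⟨qa, ha⟩ := ha
  refine ⟨2 * C1, by positivity, max (max qm qa) 3, ?_⟩
  intro q hq0 hq hs
  have hqm : qm ≤ q := le_trans (le_trans (le_max_left _ _) (le_max_left _ _)) hq0
  have hqa : qa ≤ q := le_trans (le_trans (le_max_right _ _) (le_max_left _ _)) hq0
  have hq3 : 3 ≤ q := le_trans (le_max_right _ _) hq0
  have hqpos : (0:ℝ) < q := by
    have : 0 < q := by omega
    exact_mod_cast this
  obtain ⟨Ψ, hΨ0, hΨs, hΨ⟩ := hm q hqm hq hs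
  refine ⟨fun b => if good2 b then 2 * Ψ b else 0, ?_, ?_, ?_⟩
  · intro x
    simp only
    split_ifs
    · have := hΨ0 x
      positivity
    · exact le_rfl
  · rw [← sum_filter, ← mul_sum]
    calc 2 * ∑ x ∈ (univ : Finset (ZMod q)).filter (fun b => good2 b), Ψ x
        ≤ 2 * (C1 * (La q * √(La q)) * q) := by gcongr
      _ = _ := by ring
  · intro b hgb c2 c3 t1 t2 t3 h1 h2 h3
    simp only
    rw [if_pos hgb]
    have hcard := (ha q hqa hq b b hgb hgb).2
    have hcpos : (0:ℝ) < (Aset0 b).card := lt_of_lt_of_le (by positivity) hcard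
    have hnum := hΨ b hgb c2 c3 t1 t2 t3 h1 h2 h3
    rw [abs_div, abs_of_pos hcpos, div_le_iff₀ hcpos]
    have h0 := hΨ0 b
    unfold Aset0 at hcard ⊢
    calc |∑ α ∈ (univ : Finset (ZMod q)).filter (fun α => lgood α b), Xl c2 c3 α b t1 t2 t3|
        ≤ q * Ψ b := hnum
      _ = 2 * Ψ b * (q / 2) := by ring
      _ ≤ 2 * Ψ b * ((univ : Finset (ZMod q)).filter (fun α => lgood α b)).card := by gcongr

end I2

end Pool.Agent.H935R2.PS
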