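import Pool.Agent.H935R2.PS.DefsK

set_option autoImplicit false

/-!
Task KA: the net property.
-/

namespace Pool.Agent.H935R2.PS.TaskKA

open Finset Pool.Agent.H935R2.PS

variable {q : ℕ} [Fact q.Prime]

theorem ss_zero (n : ℕ) (a : ℕ → ℕ → ZMod q) (u : ℕ → ZMod q) (i : ℕ) :
    ss n a u 0 i = a 0 (n + 1 - i) * u i := rfl

theorem ss_succ_zero (n : ℕ) (a : ℕ → ℕ → ZMod q) (u : ℕ → ZMod q) (r : ℕ) :
    ss n a u (r + 1) 0 = 0 := by
  simp [ss]

/-- the recursion -/
theorem ss_succ (n : ℕ) (a : ℕ → ℕ → ZMod q) (u : ℕ → ZMod q) (r i : ℕ) :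
    ss n a u (r + 1) (i + 1) = ss n a u (r + 1) i + kp n a (r + 1) (i + 1) * ss n a u r (i + 1) := by
  show ∑ i' ∈ Icc 1 (i + 1), kp n a (r + 1) i' * ss n a u r i' =
    ∑ i' ∈ Icc 1 i, kp n a (r + 1) i' * ss n a u r i' + _
  rw [Finset.sum_Icc_succ_top (by omega)]

theorem ss_sub (n : ℕ) (a : ℕ → ℕ → ZMod q) (u v : ℕ → ZMod q) (r i : ℕ) :
    ss n a (fun k => u k - v k) r i = ss n a u r i - ss n a v r i := by
  induction r generalizing i with
  | zero => simp only [ss_zero]; ring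
  | succ r ih =>
    simp only [ss]
    rw [← Finset.sum_sub_distrib]
    exact Finset.sum_congr rfl fun i' _ => by rw [ih]; ring

theorem ex_sub {n : ℕ} (u v : Fin n → ZMod q) :
    (ex (u - v) : ℕ → ZMod q) = fun k => ex u k - ex v k := by
  funext k
  unfold ex
  split_ifs with h
  · rfl
  · simp

theorem ex_zero {n : ℕ} (u : Fin n → ZMod q) : (ex u 0 : ZMod q) = 0 := by
  unfold ex
  rw [dif_neg (by omega)]

theorem ex_apply {n : ℕ} (u : Fin n → ZMod q) (i : Fin n) : (ex u (i + 1) : ZMod q) = u i := by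
  unfold ex
  rw [dif_pos (by have := i.2; omega)]
  simp

theorem dg_sub {n : ℕ} (a : ℕ → ℕ → ZMod q) (u v : Fin n → ZMod q) (l : Fin 3) (k : ℕ) :
    dg n a (ex (u - v)) l k = dg n a (ex u) l k - dg n a (ex v) l k := by
  unfold dg
  rw [ex_sub]
  split_ifs
  · rfl
  · rw [ss_sub]
  · ring

theorem kp_ne (n : ℕ) (a : ℕ → ℕ → ZMod q) (ha : ∀ r j, a r j ≠ 0) (r i : ℕ) : kp n a r i ≠ 0 :=
  div_ne_zero (ha _ _) (ha _ _)

/-- `s_r(i)` vanishes if the first `i` coordinates vanish -/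
theorem ss_van (n : ℕ) (a : ℕ → ℕ → ZMod q) (u : ℕ → ZMod q) (m : ℕ)
    (h : ∀ k, k ≤ m → u k = 0) : ∀ r i, i ≤ m → ss n a u r i = 0 := by
  intro r
  induction r with
  | zero => intro i hi; rw [ss_zero, h i hi, mul_zero]
  | succ r ih =>
    intro i hi
    simp only [ss]
    refine Finset.sum_eq_zero fun i' hi' => ?_
    rw [Finset.mem_Icc] at hi'
    rw [ih i' (by omega), mul_zero]

/-- triangle of zeros on the right -/
theorem ss_right (n : ℕ) (a : ℕ → ℕ → ZMod q) (u : ℕ → ZMod q) (m1 m2 : ℕ) (hm : m1 + m2 ≤ n)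
    (h2 : ∀ k, n < k + m2 → k ≤ n → u k = 0) (h1 : ∀ r, 1 ≤ r → r ≤ m1 → ss n a u r (n + 1 - r) = 0) :
    ∀ r, r ≤ m1 → ∀ i, n + 1 ≤ i + r + m2 → i + r ≤ n + 1 → i ≤ n → ss n a u r i = 0 := by
  intro r
  induction r with
  | zero =>
    intro _ i hi1 _ hi3
    rw [ss_zero, h2 i (by omega) hi3, mul_zero]
  | succ r ih =>
    intro hr
    have key : ∀ t i, i + t = n - r → n + 1 ≤ i + (r + 1) + m2 → ss n a u (r + 1) i = 0 := by
      intro t
      induction t with
      | zero =>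
        intro i hi _
        have h3 := h1 (r + 1) (by omega) hr
        rw [show n + 1 - (r + 1) = i by omega] at h3
        exact h3
      | succ t iht =>
        intro i hi hi2
        have h3 := iht (i + 1) (by omega) (by omega)
        rw [ss_succ, ih (by omega) (i + 1) (by omega) (by omega) (by omega), mul_zero,
          add_zero] at h3
        exact h3
    intro i hi1 hi2 _
    exact key (n - r - i) i (by omega) hi1

theorem kernel (n : ℕ) (a : ℕ → ℕ → ZMod q) (ha : ∀ r j, a r j ≠ 0) (u : ℕ → ZMod q)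
    (hu0 : u 0 = 0) (m1 : ℕ) : ∀ (m0 m2 : ℕ), m0 + m1 + m2 = n →
    (∀ k, 1 ≤ k → k ≤ m0 → u k = 0) → (∀ k, n < k + m2 → k ≤ n → u k = 0) →
    (∀ r, 1 ≤ r → r ≤ m1 → ss n a u r (n + 1 - r) = 0) → ∀ k, 1 ≤ k → k ≤ n → u k = 0 := by
  induction m1 with
  | zero =>
    intro m0 m2 hm h0 h2 _ k hk1 hk2
    rcases Nat.lt_or_ge m0 k with h | h
    · exact h2 k (by omega) hk2
    · exact h0 k hk1 h
  | succ M ih =>
    intro m0 m2 hm h0 h2 h1
    have hA := ss_right n a u (M + 1) m2 (by omega) h2 h1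
    have hB := ss_van n a u m0 (fun k hk => by
      rcases Nat.eq_zero_or_pos k with h | h
      · rw [h, hu0]
      · exact h0 k h hk)
    have hC : ∀ t r, r + t = M + 1 → ss n a u r (m0 + 1) = 0 := by
      intro t
      induction t with
      | zero =>
        intro r hr
        exact hA r (by omega) (m0 + 1) (by omega) (by omega) (by omega)
      | succ t iht =>
        intro r hr
        have h3 := iht (r + 1) (by omega)
        rw [ss_succ, hB (r + 1) m0 le_rfl, zero_add] at h3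
        rcases mul_eq_zero.1 h3 with h4 | h4
        · exact absurd h4 (kp_ne n a ha _ _)
        · exact h4
    have hD : u (m0 + 1) = 0 := by
      have h3 := hC (M + 1) 0 (by omega)
      rw [ss_zero] at h3
      rcases mul_eq_zero.1 h3 with h4 | h4
      · exact absurd h4 (ha _ _)
      · exact h4
    refine ih (m0 + 1) m2 (by omega) (fun k hk1 hk2 => ?_) h2 (fun r hr1 hr2 => h1 r hr1 (by omega))
    rcases Nat.lt_or_ge m0 k with h | h
    · rw [show k = m0 + 1 by omega]; exact hD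
    · exact h0 k hk1 h

end Pool.Agent.H935R2.PS.TaskKA

namespace Pool.Agent.H935R2.PS

open Finset TaskKA

variable {q : ℕ} [Fact q.Prime]

/-- KA. The net property. -/
theorem net_unique (n : ℕ) (a : ℕ → ℕ → ZMod q) (ha : ∀ r j, a r j ≠ 0) (m : Fin 3 → ℕ)
    (hm : m 0 + m 1 + m 2 = n) (p : Fin 3 → ℕ → ZMod q) :
    ∃! u : Fin n → ZMod q, ∀ l, ∀ k ∈ Icc 1 (m l), dg n a (ex u) l k = p l k := by
  classical
  have hinj : ∀ u : Fin n → ZMod q, (∀ l, ∀ k ∈ Icc 1 (m l), dg n a (ex u) l k = 0) → u = 0 := by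
    intro u hu
    have h0 : ∀ k, 1 ≤ k → k ≤ m 0 → (ex u k : ZMod q) = 0 := fun k h1 h2 => by
      have := hu 0 k (mem_Icc.2 ⟨h1, h2⟩)
      simpa [dg] using this
    have h1 : ∀ r, 1 ≤ r → r ≤ m 1 → ss n a (ex u) r (n + 1 - r) = 0 := fun k h1 h2 => by
      have := hu 1 k (mem_Icc.2 ⟨h1, h2⟩)
      simpa [dg] using this
    have h2 : ∀ k, n < k + m 2 → k ≤ n → (ex u k : ZMod q) = 0 := fun k h1 h2 => by
      have h3 := hu 2 (n + 1 - k) (mem_Icc.2 ⟨by omega, by omega⟩)
      simp only [dg, show (2 : Fin 3) ≠ 0 by decide, show (2 : Fin 3) ≠ 1 by decide, if_false] at h3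
      rw [show n + 1 - (n + 1 - k) = k by omega] at h3
      rcases mul_eq_zero.1 h3 with h4 | h4
      · exact absurd h4 (ha _ _)
      · exact h4
    have h3 := kernel n a ha (ex u) (ex_zero u) (m 1) (m 0) (m 2) hm h0 h2 h1
    funext i
    rw [← ex_apply u i]
    exact h3 (i + 1) (by omega) (by have := i.2; omega)
  set Φ : (Fin n → ZMod q) → ((Σ l : Fin 3, Fin (m l)) → ZMod q) :=
    fun u x => dg n a (ex u) x.1 (x.2 + 1) with hΦ
  have hΦinj : Function.Injective Φ := by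
    intro u v huv
    rw [← sub_eq_zero]
    apply hinj
    intro l k hk
    rw [mem_Icc] at hk
    rw [dg_sub, sub_eq_zero]
    have h1 := congrFun huv ⟨l, ⟨k - 1, by omega⟩⟩
    simp only [hΦ] at h1
    rwa [show k - 1 + 1 = k by omega] at h1
  have hcard : Fintype.card (Fin n → ZMod q) = Fintype.card ((Σ l : Fin 3, Fin (m l)) → ZMod q) := by
    rw [Fintype.card_fun, Fintype.card_fun, Fintype.card_fin, Fintype.card_sigma]
    simp only [Fintype.card_fin, Fin.sum_univ_three]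
    rw [hm]
  have hbij : Function.Bijective Φ := (Fintype.bijective_iff_injective_and_card Φ).2 ⟨hΦinj, hcard⟩
  obtain ⟨u, hu⟩ := hbij.2 (fun x => p x.1 (x.2 + 1))
  refine ⟨u, fun l k hk => ?_, fun v hv => ?_⟩
  · rw [mem_Icc] at hk
    have h1 := congrFun hu ⟨l, ⟨k - 1, by omega⟩⟩
    simp only [hΦ] at h1
    rwa [show k - 1 + 1 = k by omega] at h1
  · apply hbij.1
    rw [hu]
    funext x
    exact hv x.1 (x.2 + 1) (mem_Icc.2 ⟨by omega, by have := x.2.2; omega⟩)

end Pool.Agent.H935R2.PS
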