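import Pool.Agent.H935R2.PS.DefsK
import Pool.Agent.H935R2.PS.KA

set_option autoImplicit false

/-!
# Task KB: plane cells and line cells of the net (from the net property)
-/

namespace Pool.Agent.H935R2.PS

open Finset

namespace KB

variable {q : ℕ} [Fact q.Prime]

/-- the net property (statement of `net_unique`) -/
def NetU (q : ℕ) [Fact q.Prime] : Prop :=
  ∀ (n : ℕ) (a : ℕ → ℕ → ZMod q) (_ : ∀ r j, a r j ≠ 0) (m : Fin 3 → ℕ)
    (_ : m 0 + m 1 + m 2 = n) (p : Fin 3 → ℕ → ZMod q),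
    ∃! u : Fin n → ZMod q, ∀ l, ∀ k ∈ Icc 1 (m l), dg n a (ex u) l k = p l k

/-! ### algebra of the units -/

theorem bb_ne (a : ℕ → ℕ → ZMod q) (ha : ∀ r j, a r j ≠ 0) (r j : ℕ) : bb a r j ≠ 0 := by
  induction r with
  | zero => exact ha 0 j
  | succ r ih =>
    simp only [bb]
    exact div_ne_zero (mul_ne_zero (neg_ne_zero.2 (ha _ _)) ih) (ha _ _)

theorem ww_ne (a : ℕ → ℕ → ZMod q) (ha : ∀ r j, a r j ≠ 0) (r j : ℕ) : ww a r j ≠ 0 := by
  unfold ww
  exact div_ne_zero (neg_ne_zero.2 (ha _ _)) (bb_ne a ha _ _)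

theorem bb_ww (a : ℕ → ℕ → ZMod q) (ha : ∀ r j, a r j ≠ 0) (r j : ℕ) :
    bb a (r + 1) j * ww a (r + 1) j = a (r + 1) j := by
  have h1 := bb_ne a ha r j
  have h2 := ha (r + 1) (j - 1)
  unfold ww
  simp only [bb, Nat.add_sub_cancel]
  field_simp

theorem Del_eq (a : ℕ → ℕ → ZMod q) (ha : ∀ r j, a r j ≠ 0) (D0 z : ℕ → ZMod q) (r j : ℕ) :
    Del a D0 z (r + 1) j = ww a (r + 1) j * DD a D0 z (r + 1) j := by
  have h1 := ww_ne a ha (r + 1) j
  unfold Del
  simp only [DD, Nat.add_sub_cancel]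
  field_simp

theorem Del_zero (a : ℕ → ℕ → ZMod q) (D0 z : ℕ → ZMod q) (r : ℕ) : Del a D0 z r 0 = z r := by
  simp [Del]

theorem Del_succ (a : ℕ → ℕ → ZMod q) (D0 z : ℕ → ZMod q) (r j : ℕ) :
    Del a D0 z r (j + 1) = Del a D0 z r j + ww a r (j + 1) * DD a D0 z (r - 1) (j + 1) := by
  unfold Del
  rw [Finset.sum_Icc_succ_top (by omega)]
  ring

/-- one step of the recursion in a row -/
theorem step_coef (a : ℕ → ℕ → ZMod q) (ha : ∀ r j, a r j ≠ 0) (D0 z : ℕ → ZMod q) (r j : ℕ)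
    (δ : ZMod q) (F : ZMod q)
    (hF : F = if r = 0 then -D0 (j + 1) + δ else
      -Del a D0 z r (j + 1) + ww a r (j + 1) * δ) :
    a (r + 1) j / a r (j + 1) * F =
      ww a (r + 1) (j + 1) * DD a D0 z r (j + 1) - ww a (r + 1) (j + 1) * δ := by
  have hw : ww a (r + 1) (j + 1) = - a (r + 1) j / bb a r (j + 1) := by
    unfold ww
    simp
  have hb := bb_ne a ha r (j + 1)
  have ha1 := ha r (j + 1)
  cases r with
  | zero =>
    rw [if_pos rfl] at hF
    rw [hF, hw]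
    simp only [bb, DD] at *
    field_simp
    ring
  | succ r =>
    rw [if_neg (Nat.succ_ne_zero r)] at hF
    rw [hF, hw, Del_eq a ha]
    have h3 := bb_ww a ha r (j + 1)
    rw [← h3]
    have hw1 := ww_ne a ha (r + 1) (j + 1)
    field_simp
    ring

/-- the rows of the net in terms of the data -/
theorem rows (n : ℕ) (a : ℕ → ℕ → ZMod q) (ha : ∀ r j, a r j ≠ 0) (D0 z : ℕ → ZMod q)
    (J ρ : ℕ) (hJ : 1 ≤ J) (f : ℕ → ℕ → ZMod q)
    (hrec : ∀ r j, r + j + 1 ≤ n → f (r + 1) (j + 1) = f (r + 1) j - a (r + 1) j / a r (j + 1) *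
      f r (j + 1)) (δ γ : ZMod q)
    (h0 : ∀ k, 1 ≤ k → k ≤ J → k ≤ n → f 0 k = -D0 k + if k = J then δ else 0)
    (h1 : ∀ r, 1 ≤ r → r ≤ ρ → f r 0 = -z r + if r = ρ then γ else 0) :
    ∀ r, 1 ≤ r → r ≤ ρ → ∀ j, j ≤ J → r + j ≤ n + 1 →
      f r j = -Del a D0 z r j + (if r = ρ then γ else 0) +
        (if j = J then ww a r J * δ else 0) := by
  intro r hr
  induction r, hr using Nat.le_induction with
  | base =>
    intro hρ j
    induction j with
    | zero =>
      intro _ _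
      rw [h1 1 le_rfl hρ, Del_zero, if_neg (show ¬ (0 = J) by omega), add_zero]
    | succ j ih =>
      intro hjJ hjn
      rw [hrec 0 j (by omega), ih (by omega) (by omega), if_neg (show ¬ (j = J) by omega), add_zero]
      have hc := step_coef a ha D0 z 0 j (if j + 1 = J then δ else 0) (f 0 (j + 1)) (by
        rw [if_pos rfl, h0 (j + 1) (by omega) hjJ (by omega)])
      rw [hc, Del_succ]
      simp only [zero_add, Nat.sub_self]
      by_cases hjJ' : j + 1 = J
      · rw [if_pos hjJ', if_pos hjJ', ← hjJ']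
        ring
      · rw [if_neg hjJ', if_neg hjJ']
        ring
  | succ r hr ihr =>
    intro hρ j
    induction j with
    | zero =>
      intro _ _
      rw [h1 (r + 1) (by omega) hρ, Del_zero, if_neg (show ¬ (0 = J) by omega), add_zero]
    | succ j ih =>
      intro hjJ hjn
      rw [hrec r j (by omega), ih (by omega) (by omega), if_neg (show ¬ (j = J) by omega), add_zero]
      have hr' := ihr (by omega) (j + 1) hjJ (by omega)
      rw [if_neg (show ¬ (r = ρ) by omega), add_zero] at hr'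
      have hc := step_coef a ha D0 z r j (if j + 1 = J then δ else 0) (f r (j + 1)) (by
        rw [if_neg (show ¬ (r = 0) by omega), hr']
        by_cases hjJ' : j + 1 = J
        · rw [if_pos hjJ', if_pos hjJ', ← hjJ']
        · rw [if_neg hjJ', if_neg hjJ', mul_zero])
      rw [hc, Del_succ]
      simp only [Nat.add_sub_cancel]
      by_cases hjJ' : j + 1 = J
      · rw [if_pos hjJ', if_pos hjJ', ← hjJ']
        ring
      · rw [if_neg hjJ', if_neg hjJ']
        ring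

/-! ### the sums `s_r(i)` -/

theorem ss_sub (n : ℕ) (a : ℕ → ℕ → ZMod q) (u v : ℕ → ZMod q) (r i : ℕ) :
    ss n a (fun k => u k - v k) r i = ss n a u r i - ss n a v r i := by
  induction r generalizing i with
  | zero => simp only [ss]; ring
  | succ r ih =>
    simp only [ss]
    rw [← Finset.sum_sub_distrib]
    apply Finset.sum_congr rfl
    intro i' _
    rw [ih]
    ring

theorem ss_rec (n : ℕ) (a : ℕ → ℕ → ZMod q) (v : ℕ → ZMod q) (r j : ℕ) (h : r + j + 1 ≤ n) :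
    ss n a v (r + 1) (n + 1 - (r + 1) - (j + 1)) = ss n a v (r + 1) (n + 1 - (r + 1) - j) -
      a (r + 1) j / a r (j + 1) * ss n a v r (n + 1 - r - (j + 1)) := by
  obtain ⟨m, hm⟩ : ∃ m, n + 1 - (r + 1) - j = m + 1 := ⟨n - r - j - 1, by omega⟩
  have e1 : n + 1 - (r + 1) - (j + 1) = m := by omega
  have e2 : n + 1 - r - (j + 1) = m + 1 := by omega
  rw [hm, e1, e2]
  have h1 : ss n a v (r + 1) (m + 1) = ss n a v (r + 1) m +
      kp n a (r + 1) (m + 1) * ss n a v r (m + 1) := by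
    simp only [ss]
    rw [Finset.sum_Icc_succ_top (by omega)]
  have h2 : kp n a (r + 1) (m + 1) = a (r + 1) j / a r (j + 1) := by
    unfold kp
    have e3 : n + 1 - (r + 1) - (m + 1) = j := by omega
    have e4 : n + 2 - (r + 1) - (m + 1) = j + 1 := by omega
    rw [e3, e4, Nat.add_sub_cancel]
  rw [h1, h2]
  ring

theorem ss_low (n : ℕ) (a : ℕ → ℕ → ZMod q) (v : ℕ → ZMod q) (i : ℕ)
    (hv : ∀ k, 1 ≤ k → k < i → v k = 0) (r i' : ℕ) (h1 : 1 ≤ i') (h2 : i' < i) :
    ss n a v r i' = 0 := by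
  induction r generalizing i' with
  | zero => simp only [ss]; rw [hv i' h1 h2, mul_zero]
  | succ r ih =>
    simp only [ss]
    apply Finset.sum_eq_zero
    intro k hk
    rw [Finset.mem_Icc] at hk
    rw [ih k hk.1 (by omega), mul_zero]

theorem ss_diag (n : ℕ) (a : ℕ → ℕ → ZMod q) (ha : ∀ r j, a r j ≠ 0) (v : ℕ → ZMod q) (i : ℕ)
    (hi : 1 ≤ i) (hv : ∀ k, 1 ≤ k → k < i → v k = 0) (r : ℕ) :
    ss n a v r i = a r (n + 1 - r - i) * v i := by
  induction r with
  | zero => simp only [ss, Nat.sub_zero]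
  | succ r ih =>
    have h1 : ss n a v (r + 1) i = kp n a (r + 1) i * ss n a v r i := by
      simp only [ss]
      apply Finset.sum_eq_single_of_mem i (Finset.mem_Icc.2 ⟨hi, le_rfl⟩)
      intro k hk hki
      rw [Finset.mem_Icc] at hk
      rw [ss_low n a v i hv r k hk.1 (by omega), mul_zero]
    rw [h1, ih]
    unfold kp
    have e : n + 2 - (r + 1) - i = n + 1 - r - i := by omega
    rw [e, Nat.add_sub_cancel]
    have := ha r (n + 1 - r - i)
    field_simp

/-! ### relations between the digits -/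

section rel

variable {n : ℕ} (a : ℕ → ℕ → ZMod q) (T : Fin 3 → ℕ → ℕ) (u : Fin n → ZMod q)

/-- difference of the digits -/
noncomputable def xx (l : Fin 3) (k : ℕ) : ZMod q := (T l k : ZMod q) - dg n a (ex u) l k

/-- the difference of the points -/
noncomputable def vv (k : ℕ) : ZMod q := (T 0 k : ZMod q) - ex u k

theorem vv_eq (k : ℕ) : vv T u k = xx a T u 0 k := by
  unfold vv xx dg
  simp

theorem f_zero (k : ℕ) (hk : k ≤ n) :
    ss n a (vv T u) 0 (n + 1 - 0 - k) = -D0T n a T k + xx a T u 2 k := by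
  have e : n + 1 - (n + 1 - k) = k := by omega
  simp only [ss, Nat.sub_zero]
  rw [e]
  unfold vv D0T xx dg
  simp
  ring

theorem f_row (r : ℕ) (_hr : 1 ≤ r) :
    ss n a (vv T u) r (n + 1 - r - 0) = -zT n a T r + xx a T u 1 r := by
  have h := ss_sub n a (fun k => (T 0 k : ZMod q)) (ex u) r (n + 1 - r)
  have e : (fun k => (T 0 k : ZMod q) - ex u k) = vv T u := rfl
  rw [e] at h
  rw [Nat.sub_zero, h]
  unfold zT xx dg
  simp

theorem plane_rel (ha : ∀ r j, a r j ≠ 0) (r j : ℕ) (hr : 1 ≤ r) (hj : 1 ≤ j) (hrj : r + j ≤ n)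
    (h0 : ∀ k, 1 ≤ k → k < n + 1 - r - j → xx a T u 0 k = 0)
    (h1 : ∀ k, 1 ≤ k → k < r → xx a T u 1 k = 0)
    (h2 : ∀ k, 1 ≤ k → k < j → xx a T u 2 k = 0) :
    xx a T u 1 r - Del a (D0T n a T) (zT n a T) r (j - 1) = a r j * xx a T u 0 (n + 1 - r - j) -
      ww a r j * (xx a T u 2 j - DD a (D0T n a T) (zT n a T) (r - 1) j) := by
  have hrow := rows n a ha (D0T n a T) (zT n a T) j r hj
    (fun r j => ss n a (vv T u) r (n + 1 - r - j)) (fun r j h => ss_rec n a (vv T u) r j h)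
    (xx a T u 2 j) (xx a T u 1 r)
    (fun k hk1 hkJ hkn => by
      rw [f_zero a T u k hkn]
      by_cases hkj : k = j
      · rw [if_pos hkj, hkj]
      · rw [if_neg hkj, h2 k hk1 (by omega)])
    (fun k hk1 hkr => by
      rw [f_row a T u k hk1]
      by_cases hkj : k = r
      · rw [if_pos hkj, hkj]
      · rw [if_neg hkj, h1 k hk1 (by omega)])
    r hr le_rfl j le_rfl (by omega)
  simp only [if_true] at hrow
  have hd := ss_diag n a ha (vv T u) (n + 1 - r - j) (by omega)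
    (fun k hk1 hk2 => by rw [vv_eq a T u]; exact h0 k hk1 hk2) r
  have e : n + 1 - r - (n + 1 - r - j) = j := by omega
  rw [e, vv_eq a T u] at hd
  rw [hd] at hrow
  obtain ⟨j0, rfl⟩ : ∃ j0, j = j0 + 1 := ⟨j - 1, by omega⟩
  rw [Del_succ] at hrow
  rw [Nat.add_sub_cancel]
  linear_combination (-1 : ZMod q) * hrow

theorem line_rel (ha : ∀ r j, a r j ≠ 0) (r j : ℕ) (hr : 1 ≤ r) (hrj : r + j ≤ n)
    (h0 : ∀ k, 1 ≤ k → k < n + 1 - r - j → xx a T u 0 k = 0)
    (h1 : ∀ k, 1 ≤ k → k < r → xx a T u 1 k = 0)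
    (h2 : ∀ k, 1 ≤ k → k < j + 1 → xx a T u 2 k = 0) :
    xx a T u 1 r = Del a (D0T n a T) (zT n a T) r j + a r j * xx a T u 0 (n + 1 - r - j) ∧
    xx a T u 2 (j + 1) = DD a (D0T n a T) (zT n a T) (r - 1) (j + 1) +
      bb a (r - 1) (j + 1) * xx a T u 0 (n + 1 - r - j) := by
  have hrow := rows n a ha (D0T n a T) (zT n a T) (j + 1) r (by omega)
    (fun r j => ss n a (vv T u) r (n + 1 - r - j)) (fun r j h => ss_rec n a (vv T u) r j h)
    (xx a T u 2 (j + 1)) (xx a T u 1 r)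
    (fun k hk1 hkJ hkn => by
      rw [f_zero a T u k hkn]
      by_cases hkj : k = j + 1
      · rw [if_pos hkj, hkj]
      · rw [if_neg hkj, h2 k hk1 (by omega)])
    (fun k hk1 hkr => by
      rw [f_row a T u k hk1]
      by_cases hkj : k = r
      · rw [if_pos hkj, hkj]
      · rw [if_neg hkj, h1 k hk1 (by omega)])
  have hv : ∀ k, 1 ≤ k → k < n + 1 - r - j → vv T u k = 0 := fun k hk1 hk2 => by
    rw [vv_eq a T u]; exact h0 k hk1 hk2
  constructor
  · have h3 := hrow r hr le_rfl j (by omega) (by omega)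
    rw [if_pos rfl, if_neg (show ¬ (j = j + 1) by omega)] at h3
    have hd := ss_diag n a ha (vv T u) (n + 1 - r - j) (by omega) hv r
    have e : n + 1 - r - (n + 1 - r - j) = j := by omega
    rw [e, vv_eq a T u] at hd
    rw [hd] at h3
    linear_combination (-1 : ZMod q) * h3
  · obtain ⟨r0, rfl⟩ : ∃ r0, r = r0 + 1 := ⟨r - 1, by omega⟩
    rw [Nat.add_sub_cancel]
    have hd := ss_diag n a ha (vv T u) (n + 1 - (r0 + 1) - j) (by omega) hv r0
    have e : n + 1 - r0 - (n + 1 - (r0 + 1) - j) = j + 1 := by omega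
    rw [e, vv_eq a T u] at hd
    have e2 : n + 1 - (r0 + 1) - j = n + 1 - r0 - (j + 1) := by omega
    rcases Nat.eq_zero_or_pos r0 with hz | hpos
    · subst hz
      have h4 := f_zero a T u (j + 1) (by omega)
      rw [← e2, hd] at h4
      simp only [DD, bb]
      linear_combination (-1 : ZMod q) * h4
    · have h3 := hrow r0 hpos (by omega) (j + 1) le_rfl (by omega)
      rw [if_neg (show ¬ (r0 = r0 + 1) by omega), if_pos rfl] at h3
      rw [← e2, hd] at h3
      obtain ⟨r1, rfl⟩ : ∃ r1, r0 = r1 + 1 := ⟨r0 - 1, by omega⟩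
      rw [Del_eq a ha, ← bb_ww a ha] at h3
      have hw := ww_ne a ha (r1 + 1) (j + 1)
      apply mul_left_cancel₀ hw
      linear_combination (-1 : ZMod q) * h3

end rel

/-! ### counting -/

theorem val_sub (t e : ℕ) (ht : t < q) (he : e ≤ t) :
    ((t : ZMod q) - (e : ZMod q)).val = t - e := by
  rw [← Nat.cast_sub he]
  exact ZMod.val_natCast_of_lt (by omega)

theorem count (n : ℕ) (a : ℕ → ℕ → ZMod q) (T : Fin 3 → ℕ → ℕ) (hT : ∀ l k, T l k < q)
    (k : Fin 3 → ℕ) (Q : ZMod q → ZMod q → ZMod q → Prop) (P : ℕ × ℕ × ℕ → Prop)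
    [DecidablePred P] (hP : ∀ e, P e ↔ Q e.1 e.2.1 e.2.2)
    (hQ1 : ∀ u : Fin n → ZMod q, (∀ l, ∀ k' ∈ Icc 1 (k l - 1), dg n a (ex u) l k' = T l k') →
      Q (xx a T u 0 (k 0)) (xx a T u 1 (k 1)) (xx a T u 2 (k 2)))
    (hQ2 : ∀ x0 x1 x2 : ZMod q, Q x0 x1 x2 → ∃! u : Fin n → ZMod q,
      (∀ l, ∀ k' ∈ Icc 1 (k l - 1), dg n a (ex u) l k' = T l k') ∧
      xx a T u 0 (k 0) = x0 ∧ xx a T u 1 (k 1) = x1 ∧ xx a T u 2 (k 2) = x2) :
    cnt n a T k = ((Icc 1 (T 0 (k 0)) ×ˢ Icc 1 (T 1 (k 1)) ×ˢ Icc 1 (T 2 (k 2))).filter P).card := by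
  classical
  unfold cnt
  have hcast : ∀ (l : Fin 3) (u : Fin n → ZMod q), (dg n a (ex u) l (k l)).val < T l (k l) →
      ((T l (k l) - (dg n a (ex u) l (k l)).val : ℕ) : ZMod q) = xx a T u l (k l) := by
    intro l u h
    rw [Nat.cast_sub h.le, ZMod.natCast_zmod_val]
    rfl
  apply Finset.card_bij (fun u _ => (T 0 (k 0) - (dg n a (ex u) 0 (k 0)).val,
    T 1 (k 1) - (dg n a (ex u) 1 (k 1)).val, T 2 (k 2) - (dg n a (ex u) 2 (k 2)).val))
  · intro u hu
    rw [mem_filter] at hu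
    have hl := hu.2
    rw [mem_filter, mem_product, mem_product, mem_Icc, mem_Icc, mem_Icc, hP]
    have g0 := (hl 0).2
    have g1 := (hl 1).2
    have g2 := (hl 2).2
    refine ⟨⟨⟨by simp only; omega, by simp only; omega⟩, ⟨by simp only; omega, by simp only; omega⟩,
      ⟨by simp only; omega, by simp only; omega⟩⟩, ?_⟩
    simp only
    rw [hcast 0 u g0, hcast 1 u g1, hcast 2 u g2]
    exact hQ1 u fun l => (hl l).1
  · intro u hu u' hu' he
    rw [mem_filter] at hu hu'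
    have hl := hu.2
    have hl' := hu'.2
    simp only [Prod.mk.injEq] at he
    obtain ⟨e0, e1, e2⟩ := he
    have x0 : xx a T u' 0 (k 0) = xx a T u 0 (k 0) := by
      rw [← hcast 0 u (hl 0).2, ← hcast 0 u' (hl' 0).2, e0]
    have x1 : xx a T u' 1 (k 1) = xx a T u 1 (k 1) := by
      rw [← hcast 1 u (hl 1).2, ← hcast 1 u' (hl' 1).2, e1]
    have x2 : xx a T u' 2 (k 2) = xx a T u 2 (k 2) := by
      rw [← hcast 2 u (hl 2).2, ← hcast 2 u' (hl' 2).2, e2]
    obtain ⟨w, _, hw⟩ := hQ2 _ _ _ (hQ1 u fun l => (hl l).1)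
    rw [hw u ⟨fun l => (hl l).1, rfl, rfl, rfl⟩, hw u' ⟨fun l => (hl' l).1, x0, x1, x2⟩]
  · rintro ⟨e0, e1, e2⟩ he
    rw [mem_filter, mem_product, mem_product, mem_Icc, mem_Icc, mem_Icc, hP] at he
    simp only at he
    obtain ⟨⟨he0, he1, he2⟩, hQ⟩ := he
    obtain ⟨u, ⟨hu, x0, x1, x2⟩, _⟩ := hQ2 _ _ _ hQ
    have d0 : (dg n a (ex u) 0 (k 0)).val = T 0 (k 0) - e0 := by
      rw [← val_sub (q := q) _ _ (hT 0 (k 0)) he0.2, ← x0]
      unfold xx
      rw [sub_sub_cancel]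
    have d1 : (dg n a (ex u) 1 (k 1)).val = T 1 (k 1) - e1 := by
      rw [← val_sub (q := q) _ _ (hT 1 (k 1)) he1.2, ← x1]
      unfold xx
      rw [sub_sub_cancel]
    have d2 : (dg n a (ex u) 2 (k 2)).val = T 2 (k 2) - e2 := by
      rw [← val_sub (q := q) _ _ (hT 2 (k 2)) he2.2, ← x2]
      unfold xx
      rw [sub_sub_cancel]
    refine ⟨u, ?_, ?_⟩
    · rw [mem_filter]
      refine ⟨mem_univ _, fun l => ⟨hu l, ?_⟩⟩
      fin_cases l
      · change (dg n a (ex u) 0 (k 0)).val < T 0 (k 0)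
        omega
      · change (dg n a (ex u) 1 (k 1)).val < T 1 (k 1)
        omega
      · change (dg n a (ex u) 2 (k 2)).val < T 2 (k 2)
        omega
    · simp only [Prod.mk.injEq]
      rw [d0, d1, d2]
      omega

theorem xx_eq_zero {n : ℕ} (a : ℕ → ℕ → ZMod q) (T : Fin 3 → ℕ → ℕ) (u : Fin n → ZMod q)
    (l : Fin 3) (k : ℕ) (h : dg n a (ex u) l k = T l k) : xx a T u l k = 0 := by
  unfold xx
  rw [h, sub_self]

theorem xx_iff {n : ℕ} (a : ℕ → ℕ → ZMod q) (T : Fin 3 → ℕ → ℕ) (u : Fin n → ZMod q)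
    (l : Fin 3) (k : ℕ) (x : ZMod q) : xx a T u l k = x ↔ dg n a (ex u) l k = T l k - x := by
  unfold xx
  constructor
  · intro h; rw [← h]; ring
  · intro h; rw [h]; ring

theorem plane_card (hnet : NetU q) (n : ℕ) (a : ℕ → ℕ → ZMod q) (ha : ∀ r j, a r j ≠ 0)
    (T : Fin 3 → ℕ → ℕ) (hT : ∀ l k, T l k < q) (r j : ℕ) (hr : 1 ≤ r) (hj : 1 ≤ j)
    (hrj : r + j ≤ n) (P : ℕ × ℕ × ℕ → Prop) [DecidablePred P]
    (hP : ∀ e : ℕ × ℕ × ℕ, P e ↔ (e.2.1 : ZMod q) - Del a (D0T n a T) (zT n a T) r (j - 1) =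
      a r j * (e.1 : ZMod q) -
        ww a r j * ((e.2.2 : ZMod q) - DD a (D0T n a T) (zT n a T) (r - 1) j)) :
    cnt n a T ![n + 1 - r - j, r, j] = ((Icc 1 (T 0 (n + 1 - r - j)) ×ˢ Icc 1 (T 1 r) ×ˢ
      Icc 1 (T 2 j)).filter P).card := by
  have hrel : ∀ u : Fin n → ZMod q, (∀ l, ∀ k' ∈ Icc 1 ((![n + 1 - r - j, r, j] : Fin 3 → ℕ) l - 1),
      dg n a (ex u) l k' = T l k') →
      xx a T u 1 r - Del a (D0T n a T) (zT n a T) r (j - 1) = a r j * xx a T u 0 (n + 1 - r - j) -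
      ww a r j * (xx a T u 2 j - DD a (D0T n a T) (zT n a T) (r - 1) j) := by
    intro u hu
    apply plane_rel a T u ha r j hr hj hrj
    · intro k hk1 hk2
      apply xx_eq_zero
      apply hu 0 k
      rw [mem_Icc]
      simp only [Matrix.cons_val_zero]
      omega
    · intro k hk1 hk2
      apply xx_eq_zero
      apply hu 1 k
      rw [mem_Icc]
      simp only [Matrix.cons_val_one, Matrix.cons_val_zero]
      omega
    · intro k hk1 hk2
      apply xx_eq_zero
      apply hu 2 k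
      rw [mem_Icc]
      simp only [Matrix.cons_val]
      omega
  apply count n a T hT ![n + 1 - r - j, r, j]
    (fun x0 x1 x2 => x1 - Del a (D0T n a T) (zT n a T) r (j - 1) =
      a r j * x0 - ww a r j * (x2 - DD a (D0T n a T) (zT n a T) (r - 1) j)) P hP
  · intro u hu
    exact hrel u hu
  · intro x0 x1 x2 hx
    obtain ⟨u, hu, huniq⟩ := hnet n a ha ![n + 1 - r - j, r - 1, j] (by
      simp only [Matrix.cons_val_zero, Matrix.cons_val_one, Matrix.cons_val]
      omega)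
      ![fun k => if k = n + 1 - r - j then (T 0 k : ZMod q) - x0 else T 0 k,
        fun k => T 1 k, fun k => if k = j then (T 2 k : ZMod q) - x2 else T 2 k]
    have hu0 : ∀ k, 1 ≤ k → k ≤ n + 1 - r - j → dg n a (ex u) 0 k =
        if k = n + 1 - r - j then (T 0 k : ZMod q) - x0 else T 0 k := by
      intro k h1 h2
      have := hu 0 k (by rw [mem_Icc]; simp only [Matrix.cons_val_zero]; omega)
      simpa only [Matrix.cons_val_zero] using this
    have hu1 : ∀ k, 1 ≤ k → k ≤ r - 1 → dg n a (ex u) 1 k = T 1 k := by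
      intro k h1 h2
      have := hu 1 k (by rw [mem_Icc]; simp only [Matrix.cons_val_one, Matrix.cons_val_zero]; omega)
      simpa only [Matrix.cons_val_one, Matrix.cons_val_zero] using this
    have hu2 : ∀ k, 1 ≤ k → k ≤ j → dg n a (ex u) 2 k =
        if k = j then (T 2 k : ZMod q) - x2 else T 2 k := by
      intro k h1 h2
      have := hu 2 k (by rw [mem_Icc]; simp only [Matrix.cons_val]; omega)
      simpa only [Matrix.cons_val] using this
    have hagree : ∀ l, ∀ k' ∈ Icc 1 ((![n + 1 - r - j, r, j] : Fin 3 → ℕ) l - 1),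
        dg n a (ex u) l k' = T l k' := by
      intro l k' hk'
      rw [mem_Icc] at hk'
      fin_cases l
      · simp only [Fin.zero_eta, Matrix.cons_val_zero] at hk' ⊢
        rw [hu0 k' hk'.1 (by omega), if_neg (by omega)]
      · simp only [Fin.mk_one, Matrix.cons_val_one, Matrix.cons_val_zero] at hk' ⊢
        exact hu1 k' hk'.1 hk'.2
      · simp only [Fin.reduceFinMk, Matrix.cons_val] at hk' ⊢
        rw [hu2 k' hk'.1 (by omega), if_neg (by omega)]
    have hx0 : xx a T u 0 (n + 1 - r - j) = x0 := by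
      rw [xx_iff, hu0 _ (by omega) le_rfl, if_pos rfl]
    have hx2 : xx a T u 2 j = x2 := by
      rw [xx_iff, hu2 _ hj le_rfl, if_pos rfl]
    have hx1 : xx a T u 1 r = x1 := by
      have := hrel u hagree
      rw [hx0, hx2, ← hx] at this
      exact sub_left_injective this
    refine ⟨u, ⟨hagree, hx0, hx1, hx2⟩, ?_⟩
    rintro u' ⟨hag', hx0', _, hx2'⟩
    apply huniq u'
    intro l k hk
    rw [mem_Icc] at hk
    fin_cases l
    · simp only [Fin.zero_eta, Matrix.cons_val_zero] at hk ⊢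
      by_cases hkk : k = n + 1 - r - j
      · subst hkk
        rw [if_pos rfl]
        exact (xx_iff a T u' 0 _ _).1 hx0'
      · rw [if_neg hkk]
        apply hag' 0 k
        rw [mem_Icc]
        simp only [Matrix.cons_val_zero]
        omega
    · simp only [Fin.mk_one, Matrix.cons_val_one, Matrix.cons_val_zero] at hk ⊢
      apply hag' 1 k
      rw [mem_Icc]
      simp only [Matrix.cons_val_one, Matrix.cons_val_zero]
      omega
    · simp only [Fin.reduceFinMk, Matrix.cons_val] at hk ⊢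
      by_cases hkk : k = j
      · subst hkk
        rw [if_pos rfl]
        exact (xx_iff a T u' 2 _ _).1 hx2'
      · rw [if_neg hkk]
        apply hag' 2 k
        rw [mem_Icc]
        simp only [Matrix.cons_val]
        omega

theorem line_card (hnet : NetU q) (n : ℕ) (a : ℕ → ℕ → ZMod q) (ha : ∀ r j, a r j ≠ 0)
    (T : Fin 3 → ℕ → ℕ) (hT : ∀ l k, T l k < q) (r j : ℕ) (hr : 1 ≤ r)
    (hrj : r + j ≤ n) (P : ℕ × ℕ × ℕ → Prop) [DecidablePred P]
    (hP : ∀ e : ℕ × ℕ × ℕ, P e ↔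
      (e.2.1 : ZMod q) = Del a (D0T n a T) (zT n a T) r j + a r j * (e.1 : ZMod q) ∧
      (e.2.2 : ZMod q) = DD a (D0T n a T) (zT n a T) (r - 1) (j + 1) +
        bb a (r - 1) (j + 1) * (e.1 : ZMod q)) :
    cnt n a T ![n + 1 - r - j, r, j + 1] = ((Icc 1 (T 0 (n + 1 - r - j)) ×ˢ Icc 1 (T 1 r) ×ˢ
      Icc 1 (T 2 (j + 1))).filter P).card := by
  have hrel : ∀ u : Fin n → ZMod q,
      (∀ l, ∀ k' ∈ Icc 1 ((![n + 1 - r - j, r, j + 1] : Fin 3 → ℕ) l - 1),
      dg n a (ex u) l k' = T l k') →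
      xx a T u 1 r = Del a (D0T n a T) (zT n a T) r j + a r j * xx a T u 0 (n + 1 - r - j) ∧
      xx a T u 2 (j + 1) = DD a (D0T n a T) (zT n a T) (r - 1) (j + 1) +
        bb a (r - 1) (j + 1) * xx a T u 0 (n + 1 - r - j) := by
    intro u hu
    apply line_rel a T u ha r j hr hrj
    · intro k hk1 hk2
      apply xx_eq_zero
      apply hu 0 k
      rw [mem_Icc]
      simp only [Matrix.cons_val_zero]
      omega
    · intro k hk1 hk2
      apply xx_eq_zero
      apply hu 1 k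
      rw [mem_Icc]
      simp only [Matrix.cons_val_one, Matrix.cons_val_zero]
      omega
    · intro k hk1 hk2
      apply xx_eq_zero
      apply hu 2 k
      rw [mem_Icc]
      simp only [Matrix.cons_val]
      omega
  apply count n a T hT ![n + 1 - r - j, r, j + 1]
    (fun x0 x1 x2 => x1 = Del a (D0T n a T) (zT n a T) r j + a r j * x0 ∧
      x2 = DD a (D0T n a T) (zT n a T) (r - 1) (j + 1) + bb a (r - 1) (j + 1) * x0) P hP
  · intro u hu
    exact hrel u hu
  · intro x0 x1 x2 hx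
    obtain ⟨u, hu, huniq⟩ := hnet n a ha ![n + 1 - r - j, r - 1, j] (by
      simp only [Matrix.cons_val_zero, Matrix.cons_val_one, Matrix.cons_val]
      omega)
      ![fun k => if k = n + 1 - r - j then (T 0 k : ZMod q) - x0 else T 0 k,
        fun k => T 1 k, fun k => T 2 k]
    have hu0 : ∀ k, 1 ≤ k → k ≤ n + 1 - r - j → dg n a (ex u) 0 k =
        if k = n + 1 - r - j then (T 0 k : ZMod q) - x0 else T 0 k := by
      intro k h1 h2
      have := hu 0 k (by rw [mem_Icc]; simp only [Matrix.cons_val_zero]; omega)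
      simpa only [Matrix.cons_val_zero] using this
    have hu1 : ∀ k, 1 ≤ k → k ≤ r - 1 → dg n a (ex u) 1 k = T 1 k := by
      intro k h1 h2
      have := hu 1 k (by rw [mem_Icc]; simp only [Matrix.cons_val_one, Matrix.cons_val_zero]; omega)
      simpa only [Matrix.cons_val_one, Matrix.cons_val_zero] using this
    have hu2 : ∀ k, 1 ≤ k → k ≤ j → dg n a (ex u) 2 k = T 2 k := by
      intro k h1 h2
      have := hu 2 k (by rw [mem_Icc]; simp only [Matrix.cons_val]; omega)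
      simpa only [Matrix.cons_val] using this
    have hagree : ∀ l, ∀ k' ∈ Icc 1 ((![n + 1 - r - j, r, j + 1] : Fin 3 → ℕ) l - 1),
        dg n a (ex u) l k' = T l k' := by
      intro l k' hk'
      rw [mem_Icc] at hk'
      fin_cases l
      · simp only [Fin.zero_eta, Matrix.cons_val_zero] at hk' ⊢
        rw [hu0 k' hk'.1 (by omega), if_neg (by omega)]
      · simp only [Fin.mk_one, Matrix.cons_val_one, Matrix.cons_val_zero] at hk' ⊢
        exact hu1 k' hk'.1 hk'.2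
      · simp only [Fin.reduceFinMk, Matrix.cons_val] at hk' ⊢
        exact hu2 k' hk'.1 (by omega)
    have hx0 : xx a T u 0 (n + 1 - r - j) = x0 := by
      rw [xx_iff, hu0 _ (by omega) le_rfl, if_pos rfl]
    have hx12 := hrel u hagree
    rw [hx0, ← hx.1, ← hx.2] at hx12
    refine ⟨u, ⟨hagree, hx0, hx12.1, hx12.2⟩, ?_⟩
    rintro u' ⟨hag', hx0', _, _⟩
    apply huniq u'
    intro l k hk
    rw [mem_Icc] at hk
    fin_cases l
    · simp only [Fin.zero_eta, Matrix.cons_val_zero] at hk ⊢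
      by_cases hkk : k = n + 1 - r - j
      · subst hkk
        rw [if_pos rfl]
        exact (xx_iff a T u' 0 _ _).1 hx0'
      · rw [if_neg hkk]
        apply hag' 0 k
        rw [mem_Icc]
        simp only [Matrix.cons_val_zero]
        omega
    · simp only [Fin.mk_one, Matrix.cons_val_one, Matrix.cons_val_zero] at hk ⊢
      apply hag' 1 k
      rw [mem_Icc]
      simp only [Matrix.cons_val_one, Matrix.cons_val_zero]
      omega
    · simp only [Fin.reduceFinMk, Matrix.cons_val] at hk ⊢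
      apply hag' 2 k
      rw [mem_Icc]
      simp only [Matrix.cons_val]
      omega

end KB

variable {q : ℕ} [Fact q.Prime]

theorem plane_cnt_of (hnet : KB.NetU q) (n : ℕ) (a : ℕ → ℕ → ZMod q) (ha : ∀ r j, a r j ≠ 0)
    (T : Fin 3 → ℕ → ℕ) (hT : ∀ l k, T l k < q) (r j : ℕ) (hr : 1 ≤ r) (hj : 1 ≤ j)
    (hrj : r + j ≤ n) :
    (cnt n a T ![n + 1 - r - j, r, j] : ℝ) - (T 0 (n + 1 - r - j) : ℝ) * T 1 r * T 2 j / q =
      Xp (Del a (D0T n a T) (zT n a T) r (j - 1)) (DD a (D0T n a T) (zT n a T) (r - 1) j) (a r j)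
        (ww a r j) (T 0 (n + 1 - r - j)) (T 1 r) (T 2 j) := by
  classical
  unfold Xp
  rw [KB.plane_card hnet n a ha T hT r j hr hj hrj _ (fun e => Iff.rfl)]

theorem line_cnt_of (hnet : KB.NetU q) (n : ℕ) (a : ℕ → ℕ → ZMod q) (ha : ∀ r j, a r j ≠ 0)
    (T : Fin 3 → ℕ → ℕ) (hT : ∀ l k, T l k < q) (r j : ℕ) (hr : 1 ≤ r) (hrj : r + j ≤ n) :
    (cnt n a T ![n + 1 - r - j, r, j + 1] : ℝ) -
        (T 0 (n + 1 - r - j) : ℝ) * T 1 r * T 2 (j + 1) / (q:ℝ) ^ 2 =
      Xl (Del a (D0T n a T) (zT n a T) r j) (DD a (D0T n a T) (zT n a T) (r - 1) (j + 1)) (a r j)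
        (bb a (r - 1) (j + 1)) (T 0 (n + 1 - r - j)) (T 1 r) (T 2 (j + 1)) := by
  classical
  unfold Xl
  rw [KB.line_card hnet n a ha T hT r j hr hrj _ (fun e => Iff.rfl)]

/-- KB. Plane cells. -/
theorem plane_cnt (n : ℕ) (a : ℕ → ℕ → ZMod q) (ha : ∀ r j, a r j ≠ 0) (T : Fin 3 → ℕ → ℕ)
    (hT : ∀ l k, T l k < q) (r j : ℕ) (hr : 1 ≤ r) (hj : 1 ≤ j) (hrj : r + j ≤ n) :
    (cnt n a T ![n + 1 - r - j, r, j] : ℝ) - (T 0 (n + 1 - r - j) : ℝ) * T 1 r * T 2 j / q =
      Xp (Del a (D0T n a T) (zT n a T) r (j - 1)) (DD a (D0T n a T) (zT n a T) (r - 1) j) (a r j)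
        (ww a r j) (T 0 (n + 1 - r - j)) (T 1 r) (T 2 j) :=
  plane_cnt_of (fun n a ha m hm p => net_unique n a ha m hm p) n a ha T hT r j hr hj hrj

/-- KB. Line cells. -/
theorem line_cnt (n : ℕ) (a : ℕ → ℕ → ZMod q) (ha : ∀ r j, a r j ≠ 0) (T : Fin 3 → ℕ → ℕ)
    (hT : ∀ l k, T l k < q) (r j : ℕ) (hr : 1 ≤ r) (hrj : r + j ≤ n) :
    (cnt n a T ![n + 1 - r - j, r, j + 1] : ℝ) - (T 0 (n + 1 - r - j) : ℝ) * T 1 r * T 2 (j + 1) / (q:ℝ) ^ 2 =
      Xl (Del a (D0T n a T) (zT n a T) r j) (DD a (D0T n a T) (zT n a T) (r - 1) (j + 1)) (a r j)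
        (bb a (r - 1) (j + 1)) (T 0 (n + 1 - r - j)) (T 1 r) (T 2 (j + 1)) :=
  line_cnt_of (fun n a ha m hm p => net_unique n a ha m hm p) n a ha T hT r j hr hrj

end Pool.Agent.H935R2.PS
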