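import Pool.Agent.H935R2.PS.KC

set_option autoImplicit false

/-!
# The net: decomposition of the counting function into cells, real boxes
-/

namespace Pool.Agent.H935R2.PS

open Finset

namespace KD

/-- The number with the digits `d 1, …, d n`. -/
def SS (q : ℕ) (d : ℕ → ℕ) : ℕ → ℕ
  | 0 => 0
  | n+1 => q * SS q d n + d (n+1)

variable {q : ℕ}

theorem SS_lt (d : ℕ → ℕ) (n : ℕ) (hd : ∀ k, d k < q) : SS q d n < q ^ n := by
  induction n with
  | zero => simp [SS]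
  | succ n ih =>
    have h1 : q * (SS q d n + 1) ≤ q * q ^ n := Nat.mul_le_mul_left _ ih
    have h2 := hd (n + 1)
    have h3 : q ^ (n + 1) = q * q ^ n := by ring
    rw [SS, h3]
    have h4 : q * (SS q d n + 1) = q * SS q d n + q := by ring
    omega

theorem SS_congr (d d' : ℕ → ℕ) (n : ℕ) (h : ∀ k ∈ Icc 1 n, d k = d' k) :
    SS q d n = SS q d' n := by
  induction n with
  | zero => rfl
  | succ n ih =>
    rw [SS, SS, ih (fun k hk => h k (by rw [mem_Icc] at hk ⊢; omega)),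
      h (n + 1) (by rw [mem_Icc]; omega)]

theorem SS_exists (hq : 0 < q) (n : ℕ) : ∀ M < q ^ n, ∃ T : ℕ → ℕ, (∀ k, T k < q) ∧
    SS q T n = M := by
  induction n with
  | zero =>
    intro M hM
    exact ⟨fun _ => 0, fun _ => hq, by simp at hM; simp [SS, hM]⟩
  | succ n ih =>
    intro M hM
    obtain ⟨T, hT, hS⟩ := ih (M / q) (by
      rw [Nat.div_lt_iff_lt_mul hq, ← pow_succ]; exact hM)
    refine ⟨Function.update T (n + 1) (M % q), fun k => ?_, ?_⟩
    · rw [Function.update_apply]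
      split_ifs
      · exact Nat.mod_lt _ hq
      · exact hT k
    · rw [SS, Function.update_self, SS_congr _ T n (fun k hk => ?_), hS]
      · exact Nat.div_add_mod M q
      · rw [Function.update_of_ne]
        rw [mem_Icc] at hk
        omega

theorem lt_step {A B x y : ℕ} (hx : x < q) (hy : y < q) :
    q * A + x < q * B + y ↔ A < B ∨ (A = B ∧ x < y) := by
  constructor
  · intro h
    by_cases hAB : A < B
    · exact Or.inl hAB
    · right
      have hBA : B ≤ A := Nat.le_of_not_lt hAB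
      rcases hBA.lt_or_eq with hlt | heq
      · exfalso
        have : q * (B + 1) ≤ q * A := Nat.mul_le_mul_left _ hlt
        have h2 : q * (B + 1) = q * B + q := by ring
        omega
      · subst heq
        exact ⟨rfl, by omega⟩
  · rintro (h | ⟨rfl, h⟩)
    · have : q * (A + 1) ≤ q * B := Nat.mul_le_mul_left _ h
      have h2 : q * (A + 1) = q * A + q := by ring
      omega
    · omega

theorem eq_step {A B x y : ℕ} (hx : x < q) (hy : y < q) :
    q * A + x = q * B + y ↔ A = B ∧ x = y := by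
  constructor
  · intro h
    have h1 := (lt_step (A := A) (B := B) hx hy).not.1 (by omega)
    have h2 := (lt_step (A := B) (B := A) hy hx).not.1 (by omega)
    push Not at h1 h2
    have : A = B := by omega
    subst this
    exact ⟨rfl, by omega⟩
  · rintro ⟨rfl, rfl⟩
    rfl

theorem SS_eq_iff (d T : ℕ → ℕ) (n : ℕ) (hd : ∀ k, d k < q) (hT : ∀ k, T k < q) :
    SS q d n = SS q T n ↔ ∀ k ∈ Icc 1 n, d k = T k := by
  refine ⟨fun h => ?_, fun h => SS_congr d T n h⟩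
  induction n with
  | zero => intro k hk; rw [mem_Icc] at hk; omega
  | succ n ih =>
    rw [SS, SS, eq_step (hd _) (hT _)] at h
    intro k hk
    rw [mem_Icc] at hk
    rcases Nat.lt_or_ge k (n + 1) with h1 | h1
    · exact ih h.1 k (by rw [mem_Icc]; omega)
    · have : k = n + 1 := by omega
      rw [this]
      exact h.2

theorem SS_lt_iff (d T : ℕ → ℕ) (n : ℕ) (hd : ∀ k, d k < q) (hT : ∀ k, T k < q) :
    SS q d n < SS q T n ↔ ∃ k ∈ Icc 1 n, (∀ k' ∈ Icc 1 (k - 1), d k' = T k') ∧ d k < T k := by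
  induction n with
  | zero => simp [SS]
  | succ n ih =>
    rw [SS, SS, lt_step (hd _) (hT _), ih, SS_eq_iff d T n hd hT]
    constructor
    · rintro (⟨k, hk, h⟩ | ⟨h1, h2⟩)
      · exact ⟨k, by rw [mem_Icc] at hk ⊢; omega, h⟩
      · exact ⟨n + 1, by rw [mem_Icc]; omega, h1, h2⟩
    · rintro ⟨k, hk, h⟩
      rw [mem_Icc] at hk
      rcases Nat.lt_or_ge k (n + 1) with h1 | h1
      · exact Or.inl ⟨k, by rw [mem_Icc]; omega, h⟩
      · have : k = n + 1 := by omega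
        subst this
        exact Or.inr h

theorem SS_real (hq : 0 < q) (d : ℕ → ℕ) (n : ℕ) :
    (SS q d n : ℝ) / (q : ℝ) ^ n = ∑ k ∈ Icc 1 n, (d k : ℝ) / (q : ℝ) ^ k := by
  have hq' : (q : ℝ) ≠ 0 := by exact_mod_cast hq.ne'
  induction n with
  | zero => simp [SS]
  | succ n ih =>
    rw [Finset.sum_Icc_succ_top (by omega), ← ih, SS]
    push_cast
    field_simp
    ring

/-- the points of the cube -/
def cube (n : ℕ) : Finset (ℕ × ℕ × ℕ) := Icc 1 n ×ˢ Icc 1 n ×ˢ Icc 1 n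

theorem mem_cube {n : ℕ} {k : ℕ × ℕ × ℕ} : k ∈ cube n ↔
    (1 ≤ k.1 ∧ k.1 ≤ n) ∧ (1 ≤ k.2.1 ∧ k.2.1 ≤ n) ∧ (1 ≤ k.2.2 ∧ k.2.2 ≤ n) := by
  simp only [cube, mem_product, mem_Icc]

theorem sum_one (n : ℕ) (f : ℕ → ℕ → ℕ → ℝ) :
    ∑ k ∈ (cube n).filter (fun k => k.1 + k.2.1 + k.2.2 = n + 1), f k.1 k.2.1 k.2.2 =
      ∑ r ∈ Icc 1 n, ∑ j ∈ Icc 1 (n - r), f (n + 1 - r - j) r j := by
  rw [Finset.sum_sigma']
  refine Finset.sum_bij' (fun k _ => ⟨k.2.1, k.2.2⟩) (fun x _ => (n + 1 - x.1 - x.2, x.1, x.2))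
    ?_ ?_ ?_ ?_ ?_
  · rintro ⟨k1, k2, k3⟩ hk
    simp only [mem_filter, mem_cube] at hk
    simp only [mem_sigma, mem_Icc]
    omega
  · rintro ⟨r, j⟩ hx
    simp only [mem_sigma, mem_Icc] at hx
    simp only [mem_filter, mem_cube]
    omega
  · rintro ⟨k1, k2, k3⟩ hk
    simp only [mem_filter, mem_cube] at hk
    simp only [Prod.mk.injEq, and_true]
    omega
  · rintro ⟨r, j⟩ _
    rfl
  · rintro ⟨k1, k2, k3⟩ hk
    simp only [mem_filter, mem_cube] at hk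
    have : k1 = n + 1 - k2 - k3 := by omega
    simp only [← this]

theorem sum_two (n : ℕ) (f : ℕ → ℕ → ℕ → ℝ) :
    ∑ k ∈ (cube n).filter (fun k => k.1 + k.2.1 + k.2.2 = n + 2), f k.1 k.2.1 k.2.2 =
      ∑ r ∈ Icc 1 n, ∑ j ∈ range (n - r + 1), f (n + 1 - r - j) r (j + 1) := by
  rw [Finset.sum_sigma']
  refine Finset.sum_bij' (fun k _ => ⟨k.2.1, k.2.2 - 1⟩)
    (fun x _ => (n + 1 - x.1 - x.2, x.1, x.2 + 1)) ?_ ?_ ?_ ?_ ?_
  · rintro ⟨k1, k2, k3⟩ hk
    simp only [mem_filter, mem_cube] at hk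
    simp only [mem_sigma, mem_Icc, mem_range]
    omega
  · rintro ⟨r, j⟩ hx
    simp only [mem_sigma, mem_Icc, mem_range] at hx
    simp only [mem_filter, mem_cube]
    omega
  · rintro ⟨k1, k2, k3⟩ hk
    simp only [mem_filter, mem_cube] at hk
    simp only [Prod.mk.injEq, true_and]
    omega
  · rintro ⟨r, j⟩ _
    simp
  · rintro ⟨k1, k2, k3⟩ hk
    simp only [mem_filter, mem_cube] at hk
    have h1 : n + 1 - k2 - (k3 - 1) = k1 := by omega
    have h2 : k3 - 1 + 1 = k3 := by omega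
    simp only [h1, h2]

theorem sum_split (n : ℕ) (f : ℕ → ℕ → ℕ → ℝ) :
    ∑ k ∈ cube n, f k.1 k.2.1 k.2.2 =
      ∑ k ∈ (cube n).filter (fun k => k.1 + k.2.1 + k.2.2 ≤ n), f k.1 k.2.1 k.2.2 +
      (∑ k ∈ (cube n).filter (fun k => k.1 + k.2.1 + k.2.2 = n + 1), f k.1 k.2.1 k.2.2 +
      ∑ k ∈ (cube n).filter (fun k => k.1 + k.2.1 + k.2.2 = n + 2), f k.1 k.2.1 k.2.2) +
      ∑ k ∈ (cube n).filter (fun k => n + 3 ≤ k.1 + k.2.1 + k.2.2), f k.1 k.2.1 k.2.2 := by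
  simp only [Finset.sum_filter]
  rw [← Finset.sum_add_distrib, ← Finset.sum_add_distrib, ← Finset.sum_add_distrib]
  refine Finset.sum_congr rfl fun k _ => ?_
  by_cases h1 : k.1 + k.2.1 + k.2.2 ≤ n
  · rw [if_pos h1, if_neg (by omega), if_neg (by omega), if_neg (by omega)]
    ring
  · rw [if_neg h1]
    by_cases h2 : k.1 + k.2.1 + k.2.2 = n + 1
    · rw [if_pos h2, if_neg (by omega), if_neg (by omega)]
      ring
    · rw [if_neg h2]
      by_cases h3 : k.1 + k.2.1 + k.2.2 = n + 2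
      · rw [if_pos h3, if_neg (by omega)]
        ring
      · rw [if_neg h3, if_pos (by omega)]
        ring

theorem sum_cube (n : ℕ) (f g h : ℕ → ℝ) :
    (∑ x ∈ Icc 1 n, f x) * (∑ y ∈ Icc 1 n, g y) * (∑ z ∈ Icc 1 n, h z) =
      ∑ k ∈ cube n, f k.1 * g k.2.1 * h k.2.2 := by
  rw [cube, Finset.sum_product, Finset.sum_mul_sum, Finset.sum_mul]
  refine Finset.sum_congr rfl fun x _ => ?_
  rw [Finset.sum_product, Finset.sum_mul]
  refine Finset.sum_congr rfl fun y _ => ?_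
  rw [Finset.mul_sum]

section main

variable [Fact q.Prime]

/-- The digits as natural numbers. -/
noncomputable def dn (n : ℕ) (a : ℕ → ℕ → ZMod q) (u : Fin n → ZMod q) (l : Fin 3) (k : ℕ) : ℕ :=
  (dg n a (ex u) l k).val

theorem dn_lt (n : ℕ) (a : ℕ → ℕ → ZMod q) (u : Fin n → ZMod q) (l : Fin 3) (k : ℕ) :
    dn n a u l k < q := by
  have : NeZero q := ⟨(Fact.out : q.Prime).ne_zero⟩
  exact ZMod.val_lt _

theorem eq_cast_iff {x : ZMod q} {t : ℕ} (ht : t < q) : x = (t : ZMod q) ↔ x.val = t := by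
  have : NeZero q := ⟨(Fact.out : q.Prime).ne_zero⟩
  constructor
  · rintro rfl
    exact ZMod.val_natCast_of_lt ht
  · intro h
    rw [← h, ZMod.natCast_zmod_val]

theorem lev_iff {n : ℕ} (a : ℕ → ℕ → ZMod q) (T : Fin 3 → ℕ → ℕ) (hT : ∀ l k, T l k < q)
    (k : Fin 3 → ℕ) (u : Fin n → ZMod q) :
    lev a T k u ↔ ∀ l, (∀ k' ∈ Icc 1 (k l - 1), dn n a u l k' = T l k') ∧
      dn n a u l (k l) < T l (k l) := by
  unfold lev dn
  simp only [eq_cast_iff (hT _ _)]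

theorem level_unique {d T : ℕ → ℕ} {k k' : ℕ} (hk : 1 ≤ k) (hk' : 1 ≤ k')
    (h : (∀ j ∈ Icc 1 (k - 1), d j = T j) ∧ d k < T k)
    (h' : (∀ j ∈ Icc 1 (k' - 1), d j = T j) ∧ d k' < T k') : k = k' := by
  rcases lt_trichotomy k k' with hlt | heq | hgt
  · exfalso
    have := h'.1 k (by rw [mem_Icc]; omega)
    omega
  · exact heq
  · exfalso
    have := h.1 k' (by rw [mem_Icc]; omega)
    omega

open Classical in
theorem count_eq (n : ℕ) (a : ℕ → ℕ → ZMod q) (T : Fin 3 → ℕ → ℕ) (hT : ∀ l k, T l k < q) :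
    ((univ : Finset (Fin n → ZMod q)).filter
      (fun u => ∀ l, SS q (dn n a u l) n < SS q (T l) n)).card =
      ∑ k ∈ cube n, cnt n a T ![k.1, k.2.1, k.2.2] := by
  unfold cnt
  rw [← Finset.card_biUnion]
  · congr 1
    ext u
    simp only [mem_filter, mem_univ, true_and, mem_biUnion]
    constructor
    · intro h
      have h' := fun l => (SS_lt_iff (dn n a u l) (T l) n (dn_lt n a u l) (hT l)).1 (h l)
      choose k hk hk' using h'
      refine ⟨(k 0, k 1, k 2), ?_, ?_⟩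
      · rw [mem_cube]
        exact ⟨mem_Icc.1 (hk 0), mem_Icc.1 (hk 1), mem_Icc.1 (hk 2)⟩
      · rw [lev_iff a T hT]
        intro l
        fin_cases l
        · exact hk' 0
        · exact hk' 1
        · exact hk' 2
    · rintro ⟨k, hk, hlev⟩
      rw [mem_cube] at hk
      rw [lev_iff a T hT] at hlev
      intro l
      rw [SS_lt_iff (dn n a u l) (T l) n (dn_lt n a u l) (hT l)]
      fin_cases l
      · exact ⟨k.1, mem_Icc.2 hk.1, hlev 0⟩
      · exact ⟨k.2.1, mem_Icc.2 hk.2.1, hlev 1⟩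
      · exact ⟨k.2.2, mem_Icc.2 hk.2.2, hlev 2⟩
  · intro k hk k' hk' hne
    rw [Finset.mem_coe, mem_cube] at hk hk'
    refine Finset.disjoint_left.2 fun u hu hu' => hne ?_
    simp only [mem_filter, mem_univ, true_and] at hu hu'
    rw [lev_iff a T hT] at hu hu'
    have h0 : k.1 = k'.1 := level_unique hk.1.1 hk'.1.1 (hu 0) (hu' 0)
    have h1 : k.2.1 = k'.2.1 := level_unique hk.2.1.1 hk'.2.1.1 (hu 1) (hu' 1)
    have h2 : k.2.2 = k'.2.2 := level_unique hk.2.2.1 hk'.2.2.1 (hu 2) (hu' 2)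
    exact Prod.ext h0 (Prod.ext h1 h2)

/-- The statement of `plane_cnt`. -/
def PlaneCnt (n : ℕ) (a : ℕ → ℕ → ZMod q) : Prop :=
  ∀ (T : Fin 3 → ℕ → ℕ) (_ : ∀ l k, T l k < q) (r j : ℕ) (_ : 1 ≤ r) (_ : 1 ≤ j)
    (_ : r + j ≤ n),
    (cnt n a T ![n + 1 - r - j, r, j] : ℝ) - (T 0 (n + 1 - r - j) : ℝ) * T 1 r * T 2 j / q =
      Xp (Del a (D0T n a T) (zT n a T) r (j - 1)) (DD a (D0T n a T) (zT n a T) (r - 1) j) (a r j)
        (ww a r j) (T 0 (n + 1 - r - j)) (T 1 r) (T 2 j)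

/-- The statement of `line_cnt`. -/
def LineCnt (n : ℕ) (a : ℕ → ℕ → ZMod q) : Prop :=
  ∀ (T : Fin 3 → ℕ → ℕ) (_ : ∀ l k, T l k < q) (r j : ℕ) (_ : 1 ≤ r) (_ : r + j ≤ n),
    (cnt n a T ![n + 1 - r - j, r, j + 1] : ℝ) -
      (T 0 (n + 1 - r - j) : ℝ) * T 1 r * T 2 (j + 1) / (q:ℝ) ^ 2 =
      Xl (Del a (D0T n a T) (zT n a T) r j) (DD a (D0T n a T) (zT n a T) (r - 1) (j + 1)) (a r j)
        (bb a (r - 1) (j + 1)) (T 0 (n + 1 - r - j)) (T 1 r) (T 2 (j + 1))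

open Classical in
/-- Boxes with integral corners. -/
theorem box (n : ℕ) (hn : 1 ≤ n) (a : ℕ → ℕ → ZMod q) (ha : ∀ r j, a r j ≠ 0)
    (hP : PlaneCnt n a) (hL : LineCnt n a)
    (E : ℝ) (hE : ∀ (D0 z : ℕ → ZMod q) (t1 t2 t3 : ℕ → ℕ), (∀ i, t1 i < q) → (∀ i, t2 i < q) →
      (∀ i, t3 i < q) → |Tot n a D0 z t1 t2 t3| ≤ E) (T : Fin 3 → ℕ → ℕ)
    (hT : ∀ l k, T l k < q) :
    |(((univ : Finset (Fin n → ZMod q)).filter
      (fun u => ∀ l, SS q (dn n a u l) n < SS q (T l) n)).card : ℝ) -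
      (q : ℝ) ^ n * ∏ l, ((SS q (T l) n : ℝ) / (q : ℝ) ^ n)| ≤ E + 2 * (n : ℝ) ^ 2 := by
  have hq0 : 0 < q := (Fact.out : q.Prime).pos
  have hq' : (q : ℝ) ≠ 0 := by exact_mod_cast hq0.ne'
  set f : ℕ → ℕ → ℕ → ℝ := fun k1 k2 k3 => (cnt n a T ![k1, k2, k3] : ℝ) -
    (T 0 k1 : ℝ) * T 1 k2 * T 2 k3 * ((q:ℝ) ^ n / (q:ℝ) ^ (k1 + k2 + k3)) with hf
  have hdiff : (((univ : Finset (Fin n → ZMod q)).filter
      (fun u => ∀ l, SS q (dn n a u l) n < SS q (T l) n)).card : ℝ) -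
      (q : ℝ) ^ n * ∏ l, ((SS q (T l) n : ℝ) / (q : ℝ) ^ n) =
      ∑ k ∈ cube n, f k.1 k.2.1 k.2.2 := by
    rw [count_eq n a T hT, Fin.prod_univ_three, SS_real hq0, SS_real hq0, SS_real hq0,
      sum_cube, Finset.mul_sum]
    push_cast
    rw [← Finset.sum_sub_distrib]
    refine Finset.sum_congr rfl fun k _ => ?_
    simp only [hf]
    congr 1
    rw [pow_add, pow_add]
    field_simp
  have hlow : ∑ k ∈ (cube n).filter (fun k => k.1 + k.2.1 + k.2.2 ≤ n), f k.1 k.2.1 k.2.2 = 0 := by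
    refine Finset.sum_eq_zero fun k hk => ?_
    rw [mem_filter, mem_cube] at hk
    have h := low_cnt n a ha T hT ![k.1, k.2.1, k.2.2] (by
      intro l
      fin_cases l
      · exact hk.1.1.1
      · exact hk.1.2.1.1
      · exact hk.1.2.2.1) hk.2
    simp only [hf]
    rw [h, sub_eq_zero]
    have h2 : (q:ℝ) ^ n / (q:ℝ) ^ (k.1 + k.2.1 + k.2.2) =
        (q:ℝ) ^ (n - (k.1 + k.2.1 + k.2.2)) := by
      rw [div_eq_iff (pow_ne_zero _ hq'), ← pow_add]
      congr 1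
      omega
    rw [h2]
    rfl
  have htot : ∑ k ∈ (cube n).filter (fun k => k.1 + k.2.1 + k.2.2 = n + 1), f k.1 k.2.1 k.2.2 +
      ∑ k ∈ (cube n).filter (fun k => k.1 + k.2.1 + k.2.2 = n + 2), f k.1 k.2.1 k.2.2 =
      Tot n a (D0T n a T) (zT n a T) (T 0) (T 1) (T 2) := by
    rw [sum_one, sum_two, ← Finset.sum_add_distrib]
    unfold Tot
    refine Finset.sum_congr rfl fun r hr => ?_
    rw [mem_Icc] at hr
    congr 1
    · refine Finset.sum_congr rfl fun j hj => ?_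
      rw [mem_Icc] at hj
      rw [← hP T hT r j hr.1 hj.1 (by omega)]
      simp only [hf]
      congr 1
      have h1 : n + 1 - r - j + r + j = n + 1 := by omega
      rw [h1, pow_succ]
      field_simp
    · refine Finset.sum_congr rfl fun j hj => ?_
      rw [mem_range] at hj
      rw [← hL T hT r j hr.1 (by omega)]
      simp only [hf]
      congr 1
      have h1 : n + 1 - r - j + r + (j + 1) = n + 2 := by omega
      rw [h1, pow_add]
      field_simp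
  have htail : |∑ k ∈ (cube n).filter (fun k => n + 3 ≤ k.1 + k.2.1 + k.2.2),
      f k.1 k.2.1 k.2.2| ≤ 2 * (n:ℝ) ^ 2 := tail_cnt n hn a ha T hT
  rw [hdiff, sum_split, hlow, htot, zero_add]
  refine (abs_add_le _ _).trans ?_
  exact add_le_add (hE _ _ _ _ _ (hT 0) (hT 1) (hT 2)) htail

omit [Fact q.Prime] in
theorem SS_top (hq : 0 < q) (n : ℕ) : SS q (fun _ => q - 1) n = q ^ n - 1 := by
  induction n with
  | zero => rfl
  | succ n ih =>
    rw [SS, ih]
    have h1 : 1 ≤ q ^ n := Nat.one_le_pow _ _ hq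
    obtain ⟨m, hm⟩ : ∃ m, q ^ n = m + 1 := ⟨q ^ n - 1, by omega⟩
    obtain ⟨p, hp⟩ : ∃ p, q = p + 1 := ⟨q - 1, by omega⟩
    rw [pow_succ, hm, hp]
    simp only [Nat.add_sub_cancel]
    have : (m + 1) * (p + 1) = (p + 1) * m + (p + 1) := by ring
    omega

open Classical in
/-- At most one point has all digits of the coordinate `l` equal to `q - 1`. -/
theorem card_top (n : ℕ) (a : ℕ → ℕ → ZMod q) (ha : ∀ r j, a r j ≠ 0) (l : Fin 3) :
    ((univ : Finset (Fin n → ZMod q)).filter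
      (fun u => SS q (dn n a u l) n = q ^ n - 1)).card ≤ 1 := by
  have hq0 : 0 < q := (Fact.out : q.Prime).pos
  have hlt : q - 1 < q := by omega
  obtain ⟨v, _, hv⟩ := net_unique n a ha (fun l' => if l' = l then n else 0)
    (by fin_cases l <;> simp) (fun _ _ => ((q - 1 : ℕ) : ZMod q))
  have key : ∀ u : Fin n → ZMod q, SS q (dn n a u l) n = q ^ n - 1 → u = v := by
    intro u hu
    apply hv
    intro l' k hk
    by_cases h : l' = l
    · subst h
      rw [if_pos rfl] at hk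
      rw [← SS_top hq0 n, SS_eq_iff _ _ n (dn_lt n a u l') (fun _ => hlt)] at hu
      rw [eq_cast_iff hlt]
      exact hu k hk
    · rw [if_neg h, mem_Icc] at hk
      omega
  rw [Finset.card_le_one]
  intro u hu u' hu'
  rw [mem_filter] at hu hu'
  rw [key u hu.2, key u' hu'.2]

theorem prod_close {x y : Fin 3 → ℝ} {ε : ℝ} (hx : ∀ l, 0 ≤ x l ∧ x l ≤ 1)
    (hy : ∀ l, 0 ≤ y l ∧ y l ≤ 1) (h : ∀ l, |x l - y l| ≤ ε) :
    |∏ l, x l - ∏ l, y l| ≤ 3 * ε := by
  rw [Fin.prod_univ_three, Fin.prod_univ_three]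
  have e : x 0 * x 1 * x 2 - y 0 * y 1 * y 2 =
      (x 0 - y 0) * (x 1 * x 2) + (x 1 - y 1) * (y 0 * x 2) + (x 2 - y 2) * (y 0 * y 1) := by
    ring
  have hb : ∀ (s t : ℝ), 0 ≤ s ∧ s ≤ 1 → 0 ≤ t ∧ t ≤ 1 → |s * t| ≤ 1 := by
    intro s t hs ht
    rw [abs_of_nonneg (mul_nonneg hs.1 ht.1)]
    exact mul_le_one₀ hs.2 ht.1 ht.2
  have hε : 0 ≤ ε := (abs_nonneg _).trans (h 0)
  have hm : ∀ (s t : ℝ), |s| ≤ ε → |t| ≤ 1 → |s * t| ≤ ε := by
    intro s t hs ht
    rw [abs_mul]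
    calc |s| * |t| ≤ ε * 1 := mul_le_mul hs ht (abs_nonneg _) hε
      _ = ε := mul_one _
  rw [e]
  have h1 := hm _ _ (h 0) (hb _ _ (hx 1) (hx 2))
  have h2 := hm _ _ (h 1) (hb _ _ (hy 0) (hx 2))
  have h3 := hm _ _ (h 2) (hb _ _ (hy 0) (hy 1))
  calc _ ≤ |(x 0 - y 0) * (x 1 * x 2) + (x 1 - y 1) * (y 0 * x 2)| +
        |(x 2 - y 2) * (y 0 * y 1)| := abs_add_le _ _
    _ ≤ (|(x 0 - y 0) * (x 1 * x 2)| + |(x 1 - y 1) * (y 0 * x 2)|) +
        |(x 2 - y 2) * (y 0 * y 1)| := by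
        gcongr
        exact abs_add_le _ _
    _ ≤ 3 * ε := by linarith

end main

end KD

/-- The net, from the statements of `plane_cnt` and `line_cnt`. -/
theorem net_of {q : ℕ} [Fact q.Prime] (n : ℕ) (hn : 1 ≤ n) (a : ℕ → ℕ → ZMod q)
    (ha : ∀ r j, a r j ≠ 0) (hP : KD.PlaneCnt n a) (hL : KD.LineCnt n a)
    (E : ℝ) (hE : ∀ (D0 z : ℕ → ZMod q) (t1 t2 t3 : ℕ → ℕ), (∀ i, t1 i < q) → (∀ i, t2 i < q) →
      (∀ i, t3 i < q) → |Tot n a D0 z t1 t2 t3| ≤ E) :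
    ∃ ξ : Fin (q ^ n) → Fin 3 → ℝ, (∀ i j, 0 ≤ ξ i j ∧ ξ i j < 1) ∧
      ∀ x : Fin 3 → ℝ, (∀ j, 0 ≤ x j) → (∀ j, x j ≤ 1) →
      |(((univ : Finset (Fin (q ^ n))).filter (fun i => ∀ j, ξ i j < x j)).card : ℝ)
        - ((q ^ n : ℕ) : ℝ) * ∏ j, x j| ≤ E + 20 * (n:ℝ) ^ 2 := by
  have hq0 : 0 < q := (Fact.out : q.Prime).pos
  have hN : 0 < q ^ n := pow_pos hq0 n
  have hN' : (0 : ℝ) < (q : ℝ) ^ n := by exact_mod_cast hN
  have hcard : Fintype.card (Fin n → ZMod q) = q ^ n := by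
    rw [Fintype.card_fun, ZMod.card, Fintype.card_fin]
  let e : Fin (q ^ n) ≃ (Fin n → ZMod q) := (Fintype.equivFinOfCardEq hcard).symm
  let X : (Fin n → ZMod q) → Fin 3 → ℕ := fun u l => KD.SS q (KD.dn n a u l) n
  have hX : ∀ u l, X u l < q ^ n := fun u l => KD.SS_lt _ n (KD.dn_lt n a u l)
  refine ⟨fun i l => (X (e i) l : ℝ) / (q : ℝ) ^ n, fun i l => ⟨by positivity, ?_⟩, ?_⟩
  · rw [div_lt_one hN']
    exact_mod_cast hX (e i) l
  intro x hx0 hx1
  -- the integral corners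
  let M : Fin 3 → ℕ := fun l => ⌈(q : ℝ) ^ n * x l⌉₊
  have hM : ∀ l, M l ≤ q ^ n := fun l => by
    refine Nat.ceil_le.2 ?_
    push_cast
    exact mul_le_of_le_one_right hN'.le (hx1 l)
  let M' : Fin 3 → ℕ := fun l => min (M l) (q ^ n - 1)
  have hM' : ∀ l, M' l < q ^ n := fun l => by
    have : M' l ≤ q ^ n - 1 := min_le_right _ _
    omega
  choose T hT hTM using fun l => KD.SS_exists hq0 n (M' l) (hM' l)
  have hbox := KD.box n hn a ha hP hL E hE T hT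
  simp only [hTM] at hbox
  -- the counting function
  have hcount : ((univ : Finset (Fin (q ^ n))).filter
      (fun i => ∀ j, (X (e i) j : ℝ) / (q : ℝ) ^ n < x j)).card =
      ((univ : Finset (Fin n → ZMod q)).filter (fun u => ∀ l, X u l < M l)).card := by
    refine Finset.card_bij (fun i _ => e i) ?_ ?_ ?_
    · intro i hi
      rw [mem_filter] at hi ⊢
      refine ⟨mem_univ _, fun l => ?_⟩
      rw [Nat.lt_ceil]
      have := hi.2 l
      rwa [div_lt_iff₀' hN'] at this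
    · intro i _ i' _ h
      exact e.injective h
    · intro u hu
      rw [mem_filter] at hu
      refine ⟨e.symm u, ?_, e.apply_symm_apply u⟩
      rw [mem_filter]
      refine ⟨mem_univ _, fun l => ?_⟩
      rw [e.apply_symm_apply, div_lt_iff₀' hN']
      exact Nat.lt_ceil.1 (hu.2 l)
  set A := (univ : Finset (Fin n → ZMod q)).filter (fun u => ∀ l, X u l < M l) with hA
  set B := (univ : Finset (Fin n → ZMod q)).filter (fun u => ∀ l, X u l < M' l) with hB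
  have hBA : B ⊆ A := by
    intro u hu
    rw [hB, mem_filter] at hu
    rw [hA, mem_filter]
    exact ⟨mem_univ _, fun l => (hu.2 l).trans_le (min_le_left _ _)⟩
  have hAB : A ⊆ B ∪ (univ : Finset (Fin 3)).biUnion
      (fun l => (univ : Finset (Fin n → ZMod q)).filter (fun u => X u l = q ^ n - 1)) := by
    intro u hu
    rw [hA, mem_filter] at hu
    rw [mem_union, mem_biUnion]
    by_cases h : ∀ l, X u l < M' l
    · left
      rw [hB, mem_filter]
      exact ⟨mem_univ _, h⟩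
    · right
      push Not at h
      obtain ⟨l, hl⟩ := h
      refine ⟨l, mem_univ _, ?_⟩
      rw [mem_filter]
      refine ⟨mem_univ _, ?_⟩
      have h1 := hu.2 l
      have h2 := hX u l
      have h3 : M' l = min (M l) (q ^ n - 1) := rfl
      rw [h3] at hl
      rcases min_le_iff.1 hl with h4 | h4 <;> omega
  have hc1 : A.card ≤ B.card + 3 := by
    refine (card_le_card hAB).trans ((card_union_le _ _).trans ?_)
    refine Nat.add_le_add_left ?_ _
    refine card_biUnion_le.trans ?_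
    refine (Finset.sum_le_sum fun l _ => KD.card_top n a ha l).trans ?_
    simp
  have hc2 : B.card ≤ A.card := card_le_card hBA
  -- the volume
  have hclose : ∀ l, |x l - (M' l : ℝ) / (q : ℝ) ^ n| ≤ 1 / (q : ℝ) ^ n := by
    intro l
    have h1 : (q : ℝ) ^ n * x l ≤ M l := Nat.le_ceil _
    have h2 : (M l : ℝ) < (q : ℝ) ^ n * x l + 1 :=
      Nat.ceil_lt_add_one (mul_nonneg hN'.le (hx0 l))
    have h3 : M l ≤ M' l + 1 := by
      have h3 : M' l = min (M l) (q ^ n - 1) := rfl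
      have := hM l
      rw [h3]
      omega
    have h4 : M' l ≤ M l := min_le_left _ _
    have h3' : (M l : ℝ) ≤ M' l + 1 := by exact_mod_cast h3
    have h4' : (M' l : ℝ) ≤ M l := by exact_mod_cast h4
    have h5 : x l - (M' l : ℝ) / (q : ℝ) ^ n = ((q : ℝ) ^ n * x l - M' l) / (q : ℝ) ^ n := by
      field_simp
    rw [h5, abs_div, abs_of_pos hN']
    refine div_le_div_of_nonneg_right ?_ hN'.le
    rw [abs_le]
    constructor <;> linarith
  have hM'1 : ∀ l, 0 ≤ (M' l : ℝ) / (q : ℝ) ^ n ∧ (M' l : ℝ) / (q : ℝ) ^ n ≤ 1 := fun l =>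
    ⟨by positivity, by
      rw [div_le_one hN']
      exact_mod_cast (hM' l).le⟩
  have hprod := KD.prod_close (fun l => ⟨hx0 l, hx1 l⟩) hM'1 hclose
  have hvol : |(q : ℝ) ^ n * ∏ l, x l - (q : ℝ) ^ n * ∏ l, ((M' l : ℝ) / (q : ℝ) ^ n)| ≤ 3 := by
    rw [← mul_sub, abs_mul, abs_of_pos hN']
    calc (q : ℝ) ^ n * |∏ l, x l - ∏ l, ((M' l : ℝ) / (q : ℝ) ^ n)|
        ≤ (q : ℝ) ^ n * (3 * (1 / (q : ℝ) ^ n)) := mul_le_mul_of_nonneg_left hprod hN'.le
      _ = 3 := by field_simp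
  rw [hcount]
  have hc1' : (A.card : ℝ) ≤ B.card + 3 := by exact_mod_cast hc1
  have hc2' : (B.card : ℝ) ≤ A.card := by exact_mod_cast hc2
  have hbox' : |(B.card : ℝ) - (q : ℝ) ^ n * ∏ l, ((M' l : ℝ) / (q : ℝ) ^ n)| ≤
      E + 2 * (n : ℝ) ^ 2 := hbox
  have hn' : (1 : ℝ) ≤ (n : ℝ) ^ 2 := by
    have : (1 : ℝ) ≤ n := by exact_mod_cast hn
    nlinarith
  rw [abs_le] at hbox' hvol ⊢
  push_cast
  constructor <;> linarith [hbox'.1, hbox'.2, hvol.1, hvol.2]

end Pool.Agent.H935R2.PS
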