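import Pool.Agent.H501R2.PS.L

set_option autoImplicit false

/-!
# The final step with an explicit exponent (proof of helper501)
-/

namespace Pool.Agent.H935R2.PS
open Finset
namespace L

theorem star_power_explicit (suitable : SuitS) (core : CoreS) (net : NetS) :
    ∃ C : ℝ, 0 < C ∧ ∀ N : ℕ, 3 ≤ N → ∃ ξ : Fin N → Fin 3 → ℝ,
    (∀ i j, 0 ≤ ξ i j ∧ ξ i j < 1) ∧ ∀ x : Fin 3 → ℝ, (∀ j, 0 ≤ x j) → (∀ j, x j ≤ 1) →
      |(((univ : Finset (Fin N)).filter (fun i => ∀ j, ξ i j < x j)).card : ℝ) - N * ∏ j, x j| ≤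
        C * (Real.log N) ^ ((2:ℝ) - 1 / 800) := by
  obtain ⟨l₀, hl₀⟩ := suitable
  obtain ⟨C, hC, q₀, hcore⟩ := core
  obtain ⟨T, hT⟩ : ∃ T : ℝ, T = max (max (l₀ : ℝ) (2 * (q₀ : ℝ))) 4 := ⟨_, rfl⟩
  have hT1 : (l₀:ℝ) ≤ T := by rw [hT]; exact (le_max_left _ _).trans (le_max_left _ _)
  have hT2 : 2 * (q₀:ℝ) ≤ T := by rw [hT]; exact (le_max_right _ _).trans (le_max_left _ _)
  have hT4 : 4 ≤ T := by rw [hT]; exact le_max_right _ _
  refine ⟨4 * (8 * C + C * 2 ^ 98 + 320) + Real.exp (T ^ 400),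
    by positivity, fun N hN => ?_⟩
  have hN3 : (3:ℝ) ≤ N := by exact_mod_cast hN
  have hNpos : (0:ℝ) < N := by linarith
  have hlog1 : 1 < Real.log N := by
    rw [Real.lt_log_iff_exp_lt hNpos]
    have := Real.exp_one_lt_d9
    linarith
  have hm0 : 0 < Real.log N := by linarith
  obtain ⟨t, ht0, htm, htp⟩ := pow_log hm0
  have hgoal : 1 ≤ Real.log N ^ ((2:ℝ) - 1 / 800) :=
    Real.one_le_rpow hlog1.le (by norm_num)
  rcases lt_or_ge t T with htT | htT
  · -- small N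
    obtain ⟨ξ, hξ, hb⟩ := triv N
    refine ⟨ξ, hξ, fun x hx hx' => (hb x hx hx').trans ?_⟩
    have h1 : (N:ℝ) ≤ Real.exp (T ^ 400) := by
      rw [← Real.log_le_iff_le_exp hNpos, ← htm]
      exact pow_le_pow_left₀ ht0.le htT.le 400
    calc (N:ℝ) ≤ Real.exp (T ^ 400) := h1
      _ ≤ (4 * (8 * C + C * 2 ^ 98 + 320) + Real.exp (T ^ 400)) := by
          have : 0 < 4 * (8 * C + C * 2 ^ 98 + 320) := by positivity
          linarith
      _ ≤ (4 * (8 * C + C * 2 ^ 98 + 320) + Real.exp (T ^ 400)) *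
            Real.log N ^ ((2:ℝ) - 1 / 800) :=
          le_mul_of_one_le_right (by positivity) hgoal
  · -- large N
    have ht4 : 4 ≤ t := hT4.trans htT
    obtain ⟨l, hl⟩ : ∃ l : ℕ, l = ⌈t⌉₊ := ⟨_, rfl⟩
    have hl1 : t ≤ l := by rw [hl]; exact Nat.le_ceil t
    have hl2 : (l:ℝ) < t + 1 := by rw [hl]; exact Nat.ceil_lt_add_one ht0.le
    have hll0 : l₀ ≤ l := by
      have : (l₀:ℝ) ≤ l := by linarith
      exact_mod_cast this
    obtain ⟨q, hqp, hqs, hq1, hq2⟩ := hl₀ l hll0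
    have hq1r : (l:ℝ) ≤ 2 * La q := by exact_mod_cast hq1
    have hq2r : (La q:ℝ) ≤ l := by exact_mod_cast hq2
    have hqne : q ≠ 0 := hqp.ne_zero
    have h2La : 2 ^ La q ≤ q := Nat.pow_log_le_self 2 hqne
    have hq0q : q₀ ≤ q := by
      have h1 : (q₀:ℝ) ≤ La q := by linarith
      have h2 : q₀ ≤ La q := by exact_mod_cast h1
      have h3 : La q < 2 ^ La q := Nat.lt_two_pow_self
      omega
    have hfact : Fact q.Prime := ⟨hqp⟩
    have hLa1 : t / 2 ≤ La q := by linarith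
    have hLa2 : (La q : ℝ) ≤ 2 * t := by linarith
    have hLa0 : (0:ℝ) < La q := by linarith
    have hlogq : 2 / 3 * (La q : ℝ) ≤ Real.log q := by
      have h1 : ((2:ℝ) ^ La q) ≤ q := by exact_mod_cast h2La
      have h2 : Real.log ((2:ℝ) ^ La q) ≤ Real.log q := Real.log_le_log (by positivity) h1
      rw [Real.log_pow] at h2
      have h3 := Real.log_two_gt_d9
      nlinarith
    have hlogq0 : 0 < Real.log q := by linarith
    obtain ⟨n, hn⟩ : ∃ n : ℕ, n = ⌈Real.log N / Real.log q⌉₊ := ⟨_, rfl⟩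
    have hn1 : Real.log N / Real.log q ≤ n := by rw [hn]; exact Nat.le_ceil _
    have hn2 : (n:ℝ) < Real.log N / Real.log q + 1 := by
      rw [hn]; exact Nat.ceil_lt_add_one (by positivity)
    have hnpos : 1 ≤ n := by
      have : 0 < Real.log N / Real.log q := by positivity
      have : (0:ℝ) < n := by linarith
      exact_mod_cast this
    have hNq : N ≤ q ^ n := by
      have h1 : Real.log N ≤ n * Real.log q := by
        rwa [div_le_iff₀ hlogq0] at hn1
      rw [← Real.log_pow] at h1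
      have h2 : (0:ℝ) < (q:ℝ) ^ n := by
        have : (0:ℝ) < q := by exact_mod_cast hqp.pos
        positivity
      have h3 : (N:ℝ) ≤ (q:ℝ) ^ n := (Real.log_le_log_iff hNpos h2).1 h1
      exact_mod_cast h3
    have hnle : (n:ℝ) ≤ 2 * t ^ 400 / La q := by
      rw [htm, le_div_iff₀ hLa0]
      have h1 : Real.log N / Real.log q ≤ Real.log N / (2 / 3 * (La q : ℝ)) :=
        div_le_div_of_nonneg_left hm0.le (by positivity) hlogq
      have h2 : Real.log N / (2 / 3 * (La q : ℝ)) * La q = 3 / 2 * Real.log N := by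
        field_simp
      have h3 : (La q : ℝ) ≤ 1 / 2 * Real.log N := by
        rw [← htm]
        have h4 : t ^ 2 ≤ t ^ 400 := pow_le_pow_right₀ (by linarith) (by norm_num)
        nlinarith
      have h5 : (n:ℝ) * La q ≤ (Real.log N / (2 / 3 * (La q : ℝ)) + 1) * La q :=
        mul_le_mul_of_nonneg_right (by linarith) hLa0.le
      rw [add_mul, h2, one_mul] at h5
      linarith
    obtain ⟨a, ha, hTot⟩ := hcore q hq0q hfact hqs n hnpos
    obtain ⟨ξ, hξ01, hξ⟩ := net n hnpos a ha _ hTot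
    have hnum := numer hC (by linarith : (2:ℝ) ≤ t) hLa1 hLa2 (Nat.cast_nonneg n) hnle
    obtain ⟨ζ, hζ01, hζ⟩ := Pool.Agent.H470D4.subnet (k := 2) hNq (by omega) (by positivity) ξ hξ01 hξ
    refine ⟨ζ, hζ01, fun x hx hx' => (hζ x hx hx').trans ?_⟩
    rw [htp]
    have h1 : 0 ≤ Real.exp (T ^ 400) * (t ^ 800 / √t) := by positivity
    nlinarith [hnum, h1]

end L

end Pool.Agent.H935R2.PS
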