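import Pool.Agent.H935R2.PS.J2h
import Pool.Agent.H935R2.PS.I1
import Pool.Agent.H935R2.PS.I2aux
import Pool.Agent.H935R2.PS.G5pre
import Pool.Agent.H935R2.PS.G2
import Pool.Agent.H935R2.PS.G3
import Pool.Agent.H935R2.PS.G4
import Pool.Agent.H935R2.PS.C2pre
import Pool.Agent.H36R2.PS.B
import Pool.Agent.H36R2.PS.C3
import Pool.Agent.H935R2.PS.H1
import Pool.Agent.H935R2.PS.H4
import Pool.Agent.H935R2.PS.H5
import Pool.Agent.H935R2.PS.H6
import Pool.Agent.H935R2.PS.H6b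
import Pool.Agent.H935R2.PS.D
import Pool.Agent.H935R2.PS.KB
import Pool.Agent.H935R2.PS.KD
import Pool.Agent.H935R2.PS.L2
import Pool.Agent.H470D4.Closed

set_option autoImplicit false

/-!
# Power saving in the star discrepancy in dimension three: assembly
-/

namespace Pool.Agent.H935R2.PS.Final

open Finset

theorem mean_line : I2.HMean :=
  mean_line_of S2_avg (G3.main_line_of main3 (main2_of_kernel kernel)) np_line

theorem one_step : J2.OneStep :=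
  I2.one_step_of mean_line @Xl_le Aset_card bad_plane_a sum_Rl @lgood_good2

theorem one_step0 : J2.OneStep0 := I2.one_step0_of mean_line Aset_card

theorem core : L.CoreS := J2.core_of two_step two_step0 one_step one_step0

theorem net : L.NetS := by
  intro q _ n hn a ha E hE
  refine net_of n hn a ha ?_ ?_ E hE
  · intro T hT r j hr hj hrj
    exact plane_cnt n a ha T hT r j hr hj hrj
  · intro T hT r j hr hrj
    exact line_cnt n a ha T hT r j hr hrj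

/-- The explicit exponent, boxes `[0, x)`. -/
theorem star_explicit : ∃ C : ℝ, 0 < C ∧ ∀ N : ℕ, 3 ≤ N → ∃ ξ : Fin N → Fin 3 → ℝ,
    (∀ i j, 0 ≤ ξ i j ∧ ξ i j < 1) ∧ ∀ x : Fin 3 → ℝ, (∀ j, 0 ≤ x j) → (∀ j, x j ≤ 1) →
      |(((univ : Finset (Fin N)).filter (fun i => ∀ j, ξ i j < x j)).card : ℝ) - N * ∏ j, x j| ≤
        C * (Real.log N) ^ ((2:ℝ) - 1 / 800) :=
  L.star_power_explicit suitable core net

/-- The explicit exponent, boxes `[0, x]`. -/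
theorem star_closed : ∃ C : ℝ, 0 < C ∧ ∀ N : ℕ, 3 ≤ N → ∃ ξ : Fin N → Fin 3 → ℝ,
    (∀ i j, 0 ≤ ξ i j ∧ ξ i j < 1) ∧ ∀ x : Fin 3 → ℝ, (∀ j, 0 ≤ x j) → (∀ j, x j ≤ 1) →
      ∀ S : Finset (Fin N), (∀ i, i ∈ S ↔ ∀ j, ξ i j ≤ x j) →
      |(S.card : ℝ) - N * ∏ j, x j| ≤ C * (Real.log N) ^ ((2:ℝ) - 1 / 800) := by
  obtain ⟨C, hC, h⟩ := star_explicit
  refine ⟨C, hC, fun N hN => ?_⟩
  obtain ⟨ξ, hξ, h1⟩ := h N hN
  refine ⟨ξ, hξ, fun x hx0 hx1 S hS => ?_⟩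
  refine H470D4.closed_of_open_all (fun i j => (hξ i j).2) ?_ hx0 hx1 hS
  intro y hy0 hy1 S' hS'
  have h2 : S' = (univ : Finset (Fin N)).filter (fun i => ∀ j, ξ i j < y j) := by
    ext i
    rw [mem_filter, hS' i]
    simp only [mem_univ, true_and]
  rw [h2]
  exact h1 y hy0 hy1

/-- There are `N`-point sets in the cube `[0,1)^3` with star discrepancy `O((log N)^(2-δ)) / N`. -/
theorem star_power : ∃ δ : ℝ, 0 < δ ∧ ∃ C : ℝ, 0 < C ∧ ∀ N : ℕ, 3 ≤ N → ∃ ξ : Fin N → Fin 3 → ℝ,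
    (∀ i j, 0 ≤ ξ i j ∧ ξ i j < 1) ∧ ∀ x : Fin 3 → ℝ, (∀ j, 0 ≤ x j) → (∀ j, x j ≤ 1) →
      |(((univ : Finset (Fin N)).filter (fun i => ∀ j, ξ i j < x j)).card : ℝ) - N * ∏ j, x j| ≤
        C * (Real.log N) ^ (2 - δ) :=
  L.star_power_of suitable core net

end Pool.Agent.H935R2.PS.Final
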