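import Pool.Agent.H935R2.PS.Defs

set_option autoImplicit false
set_option linter.unusedVariables false

/-!
Tasks H2 and H3 (helper234): box counting for good planes and good lines.
-/

namespace Pool.Agent.H935R2.PS

open Finset

namespace H2

theorem nn_sub_le {q : ℕ} [NeZero q] (x y : ZMod q) :
    nn (x - y) ≤ (x.valMinAbs - y.valMinAbs).natAbs := by
  unfold nn
  apply ZMod.natAbs_min_of_le_div_two q
  · simp
  · exact ZMod.natAbs_valMinAbs_le _

theorem nn_lt {q : ℕ} (x : ZMod q) : nn x < 2 ^ (dl x + 1) :=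
  Nat.lt_pow_succ_log_self (by norm_num) _

theorem dl_le_La {q : ℕ} [NeZero q] (x : ZMod q) : dl x ≤ La q := by
  unfold dl La
  apply Nat.log_mono_right
  exact (ZMod.natAbs_valMinAbs_le x).trans (Nat.div_le_self _ _)

theorem two_pow_le_mx {q : ℕ} (x : ZMod q) : (2:ℝ) ^ dl x ≤ mx x := by
  unfold mx dl
  by_cases h : nn x = 0
  · rw [h]; simp
  · refine le_max_of_le_right ?_
    exact_mod_cast Nat.pow_log_le_self 2 h

/-- Same cell of side `2 ^ d`. -/
theorem cell {q : ℕ} [NeZero q] {x y : ZMod q} {d : ℕ}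
    (h : x.valMinAbs / 2 ^ d = y.valMinAbs / 2 ^ d) : dl (x - y) ≤ d ∧ (0 < d → dl (x - y) < d) := by
  have h1 := nn_sub_le x y
  have hp : (0:ℤ) < 2 ^ d := by positivity
  have h2 : (x.valMinAbs - y.valMinAbs).natAbs < 2 ^ d := by
    have a1 := Int.emod_add_mul_ediv x.valMinAbs (2 ^ d)
    have a2 := Int.emod_add_mul_ediv y.valMinAbs (2 ^ d)
    have a3 := Int.emod_nonneg x.valMinAbs hp.ne'
    have a4 := Int.emod_nonneg y.valMinAbs hp.ne'
    have a5 := Int.emod_lt_of_pos x.valMinAbs hp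
    have a6 := Int.emod_lt_of_pos y.valMinAbs hp
    rw [h] at a1
    have h3 : |x.valMinAbs - y.valMinAbs| < 2 ^ d := by
      rw [abs_lt]
      constructor <;> linarith
    rw [Int.abs_eq_natAbs] at h3
    exact_mod_cast h3
  have h3 : nn (x - y) < 2 ^ d := lt_of_le_of_lt h1 h2
  by_cases h0 : nn (x - y) = 0
  · have : dl (x - y) = 0 := by unfold dl; rw [h0]; simp
    rw [this]
    exact ⟨Nat.zero_le _, id⟩
  · have : dl (x - y) < d := by
      unfold dl
      exact Nat.log_lt_of_lt_pow h0 h3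
    exact ⟨this.le, fun _ => this⟩

theorem cell_mem {q : ℕ} {x : ZMod q} {b d : ℕ} (hb : dl x = b) (hd : d ≤ b) :
    x.valMinAbs / 2 ^ d ∈ Ico (-(2 ^ (b + 1 - d) : ℤ)) (2 ^ (b + 1 - d)) := by
  have h1 := nn_lt x
  rw [hb] at h1
  unfold nn at h1
  have h2 : |x.valMinAbs| < 2 ^ (b + 1) := by
    rw [Int.abs_eq_natAbs]
    exact_mod_cast h1
  rw [abs_lt] at h2
  have hp : (0:ℤ) < 2 ^ d := by positivity
  have h3 : (2:ℤ) ^ (b + 1) = 2 ^ (b + 1 - d) * 2 ^ d := by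
    rw [← pow_add]; congr 1; omega
  rw [mem_Ico]
  constructor
  · rw [Int.le_ediv_iff_mul_le hp]
    rw [h3] at h2
    linarith
  · rw [Int.ediv_lt_iff_lt_mul hp]
    rw [h3] at h2
    linarith

theorem card_cell (e : ℕ) : (Ico (-(2 ^ e : ℤ)) (2 ^ e)).card = 2 ^ (e + 1) := by
  rw [Int.card_Ico]
  have : (2 ^ e - -2 ^ e : ℤ) = ((2 ^ (e + 1) : ℕ) : ℤ) := by push_cast; ring
  rw [this, Int.toNat_natCast]

variable {M : Type} [AddCommGroup M] {q : ℕ} [NeZero q]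

/-- The number of points of a good lattice in a dyadic box. -/
theorem count (φ : Fin 3 → M →+ ZMod q) {N : ℕ} (hN : 1 ≤ N)
    (hφ : ∀ l : M, l ≠ 0 → N ≤ dl (φ 0 l) + dl (φ 1 l) + dl (φ 2 l)) (b : Fin 3 → ℕ)
    (hb : N ≤ b 0 + b 1 + b 2) (S : Finset M) (hS : ∀ l ∈ S, ∀ i, dl (φ i l) = b i) :
    S.card ≤ 2 ^ (b 0 + b 1 + b 2 - N + 6) := by
  classical
  obtain ⟨d0, d1, d2, h0, h1, h2, hd⟩ : ∃ d0 d1 d2 : ℕ, d0 ≤ b 0 ∧ d1 ≤ b 1 ∧ d2 ≤ b 2 ∧
      d0 + d1 + d2 = N :=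
    ⟨min N (b 0), min (N - min N (b 0)) (b 1), N - min N (b 0) - min (N - min N (b 0)) (b 1),
      by omega, by omega, by omega, by omega⟩
  have hcard : ((Ico (-(2 ^ (b 0 + 1 - d0) : ℤ)) (2 ^ (b 0 + 1 - d0))) ×ˢ
      (Ico (-(2 ^ (b 1 + 1 - d1) : ℤ)) (2 ^ (b 1 + 1 - d1))) ×ˢ
      (Ico (-(2 ^ (b 2 + 1 - d2) : ℤ)) (2 ^ (b 2 + 1 - d2)))).card =
      2 ^ (b 0 + b 1 + b 2 - N + 6) := by
    rw [card_product, card_product, card_cell, card_cell, card_cell, ← pow_add, ← pow_add]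
    congr 1
    omega
  rw [← hcard]
  refine card_le_card_of_injOn (fun l => ((φ 0 l).valMinAbs / 2 ^ d0,
    (φ 1 l).valMinAbs / 2 ^ d1, (φ 2 l).valMinAbs / 2 ^ d2)) ?_ ?_
  · intro l hl
    have hl' := hS l hl
    rw [mem_coe, mem_product, mem_product]
    exact ⟨cell_mem (hl' 0) h0, cell_mem (hl' 1) h1, cell_mem (hl' 2) h2⟩
  · intro l _ l' _ h
    simp only [Prod.mk.injEq] at h
    obtain ⟨e0, e1, e2⟩ := h
    by_contra hne
    have hsub : l - l' ≠ 0 := sub_ne_zero.mpr hne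
    have h3 := hφ _ hsub
    have c0 := cell e0
    have c1 := cell e1
    have c2 := cell e2
    rw [← map_sub] at c0 c1 c2
    omega

/-- The absolute sum over a good lattice. -/
theorem sum_le [Fintype M] [DecidableEq M] (φ : Fin 3 → M →+ ZMod q) {N : ℕ} (hN : 1 ≤ N)
    (hφ : ∀ l : M, l ≠ 0 → N ≤ dl (φ 0 l) + dl (φ 1 l) + dl (φ 2 l)) :
    ∑ l ∈ (univ : Finset M).filter (fun l => l ≠ 0),
      1 / (mx (φ 0 l) * mx (φ 1 l) * mx (φ 2 l)) ≤ 64 * ((La q : ℝ) + 1) ^ 3 / 2 ^ N := by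
  classical
  set T : Finset (ℕ × ℕ × ℕ) := range (La q + 1) ×ˢ range (La q + 1) ×ˢ range (La q + 1) with hT
  have hmaps : ∀ l ∈ (univ : Finset M).filter (fun l => l ≠ 0),
      (fun l => (dl (φ 0 l), dl (φ 1 l), dl (φ 2 l))) l ∈ T := by
    intro l _
    simp only [hT, mem_product, mem_range]
    exact ⟨Nat.lt_succ_of_le (dl_le_La _), Nat.lt_succ_of_le (dl_le_La _),
      Nat.lt_succ_of_le (dl_le_La _)⟩
  rw [← sum_fiberwise_of_maps_to hmaps]
  have hfib : ∀ b ∈ T, ∑ l ∈ ((univ : Finset M).filter (fun l => l ≠ 0)).filter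
      (fun l => (fun l => (dl (φ 0 l), dl (φ 1 l), dl (φ 2 l))) l = b),
      1 / (mx (φ 0 l) * mx (φ 1 l) * mx (φ 2 l)) ≤ 64 / 2 ^ N := by
    intro b _
    set F := ((univ : Finset M).filter (fun l => l ≠ 0)).filter
      (fun l => (fun l => (dl (φ 0 l), dl (φ 1 l), dl (φ 2 l))) l = b) with hF
    have hterm : ∀ l ∈ F, 1 / (mx (φ 0 l) * mx (φ 1 l) * mx (φ 2 l)) ≤
        1 / 2 ^ (b.1 + b.2.1 + b.2.2) := by
      intro l hl
      rw [hF, mem_filter] at hl
      have hb := hl.2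
      simp only at hb
      rw [← hb]
      simp only
      rw [pow_add, pow_add]
      have p0 := two_pow_le_mx (φ 0 l)
      have p1 := two_pow_le_mx (φ 1 l)
      have p2 := two_pow_le_mx (φ 2 l)
      have q0 : (0:ℝ) < 2 ^ dl (φ 0 l) := by positivity
      have q1 : (0:ℝ) < 2 ^ dl (φ 1 l) := by positivity
      have q2 : (0:ℝ) < 2 ^ dl (φ 2 l) := by positivity
      apply one_div_le_one_div_of_le (by positivity)
      exact mul_le_mul (mul_le_mul p0 p1 q1.le (q0.le.trans p0)) p2 q2.le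
        (mul_nonneg (q0.le.trans p0) (q1.le.trans p1))
    have hcard : (F.card : ℝ) ≤ 64 * 2 ^ (b.1 + b.2.1 + b.2.2) / 2 ^ N := by
      by_cases hFe : F = ∅
      · rw [hFe]
        simp only [card_empty, Nat.cast_zero]
        positivity
      · obtain ⟨l0, hl0⟩ := Finset.nonempty_iff_ne_empty.mpr hFe
        have hl0' := hl0
        rw [hF, mem_filter, mem_filter] at hl0'
        have hb0 := hl0'.2
        have hN' := hφ l0 hl0'.1.2
        simp only at hb0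
        have hNb : N ≤ b.1 + b.2.1 + b.2.2 := by
          rw [← hb0]
          exact hN'
        have h := count φ hN hφ (fun i => if i = 0 then b.1 else if i = 1 then b.2.1 else b.2.2)
          (by simpa using hNb) F (by
            intro l hl i
            rw [hF, mem_filter] at hl
            have hb := hl.2
            simp only at hb
            rw [← hb]
            fin_cases i <;> simp)
        simp only [if_true, one_ne_zero, if_false, Fin.reduceEq] at h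
        rw [le_div_iff₀ (by positivity)]
        have h2 : F.card * 2 ^ N ≤ 64 * 2 ^ (b.1 + b.2.1 + b.2.2) := by
          calc F.card * 2 ^ N ≤ 2 ^ (b.1 + b.2.1 + b.2.2 - N + 6) * 2 ^ N :=
                Nat.mul_le_mul_right _ h
            _ = 64 * 2 ^ (b.1 + b.2.1 + b.2.2) := by
                rw [← pow_add, show (64:ℕ) = 2 ^ 6 by norm_num, ← pow_add]
                congr 1
                omega
        exact_mod_cast h2
    calc _ ≤ ∑ _l ∈ F, (1:ℝ) / 2 ^ (b.1 + b.2.1 + b.2.2) := sum_le_sum hterm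
      _ = F.card * (1 / 2 ^ (b.1 + b.2.1 + b.2.2)) := by rw [sum_const, nsmul_eq_mul]
      _ ≤ 64 * 2 ^ (b.1 + b.2.1 + b.2.2) / 2 ^ N * (1 / 2 ^ (b.1 + b.2.1 + b.2.2)) :=
          mul_le_mul_of_nonneg_right hcard (by positivity)
      _ = 64 / 2 ^ N := by field_simp
  calc _ ≤ ∑ _b ∈ T, (64:ℝ) / 2 ^ N := sum_le_sum hfib
    _ = 64 * ((La q : ℝ) + 1) ^ 3 / 2 ^ N := by
        rw [sum_const, nsmul_eq_mul, hT, card_product, card_product, card_range]
        push_cast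
        ring

theorem La_large (K : ℕ) : ∃ q₀ : ℕ, ∀ q, q₀ ≤ q → K * uu q < La q := by
  -- `log₂ L + 1` is much smaller than `L`
  have h1 : ∃ L₀ : ℕ, ∀ L, L₀ ≤ L → K * (Nat.log 2 L + 1) < L := by
    refine ⟨2 ^ (2 * K + 8), fun L hL => ?_⟩
    have hL0 : L ≠ 0 := by
      intro h
      rw [h] at hL
      have := Nat.two_pow_pos (2 * K + 8)
      omega
    set e := Nat.log 2 L with he
    have h2 : 2 ^ e ≤ L := Nat.pow_log_le_self 2 hL0
    have h3 : 2 * K + 8 ≤ e := by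
      rw [he]
      exact Nat.le_log_of_pow_le (by norm_num) hL
    refine lt_of_lt_of_le ?_ h2
    -- K (e+1) < 2^e when e ≥ 2K + 8
    have h4 : ∀ e : ℕ, 4 ≤ e → e ^ 2 ≤ 2 ^ e := by
      intro e he
      induction e, he using Nat.le_induction with
      | base => norm_num
      | succ n hn ih =>
        rw [pow_succ 2 n]
        nlinarith
    have h5 := h4 e (by omega)
    nlinarith
  obtain ⟨L₀, hL₀⟩ := h1
  refine ⟨2 ^ L₀, fun q hq => ?_⟩
  unfold uu
  apply hL₀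
  unfold La
  exact Nat.le_log_of_pow_le (by norm_num) hq

end H2

theorem sup_Rp : ∃ C : ℝ, 0 < C ∧ ∃ q₀ : ℕ, ∀ q : ℕ, q₀ ≤ q → ∀ hq : Fact q.Prime,
    ∀ a w : ZMod q, pgood a w → Rp a w ≤ C * (La q : ℝ) ^ 3 * 2 ^ k2 q := by
  classical
  obtain ⟨q₀, hq₀⟩ := H2.La_large 88
  refine ⟨2048, by norm_num, q₀, ?_⟩
  intro q hqq hq a w hg
  have hLa : k2 q < La q := hq₀ q hqq
  have hLa1 : (1:ℝ) ≤ La q := by exact_mod_cast (by omega : 1 ≤ La q)
  set φ : Fin 3 → ZMod q →+ ZMod q := fun i =>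
    if i = 0 then AddMonoidHom.mulRight a else if i = 1 then AddMonoidHom.id _ else
      AddMonoidHom.mulRight w with hφ
  have f0 : ∀ l, φ 0 l = l * a := fun l => rfl
  have f1 : ∀ l, φ 1 l = l := fun l => rfl
  have f2 : ∀ l, φ 2 l = l * w := fun l => rfl
  obtain ⟨ha, hw, hl⟩ := hg
  have hgood : ∀ l : ZMod q, l ≠ 0 →
      2 * La q - k2 q ≤ dl (φ 0 l) + dl (φ 1 l) + dl (φ 2 l) := by
    intro l hl0
    have h := hl l hl0
    unfold PB at h
    push Not at h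
    rw [f0, f1, f2]
    omega
  have h := H2.sum_le φ (N := 2 * La q - k2 q) (by omega) hgood
  have hRp : Rp a w = (q:ℝ) ^ 2 * ∑ l ∈ (univ : Finset (ZMod q)).filter (fun l => l ≠ 0),
      1 / (mx (φ 0 l) * mx (φ 1 l) * mx (φ 2 l)) := by
    unfold Rp
    rw [mul_sum]
    apply sum_congr rfl
    intro l hl1
    have hl0 : l ≠ 0 := (mem_filter.mp hl1).2
    have hm : ∀ x : ZMod q, x ≠ 0 → mx x = nn x := by
      intro x hx
      unfold mx
      apply max_eq_right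
      have : nn x ≠ 0 := by
        unfold nn
        rw [Ne, Int.natAbs_eq_zero, ZMod.valMinAbs_eq_zero]
        exact hx
      exact_mod_cast Nat.one_le_iff_ne_zero.mpr this
    rw [f0, f1, f2, hm _ (mul_ne_zero hl0 ha), hm _ hl0, hm _ (mul_ne_zero hl0 hw)]
    rw [mul_one_div]
  rw [hRp]
  have hq2 : (q:ℝ) ^ 2 ≤ 4 * 2 ^ (2 * La q) := by
    have h1 : q < 2 ^ (La q + 1) := Nat.lt_pow_succ_log_self (by norm_num) _
    have h2 : (q:ℝ) ≤ 2 ^ (La q + 1) := by exact_mod_cast h1.le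
    calc (q:ℝ) ^ 2 ≤ (2 ^ (La q + 1)) ^ 2 := pow_le_pow_left₀ (by positivity) h2 2
      _ = 4 * 2 ^ (2 * La q) := by ring
  have h3 : ((La q : ℝ) + 1) ^ 3 ≤ 8 * (La q : ℝ) ^ 3 := by
    calc ((La q : ℝ) + 1) ^ 3 ≤ (2 * (La q : ℝ)) ^ 3 :=
          pow_le_pow_left₀ (by positivity) (by linarith) 3
      _ = _ := by ring
  calc (q:ℝ) ^ 2 * _ ≤ (4 * 2 ^ (2 * La q)) * (64 * ((La q : ℝ) + 1) ^ 3 / 2 ^ (2 * La q - k2 q)) :=
        mul_le_mul hq2 h (sum_nonneg fun l _ => by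
          have := fun x : ZMod q => (zero_lt_one.trans_le (le_max_left 1 (nn x : ℝ)))
          unfold mx
          exact (div_pos one_pos (mul_pos (mul_pos (this _) (this _)) (this _))).le) (by positivity)
    _ = 256 * ((La q : ℝ) + 1) ^ 3 * 2 ^ k2 q := by
        have : (2:ℝ) ^ (2 * La q) = 2 ^ (2 * La q - k2 q) * 2 ^ k2 q := by
          rw [← pow_add]; congr 1; omega
        rw [this]
        field_simp
        ring
    _ ≤ 256 * (8 * (La q : ℝ) ^ 3) * 2 ^ k2 q := by gcongr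
    _ = _ := by ring

theorem sup_Rl : ∃ C : ℝ, 0 < C ∧ ∃ q₀ : ℕ, ∀ q : ℕ, q₀ ≤ q → ∀ hq : Fact q.Prime,
    ∀ α b : ZMod q, lgood α b → Rl α b ≤ C * (La q : ℝ) ^ 3 * 2 ^ k1 q := by
  classical
  obtain ⟨q₀, hq₀⟩ := H2.La_large 44
  refine ⟨1024, by norm_num, q₀, ?_⟩
  intro q hqq hq α b hg
  have hLa : k1 q < La q := hq₀ q hqq
  have hLa1 : (1:ℝ) ≤ La q := by exact_mod_cast (by omega : 1 ≤ La q)
  set φ : Fin 3 → ZMod q × ZMod q →+ ZMod q := fun i =>
    if i = 0 then (AddMonoidHom.mulLeft α).comp (AddMonoidHom.fst _ _) +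
      (AddMonoidHom.mulLeft b).comp (AddMonoidHom.snd _ _) else
      if i = 1 then AddMonoidHom.fst _ _ else AddMonoidHom.snd _ _ with hφ
  have f0 : ∀ l : ZMod q × ZMod q, φ 0 l = α * l.1 + b * l.2 := fun l => rfl
  have f1 : ∀ l : ZMod q × ZMod q, φ 1 l = l.1 := fun l => rfl
  have f2 : ∀ l : ZMod q × ZMod q, φ 2 l = l.2 := fun l => rfl
  obtain ⟨hα, hb, hl⟩ := hg
  have hgood : ∀ l : ZMod q × ZMod q, l ≠ 0 →
      La q - k1 q ≤ dl (φ 0 l) + dl (φ 1 l) + dl (φ 2 l) := by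
    intro l hl0
    have h := hl l.1 l.2 (by
      by_contra hc
      push Not at hc
      exact hl0 (Prod.ext hc.1 hc.2))
    rw [f0, f1, f2]
    omega
  have h := H2.sum_le φ (N := La q - k1 q) (by omega) hgood
  have hRl : Rl α b = (q:ℝ) * ∑ l ∈ (univ : Finset (ZMod q × ZMod q)).filter (fun l => l ≠ 0),
      1 / (mx (φ 0 l) * mx (φ 1 l) * mx (φ 2 l)) := by
    unfold Rl
    rw [mul_sum]
    apply sum_congr (by congr)
    intro l _
    rw [f0, f1, f2, mul_one_div]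
  rw [hRl]
  have hq2 : (q:ℝ) ≤ 2 * 2 ^ (La q) := by
    have h1 : q < 2 ^ (La q + 1) := Nat.lt_pow_succ_log_self (by norm_num) _
    have h2 : (q:ℝ) ≤ 2 ^ (La q + 1) := by exact_mod_cast h1.le
    calc (q:ℝ) ≤ 2 ^ (La q + 1) := h2
      _ = 2 * 2 ^ (La q) := by ring
  have h3 : ((La q : ℝ) + 1) ^ 3 ≤ 8 * (La q : ℝ) ^ 3 := by
    calc ((La q : ℝ) + 1) ^ 3 ≤ (2 * (La q : ℝ)) ^ 3 :=
          pow_le_pow_left₀ (by positivity) (by linarith) 3
      _ = _ := by ring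
  calc (q:ℝ) * _ ≤ (2 * 2 ^ (La q)) * (64 * ((La q : ℝ) + 1) ^ 3 / 2 ^ (La q - k1 q)) :=
        mul_le_mul hq2 h (sum_nonneg fun l _ => by
          have := fun x : ZMod q => (zero_lt_one.trans_le (le_max_left 1 (nn x : ℝ)))
          unfold mx
          exact (div_pos one_pos (mul_pos (mul_pos (this _) (this _)) (this _))).le) (by positivity)
    _ = 128 * ((La q : ℝ) + 1) ^ 3 * 2 ^ k1 q := by
        have : (2:ℝ) ^ (La q) = 2 ^ (La q - k1 q) * 2 ^ k1 q := by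
          rw [← pow_add]; congr 1; omega
        rw [this]
        field_simp
        ring
    _ ≤ 128 * (8 * (La q : ℝ) ^ 3) * 2 ^ k1 q := by gcongr
    _ = _ := by ring

end Pool.Agent.H935R2.PS
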