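import Pool.Agent.H935R2.PS.ASdef
import Pool.Agent.H935R2.PS.H4
import Pool.Agent.H935R2.PS.H5
import Pool.Agent.H935R2.PS.H6

set_option autoImplicit false

/-!
Task H6, second part: `Aset_card`.
-/

namespace Pool.Agent.H935R2.PS

open Finset Task6

theorem Aset_card : ∃ q₀ : ℕ, ∀ q : ℕ, q₀ ≤ q → ∀ hq : Fact q.Prime, ∀ b w : ZMod q, good2 b → good2 w →
    (q:ℝ) / 2 ≤ (Aset b w).card ∧ (q:ℝ) / 2 ≤ (Aset0 b).card := by
  classical
  obtain ⟨q1, hq1⟩ := bad_line_b
  obtain ⟨q2, hq2⟩ := bad_plane_w
  refine ⟨max 4 (max q1 q2), fun q hqq hq b w hb hw => ?_⟩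
  have hq4 : 4 ≤ q := le_trans (le_max_left _ _) hqq
  have hb1 := hq1 q (le_trans (le_trans (le_max_left _ _) (le_max_right _ _)) hqq) hq b hb
  have hw1 := hq2 q (le_trans (le_trans (le_max_right _ _) (le_max_right _ _)) hqq) hq w hw
  have hqr : (4:ℝ) ≤ q := by exact_mod_cast hq4
  have hsmall : (q:ℝ) / 2 ^ (38 * uu q) ≤ q / 16 := by
    apply div_le_div_of_nonneg_left (by linarith) (by norm_num)
    calc (16:ℝ) = 2 ^ 4 := by norm_num
      _ ≤ 2 ^ (38 * uu q) := pow_le_pow_right₀ (by norm_num) (by have := uu_pos q; omega)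
  have hcard : ((univ : Finset (ZMod q)).card : ℝ) = q := by
    rw [card_univ, ZMod.card]
  have key : ∀ A : Finset (ZMod q), ∀ B : Finset (ZMod q), univ ⊆ A ∪ B →
      (q:ℝ) ≤ A.card + B.card := by
    intro A B h
    rw [← hcard]
    exact_mod_cast (card_le_card h).trans (card_union_le A B)
  constructor
  · have h1 := key (Aset b w) ({0} ∪ (univ.filter (fun α => α ≠ 0 ∧ ¬ lgood α b) ∪
      univ.filter (fun a => a ≠ 0 ∧ ¬ pgood a w))) (by
        intro x _
        rw [mem_union]
        by_cases hx : x ∈ Aset b w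
        · exact Or.inl hx
        · right
          unfold Aset at hx
          rw [mem_filter] at hx
          rw [mem_union, mem_union, mem_filter, mem_filter, mem_singleton]
          by_cases h0 : x = 0
          · exact Or.inl h0
          · right
            by_cases hl : lgood x b
            · right
              exact ⟨mem_univ _, h0, fun hp => hx ⟨mem_univ _, hl, hp⟩⟩
            · left
              exact ⟨mem_univ _, h0, hl⟩)
    have h2 : ((({0} : Finset (ZMod q)) ∪ (univ.filter (fun α => α ≠ 0 ∧ ¬ lgood α b) ∪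
      univ.filter (fun a => a ≠ 0 ∧ ¬ pgood a w))).card : ℝ) ≤ 1 + (q / 16 + q / 16) := by
      have h3 : (({0} : Finset (ZMod q)) ∪ (univ.filter (fun α => α ≠ 0 ∧ ¬ lgood α b) ∪
        univ.filter (fun a => a ≠ 0 ∧ ¬ pgood a w))).card ≤
          1 + ((univ.filter (fun α : ZMod q => α ≠ 0 ∧ ¬ lgood α b)).card +
            (univ.filter (fun a : ZMod q => a ≠ 0 ∧ ¬ pgood a w)).card) := by
        refine (card_union_le _ _).trans ?_
        rw [card_singleton]
        exact Nat.add_le_add_left (card_union_le _ _) 1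
      have h4 : ((({0} : Finset (ZMod q)) ∪ (univ.filter (fun α => α ≠ 0 ∧ ¬ lgood α b) ∪
        univ.filter (fun a => a ≠ 0 ∧ ¬ pgood a w))).card : ℝ) ≤
          1 + (((univ.filter (fun α : ZMod q => α ≠ 0 ∧ ¬ lgood α b)).card : ℝ) +
            ((univ.filter (fun a : ZMod q => a ≠ 0 ∧ ¬ pgood a w)).card : ℝ)) := by
        exact_mod_cast h3
      linarith
    linarith
  · have h1 := key (Aset0 b) ({0} ∪ univ.filter (fun α => α ≠ 0 ∧ ¬ lgood α b)) (by
        intro x _
        rw [mem_union]
        by_cases hx : x ∈ Aset0 b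
        · exact Or.inl hx
        · right
          unfold Aset0 at hx
          rw [mem_filter] at hx
          rw [mem_union, mem_filter, mem_singleton]
          by_cases h0 : x = 0
          · exact Or.inl h0
          · right
            exact ⟨mem_univ _, h0, fun hl => hx ⟨mem_univ _, hl⟩⟩)
    have h2 : ((({0} : Finset (ZMod q)) ∪ univ.filter (fun α => α ≠ 0 ∧ ¬ lgood α b)).card : ℝ) ≤
        1 + q / 16 := by
      have h3 : (({0} : Finset (ZMod q)) ∪ univ.filter (fun α => α ≠ 0 ∧ ¬ lgood α b)).card ≤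
          1 + (univ.filter (fun α : ZMod q => α ≠ 0 ∧ ¬ lgood α b)).card := by
        refine (card_union_le _ _).trans ?_
        rw [card_singleton]
      have h4 : ((({0} : Finset (ZMod q)) ∪ univ.filter (fun α => α ≠ 0 ∧ ¬ lgood α b)).card : ℝ) ≤
          1 + ((univ.filter (fun α : ZMod q => α ≠ 0 ∧ ¬ lgood α b)).card : ℝ) := by
        exact_mod_cast h3
      linarith
    linarith

end Pool.Agent.H935R2.PS
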