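import Pool.Agent.H935R2.PS.ASdef

set_option autoImplicit false
set_option linter.unusedVariables false

/-!
# Task I1, auxiliary part: the two-step conditional mean, from the statements of other tasks
-/

namespace Pool.Agent.H935R2.PS.I1

open Finset

open Classical in
/-- the sum of `Rp` over the good values -/
noncomputable def hh {q : ℕ} [NeZero q] (w : ZMod q) : ℝ :=
  ∑ a ∈ (univ : Finset (ZMod q)).filter (fun a => pgood a w), Rp a w

open Classical in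
/-- the sum of `Rp` over the values that are good for the plane and bad for the line -/
noncomputable def E2 {q : ℕ} [NeZero q] (w b : ZMod q) : ℝ :=
  ∑ a ∈ (univ : Finset (ZMod q)).filter (fun a => pgood a w ∧ ¬ lgood a b), Rp a w

theorem Rp_nonneg {q : ℕ} [NeZero q] (a w : ZMod q) : 0 ≤ Rp a w := by
  unfold Rp
  exact Finset.sum_nonneg (fun l _ => by positivity)

theorem hh_nonneg {q : ℕ} [NeZero q] (w : ZMod q) : 0 ≤ hh w :=
  Finset.sum_nonneg (fun _ _ => Rp_nonneg _ _)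

theorem E2_nonneg {q : ℕ} [NeZero q] (w b : ZMod q) : 0 ≤ E2 w b :=
  Finset.sum_nonneg (fun _ _ => Rp_nonneg _ _)

open Classical in
theorem inner {q : ℕ} [NeZero q] (w b : ZMod q) (K : ℝ) (X : ZMod q → ℝ)
    (hX : ∀ a, pgood a w → |X a| ≤ Rp a w)
    (hA : (q:ℝ) / 2 ≤ (Aset b w).card) (hB : (q:ℝ) - (Aset b w).card ≤ 3 * q / K) (hK : 0 < K) :
    |(∑ a ∈ Aset b w, X a) / (Aset b w).card -
      (∑ a ∈ (univ : Finset (ZMod q)).filter (fun a => pgood a w), X a) / q| ≤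
      6 / (q * K) * hh w + E2 w b / q := by
  have hq : (0:ℝ) < q := by exact_mod_cast (NeZero.pos q)
  set A : ℝ := ((Aset b w).card : ℝ) with hAdef
  have hApos : 0 < A := by linarith [half_pos hq]
  have hAq : A ≤ q := by
    have h := Finset.card_le_univ (Aset b w)
    rw [ZMod.card] at h
    rw [hAdef]
    exact Nat.cast_le.2 h
  set s := ∑ a ∈ Aset b w, X a with hs
  set H := ∑ a ∈ (univ : Finset (ZMod q)).filter (fun a => pgood a w), X a with hH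
  have hsplit : H = s + ∑ a ∈ (univ : Finset (ZMod q)).filter (fun a => pgood a w ∧ ¬ lgood a b), X a := by
    rw [hH, hs, ← Finset.sum_filter_add_sum_filter_not _ (fun a => lgood a b)]
    congr 1
    · apply Finset.sum_congr _ (fun _ _ => rfl)
      ext a
      simp only [Aset, Finset.mem_filter, Finset.mem_univ, true_and]
      tauto
    · rw [Finset.filter_filter]
  have h1 : |s| ≤ hh w := by
    calc |s| ≤ ∑ a ∈ Aset b w, |X a| := Finset.abs_sum_le_sum_abs _ _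
      _ ≤ ∑ a ∈ Aset b w, Rp a w := Finset.sum_le_sum (fun a ha => by
          refine hX a ?_
          simp only [Aset, Finset.mem_filter, Finset.mem_univ, true_and] at ha
          exact ha.2)
      _ ≤ hh w := by
          unfold hh
          apply Finset.sum_le_sum_of_subset_of_nonneg
          · intro a ha
            simp only [Aset, Finset.mem_filter, Finset.mem_univ, true_and] at ha ⊢
            exact ha.2
          · intro _ _ _; exact Rp_nonneg _ _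
  have h2 : |H - s| ≤ E2 w b := by
    rw [hsplit, add_sub_cancel_left]
    calc |∑ a ∈ (univ : Finset (ZMod q)).filter (fun a => pgood a w ∧ ¬ lgood a b), X a|
        ≤ ∑ a ∈ (univ : Finset (ZMod q)).filter (fun a => pgood a w ∧ ¬ lgood a b), |X a| :=
          Finset.abs_sum_le_sum_abs _ _
      _ ≤ E2 w b := Finset.sum_le_sum (fun a ha => by
          refine hX a ?_
          simp only [Finset.mem_filter, Finset.mem_univ, true_and] at ha
          exact ha.1)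
  have h3 : 0 ≤ 1 / A - 1 / q := by
    have : 1 / (q:ℝ) ≤ 1 / A := one_div_le_one_div_of_le hApos hAq
    linarith
  have h4 : 1 / A - 1 / q ≤ 6 / (q * K) := by
    have : 1 / A - 1 / (q:ℝ) = (q - A) / (A * q) := by field_simp
    rw [this, div_le_div_iff₀ (by positivity) (by positivity)]
    have h5 : (q - A) * K ≤ 3 * q := by
      rw [le_div_iff₀ hK] at hB
      exact hB
    calc (q - A) * (q * K) = ((q - A) * K) * q := by ring
      _ ≤ (3 * q) * q := mul_le_mul_of_nonneg_right h5 hq.le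
      _ = 6 * ((q / 2) * q) := by ring
      _ ≤ 6 * (A * q) := by
          have := mul_le_mul_of_nonneg_right hA hq.le
          linarith
  have h6 : s / A - H / q = s * (1 / A - 1 / q) - (H - s) / q := by
    field_simp
    ring
  rw [h6]
  calc |s * (1 / A - 1 / q) - (H - s) / q| ≤ |s * (1 / A - 1 / q)| + |(H - s) / q| := abs_sub _ _
    _ = |s| * (1 / A - 1 / q) + |H - s| / q := by
        rw [abs_mul, abs_of_nonneg h3, abs_div, abs_of_pos hq]
    _ ≤ hh w * (6 / (q * K)) + E2 w b / q := by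
        apply add_le_add
        · exact mul_le_mul h1 h4 h3 (hh_nonneg w)
        · exact div_le_div_of_nonneg_right h2 hq.le
    _ = _ := by ring

open Classical in
theorem outer {q : ℕ} [Fact q.Prime] (b'' b : ZMod q) (hb'' : b'' ≠ 0) (A' : Finset (ZMod q))
    (hA' : (q:ℝ) / 2 ≤ A'.card) (hg : ∀ x ∈ A', good2 (-x / b''))
    (K Cm : ℝ) (hK : 0 < K) (X : ZMod q → ZMod q → ℝ)
    (hX : ∀ a w, pgood a w → |X a w| ≤ Rp a w)
    (hm : |∑ p ∈ (univ : Finset (ZMod q × ZMod q)).filter (fun p => pgood p.1 p.2), X p.1 p.2| ≤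
      Cm * (q:ℝ) ^ 2)
    (hA : ∀ w, good2 w → (q:ℝ) / 2 ≤ (Aset b w).card)
    (hB : ∀ w, good2 w → (q:ℝ) - (Aset b w).card ≤ 3 * q / K) :
    |(∑ x ∈ A', (∑ a ∈ Aset b (-x / b''), X a (-x / b'')) / (Aset b (-x / b'')).card) / A'.card| ≤
      2 * Cm + 2 / (q:ℝ) ^ 2 * (∑ w, hh w * (if - w * b'' ∈ A' then 0 else 1)) +
        12 / ((q:ℝ) ^ 2 * K) * (∑ w : ZMod q, hh w) + 2 / (q:ℝ) ^ 2 * ∑ w, E2 w b := by
  have hq : (0:ℝ) < q := by exact_mod_cast (NeZero.pos q)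
  have hApos : (0:ℝ) < A'.card := by linarith [half_pos hq]
  -- the bijection
  let e : ZMod q ≃ ZMod q :=
    { toFun := fun x => -x / b''
      invFun := fun w => -w * b''
      left_inv := fun x => by field_simp
      right_inv := fun w => by field_simp }
  have he : ∀ x, e x = -x / b'' := fun x => rfl
  set H : ZMod q → ℝ := fun w => ∑ a ∈ (univ : Finset (ZMod q)).filter (fun a => pgood a w), X a w
    with hHdef
  have hH : ∀ w, |H w| ≤ hh w := fun w => by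
    refine (Finset.abs_sum_le_sum_abs _ _).trans ?_
    refine Finset.sum_le_sum (fun a ha => hX a w ?_)
    simp only [Finset.mem_filter, Finset.mem_univ, true_and] at ha
    exact ha
  have hHsum : |∑ w, H w| ≤ Cm * (q:ℝ) ^ 2 := by
    have : ∑ w, H w = ∑ p ∈ (univ : Finset (ZMod q × ZMod q)).filter (fun p => pgood p.1 p.2), X p.1 p.2 := by
      rw [Finset.sum_filter, ← Finset.univ_product_univ, Finset.sum_product_right]
      refine Finset.sum_congr rfl (fun w _ => ?_)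
      rw [hHdef]
      simp only
      rw [Finset.sum_filter]
    rw [this]; exact hm
  set F : ZMod q → ℝ := fun w => (∑ a ∈ Aset b w, X a w) / (Aset b w).card with hF
  set ε : ZMod q → ℝ := fun w => 6 / (q * K) * hh w + E2 w b / q with hε
  have hε0 : ∀ w, 0 ≤ ε w := fun w => by
    have := hh_nonneg w
    have := E2_nonneg w b
    positivity
  have hin : ∀ x ∈ A', |F (e x) - H (e x) / q| ≤ ε (e x) := fun x hx =>
    inner (e x) b K (fun a => X a (e x)) (fun a ha => hX a _ ha) (hA _ (hg x hx)) (hB _ (hg x hx)) hK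
  have hsumF : |∑ x ∈ A', F (e x)| ≤ |∑ x ∈ A', H (e x)| / q + ∑ w, ε w := by
    have h1 : ∑ x ∈ A', F (e x) = (∑ x ∈ A', H (e x)) / q + ∑ x ∈ A', (F (e x) - H (e x) / q) := by
      rw [Finset.sum_sub_distrib, Finset.sum_div]
      ring
    rw [h1]
    refine (abs_add_le _ _).trans ?_
    apply add_le_add
    · rw [abs_div, abs_of_pos hq]
    · calc |∑ x ∈ A', (F (e x) - H (e x) / q)| ≤ ∑ x ∈ A', |F (e x) - H (e x) / q| :=
            Finset.abs_sum_le_sum_abs _ _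
        _ ≤ ∑ x ∈ A', ε (e x) := Finset.sum_le_sum hin
        _ ≤ ∑ x, ε (e x) := Finset.sum_le_sum_of_subset_of_nonneg (Finset.subset_univ _)
            (fun _ _ _ => hε0 _)
        _ = ∑ w, ε w := Equiv.sum_comp e ε
  have hsumH : |∑ x ∈ A', H (e x)| ≤ Cm * (q:ℝ) ^ 2 +
      ∑ w, hh w * (if - w * b'' ∈ A' then 0 else 1) := by
    have h1 : ∑ x ∈ A', H (e x) = ∑ w, H w - ∑ x, (if x ∈ A' then 0 else H (e x)) := by
      rw [← Equiv.sum_comp e H, ← Finset.sum_sub_distrib, ← Finset.sum_filter_add_sum_filter_not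
        (s := (univ : Finset (ZMod q))) (p := fun x => x ∈ A')]
      have h2 : (univ : Finset (ZMod q)).filter (fun x => x ∈ A') = A' := by ext; simp
      rw [h2]
      have h3 : ∑ x ∈ A', (H (e x) - if x ∈ A' then 0 else H (e x)) = ∑ x ∈ A', H (e x) :=
        Finset.sum_congr rfl (fun x hx => by rw [if_pos hx, sub_zero])
      have h4 : ∑ x ∈ (univ : Finset (ZMod q)).filter (fun x => ¬ x ∈ A'),
          (H (e x) - if x ∈ A' then 0 else H (e x)) = 0 :=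
        Finset.sum_eq_zero (fun x hx => by
          rw [if_neg (Finset.mem_filter.1 hx).2, sub_self])
      rw [h3, h4, add_zero]
    rw [h1]
    refine (abs_sub _ _).trans ?_
    apply add_le_add hHsum
    calc |∑ x, (if x ∈ A' then 0 else H (e x))| ≤ ∑ x, |if x ∈ A' then 0 else H (e x)| :=
          Finset.abs_sum_le_sum_abs _ _
      _ ≤ ∑ x, hh (e x) * (if x ∈ A' then 0 else 1) := by
          refine Finset.sum_le_sum (fun x _ => ?_)
          split_ifs with h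
          · simp
          · rw [mul_one]; exact hH _
      _ = ∑ x, (fun w => hh w * (if - w * b'' ∈ A' then (0:ℝ) else 1)) (e x) := by
          refine Finset.sum_congr rfl (fun x _ => ?_)
          have : - (e x) * b'' = x := e.left_inv x
          simp only [this]
      _ = _ := Equiv.sum_comp e (fun w => hh w * (if - w * b'' ∈ A' then (0:ℝ) else 1))
  rw [abs_div, abs_of_pos hApos, div_le_iff₀ hApos]
  have hmain : |∑ x ∈ A', F (e x)| ≤ (Cm * (q:ℝ) ^ 2 +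
      ∑ w, hh w * (if - w * b'' ∈ A' then 0 else 1)) / q + ∑ w, ε w :=
    hsumF.trans (by gcongr)
  have hεsum : ∑ w, ε w = 6 / (q * K) * (∑ w : ZMod q, hh w) + (∑ w, E2 w b) / q := by
    simp only [hε]
    rw [Finset.sum_add_distrib, ← Finset.mul_sum, Finset.sum_div]
  rw [hεsum] at hmain
  have hI0 : 0 ≤ ∑ w, hh w * (if - w * b'' ∈ A' then (0:ℝ) else 1) :=
    Finset.sum_nonneg (fun w _ => by
      have := hh_nonneg w
      split_ifs <;> positivity)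
  have hhs : 0 ≤ ∑ w : ZMod q, hh w := Finset.sum_nonneg (fun w _ => hh_nonneg w)
  have hE2s : 0 ≤ ∑ w, E2 w b := Finset.sum_nonneg (fun w _ => E2_nonneg w b)
  have hCm : 0 ≤ Cm * (q:ℝ) ^ 2 := (abs_nonneg _).trans hm
  have hCm' : 0 ≤ Cm := by
    by_contra h
    push Not at h
    have : Cm * (q:ℝ) ^ 2 < 0 := mul_neg_of_neg_of_pos h (by positivity)
    linarith
  refine hmain.trans ?_
  set I := ∑ w, hh w * (if - w * b'' ∈ A' then (0:ℝ) else 1)
  set T := ∑ w : ZMod q, hh w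
  set V := ∑ w, E2 w b
  have hrhs : (Cm * (q:ℝ) ^ 2 + I) / q + (6 / (q * K) * T + V / q) =
      (2 * Cm + 2 / (q:ℝ) ^ 2 * I + 12 / ((q:ℝ) ^ 2 * K) * T + 2 / (q:ℝ) ^ 2 * V) * (q / 2) := by
    field_simp
    ring
  rw [hrhs]
  apply mul_le_mul_of_nonneg_left hA'
  positivity

/-! ### Summation -/

open Classical in
/-- indicator function -/
noncomputable def ind (P : Prop) : ℝ := if P then 1 else 0

theorem ind_nonneg (P : Prop) : 0 ≤ ind P := by
  unfold ind; split_ifs <;> norm_num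

theorem ind_true {P : Prop} (h : P) : ind P = 1 := if_pos h
theorem ind_false {P : Prop} (h : ¬ P) : ind P = 0 := if_neg h

open Classical in
theorem sum_ind {α : Type*} [Fintype α] (P : α → Prop) :
    ∑ x, ind (P x) = ((univ : Finset α).filter P).card := by
  unfold ind
  rw [Finset.sum_boole]

open Classical in
/-- the facts from the other tasks, for a fixed modulus -/
structure Facts (q : ℕ) [Fact q.Prime] (C : ℝ) : Prop where
  C0 : 0 ≤ C
  La1 : 1 ≤ La q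
  big : (2:ℝ) ^ (38 * uu q) ≤ q
  Lalt : (La q : ℝ) ^ 3 ≤ 2 ^ (38 * uu q)
  mean : ∀ (c c' : ZMod q) (t1 t2 t3 : ℕ), t1 < q → t2 < q → t3 < q →
    |∑ p ∈ (univ : Finset (ZMod q × ZMod q)).filter (fun p => pgood p.1 p.2), Xp c c' p.1 p.2 t1 t2 t3|
      ≤ C * (La q * √(La q)) * (q:ℝ) ^ 2
  sumRp : ∑ p ∈ (univ : Finset (ZMod q × ZMod q)).filter (fun p => p.1 ≠ 0 ∧ p.2 ≠ 0), Rp p.1 p.2 ≤
      C * (La q : ℝ) ^ 3 * (q:ℝ) ^ 2
  bpw : ∀ w : ZMod q, good2 w →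
    (((univ : Finset (ZMod q)).filter (fun a => a ≠ 0 ∧ ¬ pgood a w)).card : ℝ) ≤ q / 2 ^ (38 * uu q)
  bpa : ∀ a : ZMod q, good2 a →
    (((univ : Finset (ZMod q)).filter (fun w => w ≠ 0 ∧ ¬ pgood a w)).card : ℝ) ≤ q / 2 ^ (38 * uu q)
  blb : ∀ b : ZMod q, good2 b →
    (((univ : Finset (ZMod q)).filter (fun α => α ≠ 0 ∧ ¬ lgood α b)).card : ℝ) ≤ q / 2 ^ (38 * uu q)
  bla : ∀ a : ZMod q, good2 a →
    (((univ : Finset (ZMod q)).filter (fun b => b ≠ 0 ∧ ¬ lgood a b)).card : ℝ) ≤ q / 2 ^ (38 * uu q)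
  blw : ∀ w : ZMod q, good2 w →
    (((univ : Finset (ZMod q)).filter (fun b => b ≠ 0 ∧ ¬ lgood (-w * b) b)).card : ℝ) ≤
      q / 2 ^ (38 * uu q)
  lg : ∀ α b : ZMod q, lgood α b → good2 α ∧ good2 b ∧ good2 (-α / b)
  pg : ∀ a w : ZMod q, pgood a w → good2 a ∧ good2 w ∧ good2 (a / w)
  Ac : ∀ b w : ZMod q, good2 b → good2 w →
    (q:ℝ) / 2 ≤ (Aset b w).card ∧ (q:ℝ) / 2 ≤ (Aset0 b).card
  Xpl : ∀ (c c' a w : ZMod q), a ≠ 0 → w ≠ 0 → ∀ (t1 t2 t3 : ℕ), t1 < q → t2 < q → t3 < q →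
    |Xp c c' a w t1 t2 t3| ≤ Rp a w

namespace Facts
variable {q : ℕ} [Fact q.Prime] {C : ℝ} (F : Facts q C)
include F

theorem hh_eq_zero {w : ZMod q} (hw : ¬ good2 w) : hh w = 0 := by
  classical
  unfold hh
  rw [Finset.filter_eq_empty_iff.2 (fun a _ ha => hw (F.pg a w ha).2.1), Finset.sum_empty]

theorem sum_hh : ∑ w : ZMod q, hh w ≤ C * (La q : ℝ) ^ 3 * (q:ℝ) ^ 2 := by
  classical
  refine le_trans ?_ F.sumRp
  have h1 : ∑ w : ZMod q, hh w =
      ∑ p ∈ (univ : Finset (ZMod q × ZMod q)).filter (fun p => pgood p.1 p.2), Rp p.1 p.2 := by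
    rw [Finset.sum_filter, ← Finset.univ_product_univ, Finset.sum_product_right]
    refine Finset.sum_congr rfl (fun w _ => ?_)
    unfold hh
    rw [Finset.sum_filter]
  rw [h1]
  apply Finset.sum_le_sum_of_subset_of_nonneg
  · intro p hp
    simp only [Finset.mem_filter, Finset.mem_univ, true_and] at hp ⊢
    exact ⟨hp.1, hp.2.1⟩
  · intro _ _ _; exact Rp_nonneg _ _

theorem complA {b w : ZMod q} (hb : good2 b) (hw : good2 w) :
    (q:ℝ) - (Aset b w).card ≤ 3 * q / 2 ^ (38 * uu q) := by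
  classical
  have h1 : (univ : Finset (ZMod q)) ⊆ Aset b w ∪ ({0} ∪
      ((univ : Finset (ZMod q)).filter (fun a => a ≠ 0 ∧ ¬ pgood a w) ∪
       (univ : Finset (ZMod q)).filter (fun α => α ≠ 0 ∧ ¬ lgood α b))) := by
    intro a _
    simp only [Aset, Finset.mem_union, Finset.mem_filter, Finset.mem_univ, true_and,
      Finset.mem_singleton]
    tauto
  have h2 := Finset.card_le_card h1
  rw [Finset.card_univ, ZMod.card] at h2
  have h3 : (q:ℝ) ≤ (Aset b w).card + (1 + (((univ : Finset (ZMod q)).filter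
      (fun a => a ≠ 0 ∧ ¬ pgood a w)).card + ((univ : Finset (ZMod q)).filter
      (fun α => α ≠ 0 ∧ ¬ lgood α b)).card)) := by
    have h4 := h2.trans ((Finset.card_union_le _ _).trans (Nat.add_le_add_left
      ((Finset.card_union_le _ _).trans (Nat.add_le_add_left (Finset.card_union_le _ _) _)) _))
    rw [Finset.card_singleton] at h4
    exact_mod_cast h4
  have h5 := F.bpw w hw
  have h6 := F.blb b hb
  have h7 : (1:ℝ) ≤ q / 2 ^ (38 * uu q) := by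
    rw [le_div_iff₀ (by positivity), one_mul]; exact F.big
  have h8 : 3 * (q:ℝ) / 2 ^ (38 * uu q) = q / 2 ^ (38 * uu q) + q / 2 ^ (38 * uu q) +
      q / 2 ^ (38 * uu q) := by ring
  rw [h8]
  linarith

/-- lines: first cell of a row -/
theorem cnt0 {w : ZMod q} (hw : good2 w) :
    ∑ b'' : ZMod q, ind (good2 b'' ∧ - w * b'' ∉ Aset0 b'') ≤ q / 2 ^ (38 * uu q) := by
  classical
  rw [sum_ind]
  refine le_trans ?_ (F.blw w hw)
  apply Nat.cast_le.2
  apply Finset.card_le_card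
  intro b hb
  simp only [Aset0, Finset.mem_filter, Finset.mem_univ, true_and] at hb ⊢
  exact ⟨hb.1.1, hb.2⟩

theorem cnt {w : ZMod q} (hw : good2 w) :
    ∑ b'' : ZMod q, ∑ w' : ZMod q, ind (good2 b'' ∧ good2 w' ∧ - w * b'' ∉ Aset b'' w') ≤
      2 * q * (q / 2 ^ (38 * uu q)) := by
  classical
  have hq : (0:ℝ) < q := by exact_mod_cast (NeZero.pos q)
  have h1 : ∀ b'' w' : ZMod q, ind (good2 b'' ∧ good2 w' ∧ - w * b'' ∉ Aset b'' w') ≤
      ind (b'' ≠ 0 ∧ ¬ lgood (- w * b'') b'') +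
        ind (good2 (- w * b'') ∧ w' ≠ 0 ∧ ¬ pgood (- w * b'') w') := by
    intro b'' w'
    by_cases h : good2 b'' ∧ good2 w' ∧ - w * b'' ∉ Aset b'' w'
    · rw [ind_true h]
      by_cases h2 : lgood (- w * b'') b''
      · have h3 : ¬ pgood (- w * b'') w' := by
          intro h4
          apply h.2.2
          simp only [Aset, Finset.mem_filter, Finset.mem_univ, true_and]
          exact ⟨h2, h4⟩
        rw [ind_true (P := good2 (- w * b'') ∧ w' ≠ 0 ∧ ¬ pgood (- w * b'') w')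
          ⟨(F.lg _ _ h2).1, h.2.1.1, h3⟩]
        linarith [ind_nonneg (b'' ≠ 0 ∧ ¬ lgood (- w * b'') b'')]
      · rw [ind_true (P := b'' ≠ 0 ∧ ¬ lgood (- w * b'') b'') ⟨h.1.1, h2⟩]
        linarith [ind_nonneg (good2 (- w * b'') ∧ w' ≠ 0 ∧ ¬ pgood (- w * b'') w')]
    · rw [ind_false h]
      exact add_nonneg (ind_nonneg _) (ind_nonneg _)
  have h2 : ∑ b'' : ZMod q, ∑ w' : ZMod q, ind (good2 b'' ∧ good2 w' ∧ - w * b'' ∉ Aset b'' w') ≤
      ∑ b'' : ZMod q, (q * ind (b'' ≠ 0 ∧ ¬ lgood (- w * b'') b'') + q / 2 ^ (38 * uu q)) := by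
    refine Finset.sum_le_sum (fun b'' _ => ?_)
    refine (Finset.sum_le_sum (fun w' _ => h1 b'' w')).trans ?_
    rw [Finset.sum_add_distrib, Finset.sum_const, Finset.card_univ, ZMod.card, nsmul_eq_mul]
    apply add_le_add le_rfl
    by_cases h3 : good2 (- w * b'')
    · refine le_trans ?_ (F.bpa _ h3)
      rw [sum_ind]
      apply Nat.cast_le.2
      apply Finset.card_le_card
      intro x hx
      simp only [Finset.mem_filter, Finset.mem_univ, true_and] at hx ⊢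
      exact hx.2
    · have : ∑ x : ZMod q, ind (good2 (- w * b'') ∧ x ≠ 0 ∧ ¬ pgood (- w * b'') x) = 0 :=
        Finset.sum_eq_zero (fun x _ => ind_false (fun h => h3 h.1))
      rw [this]; positivity
  refine h2.trans ?_
  rw [Finset.sum_add_distrib, ← Finset.mul_sum, Finset.sum_const, Finset.card_univ, ZMod.card,
    nsmul_eq_mul]
  have h4 : ∑ b'' : ZMod q, ind (b'' ≠ 0 ∧ ¬ lgood (- w * b'') b'') ≤ q / 2 ^ (38 * uu q) := by
    refine le_trans ?_ (F.blw w hw)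
    rw [sum_ind]
    apply Nat.cast_le.2
    apply Finset.card_le_card
    intro x hx
    simp only [Finset.mem_filter, Finset.mem_univ, true_and] at hx ⊢
    exact hx
  have h3 := mul_le_mul_of_nonneg_left h4 hq.le
  linarith

/-- the sum over `b` of the third term -/
theorem cntE : ∑ b : ZMod q, ∑ w : ZMod q, ind (good2 b) * E2 w b ≤
    (q / 2 ^ (38 * uu q)) * ∑ w : ZMod q, hh w := by
  classical
  have hq : (0:ℝ) < q := by exact_mod_cast (NeZero.pos q)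
  rw [Finset.sum_comm, Finset.mul_sum]
  refine Finset.sum_le_sum (fun w _ => ?_)
  have h1 : ∀ b : ZMod q, ind (good2 b) * E2 w b =
      ∑ a ∈ (univ : Finset (ZMod q)).filter (fun a => pgood a w),
        ind (good2 b ∧ ¬ lgood a b) * Rp a w := by
    intro b
    unfold E2
    rw [Finset.mul_sum, Finset.sum_filter, Finset.sum_filter]
    refine Finset.sum_congr rfl (fun a _ => ?_)
    by_cases h1 : pgood a w <;> by_cases h2 : lgood a b <;> by_cases h3 : good2 b <;>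
      simp [ind, h1, h2, h3]
  rw [Finset.sum_congr rfl (fun b _ => h1 b), Finset.sum_comm]
  unfold hh
  rw [Finset.mul_sum]
  refine Finset.sum_le_sum (fun a ha => ?_)
  rw [← Finset.sum_mul]
  apply mul_le_mul_of_nonneg_right _ (Rp_nonneg _ _)
  have hga : good2 a := (F.pg a w (Finset.mem_filter.1 ha).2).1
  refine le_trans ?_ (F.bla a hga)
  rw [sum_ind]
  apply Nat.cast_le.2
  apply Finset.card_le_card
  intro x hx
  simp only [Finset.mem_filter, Finset.mem_univ, true_and] at hx ⊢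
  exact ⟨hx.1.1, hx.2⟩

theorem kq : (La q : ℝ) ^ 3 / 2 ^ (38 * uu q) ≤ 1 := by
  rw [div_le_one (by positivity)]; exact F.Lalt

theorem L1 : (1:ℝ) ≤ La q * √(La q) := by
  have h1 : (1:ℝ) ≤ La q := by exact_mod_cast F.La1
  have h2 : (1:ℝ) ≤ √(La q) := by
    rw [Real.one_le_sqrt]; exact h1
  nlinarith

/-- the sum of `hh` divided by the small proportion -/
theorem shK : (∑ w : ZMod q, hh w) / 2 ^ (38 * uu q) ≤ C * (q:ℝ) ^ 2 := by
  have h1 := F.sum_hh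
  have h2 := F.kq
  have hC := F.C0
  calc (∑ w : ZMod q, hh w) / 2 ^ (38 * uu q)
      ≤ (C * (La q : ℝ) ^ 3 * (q:ℝ) ^ 2) / 2 ^ (38 * uu q) := by gcongr
    _ = C * (q:ℝ) ^ 2 * ((La q : ℝ) ^ 3 / 2 ^ (38 * uu q)) := by ring
    _ ≤ C * (q:ℝ) ^ 2 * 1 := by gcongr
    _ = C * (q:ℝ) ^ 2 := by ring

theorem key {b'' b : ZMod q} (hb'' : good2 b'') (hb : good2 b) (A' : Finset (ZMod q))
    (hA' : (q:ℝ) / 2 ≤ A'.card) (hg : ∀ x ∈ A', good2 (-x / b''))
    (P : ZMod q → Prop) (hP : ∀ w, - w * b'' ∉ A' → P w)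
    (c c' : ZMod q) (t1 t2 t3 : ℕ) (h1 : t1 < q) (h2 : t2 < q) (h3 : t3 < q) :
    |(∑ x ∈ A', (∑ a ∈ Aset b (-x / b''), Xp c c' a (-x / b'') t1 t2 t3) /
        (Aset b (-x / b'')).card) / A'.card| ≤
      2 * (C * (La q * √(La q))) + 2 / (q:ℝ) ^ 2 * (∑ w, hh w * ind (P w)) +
        12 / ((q:ℝ) ^ 2 * 2 ^ (38 * uu q)) * (∑ w : ZMod q, hh w) +
        2 / (q:ℝ) ^ 2 * ∑ w, ind (good2 b) * E2 w b := by
  classical
  have hq : (0:ℝ) < q := by exact_mod_cast (NeZero.pos q)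
  have h := outer b'' b hb''.1 A' hA' hg (2 ^ (38 * uu q)) (C * (La q * √(La q))) (by positivity)
    (fun a w => Xp c c' a w t1 t2 t3)
    (fun a w ha => F.Xpl c c' a w ha.1 ha.2.1 t1 t2 t3 h1 h2 h3)
    (F.mean c c' t1 t2 t3 h1 h2 h3)
    (fun w hw => (F.Ac b w hb hw).1) (fun w hw => F.complA hb hw)
  refine h.trans ?_
  have h4 : ∑ w, E2 w b = ∑ w, ind (good2 b) * E2 w b := by
    simp only [ind_true hb, one_mul]
  rw [h4]
  have h5 : ∑ w, hh w * (if - w * b'' ∈ A' then (0:ℝ) else 1) ≤ ∑ w, hh w * ind (P w) := by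
    refine Finset.sum_le_sum (fun w _ => ?_)
    apply mul_le_mul_of_nonneg_left _ (hh_nonneg w)
    split_ifs with h6
    · exact ind_nonneg _
    · rw [ind_true (hP w h6)]
  have h6 := mul_le_mul_of_nonneg_left h5 (show (0:ℝ) ≤ 2 / (q:ℝ) ^ 2 by positivity)
  linarith

theorem fix : ∃ Φ : ZMod q → ZMod q → ZMod q → ℝ, (∀ x y z, 0 ≤ Φ x y z) ∧
      (∑ x : ZMod q, ∑ y : ZMod q, ∑ z : ZMod q, Φ x y z ≤
        20 * C * (La q * √(La q)) * (q:ℝ) ^ 3) ∧
      ∀ b'' w' b : ZMod q, good2 b'' → good2 w' → good2 b →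
      ∀ (c c' : ZMod q) (t1 t2 t3 : ℕ), t1 < q → t2 < q → t3 < q →
      |(∑ x ∈ Aset b'' w', (∑ a ∈ Aset b (-x / b''), Xp c c' a (-x / b'') t1 t2 t3) /
        (Aset b (-x / b'')).card) / (Aset b'' w').card| ≤ Φ b'' w' b := by
  classical
  have hq : (0:ℝ) < q := by exact_mod_cast (NeZero.pos q)
  have hC := F.C0
  have hL := F.L1
  refine ⟨fun b'' w' b => 2 * (C * (La q * √(La q))) +
      2 / (q:ℝ) ^ 2 * (∑ w, hh w * ind (good2 b'' ∧ good2 w' ∧ - w * b'' ∉ Aset b'' w')) +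
        12 / ((q:ℝ) ^ 2 * 2 ^ (38 * uu q)) * (∑ w : ZMod q, hh w) +
        2 / (q:ℝ) ^ 2 * ∑ w, ind (good2 b) * E2 w b, ?_, ?_, ?_⟩
  · intro b'' w' b
    have e1 : 0 ≤ ∑ w, hh w * ind (good2 b'' ∧ good2 w' ∧ - w * b'' ∉ Aset b'' w') :=
      Finset.sum_nonneg (fun w _ => mul_nonneg (hh_nonneg w) (ind_nonneg _))
    have e2 : 0 ≤ ∑ w : ZMod q, hh w := Finset.sum_nonneg (fun w _ => hh_nonneg w)
    have e3 : 0 ≤ ∑ w, ind (good2 b) * E2 w b :=
      Finset.sum_nonneg (fun w _ => mul_nonneg (ind_nonneg _) (E2_nonneg _ _))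
    positivity
  · have hs : ∀ (c1 c3 : ℝ) (f : ZMod q → ZMod q → ℝ) (g : ZMod q → ℝ),
        ∑ x : ZMod q, ∑ y : ZMod q, ∑ z : ZMod q,
          (c1 + 2 / (q:ℝ) ^ 2 * f x y + c3 + 2 / (q:ℝ) ^ 2 * g z) =
        (q:ℝ) ^ 3 * c1 + 2 / q * (∑ x, ∑ y, f x y) + (q:ℝ) ^ 3 * c3 + 2 * ∑ z, g z := by
      intro c1 c3 f g
      simp only [Finset.sum_add_distrib, Finset.sum_const, Finset.card_univ, ZMod.card,
        nsmul_eq_mul, ← Finset.mul_sum]
      field_simp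
    rw [hs]
    have hT := F.shK
    have e0 : 0 ≤ ∑ w : ZMod q, hh w := Finset.sum_nonneg (fun w _ => hh_nonneg w)
    have e1 : ∑ x : ZMod q, ∑ y : ZMod q,
        ∑ w, hh w * ind (good2 x ∧ good2 y ∧ - w * x ∉ Aset x y) ≤
        2 * (q:ℝ) ^ 2 * (C * (q:ℝ) ^ 2) := by
      have e2 : ∑ x : ZMod q, ∑ y : ZMod q,
          ∑ w, hh w * ind (good2 x ∧ good2 y ∧ - w * x ∉ Aset x y) =
          ∑ w, hh w * ∑ x : ZMod q, ∑ y : ZMod q, ind (good2 x ∧ good2 y ∧ - w * x ∉ Aset x y) := by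
        rw [Finset.sum_congr rfl (fun x _ => Finset.sum_comm), Finset.sum_comm]
        refine Finset.sum_congr rfl (fun w _ => ?_)
        rw [Finset.mul_sum]
        refine Finset.sum_congr rfl (fun x _ => ?_)
        rw [Finset.mul_sum]
      rw [e2]
      calc ∑ w, hh w * ∑ x : ZMod q, ∑ y : ZMod q, ind (good2 x ∧ good2 y ∧ - w * x ∉ Aset x y)
          ≤ ∑ w : ZMod q, hh w * (2 * q * (q / 2 ^ (38 * uu q))) := by
            refine Finset.sum_le_sum (fun w _ => ?_)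
            by_cases hw : good2 w
            · exact mul_le_mul_of_nonneg_left (F.cnt hw) (hh_nonneg w)
            · rw [F.hh_eq_zero hw, zero_mul, zero_mul]
        _ = 2 * (q:ℝ) ^ 2 * ((∑ w : ZMod q, hh w) / 2 ^ (38 * uu q)) := by
            rw [← Finset.sum_mul]; ring
        _ ≤ 2 * (q:ℝ) ^ 2 * (C * (q:ℝ) ^ 2) := by gcongr
    have e3 : ∑ z : ZMod q, ∑ w, ind (good2 z) * E2 w z ≤ C * (q:ℝ) ^ 3 := by
      refine F.cntE.trans ?_
      calc (q:ℝ) / 2 ^ (38 * uu q) * ∑ w : ZMod q, hh w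
          = q * ((∑ w : ZMod q, hh w) / 2 ^ (38 * uu q)) := by ring
        _ ≤ q * (C * (q:ℝ) ^ 2) := by gcongr
        _ = C * (q:ℝ) ^ 3 := by ring
    have e4 : (q:ℝ) ^ 3 * (12 / ((q:ℝ) ^ 2 * 2 ^ (38 * uu q)) * (∑ w : ZMod q, hh w)) ≤
        12 * C * (q:ℝ) ^ 3 := by
      calc (q:ℝ) ^ 3 * (12 / ((q:ℝ) ^ 2 * 2 ^ (38 * uu q)) * (∑ w : ZMod q, hh w))
          = 12 * q * ((∑ w : ZMod q, hh w) / 2 ^ (38 * uu q)) := by
            field_simp
        _ ≤ 12 * q * (C * (q:ℝ) ^ 2) := by gcongr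
        _ = 12 * C * (q:ℝ) ^ 3 := by ring
    have e5 : 2 / (q:ℝ) * (2 * (q:ℝ) ^ 2 * (C * (q:ℝ) ^ 2)) = 4 * C * (q:ℝ) ^ 3 := by
      field_simp
      ring
    have e6 := mul_le_mul_of_nonneg_left e1 (show (0:ℝ) ≤ 2 / q by positivity)
    rw [e5] at e6
    have e7 : 18 * C * (q:ℝ) ^ 3 ≤ 18 * C * (q:ℝ) ^ 3 * (La q * √(La q)) :=
      le_mul_of_one_le_right (by positivity) hL
    nlinarith [e3, e4, e6, e7]
  · intro b'' w' b hb'' hw' hb c c' t1 t2 t3 h1 h2 h3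
    exact F.key hb'' hb (Aset b'' w') (F.Ac b'' w' hb'' hw').1
      (fun x hx => (F.lg x b'' (by
        simp only [Aset, Finset.mem_filter, Finset.mem_univ, true_and] at hx
        exact hx.1)).2.2)
      (fun w => good2 b'' ∧ good2 w' ∧ - w * b'' ∉ Aset b'' w')
      (fun w hw => ⟨hb'', hw', hw⟩) c c' t1 t2 t3 h1 h2 h3

theorem fix0 : ∃ Φ : ZMod q → ZMod q → ℝ, (∀ x z, 0 ≤ Φ x z) ∧
      (∑ x : ZMod q, ∑ z : ZMod q, Φ x z ≤ 20 * C * (La q * √(La q)) * (q:ℝ) ^ 2) ∧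
      ∀ b'' b : ZMod q, good2 b'' → good2 b →
      ∀ (c c' : ZMod q) (t1 t2 t3 : ℕ), t1 < q → t2 < q → t3 < q →
      |(∑ x ∈ Aset0 b'', (∑ a ∈ Aset b (-x / b''), Xp c c' a (-x / b'') t1 t2 t3) /
        (Aset b (-x / b'')).card) / (Aset0 b'').card| ≤ Φ b'' b := by
  classical
  have hq : (0:ℝ) < q := by exact_mod_cast (NeZero.pos q)
  have hC := F.C0
  have hL := F.L1
  refine ⟨fun b'' b => 2 * (C * (La q * √(La q))) +
      2 / (q:ℝ) ^ 2 * (∑ w, hh w * ind (good2 b'' ∧ - w * b'' ∉ Aset0 b'')) +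
        12 / ((q:ℝ) ^ 2 * 2 ^ (38 * uu q)) * (∑ w : ZMod q, hh w) +
        2 / (q:ℝ) ^ 2 * ∑ w, ind (good2 b) * E2 w b, ?_, ?_, ?_⟩
  · intro b'' b
    have e1 : 0 ≤ ∑ w, hh w * ind (good2 b'' ∧ - w * b'' ∉ Aset0 b'') :=
      Finset.sum_nonneg (fun w _ => mul_nonneg (hh_nonneg w) (ind_nonneg _))
    have e2 : 0 ≤ ∑ w : ZMod q, hh w := Finset.sum_nonneg (fun w _ => hh_nonneg w)
    have e3 : 0 ≤ ∑ w, ind (good2 b) * E2 w b :=
      Finset.sum_nonneg (fun w _ => mul_nonneg (ind_nonneg _) (E2_nonneg _ _))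
    positivity
  · have hs : ∀ (c1 c3 : ℝ) (f : ZMod q → ℝ) (g : ZMod q → ℝ),
        ∑ x : ZMod q, ∑ z : ZMod q,
          (c1 + 2 / (q:ℝ) ^ 2 * f x + c3 + 2 / (q:ℝ) ^ 2 * g z) =
        (q:ℝ) ^ 2 * c1 + 2 / q * (∑ x, f x) + (q:ℝ) ^ 2 * c3 + 2 / q * ∑ z, g z := by
      intro c1 c3 f g
      simp only [Finset.sum_add_distrib, Finset.sum_const, Finset.card_univ, ZMod.card,
        nsmul_eq_mul, ← Finset.mul_sum]
      field_simp
    rw [hs]
    have hT := F.shK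
    have e0 : 0 ≤ ∑ w : ZMod q, hh w := Finset.sum_nonneg (fun w _ => hh_nonneg w)
    have e1 : ∑ x : ZMod q, ∑ w, hh w * ind (good2 x ∧ - w * x ∉ Aset0 x) ≤
        (q:ℝ) * (C * (q:ℝ) ^ 2) := by
      have e2 : ∑ x : ZMod q, ∑ w, hh w * ind (good2 x ∧ - w * x ∉ Aset0 x) =
          ∑ w, hh w * ∑ x : ZMod q, ind (good2 x ∧ - w * x ∉ Aset0 x) := by
        rw [Finset.sum_comm]
        refine Finset.sum_congr rfl (fun w _ => ?_)
        rw [Finset.mul_sum]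
      rw [e2]
      calc ∑ w, hh w * ∑ x : ZMod q, ind (good2 x ∧ - w * x ∉ Aset0 x)
          ≤ ∑ w : ZMod q, hh w * (q / 2 ^ (38 * uu q)) := by
            refine Finset.sum_le_sum (fun w _ => ?_)
            by_cases hw : good2 w
            · exact mul_le_mul_of_nonneg_left (F.cnt0 hw) (hh_nonneg w)
            · rw [F.hh_eq_zero hw, zero_mul, zero_mul]
        _ = (q:ℝ) * ((∑ w : ZMod q, hh w) / 2 ^ (38 * uu q)) := by
            rw [← Finset.sum_mul]; ring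
        _ ≤ (q:ℝ) * (C * (q:ℝ) ^ 2) := by gcongr
    have e3 : ∑ z : ZMod q, ∑ w, ind (good2 z) * E2 w z ≤ C * (q:ℝ) ^ 3 := by
      refine F.cntE.trans ?_
      calc (q:ℝ) / 2 ^ (38 * uu q) * ∑ w : ZMod q, hh w
          = q * ((∑ w : ZMod q, hh w) / 2 ^ (38 * uu q)) := by ring
        _ ≤ q * (C * (q:ℝ) ^ 2) := by gcongr
        _ = C * (q:ℝ) ^ 3 := by ring
    have e4 : (q:ℝ) ^ 2 * (12 / ((q:ℝ) ^ 2 * 2 ^ (38 * uu q)) * (∑ w : ZMod q, hh w)) ≤
        12 * C * (q:ℝ) ^ 2 := by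
      calc (q:ℝ) ^ 2 * (12 / ((q:ℝ) ^ 2 * 2 ^ (38 * uu q)) * (∑ w : ZMod q, hh w))
          = 12 * ((∑ w : ZMod q, hh w) / 2 ^ (38 * uu q)) := by
            field_simp
        _ ≤ 12 * (C * (q:ℝ) ^ 2) := by gcongr
        _ = 12 * C * (q:ℝ) ^ 2 := by ring
    have e5 : 2 / (q:ℝ) * ((q:ℝ) * (C * (q:ℝ) ^ 2)) = 2 * C * (q:ℝ) ^ 2 := by
      field_simp
    have e6 := mul_le_mul_of_nonneg_left e1 (show (0:ℝ) ≤ 2 / q by positivity)
    rw [e5] at e6
    have e8 : 2 / (q:ℝ) * (C * (q:ℝ) ^ 3) = 2 * C * (q:ℝ) ^ 2 := by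
      field_simp
    have e9 := mul_le_mul_of_nonneg_left e3 (show (0:ℝ) ≤ 2 / q by positivity)
    rw [e8] at e9
    have e7 : 18 * C * (q:ℝ) ^ 2 ≤ 18 * C * (q:ℝ) ^ 2 * (La q * √(La q)) :=
      le_mul_of_one_le_right (by positivity) hL
    have e10 : 0 ≤ C * (q:ℝ) ^ 2 := by positivity
    nlinarith [e9, e4, e6, e7, e10]
  · intro b'' b hb'' hb c c' t1 t2 t3 h1 h2 h3
    exact F.key hb'' hb (Aset0 b'') (F.Ac b'' b'' hb'' hb'').2
      (fun x hx => (F.lg x b'' (by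
        simp only [Aset0, Finset.mem_filter, Finset.mem_univ, true_and] at hx
        exact hx)).2.2)
      (fun w => good2 b'' ∧ - w * b'' ∉ Aset0 b'')
      (fun w hw => ⟨hb'', hw⟩) c c' t1 t2 t3 h1 h2 h3

end Facts

/-! ### Assembly from the statements of the other tasks -/

theorem growth : ∃ q₀ : ℕ, ∀ q : ℕ, q₀ ≤ q → 1 ≤ La q ∧ (2:ℝ) ^ (38 * uu q) ≤ q ∧
    (La q : ℝ) ^ 3 ≤ 2 ^ (38 * uu q) := by
  have h := tendsto_pow_const_div_const_pow_of_one_lt 38 (r := (2:ℝ)) (by norm_num)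
  have h2 : ∀ᶠ n : ℕ in Filter.atTop, (n:ℝ) ^ 38 / 2 ^ n < 1 / 2 ^ 38 :=
    h.eventually (gt_mem_nhds (by norm_num))
  obtain ⟨L0, hL0⟩ := Filter.eventually_atTop.1 h2
  refine ⟨2 ^ (L0 + 1), fun q hq => ?_⟩
  have hq0 : q ≠ 0 := by
    have : 0 < 2 ^ (L0 + 1) := by positivity
    omega
  have hLa : L0 + 1 ≤ La q := by
    unfold La
    exact Nat.le_log_of_pow_le (by norm_num) hq
  have hLapow : 2 ^ La q ≤ q := Nat.pow_log_le_self 2 hq0
  have hLa0 : La q ≠ 0 := by omega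
  have hu1 : 2 ^ uu q ≤ 2 * La q := by
    unfold uu
    rw [pow_succ]
    have := Nat.pow_log_le_self 2 hLa0
    omega
  have hu2 : La q < 2 ^ uu q := by
    unfold uu
    exact Nat.lt_pow_succ_log_self (by norm_num) _
  refine ⟨by omega, ?_, ?_⟩
  · have h3 := hL0 (La q) (by omega)
    rw [div_lt_div_iff₀ (by positivity) (by positivity)] at h3
    have h4 : (2:ℝ) ^ uu q ≤ 2 * La q := by exact_mod_cast hu1
    calc (2:ℝ) ^ (38 * uu q) = (2 ^ uu q) ^ 38 := by rw [← pow_mul, mul_comm]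
      _ ≤ (2 * La q) ^ 38 := pow_le_pow_left₀ (by positivity) h4 38
      _ = (La q : ℝ) ^ 38 * 2 ^ 38 := by ring
      _ ≤ 1 * 2 ^ La q := h3.le
      _ = ((2 ^ La q : ℕ) : ℝ) := by push_cast; ring
      _ ≤ q := by exact_mod_cast hLapow
  · have h4 : (La q : ℝ) ≤ 2 ^ uu q := by exact_mod_cast hu2.le
    calc (La q : ℝ) ^ 3 ≤ (2 ^ uu q) ^ 3 := pow_le_pow_left₀ (by positivity) h4 3
      _ = 2 ^ (uu q * 3) := by rw [← pow_mul]
      _ ≤ 2 ^ (38 * uu q) := pow_le_pow_right₀ (by norm_num) (by omega)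

open Classical in
/-- all facts for large suitable `q` -/
theorem facts_of
    (mean_plane : ∃ C : ℝ, 0 < C ∧ ∃ q₀ : ℕ, ∀ q : ℕ, q₀ ≤ q → ∀ hq : Fact q.Prime, Suit q →
      ∀ (c c' : ZMod q) (t1 t2 t3 : ℕ), t1 < q → t2 < q → t3 < q →
      |∑ p ∈ (univ : Finset (ZMod q × ZMod q)).filter (fun p => pgood p.1 p.2),
        Xp c c' p.1 p.2 t1 t2 t3| ≤ C * (La q * √(La q)) * (q:ℝ) ^ 2)
    (sum_Rp : ∃ C : ℝ, 0 < C ∧ ∀ q : ℕ, ∀ hq : Fact q.Prime, 3 ≤ q →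
      ∑ p ∈ (univ : Finset (ZMod q × ZMod q)).filter (fun p => p.1 ≠ 0 ∧ p.2 ≠ 0), Rp p.1 p.2 ≤
        C * (La q : ℝ) ^ 3 * (q:ℝ) ^ 2)
    (bad_plane_w : ∃ q₀ : ℕ, ∀ q : ℕ, q₀ ≤ q → ∀ hq : Fact q.Prime, ∀ w : ZMod q, good2 w →
      (((univ : Finset (ZMod q)).filter (fun a => a ≠ 0 ∧ ¬ pgood a w)).card : ℝ) ≤
        q / 2 ^ (38 * uu q))
    (bad_plane_a : ∃ q₀ : ℕ, ∀ q : ℕ, q₀ ≤ q → ∀ hq : Fact q.Prime, ∀ a : ZMod q, good2 a →
      (((univ : Finset (ZMod q)).filter (fun w => w ≠ 0 ∧ ¬ pgood a w)).card : ℝ) ≤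
        q / 2 ^ (38 * uu q))
    (bad_line_b : ∃ q₀ : ℕ, ∀ q : ℕ, q₀ ≤ q → ∀ hq : Fact q.Prime, ∀ b : ZMod q, good2 b →
      (((univ : Finset (ZMod q)).filter (fun α => α ≠ 0 ∧ ¬ lgood α b)).card : ℝ) ≤
        q / 2 ^ (38 * uu q))
    (bad_line_a : ∃ q₀ : ℕ, ∀ q : ℕ, q₀ ≤ q → ∀ hq : Fact q.Prime, ∀ a : ZMod q, good2 a →
      (((univ : Finset (ZMod q)).filter (fun b => b ≠ 0 ∧ ¬ lgood a b)).card : ℝ) ≤
        q / 2 ^ (38 * uu q))
    (bad_line_w : ∃ q₀ : ℕ, ∀ q : ℕ, q₀ ≤ q → ∀ hq : Fact q.Prime, ∀ w : ZMod q, good2 w →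
      (((univ : Finset (ZMod q)).filter (fun b => b ≠ 0 ∧ ¬ lgood (-w * b) b)).card : ℝ) ≤
        q / 2 ^ (38 * uu q))
    (lgood_good2 : ∀ {q : ℕ} [Fact q.Prime] {α b : ZMod q} (_ : lgood α b),
      good2 α ∧ good2 b ∧ good2 (-α / b))
    (pgood_good2 : ∀ {q : ℕ} [Fact q.Prime] {a w : ZMod q} (_ : pgood a w),
      good2 a ∧ good2 w ∧ good2 (a / w))
    (Aset_card : ∃ q₀ : ℕ, ∀ q : ℕ, q₀ ≤ q → ∀ hq : Fact q.Prime, ∀ b w : ZMod q,
      good2 b → good2 w → (q:ℝ) / 2 ≤ (Aset b w).card ∧ (q:ℝ) / 2 ≤ (Aset0 b).card)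
    (Xp_le : ∀ {q : ℕ} [Fact q.Prime] (c c' a w : ZMod q) (_ : a ≠ 0) (_ : w ≠ 0)
      (t1 t2 t3 : ℕ) (_ : t1 < q) (_ : t2 < q) (_ : t3 < q), |Xp c c' a w t1 t2 t3| ≤ Rp a w) :
    ∃ C : ℝ, 0 < C ∧ ∃ q₀ : ℕ, ∀ q : ℕ, q₀ ≤ q → ∀ hq : Fact q.Prime, Suit q → Facts q C := by
  obtain ⟨C1, hC1, q1, h1⟩ := mean_plane
  obtain ⟨C2, hC2, h2⟩ := sum_Rp
  obtain ⟨q3, h3⟩ := bad_plane_w
  obtain ⟨q4, h4⟩ := bad_plane_a
  obtain ⟨q5, h5⟩ := bad_line_b
  obtain ⟨q6, h6⟩ := bad_line_a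
  obtain ⟨q7, h7⟩ := bad_line_w
  obtain ⟨q8, h8⟩ := Aset_card
  obtain ⟨q9, h9⟩ := growth
  refine ⟨C1 + C2, by positivity, q1 + q3 + q4 + q5 + q6 + q7 + q8 + q9 + 3,
    fun q hq hp hs => ?_⟩
  obtain ⟨g1, g2, g3⟩ := h9 q (by omega)
  exact
    { C0 := by positivity
      La1 := g1
      big := g2
      Lalt := g3
      mean := fun c c' t1 t2 t3 e1 e2 e3 => by
        refine (h1 q (by omega) hp hs c c' t1 t2 t3 e1 e2 e3).trans ?_
        gcongr
        linarith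
      sumRp := by
        refine (h2 q hp (by omega)).trans ?_
        gcongr
        linarith
      bpw := h3 q (by omega) hp
      bpa := h4 q (by omega) hp
      blb := h5 q (by omega) hp
      bla := h6 q (by omega) hp
      blw := h7 q (by omega) hp
      lg := fun α b h => lgood_good2 h
      pg := fun a w h => pgood_good2 h
      Ac := h8 q (by omega) hp
      Xpl := fun c c' a w ha hw t1 t2 t3 e1 e2 e3 => Xp_le c c' a w ha hw t1 t2 t3 e1 e2 e3 }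

theorem two_step_of (h : ∃ C : ℝ, 0 < C ∧ ∃ q₀ : ℕ, ∀ q : ℕ, q₀ ≤ q → ∀ hq : Fact q.Prime,
      Suit q → Facts q C) :
    ∃ C : ℝ, 0 < C ∧ ∃ q₀ : ℕ, ∀ q : ℕ, q₀ ≤ q → ∀ hq : Fact q.Prime, Suit q →
    ∃ Φ : ZMod q → ZMod q → ZMod q → ℝ, (∀ x y z, 0 ≤ Φ x y z) ∧
      (∑ x : ZMod q, ∑ y : ZMod q, ∑ z : ZMod q, Φ x y z ≤ C * (La q * √(La q)) * (q:ℝ) ^ 3) ∧
      ∀ b'' w' b : ZMod q, good2 b'' → good2 w' → good2 b →
      ∀ (c c' : ZMod q) (t1 t2 t3 : ℕ), t1 < q → t2 < q → t3 < q →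
      |(∑ x ∈ Aset b'' w', (∑ a ∈ Aset b (-x / b''), Xp c c' a (-x / b'') t1 t2 t3) /
        (Aset b (-x / b'')).card) / (Aset b'' w').card| ≤ Φ b'' w' b := by
  obtain ⟨C, hC, q₀, h0⟩ := h
  exact ⟨20 * C, by positivity, q₀, fun q hq hp hs => (h0 q hq hp hs).fix⟩

theorem two_step0_of (h : ∃ C : ℝ, 0 < C ∧ ∃ q₀ : ℕ, ∀ q : ℕ, q₀ ≤ q → ∀ hq : Fact q.Prime,
      Suit q → Facts q C) :
    ∃ C : ℝ, 0 < C ∧ ∃ q₀ : ℕ, ∀ q : ℕ, q₀ ≤ q → ∀ hq : Fact q.Prime, Suit q →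
    ∃ Φ : ZMod q → ZMod q → ℝ, (∀ x z, 0 ≤ Φ x z) ∧
      (∑ x : ZMod q, ∑ z : ZMod q, Φ x z ≤ C * (La q * √(La q)) * (q:ℝ) ^ 2) ∧
      ∀ b'' b : ZMod q, good2 b'' → good2 b →
      ∀ (c c' : ZMod q) (t1 t2 t3 : ℕ), t1 < q → t2 < q → t3 < q →
      |(∑ x ∈ Aset0 b'', (∑ a ∈ Aset b (-x / b''), Xp c c' a (-x / b'') t1 t2 t3) /
        (Aset b (-x / b'')).card) / (Aset0 b'').card| ≤ Φ b'' b := by
  obtain ⟨C, hC, q₀, h0⟩ := h
  exact ⟨20 * C, by positivity, q₀, fun q hq hp hs => (h0 q hq hp hs).fix0⟩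

end Pool.Agent.H935R2.PS.I1
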