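import Pool.Agent.H935R2.PS.I1a
import Pool.Agent.H935R2.PS.A2
import Pool.Agent.H935R2.PS.H1
import Pool.Agent.H935R2.PS.H4
import Pool.Agent.H935R2.PS.H5
import Pool.Agent.H935R2.PS.H6b

set_option autoImplicit false
set_option linter.unusedVariables false

/-!
# Task I1 from the statement of `mean_plane`
-/

namespace Pool.Agent.H935R2.PS.I1

open Finset

open Classical in
/-- the statement of task F2 -/
def MeanPlaneS : Prop := ∃ C : ℝ, 0 < C ∧ ∃ q₀ : ℕ, ∀ q : ℕ, q₀ ≤ q → ∀ hq : Fact q.Prime, Suit q →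
    ∀ (c c' : ZMod q) (t1 t2 t3 : ℕ), t1 < q → t2 < q → t3 < q →
    |∑ p ∈ (univ : Finset (ZMod q × ZMod q)).filter (fun p => pgood p.1 p.2), Xp c c' p.1 p.2 t1 t2 t3|
      ≤ C * (La q * √(La q)) * (q:ℝ) ^ 2

theorem facts (h : MeanPlaneS) :
    ∃ C : ℝ, 0 < C ∧ ∃ q₀ : ℕ, ∀ q : ℕ, q₀ ≤ q → ∀ hq : Fact q.Prime, Suit q → Facts q C :=
  facts_of h sum_Rp bad_plane_w bad_plane_a bad_line_b bad_line_a bad_line_w
    (fun h => lgood_good2 h) (fun h => pgood_good2 h) Aset_card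
    (fun c c' a w ha hw t1 t2 t3 e1 e2 e3 => Xp_le c c' a w ha hw t1 t2 t3 e1 e2 e3)

end Pool.Agent.H935R2.PS.I1
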