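import Pool.Agent.H935R2.PS.Defs
import Pool.Agent.H470D4.Eng

/-!
# J1: the abstract engine
-/

set_option autoImplicit false

open Finset

namespace Pool.Agent.H935R2.PS

namespace J1

open Pool.Agent.H470D4

theorem exp_le_add (x : ℝ) : Real.exp x ≤ x + Real.exp (x ^ 2) := by
  rcases le_or_gt |x| 1 with h | h
  · have h1 := Real.abs_exp_sub_one_sub_id_le h
    have h2 := (abs_le.mp h1).2
    have h3 := Real.add_one_le_exp (x ^ 2)
    linarith
  · rcases lt_abs.mp h with h1 | h1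
    · have h2 : Real.exp x ≤ Real.exp (x ^ 2) := Real.exp_le_exp.mpr (by nlinarith)
      linarith
    · have h2 : Real.exp x ≤ 1 := by
        rw [← Real.exp_zero]
        exact Real.exp_le_exp.mpr (by linarith)
      have h3 := Real.add_one_le_exp (x ^ 2)
      nlinarith

theorem avg_exp {Z : Type} (A : Finset Z) (hA : A.Nonempty) (y : Z → ℝ) (c θ : ℝ)
    (h : ∀ z ∈ A, |y z| ≤ c) :
    (∑ z ∈ A, Real.exp (θ * y z)) / A.card ≤
      Real.exp (θ * ((∑ z ∈ A, y z) / A.card) + 4 * θ ^ 2 * c ^ 2) := by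
  have hpos : (0 : ℝ) < A.card := by exact_mod_cast card_pos.mpr hA
  set m := (∑ z ∈ A, y z) / A.card with hm
  have hmc : |m| ≤ c := by
    rw [hm, abs_div, abs_of_pos hpos, div_le_iff₀ hpos]
    calc |∑ z ∈ A, y z| ≤ ∑ z ∈ A, |y z| := abs_sum_le_sum_abs _ _
      _ ≤ ∑ _z ∈ A, c := sum_le_sum h
      _ = c * A.card := by rw [sum_const, nsmul_eq_mul, mul_comm]
  have h1 : ∀ z ∈ A, Real.exp (θ * y z) ≤
      Real.exp (θ * m) * (θ * (y z - m) + Real.exp (4 * θ ^ 2 * c ^ 2)) := by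
    intro z hz
    have h2 : θ * y z = θ * m + θ * (y z - m) := by ring
    rw [h2, Real.exp_add]
    refine mul_le_mul_of_nonneg_left ?_ (Real.exp_pos _).le
    refine (exp_le_add _).trans ?_
    have h3 : |y z - m| ≤ 2 * c := by
      have := h z hz
      have h4 : |y z - m| ≤ |y z| + |m| := abs_sub _ _
      linarith
    have h5 : (y z - m) ^ 2 ≤ (2 * c) ^ 2 := sq_le_sq' (by linarith [(abs_le.mp h3).1]) (abs_le.mp h3).2
    have h6 : (θ * (y z - m)) ^ 2 ≤ 4 * θ ^ 2 * c ^ 2 := by nlinarith [sq_nonneg θ]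
    linarith [Real.exp_le_exp.mpr h6]
  have hsum0 : ∑ z ∈ A, (y z - m) = 0 := by
    rw [sum_sub_distrib, sum_const, nsmul_eq_mul, hm]
    field_simp
    ring
  have h7 : ∑ z ∈ A, Real.exp (θ * y z) ≤
      A.card * (Real.exp (θ * m) * Real.exp (4 * θ ^ 2 * c ^ 2)) := by
    refine (sum_le_sum h1).trans (le_of_eq ?_)
    rw [← mul_sum, sum_add_distrib, ← mul_sum, hsum0, sum_const, nsmul_eq_mul]
    ring
  rw [div_le_iff₀ hpos, Real.exp_add]
  linarith

variable {Z : Type} [Fintype Z] [DecidableEq Z]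

theorem E1_dep (Al : ℕ → (ℕ → Z) → Finset Z) (hdep : ∀ j, DepLT j (Al j)) (s : ℕ)
    {f : (ℕ → Z) → ℝ} (hf : DepLT (s + 1) f) : DepLT s (E1 Al s f) := by
  intro ω ω' h
  unfold E1
  rw [hdep s ω ω' h]
  congr 1
  refine sum_congr rfl fun z _ => hf _ _ ?_
  intro i hi
  by_cases his : i = s
  · subst his; simp
  · rw [Function.update_of_ne his, Function.update_of_ne his]
    exact h i (by omega)

theorem E1_add (Al : ℕ → (ℕ → Z) → Finset Z) (s : ℕ) (f g : (ℕ → Z) → ℝ) (ω : ℕ → Z) :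
    E1 Al s (fun ω => f ω + g ω) ω = E1 Al s f ω + E1 Al s g ω := by
  unfold E1
  rw [sum_add_distrib, add_div]

theorem E1_abs (Al : ℕ → (ℕ → Z) → Finset Z) (hne : ∀ j ω, (Al j ω).Nonempty) (s : ℕ)
    (f : (ℕ → Z) → ℝ) (K : ℝ) (hf : ∀ ω, |f ω| ≤ K) (ω : ℕ → Z) : |E1 Al s f ω| ≤ K := by
  have hpos : (0 : ℝ) < (Al s ω).card := by exact_mod_cast card_pos.mpr (hne s ω)
  unfold E1
  rw [abs_div, abs_of_pos hpos, div_le_iff₀ hpos]
  calc |∑ z ∈ Al s ω, f (Function.update ω s z)| ≤ ∑ z ∈ Al s ω, |f (Function.update ω s z)| :=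
        abs_sum_le_sum_abs _ _
    _ ≤ ∑ _z ∈ Al s ω, K := sum_le_sum fun z _ => hf _
    _ = K * (Al s ω).card := by rw [sum_const, nsmul_eq_mul, mul_comm]

theorem sum_const_mul_T (T : ℕ) (c : ℝ) : ∑ _j ∈ range T, c = T * c := by
  rw [sum_const, card_range, nsmul_eq_mul]

/-- sign of a Boolean -/
def sg (b : Bool) : ℝ := if b then 1 else -1

theorem sg_abs (b : Bool) : |sg b| = 1 := by cases b <;> simp [sg]

end J1

open J1 Pool.Agent.H470D4 in
/-- The abstract engine: sequential choices, two-step drift, union bound over the data `D`. -/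
theorem engine {Z : Type} [Fintype Z] [DecidableEq Z] (Al : ℕ → (ℕ → Z) → Finset Z)
    (hne : ∀ j ω, (Al j ω).Nonempty) (hdep : ∀ j, DepLT j (Al j)) (T : ℕ)
    {D : Type} [Fintype D] [Nonempty D] (X : D → ℕ → (ℕ → Z) → ℝ)
    (hX : ∀ τ s, DepLT (s + 1) (X τ s)) (K : ℝ) (hK0 : 0 < K) (hK : ∀ τ s ω, |X τ s ω| ≤ K)
    (hX0 : ∀ τ ω, X τ 0 ω = 0)
    (Φ : ℕ → (ℕ → Z) → ℝ) (hΦ0 : ∀ s ω, 0 ≤ Φ s ω) (hΦ : ∀ s, DepLT s (Φ s))
    (hdrift : ∀ τ s ω, |E1 Al s (E1 Al (s + 1) (X τ (s + 1))) ω| ≤ Φ s ω) (ω₀ : ℕ → Z)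
    (E₀ : ℝ) (hE₀ : 0 < E₀) (hE : EE Al 0 T (fun ω => ∑ s ∈ range T, Φ s ω) ω₀ ≤ E₀) :
    ∃ ω : ℕ → Z, (∀ s < T, ω s ∈ Al s ω) ∧ ∀ τ,
      |∑ s ∈ range T, X τ s ω| ≤ 4 * E₀ + 16 * K * √(T * (Real.log (Fintype.card D) + 5)) + 4 * K := by
  rcases Nat.eq_zero_or_pos T with hT0 | hTpos
  · subst hT0
    refine ⟨ω₀, fun s hs => absurd hs (Nat.not_lt_zero s), fun τ => ?_⟩
    simp only [range_zero, sum_empty, abs_zero]
    have := Real.sqrt_nonneg (((0 : ℕ) : ℝ) * (Real.log (Fintype.card D) + 5))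
    positivity
  have hTr : (0 : ℝ) < T := by exact_mod_cast hTpos
  have hcD : (1 : ℝ) ≤ Fintype.card D := by exact_mod_cast Fintype.card_pos
  have hlogD : 0 ≤ Real.log (Fintype.card D) := Real.log_nonneg hcD
  set L : ℝ := Real.log (Fintype.card D) + 5 with hL
  have hLpos : 0 < L := by linarith
  set r : ℝ := √(T * L) with hr
  have hrpos : 0 < r := Real.sqrt_pos.mpr (mul_pos hTr hLpos)
  have hr2 : r ^ 2 = T * L := Real.sq_sqrt (mul_pos hTr hLpos).le
  set θ : ℝ := r / (4 * K * T) with hθ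
  have hθpos : 0 < θ := by positivity
  -- the processes
  set V : D → ℕ → (ℕ → Z) → ℝ := fun τ s => E1 Al s (X τ s) with hV
  set Dr : D → ℕ → (ℕ → Z) → ℝ := fun τ s => E1 Al s (V τ (s + 1)) with hDr
  set Y : D → Bool → ℕ → (ℕ → Z) → ℝ := fun τ b s ω => sg b * (X τ s ω + V τ (s + 1) ω) with hY
  set κ : D → Bool → ℕ → (ℕ → Z) → ℝ := fun τ b s ω =>
    sg b * (V τ s ω + Dr τ s ω) + 16 * θ * K ^ 2 with hκ
  have hVdep : ∀ τ s, DepLT s (V τ s) := fun τ s => E1_dep Al hdep s (hX τ s)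
  have hDrdep : ∀ τ s, DepLT s (Dr τ s) := fun τ s => E1_dep Al hdep s (hVdep τ (s + 1))
  have hVK : ∀ τ s ω, |V τ s ω| ≤ K := fun τ s ω => E1_abs Al hne s _ K (hK τ s) ω
  have hYdep : ∀ τ b s, DepLT (s + 1) (Y τ b s) := by
    intro τ b s ω ω' h
    simp only [hY]
    rw [hX τ s ω ω' h, hVdep τ (s + 1) ω ω' h]
  have hκdep : ∀ τ b s, DepLT s (κ τ b s) := by
    intro τ b s ω ω' h
    simp only [hκ]
    rw [hVdep τ s ω ω' h, hDrdep τ s ω ω' h]
  have hexp : ∀ τ b, EE Al 0 T (fun ω' => Real.exp (θ * ∑ j ∈ range T, (Y τ b j ω' - κ τ b j ω'))) ω₀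
      ≤ 1 := by
    intro τ b
    refine EE_exp Al hne T θ (Y τ b) (κ τ b) (hYdep τ b) (hκdep τ b) ?_ ω₀
    intro j _ ω
    have h1 := avg_exp (Al j ω) (hne j ω) (fun z => Y τ b j (Function.update ω j z)) (2 * K) θ (by
      intro z _
      simp only [hY]
      rw [abs_mul, sg_abs, one_mul]
      have e1 := hK τ j (Function.update ω j z)
      have e2 := hVK τ (j + 1) (Function.update ω j z)
      exact (abs_add_le _ _).trans (by linarith))
    refine h1.trans (Real.exp_le_exp.mpr (le_of_eq ?_))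
    have h2 : (∑ z ∈ Al j ω, Y τ b j (Function.update ω j z)) / ((Al j ω).card : ℝ) =
        sg b * (V τ j ω + Dr τ j ω) := by
      simp only [hY]
      rw [← mul_sum, mul_div_assoc]
      congr 1
      exact E1_add Al j (X τ j) (V τ (j + 1)) ω
    rw [h2]
    simp only [hκ]
    ring
  -- the potential
  set F : (ℕ → Z) → ℝ := fun ω => (1 / (4 * E₀)) * (∑ s ∈ range T, Φ s ω) +
    ∑ p : D × Bool, (1 / (8 * (Fintype.card D : ℝ))) *
      Real.exp (θ * ∑ j ∈ range T, (Y p.1 p.2 j ω - κ p.1 p.2 j ω)) with hF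
  have hEF : EE Al 0 T F ω₀ ≤ 1 / 2 := by
    have e0 : EE Al 0 T F ω₀ = (1 / (4 * E₀)) * EE Al 0 T (fun ω => ∑ s ∈ range T, Φ s ω) ω₀ +
        ∑ p : D × Bool, EE Al 0 T (fun ω => (1 / (8 * (Fintype.card D : ℝ))) *
          Real.exp (θ * ∑ j ∈ range T, (Y p.1 p.2 j ω - κ p.1 p.2 j ω))) ω₀ := by
      rw [hF, EE_add_fun, EE_const_mul]
      congr 1
      exact EE_sum Al 0 T univ (fun p : D × Bool => fun ω => (1 / (8 * (Fintype.card D : ℝ))) *
          Real.exp (θ * ∑ j ∈ range T, (Y p.1 p.2 j ω - κ p.1 p.2 j ω))) ω₀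
    rw [e0]
    have h1 : (1 / (4 * E₀)) * EE Al 0 T (fun ω => ∑ s ∈ range T, Φ s ω) ω₀ ≤ 1 / 4 := by
      have : (1 / (4 * E₀)) * EE Al 0 T (fun ω => ∑ s ∈ range T, Φ s ω) ω₀ ≤ (1 / (4 * E₀)) * E₀ :=
        mul_le_mul_of_nonneg_left hE (by positivity)
      refine this.trans (le_of_eq ?_)
      field_simp
    have h2 : ∑ p : D × Bool, EE Al 0 T (fun ω => (1 / (8 * (Fintype.card D : ℝ))) *
        Real.exp (θ * ∑ j ∈ range T, (Y p.1 p.2 j ω - κ p.1 p.2 j ω))) ω₀ ≤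
        ∑ _p : D × Bool, (1 / (8 * (Fintype.card D : ℝ))) := by
      refine sum_le_sum fun p _ => ?_
      rw [EE_const_mul]
      have := mul_le_mul_of_nonneg_left (hexp p.1 p.2)
        (show (0 : ℝ) ≤ 1 / (8 * (Fintype.card D : ℝ)) by positivity)
      linarith
    have h3 : ∑ _p : D × Bool, (1 / (8 * (Fintype.card D : ℝ))) = 1 / 4 := by
      rw [sum_const, card_univ, Fintype.card_prod, Fintype.card_bool, nsmul_eq_mul]
      push_cast
      field_simp
      norm_num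
    exact le_trans (add_le_add h1 (h2.trans h3.le)) (by norm_num)
  obtain ⟨ω, _, hω, hFω⟩ := exists_path Al hne hdep 0 T F ω₀
  refine ⟨ω, fun s hs => hω s (Nat.zero_le s) (by omega), fun τ => ?_⟩
  have hFle : F ω ≤ 1 / 2 := hFω.trans hEF
  have hsumnn : 0 ≤ ∑ p : D × Bool, (1 / (8 * (Fintype.card D : ℝ))) *
      Real.exp (θ * ∑ j ∈ range T, (Y p.1 p.2 j ω - κ p.1 p.2 j ω)) :=
    sum_nonneg fun p _ => by positivity
  have hΦnn : 0 ≤ ∑ s ∈ range T, Φ s ω := sum_nonneg fun s _ => hΦ0 s ω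
  have hΦle : ∑ s ∈ range T, Φ s ω ≤ 2 * E₀ := by
    have h1 : (1 / (4 * E₀)) * (∑ s ∈ range T, Φ s ω) ≤ 1 / 2 := by
      simp only [hF] at hFle
      linarith
    have h2 : (∑ s ∈ range T, Φ s ω) = 4 * E₀ * ((1 / (4 * E₀)) * (∑ s ∈ range T, Φ s ω)) := by
      field_simp
    rw [h2]
    nlinarith
  have hexple : ∀ b, Real.exp (θ * ∑ j ∈ range T, (Y τ b j ω - κ τ b j ω)) ≤
      4 * (Fintype.card D : ℝ) := by
    intro b
    have h1 : (1 / (8 * (Fintype.card D : ℝ))) *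
        Real.exp (θ * ∑ j ∈ range T, (Y τ b j ω - κ τ b j ω)) ≤ 1 / 2 := by
      have h2 := single_le_sum (f := fun p : D × Bool => (1 / (8 * (Fintype.card D : ℝ))) *
        Real.exp (θ * ∑ j ∈ range T, (Y p.1 p.2 j ω - κ p.1 p.2 j ω)))
        (fun p _ => by positivity) (mem_univ (τ, b))
      have h3 : 0 ≤ (1 / (4 * E₀)) * (∑ s ∈ range T, Φ s ω) := mul_nonneg (by positivity) hΦnn
      simp only [hF] at hFle
      simp only at h2
      linarith
    have h4 : Real.exp (θ * ∑ j ∈ range T, (Y τ b j ω - κ τ b j ω)) =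
        8 * (Fintype.card D : ℝ) * ((1 / (8 * (Fintype.card D : ℝ))) *
        Real.exp (θ * ∑ j ∈ range T, (Y τ b j ω - κ τ b j ω))) := by
      field_simp
    rw [h4]
    nlinarith
  -- the telescoping sum
  set M : ℝ := ∑ j ∈ range T, (X τ j ω + V τ (j + 1) ω - (V τ j ω + Dr τ j ω)) with hM
  have hMb : ∀ b, sg b * M ≤ 8 * K * r := by
    intro b
    have h1 : ∑ j ∈ range T, (Y τ b j ω - κ τ b j ω) = sg b * M - T * (16 * θ * K ^ 2) := by
      rw [hM, mul_sum]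
      simp only [hY, hκ]
      rw [← sum_const_mul_T T (16 * θ * K ^ 2), ← sum_sub_distrib]
      exact sum_congr rfl fun j _ => by ring
    have h2 := hexple b
    rw [h1] at h2
    have h3 := Real.log_le_log (Real.exp_pos _) h2
    rw [Real.log_exp, Real.log_mul (by norm_num) (by positivity)] at h3
    have h4 : Real.log 4 ≤ 5 := by
      have := Real.log_le_sub_one_of_pos (show (0 : ℝ) < 4 by norm_num)
      linarith
    have h5 : θ * (sg b * M - T * (16 * θ * K ^ 2)) ≤ L := by rw [hL]; linarith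
    have h6 : θ * (4 * K * T) = r := by rw [hθ]; field_simp
    -- θ * (8 K r) = 2 L + ... 
    have h7 : θ * (8 * K * r) = 2 * L := by
      have : θ * (8 * K * r) * T = 2 * r * (θ * (4 * K * T)) := by ring
      rw [h6] at this
      have h8 : θ * (8 * K * r) * T = (2 * L) * T := by rw [this]; nlinarith
      exact mul_right_cancel₀ hTr.ne' h8
    have h9 : θ * (T * (16 * θ * K ^ 2)) = L := by
      have : θ * (T * (16 * θ * K ^ 2)) * T = (θ * (4 * K * T)) ^ 2 := by ring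
      rw [h6, hr2] at this
      have h8 : θ * (T * (16 * θ * K ^ 2)) * T = L * T := by rw [this]; ring
      exact mul_right_cancel₀ hTr.ne' h8
    have h10 : θ * (sg b * M) ≤ θ * (8 * K * r) := by
      rw [h7]
      have : θ * (sg b * M - T * (16 * θ * K ^ 2)) = θ * (sg b * M) - θ * (T * (16 * θ * K ^ 2)) := by
        ring
      rw [this, h9] at h5
      linarith
    exact le_of_mul_le_mul_left h10 hθpos
  have hMabs : |M| ≤ 8 * K * r := by
    rw [abs_le]
    have h1 := hMb true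
    have h2 := hMb false
    simp only [sg, if_true] at h1
    simp only [sg] at h2
    norm_num at h1 h2
    constructor <;> linarith
  have htel : ∑ j ∈ range T, X τ j ω = M - V τ T ω + ∑ j ∈ range T, Dr τ j ω := by
    have h0 : V τ 0 ω = 0 := by
      simp only [hV]
      unfold E1
      simp [hX0]
    have h1 : ∑ j ∈ range T, (V τ (j + 1) ω - V τ j ω) = V τ T ω - V τ 0 ω :=
      sum_range_sub (fun j => V τ j ω) T
    have h2 : M = ∑ j ∈ range T, X τ j ω + ∑ j ∈ range T, (V τ (j + 1) ω - V τ j ω) -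
        ∑ j ∈ range T, Dr τ j ω := by
      rw [hM, ← sum_add_distrib, ← sum_sub_distrib]
      exact sum_congr rfl fun j _ => by ring
    rw [h1, h0] at h2
    linarith
  have hDsum : |∑ j ∈ range T, Dr τ j ω| ≤ 2 * E₀ :=
    (abs_sum_le_sum_abs _ _).trans ((sum_le_sum fun j _ => hdrift τ j ω).trans hΦle)
  rw [htel]
  have h1 : |M - V τ T ω + ∑ j ∈ range T, Dr τ j ω| ≤ |M| + |V τ T ω| +
      |∑ j ∈ range T, Dr τ j ω| :=
    (abs_add_le _ _).trans (by linarith [abs_sub M (V τ T ω)])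
  have h2 := hVK τ T ω
  have h3 : 0 ≤ K * r := by positivity
  linarith

end Pool.Agent.H935R2.PS
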