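import Pool.Agent.H935R2.PS.Defs2
import Pool.Agent.H470D4.Eng

set_option autoImplicit false
set_option linter.unusedSectionVars false

/-!
# Core, part 1: densities along allowed paths
-/

namespace Pool.Agent.H935R2.PS.J2

open Finset Pool.Agent.H470D4

section gen
variable {Z : Type*} [Fintype Z] [DecidableEq Z]

/-- The path is allowed before time `s`. -/
def Ok (Al : ℕ → (ℕ → Z) → Finset Z) (s : ℕ) (ω : ℕ → Z) : Prop := ∀ j < s, ω j ∈ Al j ω

lemma Ok.mono {Al : ℕ → (ℕ → Z) → Finset Z} {s t : ℕ} {ω : ℕ → Z} (h : Ok Al s ω) (hts : t ≤ s) :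
    Ok Al t ω := fun j hj => h j (lt_of_lt_of_le hj hts)

lemma Ok_update {Al : ℕ → (ℕ → Z) → Finset Z} (hdep : ∀ j, DepLT j (Al j)) {s : ℕ} {ω : ℕ → Z}
    {z : Z} (h : Ok Al s ω) (hz : z ∈ Al s ω) : Ok Al (s+1) (Function.update ω s z) := by
  intro j hj
  have hag : Agr s ω (Function.update ω s z) := agr_update s ω z
  rcases Nat.lt_or_ge j s with hlt | hge
  · rw [← hdep j _ _ (hag.mono hlt.le), ← hag j hlt]
    exact h j hlt
  · have hjk : j = s := by omega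
    subst hjk
    rw [← hdep j _ _ hag, Function.update_self]
    exact hz

lemma E1_mono_al (Al : ℕ → (ℕ → Z) → Finset Z) (s : ℕ) {f g : (ℕ → Z) → ℝ} {ω : ℕ → Z}
    (h : ∀ z ∈ Al s ω, f (Function.update ω s z) ≤ g (Function.update ω s z)) :
    E1 Al s f ω ≤ E1 Al s g ω := by
  unfold E1
  exact div_le_div_of_nonneg_right (sum_le_sum h) (Nat.cast_nonneg _)

lemma EE_mono_ok (Al : ℕ → (ℕ → Z) → Finset Z) (hdep : ∀ j, DepLT j (Al j)) (k : ℕ)
    {f g : (ℕ → Z) → ℝ} (h : ∀ ω', Ok Al k ω' → f ω' ≤ g ω') (ω : ℕ → Z) :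
    EE Al 0 k f ω ≤ EE Al 0 k g ω := by
  induction k generalizing f g with
  | zero => exact h ω (fun j hj => absurd hj (Nat.not_lt_zero j))
  | succ k ih =>
    have h1 : EE Al 0 k (E1 Al k f) ω ≤ EE Al 0 k (E1 Al k g) ω :=
      ih fun ω' hω' => E1_mono_al Al k fun z hz => h _ (Ok_update hdep hω' hz)
    have h2 : ∀ f : (ℕ → Z) → ℝ, EE Al 0 (k+1) f ω = EE Al 0 k (E1 Al k f) ω := by
      intro f
      show EE Al 0 k (E1 Al (0+k) f) ω = _
      rw [Nat.zero_add]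
    rw [h2, h2]
    exact h1

lemma EE_succ (Al : ℕ → (ℕ → Z) → Finset Z) (k : ℕ) (f : (ℕ → Z) → ℝ) (ω : ℕ → Z) :
    EE Al 0 (k+1) f ω = EE Al 0 k (E1 Al k f) ω := by
  show EE Al 0 k (E1 Al (0+k) f) ω = _
  rw [Nat.zero_add]

/-- a function of the first `t` steps -/
lemma EE_cut (Al : ℕ → (ℕ → Z) → Finset Z) (hne : ∀ j ω, (Al j ω).Nonempty) {t s : ℕ} (hts : t ≤ s)
    {g : (ℕ → Z) → ℝ} (hg : DepLT t g) (ω : ℕ → Z) : EE Al 0 s g ω = EE Al 0 t g ω := by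
  obtain ⟨l, rfl⟩ := Nat.exists_eq_add_of_le hts
  rw [EE_add]
  have h1 : EE Al (0 + t) l g = g := by
    funext ω'
    rw [Nat.zero_add]
    exact EE_dep Al hne t l hg ω'
  rw [h1]

lemma E1_dep (Al : ℕ → (ℕ → Z) → Finset Z) (hdep : ∀ j, DepLT j (Al j)) (s : ℕ)
    {f : (ℕ → Z) → ℝ} (hf : DepLT (s+1) f) : DepLT s (E1 Al s f) := by
  intro ω ω' h
  unfold E1
  rw [hdep s ω ω' h]
  congr 1
  refine sum_congr rfl fun z _ => hf _ _ ?_
  intro i hi
  rcases Nat.lt_or_ge i s with hlt | hge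
  · rw [Function.update_of_ne hlt.ne, Function.update_of_ne hlt.ne]
    exact h i hlt
  · have : i = s := by omega
    subst this
    rw [Function.update_self, Function.update_self]

end gen

section dens
variable {q : ℕ} [Fact q.Prime]

/-- The density of a new unit is at most 2. -/
lemma dens (Al : ℕ → (ℕ → ZMod q) → Finset (ZMod q)) (hne : ∀ j ω, (Al j ω).Nonempty)
    (hdep : ∀ j, DepLT j (Al j)) (t s : ℕ) (hts : t < s) (F : (ℕ → ZMod q) → ℝ)
    (H : (ℕ → ZMod q) → ZMod q → ℝ) (u : (ℕ → ZMod q) → ZMod q)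
    (hH : ∀ x, DepLT t (fun ω => H ω x)) (hH0 : ∀ ω x, 0 ≤ H ω x) (hu : DepLT t u)
    (hune : ∀ ω, Ok Al t ω → u ω ≠ 0) (hcard : ∀ ω, Ok Al t ω → (q:ℝ)/2 ≤ (Al t ω).card)
    (hF : ∀ ω, Ok Al s ω → F ω ≤ H ω (u ω * ω t)) (ω₀ : ℕ → ZMod q) :
    EE Al 0 s F ω₀ ≤ EE Al 0 t (fun ω => (2 / (q:ℝ)) * ∑ x : ZMod q, H ω x) ω₀ := by
  have hq0 : (0:ℝ) < q := by exact_mod_cast (Fact.out : q.Prime).pos
  have h1 : EE Al 0 s F ω₀ ≤ EE Al 0 s (fun ω => H ω (u ω * ω t)) ω₀ :=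
    EE_mono_ok Al hdep s hF ω₀
  have hdep1 : DepLT (t+1) (fun ω => H ω (u ω * ω t)) := by
    intro ω ω' h
    have h2 : u ω = u ω' := hu _ _ (h.mono (Nat.le_succ t))
    have h3 : ω t = ω' t := h t (Nat.lt_succ_self t)
    have h4 := hH (u ω' * ω' t) _ _ (h.mono (Nat.le_succ t))
    show H ω (u ω * ω t) = H ω' (u ω' * ω' t)
    rw [h2, h3]
    exact h4
  rw [EE_cut Al hne (show t + 1 ≤ s from hts) hdep1, EE_succ] at h1
  refine h1.trans (EE_mono_ok Al hdep t ?_ ω₀)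
  intro ω hω
  have hu0 := hune ω hω
  have hc := hcard ω hω
  have hcp : (0:ℝ) < (Al t ω).card := lt_of_lt_of_le (by positivity) hc
  have h5 : ∀ z, H (Function.update ω t z) (u (Function.update ω t z) * (Function.update ω t z) t) =
      H ω (u ω * z) := by
    intro z
    rw [Function.update_self, ← hu _ _ (agr_update t ω z)]
    exact (hH (u ω * z) _ _ (agr_update t ω z)).symm
  have h6 : ∑ z ∈ Al t ω, H ω (u ω * z) ≤ ∑ x : ZMod q, H ω x := by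
    calc ∑ z ∈ Al t ω, H ω (u ω * z) ≤ ∑ z : ZMod q, H ω (u ω * z) :=
          sum_le_sum_of_subset_of_nonneg (subset_univ _) (fun _ _ _ => hH0 _ _)
      _ = ∑ x : ZMod q, H ω x :=
          Fintype.sum_equiv (Equiv.mulLeft₀ (u ω) hu0) _ _ (fun z => rfl)
  show E1 Al t (fun ω => H ω (u ω * ω t)) ω ≤ _
  unfold E1
  simp only [h5]
  have hS : 0 ≤ ∑ x : ZMod q, H ω x := sum_nonneg fun x _ => hH0 ω x
  calc (∑ z ∈ Al t ω, H ω (u ω * z)) / (Al t ω).card ≤ (∑ x : ZMod q, H ω x) / (Al t ω).card :=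
        div_le_div_of_nonneg_right h6 hcp.le
    _ ≤ (∑ x : ZMod q, H ω x) / ((q:ℝ)/2) := div_le_div_of_nonneg_left hS (by positivity) hc
    _ = 2 / (q:ℝ) * ∑ x : ZMod q, H ω x := by field_simp

end dens
end Pool.Agent.H935R2.PS.J2
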