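import Pool.Agent.H935R2.PS.Defs2

set_option autoImplicit false
set_option linter.unusedSectionVars false

/-!
# Core, part 2: dependencies of the arrays
-/

namespace Pool.Agent.H935R2.PS.J2

open Finset

variable {q : ℕ} [Fact q.Prime]

/-- The arrays agree before the cell `(r, j)`. -/
def Lx (r j : ℕ) (a a' : ℕ → ℕ → ZMod q) : Prop :=
  ∀ r' j', (r' < r ∨ (r' = r ∧ j' < j)) → a r' j' = a' r' j'

lemma Lx.row {r j r' j' : ℕ} {a a' : ℕ → ℕ → ZMod q} (h : Lx r j a a') (hr : r' < r) : Lx r' j' a a' := by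
  intro x y hxy
  exact h x y (Or.inl (by omega))

lemma Lx.mono {r j j' : ℕ} {a a' : ℕ → ℕ → ZMod q} (h : Lx r j a a') (hj : j' ≤ j) : Lx r j' a a' := by
  intro x y hxy
  exact h x y (by omega)

lemma bb_congr {a a' : ℕ → ℕ → ZMod q} : ∀ r j : ℕ, Lx r (j+1) a a' → bb a r j = bb a' r j
  | 0, j, h => h 0 j (Or.inr ⟨rfl, Nat.lt_succ_self j⟩)
  | r+1, j, h => by
    have h1 := h (r+1) j (Or.inr ⟨rfl, Nat.lt_succ_self j⟩)
    have h2 := h (r+1) (j-1) (Or.inr ⟨rfl, by omega⟩)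
    have h3 := bb_congr r j (h.row (Nat.lt_succ_self r))
    show - a (r+1) j * bb a r j / a (r+1) (j - 1) = - a' (r+1) j * bb a' r j / a' (r+1) (j - 1)
    rw [h1, h2, h3]

lemma ww_congr {a a' : ℕ → ℕ → ZMod q} (r j : ℕ) (hr : 1 ≤ r) (hj : 1 ≤ j) (h : Lx r j a a') :
    ww a r j = ww a' r j := by
  unfold ww
  rw [h r (j-1) (Or.inr ⟨rfl, by omega⟩), bb_congr (r-1) j (h.row (by omega))]

lemma DD_congr {a a' : ℕ → ℕ → ZMod q} {D0 D0' z z' : ℕ → ZMod q} : ∀ r j : ℕ, 1 ≤ j → Lx r j a a' →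
    (∀ j' ≤ j, D0 j' = D0' j') → (∀ r' ≤ r, z r' = z' r') → DD a D0 z r j = DD a' D0' z' r j
  | 0, j, _, _, hD, _ => hD j le_rfl
  | r+1, j, hj, h, hD, hz => by
    show (z (r+1) + ∑ j' ∈ Icc 1 j, ww a (r+1) j' * DD a D0 z r j') / ww a (r+1) j =
      (z' (r+1) + ∑ j' ∈ Icc 1 j, ww a' (r+1) j' * DD a' D0' z' r j') / ww a' (r+1) j
    rw [hz (r+1) le_rfl, ww_congr (r+1) j (by omega) hj h]
    congr 2
    refine sum_congr rfl fun j' hj' => ?_
    rw [mem_Icc] at hj'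
    rw [ww_congr (r+1) j' (by omega) hj'.1 (h.mono hj'.2),
      DD_congr r j' hj'.1 (h.row (Nat.lt_succ_self r)) (fun x hx => hD x (by omega))
        (fun x hx => hz x (by omega))]

lemma Del_congr {a a' : ℕ → ℕ → ZMod q} {D0 D0' z z' : ℕ → ZMod q} (r j : ℕ) (hr : 1 ≤ r)
    (h : Lx r j a a') (hD : ∀ j' ≤ j, D0 j' = D0' j') (hz : ∀ r' ≤ r, z r' = z' r') :
    Del a D0 z r j = Del a' D0' z' r j := by
  unfold Del
  rw [hz r le_rfl]
  congr 1
  refine sum_congr rfl fun j' hj' => ?_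
  rw [mem_Icc] at hj'
  rw [ww_congr r j' hr hj'.1 (h.mono hj'.2),
    DD_congr (r-1) j' hj'.1 (h.row (by omega)) (fun x hx => hD x (by omega))
      (fun x hx => hz x (by omega))]

/-! ### The array of a path -/

/-- The free units from the path. -/
def aw (n : ℕ) (ω : ℕ → ZMod q) (r j : ℕ) : ZMod q := if r ≤ n ∧ j ≤ n then ω (r * (n+1) + j) else 1

/-- Agreement of paths gives agreement of arrays. -/
lemma aw_Lx {n : ℕ} {ω ω' : ℕ → ZMod q} (r j : ℕ) (h : ∀ i < r * (n+1) + j, ω i = ω' i) :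
    Lx r j (aw n ω) (aw n ω') := by
  intro r' j' hrj
  unfold aw
  split_ifs with hc
  · refine h _ ?_
    rcases hrj with h1 | ⟨h1, h2⟩
    · have h3 : (r' + 1) * (n+1) ≤ r * (n+1) := Nat.mul_le_mul_right _ h1
      have h4 : (r' + 1) * (n+1) = r' * (n+1) + (n+1) := by ring
      omega
    · subst h1
      omega
  · rfl

lemma bb_eq_div (a : ℕ → ℕ → ZMod q) (r j : ℕ) : bb a (r+1) j = (ww a (r+1) j)⁻¹ * a (r+1) j := by
  show - a (r+1) j * bb a r j / a (r+1) (j - 1) = _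
  unfold ww
  rw [Nat.add_sub_cancel, inv_div, div_neg, div_eq_mul_inv, div_eq_mul_inv]
  ring

lemma ww_eq_mul (a : ℕ → ℕ → ZMod q) (r j : ℕ) : ww a r j = (-(bb a (r - 1) j)⁻¹) * a r (j - 1) := by
  unfold ww
  rw [div_eq_mul_inv]
  ring

end Pool.Agent.H935R2.PS.J2
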