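import Pool.Agent.H935R2.PS.J2a
import Pool.Agent.H935R2.PS.J2b
import Pool.Agent.H935R2.PS.H6

set_option autoImplicit false
set_option linter.unusedSectionVars false

/-!
# Core, part 3: the process
-/

namespace Pool.Agent.H935R2.PS.J2

open Finset Pool.Agent.H470D4

variable {q : ℕ} [Fact q.Prime]

open Classical in
/-- The allowed values at the cell `(r, j)`. -/
noncomputable def AlC (n : ℕ) (a : ℕ → ℕ → ZMod q) (r j : ℕ) : Finset (ZMod q) :=
  if r = 0 then (if 1 ≤ j then univ.filter (fun x => good2 x) else {1})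
  else if n < r + j then {1}
  else if j = 0 then (if good2 (bb a (r-1) 1) then Aset0 (bb a (r-1) 1) else {1})
  else if good2 (bb a (r-1) (j+1)) ∧ good2 (ww a r j) then Aset (bb a (r-1) (j+1)) (ww a r j) else {1}

lemma mem_Aset {b w α : ZMod q} : α ∈ Aset b w ↔ lgood α b ∧ pgood α w := by
  unfold Aset
  simp

lemma mem_Aset0 {b α : ZMod q} : α ∈ Aset0 b ↔ lgood α b := by
  unfold Aset0
  simp

/-- The allowed values at the time `s`. -/
noncomputable def Al (n : ℕ) (s : ℕ) (ω : ℕ → ZMod q) : Finset (ZMod q) :=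
  AlC n (aw n ω) (s / (n+1)) (s % (n+1))

lemma AlC_congr (n : ℕ) {a a' : ℕ → ℕ → ZMod q} (r j : ℕ) (h : Lx r j a a') :
    AlC n a r j = AlC n a' r j := by
  unfold AlC
  by_cases hr : r = 0
  · simp [hr]
  · rw [if_neg hr, if_neg hr]
    have h1 : ∀ x, bb a (r-1) x = bb a' (r-1) x := fun x => bb_congr (r-1) x (h.row (by omega))
    rw [h1 1, h1 (j+1)]
    by_cases hj : j = 0
    · simp [hj]
    · rw [ww_congr r j (by omega) (by omega) h]

lemma divmod {n r j : ℕ} (hj : j ≤ n) : (r * (n+1) + j) / (n+1) = r ∧ (r * (n+1) + j) % (n+1) = j := by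
  constructor
  · rw [mul_comm, Nat.mul_add_div (Nat.succ_pos n), Nat.div_eq_of_lt (by omega), add_zero]
  · rw [mul_comm, Nat.mul_add_mod, Nat.mod_eq_of_lt (by omega)]

lemma Al_eq {n r j : ℕ} (hj : j ≤ n) (ω : ℕ → ZMod q) : Al n (r * (n+1) + j) ω = AlC n (aw n ω) r j := by
  unfold Al
  rw [(divmod hj).1, (divmod hj).2]

lemma Lx_of_agr {n s : ℕ} {ω ω' : ℕ → ZMod q} (h : Agr s ω ω') :
    Lx (s / (n+1)) (s % (n+1)) (aw n ω) (aw n ω') := by
  refine aw_Lx _ _ fun i hi => h i ?_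
  have := Nat.div_add_mod s (n+1)
  rw [mul_comm] at this
  omega

lemma Lx_of_agr' {n s r j : ℕ} {ω ω' : ℕ → ZMod q} (h : Agr s ω ω') (hs : r * (n+1) + j ≤ s) :
    Lx r j (aw n ω) (aw n ω') :=
  aw_Lx _ _ fun i hi => h i (by omega)

lemma Al_dep (n : ℕ) (s : ℕ) : DepLT s (Al (q := q) n s) := fun _ _ h =>
  AlC_congr n _ _ (Lx_of_agr h)

/-- standing hypothesis: many allowed values -/
structure Hyp (q : ℕ) [Fact q.Prime] : Prop where
  hA : ∀ b w : ZMod q, good2 b → good2 w → (q:ℝ)/2 ≤ (Aset b w).card ∧ (q:ℝ)/2 ≤ (Aset0 b).card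
  hG : ∀ s : Finset (ZMod q), (∀ x, x ∈ s ↔ good2 x) → (q:ℝ)/2 ≤ s.card

lemma card_pos_of {q : ℕ} [Fact q.Prime] {s : Finset (ZMod q)} (h : (q:ℝ)/2 ≤ s.card) : s.Nonempty := by
  rw [← card_pos]
  have hq0 : (0:ℝ) < q := by exact_mod_cast (Fact.out : q.Prime).pos
  have : (0:ℝ) < s.card := lt_of_lt_of_le (by positivity) h
  exact_mod_cast this

lemma AlC_ne (H : Hyp q) (n : ℕ) (a : ℕ → ℕ → ZMod q) (r j : ℕ) : (AlC n a r j).Nonempty := by
  classical
  unfold AlC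
  split_ifs with h1 h2 h3 h4 h5 h6
  · exact card_pos_of (H.hG _ (fun x => by simp))
  · exact singleton_nonempty _
  · exact singleton_nonempty _
  · exact card_pos_of (H.hA _ _ h5 h5).2
  · exact singleton_nonempty _
  · exact card_pos_of (H.hA _ _ h6.1 h6.2).1
  · exact singleton_nonempty _

lemma Al_ne (H : Hyp q) (n : ℕ) (s : ℕ) (ω : ℕ → ZMod q) : (Al n s ω).Nonempty := AlC_ne H n _ _ _

/-! ### Allowed paths are good -/

lemma ok_mem {n s : ℕ} {ω : ℕ → ZMod q} (hok : Ok (Al n) s ω) {r j : ℕ} (hrj : r + j ≤ n)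
    (hs : r * (n+1) + j < s) : aw n ω r j ∈ AlC n (aw n ω) r j := by
  have h := hok _ hs
  rw [Al_eq (by omega)] at h
  have h2 : aw n ω r j = ω (r * (n+1) + j) := by
    unfold aw
    rw [if_pos ⟨by omega, by omega⟩]
  rw [h2]
  exact h

lemma ok_ww {n s : ℕ} {ω : ℕ → ZMod q} (hok : Ok (Al n) s ω) {r : ℕ} (hr : 1 ≤ r)
    (hrow : ∀ j, 1 ≤ j → r - 1 + j ≤ n → (r-1) * (n+1) + j < s → good2 (bb (aw n ω) (r-1) j)) :
    ∀ j, r + (j+1) ≤ n+1 → r * (n+1) + j < s → good2 (ww (aw n ω) r (j+1)) := by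
  have hrm : r * (n+1) = (r-1) * (n+1) + (n+1) := by
    obtain ⟨r', rfl⟩ := Nat.exists_eq_add_of_le hr
    rw [Nat.add_sub_cancel_left]
    ring
  intro j
  induction j with
  | zero =>
    intro h1 h2
    have hb := hrow 1 le_rfl (by omega) (by omega)
    have hm := ok_mem hok (r := r) (j := 0) (by omega) h2
    unfold AlC at hm
    rw [if_neg (by omega), if_neg (by omega), if_pos rfl, if_pos hb] at hm
    exact (lgood_good2 (mem_Aset0.mp hm)).2.2
  | succ j ih =>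
    intro h1 h2
    have hb := hrow (j+1+1) (by omega) (by omega) (by omega)
    have hw := ih (by omega) (by omega)
    have hm := ok_mem hok (r := r) (j := j+1) (by omega) h2
    unfold AlC at hm
    rw [if_neg (by omega), if_neg (by omega), if_neg (by omega), if_pos ⟨hb, hw⟩] at hm
    exact (lgood_good2 (mem_Aset.mp hm).1).2.2

lemma ok_bb {n s : ℕ} {ω : ℕ → ZMod q} (hok : Ok (Al n) s ω) :
    ∀ r j, 1 ≤ j → r + j ≤ n → r * (n+1) + j < s → good2 (bb (aw n ω) r j) := by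
  intro r
  induction r with
  | zero =>
    intro j hj h1 h2
    have hm := ok_mem hok (r := 0) (j := j) (by omega) h2
    unfold AlC at hm
    rw [if_pos rfl, if_pos hj] at hm
    have hm2 : good2 (aw n ω 0 j) := by simpa using hm
    exact hm2
  | succ r ih =>
    intro j hj h1 h2
    obtain ⟨j', rfl⟩ := Nat.exists_eq_add_of_le hj
    have hrm : (r+1) * (n+1) = r * (n+1) + (n+1) := by ring
    have hb := ih (1 + j' + 1) (by omega) (by omega) (by omega)
    have hw : good2 (ww (aw n ω) (r+1) (1 + j')) := by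
      have := ok_ww hok (r := r+1) (by omega) (fun j h1 h2 h3 => ih j h1 h2 h3) j' (by omega) (by omega)
      rw [add_comm 1 j']
      exact this
    have hm := ok_mem hok (r := r+1) (j := 1 + j') (by omega) h2
    unfold AlC at hm
    rw [if_neg (by omega), if_neg (by omega), if_neg (by omega), if_pos ⟨hb, hw⟩] at hm
    rw [bb_eq_div, mul_comm, ← div_eq_mul_inv]
    exact (pgood_good2 (mem_Aset.mp hm).2).2.2

lemma ok_ww' {n s : ℕ} {ω : ℕ → ZMod q} (hok : Ok (Al n) s ω) {r j : ℕ} (hr : 1 ≤ r) (hj : 1 ≤ j)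
    (h : r + j ≤ n+1) (hs : r * (n+1) + j ≤ s) : good2 (ww (aw n ω) r j) := by
  obtain ⟨j', rfl⟩ := Nat.exists_eq_add_of_le hj
  rw [add_comm 1 j']
  exact ok_ww hok hr (fun j h1 h2 h3 => ok_bb hok _ j h1 h2 h3) j' (by omega) (by omega)

/-- The number of allowed values along allowed paths. -/
lemma ok_card (H : Hyp q) {n t : ℕ} {ω : ℕ → ZMod q} (hok : Ok (Al n) t ω) {r j : ℕ}
    (hrj : r + j ≤ n) (h1 : 1 ≤ r + j) (ht : t = r * (n+1) + j) : (q:ℝ)/2 ≤ (Al n t ω).card := by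
  classical
  subst ht
  rw [Al_eq (by omega)]
  unfold AlC
  by_cases hr : r = 0
  · rw [if_pos hr, if_pos (by omega)]
    exact H.hG _ (fun x => by simp)
  have hrm : r * (n+1) = (r-1) * (n+1) + (n+1) := by
    obtain ⟨r', rfl⟩ := Nat.exists_eq_add_of_le (Nat.one_le_iff_ne_zero.mpr hr)
    rw [Nat.add_sub_cancel_left]
    ring
  rw [if_neg hr, if_neg (by omega)]
  by_cases hj : j = 0
  · have hb := ok_bb hok (r-1) 1 le_rfl (by omega) (by omega)
    rw [if_pos hj, if_pos hb]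
    exact (H.hA _ _ hb hb).2
  · have hb := ok_bb hok (r-1) (j+1) (by omega) (by omega) (by omega)
    have hw := ok_ww' hok (r := r) (j := j) (by omega) (by omega) (by omega) le_rfl
    rw [if_neg hj, if_pos ⟨hb, hw⟩]
    exact (H.hA _ _ hb hw).1

/-! ### Density steps -/

lemma step_bb (H : Hyp q) {n s : ℕ} (r j : ℕ) (hj : 1 ≤ j) (hrj : r + j ≤ n) (hs : r * (n+1) + j < s)
    (F : (ℕ → ZMod q) → ℝ) (K : (ℕ → ZMod q) → ZMod q → ℝ)
    (hK : ∀ x, DepLT (r * (n+1) + j) (fun ω => K ω x)) (hK0 : ∀ ω x, 0 ≤ K ω x)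
    (hF : ∀ ω, Ok (Al n) s ω → F ω ≤ K ω (bb (aw n ω) r j)) (ω₀ : ℕ → ZMod q) :
    EE (Al n) 0 s F ω₀ ≤ EE (Al n) 0 (r * (n+1) + j) (fun ω => (2 / (q:ℝ)) * ∑ x : ZMod q, K ω x) ω₀ := by
  have hval : ∀ ω : ℕ → ZMod q, aw n ω r j = ω (r * (n+1) + j) := by
    intro ω
    unfold aw
    rw [if_pos ⟨by omega, by omega⟩]
  refine dens (Al n) (Al_ne H n) (Al_dep n) (r * (n+1) + j) s hs F K
    (fun ω => if r = 0 then 1 else (ww (aw n ω) r j)⁻¹) hK hK0 ?_ ?_ ?_ ?_ ω₀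
  · intro ω ω' h
    show (if r = 0 then (1 : ZMod q) else (ww (aw n ω) r j)⁻¹) = if r = 0 then 1 else (ww (aw n ω') r j)⁻¹
    by_cases hr : r = 0
    · rw [if_pos hr, if_pos hr]
    · rw [if_neg hr, if_neg hr, ww_congr r j (by omega) hj (Lx_of_agr' h le_rfl)]
  · intro ω hok
    show (if r = 0 then (1 : ZMod q) else (ww (aw n ω) r j)⁻¹) ≠ 0
    by_cases hr : r = 0
    · rw [if_pos hr]; exact one_ne_zero
    · rw [if_neg hr]
      exact inv_ne_zero (ok_ww' hok (by omega) hj (by omega) le_rfl).1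
  · intro ω hok
    exact ok_card H hok hrj (by omega) rfl
  · intro ω hok
    show F ω ≤ K ω ((if r = 0 then (1 : ZMod q) else (ww (aw n ω) r j)⁻¹) * ω (r * (n+1) + j))
    have h1 : (if r = 0 then (1 : ZMod q) else (ww (aw n ω) r j)⁻¹) * ω (r * (n+1) + j) =
        bb (aw n ω) r j := by
      by_cases hr : r = 0
      · subst hr
        rw [if_pos rfl, one_mul, ← hval ω]
        rfl
      · rw [if_neg hr]
        obtain ⟨r', rfl⟩ := Nat.exists_eq_succ_of_ne_zero hr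
        rw [bb_eq_div, hval]
    rw [h1]
    exact hF ω hok

lemma step_ww (H : Hyp q) {n s : ℕ} (r j : ℕ) (hr : 1 ≤ r) (hrj : r + j ≤ n)
    (hs : r * (n+1) + j < s)
    (F : (ℕ → ZMod q) → ℝ) (K : (ℕ → ZMod q) → ZMod q → ℝ)
    (hK : ∀ x, DepLT (r * (n+1) + j) (fun ω => K ω x)) (hK0 : ∀ ω x, 0 ≤ K ω x)
    (hF : ∀ ω, Ok (Al n) s ω → F ω ≤ K ω (ww (aw n ω) r (j+1))) (ω₀ : ℕ → ZMod q) :
    EE (Al n) 0 s F ω₀ ≤ EE (Al n) 0 (r * (n+1) + j) (fun ω => (2 / (q:ℝ)) * ∑ x : ZMod q, K ω x) ω₀ := by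
  have hval : ∀ ω : ℕ → ZMod q, aw n ω r j = ω (r * (n+1) + j) := by
    intro ω
    unfold aw
    rw [if_pos ⟨by omega, by omega⟩]
  have hrm : r * (n+1) = (r-1) * (n+1) + (n+1) := by
    obtain ⟨r', rfl⟩ := Nat.exists_eq_add_of_le hr
    rw [Nat.add_sub_cancel_left]
    ring
  refine dens (Al n) (Al_ne H n) (Al_dep n) (r * (n+1) + j) s hs F K
    (fun ω => -(bb (aw n ω) (r-1) (j+1))⁻¹) hK hK0 ?_ ?_ ?_ ?_ ω₀
  · intro ω ω' h
    show -(bb (aw n ω) (r-1) (j+1))⁻¹ = -(bb (aw n ω') (r-1) (j+1))⁻¹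
    rw [bb_congr (r-1) (j+1) ((Lx_of_agr' (r := r) (j := j) h le_rfl).row (by omega))]
  · intro ω hok
    exact neg_ne_zero.mpr (inv_ne_zero (ok_bb hok (r-1) (j+1) (by omega) (by omega) (by omega)).1)
  · intro ω hok
    exact ok_card H hok hrj (by omega) rfl
  · intro ω hok
    show F ω ≤ K ω (-(bb (aw n ω) (r-1) (j+1))⁻¹ * ω (r * (n+1) + j))
    have h1 : -(bb (aw n ω) (r-1) (j+1))⁻¹ * ω (r * (n+1) + j) = ww (aw n ω) r (j+1) := by
      rw [ww_eq_mul, Nat.add_sub_cancel, hval]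
    rw [h1]
    exact hF ω hok

end Pool.Agent.H935R2.PS.J2
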