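import Pool.Agent.H935R2.PS.J2c

set_option autoImplicit false
set_option linter.unusedSectionVars false

/-!
# Core, part 4: the cells of the process, drift
-/

namespace Pool.Agent.H935R2.PS.J2

open Finset Pool.Agent.H470D4

variable {q : ℕ} [Fact q.Prime]

open Classical in
/-- Plane cell with indicator. -/
noncomputable def XP (n : ℕ) (a : ℕ → ℕ → ZMod q) (D0 z : ℕ → ZMod q) (t1 t2 t3 : ℕ → ℕ) (r j : ℕ) : ℝ :=
  if 1 ≤ r ∧ 1 ≤ j ∧ r + j ≤ n ∧ good2 (bb a (r-1) j) ∧ good2 (bb a (r-1) (j+1)) ∧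
      (j = 1 ∨ good2 (ww a r (j-1))) ∧ pgood (a r j) (ww a r j) then
    Xp (Del a D0 z r (j - 1)) (DD a D0 z (r - 1) j) (a r j) (ww a r j) (t1 (n + 1 - r - j)) (t2 r) (t3 j)
  else 0

open Classical in
/-- Line cell with indicator. -/
noncomputable def XL (n : ℕ) (a : ℕ → ℕ → ZMod q) (D0 z : ℕ → ZMod q) (t1 t2 t3 : ℕ → ℕ) (r j : ℕ) : ℝ :=
  if 1 ≤ r ∧ r + j ≤ n ∧ good2 (bb a (r-1) (j+1)) ∧ (j = 0 ∨ good2 (ww a r j)) ∧
      lgood (a r j) (bb a (r-1) (j+1)) then
    Xl (Del a D0 z r j) (DD a D0 z (r - 1) (j + 1)) (a r j) (bb a (r - 1) (j + 1))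
      (t1 (n + 1 - r - j)) (t2 r) (t3 (j + 1))
  else 0

lemma XP_congr {n : ℕ} {a a' : ℕ → ℕ → ZMod q} {D0 z : ℕ → ZMod q} {t1 t2 t3 : ℕ → ℕ} (r j : ℕ)
    (h : Lx r (j+1) a a') : XP n a D0 z t1 t2 t3 r j = XP n a' D0 z t1 t2 t3 r j := by
  by_cases hc : 1 ≤ r ∧ 1 ≤ j
  · obtain ⟨hr, hj⟩ := hc
    unfold XP
    rw [bb_congr (r-1) j (h.row (by omega)), bb_congr (r-1) (j+1) (h.row (by omega)),
      ww_congr r j hr hj (h.mono (by omega)), h r j (Or.inr ⟨rfl, by omega⟩),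
      Del_congr (D0 := D0) (D0' := D0) (z := z) (z' := z) r (j-1) hr (h.mono (by omega))
        (fun _ _ => rfl) (fun _ _ => rfl),
      DD_congr (D0 := D0) (D0' := D0) (z := z) (z' := z) (r-1) j hj (h.row (by omega))
        (fun _ _ => rfl) (fun _ _ => rfl)]
    have hor : (j = 1 ∨ good2 (ww a r (j-1))) = (j = 1 ∨ good2 (ww a' r (j-1))) := by
      by_cases hj1 : j = 1
      · simp [hj1]
      · rw [ww_congr r (j-1) hr (by omega) (h.mono (by omega))]
    classical exact if_congr (by rw [hor]) rfl rfl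
  · unfold XP
    rw [if_neg (fun h => hc ⟨h.1, h.2.1⟩), if_neg (fun h => hc ⟨h.1, h.2.1⟩)]

lemma XL_congr {n : ℕ} {a a' : ℕ → ℕ → ZMod q} {D0 z : ℕ → ZMod q} {t1 t2 t3 : ℕ → ℕ} (r j : ℕ)
    (h : Lx r (j+1) a a') : XL n a D0 z t1 t2 t3 r j = XL n a' D0 z t1 t2 t3 r j := by
  by_cases hr : 1 ≤ r
  · unfold XL
    rw [bb_congr (r-1) (j+1) (h.row (by omega)), h r j (Or.inr ⟨rfl, by omega⟩),
      Del_congr (D0 := D0) (D0' := D0) (z := z) (z' := z) r j hr (h.mono (by omega))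
        (fun _ _ => rfl) (fun _ _ => rfl),
      DD_congr (D0 := D0) (D0' := D0) (z := z) (z' := z) (r-1) (j+1) (by omega) (h.row (by omega))
        (fun _ _ => rfl) (fun _ _ => rfl)]
    have hor : (j = 0 ∨ good2 (ww a r j)) = (j = 0 ∨ good2 (ww a' r j)) := by
      by_cases hj1 : j = 0
      · simp [hj1]
      · rw [ww_congr r j hr (by omega) (h.mono (by omega))]
    classical exact if_congr (by rw [hor]) rfl rfl
  · unfold XL
    rw [if_neg (fun h => hr h.1), if_neg (fun h => hr h.1)]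

/-- The conditional means (from tasks I1, I2). -/
structure Hyp2 (q : ℕ) [Fact q.Prime] (P0 : ZMod q → ZMod q → ℝ) (P : ZMod q → ZMod q → ZMod q → ℝ)
    (L0 : ZMod q → ℝ) (L : ZMod q → ZMod q → ℝ) (M : ℝ) : Prop where
  P0n : ∀ x y, 0 ≤ P0 x y
  Pn : ∀ x y z, 0 ≤ P x y z
  L0n : ∀ x, 0 ≤ L0 x
  Ln : ∀ x y, 0 ≤ L x y
  P0s : ∑ x : ZMod q, ∑ z : ZMod q, P0 x z ≤ M * (q:ℝ) ^ 2
  Ps : ∑ x : ZMod q, ∑ y : ZMod q, ∑ z : ZMod q, P x y z ≤ M * (q:ℝ) ^ 3
  L0s : ∑ x : ZMod q, L0 x ≤ M * q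
  Ls : ∑ x : ZMod q, ∑ z : ZMod q, L x z ≤ M * (q:ℝ) ^ 2
  Pm : ∀ b'' w' b : ZMod q, good2 b'' → good2 w' → good2 b →
      ∀ (c c' : ZMod q) (t1 t2 t3 : ℕ), t1 < q → t2 < q → t3 < q →
      |(∑ x ∈ Aset b'' w', (∑ a ∈ Aset b (-x / b''), Xp c c' a (-x / b'') t1 t2 t3) /
        (Aset b (-x / b'')).card) / (Aset b'' w').card| ≤ P b'' w' b
  P0m : ∀ b'' b : ZMod q, good2 b'' → good2 b →
      ∀ (c c' : ZMod q) (t1 t2 t3 : ℕ), t1 < q → t2 < q → t3 < q →
      |(∑ x ∈ Aset0 b'', (∑ a ∈ Aset b (-x / b''), Xp c c' a (-x / b'') t1 t2 t3) /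
        (Aset b (-x / b'')).card) / (Aset0 b'').card| ≤ P0 b'' b
  Lm : ∀ b w : ZMod q, good2 b → good2 w →
      ∀ (c2 c3 : ZMod q) (t1 t2 t3 : ℕ), t1 < q → t2 < q → t3 < q →
      |(∑ α ∈ Aset b w, Xl c2 c3 α b t1 t2 t3) / (Aset b w).card| ≤ L b w
  L0m : ∀ b : ZMod q, good2 b →
      ∀ (c2 c3 : ZMod q) (t1 t2 t3 : ℕ), t1 < q → t2 < q → t3 < q →
      |(∑ α ∈ Aset0 b, Xl c2 c3 α b t1 t2 t3) / (Aset0 b).card| ≤ L0 b

variable {P0 : ZMod q → ZMod q → ℝ} {P : ZMod q → ZMod q → ZMod q → ℝ} {L0 : ZMod q → ℝ}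
  {L : ZMod q → ZMod q → ℝ} {M : ℝ}

/-- The drift bound of a plane cell. -/
noncomputable def FP (P0 : ZMod q → ZMod q → ℝ) (P : ZMod q → ZMod q → ZMod q → ℝ)
    (a : ℕ → ℕ → ZMod q) (r j : ℕ) : ℝ :=
  if j = 1 then P0 (bb a (r-1) 1) (bb a (r-1) 2) else P (bb a (r-1) j) (ww a r (j-1)) (bb a (r-1) (j+1))

/-- The drift bound of a line cell. -/
noncomputable def FL (L0 : ZMod q → ℝ) (L : ZMod q → ZMod q → ℝ)
    (a : ℕ → ℕ → ZMod q) (r j : ℕ) : ℝ :=
  if j = 0 then L0 (bb a (r-1) 1) else L (bb a (r-1) (j+1)) (ww a r j)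

lemma E1_zero (Al : ℕ → (ℕ → ZMod q) → Finset (ZMod q)) (s : ℕ) (f : (ℕ → ZMod q) → ℝ)
    (ω : ℕ → ZMod q) (h : ∀ x, f (Function.update ω s x) = 0) : E1 Al s f ω = 0 := by
  unfold E1
  rw [sum_eq_zero (fun x _ => h x), zero_div]

lemma drift_P (H2 : Hyp2 q P0 P L0 L M) {n r j : ℕ} (hr : 1 ≤ r) (hrj : r + (j+1) ≤ n)
    (D0 z : ℕ → ZMod q) (t1 t2 t3 : ℕ → ℕ) (h1 : ∀ i, t1 i < q) (h2 : ∀ i, t2 i < q)
    (h3 : ∀ i, t3 i < q) (ω : ℕ → ZMod q) :
    |E1 (Al n) (r * (n+1) + j) (E1 (Al n) (r * (n+1) + (j+1))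
      (fun ω' => XP n (aw n ω') D0 z t1 t2 t3 r (j+1))) ω| ≤ FP P0 P (aw n ω) r (j+1) := by
  set s := r * (n+1) + j with hs
  have hs1 : r * (n+1) + (j+1) = s + 1 := by omega
  have hAl1 : ∀ ω' : ℕ → ZMod q, Al n (s+1) ω' = AlC n (aw n ω') r (j+1) := by
    intro ω'
    rw [← hs1]
    exact Al_eq (by omega) ω'
  have hAl0 : Al n s ω = AlC n (aw n ω) r j := Al_eq (by omega) ω
  rw [hs1]
  set a := aw n ω with ha
  -- the updated arrays
  have hLx1 : ∀ x : ZMod q, Lx r j a (aw n (Function.update ω s x)) := fun x =>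
    Lx_of_agr' (agr_update s ω x) (by omega)
  have hLx2 : ∀ x y : ZMod q, Lx r j a (aw n (Function.update (Function.update ω s x) (s+1) y)) :=
    fun x y => Lx_of_agr' ((agr_update s ω x).trans ((agr_update (s+1) _ y).mono (by omega)))
      (by omega)
  have hx1 : ∀ x : ZMod q, aw n (Function.update ω s x) r j = x := by
    intro x
    unfold aw
    rw [if_pos ⟨by omega, by omega⟩, ← hs, Function.update_self]
  have hx2 : ∀ x y : ZMod q, aw n (Function.update (Function.update ω s x) (s+1) y) r j = x := by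
    intro x y
    unfold aw
    rw [if_pos ⟨by omega, by omega⟩, ← hs, Function.update_of_ne (by omega), Function.update_self]
  have hy2 : ∀ x y : ZMod q, aw n (Function.update (Function.update ω s x) (s+1) y) r (j+1) = y := by
    intro x y
    unfold aw
    rw [if_pos ⟨by omega, by omega⟩, hs1, Function.update_self]
  by_cases hg : good2 (bb a (r-1) (j+1)) ∧ good2 (bb a (r-1) (j+2)) ∧ (j = 0 ∨ good2 (ww a r j))
  · obtain ⟨hg1, hg2, hg3⟩ := hg
    -- allowed values at time s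
    have hA0 : Al n s ω = if j = 0 then Aset0 (bb a (r-1) (j+1)) else Aset (bb a (r-1) (j+1)) (ww a r j) := by
      rw [hAl0]
      unfold AlC
      rw [if_neg (by omega), if_neg (by omega)]
      by_cases hj : j = 0
      · subst hj
        rw [if_pos rfl, if_pos rfl, if_pos hg1]
      · rw [if_neg hj, if_neg hj, if_pos ⟨hg1, hg3.resolve_left hj⟩]
    have hlg : ∀ x ∈ Al n s ω, good2 (-x / bb a (r-1) (j+1)) := by
      intro x hx
      rw [hA0] at hx
      by_cases hj : j = 0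
      · rw [if_pos hj] at hx
        exact (lgood_good2 (mem_Aset0.mp hx)).2.2
      · rw [if_neg hj] at hx
        exact (lgood_good2 (mem_Aset.mp hx).1).2.2
    have hww1 : ∀ x : ZMod q, ww (aw n (Function.update ω s x)) r (j+1) = -x / bb a (r-1) (j+1) := by
      intro x
      unfold ww
      rw [Nat.add_sub_cancel, hx1, bb_congr (r-1) (j+1) ((hLx1 x).row (by omega))]
    have hww2 : ∀ x y : ZMod q, ww (aw n (Function.update (Function.update ω s x) (s+1) y)) r (j+1) =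
        -x / bb a (r-1) (j+1) := by
      intro x y
      unfold ww
      rw [Nat.add_sub_cancel, hx2, bb_congr (r-1) (j+1) ((hLx2 x y).row (by omega))]
    have hA1 : ∀ x ∈ Al n s ω, Al n (s+1) (Function.update ω s x) =
        Aset (bb a (r-1) (j+2)) (-x / bb a (r-1) (j+1)) := by
      intro x hx
      rw [hAl1]
      unfold AlC
      rw [if_neg (by omega), if_neg (by omega), if_neg (by omega), hww1,
        ← bb_congr (r-1) (j+1+1) ((hLx1 x).row (by omega)), if_pos ⟨hg2, hlg x hx⟩]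
    have hval : E1 (Al n) s (E1 (Al n) (s+1) (fun ω' => XP n (aw n ω') D0 z t1 t2 t3 r (j+1))) ω =
        (∑ x ∈ Al n s ω, (∑ y ∈ Aset (bb a (r-1) (j+2)) (-x / bb a (r-1) (j+1)),
          Xp (Del a D0 z r j) (DD a D0 z (r-1) (j+1)) y (-x / bb a (r-1) (j+1))
            (t1 (n + 1 - r - (j+1))) (t2 r) (t3 (j+1))) /
          (Aset (bb a (r-1) (j+2)) (-x / bb a (r-1) (j+1))).card) / (Al n s ω).card := by
      show (∑ x ∈ Al n s ω, E1 (Al n) (s+1) _ (Function.update ω s x)) / _ = _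
      congr 1
      refine sum_congr rfl fun x hx => ?_
      show (∑ y ∈ Al n (s+1) (Function.update ω s x), XP n (aw n (Function.update
        (Function.update ω s x) (s+1) y)) D0 z t1 t2 t3 r (j+1)) / _ = _
      rw [hA1 x hx]
      congr 1
      refine sum_congr rfl fun y hy => ?_
      unfold XP
      rw [hww2, hy2, ← bb_congr (r-1) (j+1) ((hLx2 x y).row (by omega)),
        ← bb_congr (r-1) (j+1+1) ((hLx2 x y).row (by omega)), Nat.add_sub_cancel,
        ← Del_congr (D0 := D0) (D0' := D0) (z := z) (z' := z) r j hr (hLx2 x y)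
          (fun _ _ => rfl) (fun _ _ => rfl),
        ← DD_congr (D0 := D0) (D0' := D0) (z := z) (z' := z) (r-1) (j+1) (by omega)
          ((hLx2 x y).row (by omega)) (fun _ _ => rfl) (fun _ _ => rfl)]
      rw [if_pos]
      refine ⟨hr, by omega, hrj, hg1, hg2, ?_, (mem_Aset.mp hy).2⟩
      by_cases hj : j = 0
      · left; omega
      · right
        rw [← ww_congr r j hr (by omega) (hLx2 x y)]
        exact hg3.resolve_left hj
    rw [hval]
    unfold FP
    by_cases hj : j = 0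
    · subst hj
      rw [if_pos rfl]
      rw [if_pos rfl] at hA0
      rw [hA0]
      exact H2.P0m _ _ hg1 hg2 _ _ _ _ _ (h1 _) (h2 _) (h3 _)
    · rw [if_neg (by omega)]
      rw [if_neg hj] at hA0
      rw [hA0, Nat.add_sub_cancel]
      exact H2.Pm _ _ _ hg1 (hg3.resolve_left hj) hg2 _ _ _ _ _ (h1 _) (h2 _) (h3 _)
  · have h0 : E1 (Al n) s (E1 (Al n) (s+1) (fun ω' => XP n (aw n ω') D0 z t1 t2 t3 r (j+1))) ω = 0 := by
      refine E1_zero _ _ _ _ fun x => E1_zero _ _ _ _ fun y => ?_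
      show XP n (aw n (Function.update (Function.update ω s x) (s+1) y)) D0 z t1 t2 t3 r (j+1) = 0
      unfold XP
      rw [if_neg]
      rintro ⟨-, -, -, hb1, hb2, hb3, -⟩
      refine hg ⟨?_, ?_, ?_⟩
      · rw [bb_congr (r-1) (j+1) ((hLx2 x y).row (by omega))]; exact hb1
      · rw [bb_congr (r-1) (j+2) ((hLx2 x y).row (by omega))]; exact hb2
      · by_cases hj : j = 0
        · left; exact hj
        · right
          rw [ww_congr r j hr (by omega) (hLx2 x y)]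
          rw [Nat.add_sub_cancel] at hb3
          exact hb3.resolve_left (by omega)
    rw [h0, abs_zero]
    unfold FP
    split_ifs
    · exact H2.P0n _ _
    · exact H2.Pn _ _ _

lemma drift_L (H2 : Hyp2 q P0 P L0 L M) {n r j : ℕ} (hr : 1 ≤ r) (hrj : r + j ≤ n)
    (D0 z : ℕ → ZMod q) (t1 t2 t3 : ℕ → ℕ) (h1 : ∀ i, t1 i < q) (h2 : ∀ i, t2 i < q)
    (h3 : ∀ i, t3 i < q) (ω : ℕ → ZMod q) :
    |E1 (Al n) (r * (n+1) + j) (fun ω' => XL n (aw n ω') D0 z t1 t2 t3 r j) ω| ≤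
      FL L0 L (aw n ω) r j := by
  set s := r * (n+1) + j with hs
  have hAl0 : Al n s ω = AlC n (aw n ω) r j := Al_eq (by omega) ω
  set a := aw n ω with ha
  have hLx1 : ∀ x : ZMod q, Lx r j a (aw n (Function.update ω s x)) := fun x =>
    Lx_of_agr' (agr_update s ω x) (by omega)
  have hx1 : ∀ x : ZMod q, aw n (Function.update ω s x) r j = x := by
    intro x
    unfold aw
    rw [if_pos ⟨by omega, by omega⟩, ← hs, Function.update_self]
  by_cases hg : good2 (bb a (r-1) (j+1)) ∧ (j = 0 ∨ good2 (ww a r j))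
  · obtain ⟨hg1, hg3⟩ := hg
    have hA0 : Al n s ω = if j = 0 then Aset0 (bb a (r-1) (j+1)) else Aset (bb a (r-1) (j+1)) (ww a r j) := by
      rw [hAl0]
      unfold AlC
      rw [if_neg (by omega), if_neg (by omega)]
      by_cases hj : j = 0
      · subst hj
        rw [if_pos rfl, if_pos rfl, if_pos hg1]
      · rw [if_neg hj, if_neg hj, if_pos ⟨hg1, hg3.resolve_left hj⟩]
    have hlg : ∀ x ∈ Al n s ω, lgood x (bb a (r-1) (j+1)) := by
      intro x hx
      rw [hA0] at hx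
      by_cases hj : j = 0
      · rw [if_pos hj] at hx
        exact mem_Aset0.mp hx
      · rw [if_neg hj] at hx
        exact (mem_Aset.mp hx).1
    have hval : E1 (Al n) s (fun ω' => XL n (aw n ω') D0 z t1 t2 t3 r j) ω =
        (∑ x ∈ Al n s ω, Xl (Del a D0 z r j) (DD a D0 z (r-1) (j+1)) x (bb a (r-1) (j+1))
            (t1 (n + 1 - r - j)) (t2 r) (t3 (j+1))) / (Al n s ω).card := by
      show (∑ x ∈ Al n s ω, XL n (aw n (Function.update ω s x)) D0 z t1 t2 t3 r j) / _ = _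
      congr 1
      refine sum_congr rfl fun x hx => ?_
      unfold XL
      rw [hx1, ← bb_congr (r-1) (j+1) ((hLx1 x).row (by omega)),
        ← Del_congr (D0 := D0) (D0' := D0) (z := z) (z' := z) r j hr (hLx1 x)
          (fun _ _ => rfl) (fun _ _ => rfl),
        ← DD_congr (D0 := D0) (D0' := D0) (z := z) (z' := z) (r-1) (j+1) (by omega)
          ((hLx1 x).row (by omega)) (fun _ _ => rfl) (fun _ _ => rfl)]
      rw [if_pos]
      refine ⟨hr, hrj, hg1, ?_, hlg x hx⟩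
      by_cases hj : j = 0
      · left; exact hj
      · right
        rw [← ww_congr r j hr (by omega) (hLx1 x)]
        exact hg3.resolve_left hj
    rw [hval]
    unfold FL
    by_cases hj : j = 0
    · subst hj
      rw [if_pos rfl]
      rw [if_pos rfl] at hA0
      rw [hA0]
      exact H2.L0m _ hg1 _ _ _ _ _ (h1 _) (h2 _) (h3 _)
    · rw [if_neg hj]
      rw [if_neg hj] at hA0
      rw [hA0]
      exact H2.Lm _ _ hg1 (hg3.resolve_left hj) _ _ _ _ _ (h1 _) (h2 _) (h3 _)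
  · have h0 : E1 (Al n) s (fun ω' => XL n (aw n ω') D0 z t1 t2 t3 r j) ω = 0 := by
      refine E1_zero _ _ _ _ fun x => ?_
      show XL n (aw n (Function.update ω s x)) D0 z t1 t2 t3 r j = 0
      unfold XL
      rw [if_neg]
      rintro ⟨-, -, hb1, hb3, -⟩
      refine hg ⟨?_, ?_⟩
      · rw [bb_congr (r-1) (j+1) ((hLx1 x).row (by omega))]; exact hb1
      · by_cases hj : j = 0
        · left; exact hj
        · right
          rw [ww_congr r j hr (by omega) (hLx1 x)]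
          exact hb3.resolve_left hj
    rw [h0, abs_zero]
    unfold FL
    split_ifs
    · exact H2.L0n _
    · exact H2.Ln _ _

end Pool.Agent.H935R2.PS.J2
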