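import Pool.Agent.H935R2.PS.J2d

set_option autoImplicit false
set_option linter.unusedSectionVars false

/-!
# Core, part 5: expectations
-/

namespace Pool.Agent.H935R2.PS.J2

open Finset Pool.Agent.H470D4

variable {q : ℕ} [Fact q.Prime]
variable {P0 : ZMod q → ZMod q → ℝ} {P : ZMod q → ZMod q → ZMod q → ℝ} {L0 : ZMod q → ℝ}
  {L : ZMod q → ZMod q → ℝ} {M : ℝ}

lemma q_pos' : (0:ℝ) < q := by exact_mod_cast (Fact.out : q.Prime).pos

lemma M_nonneg (H2 : Hyp2 q P0 P L0 L M) : 0 ≤ M := by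
  have h1 : 0 ≤ ∑ x : ZMod q, L0 x := sum_nonneg fun x _ => H2.L0n x
  have h2 := h1.trans H2.L0s
  have hq := q_pos' (q := q)
  by_contra h
  push Not at h
  have : M * q < 0 := mul_neg_of_neg_of_pos h hq
  linarith

lemma rm {r n : ℕ} (hr : 1 ≤ r) : r * (n+1) = (r-1) * (n+1) + (n+1) := by
  obtain ⟨r', rfl⟩ := Nat.exists_eq_add_of_le hr
  rw [Nat.add_sub_cancel_left]
  ring

lemma EE_const (H : Hyp q) (n t : ℕ) (c : ℝ) (ω₀ : ℕ → ZMod q) :
    EE (Al (q := q) n) 0 t (fun _ => c) ω₀ = c :=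
  EE_dep (Al n) (Al_ne H n) 0 t (g := fun _ => c) (fun _ _ _ => rfl) ω₀

lemma dep_bb {n t : ℕ} {ω ω' : ℕ → ZMod q} (hag : Agr t ω ω') (r j : ℕ)
    (h : r * (n+1) + (j+1) ≤ t) : bb (aw n ω) r j = bb (aw n ω') r j :=
  bb_congr r j (Lx_of_agr' hag h)

lemma two_pow2 (H2 : Hyp2 q P0 P L0 L M) :
    ∑ x : ZMod q, (2 / (q:ℝ)) * ∑ y : ZMod q, P0 x y ≤ 2 * M * q := by
  have hq := q_pos' (q := q)
  rw [← mul_sum]
  calc (2 / (q:ℝ)) * ∑ x : ZMod q, ∑ y : ZMod q, P0 x y ≤ (2 / (q:ℝ)) * (M * (q:ℝ)^2) :=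
        mul_le_mul_of_nonneg_left H2.P0s (by positivity)
    _ = 2 * M * q := by field_simp

lemma exp_P (H : Hyp q) (H2 : Hyp2 q P0 P L0 L M) {n r j : ℕ} (hr : 1 ≤ r) (hrj : r + (j+1) ≤ n)
    (ω₀ : ℕ → ZMod q) :
    EE (Al n) 0 (r * (n+1) + j) (fun ω => FP P0 P (aw n ω) r (j+1)) ω₀ ≤ 8 * M := by
  have hq := q_pos' (q := q)
  have hM := M_nonneg H2
  have hrm := rm (n := n) hr
  rcases Nat.eq_zero_or_pos j with hj | hj
  · subst hj
    have e1 := step_bb H (n := n) (s := r * (n+1) + 0) (r-1) 2 (by omega) (by omega) (by omega)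
      (fun ω => FP P0 P (aw n ω) r (0+1)) (fun ω x => P0 (bb (aw n ω) (r-1) 1) x)
      (fun x ω ω' h => by
        show P0 _ x = P0 _ x
        rw [dep_bb h (r-1) 1 (by omega)])
      (fun ω x => H2.P0n _ _)
      (fun ω _ => by unfold FP; rw [if_pos (by omega)]) ω₀
    have e2 := step_bb H (n := n) (s := (r-1) * (n+1) + 2) (r-1) 1 (by omega) (by omega) (by omega)
      (fun ω => (2 / (q:ℝ)) * ∑ x : ZMod q, P0 (bb (aw n ω) (r-1) 1) x)
      (fun _ y => (2 / (q:ℝ)) * ∑ x : ZMod q, P0 y x)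
      (fun x ω ω' h => rfl)
      (fun ω x => mul_nonneg (by positivity) (sum_nonneg fun _ _ => H2.P0n _ _))
      (fun ω _ => le_rfl) ω₀
    rw [EE_const H] at e2
    refine e1.trans (e2.trans ?_)
    calc 2 / (q:ℝ) * ∑ y : ZMod q, 2 / (q:ℝ) * ∑ x : ZMod q, P0 y x ≤ 2 / (q:ℝ) * (2 * M * q) :=
          mul_le_mul_of_nonneg_left (two_pow2 H2) (by positivity)
      _ = 4 * M := by field_simp; ring
      _ ≤ 8 * M := by linarith
  · obtain ⟨i, rfl⟩ := Nat.exists_eq_add_of_le hj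
    -- j = 1 + i, cell (r, i + 2)
    have e1 := step_ww H (n := n) (s := r * (n+1) + (1 + i)) r i hr (by omega) (by omega)
      (fun ω => FP P0 P (aw n ω) r (1+i+1))
      (fun ω y => P (bb (aw n ω) (r-1) (i+2)) y (bb (aw n ω) (r-1) (i+3)))
      (fun x ω ω' h => by
        show P _ x _ = P _ x _
        rw [dep_bb h (r-1) (i+2) (by omega), dep_bb h (r-1) (i+3) (by omega)])
      (fun ω x => H2.Pn _ _ _)
      (fun ω _ => by
        unfold FP
        rw [if_neg (by omega), show 1 + i + 1 = i + 2 by omega, show i + 2 - 1 = i + 1 by omega])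
      ω₀
    have e2 := step_bb H (n := n) (s := r * (n+1) + i) (r-1) (i+3) (by omega) (by omega) (by omega)
      (fun ω => (2 / (q:ℝ)) * ∑ y : ZMod q, P (bb (aw n ω) (r-1) (i+2)) y (bb (aw n ω) (r-1) (i+3)))
      (fun ω x => (2 / (q:ℝ)) * ∑ y : ZMod q, P (bb (aw n ω) (r-1) (i+2)) y x)
      (fun x ω ω' h => by
        show (2 / (q:ℝ)) * ∑ y : ZMod q, P _ y x = (2 / (q:ℝ)) * ∑ y : ZMod q, P _ y x
        rw [dep_bb h (r-1) (i+2) (by omega)])
      (fun ω x => mul_nonneg (by positivity) (sum_nonneg fun _ _ => H2.Pn _ _ _))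
      (fun ω _ => le_rfl) ω₀
    have e3 := step_bb H (n := n) (s := (r-1) * (n+1) + (i+3)) (r-1) (i+2) (by omega) (by omega)
      (by omega)
      (fun ω => (2 / (q:ℝ)) * ∑ x : ZMod q, (2 / (q:ℝ)) *
        ∑ y : ZMod q, P (bb (aw n ω) (r-1) (i+2)) y x)
      (fun _ w => (2 / (q:ℝ)) * ∑ x : ZMod q, (2 / (q:ℝ)) * ∑ y : ZMod q, P w y x)
      (fun x ω ω' h => rfl)
      (fun ω x => mul_nonneg (by positivity) (sum_nonneg fun _ _ => mul_nonneg (by positivity)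
        (sum_nonneg fun _ _ => H2.Pn _ _ _)))
      (fun ω _ => le_rfl) ω₀
    rw [EE_const H] at e3
    refine e1.trans (e2.trans (e3.trans ?_))
    have h1 : ∑ w : ZMod q, (2 / (q:ℝ)) * ∑ x : ZMod q, (2 / (q:ℝ)) * ∑ y : ZMod q, P w y x =
        (4 / (q:ℝ)^2) * ∑ w : ZMod q, ∑ y : ZMod q, ∑ x : ZMod q, P w y x := by
      rw [mul_sum]
      refine sum_congr rfl fun w _ => ?_
      rw [← mul_sum, sum_comm, ← mul_assoc]
      congr 1
      field_simp; norm_num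
    rw [h1]
    calc 2 / (q:ℝ) * (4 / (q:ℝ)^2 * ∑ w : ZMod q, ∑ y : ZMod q, ∑ x : ZMod q, P w y x) ≤
        2 / (q:ℝ) * (4 / (q:ℝ)^2 * (M * (q:ℝ)^3)) :=
          mul_le_mul_of_nonneg_left (mul_le_mul_of_nonneg_left H2.Ps (by positivity)) (by positivity)
      _ = 8 * M := by field_simp; ring

lemma exp_L (H : Hyp q) (H2 : Hyp2 q P0 P L0 L M) {n r j : ℕ} (hr : 1 ≤ r) (hrj : r + j ≤ n)
    (ω₀ : ℕ → ZMod q) :
    EE (Al n) 0 (r * (n+1) + j) (fun ω => FL L0 L (aw n ω) r j) ω₀ ≤ 4 * M := by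
  have hq := q_pos' (q := q)
  have hM := M_nonneg H2
  have hrm := rm (n := n) hr
  rcases Nat.eq_zero_or_pos j with hj | hj
  · subst hj
    have e1 := step_bb H (n := n) (s := r * (n+1) + 0) (r-1) 1 (by omega) (by omega) (by omega)
      (fun ω => FL L0 L (aw n ω) r 0) (fun _ x => L0 x)
      (fun x ω ω' h => rfl)
      (fun ω x => H2.L0n _)
      (fun ω _ => by unfold FL; rw [if_pos rfl]) ω₀
    rw [EE_const H] at e1
    refine e1.trans ?_
    calc 2 / (q:ℝ) * ∑ x : ZMod q, L0 x ≤ 2 / (q:ℝ) * (M * q) :=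
          mul_le_mul_of_nonneg_left H2.L0s (by positivity)
      _ = 2 * M := by field_simp
      _ ≤ 4 * M := by linarith
  · obtain ⟨i, rfl⟩ := Nat.exists_eq_add_of_le hj
    have e1 := step_ww H (n := n) (s := r * (n+1) + (1 + i)) r i hr (by omega) (by omega)
      (fun ω => FL L0 L (aw n ω) r (1+i))
      (fun ω y => L (bb (aw n ω) (r-1) (i+2)) y)
      (fun x ω ω' h => by
        show L _ x = L _ x
        rw [dep_bb h (r-1) (i+2) (by omega)])
      (fun ω x => H2.Ln _ _)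
      (fun ω _ => by
        unfold FL
        rw [if_neg (by omega), show 1 + i = i + 1 by omega])
      ω₀
    have e2 := step_bb H (n := n) (s := r * (n+1) + i) (r-1) (i+2) (by omega) (by omega) (by omega)
      (fun ω => (2 / (q:ℝ)) * ∑ y : ZMod q, L (bb (aw n ω) (r-1) (i+2)) y)
      (fun _ x => (2 / (q:ℝ)) * ∑ y : ZMod q, L x y)
      (fun x ω ω' h => rfl)
      (fun ω x => mul_nonneg (by positivity) (sum_nonneg fun _ _ => H2.Ln _ _))
      (fun ω _ => le_rfl) ω₀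
    rw [EE_const H] at e2
    refine e1.trans (e2.trans ?_)
    rw [← mul_sum]
    calc 2 / (q:ℝ) * (2 / (q:ℝ) * ∑ x : ZMod q, ∑ y : ZMod q, L x y) ≤
        2 / (q:ℝ) * (2 / (q:ℝ) * (M * (q:ℝ)^2)) :=
          mul_le_mul_of_nonneg_left (mul_le_mul_of_nonneg_left H2.Ls (by positivity)) (by positivity)
      _ = 4 * M := by field_simp; ring

end Pool.Agent.H935R2.PS.J2
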