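import Pool.Agent.H935R2.PS.J2e
import Pool.Agent.H935R2.PS.J1

set_option autoImplicit false
set_option linter.unusedSectionVars false

/-!
# Core, part 6: application of the engine
-/

namespace Pool.Agent.H935R2.PS.J2

open Finset Pool.Agent.H470D4

variable {q : ℕ} [Fact q.Prime]
variable {P0 : ZMod q → ZMod q → ℝ} {P : ZMod q → ZMod q → ZMod q → ℝ} {L0 : ZMod q → ℝ}
  {L : ZMod q → ZMod q → ℝ} {M : ℝ}

/-- The cells at the time `s`. -/
noncomputable def XX (n : ℕ) (D0 z : ℕ → ZMod q) (t1 t2 t3 : ℕ → ℕ) (s : ℕ) (ω : ℕ → ZMod q) : ℝ :=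
  XP n (aw n ω) D0 z t1 t2 t3 (s / (n+1)) (s % (n+1)) +
    XL n (aw n ω) D0 z t1 t2 t3 (s / (n+1)) (s % (n+1))

/-- drift bound, plane part -/
noncomputable def PhiP (P0 : ZMod q → ZMod q → ℝ) (P : ZMod q → ZMod q → ZMod q → ℝ) (n s : ℕ)
    (ω : ℕ → ZMod q) : ℝ :=
  if 1 ≤ s / (n+1) ∧ 1 ≤ s % (n+1) ∧ s / (n+1) + s % (n+1) ≤ n then
    FP P0 P (aw n ω) (s / (n+1)) (s % (n+1)) else 0

/-- drift bound, line part -/
noncomputable def PhiL (L0 : ZMod q → ℝ) (L : ZMod q → ZMod q → ℝ) (n s : ℕ)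
    (ω : ℕ → ZMod q) : ℝ :=
  if 1 ≤ s / (n+1) ∧ s / (n+1) + s % (n+1) ≤ n then
    FL L0 L (aw n ω) (s / (n+1)) (s % (n+1)) else 0

/-- drift bound -/
noncomputable def Phi (P0 : ZMod q → ZMod q → ℝ) (P : ZMod q → ZMod q → ZMod q → ℝ)
    (L0 : ZMod q → ℝ) (L : ZMod q → ZMod q → ℝ) (n s : ℕ) (ω : ℕ → ZMod q) : ℝ :=
  PhiP P0 P n (s+1) ω + E1 (Al n) s (PhiL L0 L n (s+1)) ω

lemma time_eq (n s : ℕ) : s / (n+1) * (n+1) + s % (n+1) = s := by
  have := Nat.div_add_mod s (n+1)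
  rw [mul_comm] at this
  exact this

lemma FP_congr {a a' : ℕ → ℕ → ZMod q} {r j : ℕ} (hr : 1 ≤ r) (hj : 1 ≤ j) (h : Lx r (j-1) a a') :
    FP P0 P a r j = FP P0 P a' r j := by
  unfold FP
  have hb : ∀ x, bb a (r-1) x = bb a' (r-1) x := fun x => bb_congr _ _ (h.row (by omega))
  by_cases hj1 : j = 1
  · rw [if_pos hj1, if_pos hj1, hb, hb]
  · rw [if_neg hj1, if_neg hj1, hb, hb, ww_congr r (j-1) hr (by omega) h]

lemma FL_congr {a a' : ℕ → ℕ → ZMod q} {r j : ℕ} (hr : 1 ≤ r) (h : Lx r j a a') :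
    FL L0 L a r j = FL L0 L a' r j := by
  unfold FL
  have hb : ∀ x, bb a (r-1) x = bb a' (r-1) x := fun x => bb_congr _ _ (h.row (by omega))
  by_cases hj1 : j = 0
  · rw [if_pos hj1, if_pos hj1, hb]
  · rw [if_neg hj1, if_neg hj1, hb, ww_congr r j hr (by omega) h]

lemma FP_nonneg (H2 : Hyp2 q P0 P L0 L M) (a : ℕ → ℕ → ZMod q) (r j : ℕ) : 0 ≤ FP P0 P a r j := by
  unfold FP
  split_ifs
  · exact H2.P0n _ _
  · exact H2.Pn _ _ _

lemma FL_nonneg (H2 : Hyp2 q P0 P L0 L M) (a : ℕ → ℕ → ZMod q) (r j : ℕ) : 0 ≤ FL L0 L a r j := by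
  unfold FL
  split_ifs
  · exact H2.L0n _
  · exact H2.Ln _ _

lemma E1_nonneg' (Al : ℕ → (ℕ → ZMod q) → Finset (ZMod q)) (s : ℕ) (f : (ℕ → ZMod q) → ℝ)
    (ω : ℕ → ZMod q) (h : ∀ ω', 0 ≤ f ω') : 0 ≤ E1 Al s f ω := by
  unfold E1
  exact div_nonneg (sum_nonneg fun x _ => h _) (Nat.cast_nonneg _)

lemma E1_add' (Al : ℕ → (ℕ → ZMod q) → Finset (ZMod q)) (s : ℕ) (f g : (ℕ → ZMod q) → ℝ) :
    E1 Al s (fun ω => f ω + g ω) = fun ω => E1 Al s f ω + E1 Al s g ω := by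
  funext ω
  unfold E1
  rw [sum_add_distrib, add_div]

lemma E1_abs_le (Al : ℕ → (ℕ → ZMod q) → Finset (ZMod q)) (s : ℕ) (f g : (ℕ → ZMod q) → ℝ)
    (ω : ℕ → ZMod q) (h : ∀ ω', |f ω'| ≤ g ω') : |E1 Al s f ω| ≤ E1 Al s g ω := by
  unfold E1
  rw [abs_div, abs_of_nonneg (Nat.cast_nonneg (Al s ω).card : (0:ℝ) ≤ (Al s ω).card)]
  exact div_le_div_of_nonneg_right ((abs_sum_le_sum_abs _ _).trans (sum_le_sum fun x _ => h _))
    (Nat.cast_nonneg _)

lemma dep_PhiP (n s : ℕ) : DepLT s (PhiP P0 P n (s+1)) := by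
  intro ω ω' h
  unfold PhiP
  by_cases hc : 1 ≤ (s+1) / (n+1) ∧ 1 ≤ (s+1) % (n+1) ∧ (s+1) / (n+1) + (s+1) % (n+1) ≤ n
  · rw [if_pos hc, if_pos hc]
    have ht := time_eq n (s+1)
    exact FP_congr hc.1 hc.2.1 (Lx_of_agr' h (by omega))
  · rw [if_neg hc, if_neg hc]

lemma dep_PhiL (n s : ℕ) : DepLT s (PhiL L0 L n s) := by
  intro ω ω' h
  unfold PhiL
  by_cases hc : 1 ≤ s / (n+1) ∧ s / (n+1) + s % (n+1) ≤ n
  · rw [if_pos hc, if_pos hc]
    have ht := time_eq n s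
    exact FL_congr hc.1 (Lx_of_agr' h (by omega))
  · rw [if_neg hc, if_neg hc]

lemma dep_Phi (n s : ℕ) : DepLT s (Phi P0 P L0 L n s) := by
  intro ω ω' h
  unfold Phi
  rw [dep_PhiP n s ω ω' h, E1_dep (Al n) (Al_dep n) s (dep_PhiL n (s+1)) ω ω' h]

lemma Phi_nonneg (H2 : Hyp2 q P0 P L0 L M) (n s : ℕ) (ω : ℕ → ZMod q) : 0 ≤ Phi P0 P L0 L n s ω := by
  unfold Phi
  refine add_nonneg ?_ (E1_nonneg' _ _ _ _ fun ω' => ?_)
  · unfold PhiP
    split_ifs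
    · exact FP_nonneg H2 _ _ _
    · exact le_rfl
  · unfold PhiL
    split_ifs
    · exact FL_nonneg H2 _ _ _
    · exact le_rfl

lemma drift (H2 : Hyp2 q P0 P L0 L M) (n s : ℕ)
    (D0 z : ℕ → ZMod q) (t1 t2 t3 : ℕ → ℕ) (h1 : ∀ i, t1 i < q) (h2 : ∀ i, t2 i < q)
    (h3 : ∀ i, t3 i < q) (ω : ℕ → ZMod q) :
    |E1 (Al n) s (E1 (Al n) (s+1) (XX n D0 z t1 t2 t3 (s+1))) ω| ≤ Phi P0 P L0 L n s ω := by
  have ht := time_eq n (s+1)
  have hmod : (s+1) % (n+1) < n+1 := Nat.mod_lt _ (Nat.succ_pos n)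
  set r := (s+1) / (n+1) with hr
  set j := (s+1) % (n+1) with hj
  have hsplit : E1 (Al n) s (E1 (Al n) (s+1) (XX n D0 z t1 t2 t3 (s+1))) ω =
      E1 (Al n) s (E1 (Al n) (s+1) (fun ω' => XP n (aw n ω') D0 z t1 t2 t3 r j)) ω +
      E1 (Al n) s (E1 (Al n) (s+1) (fun ω' => XL n (aw n ω') D0 z t1 t2 t3 r j)) ω := by
    have e1 : XX n D0 z t1 t2 t3 (s+1) = fun ω' => XP n (aw n ω') D0 z t1 t2 t3 r j +
        XL n (aw n ω') D0 z t1 t2 t3 r j := rfl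
    rw [e1, E1_add', E1_add']
  rw [hsplit]
  unfold Phi
  refine (abs_add_le _ _).trans (add_le_add ?_ ?_)
  · unfold PhiP
    by_cases hc : 1 ≤ r ∧ 1 ≤ j ∧ r + j ≤ n
    · rw [if_pos hc]
      obtain ⟨hc1, hc2, hc3⟩ := hc
      obtain ⟨i, hi⟩ := Nat.exists_eq_add_of_le hc2
      have h := drift_P (n := n) (r := r) (j := i) H2 hc1 (by omega) D0 z t1 t2 t3 h1 h2 h3 ω
      have e1 : r * (n+1) + i = s := by omega
      have e2 : r * (n+1) + (i+1) = s + 1 := by omega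
      have e3 : i + 1 = j := by omega
      rw [e1, e2, e3] at h
      exact h
    · rw [if_neg hc]
      have h0 : E1 (Al n) s (E1 (Al n) (s+1) (fun ω' => XP n (aw n ω') D0 z t1 t2 t3 r j)) ω = 0 := by
        refine E1_zero _ _ _ _ fun x => E1_zero _ _ _ _ fun y => ?_
        show XP n _ D0 z t1 t2 t3 r j = 0
        unfold XP
        rw [if_neg]
        rintro ⟨a1, a2, a3, -⟩
        exact hc ⟨a1, a2, a3⟩
      rw [h0, abs_zero]
  · refine E1_abs_le _ _ _ _ _ fun ω' => ?_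
    unfold PhiL
    by_cases hc : 1 ≤ r ∧ r + j ≤ n
    · rw [if_pos hc]
      have h := drift_L (n := n) (r := r) (j := j) H2 hc.1 hc.2 D0 z t1 t2 t3 h1 h2 h3 ω'
      rw [ht] at h
      exact h
    · rw [if_neg hc]
      have h0 : E1 (Al n) (s+1) (fun ω' => XL n (aw n ω') D0 z t1 t2 t3 r j) ω' = 0 := by
        refine E1_zero _ _ _ _ fun x => ?_
        show XL n _ D0 z t1 t2 t3 r j = 0
        unfold XL
        rw [if_neg]
        rintro ⟨a1, a2, -⟩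
        exact hc ⟨a1, a2⟩
      rw [h0, abs_zero]

lemma exp_Phi (H : Hyp q) (H2 : Hyp2 q P0 P L0 L M) (n T : ℕ) (ω₀ : ℕ → ZMod q) :
    EE (Al n) 0 T (fun ω => ∑ s ∈ range T, Phi P0 P L0 L n s ω) ω₀ ≤ 12 * M * T := by
  have hM := M_nonneg H2
  rw [EE_sum]
  calc ∑ s ∈ range T, EE (Al n) 0 T (Phi P0 P L0 L n s) ω₀ ≤ ∑ _s ∈ range T, 12 * M := by
        refine sum_le_sum fun s hs => ?_
        rw [mem_range] at hs
        rw [EE_cut (Al n) (Al_ne H n) hs.le (dep_Phi n s)]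
        have e1 : Phi P0 P L0 L n s = fun ω => PhiP P0 P n (s+1) ω + E1 (Al n) s (PhiL L0 L n (s+1)) ω :=
          rfl
        rw [e1, EE_add_fun]
        have e2 : EE (Al n) 0 s (fun ω => E1 (Al n) s (PhiL L0 L n (s+1)) ω) ω₀ =
            EE (Al n) 0 (s+1) (PhiL L0 L n (s+1)) ω₀ := (EE_succ (Al n) s _ ω₀).symm
        rw [e2]
        have ht := time_eq n (s+1)
        have h1 : EE (Al n) 0 s (PhiP P0 P n (s+1)) ω₀ ≤ 8 * M := by
          by_cases hc : 1 ≤ (s+1) / (n+1) ∧ 1 ≤ (s+1) % (n+1) ∧ (s+1) / (n+1) + (s+1) % (n+1) ≤ n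
          · obtain ⟨hc1, hc2, hc3⟩ := hc
            obtain ⟨i, hi⟩ := Nat.exists_eq_add_of_le hc2
            have h := exp_P (n := n) (r := (s+1) / (n+1)) (j := i) H H2 hc1 (by omega) ω₀
            have e3 : (s+1) / (n+1) * (n+1) + i = s := by omega
            have e4 : i + 1 = (s+1) % (n+1) := by omega
            rw [e3, e4] at h
            have e5 : PhiP P0 P n (s+1) = fun ω : ℕ → ZMod q =>
                FP P0 P (aw n ω) ((s+1) / (n+1)) ((s+1) % (n+1)) := by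
              funext ω
              unfold PhiP
              rw [if_pos ⟨hc1, hc2, hc3⟩]
            rw [e5]
            exact h
          · have e5 : PhiP P0 P n (s+1) = fun _ : ℕ → ZMod q => (0:ℝ) := by
              funext ω
              unfold PhiP
              rw [if_neg hc]
            rw [e5, EE_const H]
            positivity
        have h2 : EE (Al n) 0 (s+1) (PhiL L0 L n (s+1)) ω₀ ≤ 4 * M := by
          by_cases hc : 1 ≤ (s+1) / (n+1) ∧ (s+1) / (n+1) + (s+1) % (n+1) ≤ n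
          · have h := exp_L (n := n) (r := (s+1) / (n+1)) (j := (s+1) % (n+1)) H H2 hc.1 hc.2 ω₀
            rw [ht] at h
            have e5 : PhiL L0 L n (s+1) = fun ω : ℕ → ZMod q =>
                FL L0 L (aw n ω) ((s+1) / (n+1)) ((s+1) % (n+1)) := by
              funext ω
              unfold PhiL
              rw [if_pos hc]
            rw [e5]
            exact h
          · have e5 : PhiL L0 L n (s+1) = fun _ : ℕ → ZMod q => (0:ℝ) := by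
              funext ω
              unfold PhiL
              rw [if_neg hc]
            rw [e5, EE_const H]
            positivity
        linarith
    _ = 12 * M * T := by rw [sum_const, card_range, nsmul_eq_mul]; ring

/-- The data with finitely many values. -/
abbrev Dt (q n : ℕ) : Type := (Fin (n+2) → ZMod q) × (Fin (n+2) → ZMod q) ×
  (Fin (n+2) → Fin q) × (Fin (n+2) → Fin q) × (Fin (n+2) → Fin q)

/-- extension by zero -/
def eZ {n : ℕ} (f : Fin (n+2) → ZMod q) (i : ℕ) : ZMod q := if h : i < n + 2 then f ⟨i, h⟩ else 0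

/-- extension by zero -/
def eN {n : ℕ} (f : Fin (n+2) → Fin q) (i : ℕ) : ℕ := if h : i < n + 2 then (f ⟨i, h⟩ : ℕ) else 0

lemma eN_lt {n : ℕ} (f : Fin (n+2) → Fin q) (i : ℕ) : eN f i < q := by
  unfold eN
  split_ifs
  · exact (f _).2
  · exact (Fact.out : q.Prime).pos

/-- The process as a function of finite data. -/
noncomputable def XD (n : ℕ) (τ : Dt q n) (s : ℕ) (ω : ℕ → ZMod q) : ℝ :=
  XX n (eZ τ.1) (eZ τ.2.1) (eN τ.2.2.1) (eN τ.2.2.2.1) (eN τ.2.2.2.2) s ω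

lemma engine_app (H : Hyp q) (H2 : Hyp2 q P0 P L0 L M) (n : ℕ) (K : ℝ) (hK : 0 < K)
    (hXP : ∀ a w : ZMod q, pgood a w → ∀ (c c' : ZMod q) (t1 t2 t3 : ℕ), t1 < q → t2 < q → t3 < q →
      |Xp c c' a w t1 t2 t3| ≤ K)
    (hXL : ∀ α b : ZMod q, lgood α b → ∀ (c2 c3 : ZMod q) (t1 t2 t3 : ℕ), t1 < q → t2 < q → t3 < q →
      |Xl c2 c3 α b t1 t2 t3| ≤ K) (T : ℕ) :
    ∃ ω : ℕ → ZMod q, (∀ s < T, ω s ∈ Al n s ω) ∧ ∀ τ : Dt q n,
      |∑ s ∈ range T, XD n τ s ω| ≤ 4 * (12 * M * T + 1) +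
        16 * (2 * K) * √(T * (Real.log (Fintype.card (Dt q n)) + 5)) + 4 * (2 * K) := by
  have hM := M_nonneg H2
  haveI : Nonempty (Fin q) := ⟨⟨0, (Fact.out : q.Prime).pos⟩⟩
  refine engine (Al n) (Al_ne H n) (Al_dep n) T (fun τ s ω => XD n τ s ω) ?_ (2 * K) (by positivity)
    ?_ ?_ (Phi P0 P L0 L n) (Phi_nonneg H2 n) (dep_Phi n) ?_ (fun _ => 0) (12 * M * T + 1)
    (by positivity) ((exp_Phi H H2 n T _).trans (by linarith))
  · intro τ s ω ω' h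
    show XX n _ _ _ _ _ s ω = XX n _ _ _ _ _ s ω'
    unfold XX
    have ht := time_eq n s
    have hLx : Lx (s / (n+1)) (s % (n+1) + 1) (aw n ω) (aw n ω') := Lx_of_agr' h (by omega)
    rw [XP_congr _ _ hLx, XL_congr _ _ hLx]
  · intro τ s ω
    show |XX n _ _ _ _ _ s ω| ≤ 2 * K
    unfold XX
    refine (abs_add_le _ _).trans ?_
    have h1 : |XP n (aw n ω) (eZ τ.1) (eZ τ.2.1) (eN τ.2.2.1) (eN τ.2.2.2.1) (eN τ.2.2.2.2)
        (s / (n+1)) (s % (n+1))| ≤ K := by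
      unfold XP
      split_ifs with hc
      · exact hXP _ _ hc.2.2.2.2.2.2 _ _ _ _ _ (eN_lt _ _) (eN_lt _ _) (eN_lt _ _)
      · rw [abs_zero]; exact hK.le
    have h2 : |XL n (aw n ω) (eZ τ.1) (eZ τ.2.1) (eN τ.2.2.1) (eN τ.2.2.2.1) (eN τ.2.2.2.2)
        (s / (n+1)) (s % (n+1))| ≤ K := by
      unfold XL
      split_ifs with hc
      · exact hXL _ _ hc.2.2.2.2 _ _ _ _ _ (eN_lt _ _) (eN_lt _ _) (eN_lt _ _)
      · rw [abs_zero]; exact hK.le
    linarith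
  · intro τ ω
    show XX n _ _ _ _ _ 0 ω = 0
    unfold XX XP XL
    rw [Nat.zero_div, if_neg (fun h => absurd h.1 (by omega)), if_neg (fun h => absurd h.1 (by omega)),
      add_zero]
  · intro τ s ω
    exact drift H2 n s _ _ _ _ _ (eN_lt _) (eN_lt _) (eN_lt _) ω

end Pool.Agent.H935R2.PS.J2
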