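import Pool.Agent.H935R2.PS.J2f

set_option autoImplicit false
set_option linter.unusedSectionVars false

/-!
# Core, part 7: the sum of the cells along an allowed path
-/

namespace Pool.Agent.H935R2.PS.J2

open Finset Pool.Agent.H470D4

variable {q : ℕ} [Fact q.Prime]

lemma sum_range_mul' (k : ℕ) (g : ℕ → ℝ) (m : ℕ) :
    ∑ s ∈ range (m * k), g s = ∑ r ∈ range m, ∑ j ∈ range k, g (r * k + j) := by
  induction m with
  | zero => simp
  | succ m ih =>
    rw [Nat.succ_mul, sum_range_add, ih, sum_range_succ]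

/-- The total depends on the data only up to the index `n + 1`. -/
lemma tot_congr (n : ℕ) (a : ℕ → ℕ → ZMod q) {D0 D0' z z' : ℕ → ZMod q} {t1 t1' t2 t2' t3 t3' : ℕ → ℕ}
    (hD : ∀ i ≤ n+1, D0 i = D0' i) (hz : ∀ i ≤ n+1, z i = z' i) (h1 : ∀ i ≤ n+1, t1 i = t1' i)
    (h2 : ∀ i ≤ n+1, t2 i = t2' i) (h3 : ∀ i ≤ n+1, t3 i = t3' i) :
    Tot n a D0 z t1 t2 t3 = Tot n a D0' z' t1' t2' t3' := by
  unfold Tot
  refine sum_congr rfl fun r hr => ?_
  rw [mem_Icc] at hr
  have hLx : ∀ r j, Lx r j a a := fun _ _ _ _ _ => rfl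
  congr 1
  · refine sum_congr rfl fun j hj => ?_
    rw [mem_Icc] at hj
    rw [Del_congr (D0' := D0') (z' := z') r (j-1) hr.1 (hLx _ _) (fun x hx => hD x (by omega))
        (fun x hx => hz x (by omega)),
      DD_congr (D0' := D0') (z' := z') (r-1) j hj.1 (hLx _ _) (fun x hx => hD x (by omega))
        (fun x hx => hz x (by omega)), h1 _ (by omega), h2 _ (by omega), h3 _ (by omega)]
  · refine sum_congr rfl fun j hj => ?_
    rw [mem_range] at hj
    rw [Del_congr (D0' := D0') (z' := z') r j hr.1 (hLx _ _) (fun x hx => hD x (by omega))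
        (fun x hx => hz x (by omega)),
      DD_congr (D0' := D0') (z' := z') (r-1) (j+1) (by omega) (hLx _ _) (fun x hx => hD x (by omega))
        (fun x hx => hz x (by omega)), h1 _ (by omega), h2 _ (by omega), h3 _ (by omega)]

lemma time_lt {n r j : ℕ} (hr : r ≤ n) (hj : j ≤ n) : r * (n+1) + j < (n+1) * (n+1) := by
  have h1 : r * (n+1) ≤ n * (n+1) := Nat.mul_le_mul_right _ hr
  have h2 : (n+1) * (n+1) = n * (n+1) + (n+1) := by ring
  omega

lemma time_lt' {n r j : ℕ} (hr : r < n+1) (hj : j < n+1) : r * (n+1) + j < (n+1) * (n+1) :=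
  time_lt (by omega) (by omega)

lemma XP_ok {n : ℕ} {ω : ℕ → ZMod q} (hok : Ok (Al n) ((n+1)*(n+1)) ω) (D0 z : ℕ → ZMod q)
    (t1 t2 t3 : ℕ → ℕ) {r j : ℕ} (hr : 1 ≤ r) (hj : 1 ≤ j) (hrj : r + j ≤ n) :
    XP n (aw n ω) D0 z t1 t2 t3 r j =
      Xp (Del (aw n ω) D0 z r (j - 1)) (DD (aw n ω) D0 z (r - 1) j) (aw n ω r j) (ww (aw n ω) r j)
        (t1 (n + 1 - r - j)) (t2 r) (t3 j) := by
  have hb1 := ok_bb hok (r-1) j hj (by omega) (time_lt (by omega) (by omega))
  have hb2 := ok_bb hok (r-1) (j+1) (by omega) (by omega) (time_lt (by omega) (by omega))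
  have hw := ok_ww' hok (r := r) (j := j) hr hj (by omega) (time_lt (by omega) (by omega)).le
  have hm := ok_mem hok hrj (time_lt (by omega) (by omega))
  unfold AlC at hm
  rw [if_neg (by omega), if_neg (by omega), if_neg (by omega), if_pos ⟨hb2, hw⟩] at hm
  unfold XP
  rw [if_pos]
  refine ⟨hr, hj, hrj, hb1, hb2, ?_, (mem_Aset.mp hm).2⟩
  by_cases hj1 : j = 1
  · left; exact hj1
  · right
    exact ok_ww' hok (r := r) (j := j-1) hr (by omega) (by omega) (time_lt (by omega) (by omega)).le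

lemma XL_ok {n : ℕ} {ω : ℕ → ZMod q} (hok : Ok (Al n) ((n+1)*(n+1)) ω) (D0 z : ℕ → ZMod q)
    (t1 t2 t3 : ℕ → ℕ) {r j : ℕ} (hr : 1 ≤ r) (hrj : r + j ≤ n) :
    XL n (aw n ω) D0 z t1 t2 t3 r j =
      Xl (Del (aw n ω) D0 z r j) (DD (aw n ω) D0 z (r - 1) (j + 1)) (aw n ω r j)
        (bb (aw n ω) (r - 1) (j + 1)) (t1 (n + 1 - r - j)) (t2 r) (t3 (j + 1)) := by
  have hb2 := ok_bb hok (r-1) (j+1) (by omega) (by omega) (time_lt (by omega) (by omega))
  have hm := ok_mem hok hrj (time_lt (by omega) (by omega))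
  unfold AlC at hm
  rw [if_neg (by omega), if_neg (by omega)] at hm
  unfold XL
  rw [if_pos]
  by_cases hj : j = 0
  · subst hj
    rw [if_pos rfl, if_pos hb2] at hm
    exact ⟨hr, hrj, hb2, Or.inl rfl, mem_Aset0.mp hm⟩
  · have hw := ok_ww' hok (r := r) (j := j) hr (by omega) (by omega) (time_lt (by omega) (by omega)).le
    rw [if_neg hj, if_pos ⟨hb2, hw⟩] at hm
    exact ⟨hr, hrj, hb2, Or.inr hw, (mem_Aset.mp hm).1⟩

/-- The sum over all times is the total. -/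
lemma sum_XX {n : ℕ} {ω : ℕ → ZMod q} (hok : Ok (Al n) ((n+1)*(n+1)) ω) (D0 z : ℕ → ZMod q)
    (t1 t2 t3 : ℕ → ℕ) :
    ∑ s ∈ range ((n+1)*(n+1)), XX n D0 z t1 t2 t3 s ω = Tot n (aw n ω) D0 z t1 t2 t3 := by
  rw [sum_range_mul']
  unfold Tot
  have hsub : Icc 1 n ⊆ range (n+1) := by
    intro x hx
    rw [mem_Icc] at hx
    rw [mem_range]
    omega
  rw [← sum_subset hsub]
  · refine sum_congr rfl fun r hr => ?_
    rw [mem_Icc] at hr
    have e1 : ∀ j ∈ range (n+1), XX n D0 z t1 t2 t3 (r * (n+1) + j) ω =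
        XP n (aw n ω) D0 z t1 t2 t3 r j + XL n (aw n ω) D0 z t1 t2 t3 r j := by
      intro j hj
      rw [mem_range] at hj
      unfold XX
      rw [(divmod (by omega)).1, (divmod (by omega)).2]
    rw [sum_congr rfl e1, sum_add_distrib]
    congr 1
    · have hsub2 : Icc 1 (n-r) ⊆ range (n+1) := by
        intro x hx
        rw [mem_Icc] at hx
        rw [mem_range]
        omega
      rw [← sum_subset hsub2]
      · refine sum_congr rfl fun j hj => ?_
        rw [mem_Icc] at hj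
        exact XP_ok hok D0 z t1 t2 t3 hr.1 hj.1 (by omega)
      · intro j hj hj2
        rw [mem_range] at hj
        rw [mem_Icc] at hj2
        unfold XP
        rw [if_neg]
        rintro ⟨a1, a2, a3, -⟩
        exact hj2 ⟨a2, by omega⟩
    · have hsub2 : range (n-r+1) ⊆ range (n+1) := by
        intro x hx
        rw [mem_range] at hx ⊢
        omega
      rw [← sum_subset hsub2]
      · refine sum_congr rfl fun j hj => ?_
        rw [mem_range] at hj
        exact XL_ok hok D0 z t1 t2 t3 hr.1 (by omega)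
      · intro j hj hj2
        rw [mem_range] at hj hj2
        unfold XL
        rw [if_neg]
        rintro ⟨a1, a2, -⟩
        omega
  · intro r hr hr2
    rw [mem_range] at hr
    rw [mem_Icc] at hr2
    have hr0 : r = 0 := by omega
    refine sum_eq_zero fun j hj => ?_
    rw [mem_range] at hj
    unfold XX XP XL
    rw [(divmod (by omega)).1, if_neg (fun h => absurd h.1 (by omega)),
      if_neg (fun h => absurd h.1 (by omega)), add_zero]

lemma AlC_ne_zero (n : ℕ) (a : ℕ → ℕ → ZMod q) (r j : ℕ) (x : ZMod q) (hx : x ∈ AlC n a r j) :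
    x ≠ 0 := by
  classical
  unfold AlC at hx
  split_ifs at hx with h1 h2 h3 h4 h5 h6
  · have : good2 x := by simpa using hx
    exact this.1
  · rw [mem_singleton] at hx; rw [hx]; exact one_ne_zero
  · rw [mem_singleton] at hx; rw [hx]; exact one_ne_zero
  · exact (mem_Aset0.mp hx).1
  · rw [mem_singleton] at hx; rw [hx]; exact one_ne_zero
  · exact (mem_Aset.mp hx).1.1
  · rw [mem_singleton] at hx; rw [hx]; exact one_ne_zero

lemma aw_ne_zero {n : ℕ} {ω : ℕ → ZMod q} (hok : Ok (Al n) ((n+1)*(n+1)) ω) (r j : ℕ) :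
    aw n ω r j ≠ 0 := by
  by_cases h : r ≤ n ∧ j ≤ n
  · have h1 := hok _ (time_lt h.1 h.2)
    rw [Al_eq h.2] at h1
    unfold aw
    rw [if_pos h]
    exact AlC_ne_zero _ _ _ _ _ h1
  · unfold aw
    rw [if_neg h]
    exact one_ne_zero

lemma card_Dt (n : ℕ) : Real.log (Fintype.card (Dt q n)) = 5 * (n+2) * Real.log q := by
  have h1 : Fintype.card (Dt q n) = q ^ (5 * (n+2)) := by
    simp only [Dt, Fintype.card_prod, Fintype.card_fun, Fintype.card_fin, ZMod.card]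
    ring
  rw [h1]
  push_cast
  rw [Real.log_pow]
  push_cast
  ring

/-- The result for one prime. -/
theorem core_q {P0 : ZMod q → ZMod q → ℝ} {P : ZMod q → ZMod q → ZMod q → ℝ} {L0 : ZMod q → ℝ}
    {L : ZMod q → ZMod q → ℝ} {M : ℝ} (H : Hyp q) (H2 : Hyp2 q P0 P L0 L M) (n : ℕ) (K : ℝ) (hK : 0 < K)
    (hXP : ∀ a w : ZMod q, pgood a w → ∀ (c c' : ZMod q) (t1 t2 t3 : ℕ), t1 < q → t2 < q → t3 < q →
      |Xp c c' a w t1 t2 t3| ≤ K)
    (hXL : ∀ α b : ZMod q, lgood α b → ∀ (c2 c3 : ZMod q) (t1 t2 t3 : ℕ), t1 < q → t2 < q → t3 < q →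
      |Xl c2 c3 α b t1 t2 t3| ≤ K) :
    ∃ a : ℕ → ℕ → ZMod q, (∀ r j, a r j ≠ 0) ∧
      ∀ (D0 z : ℕ → ZMod q) (t1 t2 t3 : ℕ → ℕ), (∀ i, t1 i < q) → (∀ i, t2 i < q) → (∀ i, t3 i < q) →
      |Tot n a D0 z t1 t2 t3| ≤ 4 * (12 * M * ((n+1)*(n+1) : ℕ) + 1) +
        16 * (2 * K) * √(((n+1)*(n+1) : ℕ) * (5 * (n+2) * Real.log q + 5)) + 4 * (2 * K) := by
  obtain ⟨ω, hok, h⟩ := engine_app H H2 n K hK hXP hXL ((n+1)*(n+1))
  refine ⟨aw n ω, aw_ne_zero hok, ?_⟩
  intro D0 z t1 t2 t3 h1 h2 h3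
  have h4 := h (fun i => D0 i, fun i => z i, fun i => ⟨t1 i, h1 i⟩, fun i => ⟨t2 i, h2 i⟩,
    fun i => ⟨t3 i, h3 i⟩)
  rw [card_Dt] at h4
  have h5 : ∑ s ∈ range ((n+1)*(n+1)), XD n (fun i => D0 i, fun i => z i, fun i => ⟨t1 i, h1 i⟩,
      fun i => ⟨t2 i, h2 i⟩, fun i => ⟨t3 i, h3 i⟩) s ω = Tot n (aw n ω) D0 z t1 t2 t3 := by
    unfold XD
    rw [sum_XX hok]
    refine tot_congr n _ ?_ ?_ ?_ ?_ ?_ <;> intro i hi
    · unfold eZ
      rw [dif_pos (by omega)]
    · unfold eZ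
      rw [dif_pos (by omega)]
    · unfold eN
      rw [dif_pos (by omega)]
    · unfold eN
      rw [dif_pos (by omega)]
    · unfold eN
      rw [dif_pos (by omega)]
  rw [h5] at h4
  exact h4

end Pool.Agent.H935R2.PS.J2
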