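import Pool.Agent.H935R2.PS.J2g
import Pool.Agent.H935R2.PS.A1
import Pool.Agent.H935R2.PS.A2
import Pool.Agent.H935R2.PS.H2
import Pool.Agent.H935R2.PS.H6b

set_option autoImplicit false
set_option linter.unusedSectionVars false

/-!
# Core, part 8: the core from the conditional means
-/

namespace Pool.Agent.H935R2.PS.J2

open Finset Pool.Agent.H470D4

/-- statement of `two_step` -/
def TwoStep : Prop := ∃ C : ℝ, 0 < C ∧ ∃ q₀ : ℕ, ∀ q : ℕ, q₀ ≤ q → ∀ _hq : Fact q.Prime, Suit q →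
    ∃ Φ : ZMod q → ZMod q → ZMod q → ℝ, (∀ x y z, 0 ≤ Φ x y z) ∧
      (∑ x : ZMod q, ∑ y : ZMod q, ∑ z : ZMod q, Φ x y z ≤ C * (La q * √(La q)) * (q:ℝ) ^ 3) ∧
      ∀ b'' w' b : ZMod q, good2 b'' → good2 w' → good2 b →
      ∀ (c c' : ZMod q) (t1 t2 t3 : ℕ), t1 < q → t2 < q → t3 < q →
      |(∑ x ∈ Aset b'' w', (∑ a ∈ Aset b (-x / b''), Xp c c' a (-x / b'') t1 t2 t3) /
        (Aset b (-x / b'')).card) / (Aset b'' w').card| ≤ Φ b'' w' b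

/-- statement of `two_step0` -/
def TwoStep0 : Prop := ∃ C : ℝ, 0 < C ∧ ∃ q₀ : ℕ, ∀ q : ℕ, q₀ ≤ q → ∀ _hq : Fact q.Prime, Suit q →
    ∃ Φ : ZMod q → ZMod q → ℝ, (∀ x z, 0 ≤ Φ x z) ∧
      (∑ x : ZMod q, ∑ z : ZMod q, Φ x z ≤ C * (La q * √(La q)) * (q:ℝ) ^ 2) ∧
      ∀ b'' b : ZMod q, good2 b'' → good2 b →
      ∀ (c c' : ZMod q) (t1 t2 t3 : ℕ), t1 < q → t2 < q → t3 < q →
      |(∑ x ∈ Aset0 b'', (∑ a ∈ Aset b (-x / b''), Xp c c' a (-x / b'') t1 t2 t3) /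
        (Aset b (-x / b'')).card) / (Aset0 b'').card| ≤ Φ b'' b

/-- statement of `one_step` -/
def OneStep : Prop := ∃ C : ℝ, 0 < C ∧ ∃ q₀ : ℕ, ∀ q : ℕ, q₀ ≤ q → ∀ _hq : Fact q.Prime, Suit q →
    ∃ Φ : ZMod q → ZMod q → ℝ, (∀ x z, 0 ≤ Φ x z) ∧
      (∑ x : ZMod q, ∑ z : ZMod q, Φ x z ≤ C * (La q * √(La q)) * (q:ℝ) ^ 2) ∧
      ∀ b w : ZMod q, good2 b → good2 w →
      ∀ (c2 c3 : ZMod q) (t1 t2 t3 : ℕ), t1 < q → t2 < q → t3 < q →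
      |(∑ α ∈ Aset b w, Xl c2 c3 α b t1 t2 t3) / (Aset b w).card| ≤ Φ b w

/-- statement of `one_step0` -/
def OneStep0 : Prop := ∃ C : ℝ, 0 < C ∧ ∃ q₀ : ℕ, ∀ q : ℕ, q₀ ≤ q → ∀ _hq : Fact q.Prime, Suit q →
    ∃ Φ : ZMod q → ℝ, (∀ x, 0 ≤ Φ x) ∧
      (∑ x : ZMod q, Φ x ≤ C * (La q * √(La q)) * q) ∧
      ∀ b : ZMod q, good2 b →
      ∀ (c2 c3 : ZMod q) (t1 t2 t3 : ℕ), t1 < q → t2 < q → t3 < q →
      |(∑ α ∈ Aset0 b, Xl c2 c3 α b t1 t2 t3) / (Aset0 b).card| ≤ Φ b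

lemma hyp_of (q : ℕ) [Fact q.Prime] (hq3 : 8 ≤ q)
    (hA : ∀ b w : ZMod q, good2 b → good2 w → (q:ℝ)/2 ≤ (Aset b w).card ∧ (q:ℝ)/2 ≤ (Aset0 b).card)
    (hb : ∀ s : Finset (ZMod q), (∀ x, x ∈ s ↔ x ≠ 0 ∧ ¬ good2 x) → (s.card : ℝ) ≤ q / 2 ^ (38 * uu q)) :
    Hyp q := by
  classical
  refine ⟨hA, ?_⟩
  intro s hs
  have h1 := hb (univ.filter (fun x => x ≠ 0 ∧ ¬ good2 x)) (fun x => by simp)
  have h2 : (univ : Finset (ZMod q)) ⊆ s ∪ (univ.filter (fun x => x ≠ 0 ∧ ¬ good2 x)) ∪ {0} := by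
    intro x _
    rw [mem_union, mem_union, mem_singleton, mem_filter, hs]
    by_cases hx : x = 0
    · right; exact hx
    · left
      by_cases hg : good2 x
      · left; exact hg
      · right; exact ⟨mem_univ _, hx, hg⟩
  have h3 := card_le_card h2
  have h4 := card_union_le (s ∪ (univ.filter (fun x => x ≠ 0 ∧ ¬ good2 x))) {0}
  have h5 := card_union_le s (univ.filter (fun x => x ≠ 0 ∧ ¬ good2 x))
  rw [card_univ, ZMod.card] at h3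
  rw [card_singleton] at h4
  have h6 : q ≤ s.card + (univ.filter (fun x : ZMod q => x ≠ 0 ∧ ¬ good2 x)).card + 1 := by omega
  have h7 : (q:ℝ) ≤ s.card + ((univ.filter (fun x : ZMod q => x ≠ 0 ∧ ¬ good2 x)).card : ℝ) + 1 := by
    exact_mod_cast h6
  have hu : 1 ≤ uu q := by unfold uu; omega
  have h8 : (q:ℝ) / 2 ^ (38 * uu q) ≤ q / 4 := by
    apply div_le_div_of_nonneg_left (by positivity) (by norm_num)
    calc (4:ℝ) = 2 ^ 2 := by norm_num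
      _ ≤ 2 ^ (38 * uu q) := pow_le_pow_right₀ (by norm_num) (by omega)
  have h9 : (8:ℝ) ≤ q := by exact_mod_cast hq3
  linarith

lemma sum_scale {a b c : ℝ} (h : a ≤ b * c) {b' : ℝ} (hb : b ≤ b') (hc : 0 ≤ c) : a ≤ b' * c :=
  h.trans (mul_le_mul_of_nonneg_right hb hc)

lemma est_sqrt (n ℓ lq : ℝ) (T : ℝ) (hn1 : 1 ≤ n) (hl1 : 1 ≤ ℓ) (hlq0 : 0 ≤ lq) (hlq : lq ≤ ℓ + 1)
    (hTb : T ≤ 4 * n^2) : √(T * (5 * (n+2) * lq + 5)) ≤ 12 * (n * √n) * ℓ := by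
  have h1 : 5 * (n+2) * lq + 5 ≤ 35 * n * ℓ := by
    have h2 : 5 * (n+2) * lq ≤ 5 * (3 * n) * (2 * ℓ) := by
      refine mul_le_mul (by linarith) (by linarith) hlq0 (by positivity)
    nlinarith
  have h3 : T * (5 * (n+2) * lq + 5) ≤ (4 * n^2) * (35 * n * ℓ) :=
    mul_le_mul hTb h1 (by positivity) (by positivity)
  have h4 : (4 * n^2) * (35 * n * ℓ) ≤ (12 * (n * √n) * ℓ)^2 := by
    have h5 : (12 * (n * √n) * ℓ)^2 = 144 * n^2 * (√n)^2 * ℓ^2 := by ring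
    rw [h5, Real.sq_sqrt (by positivity)]
    have h6 : ℓ ≤ ℓ^2 := by nlinarith
    have h7 : 0 ≤ n^3 := by positivity
    have h8 := mul_le_mul_of_nonneg_left h6 h7
    have h9 : 0 ≤ n^3 * ℓ := by positivity
    calc (4 * n^2) * (35 * n * ℓ) = 140 * (n^3 * ℓ) := by ring
      _ ≤ 144 * (n^3 * ℓ) := by linarith
      _ ≤ 144 * (n^3 * ℓ^2) := by linarith
      _ = 144 * n^2 * n * ℓ^2 := by ring
  calc √(T * (5 * (n+2) * lq + 5)) ≤ √((12 * (n * √n) * ℓ)^2) := Real.sqrt_le_sqrt (h3.trans h4)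
    _ = 12 * (n * √n) * ℓ := Real.sqrt_sq (by positivity)

lemma est_one (n ℓ Cm M T : ℝ) (hn1 : 1 ≤ n) (hl1 : 1 ≤ ℓ) (hCm : 0 < Cm) (hM : M = Cm * (ℓ * √ℓ))
    (hTb : T ≤ 4 * n^2) : 4 * (12 * M * T + 1) ≤ (192 * Cm + 4) * (n^2 * (ℓ * √ℓ)) := by
  have hsl1 : 1 ≤ √ℓ := Real.one_le_sqrt.mpr hl1
  have hM0 : 0 ≤ M := by rw [hM]; positivity
  have e1 : 12 * M * T ≤ 12 * M * (4 * n^2) := mul_le_mul_of_nonneg_left hTb (by positivity)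
  have e2 : 1 ≤ n^2 * (ℓ * √ℓ) := by
    have f1 : 1 ≤ n^2 := one_le_pow₀ hn1
    have f2 : 1 ≤ ℓ * √ℓ := one_le_mul_of_one_le_of_one_le hl1 hsl1
    exact one_le_mul_of_one_le_of_one_le f1 f2
  calc 4 * (12 * M * T + 1) ≤ 4 * (12 * M * (4 * n^2) + n^2 * (ℓ * √ℓ)) := by linarith
    _ = (192 * Cm + 4) * (n^2 * (ℓ * √ℓ)) := by rw [hM]; ring

lemma est_two (n ℓ K K1 S : ℝ) (hn1 : 1 ≤ n) (hl1 : 1 ≤ ℓ) (hK1p : 0 < K1) (_hKp : 0 < K)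
    (hK2 : K ≤ K1 * ℓ ^ 91) (hS0 : 0 ≤ S) (hS : S ≤ 12 * (n * √n) * ℓ) :
    16 * (2 * K) * S + 4 * (2 * K) ≤ 392 * K1 * (n * √n * ℓ ^ 96) := by
  have hsn1 : 1 ≤ √n := Real.one_le_sqrt.mpr hn1
  have hp1 : ℓ ^ 91 * ℓ ≤ ℓ ^ 96 := by
    calc ℓ ^ 91 * ℓ = ℓ ^ 92 := by ring
      _ ≤ ℓ ^ 96 := pow_le_pow_right₀ hl1 (by norm_num)
  have hp2 : ℓ ^ 91 ≤ ℓ ^ 96 := pow_le_pow_right₀ hl1 (by norm_num)
  have e0 : 0 ≤ n * √n := by positivity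
  have e1 : 16 * (2 * K) * S ≤ 16 * (2 * (K1 * ℓ^91)) * (12 * (n * √n) * ℓ) := by
    refine mul_le_mul (by linarith) hS hS0 (by positivity)
  have e2 : 16 * (2 * (K1 * ℓ^91)) * (12 * (n * √n) * ℓ) = 384 * K1 * (n * √n * (ℓ^91 * ℓ)) := by ring
  have e3 : 384 * K1 * (n * √n * (ℓ^91 * ℓ)) ≤ 384 * K1 * (n * √n * ℓ^96) :=
    mul_le_mul_of_nonneg_left (mul_le_mul_of_nonneg_left hp1 e0) (by positivity)
  have e4 : 4 * (2 * K) ≤ 8 * K1 * (n * √n * ℓ^96) := by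
    have g1 : 1 ≤ n * √n := one_le_mul_of_one_le_of_one_le hn1 hsn1
    have g2 : ℓ ^ 96 ≤ n * √n * ℓ^96 := le_mul_of_one_le_left (by positivity) g1
    have g3 : K1 * ℓ ^ 91 ≤ K1 * (n * √n * ℓ^96) :=
      mul_le_mul_of_nonneg_left (hp2.trans g2) hK1p.le
    linarith
  linarith

lemma est_K (q : ℕ) (hq : 2 ≤ q) (C5 C6 : ℝ) (h5 : 0 < C5) (h6 : 0 < C6) :
    (C5 + C6) * (La q : ℝ) ^ 3 * 2 ^ k2 q ≤ (C5 + C6) * 2 ^ 88 * (La q : ℝ) ^ 91 := by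
  have h1 : (2:ℝ) ^ k2 q ≤ (2 * (La q : ℝ)) ^ 88 := by
    have e : k2 q = uu q * 88 := by unfold k2; ring
    rw [e, pow_mul]
    refine pow_le_pow_left₀ (by positivity) ?_ 88
    have := uu_le q hq
    exact_mod_cast this
  calc (C5 + C6) * (La q : ℝ) ^ 3 * 2 ^ k2 q ≤ (C5 + C6) * (La q : ℝ) ^ 3 * (2 * (La q : ℝ)) ^ 88 :=
        mul_le_mul_of_nonneg_left h1 (by positivity)
    _ = (C5 + C6) * 2 ^ 88 * (La q : ℝ) ^ 91 := by rw [mul_pow]; ring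

lemma est_log (q : ℕ) (hq : 2 ≤ q) : 0 ≤ Real.log q ∧ Real.log q ≤ (La q : ℝ) + 1 := by
  have h0 : 0 ≤ Real.log q := Real.log_nonneg (by exact_mod_cast (by omega : 1 ≤ q))
  refine ⟨h0, ?_⟩
  have h1 : (q:ℝ) ≤ 2 ^ (La q + 1) := by
    have := lt_La q
    exact_mod_cast this.le
  have h2 : Real.log q ≤ Real.log (2 ^ (La q + 1)) :=
    Real.log_le_log (by exact_mod_cast (by omega : 0 < q)) h1
  rw [Real.log_pow] at h2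
  push_cast at h2
  have h3 : Real.log 2 ≤ 1 := by
    have := Real.log_two_lt_d9
    linarith
  have h4 : ((La q : ℝ) + 1) * Real.log 2 ≤ ((La q : ℝ) + 1) * 1 :=
    mul_le_mul_of_nonneg_left h3 (by positivity)
  linarith

theorem core_of (h2 : TwoStep) (h20 : TwoStep0) (h1 : OneStep) (h10 : OneStep0) :
    ∃ C : ℝ, 0 < C ∧ ∃ q₀ : ℕ, ∀ q : ℕ, q₀ ≤ q → ∀ hq : Fact q.Prime, Suit q →
    ∀ n : ℕ, 1 ≤ n → ∃ a : ℕ → ℕ → ZMod q, (∀ r j, a r j ≠ 0) ∧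
      ∀ (D0 z : ℕ → ZMod q) (t1 t2 t3 : ℕ → ℕ), (∀ i, t1 i < q) → (∀ i, t2 i < q) → (∀ i, t3 i < q) →
      |Tot n a D0 z t1 t2 t3| ≤ C * ((n:ℝ) ^ 2 * (La q * √(La q)) + (n:ℝ) * √n * (La q : ℝ) ^ 96) := by
  obtain ⟨C1, hC1, q1, h2⟩ := h2
  obtain ⟨C2, hC2, q2, h20⟩ := h20
  obtain ⟨C3, hC3, q3, h1⟩ := h1
  obtain ⟨C4, hC4, q4, h10⟩ := h10
  obtain ⟨C5, hC5, q5, hRp⟩ := sup_Rp
  obtain ⟨C6, hC6, q6, hRl⟩ := sup_Rl
  obtain ⟨q7, hcard⟩ := Aset_card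
  obtain ⟨q8, hbad⟩ := bad_two
  set Cm : ℝ := C1 + C2 + C3 + C4 with hCm
  set K1 : ℝ := (C5 + C6) * 2 ^ 88 with hK1
  have hK1p : 0 < K1 := by positivity
  refine ⟨192 * Cm + 4 + 392 * K1, by positivity, 8 + q1 + q2 + q3 + q4 + q5 + q6 + q7 + q8, ?_⟩
  intro q hqq hq hs n hn
  classical
  have hq8 : 8 ≤ q := by omega
  have hLa1 : 1 ≤ La q := by
    unfold La
    have : Nat.log 2 2 ≤ Nat.log 2 q := Nat.log_mono_right (by omega)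
    have h22 : Nat.log 2 2 = 1 := by norm_num
    omega
  have hl1 : (1:ℝ) ≤ La q := by exact_mod_cast hLa1
  set ℓ : ℝ := (La q : ℝ) with hℓ
  have hsl1 : 1 ≤ √ℓ := Real.one_le_sqrt.mpr hl1
  obtain ⟨Φ1, hΦ1n, hΦ1s, hΦ1⟩ := h2 q (by omega) hq hs
  obtain ⟨Φ2, hΦ2n, hΦ2s, hΦ2⟩ := h20 q (by omega) hq hs
  obtain ⟨Φ3, hΦ3n, hΦ3s, hΦ3⟩ := h1 q (by omega) hq hs
  obtain ⟨Φ4, hΦ4n, hΦ4s, hΦ4⟩ := h10 q (by omega) hq hs
  have hH : Hyp q := by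
    refine hyp_of q hq8 (fun b w hb hw => hcard q (by omega) hq b w hb hw) ?_
    intro s hs'
    have h := hbad q (by omega) hq
    have e : s = univ.filter (fun x => x ≠ 0 ∧ ¬ good2 x) := by
      ext x
      rw [hs' x]
      simp
    rw [e]
    convert h using 2
  set M : ℝ := Cm * (ℓ * √ℓ) with hM
  have hll : 0 ≤ ℓ * √ℓ := by positivity
  have hH2 : Hyp2 q Φ2 Φ1 Φ4 Φ3 M := by
    refine ⟨hΦ2n, hΦ1n, hΦ4n, hΦ3n, ?_, ?_, ?_, ?_, hΦ1, hΦ2, hΦ3, hΦ4⟩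
    · exact sum_scale hΦ2s (mul_le_mul_of_nonneg_right (by rw [hCm]; linarith) hll) (by positivity)
    · exact sum_scale hΦ1s (mul_le_mul_of_nonneg_right (by rw [hCm]; linarith) hll) (by positivity)
    · exact sum_scale hΦ4s (mul_le_mul_of_nonneg_right (by rw [hCm]; linarith) hll) (by positivity)
    · exact sum_scale hΦ3s (mul_le_mul_of_nonneg_right (by rw [hCm]; linarith) hll) (by positivity)
  set K : ℝ := (C5 + C6) * ℓ ^ 3 * 2 ^ k2 q with hKdef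
  have hKp : 0 < K := by positivity
  have hXP : ∀ a w : ZMod q, pgood a w → ∀ (c c' : ZMod q) (t1 t2 t3 : ℕ), t1 < q → t2 < q → t3 < q →
      |Xp c c' a w t1 t2 t3| ≤ K := by
    intro a w hg c c' t1 t2 t3 ht1 ht2 ht3
    refine (Xp_le c c' a w hg.1 hg.2.1 t1 t2 t3 ht1 ht2 ht3).trans ?_
    refine (hRp q (by omega) hq a w hg).trans ?_
    rw [hKdef]
    have : C5 * ℓ ^ 3 ≤ (C5 + C6) * ℓ ^ 3 := mul_le_mul_of_nonneg_right (by linarith) (by positivity)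
    exact mul_le_mul_of_nonneg_right this (by positivity)
  have hXL : ∀ α b : ZMod q, lgood α b → ∀ (c2 c3 : ZMod q) (t1 t2 t3 : ℕ), t1 < q → t2 < q → t3 < q →
      |Xl c2 c3 α b t1 t2 t3| ≤ K := by
    intro α b hg c2 c3 t1 t2 t3 ht1 ht2 ht3
    refine (Xl_le c2 c3 α b t1 t2 t3 ht1 ht2 ht3).trans ?_
    refine (hRl q (by omega) hq α b hg).trans ?_
    rw [hKdef]
    have h1 : C6 * ℓ ^ 3 ≤ (C5 + C6) * ℓ ^ 3 := mul_le_mul_of_nonneg_right (by linarith) (by positivity)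
    have h2 : (2:ℝ) ^ k1 q ≤ 2 ^ k2 q := pow_le_pow_right₀ (by norm_num) (by unfold k1 k2; omega)
    exact mul_le_mul h1 h2 (by positivity) (by positivity)
  obtain ⟨a, ha, hT⟩ := core_q hH hH2 n K hKp hXP hXL
  refine ⟨a, ha, ?_⟩
  intro D0 z t1 t2 t3 ht1 ht2 ht3
  refine (hT D0 z t1 t2 t3 ht1 ht2 ht3).trans ?_
  have hn1 : (1:ℝ) ≤ n := by exact_mod_cast hn
  have hTb : (((n+1)*(n+1) : ℕ) : ℝ) ≤ 4 * (n:ℝ)^2 := by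
    push_cast
    nlinarith
  have hK2 : K ≤ K1 * ℓ ^ 91 := est_K q (by omega) C5 C6 hC5 hC6
  obtain ⟨hlq0, hlq⟩ := est_log q (by omega)
  have hCmp : 0 < Cm := by positivity
  have hsq := est_sqrt n ℓ (Real.log q) _ hn1 hl1 hlq0 hlq hTb
  have t1' := est_one n ℓ Cm M _ hn1 hl1 hCmp hM hTb
  have t2' := est_two n ℓ K K1 _ hn1 hl1 hK1p hKp hK2 (Real.sqrt_nonneg _) hsq
  calc 4 * (12 * M * (((n+1)*(n+1) : ℕ) : ℝ) + 1) +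
        16 * (2 * K) * √((((n+1)*(n+1) : ℕ) : ℝ) * (5 * (n+2) * Real.log q + 5)) + 4 * (2 * K) ≤
      (192 * Cm + 4) * ((n:ℝ)^2 * (ℓ * √ℓ)) + 392 * K1 * ((n:ℝ) * √n * ℓ ^ 96) := by linarith
    _ ≤ (192 * Cm + 4 + 392 * K1) * ((n:ℝ) ^ 2 * (ℓ * √ℓ)) +
        (192 * Cm + 4 + 392 * K1) * ((n:ℝ) * √n * ℓ ^ 96) := by
      refine add_le_add (mul_le_mul_of_nonneg_right (by linarith) (by positivity))
        (mul_le_mul_of_nonneg_right (by linarith) (by positivity))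
    _ = (192 * Cm + 4 + 392 * K1) * ((n:ℝ) ^ 2 * (ℓ * √ℓ) + (n:ℝ) * √n * ℓ ^ 96) := by ring

end Pool.Agent.H935R2.PS.J2
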