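import Pool.Agent.H935R2.PS.KA

set_option autoImplicit false

/-!
# Net part, task KC: low levels are exact, high levels contribute little (helper152)
-/

namespace Pool.Agent.H935R2.PS

open Finset

variable {q : ℕ} [Fact q.Prime]

namespace KC

/-- Two points with the same digits, at least `n` of them, are equal. -/
theorem uniq (n : ℕ) (a : ℕ → ℕ → ZMod q) (ha : ∀ r j, a r j ≠ 0) (m : Fin 3 → ℕ)
    (hm : n ≤ m 0 + m 1 + m 2) (u u' : Fin n → ZMod q)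
    (h : ∀ l, ∀ k ∈ Icc 1 (m l), dg n a (ex u) l k = dg n a (ex u') l k) : u = u' := by
  set m' : Fin 3 → ℕ := ![min (m 0) n, min (m 1) (n - min (m 0) n),
    n - min (m 0) n - min (m 1) (n - min (m 0) n)] with hm'
  have hle : ∀ l, m' l ≤ m l := by
    intro l
    fin_cases l
    · simp only [hm', Fin.zero_eta, Matrix.cons_val_zero]
      omega
    · simp only [hm', Fin.mk_one, Matrix.cons_val_one]
      simp
    · simp only [hm', Fin.reduceFinMk, Matrix.cons_val]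
      omega
  have hs : m' 0 + m' 1 + m' 2 = n := by
    simp only [hm', Matrix.cons_val_zero, Matrix.cons_val_one, Matrix.cons_val]
    omega
  obtain ⟨w, -, hw⟩ := net_unique n a ha m' hs (fun l k => dg n a (ex u) l k)
  rw [hw u (fun l k _ => rfl), hw u' (fun l k hk => (h l k ?_).symm)]
  rw [mem_Icc] at hk ⊢
  exact ⟨hk.1, hk.2.trans (hle l)⟩

theorem val_T {T : ℕ} (hT : T < q) : ((T : ℕ) : ZMod q).val = T := ZMod.val_cast_of_lt hT

end KC

/-- KC. Low levels are exact. -/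
theorem low_cnt (n : ℕ) (a : ℕ → ℕ → ZMod q) (ha : ∀ r j, a r j ≠ 0) (T : Fin 3 → ℕ → ℕ)
    (hT : ∀ l k, T l k < q) (k : Fin 3 → ℕ) (hk : ∀ l, 1 ≤ k l) (hkn : k 0 + k 1 + k 2 ≤ n) :
    (cnt n a T k : ℝ) = (T 0 (k 0) : ℝ) * T 1 (k 1) * T 2 (k 2) * (q:ℝ) ^ (n - (k 0 + k 1 + k 2)) := by
  classical
  set e := n - (k 0 + k 1 + k 2) with he
  set m : Fin 3 → ℕ := ![k 0 + e, k 1, k 2] with hm
  have hm0 : m 0 = k 0 + e := rfl
  have hm1 : m 1 = k 1 := rfl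
  have hm2 : m 2 = k 2 := rfl
  have hms : m 0 + m 1 + m 2 = n := by rw [hm0, hm1, hm2]; omega
  have hkm : ∀ l, k l ≤ m l := by
    intro l
    fin_cases l
    · exact Nat.le_add_right _ _
    · exact le_rfl
    · exact le_rfl
  have hcard : cnt n a T k = ((Fintype.piFinset (fun l : Fin 3 => range (T l (k l)))) ×ˢ
      (univ : Finset (Fin e → ZMod q))).card := by
    unfold cnt
    refine card_bij (fun u _ => (fun l => (dg n a (ex u) l (k l)).val,
      fun t : Fin e => dg n a (ex u) 0 (k 0 + 1 + t.1))) ?_ ?_ ?_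
    · intro u hu
      rw [mem_filter] at hu
      rw [mem_product, Fintype.mem_piFinset]
      exact ⟨fun l => mem_range.2 (hu.2 l).2, mem_univ _⟩
    · intro u hu u' hu' h
      rw [mem_filter] at hu hu'
      rw [Prod.mk.injEq] at h
      refine KC.uniq n a ha m hms.ge u u' fun l k' hk' => ?_
      rw [mem_Icc] at hk'
      rcases lt_trichotomy k' (k l) with h1 | h1 | h1
      · rw [(hu.2 l).1 k' (mem_Icc.2 ⟨hk'.1, by omega⟩),
          (hu'.2 l).1 k' (mem_Icc.2 ⟨hk'.1, by omega⟩)]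
      · rw [h1]
        exact ZMod.val_injective q (congrFun h.1 l)
      · have hl : l = 0 := by
          fin_cases l
          · rfl
          · exfalso
            have h2 := hk'.2
            simp only [Fin.mk_one, hm1] at h1 h2
            omega
          · exfalso
            have h2 := hk'.2
            simp only [Fin.reduceFinMk, hm2] at h1 h2
            omega
        subst hl
        rw [hm0] at hk'
        have h2 := congrFun h.2 ⟨k' - k 0 - 1, by omega⟩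
        simp only at h2
        have h3 : k 0 + 1 + (k' - k 0 - 1) = k' := by omega
        rwa [h3] at h2
    · rintro ⟨x, g⟩ hx
      rw [mem_product, Fintype.mem_piFinset] at hx
      have hx1 : ∀ l, x l < T l (k l) := fun l => mem_range.1 (hx.1 l)
      obtain ⟨u, hu, -⟩ := net_unique n a ha m hms (fun l k' => if k' < k l then
        (T l k' : ZMod q) else if k' = k l then (x l : ZMod q) else
          if h : k' - k 0 - 1 < e then g ⟨k' - k 0 - 1, h⟩ else 0)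
      have hud : ∀ l, dg n a (ex u) l (k l) = (x l : ZMod q) := by
        intro l
        rw [hu l (k l) (mem_Icc.2 ⟨hk l, hkm l⟩), if_neg (lt_irrefl _), if_pos rfl]
      refine ⟨u, ?_, ?_⟩
      · rw [mem_filter]
        refine ⟨mem_univ _, fun l => ⟨?_, ?_⟩⟩
        · intro k' hk'
          rw [mem_Icc] at hk'
          have := hk l
          have := hkm l
          rw [hu l k' (mem_Icc.2 ⟨hk'.1, by omega⟩), if_pos (by omega)]
        · rw [hud, KC.val_T ((hx1 l).trans (hT l _))]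
          exact hx1 l
      · refine Prod.ext ?_ ?_
        · funext l
          show (dg n a (ex u) l (k l)).val = x l
          rw [hud, KC.val_T ((hx1 l).trans (hT l _))]
        · funext t
          show dg n a (ex u) 0 (k 0 + 1 + t.1) = g t
          have ht := t.2
          rw [hu 0 (k 0 + 1 + t.1) (mem_Icc.2 ⟨by omega, by rw [hm0]; omega⟩),
            if_neg (by omega), if_neg (by omega), dif_pos (by omega)]
          congr 1
          apply Fin.ext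
          show k 0 + 1 + t.1 - k 0 - 1 = t.1
          omega
  rw [hcard, card_product, Fintype.card_piFinset, Fin.prod_univ_three]
  simp only [card_range, card_univ, Fintype.card_fun, ZMod.card, Fintype.card_fin]
  push_cast
  ring

namespace KC

/-- For fixed `k1`, `k2` the tail levels contain at most one point. -/
theorem cnt_le_one (n : ℕ) (a : ℕ → ℕ → ZMod q) (ha : ∀ r j, a r j ≠ 0) (T : Fin 3 → ℕ → ℕ)
    (hT : ∀ l k, T l k < q) (k1 k2 : ℕ) (h1 : 1 ≤ k1) (h2 : 1 ≤ k2) :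
    ∑ k3 ∈ (Icc 1 n).filter (fun k3 => n + 3 ≤ k1 + k2 + k3), cnt n a T ![k1, k2, k3] ≤ 1 := by
  classical
  unfold cnt
  rw [← card_sigma, card_le_one]
  have key : ∀ (k3 : ℕ) (u : Fin n → ZMod q), n + 3 ≤ k1 + k2 + k3 → lev a T ![k1, k2, k3] u →
      ∀ l, ∀ k ∈ Icc 1 ((![k1 - 1, k2 - 1, n + 2 - k1 - k2] : Fin 3 → ℕ) l),
        dg n a (ex u) l k = (T l k : ZMod q) := by
    intro k3 u h3 hu l k hk
    apply (hu l).1 k
    rw [mem_Icc] at hk ⊢
    refine ⟨hk.1, ?_⟩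
    have hk2 := hk.2
    fin_cases l
    · simpa using hk2
    · simpa using hk2
    · simp only [Fin.reduceFinMk, Matrix.cons_val] at hk2 ⊢
      omega
  have lt_absurd : ∀ (k3 k3' : ℕ) (u : Fin n → ZMod q), 1 ≤ k3 → k3 < k3' →
      lev a T ![k1, k2, k3] u → lev a T ![k1, k2, k3'] u → False := by
    intro k3 k3' u h3 hlt hu hu'
    have e1 := (hu 2).2
    have e2 := (hu' 2).1 k3 (by
      rw [mem_Icc]
      simp only [Matrix.cons_val]
      omega)
    simp only [Matrix.cons_val] at e1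
    rw [e2, val_T (hT _ _)] at e1
    exact lt_irrefl _ e1
  rintro ⟨k3, u⟩ hu ⟨k3', u'⟩ hu'
  rw [mem_sigma, mem_filter, mem_filter, mem_Icc] at hu hu'
  simp only at hu hu'
  have huu : u = u' := by
    refine uniq n a ha ![k1 - 1, k2 - 1, n + 2 - k1 - k2] ?_ u u' fun l k hk => ?_
    · simp only [Matrix.cons_val_zero, Matrix.cons_val_one, Matrix.cons_val]
      omega
    · rw [key k3 u hu.1.2 hu.2.2 l k hk, key k3' u' hu'.1.2 hu'.2.2 l k hk]
  subst huu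
  have hkk : k3 = k3' := by
    rcases lt_trichotomy k3 k3' with h | h | h
    · exact (lt_absurd k3 k3' u hu.1.1.1 h hu.2.2 hu'.2.2).elim
    · exact h
    · exact (lt_absurd k3' k3 u hu'.1.1.1 h hu'.2.2 hu.2.2).elim
  rw [hkk]

/-- Geometric sum. -/
theorem geo (Q : ℝ) (hQ : 1 ≤ Q) (m M : ℕ) (hm : 1 ≤ m) :
    ∑ k ∈ Icc m M, (Q - 1) / Q ^ k ≤ 1 / Q ^ (m - 1) := by
  have hQ0 : 0 < Q := by linarith
  have key : ∀ M, m ≤ M + 1 → ∑ k ∈ Icc m M, (Q - 1) / Q ^ k ≤ 1 / Q ^ (m - 1) - 1 / Q ^ M := by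
    intro M hM
    induction M with
    | zero =>
      have : m = 1 := by omega
      subst this
      simp
    | succ M ih =>
      rcases Nat.lt_or_ge (M + 1) m with h | h
      · have h' : m = M + 2 := by omega
        subst h'
        rw [Icc_eq_empty (by omega), sum_empty]
        simp
      · rw [← insert_Icc_right_eq_Icc_add_one h, sum_insert (by simp)]
        have h2 := ih (by omega)
        have h3 : (Q - 1) / Q ^ (M + 1) = 1 / Q ^ M - 1 / Q ^ (M + 1) := by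
          rw [pow_succ]
          field_simp
        rw [h3]
        linarith
  rcases Nat.lt_or_ge (M + 1) m with h | h
  · rw [Icc_eq_empty (by omega), sum_empty]
    positivity
  · refine (key M h).trans ?_
    have : 0 ≤ 1 / Q ^ M := by positivity
    linarith

/-- For fixed `k1`, `k2` the volume of the tail levels is at most one. -/
theorem vol_le_one (n : ℕ) (T : Fin 3 → ℕ → ℕ) (hT : ∀ l k, T l k < q) (k1 k2 : ℕ) :
    ∑ k3 ∈ (Icc 1 n).filter (fun k3 => n + 3 ≤ k1 + k2 + k3),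
      (T 0 k1 : ℝ) * T 1 k2 * T 2 k3 * ((q:ℝ) ^ n / (q:ℝ) ^ (k1 + k2 + k3)) ≤ 1 := by
  have hq1 : (1:ℝ) ≤ q := by exact_mod_cast (Fact.out : q.Prime).one_lt.le
  have hq0 : (0:ℝ) < q := by linarith
  have hTq : ∀ l k, (T l k : ℝ) ≤ q - 1 := by
    intro l k
    have : (T l k : ℝ) + 1 ≤ q := by exact_mod_cast hT l k
    linarith
  set m := max 1 (n + 3 - (k1 + k2)) with hm
  have hset : (Icc 1 n).filter (fun k3 => n + 3 ≤ k1 + k2 + k3) = Icc m n := by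
    ext x
    rw [mem_filter, mem_Icc, mem_Icc]
    omega
  rw [hset]
  have hterm : ∀ k3 ∈ Icc m n,
      (T 0 k1 : ℝ) * T 1 k2 * T 2 k3 * ((q:ℝ) ^ n / (q:ℝ) ^ (k1 + k2 + k3)) ≤
        (q:ℝ) ^ (n + 2) / (q:ℝ) ^ (k1 + k2) * ((q - 1) / (q:ℝ) ^ k3) := by
    intro k3 _
    have e1 : (T 0 k1 : ℝ) * T 1 k2 * T 2 k3 ≤ q * q * (q - 1) := by
      apply mul_le_mul _ (hTq 2 k3) (by positivity) (by positivity)
      apply mul_le_mul _ _ (by positivity) (by positivity)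
      · linarith [hTq 0 k1]
      · linarith [hTq 1 k2]
    have e2 : (0:ℝ) ≤ (q:ℝ) ^ n / (q:ℝ) ^ (k1 + k2 + k3) := by positivity
    refine (mul_le_mul_of_nonneg_right e1 e2).trans (le_of_eq ?_)
    rw [pow_add (q:ℝ) (k1 + k2) k3, pow_add (q:ℝ) n 2]
    field_simp
  refine (sum_le_sum hterm).trans ?_
  rw [← mul_sum]
  have h3 := geo (q:ℝ) hq1 m n (le_max_left _ _)
  calc (q:ℝ) ^ (n + 2) / (q:ℝ) ^ (k1 + k2) * ∑ k ∈ Icc m n, ((q:ℝ) - 1) / (q:ℝ) ^ k
      ≤ (q:ℝ) ^ (n + 2) / (q:ℝ) ^ (k1 + k2) * (1 / (q:ℝ) ^ (m - 1)) :=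
        mul_le_mul_of_nonneg_left h3 (by positivity)
    _ = (q:ℝ) ^ (n + 2) / (q:ℝ) ^ (k1 + k2 + (m - 1)) := by
        rw [pow_add (q:ℝ) (k1 + k2)]
        field_simp
    _ ≤ 1 := by
        rw [div_le_one (by positivity)]
        exact pow_le_pow_right₀ hq1 (by omega)

theorem split (n : ℕ) (f : ℕ → ℕ → ℕ → ℝ) :
    ∑ k ∈ (Icc 1 n ×ˢ Icc 1 n ×ˢ Icc 1 n).filter
      (fun k : ℕ × ℕ × ℕ => n + 3 ≤ k.1 + k.2.1 + k.2.2), f k.1 k.2.1 k.2.2 =
    ∑ k1 ∈ Icc 1 n, ∑ k2 ∈ Icc 1 n, ∑ k3 ∈ (Icc 1 n).filter (fun k3 => n + 3 ≤ k1 + k2 + k3),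
      f k1 k2 k3 := by
  rw [sum_filter, sum_product]
  refine sum_congr rfl fun k1 _ => ?_
  rw [sum_product]
  refine sum_congr rfl fun k2 _ => ?_
  rw [sum_filter]

theorem sum_le (n : ℕ) (f : ℕ → ℕ → ℕ → ℝ) (h : ∀ k1 k2, 1 ≤ k1 → 1 ≤ k2 →
    ∑ k3 ∈ (Icc 1 n).filter (fun k3 => n + 3 ≤ k1 + k2 + k3), f k1 k2 k3 ≤ 1) :
    ∑ k ∈ (Icc 1 n ×ˢ Icc 1 n ×ˢ Icc 1 n).filter
      (fun k : ℕ × ℕ × ℕ => n + 3 ≤ k.1 + k.2.1 + k.2.2), f k.1 k.2.1 k.2.2 ≤ (n:ℝ) ^ 2 := by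
  rw [split]
  calc ∑ k1 ∈ Icc 1 n, ∑ k2 ∈ Icc 1 n,
        ∑ k3 ∈ (Icc 1 n).filter (fun k3 => n + 3 ≤ k1 + k2 + k3), f k1 k2 k3
      ≤ ∑ _k1 ∈ Icc 1 n, ∑ _k2 ∈ Icc 1 n, (1:ℝ) := by
        refine sum_le_sum fun k1 hk1 => sum_le_sum fun k2 hk2 => ?_
        exact h k1 k2 (mem_Icc.1 hk1).1 (mem_Icc.1 hk2).1
    _ = (n:ℝ) ^ 2 := by
        rw [sum_const, sum_const, Nat.card_Icc]
        simp
        ring

end KC

/-- KC. The high levels contribute little. -/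
theorem tail_cnt (n : ℕ) (hn : 1 ≤ n) (a : ℕ → ℕ → ZMod q) (ha : ∀ r j, a r j ≠ 0) (T : Fin 3 → ℕ → ℕ)
    (hT : ∀ l k, T l k < q) :
    |∑ k ∈ (Icc 1 n ×ˢ Icc 1 n ×ˢ Icc 1 n).filter (fun k : ℕ × ℕ × ℕ => n + 3 ≤ k.1 + k.2.1 + k.2.2),
      ((cnt n a T ![k.1, k.2.1, k.2.2] : ℝ) -
        (T 0 k.1 : ℝ) * T 1 k.2.1 * T 2 k.2.2 * ((q:ℝ) ^ n / (q:ℝ) ^ (k.1 + k.2.1 + k.2.2)))| ≤
      2 * (n:ℝ) ^ 2 := by
  rw [sum_sub_distrib]
  have h1 := KC.sum_le n (fun k1 k2 k3 => (cnt n a T ![k1, k2, k3] : ℝ)) (by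
    intro k1 k2 h1 h2
    have := KC.cnt_le_one n a ha T hT k1 k2 h1 h2
    exact_mod_cast this)
  have h2 := KC.sum_le n (fun k1 k2 k3 => (T 0 k1 : ℝ) * T 1 k2 * T 2 k3 *
    ((q:ℝ) ^ n / (q:ℝ) ^ (k1 + k2 + k3))) (fun k1 k2 _ _ => KC.vol_le_one n T hT k1 k2)
  have h3 : 0 ≤ ∑ k ∈ (Icc 1 n ×ˢ Icc 1 n ×ˢ Icc 1 n).filter
      (fun k : ℕ × ℕ × ℕ => n + 3 ≤ k.1 + k.2.1 + k.2.2), (cnt n a T ![k.1, k.2.1, k.2.2] : ℝ) :=
    sum_nonneg fun _ _ => Nat.cast_nonneg _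
  have h4 : 0 ≤ ∑ k ∈ (Icc 1 n ×ˢ Icc 1 n ×ˢ Icc 1 n).filter
      (fun k : ℕ × ℕ × ℕ => n + 3 ≤ k.1 + k.2.1 + k.2.2), (T 0 k.1 : ℝ) * T 1 k.2.1 * T 2 k.2.2 *
        ((q:ℝ) ^ n / (q:ℝ) ^ (k.1 + k.2.1 + k.2.2)) :=
    sum_nonneg fun _ _ => by positivity
  have h5 : (0:ℝ) ≤ (n:ℝ) ^ 2 := by positivity
  rw [abs_le]
  constructor <;> linarith

end Pool.Agent.H935R2.PS
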