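import Pool.Agent.H935R2.PS.Defs

set_option autoImplicit false

/-!
# The sum of the partial quotients (definition shared by tasks G1, G2, G5)
-/

namespace Pool.Agent.H935R2.PS

open Finset

open Classical in
/-- sum of the partial quotients -/
noncomputable def S2 {q : ℕ} [NeZero q] (b : ZMod q) : ℝ :=
  1 + ∑ l ∈ (univ : Finset (ZMod q)).filter (fun l => l ≠ 0 ∧ nn l * nn (l * b) ≤ q),
    (q:ℝ) / ((nn l : ℝ) * nn (l * b))

end Pool.Agent.H935R2.PS
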